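import Pool.Agent.Work.MP_ffcd14_ag.Tr.Defs

/-!
# Abelian varieties with a Raynaud uniformisation

`X = E / M` over a complete algebraically closed non-archimedean field `K`, where `E` is an
extension of an abelian variety `B` with good reduction `B₀` by a torus `G_m ^ r`, and `M` is a
lattice of rank `r`.  The embedding of `B` is such that `E` is trivial over the tubes of the
standard affine charts; there the embedding of `X` is given by series in the coordinates `v` of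
`B` and `t` of the torus.  The field `k ⊆ K` is a field of representatives of the residue field.
-/

open MvPolynomial Filter Topology

namespace Pool.Agent.Work.MP_ffcd14_ag.Ry

open MP_10f4af_ag Tr

universe u

/-- The graph of a morphism. -/
def gph {k : Type u} [Field k] {P Q : Amb} {X : Var k P} {Y : Var k Q} (φ : Hom X Y) :
    Set ((P.sum Q).Pt k) := {z | ∃ h : fst z ∈ X.pts, (φ.toFun ⟨fst z, h⟩).1 = snd z}

/-- An abelian variety: a commutative group law whose subtraction is a morphism. -/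
structure AV {k : Type u} [Field k] [IsAlgClosed k] {P : Amb} (X : SV k P) where
  [grp : AddCommGroup X.pts]
  sub : Hom (X.prod X).toVar X.toVar
  eq : ∀ z (x y : X.pts), fst z.1 = x.1 → snd z.1 = y.1 → sub.toFun z = x - y

/-- The conjecture for all the effective divisor classes `l` with `∫ l ^ dim > 0`; on an abelian
variety these are the ample classes. -/
def HodgeAll {k : Type u} [Field k] [IsAlgClosed k] {P : Amb} (X : SV k P) : Prop :=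
  ∀ a ∈ Sp fun Z => (Z : Set (P.Pt k)) ⊆ X.pts ∧ Order.height Z + 1 = X.dim, (∀ p, 0 ≤ a p) →
    0 < Chw.int X ((mul X (cls X a))^[X.dim] (MP_10f4af_ag.cyc X X.pts)) →
      ∀ n, 2 * n ≤ X.dim → Chw.Hodge X (cls X a) n

variable {k K : Type u} [Field k] [NontriviallyNormedField K] [Algebra k K] {P Q : Amb} {r : ℕ}

/-- A complete valued field over `K` with a point of `E`: a chart `ς`, coordinates `v` on the base
and `t` on the torus. -/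
structure EP (Ω : Type u) (Q : Amb) (r : ℕ) where
  ς : ∀ i, Q.σ i
  v : Q.V → Ω
  t : Fin r → Ω

variable {Ω : Type u} [NormedField Ω] [NormedAlgebra K Ω]

/-- The point lies over the tube of the chart `ς` of `B`. -/
def EP.Ok (B : SV K Q) (ξ : EP Ω Q r) : Prop :=
  (∀ i, ξ.v ⟨i, ξ.ς i⟩ = 1) ∧ (∀ s, ‖ξ.v s‖ ≤ 1) ∧ On B.pts ξ.v ∧ ∀ j, ξ.t j ≠ 0

/-- The values of the series `c ς s = ∑ c v ^ β t ^ α`. -/
noncomputable def EP.th (c : (∀ i, Q.σ i) → P.V → (Q.V →₀ ℕ) × (Fin r → ℤ) → K) (ξ : EP Ω Q r)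
    (s : P.V) : Ω :=
  ∑' m, c ξ.ς s m • ((m.1.prod fun w n => ξ.v w ^ n) * ∏ j, ξ.t j ^ m.2 j)

variable (K) in
/-- The reduction of `v` lies on `A`. -/
def Red (A : Set (Q.Pt k)) (v : Q.V → Ω) : Prop :=
  ∀ f a, IsForm f a → (∀ x ∈ A, ev x f = 0) → ‖aeval v (map (algebraMap k K) f)‖ < 1

variable [IsAlgClosed k] [IsAlgClosed K]

variable (k) in
/-- A Raynaud uniformisation `E / M ≃ X`.  The statements on points hold for every complete valued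
field `Ω` over `K`; `‖t‖` is the valuation `E(Ω) → ℝ ^ r`, and `‖lam j‖` are its values on a basis
of `M`. -/
structure Ray (X : SV K P) where
  A : AV X
  r : ℕ
  Q : Amb
  B : SV K Q
  B₀ : SV k Q
  A₀ : AV B₀
  dim : r + B₀.dim = X.dim
  c : (∀ i, Q.σ i) → P.V → (Q.V →₀ ℕ) × (Fin r → ℤ) → K
  lam : Fin r → Fin r → K
  ne : ∀ j i, lam j i ≠ 0
  ind : LinearIndependent ℝ fun j i => Real.log ‖lam j i‖
  ent : ∀ ς s (ρ : Fin r → ℝ), (∀ i, 0 < ρ i) →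
    Tendsto (fun m => ‖c ς s m‖ * ∏ i, ρ i ^ m.2 i) cofinite (𝓝 0)
  pts : ∀ y ∈ B₀.pts, ∃ v : Q.V → K, On B.pts v ∧ ∀ s, ‖v s - algebraMap k K (rp y s)‖ < 1
  lift : ∀ (ς : ∀ i, Q.σ i) f a, IsForm f a → (∀ y ∈ B₀.pts, ev y f = 0) →
    ∃ g : MvPolynomial Q.V K, (∀ β, ‖coeff β (g - map (algebraMap k K) f)‖ < 1) ∧
      ∀ (Ω : Type u) [NormedField Ω] [NormedAlgebra K Ω] [CompleteSpace Ω] (v : Q.V → Ω),
        On B.pts v → (∀ i, v ⟨i, ς i⟩ = 1) → aeval v g = 0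
  on : ∀ (Ω : Type u) [NormedField Ω] [NormedAlgebra K Ω] [CompleteSpace Ω] (ξ : EP Ω Q r),
    ξ.Ok B → On X.pts (ξ.th c)
  surj : ∀ (Ω : Type u) [NormedField Ω] [NormedAlgebra K Ω] [CompleteSpace Ω] (w : P.V → Ω),
    On X.pts w → ∃ ξ : EP Ω Q r, ξ.Ok B ∧ Same (ξ.th c) w
  chg : ∀ (Ω : Type u) [NormedField Ω] [NormedAlgebra K Ω] [CompleteSpace Ω] (ξ : EP Ω Q r)
    (ς : ∀ i, Q.σ i), ξ.Ok B → (∀ i, ‖ξ.v ⟨i, ς i⟩‖ = 1) → ∃ t : Fin r → Ω,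
      (∀ j, ‖t j‖ = ‖ξ.t j‖) ∧ Same (EP.th c ⟨ς, fun s => ξ.v s / ξ.v ⟨s.1, ς s.1⟩, t⟩) (ξ.th c)
  act : ∀ (Ω : Type u) [NormedField Ω] [NormedAlgebra K Ω] [CompleteSpace Ω] (ξ : EP Ω Q r)
    (n : Fin r → ℤ), ξ.Ok B → ∃ ζ : EP Ω Q r, ζ.Ok B ∧ Same (ζ.th c) (ξ.th c) ∧
      ∀ i, ‖ζ.t i‖ = (∏ j, ‖lam j i‖ ^ n j) * ‖ξ.t i‖
  lat : ∀ (Ω : Type u) [NormedField Ω] [NormedAlgebra K Ω] [CompleteSpace Ω] (ξ ζ : EP Ω Q r),
    ξ.Ok B → ζ.Ok B → Same (ζ.th c) (ξ.th c) →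
      (∃ n : Fin r → ℤ, ∀ i, ‖ζ.t i‖ = (∏ j, ‖lam j i‖ ^ n j) * ‖ξ.t i‖) ∧ ∃ b ∈ B₀.pts,
        Red K (gph A₀.sub)
          (Amb.elim (Amb.elim ζ.v fun s => algebraMap K Ω (algebraMap k K (rp b s))) ξ.v)
  inj : ∀ (Ω : Type u) [NormedField Ω] [NormedAlgebra K Ω] [CompleteSpace Ω] (ξ ζ : EP Ω Q r),
    ξ.Ok B → ζ.Ok B → Same (ζ.th c) (ξ.th c) → (∀ i, ‖ζ.t i‖ = ‖ξ.t i‖) →
      Same ζ.v ξ.v ∧ (ζ.ς = ξ.ς → ζ.t = ξ.t)
  hom : ∀ (Ω : Type u) [NormedField Ω] [NormedAlgebra K Ω] [CompleteSpace Ω] (ξ ζ : EP Ω Q r),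
    ξ.Ok B → ζ.Ok B → ∃ η : EP Ω Q r, η.Ok B ∧ (∀ i, ‖η.t i‖ = ‖ξ.t i‖ / ‖ζ.t i‖) ∧
      On (gph A.sub) (Amb.elim (Amb.elim (ξ.th c) (ζ.th c)) (η.th c)) ∧
        Red K (gph A₀.sub) (Amb.elim (Amb.elim ξ.v ζ.v) η.v)

end Pool.Agent.Work.MP_ffcd14_ag.Ry
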