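import Pool.Agent.Work.MP_ffcd14_ag.Ry.N2
import Mathlib
import Pool.Agent.Work.MP_ffcd14_ag.Cyc.ChowCyc

-- merged part: Pool.Agent.Work.MP_ffcd14_ag.Ry.N3
section
/-!
# The theorem of the cube, numerically

Plan.  `cube3`: let `G3 = (X.prod X).prod X` with the projections `q1 q2 q3`, `D` the alternating
sum and `g = X.dim`.  If `g = 0` use `ng_gt`.  On the face `F i = {x_i = o}` (the prime `xp2 ..`)
the terms cancel in pairs by `hpl_restr` and `hpl_cst`, so `ny (F i) * D = 0`, that is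
`hpl q_i (ny {o}) * D = 0` (`ny_xp`, `ny_top`), hence `hpl q_i (h ^ g) * D = 0` by `ng_top`, and
`hpl q_i (h ^ (g + 1)) = 0`.  With `H = h1 + h2 + h3` (an ample `nh`: `hpl_nh`, `nh_add`) every
monomial of `H ^ (3 g - 1)` and `H ^ (3 g - 2)` has an exponent `≥ g`: prove the ring lemma
`cube_ring`.  Then `hodge_index`.  `cube`: pull back along `pairH (pairH f g) h` (`hpl_comp'`, the
`ap_*` lemmas).  `bq_add`: `cube` and `hpl_cst`.  `q_nsm`: induction on `n` with `cube`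
for `(n f, f, -f)`.  `deg_nsm`: `s = nh a + hpl (neg id) (nh a)` satisfies `[n]^* s = n ^ 2 s`
(`q_nsm`), `nh_pos'`, `exists_deg`.  `neg_pull`: `y = x - [-1]^* x` has `[2]^* y = 2 y`; comparing
degrees gives `nt (s ^ (g - 1) * y) = 0 = nt (s ^ (g - 2) * y * y)`; `hodge_index'` if `2 ≤ g`,
`ng_top` if `g = 1`.  `PP_eq`: `PP = b (p1, -p2)`.
-/

namespace Pool.Agent.Work.MP_ffcd14_ag.Ry

open MvPolynomial Filter Topology MP_10f4af_ag MP_10f4af_ag.Nu Tr

set_option linter.unusedSectionVars false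

universe u

variable {k : Type u} [Field k] [IsAlgClosed k] {P Q S : Amb} {X : SV k P} {Y : SV k Q}
  {Z : SV k S}

theorem cube_ring {R : Type*} [CommRing R] {a b c D : R} {g n : ℕ} (ha : a ^ g * D = 0)
    (hb : b ^ g * D = 0) (hc : c ^ g * D = 0) (hn : 3 * g ≤ n + 2) : (a + b + c) ^ n * D = 0 := by
  let I : Ideal R := LinearMap.ker (LinearMap.mulRight R D)
  exact I.add_pow_mem_of_pow_mem_of_le (m := 2 * g - 1) (n := g)
    (I.add_pow_mem_of_pow_mem_of_le (m := g) (n := g) ha hb (by omega)) hc (by omega)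

theorem N3_pos (P : Amb) : ∃ a : P.ι →₀ ℕ, ∀ i, 0 < a i :=
  ⟨Finsupp.equivFunOnFinite.symm fun _ => 1, fun _ => by simp⟩

theorem N3_p1 {V : Sub k P} (hV : (V : Set (P.Pt k)) ⊆ X.pts) :
    hpl (p1 X Y) (ny X V) = ny (X.prod Y) (xp2 V Y.tp) := by
  rw [← ny_xp hV subset_rfl, ny_top, map_one, mul_one]

theorem N3_p2 {W : Sub k Q} (hW : (W : Set (Q.Pt k)) ⊆ Y.pts) :
    hpl (p2 X Y) (ny Y W) = ny (X.prod Y) (xp2 X.tp W) := by
  rw [← ny_xp subset_rfl hW, ny_top, map_one, one_mul]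

theorem N3_nh {a : P.ι →₀ ℕ} (ha : ∀ i, 0 < a i) {b : Q.ι →₀ ℕ} (hb : ∀ i, 0 < b i) :
    ∃ c : (P.sum Q).ι →₀ ℕ, (∀ i, 0 < c i) ∧
      nh (X.prod Y) c = hpl (p1 X Y) (nh X a) + hpl (p2 X Y) (nh Y b) := by
  refine ⟨a.mapDomain Sum.inl + b.mapDomain Sum.inr, ?_, ?_⟩
  · rintro (i | i)
    · refine Nat.add_pos_left ?_ _
      rw [Finsupp.mapDomain_apply Sum.inl_injective]
      exact ha i
    · refine Nat.add_pos_right _ ?_
      rw [Finsupp.mapDomain_apply Sum.inr_injective]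
      exact hb i
  · rw [p1, p2, hpl_nh, hpl_nh]
    exact nh_add _ _

namespace AV

variable (A : AV X)

theorem ap_inj {f g : Hom Y.toVar X.toVar} (h : ∀ y, A.ap f y = A.ap g y) : hpl f = hpl g :=
  hpl_congr h

/-- The alternating sum. -/
noncomputable def N3_D (f g h : Hom Y.toVar X.toVar) (x : NN X) : NN Y :=
  hpl (A.add (A.add f g) h) x + hpl f x + hpl g x + hpl h x -
    (hpl (A.add f g) x + hpl (A.add f h) x + hpl (A.add g h) x)

theorem N3_pull (F : Hom Z.toVar Y.toVar) (f g h : Hom Y.toVar X.toVar)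
    (f' g' h' : Hom Z.toVar X.toVar) (hf : ∀ z, A.ap f (F.toFun z) = A.ap f' z)
    (hg : ∀ z, A.ap g (F.toFun z) = A.ap g' z) (hh : ∀ z, A.ap h (F.toFun z) = A.ap h' z)
    (x : NN X) : hpl F (A.N3_D f g h x) = A.N3_D f' g' h' x := by
  have e : ∀ {u v : Hom Y.toVar X.toVar} {u' v' : Hom Z.toVar X.toVar},
      (∀ z, A.ap u (F.toFun z) = A.ap u' z) → (∀ z, A.ap v (F.toFun z) = A.ap v' z) →
      ∀ z, A.ap (A.add u v) (F.toFun z) = A.ap (A.add u' v') z := fun h1 h2 z => by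
    rw [ap_add, ap_add, h1, h2]
  simp only [N3_D, map_add, map_sub]
  rw [hpl_comp' F _ _ (e (e hf hg) hh), hpl_comp' F _ _ (e hf hg), hpl_comp' F _ _ (e hf hh),
    hpl_comp' F _ _ (e hg hh), hpl_comp' F _ _ hf, hpl_comp' F _ _ hg, hpl_comp' F _ _ hh]

theorem N3_face (f g h : Hom Y.toVar X.toVar) {x : NN X} (hx : x ∈ ng X 1) {W : Sub k Q}
    (hW : (W : Set (Q.Pt k)) ⊆ Y.pts) (h0 : (∀ y : Y.pts, y.1 ∈ W → A.ap f y = 0) ∨
      (∀ y : Y.pts, y.1 ∈ W → A.ap g y = 0) ∨ ∀ y : Y.pts, y.1 ∈ W → A.ap h y = 0) :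
    ny Y W * A.N3_D f g h x = 0 := by
  have e : ∀ u v : Hom Y.toVar X.toVar, (∀ y : Y.pts, y.1 ∈ W → A.ap u y = A.ap v y) →
      ny Y W * hpl u x = ny Y W * hpl v x := fun u v h => hpl_restr hW h x
  have e0 : ∀ u : Hom Y.toVar X.toVar, (∀ y : Y.pts, y.1 ∈ W → A.ap u y = 0) →
      ny Y W * hpl u x = 0 := fun u h => by
    rw [e u (cstH Y A.o) h, hpl_cst _ hx one_pos, mul_zero]
  simp only [N3_D, mul_add, mul_sub]
  rcases h0 with h0 | h0 | h0
  · rw [e0 f h0, e (A.add (A.add f g) h) (A.add g h) fun y hy => by simp [ap_add, h0 y hy],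
      e (A.add f g) g fun y hy => by simp [ap_add, h0 y hy],
      e (A.add f h) h fun y hy => by simp [ap_add, h0 y hy]]
    ring
  · rw [e0 g h0, e (A.add (A.add f g) h) (A.add f h) fun y hy => by simp [ap_add, h0 y hy],
      e (A.add f g) f fun y hy => by simp [ap_add, h0 y hy],
      e (A.add g h) h fun y hy => by simp [ap_add, h0 y hy]]
    ring
  · rw [e0 h h0, e (A.add (A.add f g) h) (A.add f g) fun y hy => by simp [ap_add, h0 y hy],
      e (A.add f h) f fun y hy => by simp [ap_add, h0 y hy],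
      e (A.add g h) g fun y hy => by simp [ap_add, h0 y hy]]
    ring

theorem N3_cube {x : NN X} (hx : x ∈ ng X 1) :
    A.N3_D ((p1 X X).comp (p1 (X.prod X) X)) ((p2 X X).comp (p1 (X.prod X) X))
      (p2 (X.prod X) X) x = 0 := by
  set D := A.N3_D ((p1 X X).comp (p1 (X.prod X) X)) ((p2 X X).comp (p1 (X.prod X) X))
      (p2 (X.prod X) X) x with hD
  have hD1 : D ∈ ng ((X.prod X).prod X) 1 :=
    sub_mem (add_mem (add_mem (add_mem (hpl_ng _ hx) (hpl_ng _ hx)) (hpl_ng _ hx)) (hpl_ng _ hx))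
      (add_mem (add_mem (hpl_ng _ hx) (hpl_ng _ hx)) (hpl_ng _ hx))
  have hd : ((X.prod X).prod X).dim = 3 * X.dim := by
    rw [prod_dim, prod_dim]
    ring
  rcases Nat.eq_zero_or_pos X.dim with h0 | h0
  · exact ng_gt hD1 (by omega)
  obtain ⟨a, ha⟩ := N3_pos P
  obtain ⟨b, hb, eb⟩ := N3_nh (X := X) (Y := X) ha ha
  obtain ⟨c, hc, ec⟩ := N3_nh (X := X.prod X) (Y := X) hb ha
  rw [eb, map_add, ← hpl_comp, ← hpl_comp] at ec
  have ho : (({A.o.1} : Sub k P) : Set (P.Pt k)) ⊆ X.pts := Set.singleton_subset_iff.2 A.o.2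
  have ht : (X.tp : Set (P.Pt k)) ⊆ X.pts := subset_rfl
  have key : ∀ q : Hom ((X.prod X).prod X).toVar X.toVar, hpl q (ny X {A.o.1}) * D = 0 →
      hpl q (nh X a) ^ X.dim * D = 0 := fun q h => by
    have h1 := ng_pow (nh_ng (X := X) a) X.dim
    rw [mul_one] at h1
    rw [← map_pow, ng_top h1 A.o.2, map_smul, smul_mul_assoc, h, smul_zero]
  have k1 := key ((p1 X X).comp (p1 (X.prod X) X)) (by
    rw [hpl_comp, N3_p1 ho, N3_p1 (xp2_sub ho ht)]
    exact A.N3_face _ _ _ hx (xp2_sub (xp2_sub ho ht) ht)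
      (Or.inl fun y hy => Subtype.ext (mem_xp2.1 (mem_xp2.1 hy).1).1))
  have k2 := key ((p2 X X).comp (p1 (X.prod X) X)) (by
    rw [hpl_comp, N3_p2 ho, N3_p1 (xp2_sub ht ho)]
    exact A.N3_face _ _ _ hx (xp2_sub (xp2_sub ht ho) ht)
      (Or.inr (Or.inl fun y hy => Subtype.ext (mem_xp2.1 (mem_xp2.1 hy).1).2)))
  have k3 := key (p2 (X.prod X) X) (by
    rw [N3_p2 ho]
    exact A.N3_face _ _ _ hx (xp2_sub subset_rfl ho)
      (Or.inr (Or.inr fun y hy => Subtype.ext (mem_xp2.1 hy).2)))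
  refine hodge_index (m := 3 * X.dim - 2) (by omega) hc hD1 ?_ ?_
  · rw [ec, cube_ring k1 k2 k3 (by omega), map_zero]
  · rw [ec, cube_ring k1 k2 k3 (by omega), zero_mul, map_zero]

theorem cube (f g h : Hom Y.toVar X.toVar) {x : NN X} (hx : x ∈ ng X 1) :
    hpl (A.add (A.add f g) h) x + hpl f x + hpl g x + hpl h x =
      hpl (A.add f g) x + hpl (A.add f h) x + hpl (A.add g h) x := by
  have h0 := congrArg (hpl (pairH (pairH f g) h)) (A.N3_cube hx)
  rw [A.N3_pull _ _ _ _ f g h (fun _ => rfl) (fun _ => rfl) (fun _ => rfl), map_zero] at h0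
  exact sub_eq_zero.1 h0

/-- The bilinear part of the quadratic map `f ↦ f^* x`. -/
noncomputable def bq (x : NN X) (f g : Hom Y.toVar X.toVar) : NN Y :=
  hpl (A.add f g) x - hpl f x - hpl g x

theorem bq_comm (x : NN X) (f g : Hom Y.toVar X.toVar) : A.bq x f g = A.bq x g f := by
  rw [bq, bq, A.ap_inj (f := A.add f g) (g := A.add g f) fun y => by
    rw [ap_add, ap_add, add_comm]]
  ring

theorem bq_add {x : NN X} (hx : x ∈ ng X 1) (f g h : Hom Y.toVar X.toVar) :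
    A.bq x (A.add f g) h = A.bq x f h + A.bq x g h := by
  simp only [bq]
  linear_combination A.cube f g h hx

theorem bq_nsm {x : NN X} (hx : x ∈ ng X 1) (f h : Hom Y.toVar X.toVar) (n : ℕ) :
    A.bq x (A.nsm f n) h = (n : ℚ) • A.bq x f h := by
  induction n with
  | zero =>
    rw [bq, A.ap_inj (f := A.add (A.nsm f 0) h) (g := h) fun y => by
      rw [ap_add, ap_nsm, zero_nsmul, zero_add], nsm, hpl_cst _ hx one_pos, sub_zero, sub_self,
      Nat.cast_zero, zero_smul]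
  | succ n ih => rw [nsm, A.bq_add hx, ih, Nat.cast_succ, add_smul, one_smul]

theorem q_nsm {x : NN X} (hx : x ∈ ng X 1) (f : Hom Y.toVar X.toVar) (n : ℕ) :
    hpl (A.nsm f n) x =
      (((n : ℚ) ^ 2 + n) / 2) • hpl f x + (((n : ℚ) ^ 2 - n) / 2) • hpl (A.neg f) x := by
  have h0 : hpl (A.add (A.neg f) f) x = 0 := by
    rw [A.ap_inj (f := A.add (A.neg f) f) (g := cstH Y A.o) fun y => by
      rw [ap_add, ap_neg, neg_add_cancel]; rfl, hpl_cst _ hx one_pos]
  have h1 := A.bq_add hx (A.neg f) f f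
  rw [bq, bq, h0, A.ap_inj (f := A.add (A.add (A.neg f) f) f) (g := f) fun y => by
    rw [ap_add, ap_add, ap_neg, neg_add_cancel, zero_add]] at h1
  have h2 : A.bq x f f = hpl f x + hpl (A.neg f) x := by linear_combination -h1
  induction n with
  | zero => simp [nsm, hpl_cst _ hx one_pos]
  | succ n ih =>
    have h3 := A.bq_nsm hx f f n
    rw [h2, bq, ih, sub_sub, sub_eq_iff_eq_add] at h3
    rw [nsm, h3]
    push_cast
    module

theorem N3_nsm (f : Hom Y.toVar X.toVar) (n : ℕ) (x : NN X) :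
    hpl f (hpl (A.nsm (idH X) n) x) = hpl (A.nsm f n) x :=
  hpl_comp' _ _ _ (fun y => (A.ap_nsm _ n _).trans (A.ap_nsm f n y).symm) x

theorem N3_q {x : NN X} (hx : x ∈ ng X 1) (n : ℕ) :
    hpl (A.nsm (idH X) n) x = (((n : ℚ) ^ 2 + n) / 2) • x +
        (((n : ℚ) ^ 2 - n) / 2) • hpl (A.neg (idH X)) x ∧
      hpl (A.nsm (idH X) n) (hpl (A.neg (idH X)) x) =
        (((n : ℚ) ^ 2 + n) / 2) • hpl (A.neg (idH X)) x + (((n : ℚ) ^ 2 - n) / 2) • x := by
  refine ⟨by rw [A.q_nsm hx, hpl_id], ?_⟩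
  rw [hpl_comp' _ _ (A.nsm (A.neg (idH X)) n) fun y => (A.ap_neg _ _).trans (by
      change -A.ap (A.nsm (idH X) n) y = A.ap (A.nsm (A.neg (idH X)) n) y
      rw [ap_nsm, ap_nsm, ap_neg, neg_nsmul]), A.q_nsm hx,
    A.ap_inj (f := A.neg (A.neg (idH X))) (g := idH X) fun y => by rw [ap_neg, ap_neg, neg_neg],
    hpl_id]

theorem N3_s (a : P.ι →₀ ℕ) (n : ℕ) :
    hpl (A.nsm (idH X) n) (nh X a + hpl (A.neg (idH X)) (nh X a)) =
      ((n : ℚ) ^ 2) • (nh X a + hpl (A.neg (idH X)) (nh X a)) := by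
  rw [map_add, (A.N3_q (nh_ng a) n).1, (A.N3_q (nh_ng a) n).2]
  module

theorem deg_nsm (n : ℕ) (y : NN X) :
    nt X (hpl (A.nsm (idH X) n) y) = (n : ℚ) ^ (2 * X.dim) * nt X y := by
  obtain ⟨a, ha⟩ := N3_pos P
  obtain ⟨d, hd⟩ := exists_deg (A.nsm (idH X) n) rfl
  have h1 := hd ((nh X a + hpl (A.neg (idH X)) (nh X a)) ^ X.dim)
  rw [map_pow, A.N3_s, smul_pow, map_smul, smul_eq_mul, ← pow_mul] at h1
  rw [hd, mul_right_cancel₀ (nh_pos' _ ha ha).ne' h1]

theorem N3_neg {x : NN X} (hx : x ∈ ng X 1) : hpl (A.neg (idH X)) x = x := by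
  obtain ⟨a, ha⟩ := N3_pos P
  have hy : x - hpl (A.neg (idH X)) x ∈ ng X 1 := sub_mem hx (hpl_ng _ hx)
  have h2 : hpl (A.nsm (idH X) 2) (x - hpl (A.neg (idH X)) x) =
      ((2 : ℕ) : ℚ) • (x - hpl (A.neg (idH X)) x) := by
    rw [map_sub, (A.N3_q hx 2).1, (A.N3_q hx 2).2]
    module
  have key : ∀ (z : NN X) (m : ℕ), m < 2 * X.dim →
      hpl (A.nsm (idH X) 2) z = (((2 : ℕ) : ℚ) ^ m) • z → nt X z = 0 := fun z m hm h => by
    have h1 := A.deg_nsm 2 z
    rw [h, map_smul, smul_eq_mul] at h1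
    exact (mul_eq_mul_right_iff.1 h1).resolve_left (pow_lt_pow_right₀ (by norm_num) hm).ne
  refine (sub_eq_zero.1 ?_).symm
  generalize x - hpl (A.neg (idH X)) x = y at hy h2
  have k1 : ∀ m, m < X.dim → nt X ((nh X a + hpl (A.neg (idH X)) (nh X a)) ^ m * y) = 0 :=
    fun m hm => key _ (2 * m + 1) (by omega) (by
      rw [map_mul, map_pow, N3_s, h2, smul_pow, smul_mul_smul_comm, ← pow_mul, pow_succ])
  rcases Nat.lt_trichotomy X.dim 1 with h | h | h
  · exact ng_gt hy h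
  · have h3 := k1 0 (by omega)
    rw [pow_zero, one_mul] at h3
    rw [← h] at hy
    rw [ng_top hy A.o.2, h3, zero_smul]
  · refine hodge_index' (A.neg (idH X)) (m := X.dim - 2) (by omega) ha ha hy (k1 _ (by omega))
      (key _ (2 * (X.dim - 2) + 1 + 1) (by omega) ?_)
    rw [map_mul, map_mul, map_pow, N3_s, h2, smul_pow, smul_mul_smul_comm, smul_mul_smul_comm,
      ← pow_mul, pow_succ, pow_succ]

theorem neg_pull {x : NN X} (hx : x ∈ ng X 1) (f : Hom Y.toVar X.toVar) :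
    hpl (A.neg f) x = hpl f x := by
  rw [← hpl_comp' f (A.neg (idH X)) (A.neg f) (fun y => (A.ap_neg _ _).trans (A.ap_neg f y).symm),
    A.N3_neg hx]

theorem nsm_pull {x : NN X} (hx : x ∈ ng X 1) (f : Hom Y.toVar X.toVar) (n : ℕ) :
    hpl (A.nsm f n) x = ((n : ℚ) ^ 2) • hpl f x := by
  rw [A.q_nsm hx, A.neg_pull hx, ← add_smul]
  congr 1
  ring

theorem PP_ng {l : NN X} (hl : l ∈ ng X 1) : A.PP l ∈ ng (X.prod X) 1 := by
  exact sub_mem (sub_mem (hpl_ng _ hl) (hpl_ng _ hl)) (hpl_ng _ hl)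

theorem N3_PP {l : NN X} (hl : l ∈ ng X 1) (f g : Hom Y.toVar X.toVar) :
    hpl (pairH f g) (A.PP l) = A.bq l f (A.neg g) := by
  rw [PP, bq, map_sub, map_sub, A.neg_pull hl, hpl_comp' _ (p1 X X) f fun _ => rfl,
    hpl_comp' _ (p2 X X) g fun _ => rfl, hpl_comp' _ A.sub (A.add f (A.neg g)) fun y =>
      (A.ap_dif f g y).trans (by
        change _ = A.ap (A.add f (A.neg g)) y
        rw [ap_add, ap_neg, sub_eq_add_neg])]

/-- The map `(n, 1)`. -/
noncomputable def n1 (n : ℕ) : Hom (X.prod X).toVar (X.prod X).toVar :=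
  pairH (A.nsm (p1 X X) n) (p2 X X)

theorem n1_PP {l : NN X} (hl : l ∈ ng X 1) (n : ℕ) :
    hpl (A.n1 n) (A.PP l) = (n : ℚ) • A.PP l := by
  rw [n1, A.N3_PP hl, A.bq_nsm hl, ← A.N3_PP hl,
    hpl_congr (φ := pairH (p1 X X) (p2 X X)) (ψ := idH _) fun z => Subtype.ext (sum_ext rfl rfl),
    hpl_id]

theorem deg_n1 (n : ℕ) (y : NN (X.prod X)) :
    nt (X.prod X) (hpl (A.n1 n) y) = (n : ℚ) ^ (2 * X.dim) * nt (X.prod X) y := by
  obtain ⟨d, hd⟩ := exists_deg (A.n1 n) rfl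
  have h1 := hd (hpl (p1 X X) (ny X {A.o.1}) * hpl (p2 X X) (ny X {A.o.1}))
  rw [n1, hpl_pair, ← A.N3_nsm, nt_prod, nt_prod, deg_nsm, nt_pt A.o.2] at h1
  simp only [mul_one] at h1
  rw [hd, h1]

theorem BB_nsm {l : NN X} (hl : l ∈ ng X 1) (n j : ℕ) (x y : NN X) :
    (n : ℚ) ^ j * A.BB l j (hpl (A.nsm (idH X) n) x) y = (n : ℚ) ^ (2 * X.dim) * A.BB l j x y := by
  rw [BB, BB, ← A.deg_n1, map_mul (hpl (A.n1 n)), map_pow, A.n1_PP hl, n1, hpl_pair, A.N3_nsm,
    smul_pow, mul_smul_comm, map_smul, smul_eq_mul]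

theorem BB_symm {l : NN X} (hl : l ∈ ng X 1) (j : ℕ) (x y : NN X) :
    A.BB l j x y = A.BB l j y x := by
  have h : Inv (pairH (p2 X X) (p1 X X)) (pairH (p2 X X) (p1 X X)) :=
    ⟨fun _ => Subtype.ext (sum_ext rfl rfl), fun _ => Subtype.ext (sum_ext rfl rfl)⟩
  have h1 : hpl (pairH (p2 X X) (p1 X X)) (A.PP l) = A.PP l := by
    rw [A.N3_PP hl, bq, A.neg_pull hl, PP, ← A.neg_pull hl A.sub, sub_right_comm,
      A.ap_inj (f := A.add (p2 X X) (A.neg (p1 X X))) (g := A.neg A.sub) fun z => by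
        rw [ap_add, ap_neg, ap_neg, ap_sub, neg_sub, sub_eq_add_neg]]
  rw [BB, BB, ← nt_inv h, map_mul, map_pow, h1, hpl_pair, mul_comm (hpl (p2 X X) x)]

end AV

end Pool.Agent.Work.MP_ffcd14_ag.Ry
end

-- merged part: Pool.Agent.Work.MP_ffcd14_ag.Ry.E2
section
-- merged part: Pool.Agent.Work.MP_ffcd14_ag.Ry.N4
section
/-!
# Intersection numbers as degrees, positivity, weights

Plan.  `tau_fib`: on `Y × X` let `σ (y, w) = (y, F y - w)`, an involution, and `Φ = p2 ∘ σ`.  By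
`tau_pt_hpl` the right side is `nt (ny (xp2 W V) * hpl Φ (ny {o}))`; `hpl Φ (ny {o}) =
hpl σ (ny (Y × {o})) = ny Γ` (`ny_xp`, `hpl_inv`) where `Γ = im (pairH id F) Y.tp` is the graph;
then `tau_hpl` for `pairH id F` and `Y.tp` (`dgH_inj`), `hpl_pair`.  `Nf_mul`: `hpl_pair`,
`ny_xp` in `M.prod M'` (whose `Z` is `M.Z.prod M'.Z` by `rfl`).  `nt_Nf`: `tau_fib` for `A.mod M`,
or `nt_ng` when the dimensions do not match.  `bound`: `ng_Eff`, `nn_ind`, `dominate`, `nsm_pull`: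
`0 ≤ nt (ny V * [n]^* W) ≤ C * n ^ (2 c) * nt (ny V * h ^ c)`.  `BB_wt`: `BB l j x y = nt (x * s)`
(`exists_nps`); by `BB_nsm` and `bound`, `n ^ (2 g) * |BB| ≤ C * n ^ (j + 2 a)` for all `n`, so
`2 g ≤ j + 2 a`, and `a + a' + j = 2 g` (`nt_ng`); then `BB_symm`.  `sub_pt`: `tau_fib` twice
(or `hpl sub (ny {o}) = ny Δ` as in `tau_fib`).
-/

namespace Pool.Agent.Work.MP_ffcd14_ag.Ry

open MvPolynomial Filter Topology MP_10f4af_ag MP_10f4af_ag.Nu Tr

set_option linter.unusedSectionVars false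

universe u

variable {k : Type u} [Field k] [IsAlgClosed k] {P Q S : Amb} {X : SV k P} {Y : SV k Q}
  {Z : SV k S}

variable (X Y) in
/-- The cone generated by the pull-backs of subvarieties of the powers of `X`. -/
noncomputable def Nf : AddSubmonoid (NN Y) :=
  AddSubmonoid.closure {c | ∃ (T : Type) (M : Mod X T) (F : Hom Y.toVar M.Z.toVar) (V : Sub k M.S)
    (q : ℚ), 0 ≤ q ∧ (V : Set (M.S.Pt k)) ⊆ M.Z.pts ∧ c = q • hpl F (ny M.Z V)}

theorem Nf_smul {c : NN Y} (hc : c ∈ Nf X Y) {q : ℚ} (hq : 0 ≤ q) : q • c ∈ Nf X Y := by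
  induction hc using AddSubmonoid.closure_induction with
  | mem x hx =>
    obtain ⟨T, M, F, V, r, hr, hV, rfl⟩ := hx
    exact AddSubmonoid.subset_closure ⟨T, M, F, V, q * r, mul_nonneg hq hr, hV, smul_smul _ _ _⟩
  | zero => rw [smul_zero]; exact zero_mem _
  | add x y _ _ hx hy => rw [smul_add]; exact add_mem hx hy

theorem Nf_mul {c c' : NN Y} (hc : c ∈ Nf X Y) (hc' : c' ∈ Nf X Y) : c * c' ∈ Nf X Y := by
  induction hc using AddSubmonoid.closure_induction with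
  | zero => rw [zero_mul]; exact zero_mem _
  | add x y _ _ hx hy => rw [add_mul]; exact add_mem hx hy
  | mem x hx =>
    induction hc' using AddSubmonoid.closure_induction with
    | zero => rw [mul_zero]; exact zero_mem _
    | add x y _ _ hx hy => rw [mul_add]; exact add_mem hx hy
    | mem y hy =>
      obtain ⟨T, M, F, V, r, hr, hV, rfl⟩ := hx
      obtain ⟨T', M', F', V', r', hr', hV', rfl⟩ := hy
      refine AddSubmonoid.subset_closure ⟨T ⊕ T', M.prod M', pairH F F', xp2 V V', r * r',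
        mul_nonneg hr hr', xp2_sub hV hV', ?_⟩
      rw [smul_mul_smul_comm, ← hpl_pair F F', ny_xp hV hV']
      rfl

theorem Nf_hpl {T : Type} (M : Mod X T) (F : Hom Y.toVar M.Z.toVar) {c : ℕ} {x : NN M.Z}
    (hx : x ∈ Eff M.Z c) : hpl F x ∈ Nf X Y := by
  induction hx using AddSubmonoid.closure_induction with
  | zero => rw [map_zero]; exact zero_mem _
  | add x y _ _ hx hy => rw [map_add]; exact add_mem hx hy
  | mem x hx =>
    obtain ⟨q, W, hq, hW, -, rfl⟩ := hx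
    exact AddSubmonoid.subset_closure ⟨T, M, F, W, q, hq, hW, map_smul _ _ _⟩

theorem Nf_Eff {c : ℕ} {x : NN X} (hx : x ∈ Eff X c) : x ∈ Nf X X := by
  have h := Nf_hpl (Y := X) (Mod.one X) (idH X) hx
  exact (hpl_id x) ▸ h

theorem Nf_one : (1 : NN X) ∈ Nf X X := by
  have h : ny X X.tp ∈ Eff X 0 := ny_Eff subset_rfl X.sdim_tp
  rw [ny_top] at h
  exact Nf_Eff h

namespace AV

variable (A : AV X)

theorem N4_inv (F : Hom Y.toVar X.toVar) :
    Inv (pairH (p1 Y X) (A.dif (F.comp (p1 Y X)) (p2 Y X)))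
      (pairH (p1 Y X) (A.dif (F.comp (p1 Y X)) (p2 Y X))) := by
  have h (z : (Y.prod X).pts) : (pairH (p1 Y X) (A.dif (F.comp (p1 Y X)) (p2 Y X))).toFun
      ((pairH (p1 Y X) (A.dif (F.comp (p1 Y X)) (p2 Y X))).toFun z) = z := by
    refine Subtype.ext (sum_ext rfl ?_)
    have h1 := A.ap_dif (F.comp (p1 Y X)) (p2 Y X)
      ((pairH (p1 Y X) (A.dif (F.comp (p1 Y X)) (p2 Y X))).toFun z)
    have h2 : A.ap (p2 Y X) ((pairH (p1 Y X) (A.dif (F.comp (p1 Y X)) (p2 Y X))).toFun z) =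
        A.ap (F.comp (p1 Y X)) z - A.ap (p2 Y X) z := A.ap_dif (F.comp (p1 Y X)) (p2 Y X) z
    have h3 : A.ap (F.comp (p1 Y X))
        ((pairH (p1 Y X) (A.dif (F.comp (p1 Y X)) (p2 Y X))).toFun z) =
        A.ap (F.comp (p1 Y X)) z := rfl
    rw [h2, h3, sub_sub_cancel] at h1
    exact congrArg Subtype.val h1
  exact ⟨h, h⟩

theorem N4_pt (F : Hom Y.toVar X.toVar) (y : Y.pts) (hy : mkPt y.1 A.o.1 ∈ (Y.prod X).pts) :
    (pairH (p1 Y X) (A.dif (F.comp (p1 Y X)) (p2 Y X))).toFun ⟨mkPt y.1 A.o.1, hy⟩ =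
      (pairH (idH Y) F).toFun y := by
  refine Subtype.ext (sum_ext rfl ?_)
  have h1 := A.ap_dif (F.comp (p1 Y X)) (p2 Y X) ⟨mkPt y.1 A.o.1, hy⟩
  have h2 : A.ap (p2 Y X) ⟨mkPt y.1 A.o.1, hy⟩ = 0 := rfl
  rw [h2, sub_zero] at h1
  exact congrArg Subtype.val h1

theorem N4_gr (F : Hom Y.toVar X.toVar) :
    hpl (A.dif (F.comp (p1 Y X)) (p2 Y X)) (ny X {A.o.1}) =
      ny (Y.prod X) (im (pairH (idH Y) F) Y.tp subset_rfl) := by
  have ho : (({A.o.1} : Sub k P) : Set (P.Pt k)) ⊆ X.pts := Set.singleton_subset_iff.2 A.o.2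
  have ht : (Y.tp : Set (Q.Pt k)) ⊆ Y.pts := subset_rfl
  have h1 := hpl_pair (p1 Y X) (A.dif (F.comp (p1 Y X)) (p2 Y X)) (ny Y Y.tp) (ny X {A.o.1})
  rw [ny_xp ht ho, hpl_inv (A.N4_inv F) (xp2_sub ht ho), ny_top, map_one, one_mul] at h1
  rw [← h1]
  refine congrArg _ (le_antisymm ?_ ?_)
  · refine im_le _ _ (im (pairH (idH Y) F) Y.tp subset_rfl).isClosed fun z hz => ?_
    obtain ⟨h2, h3⟩ := mem_xp2.1 hz
    have h4 : snd z.1 = A.o.1 := h3
    have hy : mkPt (fst z.1) A.o.1 ∈ (Y.prod X).pts := mem_prod.2 ⟨h2, A.o.2⟩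
    have e : z = ⟨mkPt (fst z.1) A.o.1, hy⟩ := Subtype.ext (sum_ext rfl h4)
    rw [e, A.N4_pt F ⟨fst z.1, h2⟩ hy]
    exact mem_im (pairH (idH Y) F) ht (x := ⟨fst z.1, h2⟩) h2
  · refine im_le _ _ (im _ (xp2 Y.tp {A.o.1}) (xp2_sub ht ho)).isClosed fun y _ => ?_
    have hy : mkPt y.1 A.o.1 ∈ (Y.prod X).pts := mem_prod.2 ⟨y.2, A.o.2⟩
    rw [← A.N4_pt F y hy]
    exact mem_im _ (xp2_sub ht ho) (x := ⟨mkPt y.1 A.o.1, hy⟩) (mem_xp2.2 ⟨y.2, rfl⟩)

theorem N4_tau (F : Hom Y.toVar X.toVar) (y : NN Y) (x : NN X) :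
    nt (Y.prod X) (hpl (p1 Y X) y * hpl (p2 Y X) x *
      hpl (A.dif (F.comp (p1 Y X)) (p2 Y X)) (ny X {A.o.1})) = nt Y (y * hpl F x) := by
  have h := tau_hpl (pairH (idH Y) F) (W := Y.tp) subset_rfl (hpl (p1 Y X) y * hpl (p2 Y X) x)
  rw [dgH_inj (pairH (idH Y) F) (p1 Y X) fun _ => rfl, hpl_pair, hpl_id, ny_top, one_mul,
    Nat.cast_one, one_mul] at h
  rw [h, N4_gr, mul_comm]

theorem tau_fib (F : Hom Y.toVar X.toVar) {W : Sub k Q} (hW : (W : Set (Q.Pt k)) ⊆ Y.pts)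
    {V : Sub k P} (hV : (V : Set (P.Pt k)) ⊆ X.pts) (hd : sdim W + sdim V = X.dim) :
    nt Y (ny Y W * hpl F (ny X V)) =
      dgH (A.dif (F.comp (p1 Y X)) (p2 Y X)) (xp2 W V) (xp2_sub hW hV) := by
  rw [← A.N4_tau F, ny_xp hW hV]
  exact tau_pt_hpl _ _ ((sdim_xp2 W V).trans hd) A.o.2

include A

theorem nt_Nf {c : NN Y} (hc : c ∈ Nf X Y) {d : ℕ} {z : NN Y} (hz : z ∈ Eff Y d) :
    0 ≤ nt Y (z * c) := by
  induction hc using AddSubmonoid.closure_induction with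
  | zero => rw [mul_zero, map_zero]
  | add x y _ _ hx hy => rw [mul_add, map_add]; exact add_nonneg hx hy
  | mem x hx =>
    induction hz using AddSubmonoid.closure_induction with
    | zero => rw [zero_mul, map_zero]
    | add x y _ _ hx hy => rw [add_mul, map_add]; exact add_nonneg hx hy
    | mem z hz =>
      obtain ⟨T, M, F, V, r, hr, hV, rfl⟩ := hx
      obtain ⟨q, W, hq, hW, hd, rfl⟩ := hz
      rw [smul_mul_smul_comm, map_smul, smul_eq_mul]
      refine mul_nonneg (mul_nonneg hq hr) ?_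
      by_cases h : sdim W + sdim V = M.Z.dim
      · rw [(A.mod M).tau_fib F hW hV h]
        exact Nat.cast_nonneg _
      · obtain ⟨e, he, hy⟩ := ny_ng' hV
        exact (nt_ng (ng_mul (ny_ng hW hd) (hpl_ng F hy)) (by omega)).ge

theorem nt_three {a b c : ℕ} {x y z : NN X} (hx : x ∈ Eff X a) (hy : y ∈ Eff X b)
    (hz : z ∈ Eff X c) : 0 ≤ nt X (x * y * z) := by
  rw [mul_assoc]
  exact A.nt_Nf (Nf_mul (Nf_Eff hy) (Nf_Eff hz)) hx

theorem N4_bd {c d : ℕ} {x z : NN X} (hx : x ∈ Eff X c) (hz : z ∈ Eff X d) :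
    ∃ C : ℚ, ∀ n : ℕ, |nt X (hpl (A.nsm (idH X) n) x * z)| ≤ C * (n : ℚ) ^ (2 * c) := by
  obtain ⟨a, ha⟩ : ∃ a : P.ι →₀ ℕ, ∀ i, 0 < a i :=
    ⟨Finsupp.equivFunOnFinite.symm fun _ => 1, fun _ => by simp⟩
  obtain ⟨C, -, hC⟩ := dominate ha hx
  refine ⟨C * nt X (z * nh X a ^ c), fun n => ?_⟩
  have h1 := A.nt_Nf (Nf_hpl (Y := X) (Mod.one X) (A.nsm (idH X) n) hx) hz
  have h2 := A.nt_Nf (Nf_hpl (Y := X) (Mod.one X) (A.nsm (idH X) n) hC) hz
  have h3 : 0 ≤ nt X (z * hpl (A.nsm (idH X) n) x) := h1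
  have h4 : 0 ≤ nt X (z * hpl (A.nsm (idH X) n) (C • nh X a ^ c - x)) := h2
  rw [map_sub, map_smul, map_pow, A.nsm_pull (nh_ng a), hpl_id, smul_pow, mul_sub, map_sub,
    mul_smul_comm, mul_smul_comm, map_smul, map_smul, smul_eq_mul, smul_eq_mul, ← pow_mul] at h4
  rw [mul_comm _ z, abs_of_nonneg h3]
  linarith

theorem bound {c : ℕ} {x : NN X} (hx : x ∈ ng X c) (z : NN X) :
    ∃ C : ℚ, ∀ n : ℕ, |nt X (hpl (A.nsm (idH X) n) x * z)| ≤ C * (n : ℚ) ^ (2 * c) := by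
  have key {x : NN X} (hx : x ∈ Eff X c) :
      ∃ C : ℚ, ∀ n : ℕ, |nt X (hpl (A.nsm (idH X) n) x * z)| ≤ C * (n : ℚ) ^ (2 * c) := by
    induction z using nn_ind with
    | mem W hW =>
      obtain ⟨d, hd, -⟩ := ny_ng' hW
      exact A.N4_bd hx (ny_Eff hW hd)
    | zero => exact ⟨0, fun n => by rw [mul_zero, map_zero, abs_zero, zero_mul]⟩
    | add y z hy hz =>
      obtain ⟨C, hy⟩ := hy
      obtain ⟨C', hz⟩ := hz
      refine ⟨C + C', fun n => ?_⟩
      rw [mul_add, map_add, add_mul]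
      exact (abs_add_le _ _).trans (add_le_add (hy n) (hz n))
    | smul q y hy =>
      obtain ⟨C, hy⟩ := hy
      refine ⟨|q| * C, fun n => ?_⟩
      rw [mul_smul_comm, map_smul, smul_eq_mul, abs_mul, mul_assoc]
      exact mul_le_mul_of_nonneg_left (hy n) (abs_nonneg q)
  obtain ⟨u, hu, v, hv, rfl⟩ := ng_Eff hx
  obtain ⟨C, h⟩ := key hu
  obtain ⟨C', h'⟩ := key hv
  refine ⟨C + C', fun n => ?_⟩
  rw [map_sub, sub_mul, map_sub, add_mul]
  exact (abs_sub _ _).trans (add_le_add (h n) (h' n))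

omit A in
theorem N4_exp {b C : ℚ} (hb : 0 < b) {p q : ℕ} (h : ∀ n : ℕ, (n : ℚ) ^ p * b ≤ C * (n : ℚ) ^ q) :
    p ≤ q := by
  by_contra hpq
  obtain ⟨m, hm⟩ := exists_nat_gt (C / b)
  have h1 : (1 : ℚ) ≤ ((m + 1 : ℕ) : ℚ) := by exact_mod_cast Nat.le_add_left 1 m
  have h2 : C < ((m + 1 : ℕ) : ℚ) * b := by
    rw [div_lt_iff₀ hb] at hm
    push_cast
    linarith
  have h3 := h (m + 1)
  generalize ((m + 1 : ℕ) : ℚ) = n at h1 h2 h3
  have h4 : n ^ (q + 1) ≤ n ^ p := pow_le_pow_right₀ h1 (by omega)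
  have h5 : 0 < n ^ q := pow_pos (by linarith) q
  have h6 := mul_lt_mul_of_pos_right h2 h5
  have h7 := mul_le_mul_of_nonneg_right h4 hb.le
  rw [pow_succ] at h7
  linarith

theorem N4_wt {l : NN X} (hl : l ∈ ng X 1) {j a : ℕ} {x y : NN X} (hx : x ∈ ng X a)
    (h : A.BB l j x y ≠ 0) : 2 * X.dim ≤ j + 2 * a := by
  obtain ⟨s, hs⟩ := exists_nps (p1 X X) (hpl (p2 X X) y * A.PP l ^ j)
  obtain ⟨C, hC⟩ := A.bound hx s
  have e (u : NN X) : A.BB l j u y = nt X (u * s) := by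
    rw [mul_comm u s, ← hs, BB, mul_assoc, mul_comm]
  refine N4_exp (C := C) (abs_pos.2 h) fun n => ?_
  have h1 := congrArg abs (A.BB_nsm hl n j x y)
  have h0 : (0 : ℚ) ≤ n := Nat.cast_nonneg n
  rw [abs_mul, abs_mul, abs_of_nonneg (pow_nonneg h0 _), abs_of_nonneg (pow_nonneg h0 _),
    e (hpl _ x)] at h1
  rw [← h1, pow_add, mul_left_comm]
  exact mul_le_mul_of_nonneg_left (hC n) (pow_nonneg h0 _)

theorem BB_wt {l : NN X} (hl : l ∈ ng X 1) {j a a' : ℕ} {x y : NN X} (hx : x ∈ ng X a)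
    (hy : y ∈ ng X a') (h : A.BB l j x y ≠ 0) : a = a' ∧ j + 2 * a = 2 * X.dim := by
  have h1 := A.N4_wt hl hx h
  have h2 := A.N4_wt hl hy (y := x) (j := j) (by rw [A.BB_symm hl]; exact h)
  have h3 : a + a' + j * 1 = (X.prod X).dim := by
    by_contra h3
    exact h (nt_ng (ng_mul (ng_mul (hpl_ng _ hx) (hpl_ng _ hy)) (ng_pow (A.PP_ng hl) j)) h3)
  rw [prod_dim] at h3
  omega

theorem sub_pt {w : NN X} (hw : w ∈ ng X X.dim) (x y : NN X) :
    nt (X.prod X) (hpl (p1 X X) x * hpl (p2 X X) y * hpl A.sub w) = nt X w * nt X (x * y) := by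
  have h1 := A.N4_tau (idH X) x y
  have h2 : hpl (A.dif ((idH X).comp (p1 X X)) (p2 X X)) = hpl A.sub :=
    A.ap_inj fun z => (A.ap_dif _ _ z).trans (A.ap_sub z).symm
  rw [h2, hpl_id] at h1
  rw [← h1]
  nth_rewrite 1 [ng_top hw A.o.2]
  rw [map_smul, mul_smul_comm, map_smul, smul_eq_mul]

end AV

end Pool.Agent.Work.MP_ffcd14_ag.Ry
end

-- merged part: Pool.Agent.Work.MP_ffcd14_ag.Ry.N5
section
/-!
# The Fourier form and the Lefschetz decomposition: linear algebra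

`B x y = ∫ x × y · exp P`; `e = exp l` is `IsNilpotent.exp l` (`l ^ (g + 1) = 0`; use
`IsNilpotent.exp_eq_sum`, `IsNilpotent.exp_mul_exp_neg_self`).  Put `S x y = B (e * x) (e * y)`,
so that `B (e * x) z = S x (exp (-l) * z)`.
Plan.  `gt`: `pd`, `top`, `mul`, `tau`.  `prim`: let `m = g - 2 a`.  For `w` of degree `c > g - a`,
`S y w = 0` by `wt`, as `e * y` has components of degree `≤ a + m` and `e * w` of degree `≥ c`.
So `B (e * y) z = ∑ i, (-1) ^ i / i! * S y (l ^ i * z)` has only the term `i = m - j` (`sub`,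
`tau`), and the left side is `B (l ^ j * y) z / j!` (`wt`).  `inj`: if `B y = 0`, `y ≠ 0`, take `i`
maximal with `l ^ i * y ≠ 0`; for `z` of degree `g - a - i`,
`0 = B y (e * z) = S (exp (-l) * y) z = ± χ τ (l ^ i * y * z) / i!`, a contradiction with `pd'`.
`step`: `S x z = τ (s * z)` (`rep`), `s = ∑ s d` with `s d` of degree `d`; `s d = 0` for `d > c`
and `s c = χ • x` (`sub`, `pd'`).  For `z` of degree `g - d < c`, `0 = B (e * x) z =
τ (s * exp (-l) * z)`, so the component of degree `d` of `s * exp (-l)` vanishes (`pd'`); take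
`d = max c (g - c + 1)`.  `dec`: induction on `c` with `step` (terms with `j > g - 2 (c - j)`
vanish).  `strict`: `prim` with `j = 0`; a semidefinite form vanishes on its isotropic vectors;
`wt`, `top`, `inj`.  `psd`: `dec`, `prim`, `symm`: the cross terms vanish.
-/

namespace Pool.Agent.Work.MP_ffcd14_ag.Ry

set_option linter.unusedSectionVars false

variable {R : Type*} [CommRing R] [Algebra ℚ R]

/-- The properties of the Fourier form. -/
structure Fou (τ : R →ₗ[ℚ] ℚ) (gr : ℕ → Submodule ℚ R) (g : ℕ) (l : R) (B : R →ₗ[ℚ] R →ₗ[ℚ] ℚ)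
    (χ : ℚ) : Prop where
  mul : ∀ {a b x y}, x ∈ gr a → y ∈ gr b → x * y ∈ gr (a + b)
  one : 1 ∈ gr 0
  top : ⨆ c, gr c = ⊤
  tau : ∀ {c x}, x ∈ gr c → c ≠ g → τ x = 0
  pd : ∀ x, (∀ z, τ (x * z) = 0) → x = 0
  mem : l ∈ gr 1
  symm : ∀ x y, B x y = B y x
  rep : ∀ x, ∃ s, ∀ z, B x z = τ (s * z)
  wt : ∀ {a b x y}, x ∈ gr a → y ∈ gr b → a ≠ b → B x y = 0
  pos : 0 < χ
  sub : ∀ {a b x y}, x ∈ gr a → y ∈ gr b → a + b ≤ g →
    B (IsNilpotent.exp l * x) (IsNilpotent.exp l * y) = χ * τ (x * y)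

namespace Fou

variable {τ : R →ₗ[ℚ] ℚ} {gr : ℕ → Submodule ℚ R} {g : ℕ} {l : R} {B : R →ₗ[ℚ] R →ₗ[ℚ] ℚ} {χ : ℚ}
  (h : Fou τ gr g l B χ)

include h

theorem n5_ext {f : R →ₗ[ℚ] ℚ} (h0 : ∀ d, ∀ z ∈ gr d, f z = 0) (z : R) : f z = 0 := by
  have hz : z ∈ ⨆ c, gr c := h.top ▸ Submodule.mem_top
  refine Submodule.iSup_induction gr (motive := fun z => f z = 0) hz h0 (map_zero f) ?_
  intro x y hx hy
  rw [map_add, hx, hy, add_zero]

theorem gt {c : ℕ} {x : R} (hx : x ∈ gr c) (hc : g < c) : x = 0 := by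
  refine h.pd x (h.n5_ext (f := τ ∘ₗ LinearMap.mulLeft ℚ x) fun d z hz => ?_)
  exact h.tau (h.mul hx hz) (by omega)

theorem pd' {c d : ℕ} {x : R} (hx : x ∈ gr c) (hd : c + d = g) (h0 : ∀ z ∈ gr d, τ (x * z) = 0) :
    x = 0 := by
  refine h.pd x (h.n5_ext (f := τ ∘ₗ LinearMap.mulLeft ℚ x) fun e z hz => ?_)
  by_cases he : e = d
  · exact h0 z (he ▸ hz)
  · exact h.tau (h.mul hx hz) (by omega)

theorem n5_mul {c : ℕ} {x : R} (hx : x ∈ gr c) (i : ℕ) : l ^ i * x ∈ gr (i + c) := by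
  induction i with
  | zero => simpa using hx
  | succ i ih =>
    rw [pow_succ', mul_assoc, show i + 1 + c = 1 + (i + c) by omega]
    exact h.mul h.mem ih

theorem n5_nil {k : ℕ} (hk : g < k) : l ^ k = 0 := by
  have := h.gt (h.n5_mul h.one k) (by omega)
  rwa [mul_one] at this

omit h [Algebra ℚ R] in
theorem n5_van {m i : ℕ} {y : R} (h0 : l ^ (m + 1) * y = 0) (hi : m < i) : l ^ i * y = 0 := by
  obtain ⟨k, rfl⟩ : ∃ k, i = k + (m + 1) := ⟨i - (m + 1), by omega⟩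
  rw [pow_add, mul_assoc, h0, mul_zero]

theorem n5_inv (z : R) : IsNilpotent.exp l * (IsNilpotent.exp (-l) * z) = z := by
  rw [← mul_assoc, IsNilpotent.exp_mul_exp_neg_self ⟨g + 1, h.n5_nil (by omega)⟩, one_mul]

theorem n5_one (f : R →ₗ[ℚ] ℚ) {x : R} (k : ℕ) (h0 : ∀ i, i ≠ k → f (l ^ i * x) = 0) :
    f (IsNilpotent.exp l * x) = (k.factorial : ℚ)⁻¹ * f (l ^ k * x) := by
  rw [IsNilpotent.exp_eq_sum (h.n5_nil (k := g + k + 1) (by omega)), Finset.sum_mul, map_sum,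
    Finset.sum_eq_single_of_mem k (Finset.mem_range.2 (by omega))]
  · rw [smul_mul_assoc, map_smul, smul_eq_mul]
  · intro i _ hi
    rw [smul_mul_assoc, map_smul, h0 i hi, smul_zero]

theorem n5_zero (f : R →ₗ[ℚ] ℚ) {x : R} (h0 : ∀ i, f (l ^ i * x) = 0) :
    f (IsNilpotent.exp l * x) = 0 := by
  rw [h.n5_one f 0 fun i _ => h0 i, h0, mul_zero]

theorem n5_neg (f : R →ₗ[ℚ] ℚ) {x : R} (k : ℕ) (h0 : ∀ i, i ≠ k → f (l ^ i * x) = 0) :
    f (IsNilpotent.exp (-l) * x) = (k.factorial : ℚ)⁻¹ * (-1) ^ k * f (l ^ k * x) := by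
  have e : ∀ i : ℕ, (-l) ^ i * x = ((-1 : ℚ) ^ i) • (l ^ i * x) := by
    intro i
    rcases Nat.even_or_odd i with hi | hi
    · rw [hi.neg_pow, hi.neg_one_pow, one_smul]
    · rw [hi.neg_pow, hi.neg_one_pow, neg_one_smul, neg_mul]
  have hn : (-l) ^ (g + k + 1) = 0 := by
    rw [neg_pow, h.n5_nil (k := g + k + 1) (by omega), mul_zero]
  rw [IsNilpotent.exp_eq_sum hn, Finset.sum_mul, map_sum,
    Finset.sum_eq_single_of_mem k (Finset.mem_range.2 (by omega))]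
  · rw [smul_mul_assoc, e, map_smul, map_smul, smul_eq_mul, smul_eq_mul, mul_assoc]
  · intro i _ hi
    rw [smul_mul_assoc, e, map_smul, map_smul, h0 i hi, smul_zero, smul_zero]

theorem prim {a m j : ℕ} (hm : m + 2 * a = g) {y z : R} (hy : y ∈ gr a) (h0 : l ^ (m + 1) * y = 0)
    (hj : j ≤ m) (hz : z ∈ gr (a + j)) : B (l ^ j * y) z =
      χ * j.factorial / (m - j).factorial * (-1) ^ (m - j) * τ (l ^ (m - j) * y * z) := by
  have hS : ∀ c, ∀ w ∈ gr c, c ≠ a + m →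
      B (IsNilpotent.exp l * y) (IsNilpotent.exp l * w) = 0 := by
    intro c w hw hc
    rcases le_or_gt (a + c) g with h1 | h1
    · rw [h.sub hy hw h1, h.tau (h.mul hy hw) (by omega), mul_zero]
    · refine h.n5_zero (B (IsNilpotent.exp l * y)) fun i => ?_
      refine h.n5_zero (B.flip (l ^ i * w)) fun i' => ?_
      rw [LinearMap.flip_apply]
      rcases le_or_gt i' m with h2 | h2
      · exact h.wt (h.n5_mul hy i') (h.n5_mul hw i) (by omega)
      · rw [n5_van h0 h2, map_zero, LinearMap.zero_apply]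
  have h1 : B (IsNilpotent.exp l * y) z = (j.factorial : ℚ)⁻¹ * B (l ^ j * y) z :=
    h.n5_one (B.flip z) j fun i hi => h.wt (h.n5_mul hy i) hz (by omega)
  have h2 := h.n5_neg (B (IsNilpotent.exp l * y) ∘ₗ LinearMap.mulLeft ℚ (IsNilpotent.exp l))
    (x := z) (m - j) fun i hi => hS _ _ (h.n5_mul hz i) (by omega)
  simp only [LinearMap.comp_apply, LinearMap.mulLeft_apply] at h2
  rw [h.n5_inv, h1, h.sub hy (h.n5_mul hz _) (by omega),
    inv_mul_eq_iff_eq_mul₀ (by exact_mod_cast j.factorial_ne_zero)] at h2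
  rw [h2, show y * (l ^ (m - j) * z) = l ^ (m - j) * y * z by ring]
  ring

theorem inj {a : ℕ} {y : R} (hy : y ∈ gr a) (h0 : ∀ z, B y z = 0) : y = 0 := by
  by_contra hy0
  have hex : ∃ n, l ^ n * y = 0 := ⟨g + 1, by rw [h.n5_nil (by omega), zero_mul]⟩
  classical
  obtain ⟨i, hi⟩ : ∃ i, Nat.find hex = i + 1 := by
    refine Nat.exists_eq_add_one_of_ne_zero fun e => hy0 ?_
    have := Nat.find_spec hex
    rwa [e, pow_zero, one_mul] at this
  have h1 : l ^ (i + 1) * y = 0 := hi ▸ Nat.find_spec hex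
  have h2 : l ^ i * y ≠ 0 := Nat.find_min hex (by omega)
  have h3 : i + a ≤ g := by
    by_contra h3
    exact h2 (h.gt (h.n5_mul hy i) (by omega))
  refine h2 (h.pd' (h.n5_mul hy i) (d := g - (i + a)) (by omega) fun z hz => ?_)
  have h4 := h.n5_neg (B.flip (IsNilpotent.exp l * z) ∘ₗ LinearMap.mulLeft ℚ (IsNilpotent.exp l))
    (x := y) i fun k hk => by
      simp only [LinearMap.comp_apply, LinearMap.mulLeft_apply, LinearMap.flip_apply]
      rcases lt_or_gt_of_ne hk with h5 | h5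
      · rw [h.sub (h.n5_mul hy k) hz (by omega), h.tau (h.mul (h.n5_mul hy k) hz) (by omega),
          mul_zero]
      · rw [n5_van h1 h5, mul_zero, map_zero, LinearMap.zero_apply]
  simp only [LinearMap.comp_apply, LinearMap.mulLeft_apply, LinearMap.flip_apply] at h4
  rw [h.n5_inv, h0, h.sub (h.n5_mul hy i) hz (by omega)] at h4
  have h5 : (i.factorial : ℚ)⁻¹ * (-1) ^ i ≠ 0 :=
    mul_ne_zero (inv_ne_zero (by exact_mod_cast i.factorial_ne_zero))
      (pow_ne_zero _ (by norm_num))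
  exact (mul_eq_zero.1 ((mul_eq_zero.1 h4.symm).resolve_left h5)).resolve_left h.pos.ne'

theorem n5_dec (s : R) :
    ∃ f : ℕ → R, (∀ d, f d ∈ gr d) ∧ s = ∑ d ∈ Finset.range (g + 1), f d := by
  have hz : s ∈ ⨆ c, gr c := h.top ▸ Submodule.mem_top
  refine Submodule.iSup_induction gr (motive := fun s => ∃ f : ℕ → R, (∀ d, f d ∈ gr d) ∧
    s = ∑ d ∈ Finset.range (g + 1), f d) hz ?_ ⟨0, fun d => zero_mem _, by simp⟩ ?_
  · intro c x hx
    rcases lt_or_ge g c with hc | hc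
    · exact ⟨0, fun d => zero_mem _, by simp [h.gt hx hc]⟩
    · refine ⟨fun d => if d = c then x else 0, fun d => ?_, ?_⟩
      · beta_reduce
        split_ifs with e
        · exact e ▸ hx
        · exact zero_mem _
      · rw [Finset.sum_ite_eq' , if_pos (Finset.mem_range.2 (by omega))]
  · rintro x y ⟨f, hf, rfl⟩ ⟨f', hf', rfl⟩
    exact ⟨fun d => f d + f' d, fun d => add_mem (hf d) (hf' d), Finset.sum_add_distrib.symm⟩

theorem step {c : ℕ} {x : R} (hx : x ∈ gr (c + 1)) :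
    ∃ w ∈ gr c, (g < 2 * (c + 1) → x = l * w) ∧ l ^ (g - 2 * (c + 1) + 1) * (x - l * w) = 0 := by
  rcases lt_or_ge g (c + 1) with hg | hg
  · obtain rfl := h.gt hx hg
    exact ⟨0, zero_mem _, fun _ => (mul_zero l).symm, by simp⟩
  obtain ⟨s0, hs0⟩ := h.rep (IsNilpotent.exp l * x)
  obtain ⟨s, hs, es⟩ := h.n5_dec (s0 * IsNilpotent.exp l)
  have hS : ∀ z, B (IsNilpotent.exp l * x) (IsNilpotent.exp l * z) =
      ∑ d ∈ Finset.range (g + 1), τ (s d * z) := by
    intro z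
    rw [hs0, ← mul_assoc, es, Finset.sum_mul, map_sum]
  have hd : ∀ d, c + 1 ≤ d → d ≤ g → ∀ z ∈ gr (g - d), τ (s d * z) = χ * τ (x * z) := by
    intro d h1 h2 z hz
    rw [← h.sub hx hz (by omega), hS,
      Finset.sum_eq_single_of_mem d (Finset.mem_range.2 (by omega))]
    intro b _ hb
    exact h.tau (h.mul (hs b) hz) (by omega)
  have h1 : ∀ d, c + 1 < d → s d = 0 := by
    intro d h1
    rcases lt_or_ge g d with h2 | h2
    · exact h.gt (hs d) h2
    · refine h.pd' (hs d) (d := g - d) (by omega) fun z hz => ?_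
      rw [hd d h1.le h2 z hz, h.tau (h.mul hx hz) (by omega), mul_zero]
  have h2 : s (c + 1) = χ • x := by
    rw [← sub_eq_zero]
    refine h.pd' (sub_mem (hs _) (Submodule.smul_mem _ _ hx)) (d := g - (c + 1)) (by omega)
      fun z hz => ?_
    rw [sub_mul, map_sub, hd _ le_rfl hg z hz, smul_mul_assoc, map_smul, smul_eq_mul, sub_self]
  obtain ⟨k, hk1, hk2, hk3, hk4⟩ : ∃ k, k + (c + 1) ≤ g ∧ g < k + 2 * (c + 1) ∧
      (g < 2 * (c + 1) → k = 0) ∧ k ≤ g - 2 * (c + 1) + 1 :=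
    ⟨g + 1 - 2 * (c + 1), by omega, by omega, by omega, by omega⟩
  let q : ℕ → ℚ := fun d => ((k + (c + 1) - d).factorial : ℚ)⁻¹ * (-1) ^ (k + (c + 1) - d)
  have hq : q (c + 1) * χ ≠ 0 :=
    mul_ne_zero (mul_ne_zero (inv_ne_zero (by exact_mod_cast Nat.factorial_ne_zero _))
      (pow_ne_zero _ (by norm_num))) h.pos.ne'
  have hu : ∑ d ∈ Finset.range (c + 1 + 1), q d • (l ^ (k + (c + 1) - d) * s d) = 0 := by
    refine h.pd' (c := k + (c + 1)) (d := g - (k + (c + 1))) (sum_mem fun d hd' => ?_)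
      (by omega) fun z hz => ?_
    · have := h.n5_mul (hs d) (k + (c + 1) - d)
      have h3 := Finset.mem_range.1 hd'
      rw [show k + (c + 1) - d + d = k + (c + 1) by omega] at this
      exact Submodule.smul_mem _ _ this
    · have h3 : B (IsNilpotent.exp l * x) z = 0 :=
        h.n5_zero (B.flip z) fun i => h.wt (h.n5_mul hx i) hz (by omega)
      rw [← h.n5_inv z, hS, ← Finset.sum_subset
        (Finset.range_subset_range.2 (by omega : c + 1 + 1 ≤ g + 1))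
        (fun d _ hd' => by
          rw [h1 d (by simpa using hd'), zero_mul, map_zero])] at h3
      rw [Finset.sum_mul, map_sum, ← h3]
      refine Finset.sum_congr rfl fun d hd' => ?_
      have h4 := Finset.mem_range.1 hd'
      have h5 := h.n5_neg (τ ∘ₗ LinearMap.mulLeft ℚ (s d)) (x := z) (k + (c + 1) - d)
        fun i hi => h.tau (h.mul (hs d) (h.n5_mul hz i)) (by omega)
      simp only [LinearMap.comp_apply, LinearMap.mulLeft_apply] at h5
      rw [h5, smul_mul_assoc, map_smul, smul_eq_mul,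
        show l ^ (k + (c + 1) - d) * s d * z = s d * (l ^ (k + (c + 1) - d) * z) by ring]
  let w : R := -(q (c + 1) * χ)⁻¹ • ∑ d ∈ Finset.range (c + 1), q d • (l ^ (c - d) * s d)
  have hw : l ^ k * (x - l * w) = 0 := by
    rw [Finset.sum_range_succ, h2, show k + (c + 1) - (c + 1) = k by omega] at hu
    have e : ∑ d ∈ Finset.range (c + 1), q d • (l ^ (k + (c + 1) - d) * s d) =
        l ^ k * (l * ∑ d ∈ Finset.range (c + 1), q d • (l ^ (c - d) * s d)) := by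
      rw [Finset.mul_sum, Finset.mul_sum]
      refine Finset.sum_congr rfl fun d hd' => ?_
      have h4 := Finset.mem_range.1 hd'
      rw [show k + (c + 1) - d = k + 1 + (c - d) by omega, mul_smul_comm, mul_smul_comm]
      congr 1
      ring
    rw [e, mul_smul_comm, smul_smul] at hu
    have e2 := congrArg (fun t => (q (c + 1) * χ)⁻¹ • t) hu
    simp only [smul_add, smul_zero, inv_smul_smul₀ hq] at e2
    rw [← e2, mul_sub]
    simp only [w, mul_smul_comm, neg_smul, mul_neg]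
    ring
  refine ⟨w, Submodule.smul_mem _ _ (sum_mem fun d hd' => ?_), fun h3 => ?_, ?_⟩
  · have := h.n5_mul (hs d) (c - d)
    have h3 := Finset.mem_range.1 hd'
    rw [show c - d + d = c by omega] at this
    exact Submodule.smul_mem _ _ this
  · rw [hk3 h3, pow_zero, one_mul, sub_eq_zero] at hw
    exact hw
  · obtain ⟨r, hr⟩ : ∃ r, g - 2 * (c + 1) + 1 = r + k := ⟨g - 2 * (c + 1) + 1 - k, by omega⟩
    rw [hr, pow_add, mul_assoc, hw, mul_zero]

theorem dec {c : ℕ} {x : R} (hx : x ∈ gr c) : ∃ y : ℕ → R, (∀ a, y a ∈ gr a) ∧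
    (∀ a, l ^ (g - 2 * a + 1) * y a = 0) ∧ (∀ a, g < a + c → y a = 0) ∧
      x = ∑ a ∈ Finset.range (c + 1), l ^ (c - a) * y a := by
  induction c generalizing x with
  | zero =>
    refine ⟨fun a => if a = 0 then x else 0, fun a => ?_, fun a => ?_, fun a ha => ?_, by simp⟩
    · beta_reduce
      split_ifs with e
      · exact e ▸ hx
      · exact zero_mem _
    · beta_reduce
      split_ifs with e
      · rw [h.n5_nil (by omega), zero_mul]
      · exact mul_zero _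
    · exact if_neg (by omega)
  | succ c ih =>
    obtain ⟨w, hw, h1, h2⟩ := h.step hx
    obtain ⟨y, y1, y2, -, y4⟩ := ih hw
    have hlw : l * w ∈ gr (c + 1) := by
      rw [add_comm]
      exact h.mul h.mem hw
    refine ⟨fun a => if a = c + 1 then x - l * w else if a + (c + 1) ≤ g then y a else 0,
      fun a => ?_, fun a => ?_, fun a ha => ?_, ?_⟩
    · beta_reduce
      split_ifs with e
      · exact e ▸ sub_mem hx hlw
      · exact y1 a
      · exact zero_mem _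
    · beta_reduce
      split_ifs with e
      · exact e ▸ h2
      · exact y2 a
      · exact mul_zero _
    · beta_reduce
      split_ifs with e e'
      · exact sub_eq_zero.2 (h1 (by omega))
      · omega
      · rfl
    · beta_reduce
      rw [Finset.sum_range_succ, if_pos rfl, Nat.sub_self, pow_zero, one_mul]
      have e : ∑ a ∈ Finset.range (c + 1), l ^ (c + 1 - a) *
          (if a = c + 1 then x - l * w else if a + (c + 1) ≤ g then y a else 0) = l * w := by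
        rw [y4, Finset.mul_sum]
        refine Finset.sum_congr rfl fun a ha => ?_
        have h3 := Finset.mem_range.1 ha
        rw [if_neg (by omega), ← mul_assoc, ← pow_succ', show c - a + 1 = c + 1 - a by omega]
        split_ifs with e
        · rfl
        · rw [mul_zero, n5_van (y2 a) (by omega)]
      rw [e, add_sub_cancel]

theorem strict {n : ℕ} (hn : 2 * n ≤ g) (hB : ∀ x ∈ gr n, 0 ≤ (-1) ^ (g - n) * B x x) {x : R}
    (hx : x ∈ gr n) (h0 : l ^ (g - 2 * n + 1) * x = 0) (h1 : x ≠ 0) :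
    0 < (-1) ^ n * τ (x * (l ^ (g - 2 * n) * x)) := by
  have h2 := h.prim (a := n) (m := g - 2 * n) (j := 0) (by omega) hx h0 (Nat.zero_le _) hx
  rw [pow_zero, one_mul, Nat.sub_zero, Nat.factorial_zero, Nat.cast_one, mul_one] at h2
  have h3 : (-1 : ℚ) ^ (g - n) * B x x =
      χ / (g - 2 * n).factorial * ((-1) ^ n * τ (x * (l ^ (g - 2 * n) * x))) := by
    rw [h2, show g - n = n + (g - 2 * n) by omega, pow_add,
      show l ^ (g - 2 * n) * x * x = x * (l ^ (g - 2 * n) * x) by ring]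
    have e : ((-1 : ℚ) ^ (g - 2 * n)) * (-1) ^ (g - 2 * n) = 1 := by
      rw [← mul_pow]; simp
    linear_combination (χ / (g - 2 * n).factorial * (-1) ^ n *
      τ (x * (l ^ (g - 2 * n) * x))) * e
  have h4 : 0 < χ / ((g - 2 * n).factorial : ℚ) :=
    div_pos h.pos (by exact_mod_cast Nat.factorial_pos _)
  have h5 := hB x hx
  rcases h5.lt_or_eq with h6 | h6
  · rw [h3] at h6
    exact (mul_pos_iff_of_pos_left h4).1 h6
  refine absurd (h.inj hx (h.n5_ext (f := B x) fun d z hz => ?_)) h1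
  by_cases hd : d = n
  swap
  · exact h.wt hx hz (Ne.symm hd)
  subst hd
  have h7 := hB z hz
  have h8 : ∀ t : ℚ, 0 ≤ 2 * t * ((-1) ^ (g - d) * B x z) + t ^ 2 * ((-1) ^ (g - d) * B z z) := by
    intro t
    have := hB (x + t • z) (add_mem hx (Submodule.smul_mem _ _ hz))
    simp only [map_add, map_smul, LinearMap.add_apply, LinearMap.smul_apply, smul_eq_mul] at this
    rw [h.symm z x] at this
    linarith
  have h9 : (-1 : ℚ) ^ (g - d) * B x z = 0 := by
    generalize (-1 : ℚ) ^ (g - d) * B x z = b at h8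
    generalize (-1 : ℚ) ^ (g - d) * B z z = c at h7 h8
    have h10 := h8 (-b / (c + 1))
    have e : 2 * (-b / (c + 1)) * b + (-b / (c + 1)) ^ 2 * c =
        -(b ^ 2 * (c + 2) / (c + 1) ^ 2) := by
      field_simp
      ring
    rw [e, neg_nonneg, div_nonpos_iff] at h10
    have h11 : b ^ 2 * (c + 2) ≤ 0 := by
      rcases h10 with h10 | h10
      · have : 0 < (c + 1) ^ 2 := by positivity
        linarith [h10.2]
      · exact h10.1
    have h12 : b ^ 2 ≤ 0 := by nlinarith [sq_nonneg b]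
    exact pow_eq_zero_iff two_ne_zero |>.1 (le_antisymm h12 (sq_nonneg b))
  exact (mul_eq_zero.1 h9).resolve_left (pow_ne_zero _ (by norm_num))

theorem psd (hw : ∀ a, 2 * a ≤ g → ∀ x ∈ gr a, l ^ (g - 2 * a + 1) * x = 0 →
    0 ≤ (-1) ^ a * τ (x * (l ^ (g - 2 * a) * x))) {n : ℕ} (hn : n ≤ g) {x : R} (hx : x ∈ gr n) :
    0 ≤ (-1) ^ (g - n) * B x x := by
  obtain ⟨y, y1, y2, y3, rfl⟩ := h.dec hx
  have hm : ∀ b, b ≤ n → ∀ a, a ≤ n → l ^ (n - b) * y b ∈ gr (a + (n - a)) := by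
    intro b hb a ha
    have := h.n5_mul (y1 b) (n - b)
    rwa [show n - b + b = a + (n - a) by omega] at this
  have hc : ∀ a, a ≤ n → ∀ b, b < a → B (l ^ (n - a) * y a) (l ^ (n - b) * y b) = 0 := by
    intro a ha b hb
    rcases lt_or_ge g (a + n) with h1 | h1
    · rw [y3 a h1, mul_zero, map_zero, LinearMap.zero_apply]
    · rw [h.prim (m := g - 2 * a) (by omega) (y1 a) (y2 a) (by omega) (hm b (by omega) a ha),
        show l ^ (g - 2 * a - (n - a)) * y a * (l ^ (n - b) * y b) =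
          l ^ (g - 2 * a - (n - a) + (n - b)) * y a * y b by ring,
        n5_van (y2 a) (by omega), zero_mul, map_zero, mul_zero]
  rw [map_sum, Finset.mul_sum]
  refine Finset.sum_nonneg fun a ha => ?_
  have ha' : a ≤ n := Nat.lt_succ_iff.1 (Finset.mem_range.1 ha)
  rw [map_sum, LinearMap.sum_apply, Finset.sum_eq_single_of_mem a ha]
  swap
  · intro b hb hba
    rcases lt_or_gt_of_ne hba with h1 | h1
    · rw [h.symm, hc a ha' b h1]
    · exact hc b (Nat.lt_succ_iff.1 (Finset.mem_range.1 hb)) a h1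
  rcases lt_or_ge g (a + n) with h1 | h1
  · rw [y3 a h1, mul_zero, map_zero, mul_zero]
  rw [h.prim (m := g - 2 * a) (by omega) (y1 a) (y2 a) (by omega) (hm a ha' a ha'),
    show l ^ (g - 2 * a - (n - a)) * y a * (l ^ (n - a) * y a) =
      y a * (l ^ (g - 2 * a - (n - a) + (n - a)) * y a) by ring,
    show g - 2 * a - (n - a) + (n - a) = g - 2 * a by omega,
    show g - n = a + (g - 2 * a - (n - a)) by omega, pow_add]
  have h2 := hw a (by omega) (y a) (y1 a) (y2 a)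
  generalize g - 2 * a - (n - a) = r
  have e : ((-1 : ℚ) ^ r) * (-1) ^ r = 1 := by
    rw [← mul_pow]; simp
  have h3 : 0 ≤ χ * ((n - a).factorial : ℚ) / r.factorial := by
    have := h.pos
    positivity
  have h4 := mul_nonneg h3 h2
  linear_combination h4 - (χ * ((n - a).factorial : ℚ) / r.factorial * (-1) ^ a *
    τ (y a * (l ^ (g - 2 * a) * y a))) * e

end Fou

end Pool.Agent.Work.MP_ffcd14_ag.Ry
end

-- merged part: Pool.Agent.Work.MP_ffcd14_ag.Ry.N6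
section
/-!
# The Fourier form of an abelian variety

Plan.  All classes of positive codimension are nilpotent (`ng_pow`, `ng_gt`), so
`exp (PP l) = ∑ j < 2 g + 1, PP l ^ j / j!` (`IsNilpotent.exp_eq_sum`) and
`FB l x y = ∑ j, BB l j x y / j!`; this gives `wt`, `symm` and `FB_eq` from `BB_wt`, `BB_symm`.
`rep`: `exists_nps` for `p2`.  `sub`: `p1^* exp l * p2^* exp l * exp (PP l) = exp (sub^* l)`
(`IsNilpotent.exp_add_of_commute`, `IsNilpotent.map_exp`); the terms `j < g` vanish by `nt_ng`,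
the terms `j > g` by `ng_gt` on `X`, and the term `j = g` is `sub_pt`.
-/

namespace Pool.Agent.Work.MP_ffcd14_ag.Ry

open MvPolynomial Filter Topology MP_10f4af_ag MP_10f4af_ag.Nu Tr

set_option linter.unusedSectionVars false

universe u

variable {k : Type u} [Field k] [IsAlgClosed k] {P Q S : Amb} {X : SV k P} {Y : SV k Q}
  {Z : SV k S}

theorem HdN.hw {l : NN X} {n : ℕ} (h : HdN X l n) : HwN X l n := by
  intro x hx h0
  by_cases h1 : x = 0
  · simp [h1]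
  · exact (h x hx h0 h1).le

theorem N6_pow {u : NN X} (hu : u ∈ ng X 1) : u ^ (X.dim + 1) = 0 :=
  ng_gt (ng_pow hu _) (by omega)

namespace AV

variable (A : AV X)

/-- The form `∫ x × y · exp P`. -/
noncomputable def FB (l : NN X) : NN X →ₗ[ℚ] NN X →ₗ[ℚ] ℚ :=
  ((LinearMap.mul ℚ _).compl₁₂ (hpl (p1 X X)).toLinearMap (hpl (p2 X X)).toLinearMap).compr₂
    (nt (X.prod X) ∘ₗ LinearMap.mulRight ℚ (IsNilpotent.exp (A.PP l)))

theorem FB_apply (l x y : NN X) : A.FB l x y =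
    nt (X.prod X) (hpl (p1 X X) x * hpl (p2 X X) y * IsNilpotent.exp (A.PP l)) := rfl

theorem N6_sum {l : NN X} (hl : l ∈ ng X 1) (x y : NN X) : A.FB l x y =
    ∑ j ∈ Finset.range ((X.prod X).dim + 1), (j.factorial : ℚ)⁻¹ * A.BB l j x y := by
  rw [FB_apply, IsNilpotent.exp_eq_sum (N6_pow (A.PP_ng hl)), Finset.mul_sum, map_sum]
  exact Finset.sum_congr rfl fun j _ => by rw [mul_smul_comm, map_smul, smul_eq_mul, BB]

theorem N6_exp {l : NN X} (hl : l ∈ ng X 1) :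
    hpl (p1 X X) (IsNilpotent.exp l) * hpl (p2 X X) (IsNilpotent.exp l) * IsNilpotent.exp (A.PP l) =
      hpl A.sub (IsNilpotent.exp l) := by
  have h0 : IsNilpotent l := ⟨_, N6_pow hl⟩
  have h1 : IsNilpotent (hpl (p1 X X) l) := h0.map _
  have h2 : IsNilpotent (hpl (p2 X X) l) := h0.map _
  have h3 : IsNilpotent (A.PP l) := ⟨_, N6_pow (A.PP_ng hl)⟩
  rw [IsNilpotent.map_exp h0, IsNilpotent.map_exp h0, IsNilpotent.map_exp h0,
    ← IsNilpotent.exp_add_of_commute (Commute.all _ _) h1 h2,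
    ← IsNilpotent.exp_add_of_commute (Commute.all _ _) ((Commute.all _ _).isNilpotent_add h1 h2) h3, PP,
    sub_sub, add_sub_cancel]

theorem fou {l : NN X} (hl : l ∈ ng X 1) (h : 0 < nt X (l ^ X.dim)) :
    Fou (nt X) (ng X) X.dim l (A.FB l) (nt X (l ^ X.dim) / X.dim.factorial) := by
  refine ⟨ng_mul, ng_one, ng_iSup, nt_ng, fun _ => nt_pd, hl, fun x y => ?_, fun x => ?_,
    fun hx hy hab => ?_, div_pos h (Nat.cast_pos.2 (Nat.factorial_pos _)), fun {a b x y} hx hy hab => ?_⟩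
  · rw [A.N6_sum hl, A.N6_sum hl]
    exact Finset.sum_congr rfl fun j _ => by rw [A.BB_symm hl]
  · obtain ⟨s, hs⟩ := exists_nps (p2 X X) (hpl (p1 X X) x * IsNilpotent.exp (A.PP l))
    exact ⟨s, fun z => by rw [FB_apply, mul_right_comm, hs]⟩
  · rw [A.N6_sum hl]
    refine Finset.sum_eq_zero fun j _ => mul_eq_zero_of_right _ (by_contra fun k => ?_)
    exact hab (A.BB_wt hl hx hy k).1
  · rw [FB_apply, map_mul (hpl _), map_mul (hpl _), mul_mul_mul_comm, mul_right_comm, A.N6_exp hl,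
      mul_comm (hpl A.sub _), IsNilpotent.exp_eq_sum (N6_pow hl), map_sum, Finset.mul_sum, map_sum, Finset.sum_range_succ,
      Finset.sum_eq_zero fun j hj => ?_]
    · rw [zero_add, map_smul, mul_smul_comm, map_smul,
        A.sub_pt (by simpa only [mul_one] using ng_pow hl X.dim), smul_eq_mul, ← mul_assoc, div_eq_inv_mul]
    · rw [map_smul, mul_smul_comm, map_smul, nt_ng (ng_mul (ng_mul (hpl_ng _ hx) (hpl_ng _ hy))
        (hpl_ng _ (ng_pow hl j))) (by
          rw [prod_dim]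
          have := Finset.mem_range.1 hj
          omega), smul_zero]

theorem FB_eq {l : NN X} (hl : l ∈ ng X 1) {n : ℕ} (hn : n ≤ X.dim) {x y : NN X}
    (hx : x ∈ ng X n) (hy : y ∈ ng X n) :
    A.BB l (2 * (X.dim - n)) x y = (2 * (X.dim - n)).factorial * A.FB l x y := by
  rw [A.N6_sum hl, Finset.sum_eq_single (2 * (X.dim - n)), mul_inv_cancel_left₀
    (Nat.cast_ne_zero.2 (Nat.factorial_ne_zero _))]
  · refine fun j _ hj => mul_eq_zero_of_right _ (by_contra fun k => hj ?_)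
    have := (A.BB_wt hl hx hy k).2
    omega
  · refine fun k => absurd (Finset.mem_range.2 ?_) k
    rw [prod_dim]
    omega

theorem hd_of_QQ {l : NN X} (hl : l ∈ ng X 1) (h : 0 < nt X (l ^ X.dim)) {n : ℕ}
    (hn : 2 * n ≤ X.dim) (hQ : ∀ x ∈ ng X n, 0 ≤ A.QQ l n x x) : HdN X l n := by
  refine fun x hx => (A.fou hl h).strict hn (fun y hy => ?_) hx
  have := hQ y hy
  rw [QQ, A.FB_eq hl (by omega) hy hy, mul_left_comm] at this
  exact nonneg_of_mul_nonneg_right this (Nat.cast_pos.2 (Nat.factorial_pos _))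

theorem QQ_of_hw {l : NN X} (hl : l ∈ ng X 1) (h : 0 < nt X (l ^ X.dim))
    (hw : ∀ a, 2 * a ≤ X.dim → HwN X l a) {n : ℕ} (hn : n ≤ X.dim) {x : NN X} (hx : x ∈ ng X n) :
    0 ≤ A.QQ l n x x := by
  rw [QQ, A.FB_eq hl hn hx hx, mul_left_comm]
  exact mul_nonneg (Nat.cast_nonneg _) ((A.fou hl h).psd hw hn hx)

end AV

end Pool.Agent.Work.MP_ffcd14_ag.Ry
end

-- merged part: Pool.Agent.Work.MP_ffcd14_ag.Ry.N7X
section
/-!
# The Bochner argument: linear algebra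
-/

namespace Pool.Agent.Work.MP_ffcd14_ag.Ry

open Matrix

theorem N7_sym {I : Type*} [Fintype I] {M : Matrix I I ℚ} (hs : ∀ i j, M i j = M j i)
    (x y : I → ℚ) : x ⬝ᵥ M *ᵥ y = y ⬝ᵥ M *ᵥ x := by
  simp only [dotProduct, mulVec, Finset.mul_sum]
  rw [Finset.sum_comm]
  refine Finset.sum_congr rfl fun i _ => Finset.sum_congr rfl fun j _ => ?_
  rw [hs j i]
  ring

theorem N7_gap {I : Type*} [Fintype I] {M : Matrix I I ℚ} (hs : ∀ i j, M i j = M j i)
    {q d : I → ℚ} (hq : ∀ i, 0 < q i) (hMq : ∀ i, (M *ᵥ q) i = d i * q i) (x : I → ℚ) :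
    2 * (∑ i, d i * x i * x i - x ⬝ᵥ M *ᵥ x) =
      ∑ i, ∑ j, M i j * q i * q j * (x i / q i - x j / q j) ^ 2 := by
  have e (i : I) : d i * x i * x i = ∑ j, M i j * q j * (x i * x i / q i) := by
    rw [← Finset.sum_mul]
    have h := hMq i
    simp only [mulVec, dotProduct] at h
    rw [h]
    have := (hq i).ne'
    field_simp
  have e1 : ∑ i, d i * x i * x i = ∑ i, ∑ j, M i j * q j * (x i * x i / q i) :=
    Finset.sum_congr rfl fun i _ => e i
  have e2 : ∑ i, d i * x i * x i = ∑ i, ∑ j, M i j * q i * (x j * x j / q j) := by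
    rw [e1, Finset.sum_comm]
    exact Finset.sum_congr rfl fun i _ => Finset.sum_congr rfl fun j _ => by rw [hs j i]
  have e3 : x ⬝ᵥ M *ᵥ x = ∑ i, ∑ j, x i * (M i j * x j) := by
    simp only [dotProduct, mulVec, Finset.mul_sum]
  rw [mul_sub, two_mul (∑ i, d i * x i * x i)]
  nth_rewrite 1 [e1]
  rw [e2, e3, Finset.mul_sum, ← Finset.sum_add_distrib, ← Finset.sum_sub_distrib]
  refine Finset.sum_congr rfl fun i _ => ?_
  rw [Finset.mul_sum, ← Finset.sum_add_distrib, ← Finset.sum_sub_distrib]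
  refine Finset.sum_congr rfl fun j _ => ?_
  have := (hq i).ne'
  have := (hq j).ne'
  field_simp
  ring

theorem N7_alg {I : Type*} [Fintype I] {M : Matrix I I ℚ} (hs : ∀ i j, M i j = M j i)
    (hM : ∀ i j, 0 ≤ M i j) {q d : I → ℚ} (hq : ∀ i, 0 < q i) (hd : ∀ i, 0 < d i)
    (hMq : ∀ i, (M *ᵥ q) i = d i * q i) (i0 : I) (h0 : ∀ j, 0 < M i0 j)
    (h : ∀ x, x ⬝ᵥ M *ᵥ x ≤ ∑ i, (M *ᵥ x) i ^ 2 / d i) (x : I → ℚ) (hx : q ⬝ᵥ M *ᵥ x = 0) :
    x ⬝ᵥ M *ᵥ x ≤ 0 := by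
  have hnn (i j : I) (y : I → ℚ) : 0 ≤ M i j * q i * q j * (y i / q i - y j / q j) ^ 2 := by
    have := hM i j
    have := hq i
    have := hq j
    positivity
  have gap (y : I → ℚ) : y ⬝ᵥ M *ᵥ y ≤ ∑ i, d i * y i * y i := by
    have h1 := N7_gap hs hq hMq y
    have h2 : 0 ≤ ∑ i, ∑ j, M i j * q i * q j * (y i / q i - y j / q j) ^ 2 :=
      Finset.sum_nonneg fun i _ => Finset.sum_nonneg fun j _ => hnn i j y
    linarith
  have hqM (y : I → ℚ) : q ⬝ᵥ M *ᵥ y = ∑ i, d i * q i * y i := by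
    rw [N7_sym hs]
    exact Finset.sum_congr rfl fun i _ => by rw [hMq]; ring
  have hqq : 0 < ∑ i, d i * q i * q i :=
    Finset.sum_pos (fun i _ => by have := hq i; have := hd i; positivity) ⟨i0, Finset.mem_univ _⟩
  -- the operator `1 - A + P`
  let B : (I → ℚ) →ₗ[ℚ] (I → ℚ) :=
    { toFun := fun y i => y i - (M *ᵥ y) i / d i + (q ⬝ᵥ M *ᵥ y) * q i
      map_add' := fun y z => funext fun i => by
        simp only [mulVec_add, dotProduct_add, Pi.add_apply]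
        ring
      map_smul' := fun c y => funext fun i => by
        simp only [mulVec_smul, dotProduct_smul, Pi.smul_apply, smul_eq_mul, RingHom.id_apply]
        ring }
  have hB (y z : I → ℚ) : ∑ i, d i * z i * B y i =
      ∑ i, d i * z i * y i - z ⬝ᵥ M *ᵥ y + (q ⬝ᵥ M *ᵥ y) * (q ⬝ᵥ M *ᵥ z) := by
    rw [hqM z, Finset.mul_sum, dotProduct, ← Finset.sum_sub_distrib, ← Finset.sum_add_distrib]
    refine Finset.sum_congr rfl fun i _ => ?_
    change d i * z i * (y i - (M *ᵥ y) i / d i + (q ⬝ᵥ M *ᵥ y) * q i) = _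
    have := (hd i).ne'
    field_simp
  have hinj : Function.Injective B := by
    refine (injective_iff_map_eq_zero _).2 fun y hy => ?_
    have h1 := hB y y
    simp only [hy, Pi.zero_apply, mul_zero, Finset.sum_const_zero] at h1
    have h2 := gap y
    have h3 := mul_self_nonneg (q ⬝ᵥ M *ᵥ y)
    have h4 : q ⬝ᵥ M *ᵥ y = 0 := mul_self_eq_zero.1 (by linarith)
    have h5 := N7_gap hs hq hMq y
    rw [show ∑ i, d i * y i * y i - y ⬝ᵥ M *ᵥ y = 0 by linarith, mul_zero, eq_comm,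
      Finset.sum_eq_zero_iff_of_nonneg fun i _ => Finset.sum_nonneg fun j _ => hnn i j y] at h5
    have h6 := (Finset.sum_eq_zero_iff_of_nonneg fun j _ => hnn i0 j y).1
      (h5 i0 (Finset.mem_univ _))
    have h7 (j : I) : y j = y i0 / q i0 * q j := by
      have h8 := h6 j (Finset.mem_univ _)
      have h9 : M i0 j * q i0 * q j ≠ 0 := by
        have := h0 j
        have := hq i0
        have := hq j
        positivity
      have h10 := sub_eq_zero.1 (pow_eq_zero_iff two_ne_zero |>.1 ((mul_eq_zero.1 h8).resolve_left h9))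
      rw [h10]
      have := (hq j).ne'
      field_simp
    have h8 : y i0 / q i0 * ∑ i, d i * q i * q i = 0 := by
      rw [← h4, hqM, Finset.mul_sum]
      exact Finset.sum_congr rfl fun i _ => by rw [h7 i]; ring
    have h9 := (mul_eq_zero.1 h8).resolve_right hqq.ne'
    funext j
    rw [h7 j, h9, zero_mul, Pi.zero_apply]
  obtain ⟨y, rfl⟩ := LinearMap.surjective_of_injective hinj x
  have h1 : q ⬝ᵥ M *ᵥ y = 0 := by
    have h2 := hB y q
    rw [← hqM, ← hqM, hx, sub_self, zero_add, hqM q, eq_comm] at h2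
    exact (mul_eq_zero.1 h2).resolve_right hqq.ne'
  set z : I → ℚ := fun i => (M *ᵥ y) i / d i with hz
  have e : B y = y - z := funext fun i => by
    change y i - (M *ᵥ y) i / d i + (q ⬝ᵥ M *ᵥ y) * q i = _
    rw [h1, zero_mul, add_zero]
    rfl
  have e1 : z ⬝ᵥ M *ᵥ y = ∑ i, (M *ᵥ y) i ^ 2 / d i :=
    Finset.sum_congr rfl fun i _ => by rw [hz]; ring
  have e2 : z ⬝ᵥ M *ᵥ y = ∑ i, d i * z i * z i :=
    Finset.sum_congr rfl fun i _ => by
      have := (hd i).ne'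
      rw [hz]
      field_simp
  have h2 := h y
  have h3 := gap z
  rw [e, mulVec_sub, dotProduct_sub, sub_dotProduct, sub_dotProduct, N7_sym hs y z]
  linarith

theorem N7_bochner {R : Type*} [CommRing R] [Algebra ℚ R] (τ : R →ₗ[ℚ] ℚ) {S : Submodule ℚ R}
    {I : Type*} [Fintype I] (e : I → R) (q : I → ℚ) (hq : ∀ i, 0 < q i) (he : ∀ i, e i ∈ S)
    (h3 : ∀ i j m, 0 ≤ τ (e i * e j * e m)) (i0 : I) (h0 : ∀ j, 0 < τ (e i0 * e i0 * e j))
    (hr : ∀ i, RCS τ S (e i)) :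
    RCS τ (Submodule.span ℚ (Set.range e)) (∑ i, q i • e i) := by
  set l := ∑ i, q i • e i with hl
  have lin (a : R) (x : I → ℚ) : τ (a * ∑ i, x i • e i) = ∑ i, x i * τ (a * e i) := by
    simp only [Finset.mul_sum, mul_smul_comm, map_sum, map_smul, smul_eq_mul]
  let M : Matrix I I ℚ := fun i j => τ (l * e i * e j)
  have hs (i j : I) : M i j = M j i := congrArg τ (mul_right_comm _ _ _)
  have hM' (i j : I) : M i j = ∑ m, q m * τ (e i * e j * e m) := by
    rw [← lin]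
    exact congrArg τ (by ring)
  have hM (i j : I) : 0 ≤ M i j :=
    hM' i j ▸ Finset.sum_nonneg fun m _ => mul_nonneg (hq m).le (h3 i j m)
  have hM0 (j : I) : 0 < M i0 j := by
    rw [hM']
    refine Finset.sum_pos' (fun m _ => mul_nonneg (hq m).le (h3 _ j m))
      ⟨i0, Finset.mem_univ _, mul_pos (hq i0) ?_⟩
    rw [mul_right_comm]
    exact h0 j
  have hv (x : I → ℚ) (i : I) : (M *ᵥ x) i = τ (l * e i * ∑ j, x j • e j) := by
    rw [lin]
    exact Finset.sum_congr rfl fun j _ => mul_comm _ _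
  have hb (x y : I → ℚ) : x ⬝ᵥ M *ᵥ y = τ (l * (∑ j, x j • e j) * ∑ j, y j • e j) := by
    rw [mul_right_comm, lin]
    exact Finset.sum_congr rfl fun j _ => by rw [hv, mul_right_comm]
  have hp (i : I) : 0 < (M *ᵥ q) i :=
    Finset.sum_pos' (fun m _ => mul_nonneg (hM _ _) (hq m).le)
      ⟨i0, Finset.mem_univ _, mul_pos ((hM0 i).trans_eq (hs i0 i)) (hq i0)⟩
  have hS (x : I → ℚ) : ∑ j, x j • e j ∈ S := S.sum_mem fun j _ => S.smul_mem _ (he j)
  refine rcs_of_orth (w := l) ((Submodule.mem_span_range_iff_exists_fun ℚ).2 ⟨q, rfl⟩)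
    fun D hD h => ?_
  obtain ⟨x, rfl⟩ := (Submodule.mem_span_range_iff_exists_fun ℚ).1 hD
  rw [← hb]
  refine N7_alg hs hM (d := fun i => (M *ᵥ q) i / q i) hq (fun i => div_pos (hp i) (hq i))
    (fun i => (div_mul_cancel₀ _ (hq i).ne').symm) i0 hM0 (fun y => ?_) x (by rw [hb]; exact h)
  rw [hb, show l * (∑ j, y j • e j) * ∑ j, y j • e j =
    ((∑ j, y j • e j) * ∑ j, y j • e j) * l by ring, hl, lin]
  refine Finset.sum_le_sum fun i _ => ?_
  have e1 : (M *ᵥ q) i = τ (e i * l * l) := (hv q i).trans (congrArg τ (by ring))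
  have e2 : (M *ᵥ y) i = τ (e i * l * ∑ j, y j • e j) := (hv y i).trans (congrArg τ (by ring))
  have h1 := hr i l (hS q) _ (hS y) (e1 ▸ hp i)
  rw [← e1, ← e2, show e i * (∑ j, y j • e j) * ∑ j, y j • e j =
    ((∑ j, y j • e j) * ∑ j, y j • e j) * e i by ring] at h1
  have h2 := hp i
  have h4 := hq i
  rw [div_div_eq_mul_div, le_div_iff₀ h2]
  nlinarith [mul_le_mul_of_nonneg_left h1 h4.le]

end Pool.Agent.Work.MP_ffcd14_ag.Ry
end

-- merged part: Pool.Agent.Work.MP_ffcd14_ag.Ry.N7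
section
/-!
# Abelian varieties of dimension at most three; comparison with the Chow ring

Plan.  `bochner`: let `l = ∑ q i • e i`, `M i j = τ (l * e i * e j) ≥ 0` (symmetric),
`d i = τ (e i * l * l) / q i > 0`.  For `x = ∑ x i • e i`, `hr i` with `y = l`, `z = x` gives
`∑ (M x) i ^ 2 / d i ≥ x ⬝ M x` (for rational, then by density for real vectors), so the
eigenvalues `λ` of the real symmetric matrix `d ^ (-1/2) M d ^ (-1/2)` satisfy `λ ^ 2 ≥ λ`.  Also
`∑ d i * x i ^ 2 - x ⬝ M x = 1 / 2 * ∑ M i j * q i * q j * (x i / q i - x j / q j) ^ 2`, and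
`M i0 j > 0`; so `λ ≤ 1`, and the eigenvalue `1` is simple with the eigenvector `q`.  Hence
`x ⬝ M x ≤ 0` if `q ⬝ M x = 0`, and `rcs_of_orth` concludes.
`rcs_three`: write `l`, and `y`, `z` (`ng_Eff`, `Eff_sum`) in terms of finitely many primes; add
`e i0 = nh a`; apply `bochner` to `l + t • ∑ e i`, `t > 0` (`nt_three`, `ny_pos`, `nh_pos`,
`rcs_ny`, `rcs_nh`), and `rcs_limit`.  `hw_three`: `a = 0` by `ng_zero`; `a = 1` by `RCS.nonpos`
with `rcs_nh` (`m = 0`) or `rcs_three`.  `hd_of_all`, `hodge_of_hd`: see the end of `hodge_of_td`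
in `Tr/G4`, and `Chw/Fin` (`Fin_iter`, `tauC_val`, `val_secC`, `secC_lin`, `mem_spn`); for
`hd_of_all` take the cycle `∑ q W • cS W` from `Eff_sum`.
-/

namespace Pool.Agent.Work.MP_ffcd14_ag.Ry

open MvPolynomial Filter Topology MP_10f4af_ag MP_10f4af_ag.Nu Tr

set_option linter.unusedSectionVars false

universe u

variable {k : Type u} [Field k] [IsAlgClosed k] {P Q S : Amb} {X : SV k P} {Y : SV k Q}
  {Z : SV k S}

theorem bochner {R : Type*} [CommRing R] [Algebra ℚ R] (τ : R →ₗ[ℚ] ℚ) {S : Submodule ℚ R}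
    {I : Type*} [Fintype I] (e : I → R) (q : I → ℚ) (hq : ∀ i, 0 < q i) (he : ∀ i, e i ∈ S)
    (h3 : ∀ i j m, 0 ≤ τ (e i * e j * e m)) (i0 : I) (h0 : ∀ j, 0 < τ (e i0 * e i0 * e j))
    (hr : ∀ i, RCS τ S (e i)) :
    RCS τ (Submodule.span ℚ (Set.range e)) (∑ i, q i • e i) :=
  N7_bochner τ e q hq he h3 i0 h0 hr

theorem N7_fin {x : NN X} (hx : x ∈ ng X 1) : ∃ s : Finset (Sub k P),
    (∀ W ∈ s, (W : Set (P.Pt k)) ⊆ X.pts ∧ sdim W + 1 = X.dim) ∧
      x ∈ Submodule.span ℚ (ny X '' s) := by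
  classical
  obtain ⟨y, hy, z, hz, rfl⟩ := ng_Eff hx
  obtain ⟨s, q, h1, rfl⟩ := Eff_sum hy
  obtain ⟨s', q', h2, rfl⟩ := Eff_sum hz
  refine ⟨s ∪ s', fun W hW => ?_, sub_mem (Submodule.sum_mem _ fun W hW => ?_)
    (Submodule.sum_mem _ fun W hW => ?_)⟩
  · exact (Finset.mem_union.1 hW).elim (fun h => (h1 W h).2) fun h => (h2 W h).2
  · exact Submodule.smul_mem _ _ (Submodule.subset_span
      ⟨W, Finset.mem_coe.2 (Finset.mem_union_left _ hW), rfl⟩)
  · exact Submodule.smul_mem _ _ (Submodule.subset_span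
      ⟨W, Finset.mem_coe.2 (Finset.mem_union_right _ hW), rfl⟩)

theorem AV.rcs_three (A : AV X) (hd : X.dim = 3) {l : NN X} (hl : l ∈ Eff X 1) :
    RCS (nt X) (ng X 1) l := by
  classical
  intro y hy z hz
  obtain ⟨s₁, q, h1, el⟩ := Eff_sum hl
  obtain ⟨s₂, h2, hy'⟩ := N7_fin hy
  obtain ⟨s₃, h3, hz'⟩ := N7_fin hz
  obtain ⟨a, ha⟩ : ∃ a : P.ι →₀ ℕ, ∀ i, 0 < a i :=
    ⟨Finsupp.equivFunOnFinite.symm fun _ => 1, fun _ => by simp⟩
  set s := s₁ ∪ (s₂ ∪ s₃) with hs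
  have h4 : ∀ W ∈ s, (W : Set (P.Pt k)) ⊆ X.pts ∧ sdim W + 1 = X.dim := fun W hW =>
    (Finset.mem_union.1 hW).elim (fun h => (h1 W h).2) fun h =>
      (Finset.mem_union.1 h).elim (h2 W) (h3 W)
  let e : Option s → NN X := fun i => i.elim (nh X a) fun W => ny X W
  have he : ∀ i, e i ∈ Eff X 1 := by
    rintro (_ | W)
    exacts [nh_Eff a, ny_Eff (h4 W W.2).1 (h4 W W.2).2]
  have hle {s' : Finset (Sub k P)} (h : s' ⊆ s) :
      Submodule.span ℚ (ny X '' s') ≤ Submodule.span ℚ (Set.range e) :=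
    Submodule.span_mono (by
      rintro _ ⟨W, hW, rfl⟩
      exact ⟨some ⟨W, h hW⟩, rfl⟩)
  let q' : Option s → ℚ := fun i => i.elim 0 fun W => if W.1 ∈ s₁ then q W else 0
  have hq' : ∀ i, 0 ≤ q' i := by
    rintro (_ | W)
    · exact le_rfl
    · change 0 ≤ if W.1 ∈ s₁ then q W else 0
      split_ifs with h
      exacts [(h1 W h).1.le, le_rfl]
  have el' : ∑ i, q' i • e i = l := by
    rw [Fintype.sum_option, el]
    change (0 : ℚ) • nh X a + ∑ W : s, (if W.1 ∈ s₁ then q W else 0) • ny X W = _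
    rw [zero_smul, zero_add,
      Finset.sum_coe_sort s fun W => (if W ∈ s₁ then q W else 0) • ny X W,
      ← Finset.sum_subset (Finset.subset_union_left (s₁ := s₁) (s₂ := s₂ ∪ s₃))
        fun W _ h => by rw [if_neg h, zero_smul]]
    exact Finset.sum_congr rfl fun W h => by rw [if_pos h]
  have key := rcs_limit (S := Submodule.span ℚ (Set.range e))
    (fun t => (l + t • ∑ i, e i) ^ 1) (rcs_cont (nt X) _ _ 1) (𝓝[>] (0 : ℚ)) id
    nhdsWithin_le_nhds (by
      filter_upwards [self_mem_nhdsWithin] with t ht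
      have ht' : 0 < t := ht
      have := bochner (nt X) (S := ng X 1) e (fun i => q' i + t)
        (fun i => add_pos_of_nonneg_of_pos (hq' i) ht') (fun i => Eff_ng (he i))
        (fun i j m => A.nt_three (he i) (he j) (he m)) none ?_ ?_
      · rwa [Finset.sum_congr rfl fun i _ => add_smul (q' i) t (e i), Finset.sum_add_distrib, el',
          ← Finset.smul_sum, ← pow_one (l + _)] at this
      · rintro (_ | W)
        · have h := nh_pos (X := X) ha
          rwa [hd, pow_three'] at h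
        · have h := ny_pos (h4 W W.2).1 ha
          rwa [show sdim W.1 = 2 by have := (h4 W W.2).2; omega, pow_two, mul_comm] at h
      · rintro (_ | W)
        · have h := rcs_nh (X := X) (m := 1) hd.symm a
          rwa [pow_one] at h
        · exact rcs_ny (h4 W W.2).1 (by have := (h4 W W.2).2; omega))
  rw [zero_smul, add_zero, pow_one] at key
  exact key y (hle (Finset.subset_union_left.trans Finset.subset_union_right) hy') z
    (hle (Finset.subset_union_right.trans Finset.subset_union_right) hz')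

theorem AV.hw_three (A : AV X) (hd : X.dim ≤ 3) {l : NN X} (hl : l ∈ Eff X 1)
    (h : 0 < nt X (l ^ X.dim)) {a : ℕ} (ha : 2 * a ≤ X.dim) : HwN X l a := by
  intro x hx h0
  obtain rfl | rfl : a = 0 ∨ a = 1 := by omega
  · obtain ⟨q, rfl⟩ := ng_zero hx
    rw [pow_zero, one_mul, mul_zero, Nat.sub_zero, smul_mul_assoc, mul_smul_comm, one_mul, mul_one,
      map_smul, map_smul, smul_eq_mul, smul_eq_mul, ← mul_assoc]
    exact mul_nonneg (mul_self_nonneg q) h.le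
  have hr : RCS (nt X) (ng X 1) (l ^ (X.dim - 2 * 1)) := by
    obtain h2 | h3 : X.dim = 2 ∨ X.dim = 3 := by omega
    · have := rcs_nh (X := X) (m := 0) h2.symm 0
      rw [pow_zero] at this
      rwa [show X.dim - 2 * 1 = 0 by omega, pow_zero]
    · rw [show X.dim - 2 * 1 = 1 by omega, pow_one]
      exact A.rcs_three h3 hl
  have := hr.nonpos (Eff_ng hl) hx
    (by rwa [← pow_succ, ← pow_succ, show X.dim - 2 * 1 + 1 + 1 = X.dim by omega])
    (by rw [← pow_succ, h0, map_zero])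
  rw [pow_one, mul_comm x]
  linarith

theorem N7_num (x : CR X) : Chw.Num X (CR.val X x) ↔ N_q X x = 0 := by
  constructor
  · intro h
    refine Ideal.Quotient.eq_zero_iff_mem.2 fun z => ?_
    induction z using CR.ind with
    | h1 i z hz => rw [tauC_val, CR.val_mul]; exact h i _ hz
    | h2 z z' hz hz' => rw [mul_add, map_add, hz, hz', add_zero]
  · intro h i z hz
    have := Ideal.Quotient.eq_zero_iff_mem.1 h (CR.mk z (CH_le X i hz))
    rwa [tauC_val] at this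

theorem N7_iff (L : CR X) (n : ℕ) : Chw.Hodge X (CR.val X L) n ↔ HdN X (N_q X L) n := by
  have key (y : CR X) : (Chw.Num X ((mul X (CR.val X L))^[X.dim - 2 * n + 1] (CR.val X y)) →
      ¬ Chw.Num X (CR.val X y) → 0 < (-1) ^ n * Chw.int X (mul X (CR.val X y)
        ((mul X (CR.val X L))^[X.dim - 2 * n] (CR.val X y)))) ↔
      (N_q X L ^ (X.dim - 2 * n + 1) * N_q X y = 0 → N_q X y ≠ 0 →
        0 < (-1) ^ n * nt X (N_q X y * (N_q X L ^ (X.dim - 2 * n) * N_q X y))) := by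
    rw [Fin_iter, Fin_iter, N7_num, N7_num, ← CR.val_mul, ← tauC_val, ← N_tau_q]
    simp only [map_mul (N_q X), map_pow (N_q X)]
  constructor
  · rintro H _ ⟨y, hy, rfl⟩
    exact (key y).1 (H _ hy)
  · intro H x hx
    exact (key (CR.mk x (CH_le X n hx))).2 (H _ ⟨_, hx, rfl⟩)

theorem hd_of_all (H : HodgeAll X) {l : NN X} (hl : l ∈ Eff X 1) (h : 0 < nt X (l ^ X.dim))
    {a : ℕ} (ha : 2 * a ≤ X.dim) : HdN X l a := by
  obtain ⟨s, q, h1, el⟩ := Eff_sum hl
  have e1 : l = N_q X (∑ W ∈ s, q W • cyC X W) := by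
    rw [el, map_sum]
    exact Finset.sum_congr rfl fun W _ => (map_smul (N_q X) _ _).symm
  have e2 : cls X (∑ W ∈ s, q W • cS W) = CR.val X (∑ W ∈ s, q W • cyC X W) := by
    rw [cls, map_sum, map_sum]
    exact Finset.sum_congr rfl fun W hW => by rw [map_smul, map_smul, val_cyC (h1 W hW).2.1]
  have := H (∑ W ∈ s, q W • cS W)
    (Submodule.sum_mem _ fun W hW => Submodule.smul_mem _ _ (cS_mem ⟨(h1 W hW).2.1, by
      rw [height_eq, ← (h1 W hW).2.2, Nat.cast_add, Nat.cast_one]⟩))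
    (fun p => by
      classical
      rw [Finsupp.finsetSum_apply]
      refine Finset.sum_nonneg fun W hW => mul_nonneg (h1 W hW).1.le ?_
      rw [cS, Finsupp.single_apply]
      split_ifs
      exacts [zero_le_one, le_rfl])
    (by rwa [e2, ← CR.val_one, Fin_iter, ← tauC_val, mul_one, ← N_tau_q, map_pow, ← e1]) a ha
  rwa [e2, N7_iff, ← e1] at this

theorem hodge_of_hd {f : MvPolynomial P.V k} {a : P.ι →₀ ℕ} (hf : IsForm f a) (h : ¬ Van X.pts f)
    {n : ℕ} (H : HdN X (nh X a) n) : Chw.Hodge X (Chw.sec X f) n := by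
  rw [← val_secC hf, secC_lin hf h, N7_iff]
  exact H

end Pool.Agent.Work.MP_ffcd14_ag.Ry
end

-- merged part: Pool.Agent.Work.MP_ffcd14_ag.Ry.E1
section
/-!
# Forms on a torus with coefficients in the cycles of an abelian variety

Plan.  `Cn_one`: closure induction (`Eff B 0` consists of the `q • 1`, `q ≥ 0`; `Om_smul`).
`psi_prod`: bilinearity (`TensorProduct.induction_on`), `int_up_mul`, `nt_prod`.  `l0_pos`: expand
`(ω ⊗ 1 + 1 ⊗ l₀) ^ g` (`add_pow`); by `int_Om_pow` and `nt_ng` only the term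
`ω ^ card ι ⊗ l₀ ^ B.dim` survives; `nt (l₀ ^ B.dim) ≥ 0` by `nt_Nf`.  `Qt_nonneg`:
`Pt = PT ω ⊗ 1 + 1 ⊗ PP l₀`.  Write `z = ∑ s, e s ⊗ y s` (finite family, `e s ∈ Mn ι (a s)`,
`y s ∈ ng B (b s)`, `a s + b s = n`); then `Qt = ± ∑ s s' (i, j), choose * BT i (e s) (e s') *
BB j (y s) (y s')`.  By `BT_wt`, `BB_wt` only `a s = a s' = a ≤ card ι`, `i = 2 (card ι - a)`,
`j = 2 (B.dim - (n - a))` remain; group by `a`; `BT_gram`, `psd_real` and `QQ_of_hw`.
`hd_of_td`: extend `cyc` to `Eff` and `ng` (`ng_ind`, closure induction): `nh a` has a sequence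
`l n ∈ Cn 1`, and `x ∈ ng X n` a sequence `z n` in the span of `Cn n`.  By `tau` and `nt_prod`,
`κ * psi (l n ^ g) ^ 2` tends to `nt (nh a ^ g) ^ 2 > 0`, so `l0_pos` applies for large `n`, and
`QQ (nh a) n x x = lim κ * Qt (l n) (z n) ≥ 0`; `hd_of_QQ`.
-/

namespace Pool.Agent.Work.MP_ffcd14_ag.Ry

open MvPolynomial Filter Topology MP_10f4af_ag MP_10f4af_ag.Nu Tr

set_option linter.unusedSectionVars false

universe u

variable {k : Type u} [Field k] [IsAlgClosed k] {P Q S : Amb} {X : SV k P} {Y : SV k Q}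
  {Z : SV k S}

open scoped TensorProduct

variable {ι ι2 : Type} [Fintype ι] [DecidableEq ι] [Fintype ι2] [DecidableEq ι2]

theorem Cn_smul {c : ℕ} {z : Tg ι Y} (h : z ∈ Cn Y ι c) {q : ℚ} (hq : 0 ≤ q) :
    q • z ∈ Cn Y ι c := by
  induction h using AddSubmonoid.closure_induction with
  | mem z hz =>
    obtain ⟨a, b, hab, e, he, y, hy, rfl⟩ := hz
    exact AddSubmonoid.subset_closure
      ⟨a, b, hab, e, he, q • y, Eff_smul hy hq, (TensorProduct.tmul_smul q e y).symm⟩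
  | zero => rw [smul_zero]; exact zero_mem _
  | add x y _ _ hx hy => rw [smul_add]; exact add_mem hx hy

theorem e1_ample (P : Amb) : ∃ a : P.ι →₀ ℕ, ∀ i, 0 < a i :=
  ⟨Finsupp.equivFunOnFinite.symm fun _ => 1, fun _ => by simp⟩

theorem e1_Eff_zero {y : NN Y} (hy : y ∈ Eff Y 0) : ∃ q : ℚ, 0 ≤ q ∧ y = q • (1 : NN Y) := by
  obtain ⟨q, rfl⟩ := ng_zero (Eff_ng hy)
  obtain ⟨a, ha⟩ := e1_ample Q
  have h1 : ∀ m, q • nh Y a ^ m ∈ Eff Y m := fun m => by
    induction m with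
    | zero => rw [pow_zero]; exact hy
    | succ m ih => rw [pow_succ, ← smul_mul_assoc]; exact Eff_mul_nh ih a
  have h2 := nt_Eff (h1 Y.dim)
  rw [map_smul, smul_eq_mul] at h2
  exact ⟨q, nonneg_of_mul_nonneg_left h2 (nh_pos ha), rfl⟩

theorem Cn_one {l : Tg ι Y} (h : l ∈ Cn Y ι 1) :
    ∃ ω ∈ Om ι, ∃ l₀ ∈ Eff Y 1, l = ω ⊗ₜ 1 + 1 ⊗ₜ l₀ := by
  induction h using AddSubmonoid.closure_induction with
  | mem z hz =>
    obtain ⟨a, b, hab, e, ⟨n, rfl⟩, y, hy, rfl⟩ := hz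
    obtain ⟨rfl, rfl⟩ | ⟨rfl, rfl⟩ : (a = 0 ∧ b = 1) ∨ (a = 1 ∧ b = 0) := by omega
    · exact ⟨0, zero_mem _, y, hy, by
        rw [Fin.prod_univ_zero, TensorProduct.zero_tmul, zero_add]⟩
    · obtain ⟨q, hq, rfl⟩ := e1_Eff_zero hy
      refine ⟨(q : ℝ) • Tr.sq (n 0), Om_smul (AddSubmonoid.subset_closure ⟨n 0, rfl⟩)
        (by exact_mod_cast hq), 0, zero_mem _, ?_⟩
      rw [Fin.prod_univ_one, TensorProduct.tmul_zero, add_zero, Rat.cast_smul_eq_qsmul,
        TensorProduct.smul_tmul]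
  | zero => exact ⟨0, zero_mem _, 0, zero_mem _, by
      rw [TensorProduct.zero_tmul, TensorProduct.tmul_zero, add_zero]⟩
  | add x y _ _ hx hy =>
    obtain ⟨ω, hω, l, hl, rfl⟩ := hx
    obtain ⟨ω', hω', l', hl', rfl⟩ := hy
    exact ⟨ω + ω', add_mem hω hω', l + l', add_mem hl hl', by
      rw [TensorProduct.add_tmul, TensorProduct.tmul_add, add_add_add_comm]⟩

theorem e1_pow (e ω : Tr.Ev ι) (y l : NN Y) (N : ℕ) :
    psi Y ι (e ⊗ₜ y * (ω ⊗ₜ 1 + 1 ⊗ₜ l) ^ N) = ∑ m ∈ Finset.range (N + 1),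
      (N.choose m : ℝ) * (int ι (e * ω ^ m) * (nt Y (y * l ^ (N - m)) : ℝ)) := by
  rw [add_pow, Finset.mul_sum, map_sum]
  refine Finset.sum_congr rfl fun m _ => ?_
  rw [Algebra.TensorProduct.tmul_pow, Algebra.TensorProduct.tmul_pow, one_pow, one_pow,
    Algebra.TensorProduct.tmul_mul_tmul, mul_one, one_mul, ← mul_assoc,
    Algebra.TensorProduct.tmul_mul_tmul, ← nsmul_eq_mul', map_nsmul, psi_tmul, nsmul_eq_mul]

theorem e1_rep {n : ℕ} {z : Tg ι Y} (hz : z ∈ Submodule.span ℚ (Cn Y ι n : Set (Tg ι Y))) :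
    ∃ (I : Type) (_ : Fintype I) (a b : I → ℕ) (e : I → Tr.Ev ι) (y : I → NN Y),
      (∀ s, a s + b s = n ∧ e s ∈ Mn ι (a s) ∧ y s ∈ ng Y (b s)) ∧ z = ∑ s, e s ⊗ₜ y s := by
  let p : Tg ι Y → Prop := fun z => ∃ (I : Type) (_ : Fintype I) (a b : I → ℕ) (e : I → Tr.Ev ι)
    (y : I → NN Y), (∀ s, a s + b s = n ∧ e s ∈ Mn ι (a s) ∧ y s ∈ ng Y (b s)) ∧
      z = ∑ s, e s ⊗ₜ y s
  have p0 : p 0 := ⟨Empty, inferInstance, nofun, nofun, nofun, nofun, nofun, by
    rw [Finset.univ_eq_empty, Finset.sum_empty]⟩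
  have pa : ∀ x y, p x → p y → p (x + y) := by
    rintro _ _ ⟨I, _, a, b, e, y, h, rfl⟩ ⟨I', _, a', b', e', y', h', rfl⟩
    refine ⟨I ⊕ I', inferInstance, Sum.elim a a', Sum.elim b b', Sum.elim e e', Sum.elim y y', ?_,
      by rw [Fintype.sum_sum_type]; rfl⟩
    rintro (s | s)
    · exact h s
    · exact h' s
  change p z
  induction hz using Submodule.span_induction with
  | mem z hz =>
    induction hz using AddSubmonoid.closure_induction with
    | mem z hz =>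
      obtain ⟨a, b, hab, e, he, y, hy, rfl⟩ := hz
      exact ⟨Unit, inferInstance, fun _ => a, fun _ => b, fun _ => e, fun _ => y,
        fun _ => ⟨hab, he, Eff_ng hy⟩, by rw [Fintype.sum_unique]⟩
    | zero => exact p0
    | add x y _ _ hx hy => exact pa x y hx hy
  | zero => exact p0
  | add x y _ _ hx hy => exact pa x y hx hy
  | smul q x _ hx =>
    obtain ⟨I, _, a, b, e, y, h, rfl⟩ := hx
    refine ⟨I, inferInstance, a, b, e, fun s => q • y s,
      fun s => ⟨(h s).1, (h s).2.1, Submodule.smul_mem _ q (h s).2.2⟩, ?_⟩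
    rw [Finset.smul_sum]
    exact Finset.sum_congr rfl fun s _ => (TensorProduct.tmul_smul q _ _).symm

variable (A₀ : AV Y) {i1 i2 : ι → ι2} (hb : Function.Bijective (Sum.elim i1 i2))

include hb in
theorem psi_prod (z z' : Tg ι Y) :
    psi (Y.prod Y) ι2 (rh (pb i1) (p1 Y Y) z * rh (pb i2) (p2 Y Y) z') =
      psi Y ι z * psi Y ι z' := by
  induction z using TensorProduct.induction_on with
  | zero => simp only [map_zero, zero_mul]
  | add x y hx hy => rw [map_add, add_mul, map_add, hx, hy, map_add, add_mul]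
  | tmul e y =>
    induction z' using TensorProduct.induction_on with
    | zero => simp only [map_zero, mul_zero]
    | add x' y' hx hy => rw [map_add, mul_add, map_add, hx, hy, map_add, mul_add]
    | tmul e' y' =>
      rw [rh_tmul, rh_tmul, Algebra.TensorProduct.tmul_mul_tmul, psi_tmul, psi_tmul, psi_tmul,
        nt_prod, Rat.cast_mul, mul_mul_mul_comm]
      exact congrArg (· * _) (int_up_mul hb e e')

include A₀ in
theorem l0_pos {ω : Tr.Ev ι} (hω : ω ∈ Om ι) {l₀ : NN Y} (hl : l₀ ∈ Eff Y 1)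
    (h : psi Y ι ((ω ⊗ₜ 1 + 1 ⊗ₜ l₀) ^ (Fintype.card ι + Y.dim)) ≠ 0) :
    0 < nt Y (l₀ ^ Y.dim) := by
  have h1 : ∀ m, l₀ ^ m ∈ Nf Y Y := fun m => by
    induction m with
    | zero => rw [pow_zero]; exact Nf_one
    | succ m ih => rw [pow_succ]; exact Nf_mul ih (Nf_Eff hl)
  have h2 : 0 ≤ nt Y (l₀ ^ Y.dim) := by
    obtain ⟨a, ha⟩ := e1_ample Q
    have h3 := nh_pos (X := Y) ha
    generalize Y.dim = d at h3
    cases d with
    | zero => rw [pow_zero] at h3 ⊢; exact h3.le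
    | succ d => rw [pow_succ']; exact A₀.nt_Nf (h1 d) hl
  refine h2.lt_of_ne fun h0 => h ?_
  have h4 := e1_pow (1 : Tr.Ev ι) ω (1 : NN Y) l₀ (Fintype.card ι + Y.dim)
  rw [← Algebra.TensorProduct.one_def, one_mul] at h4
  rw [h4]
  refine Finset.sum_eq_zero fun m _ => ?_
  rw [one_mul, one_mul]
  by_cases hm : m = Fintype.card ι
  · rw [hm, Nat.add_sub_cancel_left, ← h0, Rat.cast_zero, mul_zero, mul_zero]
  · rw [int_Om_pow hω hm, zero_mul, mul_zero]

theorem e1_Pt (ω : Tr.Ev ι) (l₀ : NN Y) :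
    rh (pb i1 - pb i2) A₀.sub (ω ⊗ₜ 1 + 1 ⊗ₜ l₀) - rh (pb i1) (p1 Y Y) (ω ⊗ₜ 1 + 1 ⊗ₜ l₀) -
      rh (pb i2) (p2 Y Y) (ω ⊗ₜ 1 + 1 ⊗ₜ l₀) = PT i1 i2 ω ⊗ₜ 1 + 1 ⊗ₜ A₀.PP l₀ := by
  simp only [map_add, rh_tmul, map_one, PT, AV.PP, up, TensorProduct.sub_tmul,
    TensorProduct.tmul_sub]
  abel

theorem e1_QQ_sum {I : Type} [Fintype I] (l : NN Y) (n : ℕ) (u : I → NN Y) (x : I → ℚ) :
    A₀.QQ l n (∑ s, x s • u s) (∑ s, x s • u s) =
      ∑ s, ∑ s', x s * x s' * A₀.QQ l n (u s) (u s') := by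
  simp only [AV.QQ, AV.BB, map_sum, map_smul, Finset.sum_mul, Finset.mul_sum, smul_mul_assoc,
    mul_smul_comm, smul_eq_mul]
  rw [Finset.sum_comm]
  exact Finset.sum_congr rfl fun s _ => Finset.sum_congr rfl fun s' _ => by ring

theorem e1_QQ_left (l : NN Y) (n : ℕ) (y : NN Y) : A₀.QQ l n 0 y = 0 := by
  simp only [AV.QQ, AV.BB, map_zero, zero_mul, mul_zero]

theorem e1_QQ_right (l : NN Y) (n : ℕ) (y : NN Y) : A₀.QQ l n y 0 = 0 := by
  simp only [AV.QQ, AV.BB, map_zero, zero_mul, mul_zero]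

include hb in
theorem e1_pair {ω : Tr.Ev ι} (hω : ω ∈ Om ι) {l₀ : NN Y} (hl : l₀ ∈ ng Y 1) {n a b a' b' : ℕ}
    (hab : a + b = n) (hab' : a' + b' = n) {e e' : Tr.Ev ι}
    (he : e ∈ Mn ι a) (he' : e' ∈ Mn ι a') {y y' : NN Y} (hy : y ∈ ng Y b) (hy' : y' ∈ ng Y b') :
    (-1) ^ (Fintype.card ι + Y.dim - n) * psi (Y.prod Y) ι2
      (rh (pb i1) (p1 Y Y) (e ⊗ₜ y) * rh (pb i2) (p2 Y Y) (e' ⊗ₜ y') *
        (PT i1 i2 ω ⊗ₜ 1 + 1 ⊗ₜ A₀.PP l₀) ^ (2 * (Fintype.card ι + Y.dim - n))) =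
      ∑ c ∈ Finset.range (Fintype.card ι + 1),
        ((2 * (Fintype.card ι + Y.dim - n)).choose (2 * (Fintype.card ι - c)) : ℝ) *
          (((-1) ^ (Fintype.card ι - c) * BT i1 i2 ω (2 * (Fintype.card ι - c)) e e') *
            (A₀.QQ l₀ (n - c) (if a = c then y else 0) (if a' = c then y' else 0) : ℝ)) := by
  rw [rh_tmul, rh_tmul, Algebra.TensorProduct.tmul_mul_tmul, e1_pow]
  change _ * ∑ m ∈ _, _ * (BT i1 i2 ω m e e' * (A₀.BB l₀ _ y y' : ℝ)) = _
  by_cases hc : a = a' ∧ a ≤ Fintype.card ι ∧ b ≤ Y.dim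
  · obtain ⟨rfl, h1, h2⟩ := hc
    rw [Finset.sum_eq_single (2 * (Fintype.card ι - a)), Finset.sum_eq_single a, if_pos rfl,
      if_pos rfl, AV.QQ, show n - a = b by omega,
      show 2 * (Fintype.card ι + Y.dim - n) - 2 * (Fintype.card ι - a) = 2 * (Y.dim - b) by omega,
      show Fintype.card ι + Y.dim - n = (Fintype.card ι - a) + (Y.dim - b) by omega, pow_add]
    · push_cast
      ring
    · intro c _ hc
      rw [if_neg (Ne.symm hc), e1_QQ_left, Rat.cast_zero, mul_zero, mul_zero]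
    · exact fun h => (h (Finset.mem_range.2 (by omega))).elim
    · intro m _ hm
      by_cases h0 : BT i1 i2 ω m e e' = 0
      · rw [h0, zero_mul, mul_zero]
      · exact (hm (by have := (BT_wt hb hω he he' h0).2; omega)).elim
    · exact fun h => (h (Finset.mem_range.2 (by omega))).elim
  · rw [Finset.sum_eq_zero, Finset.sum_eq_zero, mul_zero]
    · intro c hc'
      by_cases h1 : a = c
      · by_cases h2 : a' = c
        · have h3 := Finset.mem_range.1 hc'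
          rw [if_pos h1, ng_gt hy (by omega), e1_QQ_left, Rat.cast_zero, mul_zero, mul_zero]
        · rw [if_neg h2, e1_QQ_right, Rat.cast_zero, mul_zero, mul_zero]
      · rw [if_neg h1, e1_QQ_left, Rat.cast_zero, mul_zero, mul_zero]
    · intro m _
      by_cases h0 : BT i1 i2 ω m e e' = 0
      · rw [h0, zero_mul, mul_zero]
      by_cases h1 : A₀.BB l₀ (2 * (Fintype.card ι + Y.dim - n) - m) y y' = 0
      · rw [h1, Rat.cast_zero, mul_zero, mul_zero]
      have h2 := BT_wt hb hω he he' h0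
      have h3 := A₀.BB_wt hl hy hy' h1
      exact (hc ⟨h2.1, by omega, by omega⟩).elim

set_option linter.unusedVariables false in
include hb in
theorem Qt_nonneg {ω : Tr.Ev ι} (hω : ω ∈ Om ι) {l₀ : NN Y} (hl : l₀ ∈ ng Y 1)
    (h : 0 < nt Y (l₀ ^ Y.dim)) (hw : ∀ a, 2 * a ≤ Y.dim → HwN Y l₀ a) {n : ℕ}
    (hn : n ≤ Fintype.card ι + Y.dim) {z : Tg ι Y}
    (hz : z ∈ Submodule.span ℚ (Cn Y ι n : Set (Tg ι Y))) :
    0 ≤ Qt A₀ i1 i2 (Fintype.card ι + Y.dim) (ω ⊗ₜ 1 + 1 ⊗ₜ l₀) n z := by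
  obtain ⟨I, _, a, b, e, y, hs, rfl⟩ := e1_rep hz
  rw [Qt, e1_Pt, map_sum, map_sum, Finset.sum_mul_sum, Finset.sum_mul, map_sum, Finset.mul_sum]
  have key := fun s s' => e1_pair A₀ hb hω hl (hs s).1 (hs s').1 (hs s).2.1 (hs s').2.1 (hs s).2.2
    (hs s').2.2
  refine le_of_le_of_eq ?_ (Finset.sum_congr rfl fun s _ => by
    rw [Finset.sum_mul, map_sum, Finset.mul_sum, Finset.sum_congr rfl fun s' _ => key s s',
      Finset.sum_comm])
  rw [Finset.sum_comm]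
  refine Finset.sum_nonneg fun c hc => ?_
  simp only [← Finset.mul_sum]
  refine mul_nonneg (Nat.cast_nonneg _) ?_
  obtain ⟨J, _, φ, hφ⟩ := BT_gram hb hω (Nat.lt_succ_iff.1 (Finset.mem_range.1 hc))
  have hu : ∀ s, (if a s = c then y s else 0) ∈ ng Y (n - c) := fun s => by
    split_ifs with h1
    · rw [show n - c = b s by have := (hs s).1; omega]
      exact (hs s).2.2
    · exact zero_mem _
  have h2 : ∀ x : I → ℚ, 0 ≤ ∑ s, ∑ s', x s * x s' *
      A₀.QQ l₀ (n - c) (if a s = c then y s else 0) (if a s' = c then y s' else 0) := fun x => by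
    rw [← e1_QQ_sum]
    have h3 : ∑ s, x s • (if a s = c then y s else 0) ∈ ng Y (n - c) :=
      Submodule.sum_mem _ fun s _ => Submodule.smul_mem _ _ (hu s)
    by_cases h4 : n - c ≤ Y.dim
    · exact A₀.QQ_of_hw hl h hw h4 h3
    · rw [ng_gt h3 (not_le.1 h4), e1_QQ_left]
  refine le_of_le_of_eq (Finset.sum_nonneg fun (j : J) (_ : j ∈ Finset.univ) =>
    psd_real _ h2 fun s => φ j (e s)) ?_
  rw [Finset.sum_comm]
  refine Finset.sum_congr rfl fun s _ => ?_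
  rw [Finset.sum_comm]
  refine Finset.sum_congr rfl fun s' _ => ?_
  rw [← Finset.sum_mul]
  by_cases h1 : a s = c
  · by_cases h3 : a s' = c
    · rw [hφ _ (h1 ▸ (hs s).2.1) _ (h3 ▸ (hs s').2.1)]
    · rw [if_neg h3, e1_QQ_right, Rat.cast_zero, mul_zero, mul_zero]
  · rw [if_neg h1, e1_QQ_left, Rat.cast_zero, mul_zero, mul_zero]

variable {K : Type u} [Field K] [IsAlgClosed K] {X : SV K P}

namespace TD

variable {A₀} {A : AV X} (D : TD A₀ i1 i2 A)

theorem e1_zero : D.R 0 0 := by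
  have h := D.smul 0 D.one
  rwa [zero_smul, zero_smul] at h

theorem e1_sub {c c' e e'} (h : D.R c e) (h' : D.R c' e') : D.R (c - c') (e - e') := by
  have h1 := D.add h (D.smul (-1) h')
  rwa [show c + (-1 : ℚ) • c' = c - c' by rw [neg_one_smul, sub_eq_add_neg],
    show e + (-1 : ℚ) • e' = e - e' from funext fun n =>
      (congrArg (e n + ·) (neg_one_smul ℚ (e' n))).trans (sub_eq_add_neg _ _).symm] at h1

theorem e1_pow {c e} (h : D.R c e) (m : ℕ) : D.R (c ^ m) (e ^ m) := by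
  induction m with
  | zero => rw [pow_zero, pow_zero]; exact D.one
  | succ m ih => rw [pow_succ, pow_succ]; exact D.mul ih h

/-- The three pull-backs of `x` are matched with those of `z`. -/
def M (x : NN X) (z : ℕ → Tg ι Y) : Prop :=
  D.R (hpl (p1 X X) x) (fun n => rh (pb i1) (p1 Y Y) (z n)) ∧
    D.R (hpl (p2 X X) x) (fun n => rh (pb i2) (p2 Y Y) (z n)) ∧
      D.R (hpl A.sub x) fun n => rh (pb i1 - pb i2) A₀.sub (z n)

theorem e1_Eff {c : ℕ} {x : NN X} (hx : x ∈ Eff X c) :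
    ∃ z : ℕ → Tg ι Y, (∀ n, z n ∈ Cn Y ι c) ∧ D.M x z := by
  induction hx using AddSubmonoid.closure_induction with
  | mem x hx =>
    obtain ⟨q, W, hq, hW, hc, rfl⟩ := hx
    obtain ⟨z, hz, h1, h2, h3⟩ := D.cyc W c hW hc
    refine ⟨fun n => q • z n, fun n => Cn_smul (hz n) hq, ?_⟩
    simp only [M, map_smul]
    exact ⟨D.smul q h1, D.smul q h2, D.smul q h3⟩
  | zero =>
    refine ⟨fun _ => 0, fun _ => zero_mem _, ?_⟩
    simp only [M, map_zero]
    exact ⟨D.e1_zero, D.e1_zero, D.e1_zero⟩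
  | add x y _ _ hx hy =>
    obtain ⟨z, hz, h1, h2, h3⟩ := hx
    obtain ⟨z', hz', h1', h2', h3'⟩ := hy
    refine ⟨fun n => z n + z' n, fun n => add_mem (hz n) (hz' n), ?_⟩
    simp only [M, map_add]
    exact ⟨D.add h1 h1', D.add h2 h2', D.add h3 h3'⟩

theorem e1_ng {c : ℕ} {x : NN X} (hx : x ∈ ng X c) : ∃ z : ℕ → Tg ι Y,
    (∀ n, z n ∈ Submodule.span ℚ (Cn Y ι c : Set (Tg ι Y))) ∧ D.M x z := by
  obtain ⟨y, hy, w, hw, rfl⟩ := ng_Eff hx
  obtain ⟨z, hz, h1, h2, h3⟩ := D.e1_Eff hy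
  obtain ⟨z', hz', h1', h2', h3'⟩ := D.e1_Eff hw
  refine ⟨fun n => z n - z' n, fun n =>
    sub_mem (Submodule.subset_span (hz n)) (Submodule.subset_span (hz' n)), ?_⟩
  simp only [M, map_sub]
  exact ⟨D.e1_sub h1 h1', D.e1_sub h2 h2', D.e1_sub h3 h3'⟩

end TD

include hb in
theorem hd_of_td {A : AV X} (D : TD A₀ i1 i2 A) (hd : Fintype.card ι + Y.dim = X.dim)
    (hY : Y.dim ≤ 3 ∨ HodgeAll Y) {a : P.ι →₀ ℕ} (ha : ∀ i, 0 < a i) {n : ℕ}
    (hn : 2 * n ≤ X.dim) : HdN X (nh X a) n := by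
  refine A.hd_of_QQ (nh_ng a) (nh_pos ha) hn fun x hx => ?_
  obtain ⟨L, hL, l1, l2, l3⟩ := D.e1_Eff (nh_Eff (X := X) a)
  obtain ⟨z, hz, z1, z2, -⟩ := D.e1_ng hx
  have t1 := D.tau (D.mul (D.e1_pow l1 X.dim) (D.e1_pow l2 X.dim))
  rw [← map_pow, ← map_pow, nt_prod] at t1
  have h0 : (0 : ℝ) < ((nt X (nh X a ^ X.dim) * nt X (nh X a ^ X.dim) : ℚ) : ℝ) := by
    exact_mod_cast mul_pos (nh_pos ha) (nh_pos ha)
  have t2 := (D.tau (D.mul (D.mul z1 z2)
    (D.e1_pow (D.e1_sub (D.e1_sub l3 l1) l2) (2 * (X.dim - n))))).const_mul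
      ((-1 : ℝ) ^ (X.dim - n))
  have h1 : (0 : ℝ) ≤ (A.QQ (nh X a) n x x : ℝ) := by
    rw [AV.QQ, Rat.cast_mul, Rat.cast_pow, Rat.cast_neg, Rat.cast_one]
    refine ge_of_tendsto t2 ((t1.eventually (lt_mem_nhds h0)).mono fun m hm => ?_)
    obtain ⟨ω, hω, l₀, hl, e⟩ := Cn_one (hL m)
    have h2 : psi Y ι ((ω ⊗ₜ 1 + 1 ⊗ₜ l₀) ^ (Fintype.card ι + Y.dim)) ≠ 0 := fun h2 => by
      rw [Pi.mul_apply, Pi.pow_apply, Pi.pow_apply, ← map_pow, ← map_pow, psi_prod hb, e, ← hd, h2,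
        mul_zero, mul_zero] at hm
      exact hm.false
    have h3 := l0_pos A₀ hω hl h2
    have h4 := Qt_nonneg A₀ hb hω (Eff_ng hl) h3 (fun c hc => hY.elim
      (fun h => A₀.hw_three h hl h3 hc) fun h => (hd_of_all h hl h3 hc).hw)
      (n := n) (by omega) (hz m)
    rw [hd, ← e] at h4
    rw [mul_left_comm]
    exact mul_nonneg D.pos.le h4
  exact_mod_cast h1

end Pool.Agent.Work.MP_ffcd14_ag.Ry
end

-- merged part: Pool.Agent.Work.MP_ffcd14_ag.Ry.E2
section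
/-!
# The conjecture for all the polarisations
-/

namespace Pool.Agent.Work.MP_ffcd14_ag.Ry

open MvPolynomial Filter Topology MP_10f4af_ag MP_10f4af_ag.Nu Tr

set_option linter.unusedSectionVars false

universe u

variable {k : Type u} [Field k] [IsAlgClosed k] {P Q : Amb} {Y : SV k Q}

open scoped TensorProduct

theorem all_of_hd (H : ∀ l ∈ Eff Y 1, 0 < nt Y (l ^ Y.dim) → ∀ n, 2 * n ≤ Y.dim → HdN Y l n) :
    HodgeAll Y := by
  intro a ha h0 h n hn
  have h1 : ∀ p ∈ a.support, ∃ Z : Sub k Q, ((Z : Set (Q.Pt k)) ⊆ Y.pts ∧ sdim Z + 1 = Y.dim) ∧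
      p = MP_10f4af_ag.idl (Z : Set (Q.Pt k)) := fun p hp => by
    obtain ⟨Z, hZ, e⟩ := mem_Sp.1 ha p (Finsupp.mem_support_iff.1 hp)
    refine ⟨Z, ⟨hZ.1, ?_⟩, e⟩
    have := hZ.2
    rw [height_eq] at this
    exact_mod_cast this
  haveI : Nonempty (Sub k Q) := ⟨Y.tp⟩
  choose! Z hZ eZ using h1
  have e2 : cls Y a = CR.val Y (∑ p ∈ a.support, a p • cyC Y (Z p)) := by
    rw [cls, map_sum]
    conv_lhs => rw [← Finsupp.sum_single a, Finsupp.sum, map_sum]
    refine Finset.sum_congr rfl fun p hp => ?_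
    rw [map_smul, val_cyC (hZ p hp).1, cS, ← eZ p hp, ← map_smul, Finsupp.smul_single, smul_eq_mul,
      mul_one]
  have e3 : N_q Y (∑ p ∈ a.support, a p • cyC Y (Z p)) ∈ Eff Y 1 := by
    rw [map_sum]
    refine sum_mem fun p hp => ?_
    rw [map_smul]
    exact Eff_smul (ny_Eff (hZ p hp).1 (hZ p hp).2) (h0 p)
  rw [e2, ← CR.val_one, Fin_iter, ← tauC_val, mul_one, ← N_tau_q, map_pow] at h
  rw [e2, N7_iff]
  exact H _ e3 h n hn

variable {ι ι2 : Type} [Fintype ι] [DecidableEq ι] [Fintype ι2] [DecidableEq ι2]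
  (A₀ : AV Y) {i1 i2 : ι → ι2} (hb : Function.Bijective (Sum.elim i1 i2))
  {K : Type u} [Field K] [IsAlgClosed K] {X : SV K P}

include hb in
theorem all_of_td {A : AV X} (D : TD A₀ i1 i2 A) (hd : Fintype.card ι + Y.dim = X.dim)
    (hY : 3 < Y.dim → HodgeAll Y) : HodgeAll X := by
  refine all_of_hd fun l hl hp n hn => A.hd_of_QQ (Eff_ng hl) hp hn fun x hx => ?_
  obtain ⟨L, hL, l1, l2, l3⟩ := D.e1_Eff hl
  obtain ⟨z, hz, z1, z2, -⟩ := D.e1_ng hx
  have t1 := D.tau (D.mul (D.e1_pow l1 X.dim) (D.e1_pow l2 X.dim))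
  rw [← map_pow, ← map_pow, nt_prod] at t1
  have h0 : (0 : ℝ) < ((nt X (l ^ X.dim) * nt X (l ^ X.dim) : ℚ) : ℝ) := by
    exact_mod_cast mul_pos hp hp
  have t2 := (D.tau (D.mul (D.mul z1 z2)
    (D.e1_pow (D.e1_sub (D.e1_sub l3 l1) l2) (2 * (X.dim - n))))).const_mul
      ((-1 : ℝ) ^ (X.dim - n))
  have h1 : (0 : ℝ) ≤ (A.QQ l n x x : ℝ) := by
    rw [AV.QQ, Rat.cast_mul, Rat.cast_pow, Rat.cast_neg, Rat.cast_one]
    refine ge_of_tendsto t2 ((t1.eventually (lt_mem_nhds h0)).mono fun m hm => ?_)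
    obtain ⟨ω, hω, l₀, hl, e⟩ := Cn_one (hL m)
    have h2 : psi Y ι ((ω ⊗ₜ 1 + 1 ⊗ₜ l₀) ^ (Fintype.card ι + Y.dim)) ≠ 0 := fun h2 => by
      rw [Pi.mul_apply, Pi.pow_apply, Pi.pow_apply, ← map_pow, ← map_pow, psi_prod hb, e, ← hd, h2,
        mul_zero, mul_zero] at hm
      exact hm.false
    have h3 := l0_pos A₀ hω hl h2
    have h4 := Qt_nonneg A₀ hb hω (Eff_ng hl) h3 (fun c hc => (le_or_gt Y.dim 3).elim
      (fun h => A₀.hw_three h hl h3 hc) fun h => (hd_of_all (hY h) hl h3 hc).hw)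
      (n := n) (by omega) (hz m)
    rw [hd, ← e] at h4
    rw [mul_left_comm]
    exact mul_nonneg D.pos.le h4
  exact_mod_cast h1

end Pool.Agent.Work.MP_ffcd14_ag.Ry
end
end
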