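import Mathlib

-- merged part: Pool.Agent.Work.MP_ffcd14_ag.Tr.VD
section
/-!
# Points of a torus with values in complete valued fields

`K` is a complete, algebraically closed, non-archimedean field.  `Gam K` is the value group
(written additively), `Gen K η` says that the real numbers `η k` are linearly independent over `ℚ`
modulo `Gam K`, and `rnk K y` is the rank of a family modulo `Gam K`.  `cl K s` is the closed
subfield generated by `s`.  `Pt K ι` is a point of the torus `G_m ^ ι` with values in a complete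
valued field.  `mlt S χ` is the multiplicity of a set `S` of points with respect to the characters
`χ`: if the points of `S` are pairwise inequivalent and tight, it is the sum of the degrees of the
fields of the points over the closed subfields generated by the characters.
-/

namespace Pool.Agent.Work.MP_ffcd14_ag.Tr

open MvPolynomial Filter Topology
open scoped ENNReal

universe u

variable (K : Type u) [NontriviallyNormedField K]

/-- The value group. -/
noncomputable def Gam : Submodule ℚ ℝ := Submodule.span ℚ {r | ∃ a : K, a ≠ 0 ∧ r = Real.log ‖a‖}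

/-- Independent modulo the value group. -/
def Gen {κ : Type} (η : κ → ℝ) : Prop := LinearIndependent ℚ fun k => (Gam K).mkQ (η k)

/-- The rank modulo the value group. -/
noncomputable def rnk {ι : Type} (y : ι → ℝ) : ℕ :=
  Module.finrank ℚ (Submodule.span ℚ (Set.range fun i => (Gam K).mkQ (y i)))

section Field

variable {Ω Ω' : Type u} [NormedField Ω] [NormedAlgebra K Ω] [NormedField Ω'] [NormedAlgebra K Ω']

/-- The closed subfield generated by `s`. -/
noncomputable def cl (s : Set Ω) : IntermediateField K Ω :=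
  (IntermediateField.adjoin K s).toSubfield.topologicalClosure.toIntermediateField fun c =>
    Subfield.le_topologicalClosure _ ((IntermediateField.adjoin K s).algebraMap_mem c)

theorem coe_cl (s : Set Ω) : (cl K s : Set Ω) = closure (IntermediateField.adjoin K s : Set Ω) :=
  rfl

theorem isClosed_cl (s : Set Ω) : IsClosed (cl K s : Set Ω) := isClosed_closure

instance [CompleteSpace Ω] (s : Set Ω) : CompleteSpace (cl K s) :=
  (isClosed_cl K s).isComplete.completeSpace_coe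

noncomputable instance subNA (S : IntermediateField K Ω) : NormedAlgebra K S :=
  { (inferInstance : Algebra K S) with
    norm_smul_le := fun c x => norm_smul_le c (x : Ω) }

noncomputable instance subNT (S : IntermediateField K Ω) : NontriviallyNormedField S :=
  { (inferInstance : NormedField S) with
    non_trivial := by
      obtain ⟨c, hc⟩ := NormedField.exists_one_lt_norm K
      exact ⟨algebraMap K S c, by rwa [norm_algebraMap']⟩ }

noncomputable instance subNA' (S : IntermediateField K Ω) : NormedAlgebra S Ω :=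
  { (inferInstance : Algebra S Ω) with
    norm_smul_le := fun c x => norm_mul_le (c : Ω) x }

/-- Elements whose absolute values are independent modulo the value group. -/
def GenT {κ : Type} (t : κ → Ω) : Prop := (∀ k, t k ≠ 0) ∧ Gen K fun k => Real.log ‖t k‖

variable {K} in
/-- An isometric embedding. -/
def Iso (ψ : Ω →ₐ[K] Ω') : Prop := ∀ z, ‖ψ z‖ = ‖z‖

end Field

/-- A complete valued extension of `K`. -/
structure CF where
  Ω : Type u
  [nf : NormedField Ω]
  [na : NormedAlgebra K Ω]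
  [cs : CompleteSpace Ω]

attribute [instance] CF.nf CF.na CF.cs

instance (F : CF K) [IsUltrametricDist K] : IsUltrametricDist F.Ω :=
  IsUltrametricDist.of_normedAlgebra K

/-- A point of the torus. -/
structure Pt (ι : Type) extends CF K where
  x : ι → Ω
  ne : ∀ i, x i ≠ 0

variable {K} {ι ι' κ : Type}

/-- The linear forms given by a family of characters. -/
noncomputable def chi [Fintype ι] (χ : κ → ι → ℤ) (y : ι → ℝ) (k : κ) : ℝ := ∑ i, χ k i * y i

/-- The coordinate characters. -/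
def crd [DecidableEq ι] (μ : κ → ι) (k : κ) : ι → ℤ := Pi.single (μ k) 1

namespace Pt

/-- The tropicalisation. -/
noncomputable def trop (ξ : Pt K ι) (i : ι) : ℝ := Real.log ‖ξ.x i‖

/-- A monomial. -/
noncomputable def mon [Fintype ι] (ξ : Pt K ι) (α : ι → ℤ) : ξ.Ω := ∏ i, ξ.x i ^ α i

/-- The values of a family of characters. -/
noncomputable def ch [Fintype ι] (ξ : Pt K ι) (χ : κ → ι → ℤ) (k : κ) : ξ.Ω := ξ.mon (χ k)

/-- The value of a Laurent polynomial. -/
noncomputable def ev (ξ : Pt K ι) : MvPolynomial (ι ⊕ ι) K →ₐ[K] ξ.Ω :=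
  aeval (Sum.elim ξ.x fun i => (ξ.x i)⁻¹)

/-- Forget some coordinates. -/
def res (f : ι → ι') (ξ : Pt K ι') : Pt K ι := ⟨ξ.toCF, fun i => ξ.x (f i), fun _ => ξ.ne _⟩

/-- The point given by the values of characters. -/
noncomputable def chp [Fintype ι] (ξ : Pt K ι) (χ : κ → ι → ℤ) : Pt K κ :=
  ⟨ξ.toCF, ξ.ch χ, fun _ => Finset.prod_ne_zero_iff.mpr fun i _ => zpow_ne_zero _ (ξ.ne i)⟩

/-- `ζ` is obtained from `ξ` by an extension of the field. -/
def Le (ξ ζ : Pt K ι) : Prop := ∃ ψ : ξ.Ω →ₐ[K] ζ.Ω, Iso ψ ∧ ∀ i, ψ (ξ.x i) = ζ.x i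

/-- The field is topologically generated by the coordinates. -/
def Tight (ξ : Pt K ι) : Prop := cl K (Set.range ξ.x) = ⊤

/-- Restrict the field to the closed subfield generated by the coordinates. -/
noncomputable def tight (ξ : Pt K ι) : Pt K ι where
  Ω := cl K (Set.range ξ.x)
  x i := ⟨ξ.x i, subset_closure (IntermediateField.subset_adjoin K _ ⟨i, rfl⟩)⟩
  ne i h := ξ.ne i (congrArg Subtype.val h)

/-- The field is finite over the closed subfield generated by the characters. -/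
def Fd [Fintype ι] (ξ : Pt K ι) (χ : κ → ι → ℤ) : Prop :=
  FiniteDimensional (cl K (Set.range (ξ.ch χ))) ξ.Ω

/-- The degree over the closed subfield generated by the characters. -/
noncomputable def dg [Fintype ι] (ξ : Pt K ι) (χ : κ → ι → ℤ) : ℕ :=
  Module.finrank (cl K (Set.range (ξ.ch χ))) ξ.Ω

end Pt

/-- There are `k` monomials which are uniformly independent on finitely many points of `S` over
the polynomials in the characters. -/
def IndW [Fintype ι] (S : Set (Pt K ι)) (χ : κ → ι → ℤ) (k m N : ℕ) (α : Fin k → ι → ℤ) : Prop :=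
  ∃ ξ : Fin m → Pt K ι, (∀ a, ξ a ∈ S) ∧ ∀ (c : Fin k → MvPolynomial κ K) (i : Fin k), ∃ a,
    ‖aeval ((ξ a).ch χ) (c i)‖ ≤ N * ‖∑ j, aeval ((ξ a).ch χ) (c j) * (ξ a).mon (α j)‖

/-- The multiplicity is at least `k`. -/
def Ind [Fintype ι] (S : Set (Pt K ι)) (χ : κ → ι → ℤ) (k : ℕ) : Prop := ∃ m N α, IndW S χ k m N α

/-- The multiplicity. -/
noncomputable def mlt [Fintype ι] (S : Set (Pt K ι)) (χ : κ → ι → ℤ) : ℝ≥0∞ :=
  ⨆ (k : ℕ) (_ : Ind S χ k), (k : ℝ≥0∞)

/-- A family of tight, pairwise inequivalent points of `S`, finite over the characters. -/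
structure Fam [Fintype ι] (S : Set (Pt K ι)) (χ : κ → ι → ℤ) {A : Type*} (ξ : A → Pt K ι) :
    Prop where
  mem : ∀ a, ξ a ∈ S
  tight : ∀ a, (ξ a).Tight
  fd : ∀ a, (ξ a).Fd χ
  ineq : ∀ a b, (ξ a).Le (ξ b) → a = b

/-- All the points of `S` have the tropicalisation `y`, which is generic for `χ`. -/
structure Over [Fintype ι] (S : Set (Pt K ι)) (χ : κ → ι → ℤ) (y : ι → ℝ) : Prop where
  trop : ∀ ξ ∈ S, ξ.trop = y
  gen : Gen K (chi χ y)

/-- Moreover `S` is saturated, and its tight points are finite over the characters. -/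
structure Nice [Fintype ι] (S : Set (Pt K ι)) (χ : κ → ι → ℤ) (y : ι → ℝ) : Prop
    extends Over S χ y where
  sat : ∀ ξ ζ : Pt K ι, ξ.Le ζ → (ξ ∈ S ↔ ζ ∈ S)
  fd : ∀ ξ ∈ S, ξ.Tight → ξ.Fd χ

/-- `ξ` is the limit of the points `ζ n` along `𝒰`. -/
def Lim (ζ : ℕ → Pt K ι) (𝒰 : Filter ℕ) (ξ : Pt K ι) : Prop :=
  ∀ p, Tendsto (fun n => ‖(ζ n).ev p‖) 𝒰 (𝓝 ‖ξ.ev p‖)

/-- A sequence of points with bounded tropicalisations. -/
def Bdd (ζ : ℕ → Pt K ι) : Prop := ∃ R : ℝ, ∀ n i, |(ζ n).trop i| ≤ R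

/-- The points of `S` over `y`. -/
def fib (S : Set (Pt K ι)) (y : ι → ℝ) : Set (Pt K ι) := {ξ | ξ ∈ S ∧ ξ.trop = y}

/-- The set of points of a closed analytic subvariety of dimension `d` of the torus. -/
structure TV [Fintype ι] [DecidableEq ι] (S : Set (Pt K ι)) (d : ℕ) : Prop where
  sat : ∀ ξ ζ : Pt K ι, ξ.Le ζ → (ξ ∈ S ↔ ζ ∈ S)
  rnk_le : ∀ ξ ∈ S, rnk K ξ.trop ≤ d
  fd : ∀ ξ ∈ S, ξ.Tight → ∀ (κ : Type) [Fintype κ] (μ : κ → ι), Fintype.card κ = d →
    Gen K (ξ.trop ∘ μ) → ξ.Fd (crd μ)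
  lim : ∀ (ζ : ℕ → Pt K ι) (𝒰 : Ultrafilter ℕ) (ξ : Pt K ι), (∀ n, ζ n ∈ S) → Bdd ζ →
    Lim ζ 𝒰 ξ → ξ ∈ S

/-- Separability of `j : E → L` in characteristic `p`: a finite family which spans `E` over `E ^ p`
stays independent over `L ^ p`. -/
def Sep (p : ℕ) {E L : Type u} [Field E] [Field L] (j : E →+* L) : Prop :=
  ∃ (B : Type) (_ : Fintype B) (b : B → E), (∀ z : E, ∃ c : B → E, z = ∑ β, c β ^ p * b β) ∧
    ∀ c : B → L, ∑ β, c β ^ p * j (b β) = 0 → ∀ β, c β = 0

/-- The composita of a finite extension `F` of `E` with a complete field `G`, over `j : E → G`. -/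
structure Cmp {E F G : Type u} [Field E] [Field F] [Algebra K E] [Algebra K F] [Algebra E F]
    [NormedField G] [NormedAlgebra K G] (j : E →ₐ[K] G) where
  m : ℕ
  L : Fin m → CF K
  φ : ∀ a, F →ₐ[K] (L a).Ω
  ι : ∀ a, G →ₐ[K] (L a).Ω
  iso : ∀ a, Iso (ι a)
  cmp : ∀ a z, φ a (algebraMap E F z) = ι a (j z)
  fd : ∀ a, FiniteDimensional (ι a).fieldRange (L a).Ω
  sum : ∑ a, Module.finrank (ι a).fieldRange (L a).Ω = Module.finrank E F
  gen : ∀ a, IntermediateField.adjoin K (Set.range (φ a) ∪ Set.range (ι a)) = ⊤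
  ineq : ∀ a b (Ω : Type u) [Field Ω] [Algebra K Ω] (ψ : (L a).Ω →ₐ[K] Ω) (ψ' : (L b).Ω →ₐ[K] Ω),
    (∀ z, ψ (φ a z) = ψ' (φ b z)) → (∀ z, ψ (ι a z) = ψ' (ι b z)) → a = b
  cov : ∀ (Ω : CF K) (φ' : F →ₐ[K] Ω.Ω) (ι' : G →ₐ[K] Ω.Ω), Iso ι' →
    (∀ z, φ' (algebraMap E F z) = ι' (j z)) → ∃ (a : Fin m) (ψ : (L a).Ω →ₐ[K] Ω.Ω), Iso ψ ∧
      (∀ z, ψ (φ a z) = φ' z) ∧ ∀ z, ψ (ι a z) = ι' z

end Pool.Agent.Work.MP_ffcd14_ag.Tr
end

-- merged part: Pool.Agent.Work.MP_ffcd14_ag.Tr.V1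
section
/-!
# The value group, generic vectors, ranks

Plan.  `mem_Gam`: the set of the `log ‖a‖` is an additive group, stable under division by positive
integers since `K` is algebraically closed.  `Gam_dense`: `Gam K` contains `ℚ r` with `r ≠ 0`.
The statements on `Gen` and `rnk` are linear algebra in the `ℚ`-vector space `ℝ ⧸ Gam K`
(`Fintype.linearIndependent_iff`, `finrank_span_eq_card`, `linearIndependent_iff_card_le_finrank_span`,
`exists_linearIndependent'`, `Submodule.finrank_add_le_finrank_add_finrank`).  `ae_gen`: the non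
generic vectors lie in countably many affine hyperplanes `∑ m k * η k = γ`, `m ≠ 0`, each of them
is a null set (`MeasureTheory.Measure.addHaar_affineSubspace`).
-/

namespace Pool.Agent.Work.MP_ffcd14_ag.Tr

open MvPolynomial Filter Topology
open scoped ENNReal

set_option linter.unusedSectionVars false

universe u

variable {K : Type u} [NontriviallyNormedField K] {ι ι' ι'' κ κ' : Type}

theorem log_mem {a : K} (ha : a ≠ 0) : Real.log ‖a‖ ∈ Gam K := by
  exact Submodule.subset_span ⟨a, ha, rfl⟩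

theorem mem_Gam [IsAlgClosed K] {r : ℝ} : r ∈ Gam K ↔ ∃ a : K, a ≠ 0 ∧ r = Real.log ‖a‖ := by
  refine ⟨fun h => ?_, fun ⟨a, ha, e⟩ => e ▸ log_mem ha⟩
  induction h using Submodule.span_induction with
  | mem x hx => exact hx
  | zero => exact ⟨1, one_ne_zero, by simp⟩
  | add x y _ _ hx hy =>
    obtain ⟨a, ha, rfl⟩ := hx
    obtain ⟨b, hb, rfl⟩ := hy
    exact ⟨a * b, mul_ne_zero ha hb, by
      rw [norm_mul, Real.log_mul (norm_ne_zero_iff.2 ha) (norm_ne_zero_iff.2 hb)]⟩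
  | smul q x _ hx =>
    obtain ⟨a, ha, rfl⟩ := hx
    obtain ⟨b, hb⟩ := IsAlgClosed.exists_pow_nat_eq (a ^ q.num) q.den_pos
    have e := congrArg (fun z : K => Real.log ‖z‖) hb
    simp only [norm_pow, norm_zpow, Real.log_pow, Real.log_zpow] at e
    refine ⟨b, fun k => zpow_ne_zero q.num ha ?_, ?_⟩
    · rw [← hb, k, zero_pow q.den_nz]
    · have d : (q.den : ℝ) ≠ 0 := Nat.cast_ne_zero.2 q.den_nz
      rw [Rat.smul_def, Rat.cast_def, div_mul_eq_mul_div, ← e, mul_div_cancel_left₀ _ d]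

theorem Gam_countable (h : (Set.range fun a : K => ‖a‖).Countable) :
    (Gam K : Set ℝ).Countable := by
  have h1 : {r | ∃ a : K, a ≠ 0 ∧ r = Real.log ‖a‖}.Countable :=
    (h.image Real.log).mono (by
      rintro _ ⟨a, -, rfl⟩
      exact ⟨_, ⟨a, rfl⟩, rfl⟩)
  have := h1.to_subtype
  rw [Gam, ← Subtype.range_coe (s := {r | ∃ a : K, a ≠ 0 ∧ r = Real.log ‖a‖})]
  exact Set.countable_coe_iff.1 (inferInstanceAs (Countable (Submodule.span ℚ (Set.range _))))

theorem Gam_dense : Dense (Gam K : Set ℝ) := by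
  obtain ⟨a, ha⟩ := NormedField.exists_one_lt_norm K
  have h0 : a ≠ 0 := norm_pos_iff.1 (one_pos.trans ha)
  have h1 : DenseRange ((· * Real.log ‖a‖) ∘ ((↑) : ℚ → ℝ)) :=
    (mul_right_surjective₀ (Real.log_pos ha).ne').denseRange.comp Rat.denseRange_cast
      (continuous_id.mul continuous_const)
  refine Dense.mono ?_ h1
  rintro _ ⟨q, rfl⟩
  have := (Gam K).smul_mem q (log_mem h0)
  rwa [Rat.smul_def] at this

theorem v1_eq {r s : ℝ} : (Gam K).mkQ r = (Gam K).mkQ s ↔ r - s ∈ Gam K :=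
  Submodule.Quotient.eq _

theorem v1_sum [Fintype κ] (m : κ → ℚ) (η : κ → ℝ) :
    (Gam K).mkQ (∑ k, (m k : ℝ) * η k) = ∑ k, m k • (Gam K).mkQ (η k) := by
  simp only [map_sum, ← Rat.smul_def, map_smul]

theorem v1_fin [Fintype κ] (η : κ → ℝ) :
    FiniteDimensional ℚ (Submodule.span ℚ (Set.range fun i => (Gam K).mkQ (η i))) :=
  FiniteDimensional.span_of_finite ℚ (Set.finite_range _)

theorem v1_key [Fintype κ] {η η' : κ → ℝ} {Q : Matrix κ κ ℚ}
    (e : ∀ k, η' k - ∑ j, (Q k j : ℝ) * η j ∈ Gam K) (m : κ → ℚ) :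
    ∑ k, m k • (Gam K).mkQ (η' k) = ∑ j, Matrix.vecMul m Q j • (Gam K).mkQ (η j) := by
  simp only [fun k => (v1_eq.2 (e k)).trans (v1_sum _ _), Finset.smul_sum, smul_smul,
    Matrix.vecMul, dotProduct, Finset.sum_smul]
  exact Finset.sum_comm

theorem Gen.congr {η η' : κ → ℝ} (h : Gen K η) (e : ∀ k, η' k - η k ∈ Gam K) : Gen K η' := by
  have : (fun k => (Gam K).mkQ (η' k)) = fun k => (Gam K).mkQ (η k) :=
    funext fun k => v1_eq.2 (e k)
  rwa [Gen, this]

theorem Gen.comp {η : κ → ℝ} (h : Gen K η) {f : κ' → κ} (hf : Function.Injective f) :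
    Gen K (η ∘ f) := by
  exact LinearIndependent.comp h f hf

theorem gen_iff [Fintype κ] {η : κ → ℝ} :
    Gen K η ↔ ∀ m : κ → ℚ, ∑ k, (m k : ℝ) * η k ∈ Gam K → m = 0 := by
  rw [Gen, Fintype.linearIndependent_iff]
  refine forall_congr' fun m => ?_
  rw [← v1_sum, Submodule.mkQ_apply, Submodule.Quotient.mk_eq_zero, funext_iff]
  rfl

theorem Gen.int [Fintype κ] {η : κ → ℝ} (h : Gen K η) {m : κ → ℤ}
    (hm : ∑ k, (m k : ℝ) * η k ∈ Gam K) : m = 0 := by
  have := gen_iff.1 h (fun k => m k) (by simpa only [Rat.cast_intCast] using hm)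
  exact funext fun k => Int.cast_eq_zero.1 (congrFun this k)

theorem Gen.mul [Fintype κ] [DecidableEq κ] {η η' : κ → ℝ} (h : Gen K η) {Q : Matrix κ κ ℚ}
    (hQ : Q.det ≠ 0) (e : ∀ k, η' k - ∑ j, (Q k j : ℝ) * η j ∈ Gam K) : Gen K η' := by
  refine Fintype.linearIndependent_iff.2 fun m hm => congrFun ?_
  rw [v1_key e] at hm
  exact Matrix.eq_zero_of_vecMul_eq_zero hQ (funext (Fintype.linearIndependent_iff.1 h _ hm))

theorem Gen.det_ne [Fintype κ] [DecidableEq κ] {η η' : κ → ℝ} (h : Gen K η') {Q : Matrix κ κ ℚ}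
    (e : ∀ k, η' k - ∑ j, (Q k j : ℝ) * η j ∈ Gam K) : Q.det ≠ 0 := by
  intro k
  obtain ⟨m, h0, hm⟩ := Matrix.exists_vecMul_eq_zero_iff.2 k
  refine h0 (funext (Fintype.linearIndependent_iff.1 h m ?_))
  simp only [v1_key e, hm, Pi.zero_apply, zero_smul, Finset.sum_const_zero]

theorem rnk_le_rnk [Fintype κ] {y : ι → ℝ} {η : κ → ℝ}
    (h : ∀ i, ∃ m : κ → ℚ, y i - ∑ k, (m k : ℝ) * η k ∈ Gam K) : rnk K y ≤ rnk K η := by
  have := v1_fin (K := K) η
  refine Submodule.finrank_mono (Submodule.span_le.2 ?_)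
  rintro _ ⟨i, rfl⟩
  obtain ⟨m, hm⟩ := h i
  exact (Submodule.mem_span_range_iff_exists_fun ℚ).2
    ⟨m, ((v1_eq.2 hm).trans (v1_sum _ _)).symm⟩

theorem rnk_le_card [Fintype κ] (η : κ → ℝ) : rnk K η ≤ Fintype.card κ := by
  exact finrank_range_le_card _

theorem gen_iff_rnk [Fintype κ] {η : κ → ℝ} : Gen K η ↔ Fintype.card κ ≤ rnk K η := by
  exact linearIndependent_iff_card_le_finrank_span

theorem rnk_comp_le [Fintype ι'] (y : ι' → ℝ) (f : ι → ι') : rnk K (y ∘ f) ≤ rnk K y := by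
  have := v1_fin (K := K) y
  refine Submodule.finrank_mono (Submodule.span_mono ?_)
  rintro _ ⟨i, rfl⟩
  exact ⟨f i, rfl⟩

theorem rnk_chi_le [Fintype ι] (χ : κ → ι → ℤ) (y : ι → ℝ) : rnk K (chi χ y) ≤ rnk K y := by
  refine rnk_le_rnk fun k => ⟨fun i => χ k i, ?_⟩
  simp only [chi, Rat.cast_intCast, sub_self, Submodule.zero_mem]

theorem rnk_sum_le [Fintype ι] [Fintype ι'] (y : ι'' → ℝ) {f : ι → ι''} {f' : ι' → ι''}
    (h : Function.Surjective (Sum.elim f f')) : rnk K y ≤ rnk K (y ∘ f) + rnk K (y ∘ f') := by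
  have := v1_fin (K := K) (y ∘ f)
  have := v1_fin (K := K) (y ∘ f')
  refine le_trans (Submodule.finrank_mono (Submodule.span_le.2 ?_))
    (Submodule.finrank_add_le_finrank_add_finrank _ _)
  rintro _ ⟨i, rfl⟩
  obtain ⟨j | j, rfl⟩ := h i
  · exact Submodule.mem_sup_left (Submodule.subset_span ⟨j, rfl⟩)
  · exact Submodule.mem_sup_right (Submodule.subset_span ⟨j, rfl⟩)

theorem exists_gen_sub [Fintype ι] (y : ι → ℝ) : ∃ μ : Fin (rnk K y) → ι, Gen K (y ∘ μ) := by
  obtain ⟨κ, a, h1, h2, h3⟩ := exists_linearIndependent' ℚ fun i => (Gam K).mkQ (y i)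
  have := Fintype.ofInjective a h1
  have e : Fintype.card κ = rnk K y := by rw [← finrank_span_eq_card h3, h2, rnk]
  exact ⟨a ∘ (Fintype.equivFinOfCardEq e).symm,
    h3.comp _ (Fintype.equivFinOfCardEq e).symm.injective⟩

/-- If `y ∘ μ` is generic of maximal rank, every coordinate is a combination of the `y (μ k)`. -/
theorem exists_comb [Fintype ι] [Fintype κ] {y : ι → ℝ} {μ : κ → ι} (h : Gen K (y ∘ μ))
    (hr : rnk K y ≤ Fintype.card κ) (i : ι) :
    ∃ m : κ → ℚ, y i - ∑ k, (m k : ℝ) * y (μ k) ∈ Gam K := by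
  have := v1_fin (K := K) y
  have e : Submodule.span ℚ (Set.range fun k => (Gam K).mkQ ((y ∘ μ) k)) =
      Submodule.span ℚ (Set.range fun i => (Gam K).mkQ (y i)) :=
    Submodule.eq_of_le_of_finrank_le (Submodule.span_mono (by
      rintro _ ⟨k, rfl⟩
      exact ⟨μ k, rfl⟩)) (hr.trans (gen_iff_rnk.1 h))
  obtain ⟨m, hm⟩ := (Submodule.mem_span_range_iff_exists_fun ℚ).1
    (e.ge (Submodule.subset_span ⟨i, rfl⟩))
  exact ⟨m, v1_eq.1 (hm.symm.trans (v1_sum _ _).symm)⟩

theorem v1_null [Fintype κ] {m : κ → ℝ} (hm : m ≠ 0) (γ : ℝ) :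
    MeasureTheory.volume {η : κ → ℝ | ∑ k, m k * η k = γ} = 0 := by
  classical
  let S : AffineSubspace ℝ (κ → ℝ) :=
    (affineSpan ℝ {γ}).comap (Fintype.linearCombination ℝ m).toAffineMap
  have e : ∀ η, η ∈ S ↔ ∑ k, m k * η k = γ := fun η => by
    simp [S, Fintype.linearCombination_apply, mul_comm]
  rw [← Set.ext (a := (S : Set (κ → ℝ))) (b := {η | ∑ k, m k * η k = γ}) e]
  refine MeasureTheory.Measure.addHaar_affineSubspace _ S fun k => hm (funext fun j => ?_)
  have h0 := (e 0).1 (k ▸ AffineSubspace.mem_top _ _ _)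
  have h1 := (e (Pi.single j 1)).1 (k ▸ AffineSubspace.mem_top _ _ _)
  simpa [Pi.single_apply, ← h0] using h1

theorem ae_gen [Fintype κ] (h : (Gam K : Set ℝ).Countable) :
    ∀ᵐ η : κ → ℝ ∂MeasureTheory.volume, Gen K η := by
  have k : ∀ᵐ η : κ → ℝ ∂MeasureTheory.volume, ∀ m : κ → ℚ, ∀ γ ∈ (Gam K : Set ℝ), m ≠ 0 →
      ∑ k, (m k : ℝ) * η k ≠ γ :=
    MeasureTheory.ae_all_iff.2 fun m => (MeasureTheory.ae_ball_iff h).2 fun γ _ => by
      by_cases hm : m = 0
      · exact .of_forall fun _ e => (e hm).elim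
      · have := v1_null (m := fun k => (m k : ℝ))
          (fun e => hm (funext fun k => Rat.cast_eq_zero.1 (congrFun e k))) γ
        exact (MeasureTheory.measure_eq_zero_iff_ae_notMem.1 this).mono fun _ e _ => e
  exact k.mono fun η hη => gen_iff.2 fun m hm => by_contra fun e => hη m _ hm e rfl

theorem chi_crd [Fintype ι] [DecidableEq ι] (μ : κ → ι) (y : ι → ℝ) : chi (crd μ) y = y ∘ μ := by
  funext k
  simp [chi, crd, Pi.single_apply]

end Pool.Agent.Work.MP_ffcd14_ag.Tr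
end

-- merged part: Pool.Agent.Work.MP_ffcd14_ag.Tr.V2
section
/-!
# Monomial absolute values

`Ω` is ultrametric (`IsUltrametricDist.of_normedAlgebra K`).  Plan.  If `t` is generic, the
nonzero terms `c_β t ^ β` of a polynomial have pairwise different absolute values (`Gen.int`,
`log_mem`), so that the norm of the sum is the largest one
(`IsUltrametricDist.norm_sum_eq_sup'_of_pairwise_ne`).  `exists_frac`: closure and
`IntermediateField.mem_adjoin_range_iff` (or `mem_adjoin_iff_div`).  `lead`: approximate `z` by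
`a(t) / b(t)` and divide the leading terms.  `pert`: `‖t' ^ β - t ^ β‖ ≤ ρ ‖t ^ β‖` for monomials,
hence `‖a(t') - a(t)‖ ≤ ρ ‖a(t)‖`, hence the same for fractions.  `resid`: divide by a constant to
assume `‖z‖ = 1`; take a relation `∑ a_i z ^ i = 0` over `cl`, replace the `a_i` by their leading
terms `c_i t ^ α_i`; those of maximal norm have the same `α`; after division by such a term we get
a polynomial `P` over `K` with coefficients of norm at most one, one of them of norm one, and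
`‖P(z)‖ < 1`.  Split `P` into linear factors; if `‖z - ρ‖ ≥ 1` for all roots then
`‖z - ρ‖ = max 1 ‖ρ‖`, and all coefficients of `P` are bounded by `‖lead‖ ∏ max 1 ‖ρ‖ = ‖P(z)‖`
(induction on the multiset of roots), a contradiction.
-/

namespace Pool.Agent.Work.MP_ffcd14_ag.Tr

open MvPolynomial Filter Topology
open scoped ENNReal

set_option linter.unusedSectionVars false

universe u

variable {K : Type u} [NontriviallyNormedField K] [IsUltrametricDist K] [CompleteSpace K]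
  [IsAlgClosed K] {Ω Ω' : Type u} [NormedField Ω] [NormedAlgebra K Ω] [NormedField Ω']
  [NormedAlgebra K Ω'] {ι ι' ι'' κ κ' : Type} [Fintype κ]

section Aux

variable {M : Type*} [NormedField M] [IsUltrametricDist M]

theorem V2_eq {x y : M} (h : ‖x - y‖ < ‖y‖) : ‖x‖ = ‖y‖ := by
  have := IsUltrametricDist.norm_add_eq_max_of_norm_ne_norm h.ne
  rwa [sub_add_cancel, max_eq_right h.le] at this

theorem V2_eq' {x y : M} (h : ‖x - y‖ < ‖x‖) : ‖y‖ = ‖x‖ := V2_eq (by rwa [norm_sub_rev])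

theorem V2_tri {x y z : M} : ‖x - z‖ ≤ max ‖x - y‖ ‖y - z‖ := by
  have := IsUltrametricDist.norm_add_le_max (x - y) (y - z)
  rwa [sub_add_sub_cancel] at this

theorem V2_sum_lt {A : Type*} {s : Finset A} {f : A → M} {r : ℝ} (hr : 0 < r)
    (h : ∀ i ∈ s, ‖f i‖ < r) : ‖∑ i ∈ s, f i‖ < r := by
  classical
  induction s using Finset.induction_on with
  | empty => simpa using hr
  | insert a s ha ih =>
    rw [Finset.sum_insert ha]
    exact (IsUltrametricDist.norm_add_le_max _ _).trans_lt (max_lt (h a (Finset.mem_insert_self _ _))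
      (ih fun i hi => h i (Finset.mem_insert_of_mem hi)))

/-- relatively close -/
def V2_Rel (ρ : ℝ) (x x' : M) : Prop := ‖x' - x‖ ≤ ρ * ‖x‖

variable {ρ : ℝ}

theorem V2_Rel.refl (h0 : 0 < ρ) (x : M) : V2_Rel ρ x x := by
  unfold V2_Rel
  rw [sub_self, norm_zero]
  positivity

theorem V2_Rel.norm (h1 : ρ < 1) {x x' : M} (h : V2_Rel ρ x x') : ‖x'‖ = ‖x‖ := by
  by_cases hx : x = 0
  · subst hx
    have : ‖x' - 0‖ ≤ ρ * ‖(0 : M)‖ := h
    rw [norm_zero, mul_zero, sub_zero] at this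
    rw [norm_zero]
    exact le_antisymm this (norm_nonneg _)
  · exact V2_eq (lt_of_le_of_lt h (mul_lt_of_lt_one_left (norm_pos_iff.mpr hx) h1))

theorem V2_Rel.mul (h1 : ρ < 1) {x x' y y' : M} (h : V2_Rel ρ x x') (k : V2_Rel ρ y y') :
    V2_Rel ρ (x * y) (x' * y') := by
  refine (V2_tri (y := x * y')).trans (max_le ?_ ?_)
  · rw [← sub_mul, norm_mul, norm_mul, k.norm h1, ← mul_assoc]
    exact mul_le_mul_of_nonneg_right h (norm_nonneg _)
  · rw [← mul_sub, norm_mul, norm_mul, mul_left_comm]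
    exact mul_le_mul_of_nonneg_left k (norm_nonneg _)

theorem V2_Rel.pow (h0 : 0 < ρ) (h1 : ρ < 1) {x x' : M} (h : V2_Rel ρ x x') (n : ℕ) :
    V2_Rel ρ (x ^ n) (x' ^ n) := by
  induction n with
  | zero => rw [pow_zero, pow_zero]; exact .refl h0 _
  | succ n ih => rw [pow_succ, pow_succ]; exact ih.mul h1 h

theorem V2_Rel.prod (h0 : 0 < ρ) (h1 : ρ < 1) {A : Type*} (s : Finset A) {f f' : A → M}
    (h : ∀ i, V2_Rel ρ (f i) (f' i)) : V2_Rel ρ (∏ i ∈ s, f i) (∏ i ∈ s, f' i) := by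
  classical
  induction s using Finset.induction_on with
  | empty => rw [Finset.prod_empty, Finset.prod_empty]; exact .refl h0 _
  | insert a s ha ih => rw [Finset.prod_insert ha, Finset.prod_insert ha]; exact (h a).mul h1 ih

theorem V2_Rel.inv (h1 : ρ < 1) {x x' : M} (h : V2_Rel ρ x x') (hx : x ≠ 0) :
    V2_Rel ρ x⁻¹ x'⁻¹ := by
  have hn := h.norm h1
  have hp : 0 < ‖x‖ := norm_pos_iff.mpr hx
  have hx' : x' ≠ 0 := norm_pos_iff.mp (hn ▸ hp)
  have e : x'⁻¹ - x⁻¹ = -((x' - x) * x'⁻¹ * x⁻¹) := by field_simp; ring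
  unfold V2_Rel
  rw [e, norm_neg, norm_mul, norm_mul, norm_inv x', hn]
  refine mul_le_mul_of_nonneg_right ?_ (norm_nonneg _)
  rw [← div_eq_mul_inv, div_le_iff₀ hp]
  exact h

end Aux

theorem V2_term (t : κ → Ω) (β : κ →₀ ℕ) (a : K) :
    aeval t (monomial β a) = a • ∏ k, t k ^ ((β k : ℕ) : ℤ) := by
  rw [aeval_monomial, Finsupp.prod_fintype _ _ (by simp), Algebra.smul_def]
  simp only [zpow_natCast]

theorem V2_mon_ne {t : κ → Ω} (h : ∀ k, t k ≠ 0) {c : K} (hc : c ≠ 0) (α : κ → ℤ) :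
    c • ∏ k, t k ^ α k ≠ 0 :=
  smul_ne_zero hc (Finset.prod_ne_zero_iff.mpr fun k _ => zpow_ne_zero _ (h k))

theorem V2_log {t : κ → Ω} (h : ∀ k, t k ≠ 0) {c : K} (hc : c ≠ 0) (α : κ → ℤ) :
    Real.log ‖c • ∏ k, t k ^ α k‖ = Real.log ‖c‖ + ∑ k, (α k : ℝ) * Real.log ‖t k‖ := by
  rw [norm_smul, Real.log_mul (norm_ne_zero_iff.mpr hc) (norm_ne_zero_iff.mpr
    (Finset.prod_ne_zero_iff.mpr fun k _ => zpow_ne_zero _ (h k))), norm_prod,
    Real.log_prod fun k _ => norm_ne_zero_iff.mpr (zpow_ne_zero _ (h k))]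
  simp only [norm_zpow, Real.log_zpow]

theorem V2_uniq {t : κ → Ω} (h : GenT K t) {c c' : K} (hc : c ≠ 0) (hc' : c' ≠ 0) {α α' : κ → ℤ}
    (e : ‖c • ∏ k, t k ^ α k‖ = ‖c' • ∏ k, t k ^ α' k‖) : α = α' := by
  have e' := congrArg Real.log e
  rw [V2_log h.1 hc, V2_log h.1 hc'] at e'
  refine sub_eq_zero.mp (Gen.int h.2 ?_)
  have : ∑ k, (((α - α') k : ℤ) : ℝ) * Real.log ‖t k‖ = Real.log ‖c'‖ - Real.log ‖c‖ := by
    simp only [Pi.sub_apply, Int.cast_sub, sub_mul, Finset.sum_sub_distrib]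
    linarith
  rw [this]
  exact sub_mem (log_mem hc') (log_mem hc)

theorem V2_max {t : κ → Ω} (h : GenT K t) {c : MvPolynomial κ K} (hc : c ≠ 0) :
    ∃ β ∈ c.support, ∀ β' ∈ c.support, β' ≠ β →
      ‖aeval t (monomial β' (coeff β' c))‖ < ‖aeval t (monomial β (coeff β c))‖ := by
  obtain ⟨β, hβ, hm⟩ := Finset.exists_max_image c.support
    (fun β => ‖aeval t (monomial β (coeff β c))‖) (support_nonempty.mpr hc)
  refine ⟨β, hβ, fun β' hβ' hne => lt_of_le_of_ne (hm β' hβ') fun e => hne ?_⟩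
  rw [V2_term, V2_term] at e
  have := V2_uniq h (mem_support_iff.mp hβ') (mem_support_iff.mp hβ) e
  ext k
  exact_mod_cast congrFun this k

theorem V2_dom {t : κ → Ω} (h : ∀ k, t k ≠ 0) {c : MvPolynomial κ K} {β : κ →₀ ℕ}
    (hβ : β ∈ c.support) (hm : ∀ β' ∈ c.support, β' ≠ β →
      ‖aeval t (monomial β' (coeff β' c))‖ < ‖aeval t (monomial β (coeff β c))‖) :
    ‖aeval t c - aeval t (monomial β (coeff β c))‖ < ‖aeval t (monomial β (coeff β c))‖ ∧
      ‖aeval t c‖ = ‖aeval t (monomial β (coeff β c))‖ := by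
  classical
  have : IsUltrametricDist Ω := IsUltrametricDist.of_normedAlgebra K
  have h1 : ‖aeval t c - aeval t (monomial β (coeff β c))‖ <
      ‖aeval t (monomial β (coeff β c))‖ := by
    have e : aeval t c = ∑ β' ∈ c.support, aeval t (monomial β' (coeff β' c)) := by
      rw [← map_sum, ← c.as_sum]
    rw [e, ← Finset.add_sum_erase _ _ hβ, add_sub_cancel_left]
    refine V2_sum_lt ?_ fun β' hβ' =>
      hm β' (Finset.mem_of_mem_erase hβ') (Finset.ne_of_mem_erase hβ')
    rw [V2_term]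
    exact norm_pos_iff.mpr (V2_mon_ne h (mem_support_iff.mp hβ) _)
  exact ⟨h1, V2_eq h1⟩

theorem V2_coeff {z : Ω} (hz : ∀ ρ : K, max 1 ‖ρ‖ ≤ ‖z - algebraMap K Ω ρ‖) (n : ℕ) :
    ∀ Q : Polynomial K, Q.natDegree = n → ∀ i, ‖Q.coeff i‖ ≤ ‖Polynomial.aeval z Q‖ := by
  induction n with
  | zero =>
    intro Q hQ i
    rw [Polynomial.eq_C_of_natDegree_eq_zero hQ, Polynomial.aeval_C, norm_algebraMap',
      Polynomial.coeff_C]
    split_ifs
    · exact le_rfl
    · rw [norm_zero]; exact norm_nonneg _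
  | succ n ih =>
    intro Q hQ i
    have hQ0 : Q ≠ 0 := by rintro rfl; simp at hQ
    obtain ⟨ρ, hρ⟩ := IsAlgClosed.exists_root Q (by
      rw [Polynomial.degree_eq_natDegree hQ0, hQ]; exact_mod_cast Nat.succ_ne_zero n)
    obtain ⟨Q₁, rfl⟩ := Polynomial.dvd_iff_isRoot.mpr hρ
    have hQ1 : Q₁ ≠ 0 := right_ne_zero_of_mul hQ0
    rw [Polynomial.natDegree_mul (Polynomial.X_sub_C_ne_zero ρ) hQ1,
      Polynomial.natDegree_X_sub_C] at hQ
    have ih' := ih Q₁ (by omega)
    have hn := norm_nonneg (Polynomial.aeval z Q₁)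
    rw [map_mul, norm_mul, map_sub, Polynomial.aeval_X, Polynomial.aeval_C]
    refine le_trans ?_ (mul_le_mul_of_nonneg_right (hz ρ) hn)
    have h2 : ‖(Polynomial.C ρ * Q₁).coeff i‖ ≤ max 1 ‖ρ‖ * ‖Polynomial.aeval z Q₁‖ := by
      rw [Polynomial.coeff_C_mul, norm_mul]
      exact mul_le_mul (le_max_right _ _) (ih' i) (norm_nonneg _) (by positivity)
    have h3 : ‖(Polynomial.X * Q₁).coeff i‖ ≤ max 1 ‖ρ‖ * ‖Polynomial.aeval z Q₁‖ := by
      refine le_trans ?_ (le_mul_of_one_le_left hn (le_max_left _ _))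
      cases i with
      | zero => rw [Polynomial.coeff_X_mul_zero, norm_zero]; exact hn
      | succ i => rw [Polynomial.coeff_X_mul]; exact ih' i
    rw [sub_mul, Polynomial.coeff_sub, sub_eq_add_neg]
    exact (IsUltrametricDist.norm_add_le_max _ _).trans (max_le h3 (by rwa [norm_neg]))

theorem GenT.term_le {t : κ → Ω} (h : GenT K t) (c : MvPolynomial κ K) (β : κ →₀ ℕ) :
    ‖aeval t (monomial β (coeff β c))‖ ≤ ‖aeval t c‖ := by
  by_cases hβ : β ∈ c.support
  · obtain ⟨β₀, h0, hm⟩ := V2_max h (support_nonempty.mp ⟨β, hβ⟩)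
    rw [(V2_dom h.1 h0 hm).2]
    by_cases e : β = β₀
    · rw [e]
    · exact (hm β hβ e).le
  · rw [notMem_support_iff.mp hβ, monomial_zero, map_zero, norm_zero]
    exact norm_nonneg _

theorem GenT.lead_poly {t : κ → Ω} (h : GenT K t) {c : MvPolynomial κ K} (hc : c ≠ 0) :
    ∃ β ∈ c.support, ‖aeval t c - aeval t (monomial β (coeff β c))‖ < ‖aeval t c‖ := by
  obtain ⟨β₀, h0, hm⟩ := V2_max h hc
  obtain ⟨h1, h2⟩ := V2_dom h.1 h0 hm
  exact ⟨β₀, h0, h2 ▸ h1⟩

theorem GenT.congr {t : κ → Ω} (h : GenT K t) {t' : κ → Ω'} (e : ∀ k, ‖t' k‖ = ‖t k‖) :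
    GenT K t' := by
  refine ⟨fun k => norm_ne_zero_iff.mp (by rw [e k]; exact norm_ne_zero_iff.mpr (h.1 k)), ?_⟩
  simpa only [e] using h.2

theorem GenT.of_close {t t' : κ → Ω} (h : GenT K t) (e : ∀ k, ‖t' k - t k‖ < ‖t k‖) :
    GenT K t' ∧ ∀ k, ‖t' k‖ = ‖t k‖ := by
  have : IsUltrametricDist Ω := IsUltrametricDist.of_normedAlgebra K
  exact ⟨h.congr fun k => V2_eq (e k), fun k => V2_eq (e k)⟩

theorem GenT.norm_congr {t : κ → Ω} (h : GenT K t) {t' : κ → Ω'} (e : ∀ k, ‖t' k‖ = ‖t k‖)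
    (c : MvPolynomial κ K) : ‖aeval t' c‖ = ‖aeval t c‖ := by
  by_cases hc : c = 0
  · rw [hc, map_zero, map_zero, norm_zero, norm_zero]
  have ht (β : κ →₀ ℕ) (a : K) : ‖aeval t' (monomial β a)‖ = ‖aeval t (monomial β a)‖ := by
    simp only [V2_term, norm_smul, norm_prod, norm_zpow, e]
  obtain ⟨β₀, h0, hm⟩ := V2_max h hc
  rw [(V2_dom h.1 h0 hm).2, (V2_dom (h.congr e).1 h0 fun β' h1 h2 => by
    rw [ht, ht]; exact hm β' h1 h2).2, ht]

theorem GenT.algInd {t : κ → Ω} (h : GenT K t) : AlgebraicIndependent K t := by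
  refine algebraicIndependent_iff.mpr fun p hp => ?_
  by_contra hc
  obtain ⟨β, -, hβ⟩ := h.lead_poly hc
  rw [hp, norm_zero] at hβ
  exact absurd hβ (not_lt.mpr (norm_nonneg _))

theorem exists_frac' (t : κ → Ω) {z : Ω} (hz : z ∈ cl K (Set.range t)) {ε : ℝ} (hε : 0 < ε) :
    ∃ a b : MvPolynomial κ K, aeval t b ≠ 0 ∧ ‖z - aeval t a / aeval t b‖ < ε := by
  have hz' : z ∈ closure (IntermediateField.adjoin K (Set.range t) : Set Ω) := hz
  obtain ⟨w, hw, hd⟩ := Metric.mem_closure_iff.mp hz' ε hε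
  obtain ⟨a, b, rfl⟩ := (IntermediateField.mem_adjoin_range_iff K t w).mp hw
  rw [dist_eq_norm] at hd
  by_cases hb : aeval t b = 0
  · refine ⟨0, 1, by simp, ?_⟩
    simpa [hb] using hd
  · exact ⟨a, b, hb, hd⟩

theorem GenT.lead {t : κ → Ω} (h : GenT K t) {z : Ω} (hz : z ∈ cl K (Set.range t))
    (h0 : z ≠ 0) : ∃ (c : K) (α : κ → ℤ), c ≠ 0 ∧ ‖z - c • ∏ k, t k ^ α k‖ < ‖z‖ := by
  have : IsUltrametricDist Ω := IsUltrametricDist.of_normedAlgebra K
  have hp : 0 < ‖z‖ := norm_pos_iff.mpr h0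
  obtain ⟨a, b, hb, hab⟩ := exists_frac' t hz hp
  have h1 := V2_eq' hab
  have ha : aeval t a ≠ 0 := by
    intro e
    rw [e, zero_div, norm_zero] at h1
    exact hp.ne h1
  obtain ⟨β, hβ, e1⟩ := h.lead_poly (c := a) (by rintro rfl; exact ha (map_zero _))
  obtain ⟨γ, hγ, e2⟩ := h.lead_poly (c := b) (by rintro rfl; exact hb (map_zero _))
  have hγ' := mem_support_iff.mp hγ
  refine ⟨coeff β a / coeff γ b, fun k => (β k : ℤ) - (γ k : ℤ),
    div_ne_zero (mem_support_iff.mp hβ) hγ', ?_⟩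
  have e : (coeff β a / coeff γ b) • ∏ k, t k ^ ((β k : ℤ) - (γ k : ℤ)) =
      aeval t (monomial β (coeff β a)) / aeval t (monomial γ (coeff γ b)) := by
    rw [V2_term, V2_term, Finset.prod_congr rfl fun k _ => zpow_sub₀ (h.1 k) _ _,
      Finset.prod_div_distrib, Algebra.smul_def, Algebra.smul_def, Algebra.smul_def, map_div₀,
      div_mul_div_comm]
  rw [e]
  have n1 := V2_eq' e1
  have n2 := V2_eq' e2
  generalize aeval t (monomial β (coeff β a)) = A at *
  generalize aeval t (monomial γ (coeff γ b)) = B at *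
  generalize aeval t a = x at *
  generalize aeval t b = y at *
  have hx : 0 < ‖x‖ := norm_pos_iff.mpr ha
  have hy : 0 < ‖y‖ := norm_pos_iff.mpr hb
  have hB : B ≠ 0 := norm_pos_iff.mp (n2 ▸ hy)
  refine (V2_tri (y := x / y)).trans_lt (max_lt hab ?_)
  rw [← h1]
  refine (V2_tri (y := A / y)).trans_lt (max_lt ?_ ?_)
  · rw [← sub_div, norm_div, norm_div]
    exact div_lt_div_of_pos_right e1 hy
  · have : A / y - A / B = -(A / y * ((y - B) / B)) := by field_simp; ring
    rw [this, norm_neg, norm_mul, norm_div, norm_div, norm_div, n1, n2]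
    exact mul_lt_of_lt_one_right (div_pos hx hy) ((div_lt_one hy).mpr e2)

theorem GenT.log_norm {t : κ → Ω} (h : GenT K t) {z : Ω}
    (hz : z ∈ cl K (Set.range t)) (h0 : z ≠ 0) :
    ∃ α : κ → ℤ, Real.log ‖z‖ - ∑ k, (α k : ℝ) * Real.log ‖t k‖ ∈ Gam K := by
  have : IsUltrametricDist Ω := IsUltrametricDist.of_normedAlgebra K
  obtain ⟨c, α, hc, e⟩ := h.lead hz h0
  refine ⟨α, ?_⟩
  rw [← V2_eq' e, V2_log h.1 hc, add_sub_cancel_right]
  exact log_mem hc

theorem GenT.pert {t t' : κ → Ω} (h : GenT K t) {ρ : ℝ} (h0 : 0 < ρ) (h1 : ρ < 1)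
    (e : ∀ k, ‖t' k - t k‖ ≤ ρ * ‖t k‖) {z : Ω} (hz : z ∈ cl K (Set.range t)) :
    ∃ z' ∈ cl K (Set.range t'), ‖z - z'‖ ≤ ρ * ‖z‖ := by
  have : IsUltrametricDist Ω := IsUltrametricDist.of_normedAlgebra K
  by_cases hz0 : z = 0
  · exact ⟨0, zero_mem _, by simp [hz0]⟩
  have hp : 0 < ‖z‖ := norm_pos_iff.mpr hz0
  have hP (a : MvPolynomial κ K) : V2_Rel ρ (aeval t a) (aeval t' a) := by
    have e1 (s : κ → Ω) : aeval s a = ∑ β ∈ a.support, aeval s (monomial β (coeff β a)) := by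
      rw [← map_sum, ← a.as_sum]
    unfold V2_Rel
    rw [e1 t']
    nth_rewrite 1 [e1 t]
    rw [← Finset.sum_sub_distrib]
    refine IsUltrametricDist.norm_sum_le_of_forall_le_of_nonneg (by positivity) fun β _ => ?_
    refine le_trans ?_ (mul_le_mul_of_nonneg_left (h.term_le a β) h0.le)
    simp only [V2_term, Algebra.smul_def, zpow_natCast]
    exact (V2_Rel.refl h0 _).mul h1 (V2_Rel.prod h0 h1 _ fun k => V2_Rel.pow h0 h1 (e k) _)
  obtain ⟨a, b, hb, hab⟩ := exists_frac' t hz (mul_pos h0 hp)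
  have n1 := V2_eq' (hab.trans (mul_lt_of_lt_one_left hp h1))
  refine ⟨aeval t' a / aeval t' b, subset_closure
    ((IntermediateField.mem_adjoin_range_iff K t' _).mpr ⟨a, b, rfl⟩), ?_⟩
  refine (V2_tri (y := aeval t a / aeval t b)).trans (max_le hab.le ?_)
  rw [norm_sub_rev, ← n1, div_eq_mul_inv, div_eq_mul_inv]
  exact (hP a).mul h1 ((hP b).inv h1 hb)

theorem GenT.resid {t : κ → Ω} (h : GenT K t)
    [FiniteDimensional (cl K (Set.range t)) Ω] {z : Ω} (h0 : z ≠ 0) (hz : Real.log ‖z‖ ∈ Gam K) :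
    ∃ c : K, ‖z - algebraMap K Ω c‖ < ‖z‖ := by
  classical
  have : IsUltrametricDist Ω := IsUltrametricDist.of_normedAlgebra K
  obtain ⟨a, ha, hza⟩ := mem_Gam.mp hz
  have hp : 0 < ‖z‖ := norm_pos_iff.mpr h0
  have hza' : ‖z‖ = ‖a‖ := Real.log_injOn_pos hp (norm_pos_iff.mpr ha) hza
  have ha' : algebraMap K Ω a ≠ 0 := (map_ne_zero _).mpr ha
  obtain ⟨w, hw⟩ : ∃ w, w = z / algebraMap K Ω a := ⟨_, rfl⟩
  have hw1 : ‖w‖ = 1 := by rw [hw, norm_div, norm_algebraMap', ← hza', div_self hp.ne']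
  suffices H : ∃ ρ : K, ‖w - algebraMap K Ω ρ‖ < 1 by
    obtain ⟨ρ, hρ⟩ := H
    refine ⟨a * ρ, ?_⟩
    have : z - algebraMap K Ω (a * ρ) = algebraMap K Ω a * (w - algebraMap K Ω ρ) := by
      rw [hw, map_mul]; field_simp
    rw [this, norm_mul, norm_algebraMap', ← hza']
    exact mul_lt_of_lt_one_right hp hρ
  by_contra H
  push Not at H
  have H' (ρ : K) : max 1 ‖ρ‖ ≤ ‖w - algebraMap K Ω ρ‖ := by
    refine max_le (H ρ) ?_
    by_contra hlt
    rw [not_le, ← norm_algebraMap' Ω ρ] at hlt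
    have := V2_eq hlt
    rw [← this, hw1] at hlt
    exact absurd (H ρ) (not_le.mpr hlt)
  obtain ⟨P, hP0, hP⟩ := Algebra.IsAlgebraic.isAlgebraic (R := cl K (Set.range t)) w
  obtain ⟨i₀, hi₀, hm⟩ := Finset.exists_max_image P.support
    (fun i => ‖((P.coeff i : cl K (Set.range t)) : Ω)‖) (Polynomial.support_nonempty.mpr hP0)
  have hne (i : ℕ) (hi : i ∈ P.support) : ((P.coeff i : cl K (Set.range t)) : Ω) ≠ 0 :=
    fun e => Polynomial.mem_support_iff.mp hi (Subtype.ext e)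
  obtain ⟨c₀, α₀, hc₀, e₀⟩ := h.lead (P.coeff i₀).2 (hne i₀ hi₀)
  have n₀ := V2_eq' e₀
  set m := c₀ • ∏ k, t k ^ α₀ k with hmdef
  have hm0 : 0 < ‖m‖ := norm_pos_iff.mpr (V2_mon_ne h.1 hc₀ _)
  have hd (i : ℕ) : ∃ d : K, i ∈ P.support →
      ‖((P.coeff i : cl K (Set.range t)) : Ω) - d • m‖ < ‖m‖ := by
    by_cases hi : i ∈ P.support
    · rcases (hm i hi).lt_or_eq with hl | hl
      · exact ⟨0, fun _ => by rw [zero_smul, sub_zero, n₀]; exact hl⟩
      · obtain ⟨c, α, hc, e⟩ := h.lead (P.coeff i).2 (hne i hi)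
        have n := V2_eq' e
        obtain rfl : α = α₀ := V2_uniq h hc hc₀ (n.trans (hl.trans n₀.symm))
        refine ⟨c / c₀, fun _ => ?_⟩
        rw [n₀, ← hl, hmdef, smul_smul, div_mul_cancel₀ _ hc₀]
        exact e
    · exact ⟨0, fun k => absurd k hi⟩
  choose d hd using hd
  have h1 := V2_coeff H' _ (∑ i ∈ P.support, Polynomial.monomial i (d i)) rfl i₀
  have h2 : (∑ i ∈ P.support, Polynomial.monomial i (d i)).coeff i₀ = d i₀ := by
    rw [Polynomial.finsetSum_coeff, Finset.sum_eq_single i₀]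
    · exact Polynomial.coeff_monomial_same _ _
    · exact fun j _ hj => Polynomial.coeff_monomial_of_ne _ hj.symm
    · exact fun k => absurd hi₀ k
  have h3 : ‖d i₀‖ = 1 := by
    have := V2_eq' ((hd i₀ hi₀).trans_eq n₀)
    rw [norm_smul, ← n₀] at this
    exact mul_right_cancel₀ hm0.ne' (this.trans (one_mul _).symm)
  have h4 : Polynomial.aeval w (∑ i ∈ P.support, Polynomial.monomial i (d i)) * m =
      -∑ i ∈ P.support, (((P.coeff i : cl K (Set.range t)) : Ω) - d i • m) * w ^ i := by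
    rw [Polynomial.aeval_def, Polynomial.eval₂_eq_sum, Polynomial.sum_def] at hP
    simp only [sub_mul, Finset.sum_sub_distrib, map_sum, Polynomial.aeval_monomial, Finset.sum_mul]
    have hP' : ∑ i ∈ P.support, ((P.coeff i : cl K (Set.range t)) : Ω) * w ^ i = 0 := hP
    rw [hP', zero_sub, neg_neg]
    refine Finset.sum_congr rfl fun i _ => ?_
    rw [Algebra.smul_def]
    ring
  have h5 : ‖Polynomial.aeval w (∑ i ∈ P.support, Polynomial.monomial i (d i))‖ * ‖m‖ < ‖m‖ := by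
    rw [← norm_mul, h4, norm_neg]
    refine V2_sum_lt hm0 fun i hi => ?_
    rw [norm_mul, norm_pow, hw1, one_pow, mul_one]
    exact hd i hi
  rw [h2, h3] at h1
  nlinarith

end Pool.Agent.Work.MP_ffcd14_ag.Tr
end

-- merged part: Pool.Agent.Work.MP_ffcd14_ag.Tr.V3
section
/-!
# Closed subfields and isometric embeddings

Plan.  `ext_cl`: the equaliser of two continuous field maps is a closed intermediate field.
`Iso.map_cl`: an isometry of a complete space is a closed embedding.  `exists_iso`: both `t` and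
`t'` are algebraically independent (`GenT.algInd`, `AlgebraicIndependent.aevalEquivField` or
`IsFractionRing.lift`), which gives an isometric map on the dense subfield `K(t)`
(`GenT.norm_congr`); extend it by continuity (`IsDenseInducing.extendRingHom`,
`IsUniformInducing`, or `UniformSpace.Completion`).  `iso_of_fd`: `ψ` is linear over the complete
field `ι.fieldRange` (for the algebra structure on `Ω'` given by `ψ`), so it is continuous
(`LinearMap.continuous_of_finiteDimensional`): `‖ψ z‖ ≤ C ‖z‖`; apply this to the powers of `z`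
and of `z⁻¹`.  `le_of_tight`: the range of `ψ` is `cl (range ζ.x)`, which is contained in the
(closed) range of `ψ'`.  `Le.fd_iff`: `ψ` is bijective and maps `cl` onto `cl`
(`Algebra.finrank_eq_of_equiv_equiv`, `Module.Finite.of_equiv_equiv`).
-/

namespace Pool.Agent.Work.MP_ffcd14_ag.Tr

open MvPolynomial Filter Topology
open scoped ENNReal

set_option linter.unusedSectionVars false

universe u

variable {K : Type u} [NontriviallyNormedField K] [IsUltrametricDist K] [CompleteSpace K]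
  [IsAlgClosed K] {Ω Ω' : Type u} [NormedField Ω] [NormedAlgebra K Ω] [NormedField Ω']
  [NormedAlgebra K Ω'] {ι ι' ι'' κ κ' : Type}

theorem subset_cl (s : Set Ω) : s ⊆ cl K s :=
  fun _ hz => subset_closure (IntermediateField.subset_adjoin K s hz)

theorem cl_le {s : Set Ω} {S : IntermediateField K Ω} (hS : IsClosed (S : Set Ω)) (h : s ⊆ S) :
    cl K s ≤ S :=
  fun _ hz => closure_minimal (IntermediateField.adjoin_le_iff.2 h) hS hz

theorem cl_le_cl {s s' : Set Ω} (h : s ⊆ cl K s') : cl K s ≤ cl K s' :=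
  cl_le (isClosed_cl K s') h

theorem Iso.isometry {ψ : Ω →ₐ[K] Ω'} (h : Iso ψ) : Isometry ψ :=
  AddMonoidHomClass.isometry_of_norm ψ h

theorem Iso.continuous {ψ : Ω →ₐ[K] Ω'} (h : Iso ψ) : Continuous ψ :=
  h.isometry.continuous

theorem Iso.comp {Ω'' : Type u} [NormedField Ω''] [NormedAlgebra K Ω''] {ψ : Ω →ₐ[K] Ω'}
    {ψ' : Ω' →ₐ[K] Ω''} (h' : Iso ψ') (h : Iso ψ) : Iso (ψ'.comp ψ) :=
  fun z => (h' _).trans (h z)

theorem iso_val (S : IntermediateField K Ω) : Iso S.val :=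
  fun _ => rfl

theorem ext_cl {ψ ψ' : Ω →ₐ[K] Ω'} (h : Continuous ψ) (h' : Continuous ψ') {s : Set Ω}
    (e : ∀ z ∈ s, ψ z = ψ' z) {z : Ω} (hz : z ∈ cl K s) : ψ z = ψ' z :=
  cl_le (S := (AlgHom.equalizer ψ ψ').toIntermediateField fun x hx => by
    rw [AlgHom.mem_equalizer] at hx ⊢
    rw [map_inv₀, map_inv₀, hx]) (isClosed_eq h h') e hz

theorem Iso.isClosed_range [CompleteSpace Ω] {ψ : Ω →ₐ[K] Ω'} (h : Iso ψ) :
    IsClosed (ψ.fieldRange : Set Ω') := by
  rw [AlgHom.coe_fieldRange]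
  exact h.isometry.isClosedEmbedding.isClosed_range

theorem V3_map_cl {ψ : Ω →ₐ[K] Ω'} (h : IsClosedEmbedding ψ) (s : Set Ω) :
    (cl K s).map ψ = cl K (ψ '' s) := by
  apply SetLike.coe_injective
  rw [IntermediateField.coe_map, coe_cl, coe_cl, ← h.closure_image_eq,
    ← IntermediateField.adjoin_map, IntermediateField.coe_map]

theorem Iso.map_cl [CompleteSpace Ω] {ψ : Ω →ₐ[K] Ω'} (h : Iso ψ) (s : Set Ω) :
    (cl K s).map ψ = cl K (ψ '' s) :=
  V3_map_cl h.isometry.isClosedEmbedding s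

theorem Iso.range_eq [CompleteSpace Ω] {ψ : Ω →ₐ[K] Ω'} (h : Iso ψ) {t : κ → Ω}
    (ht : cl K (Set.range t) = ⊤) : ψ.fieldRange = cl K (Set.range fun k => ψ (t k)) := by
  rw [AlgHom.fieldRange_eq_map, ← ht, h.map_cl, ← Set.range_comp]
  rfl

/-- The family `t` generates `cl K (range t)` topologically. -/
theorem cl_sub_top (t : κ → Ω) :
    cl K (Set.range fun k => (⟨t k, subset_cl _ ⟨k, rfl⟩⟩ : cl K (Set.range t))) = ⊤ := by
  apply IntermediateField.map_injective (cl K (Set.range t)).val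
  rw [V3_map_cl (isClosed_cl K _).isClosedEmbedding_subtypeVal, ← Set.range_comp,
    ← AlgHom.fieldRange_eq_map, IntermediateField.fieldRange_val]
  rfl

theorem exists_iso [Fintype κ] [CompleteSpace Ω'] {t : κ → Ω} (h : GenT K t)
    (ht : cl K (Set.range t) = ⊤) {t' : κ → Ω'} (e : ∀ k, ‖t' k‖ = ‖t k‖) :
    ∃ ψ : Ω →ₐ[K] Ω', Iso ψ ∧ ∀ k, ψ (t k) = t' k := by
  have h1 := h.algInd
  have h2 := algebraicIndependent_iff_injective_aeval.2 (h.congr e).algInd
  let F := IntermediateField.adjoin K (Set.range t)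
  let f : F →ₐ[K] Ω' := (IsFractionRing.liftAlgHom h2).comp h1.reprField
  have hf : ∀ a : MvPolynomial κ K, f (h1.aevalEquivField (algebraMap _ _ a)) = aeval t' a := by
    intro a
    simp [f, AlgebraicIndependent.reprField]
  have hn : ∀ x : F, ‖f x‖ = ‖x‖ := by
    intro x
    obtain ⟨y, rfl⟩ := h1.aevalEquivField.surjective x
    obtain ⟨a, b, -, rfl⟩ := IsFractionRing.div_surjective (A := MvPolynomial κ K) y
    have k : ∀ a : MvPolynomial κ K, ‖h1.aevalEquivField (algebraMap _ _ a)‖ = ‖aeval t a‖ :=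
      fun a => congrArg norm (h1.aevalEquivField_algebraMap_apply_coe a)
    rw [map_div₀, map_div₀, norm_div, norm_div, hf, hf, k, k, h.norm_congr e, h.norm_congr e]
  have ue : IsUniformInducing F.val.toRingHom := isUniformEmbedding_subtype_val.isUniformInducing
  have dr : DenseRange F.val.toRingHom := by
    intro z
    have : z ∈ cl K (Set.range t) := ht ▸ IntermediateField.mem_top
    rwa [show Set.range F.val.toRingHom = F from Subtype.range_coe]
  have uc : UniformContinuous f.toRingHom :=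
    (AddMonoidHomClass.isometry_of_norm f hn).uniformContinuous
  let g := IsDenseInducing.extendRingHom ue dr uc
  have hg : ∀ x : F, g x = f x := fun x =>
    IsDenseInducing.extend_eq (ue.isDenseInducing dr) uc.continuous x
  have gc : Continuous g := (uniformContinuous_uniformly_extend ue dr uc).continuous
  refine ⟨⟨g, fun c => (hg (algebraMap K F c)).trans (f.commutes c)⟩, fun z => ?_, fun k => ?_⟩
  · refine dr.induction_on (p := fun z => ‖g z‖ = ‖z‖) z
      (isClosed_eq gc.norm continuous_norm) fun x => ?_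
    exact (congrArg norm (hg x)).trans (hn x)
  · have := hg (h1.aevalEquivField (algebraMap _ _ (X k : MvPolynomial κ K)))
    rw [hf, h1.aevalEquivField_algebraMap_apply_coe, aeval_X, aeval_X] at this
    exact this

theorem V3_iso {ψ : Ω →ₐ[K] Ω'} (h : Continuous ψ) : Iso ψ := by
  obtain ⟨C, -, hC⟩ := SemilinearMapClass.bound_of_continuous ψ.toLinearMap h
  have k : ∀ z, z ≠ 0 → ‖ψ z‖ ≤ ‖z‖ := by
    intro z hz
    by_contra hlt
    have h0 : 0 < ‖z‖ := norm_pos_iff.2 hz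
    obtain ⟨n, hn⟩ := pow_unbounded_of_one_lt C ((one_lt_div h0).2 (not_le.1 hlt))
    have := hC (z ^ n)
    rw [AlgHom.toLinearMap_apply, map_pow, norm_pow, norm_pow] at this
    rw [div_pow, lt_div_iff₀ (pow_pos h0 n)] at hn
    exact absurd this (not_le.2 hn)
  intro z
  rcases eq_or_ne z 0 with rfl | hz
  · simp
  refine le_antisymm (k z hz) ?_
  have := k z⁻¹ (inv_ne_zero hz)
  rwa [map_inv₀, norm_inv, norm_inv, inv_le_inv₀ (norm_pos_iff.2 ((map_ne_zero ψ).2 hz))
    (norm_pos_iff.2 hz)] at this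

theorem iso_of_fd {G : Type u} [NormedField G] [NormedAlgebra K G] [CompleteSpace G]
    {j : G →ₐ[K] Ω} (hj : Iso j) [FiniteDimensional j.fieldRange Ω] {ψ : Ω →ₐ[K] Ω'}
    (h : Iso (ψ.comp j)) : Iso ψ := by
  have hc : CompleteSpace j.fieldRange := by
    apply IsComplete.completeSpace_coe
    change IsComplete (j.fieldRange : Set Ω)
    rw [AlgHom.coe_fieldRange]
    exact hj.isometry.isUniformInducing.isComplete_range
  let _ : Algebra j.fieldRange Ω' := (ψ.comp j.fieldRange.val).toRingHom.toAlgebra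
  let _ : NormedSpace j.fieldRange Ω' :=
    { norm_smul_le := by
        rintro ⟨_, g, rfl⟩ x
        change ‖ψ (j g) * x‖ ≤ ‖j g‖ * ‖x‖
        rw [norm_mul, hj g]
        exact le_of_eq (congrArg (· * ‖x‖) (h g)) }
  let l : Ω →ₗ[j.fieldRange] Ω' :=
    { toFun := ψ
      map_add' := map_add ψ
      map_smul' := fun c x => map_mul ψ (c : Ω) x }
  exact V3_iso l.continuous_of_finiteDimensional

namespace Pt

variable {ξ ξ' ζ : Pt K ι}

theorem Le.refl (ξ : Pt K ι) : ξ.Le ξ :=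
  ⟨AlgHom.id K _, fun _ => rfl, fun _ => rfl⟩

theorem Le.trans (h : ξ.Le ξ') (h' : ξ'.Le ζ) : ξ.Le ζ := by
  obtain ⟨ψ, h1, h2⟩ := h
  obtain ⟨ψ', k1, k2⟩ := h'
  exact ⟨ψ'.comp ψ, k1.comp h1, fun i => (congrArg ψ' (h2 i)).trans (k2 i)⟩

theorem Le.trop (h : ξ.Le ζ) : ξ.trop = ζ.trop := by
  obtain ⟨ψ, h1, h2⟩ := h
  funext i
  rw [Pt.trop, Pt.trop, ← h2, h1]

theorem Le.res {ξ ζ : Pt K ι'} (h : ξ.Le ζ) (f : ι → ι') : (ξ.res f).Le (ζ.res f) := by
  obtain ⟨ψ, h1, h2⟩ := h
  exact ⟨ψ, h1, fun i => h2 (f i)⟩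

theorem res_trop (ξ : Pt K ι') (f : ι → ι') : (ξ.res f).trop = ξ.trop ∘ f := rfl

theorem tight_le (ξ : Pt K ι) : ξ.tight.Le ξ :=
  ⟨(cl K (Set.range ξ.x)).val, iso_val _, fun _ => rfl⟩

theorem tight_tight (ξ : Pt K ι) : ξ.tight.Tight :=
  cl_sub_top ξ.x

theorem le_of_tight (ht : ξ.Tight) (h : ξ.Le ζ) (h' : ξ'.Le ζ) : ξ.Le ξ' := by
  obtain ⟨ψ, h1, h2⟩ := h
  obtain ⟨ψ', k1, k2⟩ := h'
  have hm : ∀ z, ψ z ∈ ψ'.range := fun z => by
    have : ψ.fieldRange ≤ ψ'.fieldRange := by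
      rw [h1.range_eq ht]
      refine cl_le k1.isClosed_range ?_
      rintro _ ⟨i, rfl⟩
      exact ⟨ξ'.x i, (k2 i).trans (h2 i).symm⟩
    exact this ⟨z, rfl⟩
  let e := AlgEquiv.ofInjectiveField ψ'
  have he : ∀ z, ψ' (e.symm ⟨ψ z, hm z⟩) = ψ z := fun z =>
    congrArg Subtype.val (e.apply_symm_apply ⟨ψ z, hm z⟩)
  refine ⟨e.symm.toAlgHom.comp (ψ.codRestrict _ hm), fun z => ?_, fun i => ?_⟩
  · exact (k1 _).symm.trans ((congrArg norm (he z)).trans (h1 z))
  · exact ψ'.injective ((he _).trans ((h2 i).trans (k2 i).symm))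

theorem map_ev {ψ : ξ.Ω →ₐ[K] ζ.Ω} (h : ∀ i, ψ (ξ.x i) = ζ.x i) (p : MvPolynomial (ι ⊕ ι) K) :
    ψ (ξ.ev p) = ζ.ev p := by
  have : ψ.comp ξ.ev = ζ.ev := MvPolynomial.algHom_ext (by rintro (i | i) <;> simp [ev, h])
  exact AlgHom.congr_fun this p

variable [Fintype ι]

theorem map_mon {ψ : ξ.Ω →ₐ[K] ζ.Ω} (h : ∀ i, ψ (ξ.x i) = ζ.x i) (α : ι → ℤ) :
    ψ (ξ.mon α) = ζ.mon α := by
  simp only [mon, map_prod, map_zpow₀, h]

theorem mon_ne (ξ : Pt K ι) (α : ι → ℤ) : ξ.mon α ≠ 0 :=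
  Finset.prod_ne_zero_iff.mpr fun i _ => zpow_ne_zero _ (ξ.ne i)

theorem mon_add (ξ : Pt K ι) (α β : ι → ℤ) : ξ.mon (α + β) = ξ.mon α * ξ.mon β := by
  simp only [mon, Pi.add_apply, zpow_add₀ (ξ.ne _), Finset.prod_mul_distrib]

theorem mon_mem (ξ : Pt K ι) (α : ι → ℤ) : ξ.mon α ∈ cl K (Set.range ξ.x) :=
  prod_mem fun i _ => zpow_mem (subset_cl (K := K) _ (Set.mem_range_self i)) _

theorem log_ch (ξ : Pt K ι) (χ : κ → ι → ℤ) (k : κ) :
    Real.log ‖ξ.ch χ k‖ = chi χ ξ.trop k := by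
  rw [ch, mon, norm_prod, Real.log_prod fun i _ => norm_ne_zero_iff.2 (zpow_ne_zero _ (ξ.ne i))]
  simp only [norm_zpow, Real.log_zpow]
  rfl

theorem chp_trop (ξ : Pt K ι) (χ : κ → ι → ℤ) : (ξ.chp χ).trop = chi χ ξ.trop :=
  funext fun k => ξ.log_ch χ k

theorem genT_ch (ξ : Pt K ι) {χ : κ → ι → ℤ} (h : Gen K (chi χ ξ.trop)) : GenT K (ξ.ch χ) :=
  ⟨fun _ => ξ.mon_ne _, by simpa only [log_ch] using h⟩

theorem norm_ch_eq (h : ξ.trop = ζ.trop) (χ : κ → ι → ℤ) (k : κ) : ‖ξ.ch χ k‖ = ‖ζ.ch χ k‖ :=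
  Real.log_injOn_pos (norm_pos_iff.2 (ξ.mon_ne _)) (norm_pos_iff.2 (ζ.mon_ne _))
    ((ξ.log_ch χ k).trans (h ▸ (ζ.log_ch χ k).symm))

theorem ch_crd [DecidableEq ι] (ξ : Pt K ι) (μ : κ → ι) (k : κ) : ξ.ch (crd μ) k = ξ.x (μ k) := by
  rw [ch, mon, crd, Finset.prod_eq_single (μ k)]
  · simp
  · intro i _ hi
    simp [hi]
  · simp

theorem exists_ev_mon (α : ι → ℤ) :
    ∃ p : MvPolynomial (ι ⊕ ι) K, ∀ ξ : Pt K ι, ξ.ev p = ξ.mon α := by
  refine ⟨∏ i, X (.inl i) ^ (α i).toNat * X (.inr i) ^ (-α i).toNat, fun ξ => ?_⟩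
  rw [map_prod, mon]
  refine Finset.prod_congr rfl fun i _ => ?_
  simp only [ev, map_mul, map_pow, aeval_X, Sum.elim_inl, Sum.elim_inr]
  rw [inv_pow, ← zpow_natCast, ← zpow_natCast, ← zpow_neg, ← zpow_add₀ (ξ.ne i), ← sub_eq_add_neg,
    Int.toNat_sub_toNat_neg]

theorem Le.fd_iff (h : ξ.Le ζ) (ht : ζ.Tight) (χ : κ → ι → ℤ) :
    (ξ.Fd χ ↔ ζ.Fd χ) ∧ ξ.dg χ = ζ.dg χ := by
  obtain ⟨ψ, h1, h2⟩ := h
  have hs : Function.Surjective ψ := fun z => by
    have : cl K (Set.range ζ.x) ≤ ψ.fieldRange := by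
      refine cl_le h1.isClosed_range ?_
      rintro _ ⟨i, rfl⟩
      exact ⟨ξ.x i, h2 i⟩
    exact this (ht ▸ IntermediateField.mem_top)
  have hm : (cl K (Set.range (ξ.ch χ))).map ψ = cl K (Set.range (ζ.ch χ)) := by
    rw [h1.map_cl, ← Set.range_comp]
    exact congrArg (fun t => cl K (Set.range t)) (funext fun k => map_mon h2 (χ k))
  let e₂ := (AlgEquiv.ofBijective ψ ⟨ψ.injective, hs⟩).toRingEquiv
  let e₁ := (((cl K (Set.range (ξ.ch χ))).equivMap ψ).trans
    (IntermediateField.equivOfEq hm)).toRingEquiv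
  have he : RingHom.comp (algebraMap (cl K (Set.range (ζ.ch χ))) ζ.Ω) e₁.toRingHom =
      RingHom.comp e₂.toRingHom (algebraMap (cl K (Set.range (ξ.ch χ))) ξ.Ω) :=
    RingHom.ext fun _ => rfl
  refine ⟨⟨fun h => ?_, fun h => ?_⟩, Algebra.finrank_eq_of_equiv_equiv e₁ e₂ he⟩
  · have : Module.Finite (cl K (Set.range (ξ.ch χ))) ξ.Ω := h
    exact Module.Finite.of_equiv_equiv e₁ e₂ he
  · have : Module.Finite (cl K (Set.range (ζ.ch χ))) ζ.Ω := h
    refine Module.Finite.of_equiv_equiv e₁.symm e₂.symm (RingHom.ext fun z => ?_)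
    obtain ⟨y, rfl⟩ := e₁.surjective z
    apply e₂.injective
    have := RingHom.congr_fun he y
    simpa using this.symm

end Pt

end Pool.Agent.Work.MP_ffcd14_ag.Tr
end

-- merged part: Pool.Agent.Work.MP_ffcd14_ag.Ry.VD
section
/-!
# Orthogonal families, residue fields

`Ort K t` says that the monomials in `t` are orthogonal.  `Cf k K` says that `k ⊆ K` is a field of
representatives of the residue field.  `RF k K Ω` is the residue field of `Ω`, as an algebra over
`k`, and `rs` is the residue map (zero outside the unit ball).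
-/

namespace Pool.Agent.Work.MP_ffcd14_ag.Ry

open MvPolynomial Filter Topology Tr
open scoped ENNReal

universe u

/-- A field of representatives. -/
class Cf (k K : Type u) [Field k] [NontriviallyNormedField K] extends Algebra k K where
  one : ∀ c : k, c ≠ 0 → ‖algebraMap c‖ = 1
  res : ∀ a : K, ‖a‖ ≤ 1 → ∃ c : k, ‖a - algebraMap c‖ < 1

section Ort

variable (K : Type u) [NontriviallyNormedField K] {Ω : Type u} [NormedField Ω] [NormedAlgebra K Ω]

/-- Each term of a polynomial in `t` is bounded by the polynomial. -/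
def Ort {κ : Type} (t : κ → Ω) : Prop :=
  (∀ k, t k ≠ 0) ∧ ∀ (c : MvPolynomial κ K) (β : κ →₀ ℕ),
    ‖aeval t (monomial β (coeff β c))‖ ≤ ‖aeval t c‖

variable {K} {ι κ : Type} [Fintype ι]

/-- The characters, translated by constants. -/
noncomputable def sh (ξ : Pt K ι) (χ : κ → ι → ℤ) (c : κ → K) (k : κ) : ξ.Ω :=
  ξ.ch χ k - algebraMap K ξ.Ω (c k)

/-- On all the points of `S` the translated characters are orthogonal with the norms `y`. -/
structure Ov (S : Set (Pt K ι)) (χ : κ → ι → ℤ) (c : κ → K) (y : κ → ℝ) : Prop where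
  ort : ∀ ξ ∈ S, Ort K (sh ξ χ c)
  nrm : ∀ ξ ∈ S, ∀ k, ‖sh ξ χ c k‖ = y k

/-- Moreover `S` is saturated, and its tight points are finite over the characters. -/
structure Nc (S : Set (Pt K ι)) (χ : κ → ι → ℤ) (c : κ → K) (y : κ → ℝ) : Prop
    extends Ov S χ c y where
  sat : ∀ ξ ζ : Pt K ι, ξ.Le ζ → (ξ ∈ S ↔ ζ ∈ S)
  fd : ∀ ξ ∈ S, ξ.Tight → ξ.Fd χ

/-- `S` is closed under limits. -/
def LimC (S : Set (Pt K ι)) : Prop :=
  ∀ (ζ : ℕ → Pt K ι) (𝒰 : Ultrafilter ℕ) (ξ : Pt K ι), (∀ n, ζ n ∈ S) → Bdd ζ → Lim ζ 𝒰 ξ → ξ ∈ S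

end Ort

section Res

/-- The unit ball. -/
noncomputable def OO (Ω : Type u) [NormedField Ω] [IsUltrametricDist Ω] : ValuationSubring Ω :=
  (NormedField.valuation (K := Ω)).valuationSubring

theorem mem_OO {Ω : Type u} [NormedField Ω] [IsUltrametricDist Ω] {z : Ω} :
    z ∈ OO Ω ↔ ‖z‖ ≤ 1 := Iff.rfl

theorem mem_max {Ω : Type u} [NormedField Ω] [IsUltrametricDist Ω] {z : OO Ω} :
    z ∈ IsLocalRing.maximalIdeal (OO Ω) ↔ ‖z.1‖ < 1 :=
  Valuation.mem_maximalIdeal_iff Ω (NormedField.valuation (K := Ω))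

set_option linter.unusedVariables false in
/-- The residue field. -/
def RF (k K Ω : Type u) [NormedField Ω] [IsUltrametricDist Ω] : Type u :=
  IsLocalRing.ResidueField (OO Ω)

variable (k K : Type u) [Field k] [NontriviallyNormedField K] [Cf k K] {Ω Ω' : Type u}
  [NormedField Ω] [NormedAlgebra K Ω] [IsUltrametricDist Ω] [NormedField Ω'] [NormedAlgebra K Ω']
  [IsUltrametricDist Ω']

noncomputable instance : Field (RF k K Ω) :=
  inferInstanceAs (Field (IsLocalRing.ResidueField (OO Ω)))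

variable (Ω) in
/-- The embedding of `k`. -/
noncomputable def ak : k →+* Ω := (algebraMap K Ω).comp (algebraMap k K)

omit [IsUltrametricDist Ω] in
theorem norm_ak {c : k} (h : c ≠ 0) : ‖ak k K Ω c‖ = 1 :=
  (norm_algebraMap' Ω _).trans (Cf.one c h)

omit [IsUltrametricDist Ω] in
theorem norm_ak_le (c : k) : ‖ak k K Ω c‖ ≤ 1 := by
  by_cases h : c = 0
  · simp [h]
  · exact (norm_ak k K h).le

variable (Ω) in
/-- The residue map on the unit ball. -/
noncomputable def rq : OO Ω →+* RF k K Ω := IsLocalRing.residue (OO Ω)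

noncomputable instance : Algebra k (RF k K Ω) :=
  ((rq k K Ω).comp ((ak k K Ω).codRestrict (OO Ω) fun c => norm_ak_le k K c)).toAlgebra

open Classical in
/-- The residue map. -/
noncomputable def rs (z : Ω) : RF k K Ω := if h : ‖z‖ ≤ 1 then rq k K Ω ⟨z, h⟩ else 0

omit [IsUltrametricDist Ω] in
/-- The value of a polynomial with coefficients in `k`. -/
noncomputable def evk {σ : Type} (v : σ → Ω) : MvPolynomial σ k →+* Ω :=
  (aeval v : MvPolynomial σ K →ₐ[K] Ω).toRingHom.comp (map (algebraMap k K))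

/-- Elements of the unit ball whose residues are algebraically independent. -/
def RInd {n : Type} (u : n → Ω) : Prop :=
  (∀ i, ‖u i‖ ≤ 1) ∧ AlgebraicIndependent k fun i => rs k K (u i)

/-- A lift of a subfield of the residue field. -/
structure Sec (L : IntermediateField k (RF k K Ω)) (σ : L →+* Ω) : Prop where
  alg : ∀ c, σ (algebraMap k L c) = ak k K Ω c
  le : ∀ y, ‖σ y‖ ≤ 1
  res : ∀ y, rs k K (σ y) = y.1

variable {k K}

omit [IsUltrametricDist Ω] in
theorem evk_apply {σ : Type} (v : σ → Ω) (f : MvPolynomial σ k) :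
    evk k K v f = aeval v (map (algebraMap k K) f) := rfl

omit [Field k] [NontriviallyNormedField K] [Cf k K] [NormedAlgebra K Ω] in
theorem rs_of {z : Ω} (h : ‖z‖ ≤ 1) : rs k K z = rq k K Ω ⟨z, h⟩ := dif_pos h

omit [Field k] [NontriviallyNormedField K] [Cf k K] [NormedAlgebra K Ω] in
theorem rs_eq_zero {z : Ω} (h : ‖z‖ ≤ 1) : rs k K z = 0 ↔ ‖z‖ < 1 := by
  rw [rs_of h]
  exact (IsLocalRing.residue_eq_zero_iff _).trans mem_max

omit [Field k] [NontriviallyNormedField K] [Cf k K] [NormedAlgebra K Ω] in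
theorem rs_ne_zero {z : Ω} (h : ‖z‖ ≤ 1) : rs k K z ≠ 0 ↔ ‖z‖ = 1 := by
  rw [Ne, rs_eq_zero h, not_lt]
  exact ⟨h.antisymm, fun e => e.ge⟩

omit [Field k] [NontriviallyNormedField K] [Cf k K] [NormedAlgebra K Ω] in
theorem rs_add {a b : Ω} (ha : ‖a‖ ≤ 1) (hb : ‖b‖ ≤ 1) :
    rs k K (a + b) = rs k K a + rs k K b := by
  rw [rs_of ha, rs_of hb, ← map_add]
  exact rs_of (add_mem (mem_OO.2 ha) (mem_OO.2 hb))

omit [Field k] [NontriviallyNormedField K] [Cf k K] [NormedAlgebra K Ω] in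
theorem rs_sub {a b : Ω} (ha : ‖a‖ ≤ 1) (hb : ‖b‖ ≤ 1) :
    rs k K (a - b) = rs k K a - rs k K b := by
  rw [rs_of ha, rs_of hb, ← map_sub]
  exact rs_of (sub_mem (mem_OO.2 ha) (mem_OO.2 hb))

omit [Field k] [NontriviallyNormedField K] [Cf k K] [NormedAlgebra K Ω] in
theorem rs_mul {a b : Ω} (ha : ‖a‖ ≤ 1) (hb : ‖b‖ ≤ 1) :
    rs k K (a * b) = rs k K a * rs k K b := by
  rw [rs_of ha, rs_of hb, ← map_mul]
  exact rs_of (mul_mem (mem_OO.2 ha) (mem_OO.2 hb))

omit [Field k] [NontriviallyNormedField K] [Cf k K] [NormedAlgebra K Ω] in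
theorem rs_one : rs k K (1 : Ω) = 1 := (rs_of norm_one.le).trans (map_one _)

omit [Field k] [NontriviallyNormedField K] [Cf k K] [NormedAlgebra K Ω] in
theorem rs_zero : rs k K (0 : Ω) = 0 := (rs_eq_zero (by simp)).2 (by simp)

omit [Field k] [NontriviallyNormedField K] [Cf k K] [NormedAlgebra K Ω] in
theorem rs_eq {a b : Ω} (ha : ‖a‖ ≤ 1) (hb : ‖b‖ ≤ 1) : rs k K a = rs k K b ↔ ‖a - b‖ < 1 := by
  rw [← sub_eq_zero, ← rs_sub ha hb]
  exact rs_eq_zero (sub_mem (mem_OO.2 ha) (mem_OO.2 hb))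

omit [Field k] [NontriviallyNormedField K] [Cf k K] [NormedAlgebra K Ω] in
theorem rs_div {a b : Ω} (ha : ‖a‖ ≤ 1) (hb : ‖b‖ = 1) :
    rs k K (a / b) = rs k K a / rs k K b := by
  have h0 : b ≠ 0 := norm_ne_zero_iff.1 (hb ▸ one_ne_zero)
  rw [eq_div_iff ((rs_ne_zero hb.le).2 hb), ← rs_mul (by rwa [norm_div, hb, div_one]) hb.le,
    div_mul_cancel₀ _ h0]

omit [Field k] [NontriviallyNormedField K] [Cf k K] [NormedAlgebra K Ω] in
theorem rs_surj (y : RF k K Ω) : ∃ z : Ω, ‖z‖ ≤ 1 ∧ rs k K z = y := by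
  obtain ⟨⟨z, hz⟩, rfl⟩ := IsLocalRing.residue_surjective (R := OO Ω) y
  exact ⟨z, hz, rs_of hz⟩

theorem rs_ak (c : k) : rs k K (ak k K Ω c) = algebraMap k (RF k K Ω) c :=
  rs_of (norm_ak_le k K c)

theorem rs_evk {σ : Type} {v : σ → Ω} (h : ∀ s, ‖v s‖ ≤ 1) (f : MvPolynomial σ k) :
    ‖evk k K v f‖ ≤ 1 ∧ rs k K (evk k K v f) = aeval (fun s => rs k K (v s)) f := by
  induction f using MvPolynomial.induction_on with
  | C c =>
    have e : evk k K v (C c) = ak k K Ω c := by simp [evk_apply, ak]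
    rw [e, rs_ak, algHom_C]
    exact ⟨norm_ak_le k K c, rfl⟩
  | add p q hp hq =>
    rw [map_add, map_add, rs_add hp.1 hq.1, hp.2, hq.2]
    exact ⟨add_mem (mem_OO.2 hp.1) (mem_OO.2 hq.1), rfl⟩
  | mul_X p s hp =>
    have e : evk k K v (X s) = v s := by simp [evk_apply]
    rw [map_mul, map_mul, e, rs_mul hp.1 (h s), hp.2, aeval_X]
    exact ⟨mul_mem (mem_OO.2 hp.1) (mem_OO.2 (h s)), rfl⟩

/-- An isometric embedding induces an embedding of the residue fields. -/
theorem exists_rmap {ψ : Ω →ₐ[K] Ω'} (h : Iso ψ) :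
    ∃ φ : RF k K Ω →ₐ[k] RF k K Ω', ∀ z, φ (rs k K z) = rs k K (ψ z) := by
  let g : OO Ω →+* OO Ω' := (ψ.toRingHom.comp (OO Ω).subtype).codRestrict (OO Ω') fun z =>
    mem_OO.2 ((h z.1).trans_le z.2)
  have hg : IsLocalHom g := ⟨fun z hz => by
    by_contra h0
    have h1 : z ∈ IsLocalRing.maximalIdeal (OO Ω) := h0
    have h2 : ‖z.1‖ < 1 := mem_max.1 h1
    have h3 : g z ∈ IsLocalRing.maximalIdeal (OO Ω') :=
      mem_max.2 ((h z.1).trans_lt h2)
    exact h3 hz⟩
  have key : ∀ z, (IsLocalRing.ResidueField.map g : RF k K Ω →+* RF k K Ω') (rs k K z) =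
      rs k K (ψ z) := fun z => by
    by_cases hz : ‖z‖ ≤ 1
    · rw [rs_of hz, rs_of ((h z).trans_le hz)]
      rfl
    · rw [rs, rs, dif_neg hz, dif_neg (by rwa [h z])]
      exact map_zero _
  refine ⟨⟨IsLocalRing.ResidueField.map g, fun c => ?_⟩, key⟩
  have e := key (ak k K Ω c)
  rw [rs_ak, show ψ (ak k K Ω c) = ak k K Ω' c from ψ.commutes _, rs_ak] at e
  exact e

end Res

end Pool.Agent.Work.MP_ffcd14_ag.Ry
end

-- merged part: Pool.Agent.Work.MP_ffcd14_ag.Tr.V4
section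
/-!
# Degrees of monomial extensions

Plan.  `relf_pow`: let `N` be the subgroup of `κ → ℤ` generated by the rows of `B`; its index is
`|det B|` (`Submodule.natAbs_det_equiv`, `LinearMap.det_toLin'`).  The monomials `t ^ β`, for `β`
in a set of representatives of the quotient, form a basis of `cl (range t)` over
`S = cl (range t ^ B)`: they are independent because the terms `c_β t ^ β` have different norms
(`GenT.log_norm` for `t ^ B`, `Gen.int`); their span is a subring, finite-dimensional over `S`,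
hence a field and closed (`Submodule.closed_of_finiteDimensional`), and it contains the `t k`.
`deg_pow`: tower law (`IntermediateField.relfinrank_mul_finrank_top`).  `dec_pow` is the case
`B = q • 1` with the representatives `κ → Fin q` (a direct proof of the spanning is short).
`cl_pow`: the image of `cl (range t)` by the Frobenius is a complete subfield containing `K`
and the `t k ^ p`.
-/

namespace Pool.Agent.Work.MP_ffcd14_ag.Tr

open MvPolynomial Filter Topology
open scoped ENNReal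

set_option linter.unusedSectionVars false

universe u

variable {K : Type u} [NontriviallyNormedField K] [IsUltrametricDist K] [CompleteSpace K]
  [IsAlgClosed K] {Ω Ω' : Type u} [NormedField Ω] [NormedAlgebra K Ω] [NormedField Ω']
  [NormedAlgebra K Ω'] {ι ι' ι'' κ κ' : Type}

variable [CompleteSpace Ω] [Fintype κ] [DecidableEq κ]

/-- A monomial with integer exponents. -/
noncomputable def V4_mon (t : κ → Ω) (β : κ → ℤ) : Ω := ∏ j, t j ^ β j

theorem V4_mon_ne {t : κ → Ω} (h : ∀ k, t k ≠ 0) (β : κ → ℤ) : V4_mon t β ≠ 0 :=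
  Finset.prod_ne_zero_iff.2 fun j _ => zpow_ne_zero _ (h j)

theorem V4_mon_add {t : κ → Ω} (h : ∀ k, t k ≠ 0) (α β : κ → ℤ) :
    V4_mon t (α + β) = V4_mon t α * V4_mon t β := by
  simp only [V4_mon, Pi.add_apply, zpow_add₀ (h _), Finset.prod_mul_distrib]

theorem V4_log {t : κ → Ω} (h : ∀ k, t k ≠ 0) (β : κ → ℤ) :
    Real.log ‖V4_mon t β‖ = ∑ j, (β j : ℝ) * Real.log ‖t j‖ := by
  rw [V4_mon, norm_prod,
    Real.log_prod fun j _ => norm_ne_zero_iff.2 (zpow_ne_zero _ (h j))]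
  simp only [norm_zpow, Real.log_zpow]

theorem V4_mon_mem {S : IntermediateField K Ω} {t : κ → Ω} (h : ∀ k, t k ∈ S) (β : κ → ℤ) :
    V4_mon t β ∈ S :=
  prod_mem fun j _ => zpow_mem (h j) _

theorem V4_zpow_sum {x : Ω} (hx : x ≠ 0) (s : Finset κ) (f : κ → ℤ) :
    x ^ (∑ k ∈ s, f k) = ∏ k ∈ s, x ^ f k := by
  induction s using Finset.induction_on with
  | empty => simp
  | insert a s ha ih => rw [Finset.sum_insert ha, Finset.prod_insert ha, zpow_add₀ hx, ih]

theorem V4_mon_vec {t : κ → Ω} (h : ∀ k, t k ≠ 0) (B : Matrix κ κ ℤ) (m : κ → ℤ) :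
    V4_mon t (Matrix.vecMul m B) = V4_mon (fun k => ∏ j, t j ^ B k j) m := by
  simp only [V4_mon, Matrix.vecMul, dotProduct, V4_zpow_sum (h _), ← Finset.prod_zpow,
    ← zpow_mul]
  rw [Finset.prod_comm]
  simp only [mul_comm]

theorem GenT.pow {t : κ → Ω} (h : GenT K t) {B : Matrix κ κ ℤ} (hB : B.det ≠ 0) :
    GenT K fun k => ∏ j, t j ^ B k j := by
  refine ⟨fun k => V4_mon_ne h.1 (B k),
    h.2.mul (Q := B.map fun x => (x : ℚ)) ?_ fun k => ?_⟩
  · rw [← Int.cast_det]
    exact Int.cast_ne_zero.2 hB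
  · have := V4_log h.1 (B k)
    rw [V4_mon] at this
    simp only [this, Matrix.map_apply, Rat.cast_intCast, sub_self, zero_mem]

theorem cl_pow_le (t : κ → Ω) (B : Matrix κ κ ℤ) :
    cl K (Set.range fun k => ∏ j, t j ^ B k j) ≤ cl K (Set.range t) := by
  refine cl_le_cl ?_
  rintro _ ⟨k, rfl⟩
  exact V4_mon_mem (S := cl K (Set.range t)) (fun j => subset_cl _ ⟨j, rfl⟩) (B k)

theorem V4_ne {t : κ → Ω} (h : GenT K t) {B : Matrix κ κ ℤ} (hB : B.det ≠ 0) {c c' : Ω}
    (hc : c ∈ cl K (Set.range fun k => ∏ j, t j ^ B k j))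
    (hc' : c' ∈ cl K (Set.range fun k => ∏ j, t j ^ B k j)) (h0 : c ≠ 0) (h0' : c' ≠ 0)
    {β β' : κ → ℤ} (e : ‖c * V4_mon t β‖ = ‖c' * V4_mon t β'‖) :
    ∃ m, β - β' = Matrix.vecMul m B := by
  obtain ⟨α, hα⟩ := (h.pow hB).log_norm hc h0
  obtain ⟨α', hα'⟩ := (h.pow hB).log_norm hc' h0'
  rw [← V4_log (h.pow hB).1, ← V4_mon_vec h.1, V4_log h.1] at hα hα'
  have e' := congrArg Real.log e
  rw [norm_mul, norm_mul,
    Real.log_mul (norm_ne_zero_iff.2 h0) (norm_ne_zero_iff.2 (V4_mon_ne h.1 _)),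
    Real.log_mul (norm_ne_zero_iff.2 h0') (norm_ne_zero_iff.2 (V4_mon_ne h.1 _)),
    V4_log h.1, V4_log h.1] at e'
  refine ⟨α' - α, sub_eq_zero.1 (h.2.int ?_)⟩
  convert sub_mem hα' hα using 1
  simp only [Matrix.sub_vecMul, Pi.sub_apply, Int.cast_sub, sub_mul, Finset.sum_sub_distrib]
  linarith

theorem V4_term_le {t : κ → Ω} (h : GenT K t) {B : Matrix κ κ ℤ} (hB : B.det ≠ 0) {A : Type}
    [Fintype A] {ρ : A → κ → ℤ} (hρ : ∀ a b m, ρ a - ρ b = Matrix.vecMul m B → a = b)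
    {c : A → Ω} (hc : ∀ a, c a ∈ cl K (Set.range fun k => ∏ j, t j ^ B k j)) (a : A) :
    ‖c a * V4_mon t (ρ a)‖ ≤ ‖∑ a, c a * V4_mon t (ρ a)‖ := by
  classical
  have : IsUltrametricDist Ω := IsUltrametricDist.of_normedAlgebra K
  by_cases ha : c a = 0
  · simp [ha]
  have hs : a ∈ Finset.univ.filter fun a => c a ≠ 0 := by simp [ha]
  rw [← Finset.sum_filter_of_ne (p := fun a => c a ≠ 0)
    (fun x _ hx h0 => hx (by rw [h0, zero_mul])),
    IsUltrametricDist.norm_sum_eq_sup'_of_pairwise_ne ⟨a, hs⟩]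
  · exact Finset.le_sup' (fun a => ‖c a * V4_mon t (ρ a)‖) hs
  · intro x hx y hy hxy e
    obtain ⟨m, hm⟩ := V4_ne h hB (hc x) (hc y) (by simpa using hx) (by simpa using hy) e
    exact hxy (hρ _ _ _ hm)

theorem V4_span {t : κ → Ω} (h : ∀ k, t k ≠ 0) (B : Matrix κ κ ℤ) {A : Type} [Fintype A]
    {ρ : A → κ → ℤ} (hρ : ∀ β, ∃ a m, β = ρ a + Matrix.vecMul m B) {z : Ω}
    (hz : z ∈ cl K (Set.range t)) :
    z ∈ Submodule.span (cl K (Set.range fun k => ∏ j, t j ^ B k j))
      (Set.range fun a => V4_mon t (ρ a)) := by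
  set S := cl K (Set.range fun k => ∏ j, t j ^ B k j) with hS
  set M := Submodule.span S (Set.range fun a => V4_mon t (ρ a)) with hM
  have hmon : ∀ β, V4_mon t β ∈ M := by
    intro β
    obtain ⟨a, m, rfl⟩ := hρ β
    rw [V4_mon_add h, V4_mon_vec h, mul_comm]
    exact M.smul_mem ⟨_, V4_mon_mem (S := S) (fun k => subset_cl _ ⟨k, rfl⟩) m⟩
      (Submodule.subset_span ⟨a, rfl⟩)
  have h1 : (1 : Ω) ∈ M := by simpa [V4_mon] using hmon 0
  have hmul : ∀ x y, x ∈ M → y ∈ M → x * y ∈ M := by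
    intro x y hx hy
    have := Submodule.mul_mem_mul hx hy
    rw [hM, Submodule.span_mul_span] at this
    refine Submodule.span_le.2 ?_ this
    rintro _ ⟨_, ⟨a, rfl⟩, _, ⟨b, rfl⟩, rfl⟩
    show _ * _ ∈ M
    rw [← V4_mon_add h]
    exact hmon _
  have hfg : M.FG := Submodule.fg_span (Set.finite_range _)
  let T : IntermediateField S Ω := (M.toSubalgebra h1 hmul).toIntermediateField fun x hx =>
    Subalgebra.inv_mem_of_algebraic (A := M.toSubalgebra h1 hmul) (x := ⟨x, hx⟩)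
      (IsIntegral.of_mem_of_fg _ hfg x hx).isAlgebraic
  have : FiniteDimensional S M := Module.Finite.of_fg hfg
  have hcl : IsClosed (M : Set Ω) := M.closed_of_finiteDimensional
  refine cl_le (S := T.restrictScalars K) hcl ?_ hz
  rintro _ ⟨k, rfl⟩
  have e : V4_mon t (Pi.single k 1) = t k := by
    rw [V4_mon, Finset.prod_eq_single k (fun j _ hj => by simp [hj]) (by simp)]
    simp
  rw [← e]
  exact hmon _

theorem V4_rank {t : κ → Ω} (h : GenT K t) {B : Matrix κ κ ℤ} (hB : B.det ≠ 0) {A : Type}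
    [Fintype A] {ρ : A → κ → ℤ} (hρ : ∀ a b m, ρ a - ρ b = Matrix.vecMul m B → a = b)
    (hρ' : ∀ β, ∃ a m, β = ρ a + Matrix.vecMul m B) :
    (cl K (Set.range fun k => ∏ j, t j ^ B k j)).relfinrank (cl K (Set.range t)) =
      Fintype.card A := by
  have hli : LinearIndependent (cl K (Set.range fun k => ∏ j, t j ^ B k j))
      fun a => V4_mon t (ρ a) := by
    rw [Fintype.linearIndependent_iff]
    intro c hc a
    have h1 := V4_term_le h hB hρ (c := fun a => (c a : Ω)) (fun a => (c a).2) a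
    have h2 : ∑ a, (c a : Ω) * V4_mon t (ρ a) = 0 := hc
    rw [h2, norm_zero, norm_le_zero_iff, mul_eq_zero] at h1
    exact Subtype.ext (h1.resolve_right (V4_mon_ne h.1 _))
  rw [IntermediateField.relfinrank_eq_finrank_of_le (cl_pow_le t B), ← finrank_span_eq_card hli]
  have e : (IntermediateField.extendScalars (cl_pow_le (K := K) t B)).toSubalgebra.toSubmodule =
      Submodule.span (cl K (Set.range fun k => ∏ j, t j ^ B k j))
        (Set.range fun a => V4_mon t (ρ a)) := by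
    apply le_antisymm
    · intro z hz
      exact V4_span h.1 B hρ' hz
    · rw [Submodule.span_le]
      rintro _ ⟨a, rfl⟩
      exact V4_mon_mem (S := cl K (Set.range t)) (fun k => subset_cl _ ⟨k, rfl⟩) _
  rw [← e]
  rfl

theorem relf_pow {t : κ → Ω} (h : GenT K t) {B : Matrix κ κ ℤ} (hB : B.det ≠ 0) :
    (cl K (Set.range fun k => ∏ j, t j ^ B k j)).relfinrank (cl K (Set.range t)) =
      B.det.natAbs := by
  let N : Submodule ℤ (κ → ℤ) := LinearMap.range (Matrix.toLin' B.transpose)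
  have hN : ∀ v, v ∈ N ↔ ∃ m, Matrix.vecMul m B = v := fun v => by
    simp only [N, LinearMap.mem_range, Matrix.toLin'_apply, Matrix.mulVec_transpose]
  have hinj : Function.Injective (Matrix.toLin' B.transpose) := by
    rw [injective_iff_map_eq_zero]
    intro v hv
    rw [Matrix.toLin'_apply, Matrix.mulVec_transpose] at hv
    exact Matrix.eq_zero_of_vecMul_eq_zero hB hv
  have hcard : B.det.natAbs = Nat.card ((κ → ℤ) ⧸ N) := by
    rw [← Submodule.natAbs_det_equiv N (LinearEquiv.ofInjective _ hinj), ← Matrix.det_transpose,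
      ← LinearMap.det_toLin']
    rfl
  have : Finite ((κ → ℤ) ⧸ N) :=
    Nat.finite_of_card_ne_zero (by rw [← hcard]; exact Int.natAbs_ne_zero.2 hB)
  let := Fintype.ofFinite ((κ → ℤ) ⧸ N)
  obtain ⟨ρ, hρ⟩ := N.mkQ_surjective.hasRightInverse
  rw [hcard, Nat.card_eq_fintype_card]
  refine V4_rank h hB (ρ := ρ) (fun a b m e => ?_) fun β => ?_
  · rw [← hρ a, ← hρ b]
    exact (Submodule.Quotient.eq N).2 ((hN _).2 ⟨m, e.symm⟩)
  · obtain ⟨m, hm⟩ := (hN _).1 ((Submodule.Quotient.eq N).1 (hρ (N.mkQ β)).symm)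
    exact ⟨N.mkQ β, m, by rw [hm, add_sub_cancel]⟩

theorem deg_pow {t : κ → Ω} (h : GenT K t) {B : Matrix κ κ ℤ} (hB : B.det ≠ 0) :
    (FiniteDimensional (cl K (Set.range fun k => ∏ j, t j ^ B k j)) Ω ↔
      FiniteDimensional (cl K (Set.range t)) Ω) ∧
    Module.finrank (cl K (Set.range fun k => ∏ j, t j ^ B k j)) Ω =
      B.det.natAbs * Module.finrank (cl K (Set.range t)) Ω := by
  have e := IntermediateField.relfinrank_mul_finrank_top (cl_pow_le (K := K) t B)
  rw [relf_pow h hB] at e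
  refine ⟨⟨fun _ => ?_, fun _ => ?_⟩, e.symm⟩
  · refine Module.finite_of_finrank_pos (Nat.pos_of_mul_pos_left (b := _) (a := B.det.natAbs) ?_)
    rw [e]
    exact Module.finrank_pos
  · refine Module.finite_of_finrank_pos ?_
    rw [← e]
    exact Nat.mul_pos (Int.natAbs_pos.2 hB) Module.finrank_pos

theorem V4_diag (t : κ → Ω) (q : ℕ) :
    (fun k => ∏ j, t j ^ (Matrix.diagonal (fun _ => (q : ℤ)) : Matrix κ κ ℤ) k j) =
      fun k => t k ^ q := by
  funext k
  rw [Finset.prod_eq_single k (fun j _ hj => by simp [Ne.symm hj]) (by simp)]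
  simp

theorem V4_det {q : ℕ} : (Matrix.diagonal (fun _ => (q : ℤ)) : Matrix κ κ ℤ).det =
    ((q ^ Fintype.card κ : ℕ) : ℤ) := by
  simp

theorem deg_npow {t : κ → Ω} (h : GenT K t) {q : ℕ} (hq : 0 < q) :
    (FiniteDimensional (cl K (Set.range fun k => t k ^ q)) Ω ↔
      FiniteDimensional (cl K (Set.range t)) Ω) ∧
    Module.finrank (cl K (Set.range fun k => t k ^ q)) Ω =
      q ^ Fintype.card κ * Module.finrank (cl K (Set.range t)) Ω := by
  have hB : (Matrix.diagonal (fun _ => (q : ℤ)) : Matrix κ κ ℤ).det ≠ 0 := by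
    rw [V4_det]
    exact Int.natCast_ne_zero.2 (pow_pos hq _).ne'
  have := deg_pow h hB
  rwa [V4_diag, V4_det, Int.natAbs_natCast] at this

theorem dec_pow {t : κ → Ω} (h : GenT K t) {q : ℕ} (hq : 0 < q) {z : Ω}
    (hz : z ∈ cl K (Set.range t)) : ∃ c : (κ → Fin q) → Ω,
      (∀ β, c β ∈ cl K (Set.range fun k => t k ^ q)) ∧ z = ∑ β, c β * ∏ k, t k ^ (β k : ℕ) ∧
        ∀ β, ‖c β * ∏ k, t k ^ (β k : ℕ)‖ ≤ ‖z‖ := by
  have hB : (Matrix.diagonal (fun _ => (q : ℤ)) : Matrix κ κ ℤ).det ≠ 0 := by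
    rw [V4_det]
    exact Int.natCast_ne_zero.2 (pow_pos hq _).ne'
  have hq' : (0 : ℤ) < q := Int.natCast_pos.2 hq
  let ρ : (κ → Fin q) → κ → ℤ := fun β k => ((β k : ℕ) : ℤ)
  have h1 : ∀ a b m, ρ a - ρ b = Matrix.vecMul m (Matrix.diagonal fun _ => (q : ℤ)) → a = b := by
    intro a b m e
    funext k
    have e1 := congrFun e k
    rw [Matrix.vecMul_diagonal] at e1
    simp only [ρ, Pi.sub_apply] at e1
    have ha := (a k).2
    have hb := (b k).2
    have hm : m k = 0 := by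
      rcases lt_trichotomy (m k) 0 with h2 | h2 | h2
      · nlinarith
      · exact h2
      · nlinarith
    rw [hm, zero_mul] at e1
    exact Fin.ext (by omega)
  have h2 : ∀ β, ∃ a m, β = ρ a + Matrix.vecMul m (Matrix.diagonal fun _ => (q : ℤ)) := by
    intro β
    refine ⟨fun k => ⟨(β k % q).toNat, ?_⟩, fun k => β k / q, funext fun k => ?_⟩
    · have := Int.emod_lt_of_pos (β k) hq'
      have := Int.emod_nonneg (β k) hq'.ne'
      omega
    · rw [Pi.add_apply, Matrix.vecMul_diagonal]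
      simp only [ρ]
      rw [Int.toNat_of_nonneg (Int.emod_nonneg (β k) hq'.ne'), Int.emod_add_ediv_mul]
  have e : ∀ β, V4_mon t (ρ β) = ∏ k, t k ^ (β k : ℕ) := fun β => by
    simp only [V4_mon, ρ, zpow_natCast]
  obtain ⟨c, hc⟩ := (Submodule.mem_span_range_iff_exists_fun _).1 (V4_span (K := K) h.1 _ h2 hz)
  have hc' : ∑ a, (c a : Ω) * V4_mon t (ρ a) = z := hc
  refine ⟨fun β => c β, fun β => ?_, ?_, fun β => ?_⟩
  · rw [← V4_diag]
    exact (c β).2
  · rw [← hc']
    simp only [e]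
  · rw [← hc', ← e]
    exact V4_term_le h hB h1 (c := fun a => (c a : Ω)) (fun a => (c a).2) β

theorem cl_pow (p : ℕ) [Fact p.Prime] [CharP K p] (t : κ → Ω) {z : Ω}
    (hz : z ∈ cl K (Set.range fun k => t k ^ p)) : ∃ w ∈ cl K (Set.range t), z = w ^ p := by
  have : CharP Ω p := charP_of_injective_algebraMap (algebraMap K Ω).injective p
  have hp : 0 < p := (Fact.out : p.Prime).pos
  let T : IntermediateField K Ω :=
    ((cl K (Set.range t)).toSubfield.map (frobenius Ω p)).toIntermediateField fun c => by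
      obtain ⟨d, rfl⟩ := IsAlgClosed.exists_pow_nat_eq c hp
      exact ⟨algebraMap K Ω d, (cl K (Set.range t)).algebraMap_mem d, by
        rw [frobenius_def, map_pow]⟩
  have hu : IsUniformInducing (frobenius Ω p) := by
    refine Metric.isUniformInducing_iff.2
      ⟨uniformContinuous_addMonoidHom_of_continuous (continuous_pow p), fun δ hδ =>
        ⟨δ ^ p, pow_pos hδ p, fun {a b} e => ?_⟩⟩
    rw [dist_eq_norm, ← map_sub, frobenius_def, norm_pow] at e
    rw [dist_eq_norm]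
    exact lt_of_pow_lt_pow_left₀ p hδ.le e
  have hT : IsClosed (T : Set Ω) :=
    ((isComplete_image_iff hu).2 (isClosed_cl K (Set.range t)).isComplete).isClosed
  obtain ⟨w, hw, e⟩ := cl_le (S := T) hT (by
    rintro _ ⟨k, rfl⟩
    exact ⟨t k, subset_cl _ ⟨k, rfl⟩, rfl⟩) hz
  exact ⟨w, hw, e.symm⟩

end Pool.Agent.Work.MP_ffcd14_ag.Tr
end

-- merged part: Pool.Agent.Work.MP_ffcd14_ag.Tr.V5
section
/-!
# The degree over a monomial subfield only depends on the absolute values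

Plan.  `deg_pert_le`: let `b` be a basis of `Ω` over `G = cl (range t)`; there is `C` with
`‖c i‖ ‖b j‖ ≤ C ‖∑ c i • b i‖` (the coordinates are continuous,
`LinearMap.continuous_of_finiteDimensional`).  Let `ρ < 1` with `‖t' - t‖ ≤ ρ ‖t‖` and `q = p ^ m`
with `ρ ^ q C ≤ 1 / 2`.  In characteristic `p`, `‖t' ^ q - t ^ q‖ ≤ ρ ^ q ‖t ^ q‖`.  By `dec_pow`
and `GenT.pert` (for `t ^ q`), each `z` is within `‖z‖ / 2` of the span `U` of the `t ^ β b i` over
`cl (range t' ^ q)`.  `U` is closed, and dense by iteration, so it is everything.  Hence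
`[Ω : cl t' ^ q] ≤ q ^ n [Ω : G]`; conclude by `deg_npow`.  `deg_pert`: symmetry.
`deg_chg`: write `Q = B / N`; `u = t' ^ N` and `s = t ^ B` have the same norms up to `K`, so that
`GenT.resid` (over `cl s`, `deg_pow`) gives `‖u k - c k • s k‖ < ‖u k‖`; `cl (c • s) = cl s`;
`deg_pert`, `deg_npow`.  `fd_of_dense`: take `t' k ∈ F` close to `t k`; the span over `cl t'` of a
basis of `F` over `K(t')` is closed and contains `F`; then `deg_pert`.
-/

namespace Pool.Agent.Work.MP_ffcd14_ag.Tr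

open MvPolynomial Filter Topology
open scoped ENNReal

set_option linter.unusedSectionVars false

universe u

variable {K : Type u} [NontriviallyNormedField K] [IsUltrametricDist K] [CompleteSpace K]
  [IsAlgClosed K] {Ω Ω' : Type u} [NormedField Ω] [NormedAlgebra K Ω] [NormedField Ω']
  [NormedAlgebra K Ω'] {ι ι' ι'' κ κ' : Type}

variable [CompleteSpace Ω] [Fintype κ] [DecidableEq κ] (p : ℕ) [Fact p.Prime] [CharP K p]

theorem V5_closed (s : Set Ω) {A : Type} [Fintype A] (v : A → Ω) :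
    IsClosed (Submodule.span (cl K s) (Set.range v) : Set Ω) := by
  have : FiniteDimensional (cl K s) (Submodule.span (cl K s) (Set.range v)) :=
    FiniteDimensional.span_of_finite _ (Set.finite_range v)
  exact Submodule.closed_of_finiteDimensional _

theorem V5_fd (s : Set Ω) {A : Type} [Fintype A] {v : A → Ω}
    (h : Submodule.span (cl K s) (Set.range v) = ⊤) : FiniteDimensional (cl K s) Ω := by
  rw [FiniteDimensional, Module.finite_def, ← h]
  exact Submodule.fg_span (Set.finite_range v)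

theorem V5_span (s : Set Ω) {A : Type} [Fintype A] {v : A → Ω}
    (h : ∀ z, ∃ u ∈ Submodule.span (cl K s) (Set.range v), ‖z - u‖ ≤ 1 / 2 * ‖z‖) :
    Submodule.span (cl K s) (Set.range v) = ⊤ := by
  by_contra hn
  have h1 : ∃ x, x ∉ Submodule.span (cl K s) (Set.range v) := by
    by_contra h2
    exact hn (Submodule.eq_top_iff'.2 fun x => by_contra fun hx => h2 ⟨x, hx⟩)
  obtain ⟨x, hx, hr⟩ := riesz_lemma (𝕜 := cl K s) (F := Submodule.span (cl K s) (Set.range v))
    (V5_closed (K := K) s v) h1 (r := 3 / 4) (by norm_num)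
  obtain ⟨u, hu, hle⟩ := h x
  have h3 := hr u hu
  have h4 : x = 0 := norm_le_zero_iff.1 (by linarith)
  exact hx (h4 ▸ Submodule.zero_mem _)

theorem V5_npow {t : κ → Ω} (h : GenT K t) {q : ℕ} (hq : 0 < q) : GenT K fun k => t k ^ q := by
  refine ⟨fun k => pow_ne_zero _ (h.1 k), gen_iff.2 fun m hm => ?_⟩
  have h1 := gen_iff.1 h.2 (fun k => m k * q) (by
    convert hm using 2 with k
    rw [norm_pow, Real.log_pow]
    push_cast
    ring)
  funext k
  have h2 : m k * q = 0 := congrFun h1 k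
  exact (mul_eq_zero.1 h2).resolve_right (Nat.cast_ne_zero.2 hq.ne')

theorem V5_coord (s : Set Ω) [FiniteDimensional (cl K s) Ω] {A : Type} [Fintype A]
    (b : Module.Basis A (cl K s) Ω) :
    ∃ C : ℝ, 0 < C ∧ ∀ z i, ‖(b.repr z i : Ω)‖ * ‖b i‖ ≤ C * ‖z‖ := by
  have h0 : ∀ i, 0 ≤ ‖LinearMap.toContinuousLinearMap (b.coord i)‖ * ‖b i‖ := fun i =>
    mul_nonneg (norm_nonneg _) (norm_nonneg _)
  refine ⟨∑ i, ‖LinearMap.toContinuousLinearMap (b.coord i)‖ * ‖b i‖ + 1,
    add_pos_of_nonneg_of_pos (Finset.sum_nonneg fun i _ => h0 i) one_pos, fun z i => ?_⟩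
  have h1 : ‖(b.repr z i : Ω)‖ ≤ ‖LinearMap.toContinuousLinearMap (b.coord i)‖ * ‖z‖ :=
    (LinearMap.toContinuousLinearMap (b.coord i)).le_opNorm z
  have h2 := Finset.single_le_sum (fun i _ => h0 i) (Finset.mem_univ i)
  calc ‖(b.repr z i : Ω)‖ * ‖b i‖
      ≤ ‖LinearMap.toContinuousLinearMap (b.coord i)‖ * ‖z‖ * ‖b i‖ :=
        mul_le_mul_of_nonneg_right h1 (norm_nonneg _)
    _ = ‖LinearMap.toContinuousLinearMap (b.coord i)‖ * ‖b i‖ * ‖z‖ := by ring
    _ ≤ _ := mul_le_mul_of_nonneg_right (by linarith) (norm_nonneg _)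

theorem V5_rho {t t' : κ → Ω} (e : ∀ k, ‖t' k - t k‖ < ‖t k‖) :
    ∃ ρ : ℝ, 0 < ρ ∧ ρ < 1 ∧ ∀ k, ‖t' k - t k‖ ≤ ρ * ‖t k‖ := by
  have h1 : ∀ᶠ ρ in 𝓝 (1 : ℝ), ∀ k, ‖t' k - t k‖ < ρ * ‖t k‖ := eventually_all.2 fun k =>
    continuousAt_const.eventually_lt (continuous_id.mul continuous_const).continuousAt
      (by simpa using e k)
  have h2 : ∀ᶠ ρ in 𝓝[<] (1 : ℝ), ρ < 1 := self_mem_nhdsWithin
  obtain ⟨ρ, ⟨h3, h4⟩, h5⟩ :=
    (((h1.and (lt_mem_nhds zero_lt_one)).filter_mono nhdsWithin_le_nhds).and h2).exists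
  exact ⟨ρ, h4, h5, fun k => (h3 k).le⟩

include p

theorem deg_pert_le {t t' : κ → Ω} (h : GenT K t) (e : ∀ k, ‖t' k - t k‖ < ‖t k‖)
    [FiniteDimensional (cl K (Set.range t)) Ω] : FiniteDimensional (cl K (Set.range t')) Ω ∧
      Module.finrank (cl K (Set.range t')) Ω ≤ Module.finrank (cl K (Set.range t)) Ω := by
  have hU : IsUltrametricDist Ω := IsUltrametricDist.of_normedAlgebra K
  have hP : CharP Ω p := charP_of_injective_algebraMap (algebraMap K Ω).injective p
  have hp : 1 < p := (Fact.out : p.Prime).one_lt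
  obtain ⟨b⟩ : Nonempty (Module.Basis (Fin (Module.finrank (cl K (Set.range t)) Ω))
      (cl K (Set.range t)) Ω) :=
    ⟨@Module.finBasis _ _ _ _ _ (Module.Free.of_divisionRing _ _) _ _⟩
  obtain ⟨C, hC, hb⟩ := V5_coord _ b
  obtain ⟨ρ, h0, h1, hρ⟩ := V5_rho e
  obtain ⟨m, hm⟩ := exists_pow_lt_of_lt_one (show 0 < 1 / 2 / C by positivity) h1
  have hq : 0 < p ^ m := pow_pos (by omega) m
  have hρq : ρ ^ p ^ m * C ≤ 1 / 2 := by
    rw [← le_div_iff₀ hC]
    exact (pow_le_pow_of_le_one h0.le h1.le (Nat.lt_pow_self hp).le).trans hm.le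
  have e' : ∀ k, ‖t' k ^ p ^ m - t k ^ p ^ m‖ ≤ ρ ^ p ^ m * ‖t k ^ p ^ m‖ := fun k => by
    rw [← sub_pow_char_pow, norm_pow, norm_pow, ← mul_pow]
    exact pow_le_pow_left₀ (norm_nonneg _) (hρ k) _
  generalize p ^ m = q at hq hρq e'
  have hsp : Submodule.span (cl K (Set.range fun k => t' k ^ q))
      (Set.range fun a : Fin (Module.finrank (cl K (Set.range t)) Ω) × (κ → Fin q) =>
        (∏ k, t k ^ (a.2 k : ℕ)) * b a.1) = ⊤ := by
    refine V5_span _ fun z => ?_
    choose d hd hsum hle using fun i => dec_pow h hq (b.repr z i).2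
    choose d' hd' hdd using fun i β => (V5_npow h hq).pert (pow_pos h0 q)
      (pow_lt_one₀ h0.le h1 hq.ne') e' (hd i β)
    refine ⟨∑ a : Fin (Module.finrank (cl K (Set.range t)) Ω) × (κ → Fin q),
      d' a.1 a.2 * ((∏ k, t k ^ (a.2 k : ℕ)) * b a.1), Submodule.sum_mem _ fun a _ => ?_, ?_⟩
    · exact Submodule.smul_mem _ (⟨d' a.1 a.2, hd' a.1 a.2⟩ : cl K (Set.range fun k => t' k ^ q))
        (Submodule.subset_span ⟨a, rfl⟩)
    · have hz : z = ∑ a : Fin (Module.finrank (cl K (Set.range t)) Ω) × (κ → Fin q),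
          d a.1 a.2 * ((∏ k, t k ^ (a.2 k : ℕ)) * b a.1) := by
        rw [Fintype.sum_prod_type]
        refine (b.sum_repr z).symm.trans (Finset.sum_congr rfl fun i _ => ?_)
        have h2 : b.repr z i • b i = (b.repr z i : Ω) * b i := rfl
        rw [h2, hsum i, Finset.sum_mul]
        exact Finset.sum_congr rfl fun β _ => mul_assoc _ _ _
      nth_rewrite 1 [hz]
      rw [← Finset.sum_sub_distrib]
      refine IsUltrametricDist.norm_sum_le_of_forall_le_of_nonneg (by positivity) fun a _ => ?_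
      have h3 := hle a.1 a.2
      rw [norm_mul] at h3
      rw [← sub_mul, norm_mul, norm_mul]
      calc ‖d a.1 a.2 - d' a.1 a.2‖ * (‖∏ k, t k ^ (a.2 k : ℕ)‖ * ‖b a.1‖)
          ≤ ρ ^ q * ‖d a.1 a.2‖ * (‖∏ k, t k ^ (a.2 k : ℕ)‖ * ‖b a.1‖) :=
            mul_le_mul_of_nonneg_right (hdd a.1 a.2) (by positivity)
        _ = ρ ^ q * (‖d a.1 a.2‖ * ‖∏ k, t k ^ (a.2 k : ℕ)‖ * ‖b a.1‖) := by ring
        _ ≤ ρ ^ q * (C * ‖z‖) := mul_le_mul_of_nonneg_left
            ((mul_le_mul_of_nonneg_right h3 (norm_nonneg _)).trans (hb z a.1)) (by positivity)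
        _ ≤ 1 / 2 * ‖z‖ := by
            rw [← mul_assoc]
            exact mul_le_mul_of_nonneg_right hρq (norm_nonneg _)
  obtain ⟨h4, h5⟩ := deg_npow (h.of_close e).1 hq
  refine ⟨h4.1 (V5_fd _ hsp), ?_⟩
  have h6 := finrank_le_of_span_eq_top hsp
  rw [h5, Fintype.card_prod, Fintype.card_fin, Fintype.card_fun, Fintype.card_fin,
    mul_comm] at h6
  exact Nat.le_of_mul_le_mul_right h6 (pow_pos hq _)

theorem deg_pert {t t' : κ → Ω} (h : GenT K t) (e : ∀ k, ‖t' k - t k‖ < ‖t k‖)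
    [FiniteDimensional (cl K (Set.range t)) Ω] : FiniteDimensional (cl K (Set.range t')) Ω ∧
      Module.finrank (cl K (Set.range t')) Ω = Module.finrank (cl K (Set.range t)) Ω := by
  obtain ⟨h1, h2⟩ := deg_pert_le p h e
  obtain ⟨h3, h4⟩ := h.of_close e
  refine ⟨h1, le_antisymm h2 (deg_pert_le p h3 fun k => ?_).2⟩
  rw [norm_sub_rev, h4]
  exact e k

theorem deg_chg {t t' : κ → Ω} (h : GenT K t) (h0 : ∀ k, t' k ≠ 0) {Q : Matrix κ κ ℚ}
    (hQ : Q.det ≠ 0)
    (e : ∀ k, Real.log ‖t' k‖ - ∑ j, (Q k j : ℝ) * Real.log ‖t j‖ ∈ Gam K)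
    [FiniteDimensional (cl K (Set.range t)) Ω] : FiniteDimensional (cl K (Set.range t')) Ω ∧
      (Module.finrank (cl K (Set.range t')) Ω : ℚ) =
        |Q.det| * Module.finrank (cl K (Set.range t)) Ω := by
  have hN : 0 < Q.den := Nat.pos_of_ne_zero Q.den_ne_zero
  have hB : ∀ k j, (Q.num k j : ℚ) = Q.den * Q k j := fun k j => by
    rw [← Q.num_div_den k j, mul_div_cancel₀ _ (Nat.cast_ne_zero.2 hN.ne')]
  generalize Q.den = N at hN hB
  generalize Q.num = B at hB
  have hdet : (B.det : ℚ) = (N : ℚ) ^ Fintype.card κ * Q.det := by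
    rw [← Matrix.det_smul, Int.cast_det]
    congr 1
    ext k j
    exact hB k j
  have hN' : (0 : ℚ) < (N : ℚ) ^ Fintype.card κ := pow_pos (Nat.cast_pos.2 hN) _
  have hB0 : B.det ≠ 0 := fun h1 => by
    rw [h1, Int.cast_zero] at hdet
    exact mul_ne_zero hN'.ne' hQ hdet.symm
  have hs := h.pow hB0
  obtain ⟨h1, h2⟩ := deg_pow h hB0
  have hfd := h1.2 inferInstance
  have ht' : GenT K t' := ⟨h0, h.2.mul hQ e⟩
  have hu := V5_npow ht' hN
  have hc : ∀ k, ∃ c : K, ‖c • ∏ j, t j ^ B k j - t' k ^ N‖ < ‖t' k ^ N‖ := fun k => by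
    have h3 : ∏ j, t j ^ B k j ≠ 0 := hs.1 k
    have h4 : Real.log ‖t' k ^ N / ∏ j, t j ^ B k j‖ ∈ Gam K := by
      have h5 := (Gam K).smul_mem (N : ℚ) (e k)
      convert h5 using 1
      rw [norm_div, Real.log_div (norm_ne_zero_iff.2 (hu.1 k)) (norm_ne_zero_iff.2 h3), norm_pow,
        Real.log_pow, norm_prod, Real.log_prod fun j _ =>
          norm_ne_zero_iff.2 (zpow_ne_zero _ (h.1 j)), Rat.smul_def, mul_sub, Finset.mul_sum,
        Rat.cast_natCast]
      congr 1
      refine Finset.sum_congr rfl fun j _ => ?_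
      have h6 : (B k j : ℝ) = N * (Q k j : ℝ) := by exact_mod_cast hB k j
      rw [norm_zpow, Real.log_zpow, h6, mul_assoc]
    obtain ⟨c, hc⟩ := hs.resid (div_ne_zero (hu.1 k) h3) h4
    refine ⟨c, ?_⟩
    have h7 := mul_lt_mul_of_pos_right hc (norm_pos_iff.2 h3)
    rw [← norm_mul, ← norm_mul, sub_mul, div_mul_cancel₀ _ h3, ← Algebra.smul_def,
      norm_sub_rev] at h7
    exact h7
  choose c hc using hc
  obtain ⟨h3, h4⟩ := hu.of_close hc
  have hc0 : ∀ k, c k ≠ 0 := fun k h5 => h3.1 k (by beta_reduce; rw [h5, zero_smul])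
  have hcl : cl K (Set.range fun k => c k • ∏ j, t j ^ B k j) =
      cl K (Set.range fun k => ∏ j, t j ^ B k j) := by
    refine le_antisymm (cl_le_cl ?_) (cl_le_cl ?_)
    · rintro _ ⟨k, rfl⟩
      exact (cl K (Set.range fun k => ∏ j, t j ^ B k j)).smul_mem (subset_cl _ ⟨k, rfl⟩)
    · rintro _ ⟨k, rfl⟩
      have h5 := (cl K (Set.range fun k => c k • ∏ j, t j ^ B k j)).smul_mem (x := (c k)⁻¹)
        (subset_cl _ ⟨k, rfl⟩)
      rw [inv_smul_smul₀ (hc0 k)] at h5
      exact h5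
  have hfd' : FiniteDimensional (cl K (Set.range fun k => c k • ∏ j, t j ^ B k j)) Ω := by
    rw [hcl]
    exact hfd
  obtain ⟨h5, h6⟩ := deg_pert p h3 (t' := fun k => t' k ^ N) fun k => by
    rw [norm_sub_rev, h4]
    exact hc k
  obtain ⟨h7, h8⟩ := deg_npow ht' hN
  refine ⟨h7.1 h5, ?_⟩
  rw [h8, hcl, h2] at h6
  have h9 : ((N : ℚ) ^ Fintype.card κ) * (Module.finrank (cl K (Set.range t')) Ω : ℚ) =
      |(B.det : ℚ)| * Module.finrank (cl K (Set.range t)) Ω := by
    rw [← Int.cast_abs, ← Nat.cast_natAbs]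
    exact_mod_cast h6
  rw [hdet, abs_mul, abs_of_pos hN', mul_assoc] at h9
  exact mul_left_cancel₀ hN'.ne' h9

theorem fd_of_dense {t : κ → Ω} (h : GenT K t) (F : IntermediateField K Ω)
    (hF : cl K (F : Set Ω) = ⊤) (hfg : ∀ s : κ → F, AlgebraicIndependent K s →
      FiniteDimensional (IntermediateField.adjoin K (Set.range s)) F) :
    FiniteDimensional (cl K (Set.range t)) Ω := by
  have hd : ∀ z : Ω, z ∈ closure (F : Set Ω) := fun z => by
    have h1 : z ∈ (cl K (F : Set Ω) : Set Ω) := by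
      rw [hF]
      exact IntermediateField.mem_top
    rwa [coe_cl, IntermediateField.adjoin_self] at h1
  have hs : ∀ k, ∃ s : F, ‖(s : Ω) - t k‖ < ‖t k‖ := fun k => by
    obtain ⟨s, hs, h1⟩ := Metric.mem_closure_iff.1 (hd (t k)) _ (norm_pos_iff.2 (h.1 k))
    rw [dist_comm, dist_eq_norm] at h1
    exact ⟨⟨s, hs⟩, h1⟩
  choose s hs using hs
  obtain ⟨h1, h2⟩ := h.of_close hs
  have h3 := hfg s (AlgebraicIndependent.of_comp F.val h1.algInd)
  obtain ⟨b⟩ : Nonempty (Module.Basis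
      (Fin (Module.finrank (IntermediateField.adjoin K (Set.range s)) F))
      (IntermediateField.adjoin K (Set.range s)) F) :=
    ⟨@Module.finBasis _ _ _ _ _ (Module.Free.of_divisionRing _ _) _ _⟩
  have h4 : IntermediateField.adjoin K (Set.range s) ≤
      (cl K (Set.range fun k => (s k : Ω))).comap F.val := by
    rw [IntermediateField.adjoin_le_iff]
    rintro _ ⟨k, rfl⟩
    exact subset_cl (K := K) (Set.range fun k => (s k : Ω)) ⟨k, rfl⟩
  have h5 : Submodule.span (cl K (Set.range fun k => (s k : Ω)))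
      (Set.range fun i => (b i : Ω)) = ⊤ := by
    refine Submodule.eq_top_iff'.2 fun z => ?_
    refine (V5_closed _ _).closure_subset_iff.2 (fun w hw => ?_) (hd z)
    have h6 : w = ∑ i, ((b.repr ⟨w, hw⟩ i : F) : Ω) * (b i : Ω) := by
      have h7 := congrArg F.val (b.sum_repr ⟨w, hw⟩)
      rw [map_sum] at h7
      exact h7.symm
    rw [h6]
    exact Submodule.sum_mem _ fun i _ => Submodule.smul_mem _
      (⟨_, h4 (b.repr ⟨w, hw⟩ i).2⟩ : cl K (Set.range fun k => (s k : Ω)))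
      (Submodule.subset_span ⟨i, rfl⟩)
  have h6 := V5_fd _ h5
  refine (deg_pert_le p h1 fun k => ?_).1
  rw [norm_sub_rev, h2]
  exact hs k

end Pool.Agent.Work.MP_ffcd14_ag.Tr
end

-- merged part: Pool.Agent.Work.MP_ffcd14_ag.Tr.V9
section
/-!
# Limits of points

Plan.  `exists_real`: the kernel of `ν` is a prime ideal; `ν` induces an absolute value on the
quotient and on its fraction field `F` (define it by `IsLocalization.lift`-like arguments, e.g.
with `Localization.liftOn`, `IsFractionRing.div_surjective` or `MonoidWithZeroHom`); take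
`WithAbs` and the completion (`AbsoluteValue.Completion`, `UniformSpace.Completion.instNormedField`).
`exists_lim`: for every `p` the sequence `‖(ζ n).ev p‖` is bounded, so it converges along the
ultrafilter (`isCompact_Icc.ultrafilter_le_nhds`); the limit `ν p` satisfies the hypotheses of
`exists_real`; `ν (X (inl i) * X (inr i) - 1) = 0`.  `Lim.trop`: the limit of `‖x i‖` is not zero,
`Real.continuousAt_log`.  `exists_pt`: take points of `K` whose tropicalisations tend to `y`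
(`Gam_dense`, `mem_Gam`), `Filter.hyperfilter`, uniqueness of limits.
-/

namespace Pool.Agent.Work.MP_ffcd14_ag.Tr

open MvPolynomial Filter Topology
open scoped ENNReal

set_option linter.unusedSectionVars false

universe u

variable {K : Type u} [NontriviallyNormedField K] [IsUltrametricDist K] [CompleteSpace K]
  [IsAlgClosed K] {ι ι' ι'' κ κ' : Type} [Fintype ι] [DecidableEq ι] [Fintype ι']
  [DecidableEq ι'] [Fintype ι''] [DecidableEq ι''] [Fintype κ] [DecidableEq κ] [Fintype κ']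
  [DecidableEq κ']

theorem V9_abs {R F : Type u} [CommRing R] [Field F] (φ : R →+* F) (ν : R → ℝ)
    (h0 : ∀ a, 0 ≤ ν a) (h1 : ∀ a b, ν (a * b) = ν a * ν b) (h2 : ∀ a b, ν (a + b) ≤ ν a + ν b)
    (h3 : ν 1 = 1) (hz : ∀ a, φ a = 0 ↔ ν a = 0) (hs : ∀ x, ∃ a b, φ b ≠ 0 ∧ x = φ a / φ b) :
    ∃ v : AbsoluteValue F ℝ, ∀ a, v (φ a) = ν a := by
  have le : ∀ a b, φ a = φ b → ν a ≤ ν b := fun a b h => by
    have := h2 b (a - b)
    rwa [(hz (a - b)).1 (by rw [map_sub, h, sub_self]), add_zero, add_sub_cancel] at this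
  choose p q hq hpq using hs
  have ne : ∀ {b}, φ b ≠ 0 → ν b ≠ 0 := fun h e => h ((hz _).2 e)
  let v : F → ℝ := fun x => ν (p x) / ν (q x)
  have key : ∀ a {b}, φ b ≠ 0 → v (φ a / φ b) = ν a / ν b := fun a b hb => by
    have h := hpq (φ a / φ b)
    rw [div_eq_div_iff hb (hq _), ← map_mul, ← map_mul] at h
    rw [div_eq_div_iff (ne (hq _)) (ne hb), ← h1, ← h1]
    exact (le _ _ h.symm).antisymm (le _ _ h)
  have hm : ∀ x y, φ (q x * q y) ≠ 0 := fun x y => map_mul φ _ _ ▸ mul_ne_zero (hq x) (hq y)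
  refine ⟨⟨⟨v, fun x y => ?_⟩, fun x => div_nonneg (h0 _) (h0 _), fun x => ?_, fun x y => ?_⟩,
    fun a => ?_⟩
  · have e : x * y = φ (p x * p y) / φ (q x * q y) := by
      rw [map_mul, map_mul, mul_div_mul_comm, ← hpq, ← hpq]
    rw [e, key _ (hm x y), h1, h1, mul_div_mul_comm]
  · change ν (p x) / ν (q x) = 0 ↔ _
    rw [div_eq_zero_iff, or_iff_left (ne (hq x)), ← hz, hpq x, div_eq_zero_iff, or_iff_left (hq x),
      ← hpq]
  · have e : x + y = φ (p x * q y + q x * p y) / φ (q x * q y) := by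
      rw [map_add, map_mul, map_mul, map_mul, ← div_add_div _ _ (hq x) (hq y), ← hpq, ← hpq]
    change v (x + y) ≤ ν (p x) / ν (q x) + ν (p y) / ν (q y)
    rw [e, key _ (hm x y), div_add_div _ _ (ne (hq x)) (ne (hq y)), ← h1, ← h1, ← h1]
    exact div_le_div_of_nonneg_right (h2 _ _) (h0 _)
  · have := key a (map_one φ ▸ one_ne_zero : φ 1 ≠ 0)
    rwa [map_one, div_one, h3, div_one] at this

theorem exists_real {R : Type u} [CommRing R] [Algebra K R] (ν : R → ℝ) (h0 : ∀ a, 0 ≤ ν a)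
    (h1 : ∀ a b, ν (a * b) = ν a * ν b) (h2 : ∀ a b, ν (a + b) ≤ ν a + ν b)
    (h3 : ∀ c : K, ν (algebraMap K R c) = ‖c‖) :
    ∃ (F : CF K) (φ : R →ₐ[K] F.Ω), ∀ a, ‖φ a‖ = ν a := by
  have h4 : ν 1 = 1 := by simpa using h3 1
  let P : Ideal R :=
    { carrier := {a | ν a = 0}
      add_mem' := fun {a b} (ha : ν a = 0) (hb : ν b = 0) =>
        ((h2 a b).trans_eq (by rw [ha, hb, add_zero])).antisymm (h0 _)
      zero_mem' := by simpa using h3 0
      smul_mem' := fun c a (ha : ν a = 0) => (h1 c a).trans (by rw [ha, mul_zero]) }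
  have : P.IsPrime := ⟨(Ideal.ne_top_iff_one P).2 fun e => one_ne_zero (h4.symm.trans e),
    fun {a b} e => mul_eq_zero.1 ((h1 a b).symm.trans e)⟩
  obtain ⟨v, hv⟩ := V9_abs (algebraMap R P.ResidueField) ν h0 h1 h2 h4
    (fun a => Ideal.algebraMap_residueField_eq_zero) fun x => by
      obtain ⟨⟨a⟩, ⟨b⟩, hb, rfl⟩ := IsFractionRing.div_surjective (A := R ⧸ P) x
      exact ⟨a, b, (map_ne_zero_iff _ (IsFractionRing.injective (R ⧸ P) P.ResidueField)).2
        (nonZeroDivisors.ne_zero hb), rfl⟩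
  let : NormedField P.ResidueField := v.toNormedField
  let : NormedAlgebra K P.ResidueField :=
    { norm_smul_le := fun c x => by
        change v (c • x) ≤ ‖c‖ * v x
        rw [Algebra.smul_def, map_mul, IsScalarTower.algebraMap_apply K R, hv, h3] }
  exact ⟨⟨UniformSpace.Completion P.ResidueField⟩,
    AlgHom.comp { UniformSpace.Completion.coeRingHom with commutes' := fun c => rfl }
      (IsScalarTower.toAlgHom K R P.ResidueField),
    fun a => (UniformSpace.Completion.norm_coe _).trans (hv a)⟩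

theorem ev_bdd (p : MvPolynomial (ι ⊕ ι) K) (R : ℝ) :
    ∃ C : ℝ, ∀ ξ : Pt K ι, (∀ i, |ξ.trop i| ≤ R) → ‖ξ.ev p‖ ≤ C := by
  induction p using MvPolynomial.induction_on with
  | C c => exact ⟨‖c‖, fun ξ _ => by rw [algHom_C, norm_algebraMap']⟩
  | add p q hp hq =>
    obtain ⟨C, hC⟩ := hp
    obtain ⟨D, hD⟩ := hq
    exact ⟨C + D, fun ξ h => map_add ξ.ev p q ▸ norm_add_le_of_le (hC ξ h) (hD ξ h)⟩
  | mul_X p i hp =>
    obtain ⟨C, hC⟩ := hp
    refine ⟨C * Real.exp R, fun ξ h => ?_⟩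
    rw [map_mul, norm_mul]
    refine mul_le_mul (hC ξ h) (Real.le_exp_of_log_le ?_) (norm_nonneg _)
      ((norm_nonneg _).trans (hC ξ h))
    rw [Pt.ev, aeval_X]
    rcases i with i | i
    · exact (abs_le.1 (h i)).2
    · rw [Sum.elim_inr, norm_inv, Real.log_inv]
      exact neg_le.1 (abs_le.1 (h i)).1

theorem exists_lim {ζ : ℕ → Pt K ι} (h : Bdd ζ) (𝒰 : Ultrafilter ℕ) : ∃ ξ, Lim ζ 𝒰 ξ := by
  obtain ⟨R, hR⟩ := h
  have ex : ∀ p, ∃ r, Tendsto (fun n => ‖(ζ n).ev p‖) 𝒰 (𝓝 r) := fun p => by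
    obtain ⟨C, hC⟩ := ev_bdd p R
    exact (isCompact_Icc.ultrafilter_le_nhds (𝒰.map fun n => ‖(ζ n).ev p‖) (le_principal_iff.2
      (mem_map.2 (univ_mem' fun n => ⟨norm_nonneg _, hC _ (hR n)⟩)))).imp fun _ h => h.2
  choose ν hν using ex
  obtain ⟨F, φ, hφ⟩ := exists_real (K := K) ν
    (fun a => ge_of_tendsto' (hν a) fun _ => norm_nonneg _)
    (fun a b => tendsto_nhds_unique (hν _)
      (by simpa only [map_mul, norm_mul] using (hν a).mul (hν b)))
    (fun a b => le_of_tendsto_of_tendsto' (hν _) ((hν a).add (hν b)) fun n =>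
      map_add (ζ n).ev a b ▸ norm_add_le _ _)
    fun c => tendsto_nhds_unique (hν _) (by
      simp only [AlgHom.commutes, norm_algebraMap']
      exact tendsto_const_nhds)
  have e : ∀ i, φ (X (Sum.inl i)) * φ (X (Sum.inr i)) = 1 := fun i => by
    rw [← sub_eq_zero, ← map_mul, ← map_one φ, ← map_sub, ← norm_eq_zero, hφ]
    refine tendsto_nhds_unique (hν _) (tendsto_const_nhds.congr fun n => ?_)
    simp [Pt.ev, (ζ n).ne i]
  refine ⟨⟨F, fun i => φ (X (Sum.inl i)), fun i => left_ne_zero_of_mul_eq_one (e i)⟩, fun p => ?_⟩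
  convert hν p using 2
  rw [← hφ]
  congr 2
  refine algHom_ext fun i => (aeval_X _ _).trans ?_
  rcases i with i | i
  exacts [rfl, inv_eq_of_mul_eq_one_right (e i)]

theorem Lim.trop {ζ : ℕ → Pt K ι} {𝒰 : Filter ℕ} {ξ : Pt K ι} (h : Lim ζ 𝒰 ξ) :
    Tendsto (fun n => (ζ n).trop) 𝒰 (𝓝 ξ.trop) := by
  refine tendsto_pi_nhds.2 fun i => ?_
  have h1 := h (X (Sum.inl i))
  simp only [Pt.ev, aeval_X, Sum.elim_inl] at h1
  exact h1.log (norm_ne_zero_iff.2 (ξ.ne i))

theorem exists_pt (y : ι → ℝ) : ∃ ξ : Pt K ι, ξ.trop = y := by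
  choose x h1 h2 using fun i => mem_closure_iff_seq_limit.1 (Gam_dense (K := K) (y i))
  choose a h3 h4 using fun i n => mem_Gam.1 (h1 i n)
  let ζ : ℕ → Pt K ι := fun n => ⟨⟨K⟩, fun i => a i n, fun i => h3 i n⟩
  have h5 : Tendsto (fun n => (ζ n).trop) atTop (𝓝 y) :=
    tendsto_pi_nhds.2 fun i => (h2 i).congr (h4 i)
  obtain ⟨R, hR⟩ := isBounded_iff_forall_norm_le.1 (Metric.isBounded_range_of_tendsto _ h5)
  obtain ⟨ξ, h⟩ := exists_lim (ζ := ζ)
    ⟨R, fun n i => (norm_le_pi_norm (ζ n).trop i).trans (hR _ ⟨n, rfl⟩)⟩ (hyperfilter ℕ)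
  exact ⟨ξ, tendsto_nhds_unique h.trop (h5.mono_left Nat.hyperfilter_le_atTop)⟩

theorem exists_mono (y : ι → ℝ) : ∃ ξ : Pt K ι, ξ.trop = y ∧ ξ.Tight := by
  obtain ⟨ξ, h⟩ := exists_pt (K := K) y
  exact ⟨ξ.tight, ξ.tight_le.trop.trans h, ξ.tight_tight⟩

end Pool.Agent.Work.MP_ffcd14_ag.Tr
end

-- merged part: Pool.Agent.Work.MP_ffcd14_ag.Tr.V10
section
/-!
# The multiplicity is at least the sum of the degrees

Plan.  Let `G` be the field of a tight point `τ` over `chi χ y` (`exists_mono`) and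
`j a : G → (ξ a).Ω` the isometric maps with `j a (τ.x k) = (ξ a).ch χ k` (`exists_iso`); their
ranges are the fields `cl (range ((ξ a).ch χ))` (`Iso.range_eq`).  View the `(ξ a).Ω` as normed
`G`-algebras.  The `G`-algebra map `Θ a` from `MvPolynomial (ι ⊕ ι) G` (or
`AddMonoidAlgebra G (ι → ℤ)`) to `(ξ a).Ω` is onto: its range is a finite-dimensional domain, so a
closed subfield, which contains the coordinates, and `ξ a` is tight.  The kernels are maximal and
different: otherwise we get an isomorphism of `G`-algebras which respects the coordinates, it is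
isometric (`iso_of_fd`), against `ineq`.  By the Chinese remainder theorem
(`Ideal.pi_quotient_surjective`, `Ideal.quotientInfToPiQuotient_surj`) the map to `∀ a, (ξ a).Ω` is
onto, so the monomials span this space of dimension `∑ dg`; extract a basis
(`exists_linearIndependent`, `Module.Basis.mk`).  The coordinates in this basis are continuous
(`LinearMap.continuous_of_finiteDimensional`), which gives `N`; the sup norm is attained at some
`a` (if the dimension is not zero).  Reindex `A` by `Fin m`.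
-/

namespace Pool.Agent.Work.MP_ffcd14_ag.Tr

open MvPolynomial Filter Topology
open scoped ENNReal

set_option linter.unusedSectionVars false

universe u

variable {K : Type u} [NontriviallyNormedField K] [IsUltrametricDist K] [CompleteSpace K]
  [IsAlgClosed K] {ι ι' ι'' κ κ' : Type} [Fintype ι] [DecidableEq ι] [Fintype ι']
  [DecidableEq ι'] [Fintype ι''] [DecidableEq ι''] [Fintype κ] [DecidableEq κ] [Fintype κ']
  [DecidableEq κ']

/-- The Chinese remainder theorem for a subalgebra of a product of fields. -/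
theorem V10_crt {G : Type u} [Field G] {A : Type} [Fintype A] {L : A → Type u} [∀ a, Field (L a)]
    [∀ a, Algebra G (L a)] (W : Subalgebra G (∀ a, L a)) (hs : ∀ a (z : L a), ∃ w ∈ W, w a = z)
    (hne : ∀ a b (ψ : L a →ₐ[G] L b), (∀ w ∈ W, ψ (w a) = w b) → a = b) (v : ∀ a, L a) :
    v ∈ W := by
  classical
  let π : ∀ a, W →ₐ[G] L a := fun a => (Pi.evalAlgHom G L a).comp W.val
  have sj : ∀ a, Function.Surjective (π a) := fun a z => by
    obtain ⟨w, hw, e⟩ := hs a z
    exact ⟨⟨w, hw⟩, e⟩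
  have k : ∀ a b, b ≠ a → ∃ w ∈ W, w b = 0 ∧ w a ≠ 0 := fun a b hb => by
    by_contra hc
    push Not at hc
    exact hb (hne b a (AlgHom.liftOfSurjective (π b) (sj b) (π a) fun w hw => hc w w.2 hw)
      fun w hw => AlgHom.liftOfSurjective_apply (π b) (sj b) (π a) _ ⟨w, hw⟩)
  choose! w hw h0 h1 using k
  rw [← Finset.univ_sum_single v]
  refine W.sum_mem fun a _ => ?_
  have e1 : (∏ b ∈ Finset.univ.erase a, w a b) a ≠ 0 := by
    rw [Finset.prod_apply]
    exact Finset.prod_ne_zero_iff.2 fun b hb => h1 a b (Finset.ne_of_mem_erase hb)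
  obtain ⟨u, hu, e⟩ := hs a (v a / (∏ b ∈ Finset.univ.erase a, w a b) a)
  convert W.mul_mem hu (W.prod_mem (t := Finset.univ.erase a) (f := w a)
    fun b hb => hw a b (Finset.ne_of_mem_erase hb)) using 1
  funext b
  rw [Pi.mul_apply]
  obtain rfl | hb := eq_or_ne b a
  · rw [Pi.single_eq_same, e, div_mul_cancel₀ _ e1]
  · rw [Pi.single_eq_of_ne hb, Finset.prod_apply,
      Finset.prod_eq_zero (Finset.mem_erase.2 ⟨hb, Finset.mem_univ b⟩) (h0 a b hb), mul_zero]

/-- A basis is uniformly independent. -/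
theorem V10_basis {G : Type u} [NontriviallyNormedField G] [CompleteSpace G] {A : Type} [Fintype A]
    {L : A → Type u} [∀ a, NormedField (L a)] [∀ a, NormedAlgebra G (L a)]
    [∀ a, FiniteDimensional G (L a)] {M : Type} (x : M → ∀ a, L a)
    (hx : ∀ v, v ∈ Submodule.span G (Set.range x)) {k : ℕ}
    (hk : k = ∑ a, Module.finrank G (L a)) : ∃ (N : ℕ) (α : Fin k → M),
      ∀ (c : Fin k → G) (i : Fin k), ∃ a, ‖c i‖ ≤ N * ‖∑ j, c j • x (α j) a‖ := by
  obtain ⟨B, β, -, hsp, hli⟩ := exists_linearIndependent' G x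
  let b₀ := Module.Basis.mk hli (hsp ▸ fun v _ => hx v)
  let _ := FiniteDimensional.fintypeBasisIndex b₀
  have hc : Fintype.card B = k := by
    rw [hk, ← Module.finrank_eq_card_basis b₀, Module.finrank_pi_fintype]
  let e := Fintype.equivFinOfCardEq hc
  let b := b₀.reindex e
  have hb : ∀ j, b j = x (β (e.symm j)) := fun j => by simp [b, b₀]
  let T : (∀ a, L a) →L[G] Fin k → G := b.equivFunL
  obtain ⟨N, hN⟩ := exists_nat_ge ‖T‖
  refine ⟨N, fun j => β (e.symm j), fun c i => ?_⟩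
  have ne : Nonempty A := by
    by_contra hA
    rw [not_nonempty_iff] at hA
    rw [Finset.univ_eq_empty, Finset.sum_empty] at hk
    exact (hk ▸ i : Fin 0).elim0
  let v : ∀ a, L a := ∑ j, c j • x (β (e.symm j))
  have hv : T v = c := by
    have : v = b.equivFun.symm c := by simp only [Module.Basis.equivFun_symm_apply, hb, v]
    rw [this]
    exact b.equivFun.apply_symm_apply c
  obtain ⟨a, ha⟩ := Finite.exists_max fun a => ‖v a‖
  refine ⟨a, (norm_le_pi_norm c i).trans ?_⟩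
  have e2 : ∑ j, c j • x (β (e.symm j)) a = v a := by simp [v, Finset.sum_apply]
  rw [e2]
  calc ‖c‖ = ‖T v‖ := by rw [hv]
    _ ≤ ‖T‖ * ‖v‖ := T.le_opNorm v
    _ ≤ N * ‖v a‖ := mul_le_mul hN ((pi_norm_le_iff_of_nonneg (norm_nonneg _)).2 ha)
      (norm_nonneg _) (Nat.cast_nonneg N)

theorem V10_mid {S : Set (Pt K ι)} {χ : κ → ι → ℤ} {A : Type} [Fintype A] {ξ : A → Pt K ι}
    (h : Fam S χ ξ) {G : Type u} [NontriviallyNormedField G] [NormedAlgebra K G] [CompleteSpace G]
    {t : κ → G} (ht : cl K (Set.range t) = ⊤) (j : ∀ a, G →ₐ[K] (ξ a).Ω) (hj : ∀ a, Iso (j a))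
    (e : ∀ a k, j a (t k) = (ξ a).ch χ k) : Ind S χ (∑ a, (ξ a).dg χ) := by
  have rg : ∀ a, (j a).fieldRange = cl K (Set.range ((ξ a).ch χ)) := fun a => by
    rw [(hj a).range_eq ht, funext (e a)]
  have fd : ∀ a, FiniteDimensional (j a).fieldRange (ξ a).Ω := fun a => by
    rw [rg]
    exact h.fd a
  let _ : ∀ a, NormedAlgebra G (ξ a).Ω := fun a =>
    { (j a).toRingHom.toAlgebra with
      norm_smul_le := fun c z => (norm_mul_le (j a c) z).trans_eq (by rw [hj a]) }
  have am : ∀ a c, algebraMap G (ξ a).Ω c = j a c := fun _ _ => rfl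
  have : ∀ a, IsScalarTower K G (ξ a).Ω := fun a =>
    .of_algebraMap_eq fun c => ((j a).commutes c).symm
  have : ∀ a, FiniteDimensional G (ξ a).Ω := fun a =>
    Module.Finite.of_equiv_equiv (j a).equivFieldRange.symm.toRingEquiv (RingEquiv.refl _)
      (RingHom.ext fun z => congrArg Subtype.val ((j a).equivFieldRange.apply_symm_apply z))
  have dg : ∀ a, (ξ a).dg χ = Module.finrank G (ξ a).Ω := fun a => by
    rw [Pt.dg, ← rg]
    exact (Algebra.finrank_eq_of_equiv_equiv (j a).equivFieldRange.toRingEquiv (RingEquiv.refl _)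
      (RingHom.ext fun z => rfl)).symm
  let x : (ι → ℤ) → ∀ a, (ξ a).Ω := fun α a => (ξ a).mon α
  have x1 : ∀ i a, x (Pi.single i 1) a = (ξ a).x i := fun i a => (ξ a).ch_crd id i
  let W : Subalgebra G (∀ a, (ξ a).Ω) := (Submodule.span G (Set.range x)).toSubalgebra
    (Submodule.subset_span ⟨0, funext fun a => by simp [x, Pt.mon]⟩) fun u v hu hv => by
      have := Submodule.mul_mem_mul hu hv
      rw [Submodule.span_mul_span] at this
      refine Submodule.span_mono ?_ this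
      rintro _ ⟨_, ⟨α, rfl⟩, _, ⟨β, rfl⟩, rfl⟩
      exact ⟨α + β, funext fun a => (ξ a).mon_add α β⟩
  have xW : ∀ α, x α ∈ W := fun α => Submodule.subset_span ⟨α, rfl⟩
  have hx : ∀ v, v ∈ W := V10_crt W (fun a z => ?_) fun a b ψ hψ => ?_
  · obtain ⟨N, α, hN⟩ := V10_basis x hx (Finset.sum_congr rfl fun a _ => dg a)
    let q := Fintype.equivFin A
    refine ⟨_, N, α, fun a => ξ (q.symm a), fun a => h.mem _, fun c i => ?_⟩
    obtain ⟨a, ha⟩ := hN (fun l => aeval t (c l)) i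
    have k : ∀ p : MvPolynomial κ K, aeval ((ξ a).ch χ) p = j a (aeval t p) := fun p => by
      rw [← funext (e a)]
      exact (DFunLike.congr_fun (comp_aeval t (j a)) p).symm
    obtain ⟨a', rfl⟩ := q.symm.surjective a
    refine ⟨a', ?_⟩
    simp only [k, hj _ _]
    exact ha
  · let F := (W.map (Pi.evalAlgHom G _ a)).toIntermediateField fun u hu =>
      Subalgebra.inv_mem_of_algebraic _ (x := ⟨u, hu⟩) (Algebra.IsAlgebraic.isAlgebraic _)
    have : cl K (Set.range (ξ a).x) ≤ F.restrictScalars K := by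
      refine cl_le (W.map (Pi.evalAlgHom G _ a)).toSubmodule.closed_of_finiteDimensional ?_
      rintro _ ⟨i, rfl⟩
      exact ⟨_, xW (Pi.single i 1), x1 i a⟩
    rw [h.tight a] at this
    exact this IntermediateField.mem_top
  · have := fd a
    refine h.ineq a b ⟨ψ.restrictScalars K, iso_of_fd (hj a) fun c => ?_, fun i => ?_⟩
    · exact (congrArg norm (ψ.commutes c)).trans (hj b c)
    · rw [← x1, ← x1]
      exact hψ _ (xW _)

theorem ind_of_fam {S : Set (Pt K ι)} {χ : κ → ι → ℤ} {y : ι → ℝ} (ho : Over S χ y) {A : Type}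
    [Fintype A] {ξ : A → Pt K ι} (h : Fam S χ ξ) : Ind S χ (∑ a, (ξ a).dg χ) := by
  cases isEmpty_or_nonempty A with
  | inl _ =>
    rw [Finset.univ_eq_empty, Finset.sum_empty]
    exact ⟨0, 0, Fin.elim0, Fin.elim0, fun a => a.elim0, fun _ i => i.elim0⟩
  | inr hA =>
    obtain ⟨a₀⟩ := hA
    have g : GenT K ((ξ a₀).ch χ) := (ξ a₀).genT_ch ((ho.trop _ (h.mem a₀)).symm ▸ ho.gen)
    have ht := cl_sub_top (K := K) ((ξ a₀).ch χ)
    choose j hj e using fun a => exists_iso (g.congr (t' := fun k => (⟨_, subset_cl _ ⟨k, rfl⟩⟩ :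
      cl K (Set.range ((ξ a₀).ch χ)))) fun _ => rfl) ht (t' := (ξ a).ch χ)
      (Pt.norm_ch_eq ((ho.trop _ (h.mem a)).trans (ho.trop _ (h.mem a₀)).symm) χ)
    exact V10_mid h ht j hj e

end Pool.Agent.Work.MP_ffcd14_ag.Tr
end

-- merged part: Pool.Agent.Work.MP_ffcd14_ag.Tr.V11
section
/-!
# Computation of the multiplicity

Plan.  `le_of_ind`: with `G`, `j a` as in `ind_of_fam`, if `k > ∑ dg` there is a nontrivial relation
`∑ c i • mon (α i) = 0` over `G` in `∀ a, (ξ a).Ω`.  Approximate the `c i` by fractions with a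
common denominator `q` (`exists_frac'`), `c i ≈ p i / q`.  For a witness `ζ b` above `ξ a`, norms
can be computed in `(ξ a).Ω` (`Pt.map_mon`), and `‖p i‖ ≤ N ‖q‖ ε C`; the norms of polynomials in
the characters do not depend on the point (`GenT.norm_congr`).  So `c i = 0`.
`exists_dom`: tighten (`Pt.tight`) and keep one point in each class (`Pt.le_of_tight` shows that
`Le` is symmetric on tight points); e.g. induction on the finite set, or a quotient.
`mlt_eq`, `mlt_le`, `mlt_chg`: combine; `deg_chg` compares the degrees of a tight point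
(`Pt.log_ch`, `Pt.genT_ch`).  `mlt_reindex`: `MvPolynomial.rename`, `aeval_rename`.
-/

namespace Pool.Agent.Work.MP_ffcd14_ag.Tr

open MvPolynomial Filter Topology
open scoped ENNReal

set_option linter.unusedSectionVars false

universe u

variable {K : Type u} [NontriviallyNormedField K] [IsUltrametricDist K] [CompleteSpace K]
  [IsAlgClosed K] {ι ι' ι'' κ κ' : Type} [Fintype ι] [DecidableEq ι] [Fintype ι']
  [DecidableEq ι'] [Fintype ι''] [DecidableEq ι''] [Fintype κ] [DecidableEq κ] [Fintype κ']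
  [DecidableEq κ']

variable {S : Set (Pt K ι)} {χ : κ → ι → ℤ} {y : ι → ℝ}

theorem Ind.mono {S' : Set (Pt K ι)} (h : S ⊆ S') {k : ℕ} (hk : Ind S χ k) : Ind S' χ k := by
  obtain ⟨m, N, α, ξ, h1, h2⟩ := hk
  exact ⟨m, N, α, ξ, fun a => h (h1 a), h2⟩

theorem Ind.le_mlt {k : ℕ} (hk : Ind S χ k) : (k : ℝ≥0∞) ≤ mlt S χ := by
  exact le_iSup₂_of_le (f := fun (k : ℕ) (_ : Ind S χ k) => (k : ℝ≥0∞)) k hk le_rfl

theorem mlt_empty : mlt (∅ : Set (Pt K ι)) χ = 0 := by
  refine le_antisymm (iSup₂_le fun k hk => ?_) zero_le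
  obtain ⟨m, N, α, ξ, h1, h2⟩ := hk
  rcases Nat.eq_zero_or_pos k with rfl | hk
  · simp
  · obtain ⟨a, -⟩ := h2 0 ⟨0, hk⟩
    exact (h1 a).elim

theorem ind_one (h : S.Nonempty) : Ind S χ 1 := by
  obtain ⟨ξ, hξ⟩ := h
  refine ⟨1, 1, 0, fun _ => ξ, fun _ => hξ, fun c i => ⟨0, ?_⟩⟩
  obtain rfl : i = 0 := Subsingleton.elim _ _
  simp [Pt.mon]

theorem mlt_ne_zero : mlt S χ ≠ 0 ↔ S.Nonempty := by
  constructor
  · intro h
    by_contra h'
    rw [Set.not_nonempty_iff_eq_empty] at h'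
    exact h (h' ▸ mlt_empty)
  · intro h e
    have := (ind_one (χ := χ) h).le_mlt
    rw [e] at this
    simp at this

theorem Ind.comp {κ κ' : Type} {χ : κ → ι → ℤ} {k : ℕ} (hk : Ind S χ k) (f : κ' → κ) :
    Ind S (χ ∘ f) k := by
  obtain ⟨m, N, α, ξ, h1, h2⟩ := hk
  refine ⟨m, N, α, ξ, h1, fun c i => ?_⟩
  obtain ⟨a, ha⟩ := h2 (fun j => rename f (c j)) i
  refine ⟨a, ?_⟩
  simp only [aeval_rename] at ha
  exact ha

theorem mlt_reindex (e : κ' ≃ κ) : mlt S (χ ∘ e) = mlt S χ := by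
  refine le_antisymm (iSup₂_le fun k hk => ?_) (iSup₂_le fun k hk => (hk.comp e).le_mlt)
  have := hk.comp e.symm
  rw [Function.comp_assoc, e.self_comp_symm, Function.comp_id] at this
  exact this.le_mlt

theorem le_of_ind (hg : Gen K (chi χ y)) {A : Type} [Fintype A] {ξ : A → Pt K ι}
    (h1 : ∀ a, (ξ a).trop = y) (h2 : ∀ a, (ξ a).Fd χ) (h3 : ∀ ζ ∈ S, ∃ a, (ξ a).Le ζ) {k : ℕ}
    (hk : Ind S χ k) : k ≤ ∑ a, (ξ a).dg χ := by
  classical
  obtain ⟨m, N, α, ζ, hζ, hk⟩ := hk
  obtain ⟨τ, hτ, ht⟩ := exists_mono (K := K) (chi χ y)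
  have hG : GenT K τ.x := ⟨τ.ne, by
    have : (fun k => Real.log ‖τ.x k‖) = chi χ y := hτ
    rwa [this]⟩
  have hj : ∀ a, ∃ j : τ.Ω →ₐ[K] (ξ a).Ω, Iso j ∧ ∀ k, j (τ.x k) = (ξ a).ch χ k := fun a => by
    refine exists_iso hG ht fun k => ?_
    refine Real.log_injOn_pos (norm_pos_iff.mpr ((ξ a).mon_ne _))
      (norm_pos_iff.mpr (τ.ne k)) ?_
    have := (ξ a).log_ch χ k
    rw [h1 a, ← hτ] at this
    exact this
  choose j hj hjx using hj
  have hr : ∀ a, (j a).fieldRange = cl K (Set.range ((ξ a).ch χ)) := fun a => by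
    rw [(hj a).range_eq ht]
    simp only [hjx]
  have hp : ∀ a (c : MvPolynomial κ K), aeval ((ξ a).ch χ) c = j a (aeval τ.x c) := fun a c => by
    rw [← AlgHom.comp_apply, comp_aeval]
    simp only [hjx]
  -- the estimate for polynomials
  have e1 : ∀ (c : Fin k → MvPolynomial κ K) (i : Fin k), ∃ a, ‖aeval τ.x (c i)‖ ≤
      N * ‖∑ l, j a (aeval τ.x (c l)) * (ξ a).mon (α l)‖ := fun c i => by
    obtain ⟨b, hb⟩ := hk c i
    obtain ⟨a, ψ, hψ, hx⟩ := h3 _ (hζ b)
    refine ⟨a, ?_⟩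
    have hc : ∀ c : MvPolynomial κ K, aeval ((ζ b).ch χ) c = ψ (aeval ((ξ a).ch χ) c) := fun c => by
      rw [← AlgHom.comp_apply, comp_aeval]
      simp only [Pt.ch, Pt.map_mon hx]
      rfl
    simp only [hc, ← Pt.map_mon hx, ← map_mul, ← map_sum, hψ _, hp, hj a _] at hb
    exact hb
  -- the estimate for all elements of `τ.Ω`
  have e2 : ∀ (i : Fin k) (g : Fin k → τ.Ω),
      ‖g i‖ ≤ N * ∑ a, ‖∑ l, j a (g l) * (ξ a).mon (α l)‖ := fun i g => by
    have hd : Dense (IntermediateField.adjoin K (Set.range τ.x) : Set τ.Ω) := by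
      rw [dense_iff_closure_eq, ← coe_cl, ht]
      rfl
    have hd' := dense_pi (s := fun _ : Fin k => (IntermediateField.adjoin K (Set.range τ.x) :
      Set τ.Ω)) Set.univ fun _ _ => hd
    refine hd'.induction (P := fun g : Fin k → τ.Ω =>
      ‖g i‖ ≤ N * ∑ a, ‖∑ l, j a (g l) * (ξ a).mon (α l)‖) (fun g hg => ?_) ?_ g
    · have : ∀ l, ∃ r s : MvPolynomial κ K, aeval τ.x s ≠ 0 ∧
          g l * aeval τ.x s = aeval τ.x r := fun l => by
        obtain ⟨r, s, e⟩ := (IntermediateField.mem_adjoin_range_iff K τ.x (g l)).mp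
          (hg l trivial)
        by_cases hs : aeval τ.x s = 0
        · exact ⟨0, 1, by simp, by simp [e, hs]⟩
        · exact ⟨r, s, hs, by rw [e, div_mul_cancel₀ _ hs]⟩
      choose r s hs hrs using this
      have hq : 0 < ‖aeval τ.x (∏ l, s l)‖ := by
        rw [norm_pos_iff, map_prod]
        exact Finset.prod_ne_zero_iff.mpr fun l _ => hs l
      have hc : ∀ l, aeval τ.x (r l * ∏ l' ∈ Finset.univ.erase l, s l') =
          aeval τ.x (∏ l, s l) * g l := fun l => by
        rw [← Finset.mul_prod_erase _ s (Finset.mem_univ l), map_mul, map_mul, ← hrs]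
        ring
      obtain ⟨a, ha⟩ := e1 (fun l => r l * ∏ l' ∈ Finset.univ.erase l, s l') i
      simp only [hc, map_mul (j a), mul_assoc, ← Finset.mul_sum, norm_mul, hj a _] at ha
      rw [mul_left_comm] at ha
      refine (le_of_mul_le_mul_left ha hq).trans (mul_le_mul_of_nonneg_left ?_ N.cast_nonneg)
      exact Finset.single_le_sum (f := fun a => ‖∑ l, j a (g l) * (ξ a).mon (α l)‖)
        (fun _ _ => norm_nonneg _) (Finset.mem_univ a)
    · refine isClosed_le (by fun_prop) ?_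
      have := fun a => (hj a).continuous
      fun_prop
  let _ : ∀ a, Algebra τ.Ω (ξ a).Ω := fun a => (j a : τ.Ω →+* (ξ a).Ω).toAlgebra
  have hf : ∀ a, Module.Finite τ.Ω (ξ a).Ω ∧ Module.finrank τ.Ω (ξ a).Ω = (ξ a).dg χ := fun a => by
    have h2' := h2 a
    unfold Pt.Fd at h2'
    unfold Pt.dg
    rw [← hr a] at h2' ⊢
    refine ⟨Module.Finite.of_equiv_equiv (j a).equivFieldRange.toRingEquiv.symm (RingEquiv.refl _)
      ?_, Algebra.finrank_eq_of_equiv_equiv (j a).equivFieldRange.toRingEquiv (RingEquiv.refl _)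
      (by ext; rfl)⟩
    ext z
    exact congrArg Subtype.val ((j a).equivFieldRange.apply_symm_apply z)
  have := fun a => (hf a).1
  have hl : LinearIndependent τ.Ω fun (l : Fin k) (a : A) => (ξ a).mon (α l) := by
    refine Fintype.linearIndependent_iff.mpr fun g hg i => ?_
    have h0 : ∀ a, ∑ l, j a (g l) * (ξ a).mon (α l) = 0 := fun a => by
      have := congrFun hg a
      rw [Finset.sum_apply] at this
      exact this
    have := e2 i g
    simpa [h0] using this
  have := hl.fintype_card_le_finrank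
  rw [Fintype.card_fin, Module.finrank_pi_fintype] at this
  simpa only [(hf _).2] using this

theorem exists_dom (h : Nice S χ y) {B : Type} [Finite B] (ζ : B → Pt K ι) (hζ : ∀ b, ζ b ∈ S) :
    ∃ (m : ℕ) (ξ : Fin m → Pt K ι), Fam S χ ξ ∧ ∀ b, ∃ a, (ξ a).Le (ζ b) := by
  classical
  let r : Setoid B := ⟨fun b b' => (ζ b).tight.Le (ζ b').tight, fun _ => Pt.Le.refl _,
    fun h => Pt.le_of_tight (Pt.tight_tight _) (Pt.Le.refl _) h, fun h h' => h.trans h'⟩
  obtain ⟨m, ⟨e⟩⟩ := Finite.exists_equiv_fin (Quotient r)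
  have hm : ∀ b, (ζ b).tight ∈ S := fun b => (h.sat _ _ (ζ b).tight_le).mpr (hζ b)
  refine ⟨m, fun a => (ζ (e.symm a).out).tight, ⟨fun a => hm _, fun a => Pt.tight_tight _,
    fun a => h.fd _ (hm _) (Pt.tight_tight _), fun a b hab => e.symm.injective ?_⟩,
    fun b => ⟨e ⟦b⟧, ?_⟩⟩
  · exact Quotient.out_equiv_out.mp hab
  · simp only [e.symm_apply_apply]
    exact Pt.Le.trans (Quotient.mk_out (s := r) b) (ζ b).tight_le

theorem mlt_eq (ho : Over S χ y) {A : Type} [Fintype A] {ξ : A → Pt K ι} (h : Fam S χ ξ)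
    (hc : ∀ ζ ∈ S, ∃ a, (ξ a).Le ζ) : mlt S χ = (∑ a, (ξ a).dg χ : ℕ) := by
  refine le_antisymm (iSup₂_le fun k hk => ?_) (ind_of_fam ho h).le_mlt
  exact_mod_cast le_of_ind ho.gen (fun a => ho.trop _ (h.mem a)) h.fd hc hk

theorem mlt_le (h : Nice S χ y) {c : ℝ≥0∞}
    (hc : ∀ (m : ℕ) (ξ : Fin m → Pt K ι), Fam S χ ξ → ((∑ a, (ξ a).dg χ : ℕ) : ℝ≥0∞) ≤ c) :
    mlt S χ ≤ c := by
  refine iSup₂_le fun k hk => ?_
  obtain ⟨m, N, α, ζ, hζ, hk⟩ := hk
  obtain ⟨m', ξ, hξ, hd⟩ := exists_dom h ζ hζ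
  refine le_trans ?_ (hc m' ξ hξ)
  exact_mod_cast le_of_ind (S := Set.range ζ) h.gen (fun a => h.trop _ (hξ.mem a)) hξ.fd
    (by rintro _ ⟨b, rfl⟩; exact hd b) ⟨m, N, α, ζ, fun a => ⟨a, rfl⟩, hk⟩

theorem mlt_chg (p : ℕ) [Fact p.Prime] [CharP K p] (h : Nice S χ y) {χ' : κ → ι → ℤ}
    {Q : Matrix κ κ ℚ} (hQ : Q.det ≠ 0)
    (e : ∀ k, chi χ' y k - ∑ j, (Q k j : ℝ) * chi χ y j ∈ Gam K) :
    mlt S χ' = ENNReal.ofReal |(Q.det : ℝ)| * mlt S χ := by
  have hd : ∀ ξ ∈ S, ξ.Tight → ξ.Fd χ' ∧ (ξ.dg χ' : ℚ) = |Q.det| * ξ.dg χ := fun ξ hξ ht => by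
    have : FiniteDimensional (cl K (Set.range (ξ.ch χ))) ξ.Ω := h.fd ξ hξ ht
    refine deg_chg p (t' := ξ.ch χ') (ξ.genT_ch (by rw [h.trop ξ hξ]; exact h.gen))
      (fun k => ξ.mon_ne _) hQ fun k => ?_
    simp only [Pt.log_ch, h.trop ξ hξ]
    exact e k
  have h' : Nice S χ' y := ⟨⟨h.trop, h.gen.mul hQ e⟩, h.sat, fun ξ hξ ht => (hd ξ hξ ht).1⟩
  have hs : ∀ (m : ℕ) (ξ : Fin m → Pt K ι), (∀ a, ξ a ∈ S) → (∀ a, (ξ a).Tight) →
      ((∑ a, (ξ a).dg χ' : ℕ) : ℝ≥0∞) =
        ENNReal.ofReal |(Q.det : ℝ)| * (∑ a, (ξ a).dg χ : ℕ) := fun m ξ h1 h2 => by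
    rw [← ENNReal.ofReal_natCast, ← ENNReal.ofReal_natCast, ← ENNReal.ofReal_mul (abs_nonneg _)]
    congr 1
    have : ((∑ a, (ξ a).dg χ' : ℕ) : ℚ) = |Q.det| * (∑ a, (ξ a).dg χ : ℕ) := by
      push_cast
      rw [Finset.mul_sum]
      exact Finset.sum_congr rfl fun a _ => (hd _ (h1 a) (h2 a)).2
    exact_mod_cast this
  have h0 : ENNReal.ofReal |(Q.det : ℝ)| ≠ 0 := by
    simpa using hQ
  refine le_antisymm (mlt_le h' fun m ξ hξ => ?_) ?_
  · rw [hs m ξ hξ.mem hξ.tight]
    gcongr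
    exact (ind_of_fam h.toOver ⟨hξ.mem, hξ.tight, fun a => h.fd _ (hξ.mem a) (hξ.tight a),
      hξ.ineq⟩).le_mlt
  · rw [mul_comm, ← ENNReal.le_div_iff_mul_le (Or.inl h0) (Or.inl ENNReal.ofReal_ne_top)]
    refine mlt_le h fun m ξ hξ => ?_
    rw [ENNReal.le_div_iff_mul_le (Or.inl h0) (Or.inl ENNReal.ofReal_ne_top), mul_comm,
      ← hs m ξ hξ.mem hξ.tight]
    exact (ind_of_fam h'.toOver ⟨hξ.mem, hξ.tight, fun a => h'.fd _ (hξ.mem a) (hξ.tight a),
      hξ.ineq⟩).le_mlt

/-- If all monomials are, up to constants, monomials in the characters, the multiplicity is one. -/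
theorem mlt_one (ho : Over S χ y) (h0 : S.Nonempty)
    (h : ∀ i, ∃ (c : K) (β : κ → ℤ), ∀ ξ ∈ S, ξ.x i = c • ∏ k, ξ.ch χ k ^ β k) : mlt S χ = 1 := by
  refine le_antisymm (iSup₂_le fun k hk => ?_) (by simpa using (ind_one (χ := χ) h0).le_mlt)
  obtain ⟨ξ, hξ⟩ := h0
  choose c β h using h
  obtain ⟨ψ, hψ, hx⟩ := ξ.tight_le
  have htr : ξ.tight.trop = y := ξ.tight_le.trop.trans (ho.trop ξ hξ)
  have h1 : ∀ i, ξ.tight.x i = c i • ∏ k, ξ.tight.ch χ k ^ β i k := fun i => by
    refine (ψ : ξ.tight.Ω →+* ξ.Ω).injective ?_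
    simp only [RingHom.coe_coe, hx, map_smul, map_prod, map_zpow₀, Pt.ch, Pt.map_mon hx]
    exact h i ξ hξ
  have h2 : cl K (Set.range (ξ.tight.ch χ)) = ⊤ := by
    refine top_le_iff.mp (ξ.tight_tight.ge.trans (cl_le_cl ?_))
    rintro _ ⟨i, rfl⟩
    rw [h1]
    exact IntermediateField.smul_mem _
      (prod_mem fun k _ => zpow_mem (subset_cl _ (Set.mem_range_self k)) _)
  have h3 : ξ.tight.Fd χ ∧ ξ.tight.dg χ = 1 := by
    unfold Pt.Fd Pt.dg
    rw [h2]
    exact ⟨Module.finite_of_finrank_eq_succ IntermediateField.finrank_top,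
      IntermediateField.finrank_top⟩
  have := le_of_ind (A := Unit) (ξ := fun _ => ξ.tight) ho.gen (fun _ => htr) (fun _ => h3.1)
    (fun ζ hζ => ⟨(), ?_⟩) hk
  · simpa [h3.2] using this
  · obtain ⟨φ, hφ, hy⟩ := exists_iso (ξ.tight.genT_ch (χ := χ) (by rw [htr]; exact ho.gen)) h2
      (t' := ζ.ch χ) fun k => Pt.norm_ch_eq ((ho.trop ζ hζ).trans htr.symm) χ k
    refine ⟨φ, hφ, fun i => ?_⟩
    rw [h1, h i ζ hζ]
    simp only [map_smul, map_prod, map_zpow₀, hy]

end Pool.Agent.Work.MP_ffcd14_ag.Tr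
end

-- merged part: Pool.Agent.Work.MP_ffcd14_ag.Tr.V6
section
/-!
# Degree of imperfection and separability

Plan.  `PSp` and `PIn` are the spanning and independence over the subfield
`(frobenius L p).fieldRange`.  `pdeg_eq`: compute the degree of `L` over `E ^ p` in two ways,
`[L : L ^ p] [L ^ p : E ^ p] = [L : E] [E : E ^ p]`, and `[L ^ p : E ^ p] = [L : E]` by the
Frobenius isomorphism (`Algebra.finrank_eq_of_equiv_equiv`, `Subfield.relfinrank`).  `psp_adjoin`:
polynomials are combinations of the monomials `t ^ β` (divide the exponents by `p`, `K` is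
perfect), and `a / b = (b⁻¹) ^ p * (a * b ^ (p - 1))`.  `reduced_of_sep`: it is enough to show that
`z ^ p = 0` implies `z = 0` (`isReduced_iff_pow_one_lt`).  Let `l` be a basis of `F` over `E`,
`z = ∑ c i ⊗ l i`, `l i ^ p = ∑ a i j • l j`, `a i j = ∑ d i j β ^ p * b β`.  Then `z ^ p = 0`
gives `∑ i, c i * d i j β = 0` for all `j`, `β`.  Over `E` this linear system has only the trivial
solution (as `F` is reduced), so the rows `d i` are linearly independent over `E`, hence over `G`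
(`LinearIndependent.baseChange`-like: `linearIndependent_algebraMap_comp_iff`).
-/

namespace Pool.Agent.Work.MP_ffcd14_ag.Tr

open MvPolynomial Filter Topology
open scoped ENNReal

set_option linter.unusedSectionVars false

universe u

variable (p : ℕ) [Fact p.Prime] {E F L L' : Type u} [Field E] [Field F] [Field L] [Field L']
  {B B' : Type} [Fintype B] [Fintype B']

/-- `b` spans `L` over `L ^ p`. -/
def PSp (b : B → L) : Prop := ∀ z : L, ∃ c : B → L, z = ∑ β, c β ^ p * b β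

/-- `b` is independent over `L ^ p`. -/
def PIn (b : B → L) : Prop := ∀ c : B → L, ∑ β, c β ^ p * b β = 0 → ∀ β, c β = 0

theorem sep_iff (j : E →+* L) :
    Sep p j ↔ ∃ (B : Type) (_ : Fintype B) (b : B → E), PSp p b ∧ PIn p fun β => j (b β) :=
  Iff.rfl

/-- The degree over the subfield of the `p`-th powers. -/
noncomputable def pdeg (L : Type u) [Field L] [CharP L p] : ℕ :=
  Module.finrank (frobenius L p).fieldRange L

variable [CharP E p] [CharP L p] [CharP L' p]

theorem V6_psp {b : B → L} :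
    PSp p b ↔ ⊤ ≤ Submodule.span (frobenius L p).fieldRange (Set.range b) := by
  rw [Submodule.top_le_span_range_iff_forall_exists_fun]
  refine forall_congr' fun z => ⟨?_, ?_⟩
  · rintro ⟨c, rfl⟩
    exact ⟨fun β => ⟨c β ^ p, c β, rfl⟩, rfl⟩
  · rintro ⟨c, rfl⟩
    choose d hd using fun β => (c β).2
    exact ⟨d, Finset.sum_congr rfl fun β _ => congrArg (· * b β) (hd β).symm⟩

theorem V6_pin {b : B → L} : PIn p b ↔ LinearIndependent (frobenius L p).fieldRange b := by
  rw [Fintype.linearIndependent_iff]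
  refine ⟨fun h c hc β => ?_, fun h c hc β => ?_⟩
  · choose d hd using fun β => (c β).2
    have := h d (Eq.trans (Finset.sum_congr rfl fun β _ => congrArg (· * b β) (hd β)) hc) β
    exact Subtype.ext ((hd β).symm.trans (by rw [this, map_zero]; rfl))
  · exact pow_eq_zero_iff (Fact.out : p.Prime).ne_zero |>.1
      (congrArg Subtype.val (h (fun β => ⟨c β ^ p, c β, rfl⟩) hc β))

theorem PIn.of_map (j : E →+* L) {b : B → E} (h : PIn p fun β => j (b β)) : PIn p b := by
  intro c hc β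
  refine j.injective ((h (fun β => j (c β)) ?_ β).trans (map_zero j).symm)
  simpa only [map_sum, map_mul, map_pow, map_zero] using congrArg j hc

theorem pdeg_of {b : B → L} (h1 : PSp p b) (h2 : PIn p b) : pdeg p L = Fintype.card B :=
  Module.finrank_eq_card_basis (Module.Basis.mk ((V6_pin p).1 h2) ((V6_psp p).1 h1))

theorem psp_of_pin {b : B → L} (h : PIn p b) (h0 : pdeg p L ≠ 0)
    (hc : pdeg p L ≤ Fintype.card B) : PSp p b := by
  have : Module.Finite (frobenius L p).fieldRange L :=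
    Module.finite_of_finrank_pos (Nat.pos_of_ne_zero h0)
  have h' := (V6_pin p).1 h
  exact (V6_psp p).2 (h'.span_eq_top_of_card_eq_finrank'
    (le_antisymm h'.fintype_card_le_finrank hc)).ge

theorem pdeg_le_of_psp {b : B → L} (h : PSp p b) : pdeg p L ≠ 0 ∧ pdeg p L ≤ Fintype.card B := by
  have h' := top_le_iff.1 ((V6_psp p).1 h)
  have : Module.Finite (frobenius L p).fieldRange L :=
    ⟨h' ▸ Submodule.fg_span (Set.finite_range b)⟩
  exact ⟨Module.finrank_pos.ne', finrank_le_of_span_eq_top h'⟩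

theorem pin_of_psp {b : B → L} (h : PSp p b) (hc : Fintype.card B ≤ pdeg p L) : PIn p b :=
  (V6_pin p).2 (linearIndependent_of_top_le_span_of_card_eq_finrank ((V6_psp p).1 h)
    (le_antisymm hc (pdeg_le_of_psp p h).2))

theorem exists_psp (h : pdeg p L ≠ 0) : ∃ b : Fin (pdeg p L) → L, PSp p b ∧ PIn p b := by
  have : Module.Finite (frobenius L p).fieldRange L :=
    Module.finite_of_finrank_pos (Nat.pos_of_ne_zero h)
  let b := Module.finBasis (frobenius L p).fieldRange L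
  exact ⟨b, (V6_psp p).2 b.span_eq.ge, (V6_pin p).2 b.linearIndependent⟩

theorem pdeg_equiv (e : L ≃+* L') : pdeg p L = pdeg p L' := by
  refine Algebra.finrank_eq_of_equiv_equiv ((frobenius L p).rangeRestrictFieldEquiv.symm.trans
    (e.trans (frobenius L' p).rangeRestrictFieldEquiv)) e (RingHom.ext fun x => ?_)
  obtain ⟨y, rfl⟩ := (frobenius L p).rangeRestrictFieldEquiv.surjective x
  change ((frobenius L' p).rangeRestrictFieldEquiv (e ((frobenius L p).rangeRestrictFieldEquiv.symm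
    ((frobenius L p).rangeRestrictFieldEquiv y))) : L') = e (y ^ p)
  rw [RingEquiv.symm_apply_apply, map_pow]
  rfl

theorem pdeg_eq [Algebra E L] [FiniteDimensional E L] : pdeg p L = pdeg p E := by
  let _ : Algebra (frobenius E p).fieldRange (frobenius L p).fieldRange :=
    (((algebraMap E L).comp (frobenius E p).fieldRange.subtype).codRestrict _ (by
      rintro ⟨_, y, rfl⟩
      exact ⟨algebraMap E L y, (map_pow (algebraMap E L) y p).symm⟩)).toAlgebra
  have : IsScalarTower (frobenius E p).fieldRange (frobenius L p).fieldRange L :=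
    IsScalarTower.of_algebraMap_eq fun _ => rfl
  have h1 := Module.finrank_mul_finrank (frobenius E p).fieldRange E L
  have h2 := Module.finrank_mul_finrank (frobenius E p).fieldRange (frobenius L p).fieldRange L
  have h3 : Module.finrank E L =
      Module.finrank (frobenius E p).fieldRange (frobenius L p).fieldRange :=
    Algebra.finrank_eq_of_equiv_equiv (frobenius E p).rangeRestrictFieldEquiv
      (frobenius L p).rangeRestrictFieldEquiv
      (RingHom.ext fun x => Subtype.ext (map_pow (algebraMap E L) x p))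
  rw [← h3, ← h1, mul_comm] at h2
  exact Nat.eq_of_mul_eq_mul_right Module.finrank_pos h2

theorem psp_adjoin {K : Type u} [Field K] [IsAlgClosed K] [Algebra K L] {κ : Type} [Fintype κ]
    [DecidableEq κ] (t : κ → L) (h : IntermediateField.adjoin K (Set.range t) = ⊤) :
    PSp p fun β : κ → Fin p => ∏ k, t k ^ (β k : ℕ) := by
  have hp : p.Prime := Fact.out
  have : NeZero p := ⟨hp.ne_zero⟩
  rw [V6_psp]
  set S := Submodule.span (frobenius L p).fieldRange
    (Set.range fun β : κ → Fin p => ∏ k, t k ^ (β k : ℕ)) with hS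
  have pw (y : L) {s : L} (hs : s ∈ S) : y ^ p * s ∈ S :=
    S.smul_mem (⟨y ^ p, y, rfl⟩ : (frobenius L p).fieldRange) hs
  have up (β : κ → Fin p) (k : κ) (v : Fin p) :
      t k ^ (v : ℕ) * ∏ l ∈ Finset.univ.erase k, t l ^ (β l : ℕ) ∈ S := by
    refine Submodule.subset_span ⟨Function.update β k v, ?_⟩
    simp only []
    rw [← Finset.mul_prod_erase _ _ (Finset.mem_univ k), Function.update_self]
    exact congrArg _ (Finset.prod_congr rfl fun l hl => by
      rw [Function.update_of_ne (Finset.ne_of_mem_erase hl)])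
  have key (z : L) (hz : z ∈ IntermediateField.adjoin K (Set.range t)) : ∀ s ∈ S, z * s ∈ S := by
    induction hz using IntermediateField.adjoin_induction with
    | mem z hz =>
      obtain ⟨k, rfl⟩ := hz
      refine (Submodule.span_le (p := S.comap (LinearMap.mulLeft _ (t k)))).2 ?_
      rintro _ ⟨β, rfl⟩
      change t k * ∏ l, t l ^ (β l : ℕ) ∈ S
      rw [← Finset.mul_prod_erase _ _ (Finset.mem_univ k), ← mul_assoc, ← pow_succ']
      by_cases e : (β k : ℕ) + 1 < p
      · exact up β k ⟨_, e⟩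
      · have e' : (β k : ℕ) + 1 = p := by have := (β k).2; omega
        have := pw (t k) (up β k 0)
        rw [Fin.val_zero, pow_zero, one_mul] at this
        rwa [e']
    | algebraMap c =>
      obtain ⟨y, rfl⟩ := IsAlgClosed.exists_pow_nat_eq c hp.pos
      intro s hs
      rw [map_pow]
      exact pw _ hs
    | add x y _ _ hx hy =>
      intro s hs
      rw [add_mul]
      exact S.add_mem (hx s hs) (hy s hs)
    | mul x y _ _ hx hy =>
      intro s hs
      rw [mul_assoc]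
      exact hx _ (hy s hs)
    | inv x _ hx =>
      intro s hs
      have (n : ℕ) : x ^ n * s ∈ S := by
        induction n with
        | zero => rwa [pow_zero, one_mul]
        | succ n ih =>
          rw [pow_succ', mul_assoc]
          exact hx _ ih
      obtain rfl | h0 := eq_or_ne x 0
      · rw [inv_zero, zero_mul]
        exact S.zero_mem
      · have e : x⁻¹ = x⁻¹ ^ p * x ^ (p - 1) := by
          rw [← Nat.sub_add_cancel hp.one_le, Nat.add_sub_cancel, pow_succ', mul_assoc, ← mul_pow,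
            inv_mul_cancel₀ h0, one_pow, mul_one]
        rw [e, mul_assoc]
        exact pw _ (this _)
  intro z _
  simpa using key z (h ▸ IntermediateField.mem_top) 1 (Submodule.subset_span ⟨0, by simp⟩)

open TensorProduct in
theorem reduced_of_sep [Algebra E F] [FiniteDimensional E F] [Algebra E L]
    (h : Sep p (algebraMap E L)) : IsReduced (L ⊗[E] F) := by
  have hp : p.Prime := Fact.out
  obtain ⟨B, _, b, h1, h2⟩ := h
  have : CharP F p := charP_of_injective_algebraMap (algebraMap E F).injective p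
  have : CharP (L ⊗[E] F) p := charP_of_injective_algebraMap (algebraMap L _).injective p
  let l := Module.finBasis E F
  choose d hd using fun i j => h1 (l.repr (l i ^ p) j)
  have hE (e : Fin (Module.finrank E F) → E) (he : ∀ j β, ∑ i, e i * d i j β = 0) (i) :
      e i = 0 := by
    refine Fintype.linearIndependent_iff.1 l.linearIndependent e
      (pow_eq_zero_iff hp.ne_zero |>.1 (l.repr.map_eq_zero_iff.1 (Finsupp.ext fun j => ?_))) i
    rw [sum_pow_char, map_sum, Finsupp.finsetSum_apply]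
    simp only [smul_pow, map_smul, Finsupp.smul_apply, hd, smul_eq_mul, Finset.mul_sum]
    rw [Finset.sum_comm]
    refine Finset.sum_eq_zero fun β _ => ?_
    simp only [← mul_assoc, ← mul_pow]
    rw [← Finset.sum_mul, ← sum_pow_char, he, zero_pow hp.ne_zero, zero_mul]
  refine (isReduced_iff_pow_one_lt p hp.one_lt).2 fun z hz => ?_
  let l' := Algebra.TensorProduct.basis L l
  have hr (i j) : l'.repr (l' i ^ p) j = algebraMap E L (l.repr (l i ^ p) j) := by
    simp only [l', Algebra.TensorProduct.basis_apply, Algebra.TensorProduct.tmul_pow, one_pow,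
      Algebra.TensorProduct.basis_repr_tmul, one_smul, Finsupp.mapRange_apply]
  have hc (j β) : ∑ i, l'.repr z i * algebraMap E L (d i j β) = 0 := by
    refine h2 (fun β => ∑ i, l'.repr z i * algebraMap E L (d i j β)) ?_ β
    have := congrArg (fun y => l'.repr y j) hz
    rw [← l'.sum_repr z, sum_pow_char] at this
    simp only [map_sum, Finsupp.finsetSum_apply, smul_pow, map_smul, Finsupp.smul_apply, hr, hd,
      smul_eq_mul, Finset.mul_sum, map_mul, map_pow, map_zero, Finsupp.zero_apply] at this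
    rw [Finset.sum_comm] at this
    simpa only [sum_pow_char, Finset.sum_mul, mul_pow, mul_assoc] using this
  refine l'.repr.map_eq_zero_iff.1 (Finsupp.ext fun i => ?_)
  refine (Module.forall_dual_apply_eq_zero_iff E _).1 fun φ => ?_
  refine hE (fun i => φ (l'.repr z i)) (fun j β => ?_) i
  have := congrArg φ (hc j β)
  simpa only [map_sum, map_zero, mul_comm _ (algebraMap E L _), ← Algebra.smul_def, map_smul,
    smul_eq_mul, mul_comm (d _ j β)] using this

end Pool.Agent.Work.MP_ffcd14_ag.Tr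
end

-- merged part: Pool.Agent.Work.MP_ffcd14_ag.Tr.V7
section
/-!
# The composita of a finite extension with a complete field

Plan.  Make `G` an `E`-algebra through `j` and let `B = G ⊗[E] F`, a finite reduced `G`-algebra
(`reduced_of_sep`), of rank `finrank E F` (`Module.finrank_baseChange`).  It is Artinian, with
finitely many maximal ideals, and `IsArtinianRing.equivPi` identifies it with the product of the
residue fields, which gives the sum of the degrees.  Put on `B ⧸ 𝔪` the spectral norm over `G`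
(`spectralNorm.normedField`, `spectralNorm.normedAlgebra`, `spectralNorm.completeSpace`,
`spectralNorm_extends`; `G` is nontrivially normed and ultrametric as a normed `K`-algebra).
`ineq`: both maps `B → Ω` agree, so the kernels agree.  `cov`: the kernel of the map `B → Ω` given
by `Algebra.TensorProduct.lift` (or `productMap`) is a prime, hence maximal, ideal; the induced map
is isometric by `iso_of_fd`.
-/

namespace Pool.Agent.Work.MP_ffcd14_ag.Tr

open MvPolynomial Filter Topology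
open scoped ENNReal

set_option linter.unusedSectionVars false

universe u

variable {K : Type u} [NontriviallyNormedField K] [IsUltrametricDist K] [CompleteSpace K]
  [IsAlgClosed K] {Ω Ω' : Type u} [NormedField Ω] [NormedAlgebra K Ω] [NormedField Ω']
  [NormedAlgebra K Ω'] {ι ι' ι'' κ κ' : Type}

section Aux

variable {G : Type u} [NormedField G] [NormedAlgebra K G] [CompleteSpace G]

/-- A finite extension of a complete field is a complete valued field. -/
theorem V7_norm (L : Type u) [Field L] [Algebra K L] [Algebra G L] [IsScalarTower K G L]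
    [FiniteDimensional G L] :
    ∃ (Ω : CF K) (e : L ≃ₐ[K] Ω.Ω), ∀ z : G, ‖e (algebraMap G L z)‖ = ‖z‖ := by
  let _ : NontriviallyNormedField G :=
    { (inferInstance : NormedField G) with
      non_trivial := by
        obtain ⟨c, hc⟩ := NormedField.exists_one_lt_norm K
        exact ⟨algebraMap K G c, by rwa [norm_algebraMap']⟩ }
  have _ : IsUltrametricDist G := IsUltrametricDist.of_normedAlgebra K
  let nf : NormedField L := spectralNorm.normedField G L
  have k : ∀ z : G, ‖algebraMap G L z‖ = ‖z‖ := fun z => spectralNorm_extends z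
  let na : NormedAlgebra K L :=
    { (inferInstance : Algebra K L) with
      norm_smul_le := fun c x => by
        rw [Algebra.smul_def, norm_mul, IsScalarTower.algebraMap_apply K G L, k,
          norm_algebraMap'] }
  exact ⟨@CF.mk K _ L nf na (spectralNorm.completeSpace G L), AlgEquiv.refl, k⟩

theorem V7_res {B : Type u} [CommRing B] [Algebra K B] [Algebra G B] [IsScalarTower K G B]
    [FiniteDimensional G B] (I : MaximalSpectrum B) :
    ∃ (Ω : CF K) (π : B →ₐ[K] Ω.Ω), Function.Surjective π ∧ (∀ b, π b = 0 ↔ b ∈ I.asIdeal) ∧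
      Iso (π.comp (IsScalarTower.toAlgHom K G B)) ∧
      FiniteDimensional (π.comp (IsScalarTower.toAlgHom K G B)).fieldRange Ω.Ω ∧
      Module.finrank (π.comp (IsScalarTower.toAlgHom K G B)).fieldRange Ω.Ω =
        Module.finrank G (B ⧸ I.asIdeal) := by
  have := I.isMaximal
  let _ : Field (B ⧸ I.asIdeal) := Ideal.Quotient.field _
  obtain ⟨Ω, e, he⟩ := V7_norm (K := K) (G := G) (B ⧸ I.asIdeal)
  have k : Module.finrank G (B ⧸ I.asIdeal) = Module.finrank ((e.toAlgHom.comp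
      (Ideal.Quotient.mkₐ K I.asIdeal)).comp (IsScalarTower.toAlgHom K G B)).fieldRange Ω.Ω :=
    Algebra.finrank_eq_of_equiv_equiv (AlgHom.equivFieldRange _).toRingEquiv e.toRingEquiv
      (RingHom.ext fun _ => rfl)
  refine ⟨Ω, e.toAlgHom.comp (Ideal.Quotient.mkₐ K I.asIdeal),
    e.surjective.comp (Ideal.Quotient.mkₐ_surjective K _), fun b => ?_, he, ?_, k.symm⟩
  · exact (map_eq_zero_iff e e.injective).trans Ideal.Quotient.eq_zero_iff_mem
  · exact Module.finite_of_finrank_pos (k ▸ Module.finrank_pos)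

theorem V7_main {E F B : Type u} [Field E] [Field F] [Algebra K E] [Algebra K F] [Algebra E F]
    [CommRing B] [Algebra K B] [Algebra G B] [IsScalarTower K G B] [FiniteDimensional G B]
    [IsReduced B] (j : E →ₐ[K] G) (f : F →ₐ[K] B)
    (hf : ∀ z, f (algebraMap E F z) = algebraMap G B (j z))
    (hr : Module.finrank G B = Module.finrank E F)
    (hg : Algebra.adjoin K (Set.range f ∪ Set.range (algebraMap G B)) = ⊤)
    (hu : ∀ (Ω : Type u) [Field Ω] [Algebra K Ω] (φ' : F →ₐ[K] Ω) (ι' : G →ₐ[K] Ω),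
      (∀ z, φ' (algebraMap E F z) = ι' (j z)) → ∃ Φ : B →ₐ[K] Ω, (∀ z, Φ (f z) = φ' z) ∧
        ∀ z, Φ (algebraMap G B z) = ι' z) : Nonempty (Cmp (F := F) j) := by
  have _ : IsArtinianRing B := IsArtinianRing.of_finite G B
  let _ := Fintype.ofFinite (MaximalSpectrum B)
  let σ := (Fintype.equivFin (MaximalSpectrum B)).symm
  choose L π h1 h2 h3 h4 h5 using fun a => V7_res (K := K) (G := G) (σ a)
  refine ⟨⟨_, L, fun a => (π a).comp f, fun a => (π a).comp (IsScalarTower.toAlgHom K G B), h3,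
    fun a z => congrArg (π a) (hf z), h4, ?_, fun a => ?_, fun a b Ω _ _ ψ ψ' e e' => ?_,
    fun Ω φ' ι' hι e => ?_⟩⟩
  · rw [← hr, ((IsArtinianRing.equivPi B).restrictScalars G).toLinearEquiv.finrank_eq,
      Module.finrank_pi_fintype, ← σ.sum_comp]
    exact Finset.sum_congr rfl fun a _ => h5 a
  · refine eq_top_iff.2 fun y _ => ?_
    obtain ⟨b, rfl⟩ := h1 a y
    have k : Algebra.adjoin K (Set.range f ∪ Set.range (algebraMap G B)) ≤
        (IntermediateField.adjoin K (Set.range ((π a).comp f) ∪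
          Set.range ((π a).comp (IsScalarTower.toAlgHom K G B)))).toSubalgebra.comap (π a) := by
      refine Algebra.adjoin_le ?_
      rintro _ (⟨z, rfl⟩ | ⟨z, rfl⟩)
      · exact IntermediateField.subset_adjoin _ _ (Or.inl ⟨z, rfl⟩)
      · exact IntermediateField.subset_adjoin _ _ (Or.inr ⟨z, rfl⟩)
    exact k (hg ▸ Algebra.mem_top)
  · have k : ψ.comp (π a) = ψ'.comp (π b) := AlgHom.ext_of_adjoin_eq_top hg (by
      rintro _ (⟨z, rfl⟩ | ⟨z, rfl⟩)
      exacts [e z, e' z])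
    refine σ.injective (MaximalSpectrum.ext (Ideal.ext fun x => ?_))
    rw [← h2, ← h2, ← map_eq_zero_iff ψ ψ.injective, ← map_eq_zero_iff ψ' ψ'.injective]
    exact Eq.congr_left (DFunLike.congr_fun k x)
  · obtain ⟨Φ, k1, k2⟩ := hu Ω.Ω φ' ι' e
    have _ := RingHom.ker_isPrime Φ
    obtain ⟨a, ha⟩ := σ.surjective ⟨RingHom.ker Φ, IsArtinianRing.isMaximal_of_isPrime _⟩
    have k3 : RingHom.ker (π a).toRingHom ≤ RingHom.ker Φ.toRingHom := fun x hx => by
      have := (h2 a x).1 hx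
      rwa [ha] at this
    have k4 : ∀ x, (π a).liftOfSurjective (h1 a) Φ k3 (π a x) = Φ x :=
      AlgHom.liftOfSurjective_apply _ _ _ _
    have := h4 a
    exact ⟨a, (π a).liftOfSurjective (h1 a) Φ k3,
      iso_of_fd (h3 a) fun z => (congrArg norm ((k4 _).trans (k2 z))).trans (hι z),
      fun z => (k4 _).trans (k1 z), fun z => (k4 _).trans (k2 z)⟩

end Aux

open TensorProduct in
theorem exists_cmp (p : ℕ) [Fact p.Prime] [CharP K p] {E F G : Type u} [Field E] [Field F]
    [Algebra K E] [Algebra K F] [Algebra E F] [IsScalarTower K E F] [FiniteDimensional E F]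
    [NormedField G] [NormedAlgebra K G] [CompleteSpace G] (j : E →ₐ[K] G)
    (h : Sep p (j : E →+* G)) : Nonempty (Cmp (F := F) j) := by
  let _ : Algebra E G := (j : E →+* G).toAlgebra
  have _ : IsScalarTower K E G := IsScalarTower.of_algebraMap_eq fun c => (j.commutes c).symm
  have _ : CharP E p := charP_of_injective_algebraMap (algebraMap K E).injective p
  have _ : CharP G p := charP_of_injective_algebraMap (algebraMap K G).injective p
  have _ : IsReduced (G ⊗[E] F) := reduced_of_sep p h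
  refine V7_main j ((Algebra.TensorProduct.includeRight : F →ₐ[E] G ⊗[E] F).restrictScalars K)
    (fun z => ?_) Module.finrank_baseChange (eq_top_iff.2 fun b _ => ?_)
    fun Ω _ _ φ' ι' e => ?_
  · exact ((Algebra.TensorProduct.includeRight : F →ₐ[E] G ⊗[E] F).commutes z).trans
      (IsScalarTower.algebraMap_apply E G _ z)
  · induction b using TensorProduct.induction_on with
    | zero => exact zero_mem _
    | tmul x y =>
      rw [show x ⊗ₜ[E] y = (x ⊗ₜ[E] (1 : F)) * ((1 : G) ⊗ₜ[E] y) by simp]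
      exact mul_mem (Algebra.subset_adjoin (Or.inr ⟨x, rfl⟩))
        (Algebra.subset_adjoin (Or.inl ⟨y, rfl⟩))
    | add x y hx hy => exact add_mem (hx trivial) (hy trivial)
  · let _ : Algebra E Ω := (ι'.comp j : E →+* Ω).toAlgebra
    have _ : IsScalarTower K E Ω :=
      IsScalarTower.of_algebraMap_eq fun c => ((ι'.comp j).commutes c).symm
    let u : G →ₐ[E] Ω := { (ι' : G →+* Ω) with commutes' := fun _ => rfl }
    let v : F →ₐ[E] Ω := { (φ' : F →+* Ω) with commutes' := e }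
    have c : ∀ x y, Commute (u x) (v y) := fun _ _ => Commute.all _ _
    refine ⟨(Algebra.TensorProduct.lift u v c).restrictScalars K, fun z => ?_, fun z => ?_⟩
    · exact (Algebra.TensorProduct.lift_tmul u v c 1 z).trans (by rw [map_one, one_mul]; rfl)
    · exact (Algebra.TensorProduct.lift_tmul u v c z 1).trans (by rw [map_one, mul_one]; rfl)

end Pool.Agent.Work.MP_ffcd14_ag.Tr
end

-- merged part: Pool.Agent.Work.MP_ffcd14_ag.Ry.W1
section
/-!
# Orthogonal families

Plan.  This generalises `Tr/V2` and `exists_iso` of `Tr/V3` from `GenT` to `Ort`; copy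
these proofs.  The norm of a polynomial in an orthogonal family is the largest norm of its terms
(ultrametric inequality, `IsUltrametricDist.of_normedAlgebra K`), which gives `norm_congr`.
`of_close`: with `ρ < 1` as in `V5_rho` (reprove it), every term moves by at most `ρ` times its
norm (`V2_Rel`), so `‖c t' - c t‖ ≤ ρ ‖c t‖`.  `pert`: `exists_frac'`, as `GenT.pert`.
`exists_iso_norm`: the two evaluation maps have the same kernel, so there is an isometric map
from `Algebra.adjoin K (range x)`, then from its field of fractions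
`IntermediateField.adjoin K (range x)` (`mem_adjoin_range_iff`), which extends to the closure as in
`exists_iso`.  `exists_ort`: generic vectors are dense (`ae_gen`, `Measure.dense_of_ae`); take points
`ζ n` over generic `η n → log y` (`exists_pt`), a limit (`exists_lim`, `Lim.trop`), pass to the
limit in `GenT.term_le` (`aeval ξ.x c = ξ.ev (rename Sum.inl c)`), and use `Pt.tight`.
-/

namespace Pool.Agent.Work.MP_ffcd14_ag.Ry

open MvPolynomial Filter Topology Tr
open scoped ENNReal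

set_option linter.unusedSectionVars false

universe u

variable {K : Type u} [NontriviallyNormedField K] [IsUltrametricDist K] [CompleteSpace K]
  [IsAlgClosed K] {Ω Ω' : Type u} [NormedField Ω] [NormedAlgebra K Ω] [NormedField Ω']
  [NormedAlgebra K Ω'] {ι ι' ι'' κ κ' : Type} [Fintype κ] [DecidableEq κ] [Fintype κ']
  [DecidableEq κ']

theorem W1_norm_term {t : κ → Ω} {t' : κ → Ω'} (e : ∀ k, ‖t' k‖ = ‖t k‖) (β : κ →₀ ℕ) (a : K) :
    ‖aeval t' (monomial β a)‖ = ‖aeval t (monomial β a)‖ := by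
  simp only [V2_term, norm_smul, norm_prod, norm_zpow, e]

theorem W1_sum (s : κ → Ω) (a : MvPolynomial κ K) :
    aeval s a = ∑ β ∈ a.support, aeval s (monomial β (coeff β a)) := by
  rw [← map_sum, ← a.as_sum]

theorem W1_le {t : κ → Ω} (h : Ort K t) {t' : κ → Ω'} (e : ∀ k, ‖t' k‖ = ‖t k‖)
    (c : MvPolynomial κ K) : ‖aeval t' c‖ ≤ ‖aeval t c‖ := by
  have : IsUltrametricDist Ω' := IsUltrametricDist.of_normedAlgebra K
  rw [W1_sum t']
  refine IsUltrametricDist.norm_sum_le_of_forall_le_of_nonneg (norm_nonneg _) fun β _ => ?_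
  rw [W1_norm_term e]
  exact h.2 c β

theorem W1_rel {t t' : κ → Ω} (h : Ort K t) {ρ : ℝ} (h0 : 0 < ρ) (h1 : ρ < 1)
    (e : ∀ k, ‖t' k - t k‖ ≤ ρ * ‖t k‖) (a : MvPolynomial κ K) :
    V2_Rel ρ (aeval t a) (aeval t' a) := by
  have : IsUltrametricDist Ω := IsUltrametricDist.of_normedAlgebra K
  unfold V2_Rel
  rw [W1_sum t']
  nth_rewrite 1 [W1_sum t]
  rw [← Finset.sum_sub_distrib]
  refine IsUltrametricDist.norm_sum_le_of_forall_le_of_nonneg (by positivity) fun β _ => ?_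
  refine le_trans ?_ (mul_le_mul_of_nonneg_left (h.2 a β) h0.le)
  simp only [V2_term, Algebra.smul_def, zpow_natCast]
  exact (V2_Rel.refl h0 _).mul h1 (V2_Rel.prod h0 h1 _ fun k => V2_Rel.pow h0 h1 (e k) _)

theorem W1_rho {t t' : κ → Ω} (e : ∀ k, ‖t' k - t k‖ < ‖t k‖) :
    ∃ ρ : ℝ, 0 < ρ ∧ ρ < 1 ∧ ∀ k, ‖t' k - t k‖ ≤ ρ * ‖t k‖ := by
  have h1 : ∀ᶠ ρ in 𝓝 (1 : ℝ), ∀ k, ‖t' k - t k‖ < ρ * ‖t k‖ := eventually_all.2 fun k =>
    continuousAt_const.eventually_lt (continuous_id.mul continuous_const).continuousAt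
      (by simpa using e k)
  have h2 : ∀ᶠ ρ in 𝓝[<] (1 : ℝ), ρ < 1 := self_mem_nhdsWithin
  obtain ⟨ρ, ⟨h3, h4⟩, h5⟩ :=
    (((h1.and (lt_mem_nhds zero_lt_one)).filter_mono nhdsWithin_le_nhds).and h2).exists
  exact ⟨ρ, h4, h5, fun k => (h3 k).le⟩

theorem W1_map (ψ : Ω →ₐ[K] Ω') (t : ι → Ω) (c : MvPolynomial ι K) :
    aeval (fun k => ψ (t k)) c = ψ (aeval t c) := by
  rw [← comp_aeval]
  rfl

theorem ort_of_genT {t : κ → Ω} (h : GenT K t) : Ort K t := by
  exact ⟨h.1, h.term_le⟩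

theorem Ort.algInd {t : κ → Ω} (h : Ort K t) : AlgebraicIndependent K t := by
  refine algebraicIndependent_iff.mpr fun p hp => ?_
  ext β
  by_contra hc
  have := h.2 p β
  rw [hp, norm_zero, V2_term] at this
  exact V2_mon_ne h.1 hc _ (norm_le_zero_iff.1 this)

theorem Ort.norm_congr {t : κ → Ω} (h : Ort K t) {t' : κ → Ω'} (h' : Ort K t')
    (e : ∀ k, ‖t' k‖ = ‖t k‖) (c : MvPolynomial κ K) : ‖aeval t' c‖ = ‖aeval t c‖ := by
  exact le_antisymm (W1_le h e c) (W1_le h' (fun k => (e k).symm) c)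

theorem Ort.of_close {t t' : κ → Ω} (h : Ort K t) (e : ∀ k, ‖t' k - t k‖ < ‖t k‖) :
    Ort K t' ∧ ∀ k, ‖t' k‖ = ‖t k‖ := by
  have : IsUltrametricDist Ω := IsUltrametricDist.of_normedAlgebra K
  have hn : ∀ k, ‖t' k‖ = ‖t k‖ := fun k => V2_eq (e k)
  obtain ⟨ρ, h0, h1, hρ⟩ := W1_rho e
  refine ⟨⟨fun k => norm_ne_zero_iff.mp (by rw [hn k]; exact norm_ne_zero_iff.mpr (h.1 k)),
    fun c β => ?_⟩, hn⟩
  rw [W1_norm_term hn, (W1_rel h h0 h1 hρ c).norm h1]
  exact h.2 c β

theorem ort_map {ψ : Ω →ₐ[K] Ω'} (hψ : Iso ψ) {t : κ → Ω} :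
    Ort K (fun k => ψ (t k)) ↔ Ort K t := by
  refine and_congr (forall_congr' fun k => map_ne_zero ψ) (forall₂_congr fun c β => ?_)
  rw [W1_map, W1_map, hψ, hψ]

theorem Ort.comp {t : κ → Ω} (h : Ort K t) {f : κ' → κ} (hf : Function.Injective f) :
    Ort K (t ∘ f) := by
  refine ⟨fun k => h.1 (f k), fun c β => ?_⟩
  have := h.2 (rename f c) (β.mapDomain f)
  rwa [coeff_rename_mapDomain f hf, ← rename_monomial, aeval_rename, aeval_rename] at this

theorem Ort.smul {t : κ → Ω} (h : Ort K t) {c : κ → K} (hc : ∀ k, c k ≠ 0) :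
    Ort K fun k => c k • t k := by
  refine ⟨fun k => smul_ne_zero (hc k) (h.1 k), fun p β => ?_⟩
  have e1 (γ : κ →₀ ℕ) (a : K) : aeval (fun k => c k • t k) (monomial γ a) =
      aeval t (monomial γ ((∏ k, c k ^ γ k) * a)) := by
    simp only [V2_term, zpow_natCast, smul_pow, Finset.prod_smul, smul_smul, mul_comm]
  have e2 : aeval (fun k => c k • t k) p =
      aeval t (∑ γ ∈ p.support, monomial γ ((∏ k, c k ^ γ k) * coeff γ p)) := by
    rw [W1_sum, map_sum]
    exact Finset.sum_congr rfl fun γ _ => e1 γ _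
  have e3 : coeff β (∑ γ ∈ p.support, monomial γ ((∏ k, c k ^ γ k) * coeff γ p)) =
      (∏ k, c k ^ β k) * coeff β p := by
    rw [coeff_sum, Finset.sum_eq_single β]
    · rw [coeff_monomial, if_pos rfl]
    · intro γ _ hγ
      rw [coeff_monomial, if_neg hγ]
    · intro hβ
      rw [notMem_support_iff.mp hβ, mul_zero, monomial_zero, coeff_zero]
  rw [e1, e2, ← e3]
  exact h.2 _ β

theorem Ort.pert {t t' : κ → Ω} (h : Ort K t) {ρ : ℝ} (h0 : 0 < ρ) (h1 : ρ < 1)
    (e : ∀ k, ‖t' k - t k‖ ≤ ρ * ‖t k‖) {z : Ω} (hz : z ∈ cl K (Set.range t)) :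
    ∃ z' ∈ cl K (Set.range t'), ‖z - z'‖ ≤ ρ * ‖z‖ := by
  have : IsUltrametricDist Ω := IsUltrametricDist.of_normedAlgebra K
  by_cases hz0 : z = 0
  · exact ⟨0, zero_mem _, by simp [hz0]⟩
  have hp : 0 < ‖z‖ := norm_pos_iff.mpr hz0
  have hP := W1_rel h h0 h1 e
  obtain ⟨a, b, hb, hab⟩ := exists_frac' t hz (mul_pos h0 hp)
  have n1 := V2_eq' (hab.trans (mul_lt_of_lt_one_left hp h1))
  refine ⟨aeval t' a / aeval t' b, subset_closure
    ((IntermediateField.mem_adjoin_range_iff K t' _).mpr ⟨a, b, rfl⟩), ?_⟩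
  refine (V2_tri (y := aeval t a / aeval t b)).trans (max_le hab.le ?_)
  rw [norm_sub_rev, ← n1, div_eq_mul_inv, div_eq_mul_inv]
  exact (hP a).mul h1 ((hP b).inv h1 hb)

theorem cl_sub (t : ι → Ω) (c : ι → K) :
    cl K (Set.range fun k => t k - algebraMap K Ω (c k)) = cl K (Set.range t) := by
  refine le_antisymm (cl_le_cl ?_) (cl_le_cl ?_)
  · rintro _ ⟨k, rfl⟩
    exact sub_mem (subset_cl (K := K) _ (Set.mem_range_self k))
      (IntermediateField.algebraMap_mem _ _)
  · rintro _ ⟨k, rfl⟩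
    have := add_mem (subset_cl (K := K) (Set.range fun k => t k - algebraMap K Ω (c k))
      (Set.mem_range_self k)) (IntermediateField.algebraMap_mem _ (c k))
    rwa [sub_add_cancel] at this

theorem cl_smul (t : ι → Ω) {c : ι → K} (hc : ∀ k, c k ≠ 0) :
    cl K (Set.range fun k => c k • t k) = cl K (Set.range t) := by
  refine le_antisymm (cl_le_cl ?_) (cl_le_cl ?_)
  · rintro _ ⟨k, rfl⟩
    exact IntermediateField.smul_mem _ (subset_cl (K := K) _ (Set.mem_range_self k))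
  · rintro _ ⟨k, rfl⟩
    have := IntermediateField.smul_mem _ (x := (c k)⁻¹)
      (subset_cl (K := K) (Set.range fun k => c k • t k) (Set.mem_range_self k))
    rwa [smul_smul, inv_mul_cancel₀ (hc k), one_smul] at this

open scoped IntermediateField.algebraAdjoinAdjoin in
theorem W1_frac {x : ι → Ω} {x' : ι → Ω'}
    (e : ∀ c : MvPolynomial ι K, ‖aeval x' c‖ = ‖aeval x c‖) :
    ∃ f : IntermediateField.adjoin K (Set.range x) →ₐ[K] Ω', (∀ z, ‖f z‖ = ‖z‖) ∧
      ∀ i, f ⟨x i, IntermediateField.subset_adjoin K _ ⟨i, rfl⟩⟩ = x' i := by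
  let q : MvPolynomial ι K →ₐ[K] Algebra.adjoin K (Set.range x) :=
    (aeval x).codRestrict _ fun c => by
      rw [Algebra.adjoin_range_eq_range_aeval]
      exact ⟨c, rfl⟩
  have hq : Function.Surjective q := by
    rintro ⟨z, hz⟩
    rw [Algebra.adjoin_range_eq_range_aeval] at hz
    obtain ⟨c, rfl⟩ := hz
    exact ⟨c, rfl⟩
  have hk : RingHom.ker q.toRingHom ≤ RingHom.ker (aeval x' : MvPolynomial ι K →ₐ[K] Ω').toRingHom := by
    intro c hc
    have h1 : aeval x c = 0 := congrArg Subtype.val (RingHom.mem_ker.1 hc)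
    have h2 := e c
    rw [h1, norm_zero, norm_eq_zero] at h2
    exact h2
  let g := AlgHom.liftOfSurjective q hq (aeval x') hk
  have hg : ∀ c, g (q c) = aeval x' c := AlgHom.liftOfSurjective_apply q hq _ hk
  have hn : ∀ z, ‖g z‖ = ‖(z : Ω)‖ := by
    intro z
    obtain ⟨c, rfl⟩ := hq z
    rw [hg, e]
    rfl
  have hi : Function.Injective g := by
    rw [injective_iff_map_eq_zero]
    intro z hz
    have := hn z
    rw [hz, norm_zero] at this
    exact Subtype.ext (norm_eq_zero.1 this.symm)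
  let f : IntermediateField.adjoin K (Set.range x) →ₐ[K] Ω' := IsFractionRing.liftAlgHom hi
  have hf : ∀ z, f (algebraMap _ _ z) = g z := fun z => IsFractionRing.lift_algebraMap hi z
  refine ⟨f, fun z => ?_, fun i => ?_⟩
  · obtain ⟨a, b, -, rfl⟩ :=
      IsFractionRing.div_surjective (A := Algebra.adjoin K (Set.range x)) z
    rw [map_div₀, norm_div, norm_div, hf, hf, hn, hn]
    rfl
  · have := (hf (q (X i))).trans (hg (X i))
    rw [aeval_X] at this
    rw [← this]
    exact congrArg f (Subtype.ext (aeval_X x i).symm)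

theorem exists_iso_norm [CompleteSpace Ω'] {x : ι → Ω} (ht : cl K (Set.range x) = ⊤)
    {x' : ι → Ω'} (e : ∀ c : MvPolynomial ι K, ‖aeval x' c‖ = ‖aeval x c‖) :
    ∃ ψ : Ω →ₐ[K] Ω', Iso ψ ∧ ∀ i, ψ (x i) = x' i := by
  obtain ⟨f, hn, hf⟩ := W1_frac e
  let F := IntermediateField.adjoin K (Set.range x)
  have ue : IsUniformInducing F.val.toRingHom := isUniformEmbedding_subtype_val.isUniformInducing
  have dr : DenseRange F.val.toRingHom := by
    intro z
    have : z ∈ cl K (Set.range x) := ht ▸ IntermediateField.mem_top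
    rwa [show Set.range F.val.toRingHom = F from Subtype.range_coe]
  have uc : UniformContinuous f.toRingHom :=
    (AddMonoidHomClass.isometry_of_norm f hn).uniformContinuous
  let g := IsDenseInducing.extendRingHom ue dr uc
  have hg : ∀ x : F, g x = f x := fun x =>
    IsDenseInducing.extend_eq (ue.isDenseInducing dr) uc.continuous x
  have gc : Continuous g := (uniformContinuous_uniformly_extend ue dr uc).continuous
  refine ⟨⟨g, fun c => (hg (algebraMap K F c)).trans (f.commutes c)⟩, fun z => ?_, fun k => ?_⟩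
  · refine dr.induction_on (p := fun z => ‖g z‖ = ‖z‖) z
      (isClosed_eq gc.norm continuous_norm) fun x => ?_
    exact (congrArg norm (hg x)).trans (hn x)
  · exact (hg ⟨x k, IntermediateField.subset_adjoin K _ ⟨k, rfl⟩⟩).trans (hf k)

theorem Ort.exists_iso [CompleteSpace Ω'] {t : κ → Ω} (h : Ort K t)
    (ht : cl K (Set.range t) = ⊤) {t' : κ → Ω'} (h' : Ort K t') (e : ∀ k, ‖t' k‖ = ‖t k‖) :
    ∃ ψ : Ω →ₐ[K] Ω', Iso ψ ∧ ∀ k, ψ (t k) = t' k :=
  exists_iso_norm ht (h.norm_congr h' e)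

theorem exists_ort (hΓ : (Gam K : Set ℝ).Countable) {y : κ → ℝ} (hy : ∀ k, 0 < y k) :
    ∃ (G : CF K) (t : κ → G.Ω), Ort K t ∧ cl K (Set.range t) = ⊤ ∧ ∀ k, ‖t k‖ = y k := by
  have hd : Dense {η : κ → ℝ | Gen K η} := MeasureTheory.Measure.dense_of_ae (ae_gen hΓ)
  obtain ⟨η, h1, h2⟩ := mem_closure_iff_seq_limit.1 (hd fun k => Real.log (y k))
  choose ζ hζ using fun n => exists_pt (K := K) (η n)
  have h5 : Tendsto (fun n => (ζ n).trop) atTop (𝓝 fun k => Real.log (y k)) := by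
    simpa only [hζ] using h2
  obtain ⟨R, hR⟩ := isBounded_iff_forall_norm_le.1 (Metric.isBounded_range_of_tendsto _ h5)
  obtain ⟨ξ, h⟩ := exists_lim (ζ := ζ)
    ⟨R, fun n i => (norm_le_pi_norm (ζ n).trop i).trans (hR _ ⟨n, rfl⟩)⟩ (hyperfilter ℕ)
  have h6 : ξ.trop = fun k => Real.log (y k) :=
    tendsto_nhds_unique h.trop (h5.mono_left Nat.hyperfilter_le_atTop)
  have hev : ∀ (ξ : Pt K κ) (c : MvPolynomial κ K), ξ.ev (rename Sum.inl c) = aeval ξ.x c :=
    fun ξ c => aeval_rename _ _ _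
  have ho : Ort K ξ.x := by
    refine ⟨ξ.ne, fun c β => ?_⟩
    rw [← hev, ← hev]
    refine le_of_tendsto_of_tendsto' (h _) (h _) fun n => ?_
    rw [hev, hev]
    have hg : GenT K (ζ n).x := ⟨(ζ n).ne, by
      have := h1 n
      rw [← hζ n] at this
      exact this⟩
    exact hg.term_le c β
  refine ⟨ξ.tight.toCF, ξ.tight.x, ?_, Pt.tight_tight ξ, fun k => ?_⟩
  · exact (ort_map (iso_val (cl K (Set.range ξ.x)))).1 ho
  · exact Real.log_injOn_pos (norm_pos_iff.2 (ξ.ne k)) (hy k) (congrFun h6 k)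

end Pool.Agent.Work.MP_ffcd14_ag.Ry
end
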