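import Pool.Agent.Work.MP_ffcd14_ag.Ry.W1

-- merged part: Pool.Agent.Work.MP_ffcd14_ag.Tr.V12
section
-- merged part: Pool.Agent.Work.MP_ffcd14_ag.Tr.V8
section
/-!
# Separability of monomial fields

All fields have characteristic `p` (`charP_of_injective_algebraMap`).  Plan.  `mono_psp`:
`dec_pow` and `cl_pow`.  `mono_pin`: the nonzero terms `c β ^ p * s ^ β` have different norms
(`GenT.log_norm`, `Gen.int`, exponents modulo `p`).  `sep_dense`: choose `s k ∈ E` with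
`‖j (s k) - t k‖ < ‖t k‖`; the monomials `s ^ β` are independent in `Ω` by `mono_pin`; `s` is
algebraically independent (`GenT.of_close`, `GenT.algInd`), `pdeg E = pdeg K(s) ≤ p ^ n`
(`pdeg_eq`, `psp_adjoin`, `pdeg_le_of_psp`), `psp_of_pin`.  `sep_sub`: `mono_psp` in `Ω`, and
`mono_pin` in `Ω'` for the exponents which vanish on `κ'`.  `sep_step`: `pdeg Ω = p ^ card κ` and
`pdeg L = p ^ (card κ + card κ')` (`pdeg_eq`, `pdeg_equiv`, `cl_sub_top`).  Let `s` be a basis of `Ω`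
over `Ω ^ p` (`exists_psp`).  The span `W` over `L ^ p` of the `φ (s a) * ι (t₂ ^ β)` is a subring
which contains the ranges of `φ` and `ι` (use `mono_psp` in `G''`); it is finite-dimensional over
the field `L ^ p`, so it is a subfield, hence everything.  By `pin_of_psp` this family is
independent, hence so is `ι (t₂ ^ β) = j (t' ^ β)`.
-/

namespace Pool.Agent.Work.MP_ffcd14_ag.Tr

open MvPolynomial Filter Topology
open scoped ENNReal

set_option linter.unusedSectionVars false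

universe u

variable {K : Type u} [NontriviallyNormedField K] [IsUltrametricDist K] [CompleteSpace K]
  [IsAlgClosed K] {Ω Ω' : Type u} [NormedField Ω] [NormedAlgebra K Ω] [NormedField Ω']
  [NormedAlgebra K Ω'] {ι ι' ι'' κ κ' : Type}

variable [Fintype κ] [DecidableEq κ] [Fintype κ'] [DecidableEq κ'] (p : ℕ) [Fact p.Prime]
  [CharP K p]

theorem V8_comp {L : Type u} [Field L] {B B' : Type} [Fintype B] [Fintype B'] {b : B → L}
    (h : PIn p b) {f : B' → B} (hf : Function.Injective f) : PIn p fun β => b (f β) := by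
  intro c hc β
  have := h (Function.extend f c 0) ((Fintype.sum_of_injective f hf _ _ (fun i hi => by
    rw [Function.extend_apply' _ _ _ hi, Pi.zero_apply, zero_pow (Fact.out : p.Prime).ne_zero,
      zero_mul]) fun i => by rw [hf.extend_apply]).symm.trans hc) (f β)
  rwa [hf.extend_apply] at this

theorem mono_psp [CompleteSpace Ω] {t : κ → Ω} (h : GenT K t) (ht : cl K (Set.range t) = ⊤) :
    PSp p fun β : κ → Fin p => ∏ k, t k ^ (β k : ℕ) := by
  intro z
  obtain ⟨c, hc, e, -⟩ := dec_pow h (Fact.out : p.Prime).pos (z := z) (by rw [ht]; trivial)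
  choose w _ hw using fun β => cl_pow p t (hc β)
  exact ⟨w, by simpa only [hw] using e⟩

theorem mono_pin {t s : κ → Ω} (h : GenT K t) (ht : cl K (Set.range t) = ⊤)
    (e : ∀ k, ‖s k‖ = ‖t k‖) : PIn p fun β : κ → Fin p => ∏ k, s k ^ (β k : ℕ) := by
  intro c hc β
  have : IsUltrametricDist Ω := IsUltrametricDist.of_normedAlgebra K
  have hp := (Fact.out : p.Prime).pos
  have hs : ∀ k, s k ≠ 0 := (h.congr e).1
  have hn : ∀ γ : κ → Fin p, ∏ k, s k ^ (γ k : ℕ) ≠ 0 := fun γ =>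
    Finset.prod_ne_zero_iff.2 fun k _ => pow_ne_zero _ (hs k)
  have hl : ∀ γ, c γ ≠ 0 → Real.log ‖c γ ^ p * ∏ k, s k ^ (γ k : ℕ)‖ =
      p * Real.log ‖c γ‖ + ∑ k, (γ k : ℕ) * Real.log ‖t k‖ := fun γ h0 => by
    rw [norm_mul, Real.log_mul (norm_ne_zero_iff.2 (pow_ne_zero _ h0)) (norm_ne_zero_iff.2 (hn γ)),
      norm_pow, Real.log_pow, norm_prod,
      Real.log_prod fun k _ => norm_ne_zero_iff.2 (pow_ne_zero _ (hs k))]
    simp only [norm_pow, Real.log_pow, e]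
  by_contra h0
  classical
  have key := IsUltrametricDist.nnnorm_sum_eq_sup_of_pairwise_ne
    (s := Finset.univ.filter fun γ => c γ ≠ 0) (f := fun γ => c γ ^ p * ∏ k, s k ^ (γ k : ℕ)) (by
      intro a ha b hb hab q
      replace ha : c a ≠ 0 := by simpa using ha
      replace hb : c b ≠ 0 := by simpa using hb
      have q' := (hl a ha).symm.trans
        ((congrArg (fun r : NNReal => Real.log r) q).trans (hl b hb))
      obtain ⟨α, hα⟩ := h.log_norm (z := c a / c b) (by rw [ht]; trivial) (div_ne_zero ha hb)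
      rw [norm_div, Real.log_div (norm_ne_zero_iff.2 ha) (norm_ne_zero_iff.2 hb)] at hα
      have hm := h.2.int (m := fun k => (b k : ℕ) - (a k : ℕ) - p * α k) (by
        convert (Gam K).smul_mem (p : ℚ) hα using 1
        simp only [Rat.smul_def, Rat.cast_natCast, Int.cast_sub, Int.cast_mul, Int.cast_natCast,
          sub_mul, Finset.sum_sub_distrib, mul_sub, Finset.mul_sum, mul_assoc]
        linarith)
      refine hab (funext fun k => Fin.ext ?_)
      have h1 : ((b k : ℕ) : ℤ) - (a k : ℕ) - p * α k = 0 := congrFun hm k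
      exact Nat.ModEq.eq_of_lt_of_lt ((Nat.modEq_iff_dvd).2 ⟨α k, by linarith⟩) (a k).2 (b k).2)
  rw [Finset.sum_filter_of_ne (p := fun γ => c γ ≠ 0) fun γ _ q k =>
    q (by rw [k, zero_pow hp.ne', zero_mul]), hc,
    nnnorm_zero] at key
  exact mul_ne_zero (pow_ne_zero p h0) (hn β)
    (nnnorm_eq_zero.1 ((Finset.sup_eq_bot_iff _ _).1 key.symm β (by simpa using h0)))

theorem sep_dense {E : Type u} [Field E] [Algebra K E] {t : κ → Ω} (h : GenT K t)
    (ht : cl K (Set.range t) = ⊤) (j : E →ₐ[K] Ω) (hj : cl K (Set.range j) = ⊤)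
    (hfg : ∀ s : κ → E, AlgebraicIndependent K s →
      FiniteDimensional (IntermediateField.adjoin K (Set.range s)) E) :
    Sep p (j : E →+* Ω) := by
  have := charP_of_injective_algebraMap (algebraMap K E).injective p
  have := charP_of_injective_algebraMap (algebraMap K Ω).injective p
  have hd : ∀ k, ∃ x : E, ‖j x - t k‖ < ‖t k‖ := fun k => by
    have h1 : t k ∈ cl K (Set.range j) := by rw [hj]; trivial
    obtain ⟨y, hy, h2⟩ := Metric.mem_closure_iff.1 h1 _ (norm_pos_iff.2 (h.1 k))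
    obtain ⟨x, rfl⟩ : y ∈ j.fieldRange := IntermediateField.adjoin_le_iff.2 subset_rfl hy
    exact ⟨x, by rwa [← dist_eq_norm, dist_comm]⟩
  choose s hs using hd
  obtain ⟨h1, h2⟩ := h.of_close hs
  have := hfg s (AlgebraicIndependent.of_comp j h1.algInd)
  have h3 : PIn p fun β : κ → Fin p => (j : E →+* Ω) (∏ k, s k ^ (β k : ℕ)) := by
    simpa only [map_prod, map_pow, RingHom.coe_coe] using mono_pin p h ht h2
  have := charP_of_injective_algebraMap
    (algebraMap K (IntermediateField.adjoin K (Set.range s))).injective p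
  have h4 := pdeg_le_of_psp p (psp_adjoin p (K := K) (fun k => (⟨s k,
      IntermediateField.subset_adjoin K _ ⟨k, rfl⟩⟩ : IntermediateField.adjoin K (Set.range s)))
    (IntermediateField.lift_injective _ (by
      rw [IntermediateField.lift_adjoin, IntermediateField.lift_top, ← Set.range_comp]
      rfl)))
  rw [← pdeg_eq p (L := E)] at h4
  exact ⟨_, inferInstance, _, psp_of_pin p (h3.of_map p _) h4.1 h4.2, h3⟩

theorem sep_sub [CompleteSpace Ω] {t : κ → Ω} (h : GenT K t) (ht : cl K (Set.range t) = ⊤)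
    {t₁ : κ → Ω'} {t₂ : κ' → Ω'} (h' : GenT K (Sum.elim t₁ t₂))
    (ht' : cl K (Set.range (Sum.elim t₁ t₂)) = ⊤) (j : Ω →ₐ[K] Ω') (e : ∀ k, j (t k) = t₁ k) :
    Sep p (j : Ω →+* Ω') := by
  refine ⟨_, inferInstance, _, mono_psp p h ht, ?_⟩
  simpa [e, PIn] using V8_comp p (mono_pin p h' ht' fun _ => rfl)
    (f := fun β : κ → Fin p => Sum.elim β fun _ => 0) fun a b q =>
      funext fun k => congrFun q (Sum.inl k)

theorem sep_step [CompleteSpace Ω] [CompleteSpace Ω'] {G'' L : Type u} [NormedField G'']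
    [NormedAlgebra K G''] [CompleteSpace G''] [Field L] [Algebra K L] {t₀ : κ → Ω}
    (h₀ : GenT K t₀) [FiniteDimensional (cl K (Set.range t₀)) Ω] {t₁ : κ → G''} {t₂ : κ' → G''}
    (h'' : GenT K (Sum.elim t₁ t₂)) (ht'' : cl K (Set.range (Sum.elim t₁ t₂)) = ⊤)
    (φ : Ω →ₐ[K] L) (ψ : G'' →ₐ[K] L) [FiniteDimensional ψ.fieldRange L]
    (hg : IntermediateField.adjoin K (Set.range φ ∪ Set.range ψ) = ⊤)
    (e : ∀ k, φ (t₀ k) = ψ (t₁ k)) {t' : κ' → Ω'} (h' : GenT K t')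
    (ht' : cl K (Set.range t') = ⊤) (j : Ω' →ₐ[K] L) (e' : ∀ k, j (t' k) = ψ (t₂ k)) :
    Sep p (j : Ω' →+* L) := by
  have := charP_of_injective_algebraMap (algebraMap K L).injective p
  have := charP_of_injective_algebraMap (algebraMap K Ω).injective p
  have := charP_of_injective_algebraMap (algebraMap K G'').injective p
  have := charP_of_injective_algebraMap (algebraMap K ψ.fieldRange).injective p
  have := charP_of_injective_algebraMap (algebraMap K (cl K (Set.range t₀))).injective p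
  have g₀ : GenT K fun k => (⟨t₀ k, subset_cl _ ⟨k, rfl⟩⟩ : cl K (Set.range t₀)) :=
    h₀.congr fun _ => rfl
  have d1 : pdeg p Ω = Fintype.card (κ → Fin p) := (pdeg_eq p).trans
    (pdeg_of p (mono_psp p g₀ (cl_sub_top t₀)) (mono_pin p g₀ (cl_sub_top t₀) fun _ => rfl))
  have d2 : pdeg p L = Fintype.card (κ ⊕ κ' → Fin p) :=
    ((pdeg_eq p).trans (pdeg_equiv p ψ.equivFieldRange.toRingEquiv).symm).trans
      (pdeg_of p (mono_psp p h'' ht'') (mono_pin p h'' ht'' fun _ => rfl))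
  have n1 : pdeg p Ω ≠ 0 := d1 ▸ Fintype.card_ne_zero
  obtain ⟨s, hs, -⟩ := exists_psp p n1
  let F := (frobenius L p).fieldRange
  have : FiniteDimensional F L := Module.finite_of_finrank_pos
    (Nat.pos_of_ne_zero (d2.trans_ne Fintype.card_ne_zero))
  let u := fun x : Fin (pdeg p Ω) × (κ' → Fin p) => φ (s x.1) * ψ (∏ k, t₂ k ^ (x.2 k : ℕ))
  let W := Submodule.span F (Set.range u)
  have hW : ∀ c w, w ∈ W → c ^ p * w ∈ W := fun c w hw => W.smul_mem ⟨c ^ p, c, rfl⟩ hw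
  have h1 : ∀ x (β : κ' → Fin p), φ x * ψ (∏ k, t₂ k ^ (β k : ℕ)) ∈ W := fun x β => by
    obtain ⟨c, rfl⟩ := hs x
    rw [map_sum, Finset.sum_mul]
    refine sum_mem fun a _ => ?_
    rw [map_mul, map_pow, mul_assoc]
    exact hW _ _ (Submodule.subset_span ⟨(a, β), rfl⟩)
  have h2 : ∀ x y, φ x * ψ y ∈ W := fun x y => by
    obtain ⟨c, rfl⟩ := mono_psp p h'' ht'' y
    rw [map_sum, Finset.mul_sum]
    refine sum_mem fun γ _ => ?_
    convert hW (ψ (c γ)) _
      (h1 (x * ∏ k, t₀ k ^ (γ (Sum.inl k) : ℕ)) fun k => γ (Sum.inr k)) using 1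
    simp only [Fintype.prod_sum_type, map_mul, map_pow, map_prod, e, Sum.elim_inl, Sum.elim_inr]
    ring
  have h3 : ∀ z, z ∈ W := fun z => by
    have a1 : z ∈ IntermediateField.adjoin F (Set.range φ ∪ Set.range ψ) := by
      refine (IntermediateField.adjoin_subset_adjoin_iff K (F' := F)
        (S := Set.range φ ∪ Set.range ψ)).2 ⟨?_, IntermediateField.subset_adjoin _ _⟩
        (by rw [hg]; trivial)
      rintro _ ⟨c, rfl⟩
      exact IntermediateField.subset_adjoin F _ (Or.inl ⟨_, φ.commutes c⟩)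
    rw [← IntermediateField.mem_toSubalgebra, IntermediateField.adjoin_toSubalgebra_of_isAlgebraic
      fun x _ => Algebra.IsAlgebraic.isAlgebraic x, ← Subalgebra.mem_toSubmodule,
      Algebra.adjoin_eq_span] at a1
    refine Submodule.span_le.2 (fun w hw => ?_) a1
    obtain ⟨x, y, rfl⟩ : ∃ x y, w = φ x * ψ y := by
      induction hw using Submonoid.closure_induction with
      | mem w hw =>
        rcases hw with ⟨x, rfl⟩ | ⟨y, rfl⟩
        exacts [⟨x, 1, by simp⟩, ⟨1, y, by simp⟩]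
      | one => exact ⟨1, 1, by simp⟩
      | mul a b _ _ ha hb =>
        obtain ⟨x, y, rfl⟩ := ha
        obtain ⟨x', y', rfl⟩ := hb
        exact ⟨x * x', y * y', by rw [map_mul, map_mul]; ring⟩
    exact h2 x y
  have h4 : PIn p u := pin_of_psp p (fun z => by
    obtain ⟨c, hc⟩ := (Submodule.mem_span_range_iff_exists_fun F).1 (h3 z)
    choose d hd using fun i => (c i).2
    exact ⟨d, hc.symm.trans (Finset.sum_congr rfl fun i _ => congrArg (· * u i) (hd i).symm)⟩) (by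
      simp [d1, d2, pow_add])
  refine ⟨_, inferInstance, _, mono_psp p h' ht', fun c hc => V8_comp p h4
    (f := fun β => (⟨0, Nat.pos_of_ne_zero n1⟩, β)) (fun a b q => congrArg Prod.snd q) c ?_⟩
  have := congrArg (φ (s ⟨0, Nat.pos_of_ne_zero n1⟩) * ·) hc
  simp only [mul_zero, Finset.mul_sum, map_prod, map_pow, RingHom.coe_coe, e'] at this
  simpa only [u, map_prod, map_pow, mul_left_comm] using this

end Pool.Agent.Work.MP_ffcd14_ag.Tr
end

-- merged part: Pool.Agent.Work.MP_ffcd14_ag.Tr.V12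
section
/-!
# Joint points

Plan.  Let `G = cl (range (ξ.x ∘ μ))`, `G' = cl (range (ξ'.x ∘ μ'))` (`Pt.ch_crd`), and `G''` the
field of a tight point `τ` over `Sum.elim (ξ.trop ∘ μ) (ξ'.trop ∘ μ')` (`exists_mono`), with the
isometric maps `α : G → G''`, `α' : G' → G''` (`exists_iso`, `cl_sub_top`).  `exists_cmp` for
`ξ.Ω / G` and `α` (`sep_sub`) gives fields `L a`; the maps `φ a` are isometric (`iso_of_fd`).  For
each `a`, `exists_cmp` for `ξ'.Ω / G'` and `(ι a).comp α'` (`sep_step`) gives fields `L a b`.  The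
points are indexed by `Σ a, Fin (m a)`, with coordinates the images of `ξ.x` and `ξ'.x`.  The
closed field generated by the characters is the image of `G''` (`Iso.range_eq`), degrees multiply
in the tower `G'' ⊆ L a ⊆ L a b`.  Tightness, `ineq` and the covering property follow from `gen`,
`ineq`, `cov` used twice and `ext_cl`.
-/

namespace Pool.Agent.Work.MP_ffcd14_ag.Tr

open MvPolynomial Filter Topology
open scoped ENNReal

set_option linter.unusedSectionVars false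

universe u

variable {K : Type u} [NontriviallyNormedField K] [IsUltrametricDist K] [CompleteSpace K]
  [IsAlgClosed K] {ι ι' ι'' κ κ' : Type} [Fintype ι] [DecidableEq ι] [Fintype ι']
  [DecidableEq ι'] [Fintype ι''] [DecidableEq ι''] [Fintype κ] [DecidableEq κ] [Fintype κ']
  [DecidableEq κ']

section

variable {Ω Ω' : Type u} [NormedField Ω] [NormedAlgebra K Ω] [NormedField Ω'] [NormedAlgebra K Ω']

theorem V12_mem {ψ : Ω →ₐ[K] Ω'} (hψ : Iso ψ) {s : Set Ω} (hs : cl K s = ⊤) {s' : Set Ω'}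
    (h : ∀ z ∈ s, ψ z ∈ cl K s') (z : Ω) : ψ z ∈ cl K s' := by
  have h1 : cl K s ≤ (cl K s').comap ψ := cl_le ((isClosed_cl K s').preimage hψ.continuous) h
  exact h1 (hs.ge IntermediateField.mem_top)

theorem V12_ext {ψ ψ' : Ω →ₐ[K] Ω'} (h : Iso ψ) (h' : Iso ψ') {s : Set Ω} (hs : cl K s = ⊤)
    (e : ∀ z ∈ s, ψ z = ψ' z) (z : Ω) : ψ z = ψ' z :=
  ext_cl h.continuous h'.continuous e (hs.ge IntermediateField.mem_top)

theorem V12_top {s : Set Ω} (hs : IntermediateField.adjoin K s = ⊤) : cl K s = ⊤ :=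
  top_le_iff.1 (hs.ge.trans (IntermediateField.adjoin_le_iff.2 (subset_cl s)))

theorem V12_iso [CompleteSpace Ω] {s : Set Ω} [FiniteDimensional (cl K s) Ω]
    {j : cl K s →ₐ[K] Ω'} (hj : Iso j) (C : Cmp (F := Ω) j) (a : Fin C.m) : Iso (C.φ a) := by
  have : FiniteDimensional (cl K s).val.fieldRange Ω := by
    rw [IntermediateField.fieldRange_val]
    infer_instance
  refine iso_of_fd (iso_val (cl K s)) fun z => ?_
  exact (congrArg norm (C.cmp a z)).trans ((C.iso a _).trans (hj z))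

end

theorem V12_tower {k A B C : Type u} [Field k] [Field A] [Field B] [Field C] [Algebra k A]
    [Algebra k B] [Algebra k C] (f : A →ₐ[k] B) (g : B →ₐ[k] C) :
    Module.finrank (g.comp f).fieldRange C =
      Module.finrank f.fieldRange B * Module.finrank g.fieldRange C := by
  have h1 : f.fieldRange.map g ≤ g.fieldRange := by
    rw [g.fieldRange_eq_map]
    exact IntermediateField.map_mono g le_top
  rw [← AlgHom.map_fieldRange, ← IntermediateField.relfinrank_mul_finrank_top h1,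
    g.fieldRange_eq_map, IntermediateField.relfinrank_map_map,
    IntermediateField.relfinrank_top_right]

theorem V12_fin {S : Set (Pt K ι)} {χ : κ → ι → ℤ} {A : Type} [Fintype A] {ζ : A → Pt K ι}
    (h : Fam S χ ζ) {P : Pt K ι → Prop} {Q : Pt K ι → Prop}
    (hc : ∀ z, P z → Q z → ∃ a, (ζ a).Le z) {n : ℕ} (hn : ∑ a, (ζ a).dg χ = n) :
    ∃ (m : ℕ) (ζ : Fin m → Pt K ι), Fam S χ ζ ∧ (∀ z, P z → Q z → ∃ a, (ζ a).Le z) ∧
      ∑ a, (ζ a).dg χ = n := by
  obtain ⟨e⟩ : Nonempty (Fin (Fintype.card A) ≃ A) := ⟨(Fintype.equivFin A).symm⟩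
  refine ⟨_, fun a => ζ (e a), ⟨fun a => h.mem _, fun a => h.tight _, fun a => h.fd _,
    fun a b k => e.injective (h.ineq _ _ k)⟩, fun z h1 h2 => ?_, ?_⟩
  · obtain ⟨a, ha⟩ := hc z h1 h2
    exact ⟨e.symm a, by beta_reduce; rwa [e.apply_symm_apply]⟩
  · rw [← hn]
    exact e.sum_comp fun a => (ζ a).dg χ

theorem V12_norm {Ω Ω' : Type u} [NormedField Ω] [NormedField Ω'] {x : Ω} {y : Ω'} (hx : x ≠ 0)
    (hy : y ≠ 0) (h : Real.log ‖x‖ = Real.log ‖y‖) : ‖x‖ = ‖y‖ :=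
  Real.log_injOn_pos (norm_pos_iff.2 hx) (norm_pos_iff.2 hy) h

theorem exists_joint (p : ℕ) [Fact p.Prime] [CharP K p] (e : ι ⊕ ι' ≃ ι'') (μ : κ → ι)
    (μ' : κ' → ι') {ξ : Pt K ι} {ξ' : Pt K ι'} (ht : ξ.Tight) (ht' : ξ'.Tight)
    (hf : ξ.Fd (crd μ)) (hf' : ξ'.Fd (crd μ'))
    (hg : Gen K (Sum.elim (ξ.trop ∘ μ) (ξ'.trop ∘ μ'))) :
    ∃ (m : ℕ) (ζ : Fin m → Pt K ι''),
      Fam {z | ξ.Le (z.res fun i => e (Sum.inl i)) ∧ ξ'.Le (z.res fun i => e (Sum.inr i))}
        (crd fun k => e (Sum.map μ μ' k)) ζ ∧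
      (∀ z : Pt K ι'', ξ.Le (z.res fun i => e (Sum.inl i)) → ξ'.Le (z.res fun i => e (Sum.inr i)) →
        ∃ a, (ζ a).Le z) ∧
      ∑ a, (ζ a).dg (crd fun k => e (Sum.map μ μ' k)) = ξ.dg (crd μ) * ξ'.dg (crd μ') := by
  obtain ⟨τ, hτ, tτ⟩ := exists_mono (K := K) (Sum.elim (ξ.trop ∘ μ) (ξ'.trop ∘ μ'))
  have gτ : GenT K τ.x := ⟨τ.ne, by rw [← hτ] at hg; exact hg⟩
  have c1 := ξ.ch_crd μ
  have c2 := ξ'.ch_crd μ'
  unfold Pt.dg
  unfold Pt.Fd at hf hf'
  generalize ξ.ch (crd μ) = t at hf c1 ⊢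
  generalize ξ'.ch (crd μ') = t' at hf' c2 ⊢
  have n1 : ∀ k, ‖t k‖ = ‖τ.x (Sum.inl k)‖ := fun k => by
    rw [c1]
    exact V12_norm (ξ.ne _) (τ.ne _) (congrFun hτ (Sum.inl k)).symm
  have n2 : ∀ k, ‖t' k‖ = ‖τ.x (Sum.inr k)‖ := fun k => by
    rw [c2]
    exact V12_norm (ξ'.ne _) (τ.ne _) (congrFun hτ (Sum.inr k)).symm
  have g1 : GenT K fun k => τ.x (Sum.inl k) := ⟨fun _ => τ.ne _, gτ.2.comp Sum.inl_injective⟩
  have g2 : GenT K fun k => τ.x (Sum.inr k) := ⟨fun _ => τ.ne _, gτ.2.comp Sum.inr_injective⟩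
  have e0 : τ.x = Sum.elim (fun k => τ.x (Sum.inl k)) fun k => τ.x (Sum.inr k) :=
    funext fun k => by cases k <;> rfl
  have b1 := cl_sub_top (K := K) t
  have b2 := cl_sub_top (K := K) t'
  obtain ⟨s, hs⟩ : ∃ s : κ → cl K (Set.range t), s = fun k => ⟨t k, subset_cl _ ⟨k, rfl⟩⟩ :=
    ⟨_, rfl⟩
  obtain ⟨s', hs'⟩ : ∃ s' : κ' → cl K (Set.range t'), s' = fun k => ⟨t' k, subset_cl _ ⟨k, rfl⟩⟩ :=
    ⟨_, rfl⟩
  rw [← hs] at b1
  rw [← hs'] at b2
  have d1 : ∀ k, algebraMap _ ξ.Ω (s k) = ξ.x (μ k) := fun k => by rw [hs, ← c1]; rfl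
  have d2 : ∀ k, algebraMap _ ξ'.Ω (s' k) = ξ'.x (μ' k) := fun k => by rw [hs', ← c2]; rfl
  have m1 : ∀ k, ‖s k‖ = ‖τ.x (Sum.inl k)‖ := fun k => by rw [hs]; exact n1 k
  have m2 : ∀ k, ‖s' k‖ = ‖τ.x (Sum.inr k)‖ := fun k => by rw [hs']; exact n2 k
  obtain ⟨α, iα, hα⟩ := exists_iso (g1.congr m1) b1 fun k => (m1 k).symm
  obtain ⟨α', iα', hα'⟩ := exists_iso (g2.congr m2) b2 fun k => (m2 k).symm
  obtain ⟨C⟩ := exists_cmp (F := ξ.Ω) p α
    (sep_sub p (g1.congr m1) b1 (e0 ▸ gτ) (e0 ▸ tτ) α hα)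
  have iφ := V12_iso iα C
  have f1 : ∀ a k, C.φ a (ξ.x (μ k)) = C.ι a (τ.x (Sum.inl k)) := fun a k => by
    rw [← d1, C.cmp, hα]
  have hC' : ∀ a, Nonempty (Cmp (F := ξ'.Ω) ((C.ι a).comp α')) := fun a => by
    have := C.fd a
    exact exists_cmp p _ (sep_step p (g1.congr n1) (e0 ▸ gτ) (e0 ▸ tτ) (C.φ a) (C.ι a) (C.gen a)
      (fun k => by rw [c1, f1]) (g2.congr m2) b2 _ fun k => congrArg (C.ι a) (hα' k))
  obtain ⟨C'⟩ : Nonempty (∀ a, Cmp (F := ξ'.Ω) ((C.ι a).comp α')) := inferInstance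
  have iφ' := fun a => V12_iso (Ω := ξ'.Ω) (s := Set.range t') ((C.iso a).comp iα') (C' a)
  have f2 : ∀ a b k, (C' a).φ b (ξ'.x (μ' k)) = (C' a).ι b (C.ι a (τ.x (Sum.inr k))) :=
    fun a b k => (congrArg _ (d2 k).symm).trans (((C' a).cmp b _).trans
      (congrArg (fun z => (C' a).ι b (C.ι a z)) (hα' k)))
  obtain ⟨x, x1, x2⟩ : ∃ x : ∀ a b, ι'' → ((C' a).L b).Ω,
      (∀ a b i, x a b (e (Sum.inl i)) = (C' a).ι b (C.φ a (ξ.x i))) ∧
        ∀ a b i, x a b (e (Sum.inr i)) = (C' a).φ b (ξ'.x i) :=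
    ⟨fun a b i => Sum.elim (fun i => (C' a).ι b (C.φ a (ξ.x i))) (fun i => (C' a).φ b (ξ'.x i))
      (e.symm i), fun a b i => by beta_reduce; rw [e.symm_apply_apply]; rfl,
      fun a b i => by beta_reduce; rw [e.symm_apply_apply]; rfl⟩
  have x0 : ∀ a b i, x a b i ≠ 0 := by
    intro a b
    refine e.surjective.forall.2 (Sum.forall.2 ⟨fun i => ?_, fun i => ?_⟩)
    · exact (x1 a b i).trans_ne ((map_ne_zero _).2 ((map_ne_zero _).2 (ξ.ne i)))
    · exact (x2 a b i).trans_ne ((map_ne_zero _).2 (ξ'.ne i))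
  have x3 : ∀ a b k, x a b (e (Sum.map μ μ' k)) = (((C' a).ι b).comp (C.ι a)) (τ.x k) := by
    rintro a b (k | k)
    · exact (x1 a b _).trans (congrArg _ (f1 a k))
    · exact (x2 a b _).trans (f2 a b k)
  obtain ⟨ζ, hζ⟩ : ∃ ζ : (Σ a : Fin C.m, Fin (C' a).m) → Pt K ι'',
      ζ = fun c => ⟨(C' c.1).L c.2, x c.1 c.2, x0 c.1 c.2⟩ := ⟨_, rfl⟩
  have r1 : ∀ a b, cl K (Set.range ((⟨(C' a).L b, x a b, x0 a b⟩ : Pt K ι'').ch
      (crd fun k => e (Sum.map μ μ' k)))) = (((C' a).ι b).comp (C.ι a)).fieldRange := by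
    intro a b
    rw [(((C' a).iso b).comp (C.iso a)).range_eq tτ]
    exact congrArg (fun y => cl K (Set.range y)) (funext fun k =>
      (Pt.ch_crd _ _ k).trans (x3 a b k))
  have r2 : ∀ a b, (ζ ⟨a, b⟩).dg (crd fun k => e (Sum.map μ μ' k)) =
      Module.finrank (C.ι a).fieldRange (C.L a).Ω *
        Module.finrank ((C' a).ι b).fieldRange ((C' a).L b).Ω := by
    intro a b
    rw [← V12_tower, ← r1, hζ]
    rfl
  refine V12_fin (ζ := ζ) ⟨?_, ?_, ?_, ?_⟩ ?_ ?_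
  · rintro ⟨a, b⟩
    rw [hζ]
    exact ⟨⟨((C' a).ι b).comp (C.φ a), ((C' a).iso b).comp (iφ a), fun i => (x1 a b i).symm⟩,
      (C' a).φ b, iφ' a b, fun i => (x2 a b i).symm⟩
  · rintro ⟨a, b⟩
    rw [hζ]
    have k0 : ∀ i, x a b i ∈ cl K (Set.range (x a b)) := fun i => subset_cl _ ⟨i, rfl⟩
    have k1 := V12_mem (iφ' a b) ht' (s' := Set.range (x a b))
      (by rintro _ ⟨i, rfl⟩; exact x2 a b i ▸ k0 _)
    have k2 := V12_mem (((C' a).iso b).comp (iφ a)) ht (s' := Set.range (x a b))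
      (by rintro _ ⟨i, rfl⟩; exact (x1 a b i).subst (k0 _))
    have k3 := V12_mem (((C' a).iso b).comp (C.iso a)) tτ (s' := Set.range (x a b))
      (by rintro _ ⟨i, rfl⟩; exact x3 a b i ▸ k0 _)
    have k4 := V12_mem ((C' a).iso b) (V12_top (C.gen a)) (s' := Set.range (x a b))
      (by rintro _ (⟨z, rfl⟩ | ⟨z, rfl⟩); exacts [k2 z, k3 z])
    refine top_le_iff.1 (((C' a).gen b).ge.trans (IntermediateField.adjoin_le_iff.2 ?_))
    rintro _ (⟨z, rfl⟩ | ⟨z, rfl⟩)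
    exacts [k1 z, k4 z]
  · rintro ⟨a, b⟩
    have := C.fd a
    have := (C' a).fd b
    refine Module.finite_of_finrank_pos (lt_of_lt_of_eq ?_ (r2 a b).symm)
    exact Nat.mul_pos Module.finrank_pos Module.finrank_pos
  · rintro ⟨a, b⟩ ⟨a', b'⟩ h
    rw [hζ] at h
    obtain ⟨ψ, iψ, hψ⟩ : ∃ ψ : ((C' a).L b).Ω →ₐ[K] ((C' a').L b').Ω, Iso ψ ∧
      ∀ i, ψ (x a b i) = x a' b' i := h
    have k1 := V12_ext (iψ.comp (iφ' a b)) (iφ' a' b') ht' (by
      rintro _ ⟨i, rfl⟩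
      exact (congrArg ψ (x2 a b i).symm).trans ((hψ _).trans (x2 a' b' i)))
    have k2 := V12_ext (iψ.comp (((C' a).iso b).comp (iφ a))) (((C' a').iso b').comp (iφ a')) ht (by
      rintro _ ⟨i, rfl⟩
      exact (congrArg ψ (x1 a b i).symm).trans ((hψ _).trans (x1 a' b' i)))
    have k3 := V12_ext (iψ.comp (((C' a).iso b).comp (C.iso a)))
      (((C' a').iso b').comp (C.iso a')) tτ (by
      rintro _ ⟨i, rfl⟩
      exact (congrArg ψ (x3 a b i).symm).trans ((hψ _).trans (x3 a' b' i)))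
    obtain rfl := C.ineq a a' _ (ψ.comp ((C' a).ι b)) ((C' a').ι b') k2 k3
    have k4 := V12_ext (iψ.comp ((C' a).iso b)) ((C' a).iso b') (V12_top (C.gen a))
      (by rintro _ (⟨z, rfl⟩ | ⟨z, rfl⟩); exacts [k2 z, k3 z])
    obtain rfl := (C' a).ineq b b' _ ψ (AlgHom.id K _) k1 k4
    rfl
  · rintro z ⟨θ, iθ, hθ⟩ ⟨θ', iθ', hθ'⟩
    have hθ : ∀ i, θ (ξ.x i) = z.x (e (Sum.inl i)) := hθ
    have hθ' : ∀ i, θ' (ξ'.x i) = z.x (e (Sum.inr i)) := hθ'
    obtain ⟨η, iη, hη⟩ := exists_iso gτ tτ (t' := fun k => z.x (e (Sum.map μ μ' k))) (by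
      rintro (k | k)
      · exact (congrArg norm (hθ _)).symm.trans ((iθ _).trans (c1 k ▸ n1 k))
      · exact (congrArg norm (hθ' _)).symm.trans ((iθ' _).trans (c2 k ▸ n2 k)))
    obtain ⟨a, ψ, iψ, k1, k2⟩ := C.cov z.toCF θ η iη
      (V12_ext (iθ.comp (iso_val _)) (iη.comp iα) b1 (by
        rintro _ ⟨k, rfl⟩
        exact ((congrArg θ (d1 k)).trans (hθ _)).trans
          ((congrArg η (hα k)).trans (hη _)).symm))
    obtain ⟨b, ψ', iψ', k3, k4⟩ := (C' a).cov z.toCF θ' ψ iψ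
      (V12_ext (iθ'.comp (iso_val _)) (iψ.comp ((C.iso a).comp iα')) b2 (by
        rintro _ ⟨k, rfl⟩
        exact ((congrArg θ' (d2 k)).trans (hθ' _)).trans
          ((k2 _).trans ((congrArg η (hα' k)).trans (hη _))).symm))
    refine ⟨⟨a, b⟩, ?_⟩
    rw [hζ]
    refine ⟨ψ', iψ', e.surjective.forall.2 (Sum.forall.2 ⟨fun i => ?_, fun i => ?_⟩)⟩
    · exact (congrArg ψ' (x1 a b i)).trans ((k4 _).trans ((k1 _).trans (hθ i)))
    · exact (congrArg ψ' (x2 a b i)).trans ((k3 _).trans (hθ' i))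
  · rw [Fintype.sum_sigma]
    simp only [r2, ← Finset.mul_sum, Cmp.sum, ← Finset.sum_mul]

end Pool.Agent.Work.MP_ffcd14_ag.Tr
end
end

-- merged part: Pool.Agent.Work.MP_ffcd14_ag.Tr.V13
section
/-!
# Multiplicities of products, measurability

Plan.  `mlt_prod`.  `≤`: for witnesses `ζ b` of `Ind`, dominate their two restrictions by families
`ξ a`, `ξ' a'` (`exists_dom`); the joint points (`exists_joint`) of all pairs dominate the `ζ b`;
`le_of_ind` (for the set `range ζ`), `ind_of_fam`.  `≥`: for families `ξ`, `ξ'` the joint points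
form a family (`Pt.le_of_tight` for `ineq`), `ind_of_fam`; then `mlt_le` twice
(`ENNReal.iSup_mul`, or divide; treat the cases `0` and `⊤`).
`isClosed_indW`: sequences; `Filter.hyperfilter`, `exists_lim` for each of the `m` witnesses,
`Lim.trop`; both sides of the inequality are norms of values of Laurent polynomials
(`Pt.exists_ev_mon`); the index `a` is constant along the ultrafilter
(`Ultrafilter.eventually_exists_iff` or `Ultrafilter.finite_biUnion_mem_iff`).  The case `m = 0`: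
then `k = 0` or the set is empty.  `measurable_mlt`: `Measurable.iSup`, countable unions.
-/

namespace Pool.Agent.Work.MP_ffcd14_ag.Tr

open MvPolynomial Filter Topology
open scoped ENNReal

set_option linter.unusedSectionVars false

universe u

variable {K : Type u} [NontriviallyNormedField K] [IsUltrametricDist K] [CompleteSpace K]
  [IsAlgClosed K] {ι ι' ι'' κ κ' : Type} [Fintype ι] [DecidableEq ι] [Fintype ι']
  [DecidableEq ι'] [Fintype ι''] [DecidableEq ι''] [Fintype κ] [DecidableEq κ] [Fintype κ']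
  [DecidableEq κ']

theorem V13_fam {S : Set (Pt K ι)} {χ : κ → ι → ℤ} {y : ι → ℝ} (h : Nice S χ y) {k : ℕ}
    (hk : Ind S χ k) : ∃ (m : ℕ) (ξ : Fin m → Pt K ι), Fam S χ ξ ∧ k ≤ ∑ a, (ξ a).dg χ := by
  obtain ⟨m, N, α, ζ, h1, h2⟩ := hk
  obtain ⟨n, ξ, f, c⟩ := exists_dom h ζ h1
  exact ⟨n, ξ, f, le_of_ind (S := Set.range ζ) h.gen (fun a => h.trop _ (f.mem a)) f.fd
    (Set.forall_mem_range.2 c) ⟨m, N, α, ζ, fun a => ⟨a, rfl⟩, h2⟩⟩

theorem V13_joint (p : ℕ) [Fact p.Prime] [CharP K p] (e : ι ⊕ ι' ≃ ι'') {μ : κ → ι} {μ' : κ' → ι'}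
    {S : Set (Pt K ι)} {S' : Set (Pt K ι')} {y : ι → ℝ} {y' : ι' → ℝ} (h : Nice S (crd μ) y)
    (h' : Nice S' (crd μ') y') (hg : Gen K (Sum.elim (y ∘ μ) (y' ∘ μ'))) {n n' : ℕ}
    {ξ : Fin n → Pt K ι} {ξ' : Fin n' → Pt K ι'} (f : Fam S (crd μ) ξ) (f' : Fam S' (crd μ') ξ') :
    ∃ (A : Type) (_ : Fintype A) (η : A → Pt K ι''),
      Fam {z : Pt K ι'' | (z.res fun i => e (Sum.inl i)) ∈ S ∧ (z.res fun i => e (Sum.inr i)) ∈ S'}
        (crd fun k => e (Sum.map μ μ' k)) η ∧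
      (∀ z : Pt K ι'', (∃ a, (ξ a).Le (z.res fun i => e (Sum.inl i))) →
        (∃ b, (ξ' b).Le (z.res fun i => e (Sum.inr i))) → ∃ c, (η c).Le z) ∧
      ∑ c, (η c).dg (crd fun k => e (Sum.map μ μ' k)) =
        (∑ a, (ξ a).dg (crd μ)) * ∑ b, (ξ' b).dg (crd μ') := by
  choose m ζ g d s using fun a : Fin n × Fin n' => exists_joint p e μ μ' (f.tight a.1)
    (f'.tight a.2) (f.fd a.1) (f'.fd a.2) (by rwa [h.trop _ (f.mem _), h'.trop _ (f'.mem _)])
  refine ⟨Σ a, Fin (m a), inferInstance, fun c => ζ c.1 c.2, ⟨fun c => ?_, fun c => (g _).tight _,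
    fun c => (g _).fd _, ?_⟩, ?_, ?_⟩
  · exact ⟨(h.sat _ _ ((g _).mem c.2).1).1 (f.mem _), (h'.sat _ _ ((g _).mem c.2).2).1 (f'.mem _)⟩
  · rintro ⟨⟨a, b⟩, c⟩ ⟨⟨a', b'⟩, c'⟩ k
    obtain rfl : a = a' := f.ineq _ _
      (Pt.le_of_tight (f.tight a) (((g _).mem c).1.trans (k.res _)) ((g _).mem c').1)
    obtain rfl : b = b' := f'.ineq _ _
      (Pt.le_of_tight (f'.tight b) (((g _).mem c).2.trans (k.res _)) ((g _).mem c').2)
    rw [(g _).ineq c c' k]
  · rintro z ⟨a, ha⟩ ⟨b, hb⟩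
    obtain ⟨c, hc⟩ := d (a, b) z ha hb
    exact ⟨⟨(a, b), c⟩, hc⟩
  · rw [Fintype.sum_sigma, Finset.sum_mul_sum, ← Fintype.sum_prod_type']
    exact Finset.sum_congr rfl fun a _ => s a

theorem mlt_prod (p : ℕ) [Fact p.Prime] [CharP K p] (e : ι ⊕ ι' ≃ ι'') {μ : κ → ι} {μ' : κ' → ι'}
    {S : Set (Pt K ι)} {S' : Set (Pt K ι')} {y : ι → ℝ} {y' : ι' → ℝ} (h : Nice S (crd μ) y)
    (h' : Nice S' (crd μ') y') (hg : Gen K (Sum.elim (y ∘ μ) (y' ∘ μ'))) :
    mlt {z : Pt K ι'' | (z.res fun i => e (Sum.inl i)) ∈ S ∧ (z.res fun i => e (Sum.inr i)) ∈ S'}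
      (crd fun k => e (Sum.map μ μ' k)) = mlt S (crd μ) * mlt S' (crd μ') := by
  have ho : Over {z : Pt K ι'' | (z.res fun i => e (Sum.inl i)) ∈ S ∧
      (z.res fun i => e (Sum.inr i)) ∈ S'} (crd fun k => e (Sum.map μ μ' k))
      (Sum.elim y y' ∘ e.symm) := by
    refine ⟨fun z hz => funext fun i => ?_, ?_⟩
    · obtain ⟨i | i, rfl⟩ := e.surjective i
      · simpa using congrFun ((Pt.res_trop z _).symm.trans (h.trop _ hz.1)) i
      · simpa using congrFun ((Pt.res_trop z _).symm.trans (h'.trop _ hz.2)) i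
    · rw [chi_crd]
      convert hg using 1
      funext k
      rcases k with k | k <;> simp
  refine le_antisymm (iSup₂_le ?_) ?_
  · rintro k ⟨m, N, α, ζ, h1, h2⟩
    obtain ⟨n, ξ, f, c⟩ := exists_dom h _ fun b => (h1 b).1
    obtain ⟨n', ξ', f', c'⟩ := exists_dom h' _ fun b => (h1 b).2
    obtain ⟨A, _, η, g, d, s⟩ := V13_joint p e h h' hg f f'
    have := le_of_ind (S := Set.range ζ) ho.gen (fun a => ho.trop _ (g.mem a)) g.fd
      (Set.forall_mem_range.2 fun b => d _ (c b) (c' b)) ⟨m, N, α, ζ, fun a => ⟨a, rfl⟩, h2⟩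
    rw [s] at this
    exact (Nat.cast_le.2 this).trans ((Nat.cast_mul _ _).le.trans
      (mul_le_mul' (ind_of_fam h.toOver f).le_mlt (ind_of_fam h'.toOver f').le_mlt))
  · rw [mlt, mlt]
    simp only [ENNReal.iSup_mul, ENNReal.mul_iSup, iSup_le_iff]
    intro k' hk' k hk
    obtain ⟨n, ξ, f, c⟩ := V13_fam h hk
    obtain ⟨n', ξ', f', c'⟩ := V13_fam h' hk'
    obtain ⟨A, _, η, g, -, s⟩ := V13_joint p e h h' hg f f'
    refine le_trans ?_ (ind_of_fam ho g).le_mlt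
    rw [s]
    exact_mod_cast Nat.mul_le_mul c c'

theorem TV.nice {S : Set (Pt K ι)} {d : ℕ} (h : TV S d) {μ : κ → ι} (hd : Fintype.card κ = d)
    {y : ι → ℝ} (hg : Gen K (y ∘ μ)) : Nice (fib S y) (crd μ) y := by
  exact ⟨⟨fun _ k => k.2, (chi_crd μ y).symm ▸ hg⟩,
    fun ξ ζ k => and_congr (h.sat ξ ζ k) (by rw [k.trop]),
    fun ξ k t => h.fd ξ k.1 t κ μ hd (k.2.symm ▸ hg)⟩

theorem isClosed_indW {S : Set (Pt K ι)} {d : ℕ} (h : TV S d) (χ : κ → ι → ℤ) (k m N : ℕ)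
    (α : Fin k → ι → ℤ) : IsClosed {y | IndW (fib S y) χ k m N α} := by
  refine IsSeqClosed.isClosed fun y y₀ hy hl => ?_
  choose ξ h1 h2 using hy
  obtain ⟨R, hR⟩ := (Metric.isBounded_range_of_tendsto y hl).exists_norm_le
  have hb : ∀ a, Bdd fun n => ξ n a := fun a => ⟨R, fun n i => by
    rw [(h1 n a).2]
    exact (norm_le_pi_norm (y n) i).trans (hR _ ⟨n, rfl⟩)⟩
  choose η hη using fun a => exists_lim (hb a) (hyperfilter ℕ)
  refine ⟨η, fun a => ⟨h.lim _ _ _ (fun n => (h1 n a).1) (hb a) (hη a), tendsto_nhds_unique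
    ((hη a).trop.congr fun n => (h1 n a).2) (hl.mono_left Nat.hyperfilter_le_atTop)⟩, fun c i => ?_⟩
  obtain ⟨a, ha⟩ := (Ultrafilter.eventually_exists_iff (f := hyperfilter ℕ)).1
    (Eventually.of_forall fun n => h2 n c i)
  choose q hq using Pt.exists_ev_mon (K := K) (ι := ι)
  have e : ∀ (ζ : Pt K ι) (c : MvPolynomial κ K),
      ζ.ev (aeval (fun k => q (χ k)) c) = aeval (ζ.ch χ) c := fun ζ c => by
    rw [comp_aeval_apply]
    simp only [hq]
    rfl
  have t1 := hη a (aeval (fun k => q (χ k)) (c i))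
  have t2 := (hη a (∑ j, aeval (fun k => q (χ k)) (c j) * q (α j))).const_mul (N : ℝ)
  simp only [map_sum, map_mul, e, hq] at t1 t2
  exact ⟨a, le_of_tendsto_of_tendsto t1 t2 ha⟩

theorem measurable_mlt {S : Set (Pt K ι)} {d : ℕ} (h : TV S d) (χ : κ → ι → ℤ) :
    Measurable fun y => mlt (fib S y) χ := by
  classical
  refine Measurable.iSup fun k => ?_
  simp only [iSup_eq_if]
  refine Measurable.ite ?_ measurable_const measurable_const
  simp only [Ind, Set.ofPred_exists]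
  exact .iUnion fun m => .iUnion fun N => .iUnion fun α => (isClosed_indW h χ k m N α).measurableSet

end Pool.Agent.Work.MP_ffcd14_ag.Tr
end

-- merged part: Pool.Agent.Work.MP_ffcd14_ag.Ry.W4
section
/-!
# The multiplicity for orthogonal characters

Plan.  Copy `ind_of_fam` (`Tr/V10`), `le_of_ind`, `exists_dom`, `mlt_eq`, `mlt_le`
(`Tr/V11`), `V13_fam`, `isClosed_indW`, `measurable_mlt` (`Tr/V13`).  `W4_model`: the
model is the closed subfield of `ξ₀.Ω` generated by the characters (`cl_sub`, `cl_sub_top`,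
`ort_map (iso_val _)`, `Ort.exists_iso` for the translated characters).  If the index type is empty
treat `ind_of_fam` and `le_of_ind` directly.  `measurable_mlt`: finitely many points of the
increasing union lie in one `S N`, so the set of the `y` with `IndW (fib (⋃ N, S N) y) …` is the
union over `N` of closed sets.
-/

namespace Pool.Agent.Work.MP_ffcd14_ag.Ry

open MvPolynomial Filter Topology Tr
open scoped ENNReal

set_option linter.unusedSectionVars false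

universe u

variable {K : Type u} [NontriviallyNormedField K] [IsUltrametricDist K] [CompleteSpace K]
  [IsAlgClosed K] {Ω Ω' : Type u} [NormedField Ω] [NormedAlgebra K Ω] [NormedField Ω']
  [NormedAlgebra K Ω'] {ι ι' ι'' κ κ' : Type} [Fintype κ] [DecidableEq κ] [Fintype κ']
  [DecidableEq κ']

variable [Fintype ι] [DecidableEq ι] {S : Set (Pt K ι)} {χ : κ → ι → ℤ} {c : κ → K} {y : κ → ℝ}

theorem W4_model (ho : Ov S χ c y) {ξ₀ : Pt K ι} (h₀ : ξ₀ ∈ S) :
    ∃ (G : CF K) (t : κ → G.Ω), cl K (Set.range t) = ⊤ ∧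
      ∀ ξ ∈ S, ∃ j : G.Ω →ₐ[K] ξ.Ω, Iso j ∧ ∀ k, j (t k) = ξ.ch χ k := by
  let t : κ → cl K (Set.range (ξ₀.ch χ)) := fun k => ⟨ξ₀.ch χ k, subset_cl _ ⟨k, rfl⟩⟩
  have ht : cl K (Set.range t) = ⊤ := cl_sub_top (K := K) (ξ₀.ch χ)
  refine ⟨⟨cl K (Set.range (ξ₀.ch χ))⟩, t, ht, fun ξ hξ => ?_⟩
  have h1 : Ort K fun k => t k - algebraMap K _ (c k) :=
    (ort_map (iso_val (cl K (Set.range (ξ₀.ch χ))))).1 (ho.ort ξ₀ h₀)
  obtain ⟨j, hj, e⟩ := h1.exists_iso ((cl_sub t c).trans ht) (ho.ort ξ hξ)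
    fun k => (ho.nrm ξ hξ k).trans (ho.nrm ξ₀ h₀ k).symm
  refine ⟨j, hj, fun k => ?_⟩
  have := e k
  rw [map_sub, j.commutes, sh] at this
  exact sub_left_injective this

theorem Ov.ind_of_fam (ho : Ov S χ c y) {A : Type} [Fintype A] {ξ : A → Pt K ι}
    (h : Fam S χ ξ) : Ind S χ (∑ a, (ξ a).dg χ) := by
  cases isEmpty_or_nonempty A with
  | inl _ =>
    rw [Finset.univ_eq_empty, Finset.sum_empty]
    exact ⟨0, 0, Fin.elim0, Fin.elim0, fun a => a.elim0, fun _ i => i.elim0⟩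
  | inr hA =>
    obtain ⟨a₀⟩ := hA
    obtain ⟨G, t, ht, hj⟩ := W4_model ho (h.mem a₀)
    choose j hj e using fun a => hj (ξ a) (h.mem a)
    let _ : NontriviallyNormedField G.Ω :=
      { G.nf with
        non_trivial := by
          obtain ⟨c, hc⟩ := NormedField.exists_one_lt_norm K
          exact ⟨algebraMap K G.Ω c, by rwa [norm_algebraMap']⟩ }
    exact V10_mid h ht j hj e

theorem Ov.le_of_ind {S' : Set (Pt K ι)} (ho : Ov S' χ c y) {A : Type} [Fintype A]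
    {ξ : A → Pt K ι} (h1 : ∀ a, ξ a ∈ S') (h2 : ∀ a, (ξ a).Fd χ) (h3 : ∀ ζ ∈ S, ∃ a, (ξ a).Le ζ)
    {k : ℕ} (hk : Ind S χ k) : k ≤ ∑ a, (ξ a).dg χ := by
  classical
  obtain ⟨m, N, α, ζ, hζ, hk⟩ := hk
  rcases Nat.eq_zero_or_pos k with rfl | hk0
  · exact Nat.zero_le _
  obtain ⟨b₀, -⟩ := hk 0 ⟨0, hk0⟩
  obtain ⟨a₀, -⟩ := h3 _ (hζ b₀)
  obtain ⟨G, t, ht, hj⟩ := W4_model ho (h1 a₀)
  choose j hj hjx using fun a => hj (ξ a) (h1 a)
  have hr : ∀ a, (j a).fieldRange = cl K (Set.range ((ξ a).ch χ)) := fun a => by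
    rw [(hj a).range_eq ht]
    simp only [hjx]
  have hp : ∀ a (c : MvPolynomial κ K), aeval ((ξ a).ch χ) c = j a (aeval t c) := fun a c => by
    rw [← AlgHom.comp_apply, comp_aeval]
    simp only [hjx]
  have e1 : ∀ (c : Fin k → MvPolynomial κ K) (i : Fin k), ∃ a, ‖aeval t (c i)‖ ≤
      N * ‖∑ l, j a (aeval t (c l)) * (ξ a).mon (α l)‖ := fun c i => by
    obtain ⟨b, hb⟩ := hk c i
    obtain ⟨a, ψ, hψ, hx⟩ := h3 _ (hζ b)
    refine ⟨a, ?_⟩
    have hc : ∀ c : MvPolynomial κ K, aeval ((ζ b).ch χ) c = ψ (aeval ((ξ a).ch χ) c) := fun c => by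
      rw [← AlgHom.comp_apply, comp_aeval]
      simp only [Pt.ch, Pt.map_mon hx]
      rfl
    simp only [hc, ← Pt.map_mon hx, ← map_mul, ← map_sum, hψ _, hp, hj a _] at hb
    exact hb
  have e2 : ∀ (i : Fin k) (g : Fin k → G.Ω),
      ‖g i‖ ≤ N * ∑ a, ‖∑ l, j a (g l) * (ξ a).mon (α l)‖ := fun i g => by
    have hd : Dense (IntermediateField.adjoin K (Set.range t) : Set G.Ω) := by
      rw [dense_iff_closure_eq, ← coe_cl, ht]
      rfl
    have hd' := dense_pi (s := fun _ : Fin k => (IntermediateField.adjoin K (Set.range t) :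
      Set G.Ω)) Set.univ fun _ _ => hd
    refine hd'.induction (P := fun g : Fin k → G.Ω =>
      ‖g i‖ ≤ N * ∑ a, ‖∑ l, j a (g l) * (ξ a).mon (α l)‖) (fun g hg => ?_) ?_ g
    · have : ∀ l, ∃ r s : MvPolynomial κ K, aeval t s ≠ 0 ∧
          g l * aeval t s = aeval t r := fun l => by
        obtain ⟨r, s, e⟩ := (IntermediateField.mem_adjoin_range_iff K t (g l)).mp
          (hg l trivial)
        by_cases hs : aeval t s = 0
        · exact ⟨0, 1, by simp, by simp [e, hs]⟩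
        · exact ⟨r, s, hs, by rw [e, div_mul_cancel₀ _ hs]⟩
      choose r s hs hrs using this
      have hq : 0 < ‖aeval t (∏ l, s l)‖ := by
        rw [norm_pos_iff, map_prod]
        exact Finset.prod_ne_zero_iff.mpr fun l _ => hs l
      have hc : ∀ l, aeval t (r l * ∏ l' ∈ Finset.univ.erase l, s l') =
          aeval t (∏ l, s l) * g l := fun l => by
        rw [← Finset.mul_prod_erase _ s (Finset.mem_univ l), map_mul, map_mul, ← hrs]
        ring
      obtain ⟨a, ha⟩ := e1 (fun l => r l * ∏ l' ∈ Finset.univ.erase l, s l') i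
      simp only [hc, map_mul (j a), mul_assoc, ← Finset.mul_sum, norm_mul, hj a _] at ha
      rw [mul_left_comm] at ha
      refine (le_of_mul_le_mul_left ha hq).trans (mul_le_mul_of_nonneg_left ?_ N.cast_nonneg)
      exact Finset.single_le_sum (f := fun a => ‖∑ l, j a (g l) * (ξ a).mon (α l)‖)
        (fun _ _ => norm_nonneg _) (Finset.mem_univ a)
    · refine isClosed_le (by fun_prop) ?_
      have := fun a => (hj a).continuous
      fun_prop
  let _ : ∀ a, Algebra G.Ω (ξ a).Ω := fun a => (j a : G.Ω →+* (ξ a).Ω).toAlgebra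
  have hf : ∀ a, Module.Finite G.Ω (ξ a).Ω ∧ Module.finrank G.Ω (ξ a).Ω = (ξ a).dg χ := fun a => by
    have h2' := h2 a
    unfold Pt.Fd at h2'
    unfold Pt.dg
    rw [← hr a] at h2' ⊢
    refine ⟨Module.Finite.of_equiv_equiv (j a).equivFieldRange.toRingEquiv.symm (RingEquiv.refl _)
      ?_, Algebra.finrank_eq_of_equiv_equiv (j a).equivFieldRange.toRingEquiv (RingEquiv.refl _)
      (by ext; rfl)⟩
    ext z
    exact congrArg Subtype.val ((j a).equivFieldRange.apply_symm_apply z)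
  have := fun a => (hf a).1
  have hl : LinearIndependent G.Ω fun (l : Fin k) (a : A) => (ξ a).mon (α l) := by
    refine Fintype.linearIndependent_iff.mpr fun g hg i => ?_
    have h0 : ∀ a, ∑ l, j a (g l) * (ξ a).mon (α l) = 0 := fun a => by
      have := congrFun hg a
      rw [Finset.sum_apply] at this
      exact this
    have := e2 i g
    simpa [h0] using this
  have := hl.fintype_card_le_finrank
  rw [Fintype.card_fin, Module.finrank_pi_fintype] at this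
  simpa only [(hf _).2] using this

theorem Nc.exists_dom (h : Nc S χ c y) {B : Type} [Finite B] (ζ : B → Pt K ι)
    (hζ : ∀ b, ζ b ∈ S) :
    ∃ (m : ℕ) (ξ : Fin m → Pt K ι), Fam S χ ξ ∧ ∀ b, ∃ a, (ξ a).Le (ζ b) := by
  classical
  let r : Setoid B := ⟨fun b b' => (ζ b).tight.Le (ζ b').tight, fun _ => Pt.Le.refl _,
    fun h => Pt.le_of_tight (Pt.tight_tight _) (Pt.Le.refl _) h, fun h h' => h.trans h'⟩
  obtain ⟨m, ⟨e⟩⟩ := Finite.exists_equiv_fin (Quotient r)
  have hm : ∀ b, (ζ b).tight ∈ S := fun b => (h.sat _ _ (ζ b).tight_le).mpr (hζ b)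
  refine ⟨m, fun a => (ζ (e.symm a).out).tight, ⟨fun a => hm _, fun a => Pt.tight_tight _,
    fun a => h.fd _ (hm _) (Pt.tight_tight _), fun a b hab => e.symm.injective ?_⟩,
    fun b => ⟨e ⟦b⟧, ?_⟩⟩
  · exact Quotient.out_equiv_out.mp hab
  · simp only [e.symm_apply_apply]
    exact Pt.Le.trans (Quotient.mk_out (s := r) b) (ζ b).tight_le

theorem Ov.mlt_eq (ho : Ov S χ c y) {A : Type} [Fintype A] {ξ : A → Pt K ι} (h : Fam S χ ξ)
    (hc : ∀ ζ ∈ S, ∃ a, (ξ a).Le ζ) : mlt S χ = (∑ a, (ξ a).dg χ : ℕ) := by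
  refine le_antisymm (iSup₂_le fun k hk => ?_) (ho.ind_of_fam h).le_mlt
  exact_mod_cast ho.le_of_ind h.mem h.fd hc hk

theorem Nc.fam (h : Nc S χ c y) {k : ℕ} (hk : Ind S χ k) :
    ∃ (m : ℕ) (ξ : Fin m → Pt K ι), Fam S χ ξ ∧ k ≤ ∑ a, (ξ a).dg χ := by
  obtain ⟨m, N, α, ζ, h1, h2⟩ := hk
  obtain ⟨n, ξ, f, d⟩ := h.exists_dom ζ h1
  exact ⟨n, ξ, f, h.toOv.le_of_ind (S := Set.range ζ) f.mem f.fd
    (Set.forall_mem_range.2 d) ⟨m, N, α, ζ, fun a => ⟨a, rfl⟩, h2⟩⟩

theorem W4_closed (h : LimC S) (χ : κ → ι → ℤ) (k m N : ℕ) (α : Fin k → ι → ℤ) :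
    IsClosed {y | IndW (fib S y) χ k m N α} := by
  refine IsSeqClosed.isClosed fun y y₀ hy hl => ?_
  choose ξ h1 h2 using hy
  obtain ⟨R, hR⟩ := (Metric.isBounded_range_of_tendsto y hl).exists_norm_le
  have hb : ∀ a, Bdd fun n => ξ n a := fun a => ⟨R, fun n i => by
    rw [(h1 n a).2]
    exact (norm_le_pi_norm (y n) i).trans (hR _ ⟨n, rfl⟩)⟩
  choose η hη using fun a => exists_lim (hb a) (hyperfilter ℕ)
  refine ⟨η, fun a => ⟨h _ _ _ (fun n => (h1 n a).1) (hb a) (hη a), tendsto_nhds_unique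
    ((hη a).trop.congr fun n => (h1 n a).2) (hl.mono_left Nat.hyperfilter_le_atTop)⟩, fun c i => ?_⟩
  obtain ⟨a, ha⟩ := (Ultrafilter.eventually_exists_iff (f := hyperfilter ℕ)).1
    (Eventually.of_forall fun n => h2 n c i)
  choose q hq using Pt.exists_ev_mon (K := K) (ι := ι)
  have e : ∀ (ζ : Pt K ι) (c : MvPolynomial κ K),
      ζ.ev (aeval (fun k => q (χ k)) c) = aeval (ζ.ch χ) c := fun ζ c => by
    rw [comp_aeval_apply]
    simp only [hq]
    rfl
  have t1 := hη a (aeval (fun k => q (χ k)) (c i))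
  have t2 := (hη a (∑ j, aeval (fun k => q (χ k)) (c j) * q (α j))).const_mul (N : ℝ)
  simp only [map_sum, map_mul, e, hq] at t1 t2
  exact ⟨a, le_of_tendsto_of_tendsto t1 t2 ha⟩

theorem measurable_mlt {S : ℕ → Set (Pt K ι)} (h1 : Monotone S) (h2 : ∀ N, LimC (S N))
    (χ : κ → ι → ℤ) : Measurable fun y => mlt (fib (⋃ N, S N) y) χ := by
  classical
  refine Measurable.iSup fun k => ?_
  simp only [iSup_eq_if]
  refine Measurable.ite ?_ measurable_const measurable_const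
  have e : {y | Ind (fib (⋃ N, S N) y) χ k} =
      ⋃ n, ⋃ m, ⋃ N, ⋃ α, {y | IndW (fib (S n) y) χ k m N α} := by
    ext y
    simp only [Set.mem_iUnion]
    constructor
    · rintro ⟨m, N, α, ξ, a1, a2⟩
      choose n hn using fun a => Set.mem_iUnion.1 (a1 a).1
      exact ⟨Finset.univ.sup n, m, N, α, ξ, fun a =>
        ⟨h1 (Finset.le_sup (Finset.mem_univ a)) (hn a), (a1 a).2⟩, a2⟩
    · rintro ⟨n, m, N, α, ξ, a1, a2⟩
      exact ⟨m, N, α, ξ, fun a => ⟨Set.mem_iUnion.2 ⟨n, (a1 a).1⟩, (a1 a).2⟩, a2⟩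
  rw [e]
  exact .iUnion fun n => .iUnion fun m => .iUnion fun N => .iUnion fun α =>
    (W4_closed (h2 n) χ k m N α).measurableSet

end Pool.Agent.Work.MP_ffcd14_ag.Ry
end
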