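import Pool.Agent.Work.MP_ffcd14_ag.Tr.Defs
import Pool.Agent.Work.MP_ffcd14_ag.Tr.L4
import Pool.Agent.Work.MP_ffcd14_ag.Chw.Fin
import Pool.Agent.Work.MP_ffcd14_ag.Ry.W1
import Pool.Agent.Work.MP_ffcd14_ag.Ry.W4
import Pool.Agent.Work.MP_ffcd14_ag.Cyc.HI
import Pool.Agent.Work.MP_ffcd14_ag.Cyc.ChowCyc
import Pool.Agent.Work.MP_ffcd14_ag.Ry.Defs
import Pool.Agent.Work.MP_ffcd14_ag.Cyc.Rk

-- merged part: Pool.Agent.Work.MP_ffcd14_ag.Tr.A1
section
-- merged part: Pool.Agent.Work.MP_ffcd14_ag.Tr.GD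
section
/-!
# Graphs, difference maps, tropical data

Definitions on the side of algebraic geometry, over any algebraically closed field.
-/

open MvPolynomial Filter Topology

namespace Pool.Agent.Work.MP_ffcd14_ag.Tr

open MP_10f4af_ag MP_10f4af_ag.Nu

universe u

variable {k : Type u} [Field k] [IsAlgClosed k] {P Q : Amb}

theorem exists_gl {Y : Var k P} {Y' : Var k Q} (φ : Hom Y Y') (W : Sub k P)
    (hW : (W : Set (P.Pt k)) ⊆ Y.pts) :
    ∃ V : Sub k (P.sum Q), ∀ z, z ∈ V ↔ fst z ∈ W ∧ z ∈ φ.graph.pts := by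
  have hc : Continuous fun x : Y.pts => (φ.graphInv.toFun x).1 :=
    continuous_subtype_val.comp φ.graphInv.continuous
  have e : (fun x : Y.pts => (φ.graphInv.toFun x).1) '' (Y.res W hW : Set Y.pts) =
      {z | fst z ∈ W ∧ z ∈ φ.graph.pts} := by
    ext z
    constructor
    · rintro ⟨x, hx, rfl⟩
      exact ⟨hx, (φ.graphInv.toFun x).2⟩
    · rintro ⟨h1, h2⟩
      exact ⟨φ.graphFst.toFun ⟨z, h2⟩, h1, congrArg Subtype.val (φ.graphInv_fst ⟨z, h2⟩)⟩
  refine ⟨⟨{z | fst z ∈ W ∧ z ∈ φ.graph.pts}, ?_, ?_⟩, fun _ => Iff.rfl⟩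
  · rw [← e]
    exact (Y.res W hW).isIrreducible.image _ hc.continuousOn
  · exact (W.isClosed.preimage (Crd.inl k P Q).continuous).inter φ.graph.closed

/-- The graph of `φ` over the subvariety `W`. -/
noncomputable def gl {Y : Var k P} {Y' : Var k Q} (φ : Hom Y Y') (W : Sub k P)
    (hW : (W : Set (P.Pt k)) ⊆ Y.pts) : Sub k (P.sum Q) := (exists_gl φ W hW).choose

theorem mem_gl {Y : Var k P} {Y' : Var k Q} {φ : Hom Y Y'} {W : Sub k P}
    {hW : (W : Set (P.Pt k)) ⊆ Y.pts} {z : (P.sum Q).Pt k} :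
    z ∈ gl φ W hW ↔ fst z ∈ W ∧ z ∈ φ.graph.pts := (exists_gl φ W hW).choose_spec z

/-- The degree of `W` over its image (zero if the dimension drops). -/
noncomputable def dgH {Y : Var k P} {Y' : Var k Q} (φ : Hom Y Y') (W : Sub k P)
    (hW : (W : Set (P.Pt k)) ⊆ Y.pts) : ℕ :=
  MP_10f4af_ag.deg (Crd.inr k P Q).ε (idl (gl φ W hW : Set ((P.sum Q).Pt k)))

variable {X : SV k P} {T U V : Type}

/-- The projection to the pair of factors `a`, `b`. -/
def pr2 (M : Mod X V) (a b : V) : Prj M.Z.toVar (X.prod X).toVar where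
  toCrd := (M.β a).pair (M.β b)
  maps z hz := mem_prod.2 ⟨(M.mem z).1 hz a, (M.mem z).1 hz b⟩

/-- The map `z ↦ (z (p u) - z (q u))_u`. -/
noncomputable def dif (sub : Hom (X.prod X).toVar X.toVar) (M : Mod X V) [Finite U]
    (p q : U → V) : Hom M.Z.toVar (X.pow U).toVar where
  toFun z := ⟨fun j => ((sub.comp (pr2 M (p j.1) (q j.1)).hom).toFun z).1 j.2,
    ((Mod.pow X U).mem _).2 fun u => ((sub.comp (pr2 M (p u) (q u)).hom).toFun z).2⟩
  reg z j := (sub.comp (pr2 M (p j.1) (q j.1)).hom).reg z j.2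

/-- `sub` behaves like the subtraction of a group with the neutral element `o`. -/
structure Grp (sub : Hom (X.prod X).toVar X.toVar) (o : P.Pt k) : Prop where
  mem : o ∈ X.pts
  eq : ∀ z, (sub.toFun z).1 = o ↔ fst z.1 = snd z.1
  zero : ∀ z, snd z.1 = o → (sub.toFun z).1 = fst z.1

/-- The model of `X ^ 3` in which the graph of the subtraction lives. -/
noncomputable abbrev M3 (X : SV k P) : Mod X ((Unit ⊕ Unit) ⊕ Unit) :=
  ((Mod.one X).prod (Mod.one X)).prod (Mod.one X)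

/-- On every diagonal which identifies `u` with `r u`, the class `c` is the class of `W`. -/
def Univ (M : Mod X T) (c : CR M.Z) (MU : Mod X U) (r : U → T) (W : Sub k MU.S) : Prop :=
  ∀ (T' T'' : Type) (M'' : Mod X T'') (s : T ↪ T'') (e : U ↪ T'') (ρ : T'' → T'),
    Function.Injective (ρ ∘ s) → (∀ u, ρ (e u) = ρ (s (r u))) →
      M.pull M'' s c * M''.dg ρ = MU.pull M'' e (cyC MU.Z W) * M''.dg ρ

/-- Tropical data: a correspondence between cycle classes on the powers of `X` and forms with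
constant coefficients, which respects the operations and the degree. -/
structure TD (X : SV k P) where
  κ : ℝ
  pos : 0 < κ
  R : ∀ {T : Type} [Fintype T] [DecidableEq T] (M : Mod X T), CR M.Z → Ev (T × Fin X.dim) → Prop
  zero : ∀ {T : Type} [Fintype T] [DecidableEq T] (M : Mod X T), R M 0 0
  one : ∀ {T : Type} [Fintype T] [DecidableEq T] (M : Mod X T), R M 1 1
  add : ∀ {T : Type} [Fintype T] [DecidableEq T] {M : Mod X T} {c c' e e'}, R M c e → R M c' e' →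
    R M (c + c') (e + e')
  smul : ∀ {T : Type} [Fintype T] [DecidableEq T] {M : Mod X T} (q : ℚ) {c e}, R M c e →
    R M (q • c) ((q : ℝ) • e)
  mul : ∀ {T : Type} [Fintype T] [DecidableEq T] {M : Mod X T} {c c' e e'}, R M c e → R M c' e' →
    R M (c * c') (e * e')
  pull : ∀ {T T' : Type} [Fintype T] [DecidableEq T] [Fintype T'] [DecidableEq T'] {M : Mod X T}
    (M' : Mod X T') (f : T ↪ T') {c e}, R M c e → R M' (M.pull M' f c) (up (Prod.map f id) e)
  tau : ∀ {T : Type} [Fintype T] [DecidableEq T] {M : Mod X T} {c e}, R M c e →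
    (tauC M.Z c : ℝ) = κ ^ Fintype.card T * int (T × Fin X.dim) e
  cyc : ∀ (Z : Sub k P) (c : ℕ), (Z : Set (P.Pt k)) ⊆ X.pts → sdim Z + c = X.dim →
    ∃ e ∈ Sy (Fin X.dim) c, R (Mod.one X) (cyC X Z) (up (fun i => ((), i)) e) ∧
      (c = 1 → e ∈ Submodule.span ℝ (Set.range sq) ∧ Psd e)
  gam : ∃ (γ : CR (M3 X).Z) (c : ℝ), 0 < c ∧
    R (M3 X) γ (c • gam (Sum.inl (Sum.inl ())) (Sum.inl (Sum.inr ())) (Sum.inr ()))

end Pool.Agent.Work.MP_ffcd14_ag.Tr
end

-- merged part: Pool.Agent.Work.MP_ffcd14_ag.Tr.ID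
section
/-!
# Rational affine subspaces, charts, masses, lattices

`Par K ι κ` is a parametrisation `η ↦ E η + γ` of an affine subspace of `ι → ℝ` which is rational
over the value group, by the coordinates `μ`.  A `Chart` for a set `Y` is a family of such
parametrisations which covers once each point of `Y` of maximal rank.
-/

namespace Pool.Agent.Work.MP_ffcd14_ag.Tr

open MeasureTheory
open scoped ENNReal

universe u

/-- A parametrised rational affine subspace. -/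
structure Par (K : Type u) [NontriviallyNormedField K] (ι κ : Type) [DecidableEq κ] where
  E : Matrix ι κ ℚ
  μ : κ → ι
  γ : ι → ℝ
  hE : ∀ k k', E (μ k) k' = if k = k' then 1 else 0
  hγ : ∀ i, γ i ∈ Gam K
  hμ : ∀ k, γ (μ k) = 0

variable {K : Type u} [NontriviallyNormedField K] {ι ι' ι'' κ κ' σ H G U : Type} [DecidableEq κ]
  [DecidableEq κ']

namespace Par

/-- The parametrisation. -/
noncomputable def ev [Fintype κ] (h : Par K ι κ) (η : κ → ℝ) (i : ι) : ℝ :=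
  ∑ k, (h.E i k : ℝ) * η k + h.γ i

/-- The matrix with real entries. -/
def ER (h : Par K ι κ) : Matrix ι κ ℝ := Matrix.of fun i k => (h.E i k : ℝ)

/-- The class of the direction. -/
noncomputable def cls [Fintype κ] [Fintype ι] [DecidableEq ι] (h : Par K ι κ) : Ev ι :=
  nn h.ER h.μ

/-- The product of two subspaces. -/
def prod (e : ι ⊕ ι' ≃ ι'') (h : Par K ι κ) (h' : Par K ι' κ') : Par K ι'' (κ ⊕ κ') where
  E := Matrix.of fun i => Matrix.fromBlocks h.E 0 0 h'.E (e.symm i)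
  μ k := e (Sum.map h.μ h'.μ k)
  γ i := Sum.elim h.γ h'.γ (e.symm i)
  hE := by
    rintro (k | k) (k' | k') <;> simp [h.hE, h'.hE]
  hγ i := by
    rcases e.symm i with j | j
    · exact h.hγ j
    · exact h'.hγ j
  hμ := by
    rintro (k | k) <;> simp [h.hμ, h'.hμ]

variable (K) in
/-- The whole space. -/
def top (ι : Type) [DecidableEq ι] : Par K ι ι where
  E := 1
  μ := id
  γ _ := 0
  hE _ _ := Matrix.one_apply
  hγ _ := zero_mem _
  hμ _ := rfl

/-- The subspace `y₂ = y₀ - y₁ + v`. -/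
def gam [DecidableEq G] (v : G → ℝ) (hv : ∀ i, v i ∈ Gam K) :
    Par K (((Unit ⊕ Unit) ⊕ Unit) × G) ((Unit ⊕ Unit) × G) where
  E := gE ℚ G
  μ := Prod.map Sum.inl id
  γ p := Sum.elim (fun _ => 0) (fun _ => v p.2) p.1
  hE _ _ := rfl
  hγ := by
    rintro ⟨a | a, i⟩
    · exact zero_mem _
    · exact hv i
  hμ _ := rfl

end Par

/-- Every point of `Y` of maximal rank lies on exactly one of the subspaces. -/
def Chart [Fintype κ] (Y : Set (ι → ℝ)) (h : H → Par K ι κ) : Prop :=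
  ∀ y ∈ Y, Fintype.card κ ≤ rnk K y → ∃! x, (h x).ev (y ∘ (h x).μ) = y

/-- The integral of the multiplicity of `S` on the part of the subspace which lies in `D`. -/
noncomputable def mass [Fintype κ] [Fintype ι] [DecidableEq ι] (S : Set (Pt K ι))
    (D : Set (ι → ℝ)) (h : Par K ι κ) : ℝ≥0∞ :=
  ∫⁻ η, D.indicator (fun y => mlt (fib S y) (crd h.μ)) (h.ev η)

/-- For generic `s`, the points of `S` over `D` whose characters lie over `s + L` have the total
degree `N`. -/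
def DegS [Fintype ι] (S : Set (Pt K ι)) (χ : σ → ι → ℤ) (D : Set (ι → ℝ)) (L : Set (σ → ℝ))
    (N : ℕ) : Prop :=
  ∀ s, Gen K s → ∃ (m : ℕ) (ξ : Fin m → Pt K ι),
    Fam {ζ | ζ ∈ S ∧ ζ.trop ∈ D ∧ chi χ ζ.trop - s ∈ L} χ ξ ∧
      (∀ ζ ∈ S, ζ.trop ∈ D → chi χ ζ.trop - s ∈ L → ∃ a, (ξ a).Le ζ) ∧ ∑ a, (ξ a).dg χ = N

/-- An element of the lattice `Λ ^ U`, where `Λ` has the basis `ℓ`. -/
noncomputable def lat [Fintype G] (ℓ : G → G → ℝ) (n : U × G → ℤ) (q : U × G) : ℝ :=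
  ∑ j, (n (q.1, j) : ℝ) * ℓ j q.2

/-- The fundamental domain of `Λ ^ U`. -/
def Dom [Fintype G] (ℓ : G → G → ℝ) (U : Type) : Set (U × G → ℝ) :=
  {y | ∃ c : U × G → ℝ, (∀ q, c q ∈ Set.Ico (0 : ℝ) 1) ∧ ∀ q, y q = ∑ j, c (q.1, j) * ℓ j q.2}

/-- The covolume of `Λ`. -/
noncomputable def cov [Fintype G] [DecidableEq G] (ℓ : G → G → ℝ) : ℝ := |(Matrix.of ℓ).det|

/-- The logarithms of the periods. -/
noncomputable def lg (lam : G → G → K) (j i : G) : ℝ := Real.log ‖lam j i‖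

/-- The points `(x₀, x₁, x₂)` with `x₂ = λ x₀ / x₁`, `λ` a period. -/
def Sgam [Fintype G] (lam : G → G → K) : Set (Pt K (((Unit ⊕ Unit) ⊕ Unit) × G)) :=
  {ξ | ∃ n : G → ℤ, ∀ i, ξ.x (Sum.inr (), i) = (∏ j, lam j i ^ n j) •
    (ξ.x (Sum.inl (Sum.inl ()), i) / ξ.x (Sum.inl (Sum.inr ()), i))}

/-- The characters `x (p u, i) / x (q u, i)`. -/
def dch {V : Type} [DecidableEq V] [DecidableEq G] (p q : U → V) (k : U × G) : V × G → ℤ :=
  Pi.single (p k.1, k.2) 1 - Pi.single (q k.1, k.2) 1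

end Pool.Agent.Work.MP_ffcd14_ag.Tr
end

-- merged part: Pool.Agent.Work.MP_ffcd14_ag.Tr.I1
section
/-!
# Lattices and an unfolding formula

Plan.  The linear map `A : c ↦ (q ↦ ∑ j, c (q.1, j) * ℓ j q.2)` is invertible, of determinant
`det ℓ ^ card U` (`Matrix.det_kronecker` or `Matrix.det_blockDiagonal`); `Dom` is the image of the
cube `Set.pi univ (fun _ => Ico 0 1)` (`Measure.addHaar_image_linearMap`, `Real.volume_pi_Ico`), and
`lat n = A n`; use `Int.floor` and `Int.fract`.  `unfold`: `1 = ∑' n, 1_(D + lat n)`,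
`lintegral_tsum`, translation invariance (`lintegral_add_right_eq_self`).
`int_fib`: if `det A = 0` both sides vanish.  Otherwise the inner sum has exactly one term
`|det A| F (A⁻¹ (s - c))`; change variables (`Real.map_matrix_volume_pi_eq_smul_volume_pi` or
`lintegral_map`, `Measure.map_linearMap_addHaar_eq_smul_addHaar`; reindex with
`volume_measurePreserving_piCongrLeft`).  `intA`: integrate the hypothesis over `D`
(`setLIntegral_const`, `lintegral_congr_ae`), apply `unfold`, `lintegral_tsum` and `int_fib`.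
-/

namespace Pool.Agent.Work.MP_ffcd14_ag.Tr

open MvPolynomial Filter Topology MeasureTheory
open scoped ENNReal

set_option linter.unusedSectionVars false

universe u

variable {G U U' ι κ σ H N : Type} [Fintype G] [DecidableEq G] {ℓ : G → G → ℝ}

theorem i1_det (h : LinearIndependent ℝ ℓ) : (Matrix.of ℓ).det ≠ 0 :=
  ((Matrix.isUnit_iff_isUnit_det _).1
    ((Matrix.linearIndependent_rows_iff_isUnit (A := Matrix.of ℓ)).1 h)).ne_zero

theorem i1_inj (h : LinearIndependent ℝ ℓ) {a b : G → ℝ}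
    (e : ∀ i, ∑ j, a j * ℓ j i = ∑ j, b j * ℓ j i) : a = b := by
  funext j
  refine sub_eq_zero.1 (Fintype.linearIndependent_iff.1 h (fun j => a j - b j) ?_ j)
  funext i
  simp only [Finset.sum_apply, Pi.smul_apply, smul_eq_mul, sub_mul, Finset.sum_sub_distrib, e i,
    sub_self, Pi.zero_apply]

theorem i1_surj (h : LinearIndependent ℝ ℓ) (y : G → ℝ) :
    ∃ a : G → ℝ, ∀ i, y i = ∑ j, a j * ℓ j i := by
  refine ⟨Matrix.vecMul y (Matrix.of ℓ)⁻¹, fun i => ?_⟩
  have h1 : Matrix.vecMul (Matrix.vecMul y (Matrix.of ℓ)⁻¹) (Matrix.of ℓ) = y := by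
    rw [Matrix.vecMul_vecMul, Matrix.nonsing_inv_mul _ (isUnit_iff_ne_zero.2 (i1_det h)),
      Matrix.vecMul_one]
  exact (congrFun h1 i).symm

theorem i1_apply [Fintype U] [DecidableEq U] (c : U × G → ℝ) (q : U × G) :
    Matrix.toLin' (Matrix.kroneckerMap (· * ·) (1 : Matrix U U ℝ) (Matrix.of ℓ).transpose) c q =
      ∑ j, c (q.1, j) * ℓ j q.2 := by
  rw [Matrix.toLin'_apply, Matrix.mulVec, dotProduct, Fintype.sum_prod_type,
    Finset.sum_eq_single q.1]
  · simp [mul_comm]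
  · intro u _ hu
    simp [Matrix.one_apply_ne hu.symm]
  · simp

theorem i1_dom [Fintype U] [DecidableEq U] : Dom ℓ U =
    Matrix.toLin' (Matrix.kroneckerMap (· * ·) (1 : Matrix U U ℝ) (Matrix.of ℓ).transpose) ''
      Set.pi Set.univ fun _ => Set.Ico (0 : ℝ) 1 := by
  ext y
  constructor
  · rintro ⟨c, hc, e⟩
    exact ⟨c, fun q _ => hc q, funext fun q => by rw [i1_apply, e]⟩
  · rintro ⟨c, hc, rfl⟩
    exact ⟨c, fun q => hc q trivial, fun q => i1_apply c q⟩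

theorem cov_pos (h : LinearIndependent ℝ ℓ) : 0 < cov ℓ := by
  exact abs_pos.2 (i1_det h)

theorem lat_add (n n' : U × G → ℤ) : lat ℓ (n + n') = lat ℓ n + lat ℓ n' := by
  funext q
  simp only [lat, Pi.add_apply, Int.cast_add, add_mul, Finset.sum_add_distrib]

theorem lat_neg (n : U × G → ℤ) : lat ℓ (-n) = -lat ℓ n := by
  funext q
  simp only [lat, Pi.neg_apply, Int.cast_neg, neg_mul, Finset.sum_neg_distrib]

theorem lat_inj (h : LinearIndependent ℝ ℓ) :
    Function.Injective (lat ℓ : (U × G → ℤ) → U × G → ℝ) := by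
  intro n n' e
  funext q
  have := i1_inj h (a := fun j => (n (q.1, j) : ℝ)) (b := fun j => (n' (q.1, j) : ℝ))
    fun i => congrFun e (q.1, i)
  exact_mod_cast congrFun this q.2

theorem exists_dom_lat (h : LinearIndependent ℝ ℓ) (y : U × G → ℝ) :
    ∃! n, y - lat ℓ n ∈ Dom ℓ U := by
  choose a ha using fun u : U => i1_surj h fun i => y (u, i)
  refine ⟨fun q => ⌊a q.1 q.2⌋, ⟨fun q => Int.fract (a q.1 q.2),
    fun q => ⟨Int.fract_nonneg _, Int.fract_lt_one _⟩, fun q => ?_⟩, ?_⟩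
  · have := ha q.1 q.2
    simp only [Pi.sub_apply, lat, Int.fract, sub_mul, Finset.sum_sub_distrib]
    rw [← this]
  · rintro n ⟨c, hc, e⟩
    funext q
    have h1 := i1_inj h (a := a q.1) (b := fun j => (n (q.1, j) : ℝ) + c (q.1, j)) fun i => by
      have h2 := e (q.1, i)
      simp only [Pi.sub_apply, lat] at h2
      simp only [add_mul, Finset.sum_add_distrib]
      rw [← ha q.1 i, ← h2]
      ring
    have h3 := congrFun h1 q.2
    symm
    rw [Int.floor_eq_iff, h3]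
    have h4 := hc q
    constructor
    · linarith [h4.1]
    · linarith [h4.2]

theorem mem_Dom_iff {y : U × G → ℝ} :
    y ∈ Dom ℓ U ↔ ∀ u, (fun q : Unit × G => y (u, q.2)) ∈ Dom ℓ Unit := by
  constructor
  · rintro ⟨c, hc, e⟩ u
    exact ⟨fun q => c (u, q.2), fun q => hc _, fun q => e (u, q.2)⟩
  · intro h
    choose c hc e using h
    exact ⟨fun q => c q.1 ((), q.2), fun q => hc _ _, fun q => e q.1 ((), q.2)⟩

theorem mem_Dom_sum {y : (U ⊕ U') × G → ℝ} : y ∈ Dom ℓ (U ⊕ U') ↔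
    (fun i => y ((Equiv.sumProdDistrib U U' G).symm (Sum.inl i))) ∈ Dom ℓ U ∧
      (fun i => y ((Equiv.sumProdDistrib U U' G).symm (Sum.inr i))) ∈ Dom ℓ U' := by
  rw [mem_Dom_iff, mem_Dom_iff (U := U), mem_Dom_iff (U := U'), Sum.forall]
  rfl

theorem measurableSet_Dom [Fintype U] (h : LinearIndependent ℝ ℓ) : MeasurableSet (Dom ℓ U) := by
  classical
  rw [i1_dom]
  refine MeasurableSet.image_of_continuousOn_injOn
    (MeasurableSet.univ_pi fun _ => measurableSet_Ico)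
    (LinearMap.continuous_of_finiteDimensional _).continuousOn fun a _ b _ e => ?_
  funext q
  have := i1_inj h (a := fun j => a (q.1, j)) (b := fun j => b (q.1, j)) fun i => by
    have h1 := congrFun e (q.1, i)
    rwa [i1_apply, i1_apply] at h1
  exact congrFun this q.2

theorem volume_Dom [Fintype U] :
    volume (Dom ℓ U) = ENNReal.ofReal (cov ℓ) ^ Fintype.card U := by
  classical
  rw [i1_dom, Measure.addHaar_image_linearMap, LinearMap.det_toLin', Matrix.det_kronecker,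
    Real.volume_pi_Ico, Matrix.det_one, one_pow, one_mul, Matrix.det_transpose, abs_pow,
    ENNReal.ofReal_pow (abs_nonneg _)]
  simp [cov]

theorem unfold [Fintype σ] [Countable N] (v : N → σ → ℝ) {D : Set (σ → ℝ)} (hD : MeasurableSet D)
    (h : ∀ s, ∃! n, s - v n ∈ D) {F : (σ → ℝ) → ℝ≥0∞} (hF : Measurable F) :
    ∫⁻ s in D, ∑' n, F (s + v n) = ∫⁻ s, F s := by
  have h1 : ∀ n, Measurable fun s => F (s + v n) := fun n => hF.comp (measurable_add_const _)
  have h2 : ∀ n, Measurable fun s => D.indicator (fun t => F (t + v n)) (s - v n) := fun n =>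
    ((h1 n).indicator hD).comp (measurable_sub_const _)
  rw [lintegral_tsum fun n => (h1 n).aemeasurable]
  have h3 : ∀ n, ∫⁻ s in D, F (s + v n) = ∫⁻ s, D.indicator (fun t => F (t + v n)) (s - v n) := by
    intro n
    rw [lintegral_sub_right_eq_self (D.indicator fun t => F (t + v n)) (v n),
      lintegral_indicator hD]
  simp only [h3]
  rw [← lintegral_tsum fun n => (h2 n).aemeasurable]
  refine lintegral_congr fun s => ?_
  obtain ⟨n, hn, hu⟩ := h s
  rw [tsum_eq_single n fun m hm => Set.indicator_of_notMem (fun hs => hm (hu m hs)) _,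
    Set.indicator_of_mem hn, sub_add_cancel]

variable [Fintype κ] [Fintype σ] [DecidableEq σ] (e : κ ≃ σ)

theorem int_fib (A : Matrix σ κ ℝ) (c : σ → ℝ) {F : (κ → ℝ) → ℝ≥0∞} (hF : Measurable F) :
    Measurable (fun s => ∑' η : {η : κ → ℝ // A.mulVec η + c = s},
      ENNReal.ofReal |(A.submatrix id e.symm).det| * F η.1) ∧
    ∫⁻ s, ∑' η : {η : κ → ℝ // A.mulVec η + c = s},
      ENNReal.ofReal |(A.submatrix id e.symm).det| * F η.1 =
      ENNReal.ofReal ((A.submatrix id e.symm).det ^ 2) * ∫⁻ η, F η := by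
  obtain ⟨B, hB⟩ : ∃ B : Matrix σ σ ℝ, B = A.submatrix id e.symm := ⟨_, rfl⟩
  rw [← hB]
  by_cases h0 : B.det = 0
  · simp [h0]
  have hu : IsUnit B.det := isUnit_iff_ne_zero.2 h0
  have hA : ∀ η : κ → ℝ, A.mulVec η = B.mulVec (η ∘ e.symm) := by
    intro η
    rw [hB, Matrix.submatrix_mulVec_equiv]
    congr 1
    funext k
    simp
  have hG : Measurable fun t : σ → ℝ => F (t ∘ e) :=
    hF.comp (measurable_pi_lambda _ fun k => measurable_pi_apply (e k))
  have hL : Measurable (Matrix.toLin' B⁻¹) :=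
    (LinearMap.continuous_of_finiteDimensional _).measurable
  have key : (fun s => ∑' η : {η : κ → ℝ // A.mulVec η + c = s},
      ENNReal.ofReal |B.det| * F η.1) =
      fun s => ENNReal.ofReal |B.det| * F (Matrix.toLin' B⁻¹ (s - c) ∘ e) := by
    funext s
    have h1 : A.mulVec (Matrix.toLin' B⁻¹ (s - c) ∘ e) + c = s := by
      rw [hA, Function.comp_assoc, Equiv.self_comp_symm, Function.comp_id, Matrix.toLin'_apply,
        Matrix.mulVec_mulVec, Matrix.mul_nonsing_inv _ hu, Matrix.one_mulVec, sub_add_cancel]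
    refine tsum_eq_single (⟨_, h1⟩ : {η : κ → ℝ // A.mulVec η + c = s}) fun η hη => ?_
    refine absurd (Subtype.ext ?_) hη
    have h2 : s - c = B.mulVec (η.1 ∘ e.symm) := by
      rw [← hA]
      exact sub_eq_of_eq_add η.2.symm
    change η.1 = Matrix.toLin' B⁻¹ (s - c) ∘ e
    rw [h2, Matrix.toLin'_apply, Matrix.mulVec_mulVec, Matrix.nonsing_inv_mul _ hu,
      Matrix.one_mulVec, Function.comp_assoc, Equiv.symm_comp_self, Function.comp_id]
  have hM : Measurable fun s : σ → ℝ => F (Matrix.toLin' B⁻¹ (s - c) ∘ e) :=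
    (hG.comp hL).comp (measurable_sub_const c)
  rw [key]
  refine ⟨hM.const_mul _, ?_⟩
  have hi : B⁻¹.det ≠ 0 := by
    rw [Matrix.det_nonsing_inv, Ring.inverse_eq_inv']
    exact inv_ne_zero h0
  have h3 : ∫⁻ t : σ → ℝ, F (t ∘ e) = ∫⁻ η, F η :=
    (volume_preserving_arrowCongr' e.symm (MeasurableEquiv.refl ℝ)
      (MeasurePreserving.id _)).lintegral_comp hF
  rw [lintegral_const_mul _ hM,
    lintegral_sub_right_eq_self (fun s : σ → ℝ => F (Matrix.toLin' B⁻¹ s ∘ e)) c,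
    ← lintegral_map hG hL, Real.map_matrix_volume_pi_eq_smul_volume_pi hi, lintegral_smul_measure,
    h3, Matrix.det_nonsing_inv, Ring.inverse_eq_inv', inv_inv, smul_eq_mul, ← mul_assoc,
    ← ENNReal.ofReal_mul (abs_nonneg _), abs_mul_abs_self, pow_two]

theorem intA [Countable H] [Countable N] (A : H → Matrix σ κ ℝ) (c : H → σ → ℝ)
    (F : H → (κ → ℝ) → ℝ≥0∞) (hF : ∀ x, Measurable (F x)) (v : N → σ → ℝ) {D : Set (σ → ℝ)}
    (hD : MeasurableSet D) (h : ∀ s, ∃! n, s - v n ∈ D) (N₀ : ℝ≥0∞)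
    (h0 : ∀ᵐ s : σ → ℝ, N₀ = ∑' n, ∑' x, ∑' η : {η : κ → ℝ // (A x).mulVec η + c x = s + v n},
      ENNReal.ofReal |((A x).submatrix id e.symm).det| * F x η.1) :
    N₀ * volume D =
      ∑' x, (∫⁻ η, F x η) * ENNReal.ofReal (((A x).submatrix id e.symm).det ^ 2) := by
  have h1 := fun x => int_fib e (A x) (c x) (hF x)
  have h2 : Measurable fun s => ∑' x, ∑' η : {η : κ → ℝ // (A x).mulVec η + c x = s},
      ENNReal.ofReal |((A x).submatrix id e.symm).det| * F x η.1 :=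
    Measurable.tsum fun x => (h1 x).1
  rw [← setLIntegral_const, lintegral_congr_ae (ae_restrict_of_ae h0), unfold v hD h h2,
    lintegral_tsum fun x => (h1 x).1.aemeasurable]
  exact tsum_congr fun x => by rw [(h1 x).2, mul_comm]

end Pool.Agent.Work.MP_ffcd14_ag.Tr
end

-- merged part: Pool.Agent.Work.MP_ffcd14_ag.Tr.I2
section
/-!
# Charts and masses

Plan.  `exists_chart`: for `y` of rank `d` let `W y` be the subspace of the `m : ι → ℚ` with
`∑ m i * y i ∈ Gam K`.  Choose for each subspace `W` of this form a map `ν W : Fin d → ι` with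
`y ∘ ν W` generic (this condition only depends on `W y`), and let `H` be the set of the `h` such
that `h.μ = ν {m | m ᵥ* h.E = 0}`.  If `y = h.ev η` with `η` generic then `W y = {m | m ᵥ* E = 0}`.
Existence: `exists_gen_sub`, `exists_comb` (correct the rows `μ k` or use uniqueness); uniqueness:
`gen_iff`.  (Alternative: order the finite type `Fin d → ι` and take the least `μ` with `y ∘ μ`
generic; or take for `H` a quotient of the set of the `y` of rank `d`.)  `Par K ι κ` is countable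
since it injects in a product of countable types.  `chart_prod`: `rnk_sum_le`.  `mass_prod`: for
almost all `η` (`ae_gen`) the integrand is a product (`mlt_prod`, `TV.nice`), then
`volume_preserving_sumPiEquivProdPi` (or `measurePreserving_sumPiEquivProdPi`) and
`lintegral_prod_mul`.  `mass_top`: `mlt_one`, `exists_pt`.
-/

namespace Pool.Agent.Work.MP_ffcd14_ag.Tr

open MvPolynomial Filter Topology MeasureTheory
open scoped ENNReal

set_option linter.unusedSectionVars false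

universe u

variable {K : Type u} [NontriviallyNormedField K] [IsUltrametricDist K] [CompleteSpace K]
  [IsAlgClosed K] {ι ι' ι'' κ κ' : Type} [Fintype ι] [DecidableEq ι] [Fintype ι']
  [DecidableEq ι'] [Fintype ι''] [DecidableEq ι''] [Fintype κ] [DecidableEq κ] [Fintype κ']
  [DecidableEq κ']

variable {H H' : Type}

theorem Par.ev_mu (h : Par K ι κ) (η : κ → ℝ) : h.ev η ∘ h.μ = η := by
  funext k
  simp [Par.ev, h.hE, h.hμ, apply_ite (fun x : ℚ => (x : ℝ))]

theorem Par.continuous_ev (h : Par K ι κ) : Continuous h.ev := by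
  refine continuous_pi fun i => ?_
  unfold Par.ev
  fun_prop

theorem I2_sub (h : Par K ι κ) (η : κ → ℝ) (i : ι) :
    h.ev η i - ∑ k, (h.E i k : ℝ) * η k ∈ Gam K := by
  rw [Par.ev, add_sub_cancel_left]
  exact h.hγ i

theorem I2_inj (h : Par K ι κ) : Function.Injective h.μ :=
  inj_of_id (E := h.ER) fun k k' => by
    simp [Par.ER, h.hE, apply_ite (fun x : ℚ => (x : ℝ))]

theorem Par.rnk_ev (h : Par K ι κ) (η : κ → ℝ) : rnk K (h.ev η) ≤ rnk K η := by
  exact rnk_le_rnk fun i => ⟨h.E i, I2_sub h η i⟩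

theorem Par.cls_Sy (h : Par K ι κ) {c : ℕ} (hc : c + Fintype.card κ = Fintype.card ι) :
    h.cls ∈ Sy ι c := by
  have h1 := card_compl (I2_inj h)
  have h2 : c = (Finset.univ \ Finset.univ.image h.μ).card := by omega
  rw [h2]
  exact prod_sq_Sy _ _

theorem Par.cls_Mon (h : Par K ι κ) : h.cls ∈ Mon ι := by
  exact prod_sq_Mon _ _

theorem Par.cls_eq (h : Par K ι κ) {c : ℕ} (hc : c + Fintype.card κ = Fintype.card ι) :
    ∃ (s : Finset ι) (m : ι → ι → ℝ), s.card = c ∧ h.cls = ∏ k ∈ s, sq (m k) := by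
  have h1 := card_compl (I2_inj h)
  exact ⟨Finset.univ \ Finset.univ.image h.μ, nrm h.ER h.μ, by omega, rfl⟩

theorem Par.cls_prod (e : ι ⊕ ι' ≃ ι'') (h : Par K ι κ) (h' : Par K ι' κ') :
    (h.prod e h').cls =
      up (fun i => e (Sum.inl i)) h.cls * up (fun i => e (Sum.inr i)) h'.cls := by
  have h1 : (h.prod e h').ER =
      Matrix.of fun i => Matrix.fromBlocks h.ER 0 0 h'.ER (e.symm i) := by
    ext i k
    simp only [Par.ER, Par.prod, Matrix.of_apply]
    rcases e.symm i with j | j <;> rcases k with k | k <;> simp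
  rw [Par.cls, h1]
  exact nn_prod e h.ER h.μ h'.ER h'.μ

theorem I2_ext {h h' : Par K ι κ} (h1 : h.E = h'.E) (h2 : h.μ = h'.μ) (h3 : h.γ = h'.γ) :
    h = h' := by
  cases h
  cases h'
  simp_all

theorem I2_countable (hΓ : (Gam K : Set ℝ).Countable) : Countable (Par K ι κ) := by
  have := hΓ.to_subtype
  have : Countable (Matrix ι κ ℚ) := inferInstanceAs (Countable (ι → κ → ℚ))
  refine Function.Injective.countable
    (f := fun h : Par K ι κ => (h.E, h.μ, fun i => (⟨h.γ i, h.hγ i⟩ : (Gam K : Set ℝ)))) ?_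
  intro h h' e
  simp only [Prod.mk.injEq] at e
  exact I2_ext e.1 e.2.1 (funext fun i => congrArg Subtype.val (congrFun e.2.2 i))

theorem I2_uniq {η : κ → ℝ} (hη : Gen K η) {m m' : κ → ℚ} {r : ℝ}
    (h : r - ∑ k, (m k : ℝ) * η k ∈ Gam K) (h' : r - ∑ k, (m' k : ℝ) * η k ∈ Gam K) : m = m' := by
  refine sub_eq_zero.1 (gen_iff.1 hη _ ?_)
  convert sub_mem h' h using 1
  simp only [Pi.sub_apply, Rat.cast_sub, sub_mul, Finset.sum_sub_distrib]
  ring

theorem I2_gen {h : Par K ι κ} {y : ι → ℝ} (hy : Fintype.card κ ≤ rnk K y)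
    (e : h.ev (y ∘ h.μ) = y) : Gen K (y ∘ h.μ) := by
  refine gen_iff_rnk.2 (hy.trans ?_)
  have := h.rnk_ev (y ∘ h.μ)
  rwa [e] at this

theorem I2_det {h : Par K ι κ} {y : ι → ℝ} (hy : Fintype.card κ ≤ rnk K y)
    (e : h.ev (y ∘ h.μ) = y) (μ : κ → ι) : Gen K (y ∘ μ) ↔ (h.E.submatrix μ id).det ≠ 0 := by
  have h1 : ∀ k, (y ∘ μ) k - ∑ j, ((h.E.submatrix μ id) k j : ℝ) * (y ∘ h.μ) j ∈ Gam K := by
    intro k
    have := I2_sub h (y ∘ h.μ) (μ k)
    rwa [e] at this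
  exact ⟨fun g => g.det_ne h1, fun g => (I2_gen hy e).mul g h1⟩

theorem I2_exists {y : ι → ℝ} {μ : κ → ι} (hμ : Gen K (y ∘ μ)) (hy : rnk K y ≤ Fintype.card κ) :
    ∃ h : Par K ι κ, h.μ = μ ∧ h.ev (y ∘ h.μ) = y := by
  choose m hm using exists_comb hμ hy
  have h1 : ∀ k, m (μ k) = fun k' => if k = k' then 1 else 0 := fun k =>
    I2_uniq hμ (hm (μ k)) (by simp [apply_ite (fun x : ℚ => (x : ℝ))])
  refine ⟨⟨Matrix.of m, μ, fun i => y i - ∑ k, (m i k : ℝ) * y (μ k), fun k k' => ?_, hm,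
    fun k => ?_⟩, rfl, funext fun i => ?_⟩
  · exact congrFun (h1 k) k'
  · simp [h1, apply_ite (fun x : ℚ => (x : ℝ))]
  · simp [Par.ev]

theorem exists_chart (hΓ : (Gam K : Set ℝ).Countable) (d : ℕ) {Y : Set (ι → ℝ)}
    (hY : ∀ y ∈ Y, rnk K y ≤ d) :
    ∃ (H : Type) (_ : Countable H) (h : H → Par K ι (Fin d)), Chart Y h := by
  obtain ⟨enc, henc⟩ := exists_injective_nat (Fin d → ι)
  have := I2_countable (K := K) (ι := ι) (κ := Fin d) hΓ
  refine ⟨{h : Par K ι (Fin d) // ∀ μ, (h.E.submatrix μ id).det ≠ 0 → enc h.μ ≤ enc μ},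
    inferInstance, Subtype.val, fun y hy hr => ?_⟩
  have hd : rnk K y = d := le_antisymm (hY y hy) (by simpa using hr)
  obtain ⟨μ, hμ, hmin⟩ := Set.exists_min_image {μ : Fin d → ι | Gen K (y ∘ μ)} enc
    (Set.toFinite _) (by subst hd; exact exists_gen_sub y)
  obtain ⟨h, rfl, e⟩ := I2_exists hμ (by simp [hd])
  refine ⟨⟨h, fun μ hμ' => hmin μ ((I2_det hr e μ).2 hμ')⟩, e, ?_⟩
  rintro ⟨h', hh'⟩ e'
  have e1 : h'.μ = h.μ :=
    henc (le_antisymm (hh' _ ((I2_det hr e' _).1 hμ)) (hmin _ (I2_gen hr e')))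
  have e' : h'.ev (y ∘ h.μ) = y := by rw [← e1]; exact e'
  have e2 : h'.E = h.E := by
    funext i
    have h1 := I2_sub h (y ∘ h.μ) i
    have h2 := I2_sub h' (y ∘ h.μ) i
    rw [e] at h1
    rw [e'] at h2
    exact I2_uniq hμ h2 h1
  refine Subtype.ext (I2_ext e2 e1 (funext fun i => ?_))
  have h3 := (congrFun e' i).trans (congrFun e i).symm
  rw [Par.ev, Par.ev, e2] at h3
  exact add_left_cancel h3

theorem chart_top (Y : Set (ι → ℝ)) : Chart Y fun _ : Unit => Par.top K ι := by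
  intro y _ _
  exact ⟨(), (Par.top K ι).ev_mu y, fun _ _ => rfl⟩

theorem I2_inl (e : ι ⊕ ι' ≃ ι'') (h : Par K ι κ) (h' : Par K ι' κ') (η : κ ⊕ κ' → ℝ) :
    (fun i => (h.prod e h').ev η (e (Sum.inl i))) = h.ev (η ∘ Sum.inl) := by
  funext i
  simp [Par.ev, Par.prod]

theorem I2_inr (e : ι ⊕ ι' ≃ ι'') (h : Par K ι κ) (h' : Par K ι' κ') (η : κ ⊕ κ' → ℝ) :
    (fun i => (h.prod e h').ev η (e (Sum.inr i))) = h'.ev (η ∘ Sum.inr) := by
  funext i
  simp [Par.ev, Par.prod]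

theorem I2_eq (e : ι ⊕ ι' ≃ ι'') {y z : ι'' → ℝ} :
    y = z ↔ (fun i => y (e (Sum.inl i))) = (fun i => z (e (Sum.inl i))) ∧
      (fun i => y (e (Sum.inr i))) = fun i => z (e (Sum.inr i)) := by
  refine ⟨fun h => by simp [h], fun h => funext fun i => ?_⟩
  obtain ⟨j | j, rfl⟩ := e.surjective i
  · exact congrFun h.1 j
  · exact congrFun h.2 j

theorem chart_prod (e : ι ⊕ ι' ≃ ι'') {Y : Set (ι → ℝ)} {Y' : Set (ι' → ℝ)} {Y'' : Set (ι'' → ℝ)}
    {h : H → Par K ι κ} {h' : H' → Par K ι' κ'} (c : Chart Y h) (c' : Chart Y' h')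
    (r : ∀ y ∈ Y, rnk K y ≤ Fintype.card κ) (r' : ∀ y ∈ Y', rnk K y ≤ Fintype.card κ')
    (hY : ∀ y ∈ Y'', (fun i => y (e (Sum.inl i))) ∈ Y ∧ (fun i => y (e (Sum.inr i))) ∈ Y') :
    Chart Y'' fun x : H × H' => (h x.1).prod e (h' x.2) := by
  intro y hy hr
  obtain ⟨h1, h2⟩ := hY y hy
  have h3 : rnk K y ≤ rnk K (fun i => y (e (Sum.inl i))) + rnk K (fun i => y (e (Sum.inr i))) := by
    refine rnk_sum_le y (f := fun i => e (Sum.inl i)) (f' := fun i => e (Sum.inr i)) fun i => ?_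
    obtain ⟨j | j, rfl⟩ := e.surjective i
    · exact ⟨Sum.inl j, rfl⟩
    · exact ⟨Sum.inr j, rfl⟩
  have h4 := r _ h1
  have h5 := r' _ h2
  rw [Fintype.card_sum] at hr
  obtain ⟨x, hx, hu⟩ := c _ h1 (by omega)
  obtain ⟨x', hx', hu'⟩ := c' _ h2 (by omega)
  refine ⟨(x, x'), ?_, fun z hz => ?_⟩
  · beta_reduce
    rw [I2_eq e, I2_inl, I2_inr]
    exact ⟨hx, hx'⟩
  · beta_reduce at hz
    rw [I2_eq e, I2_inl, I2_inr] at hz
    exact Prod.ext (hu _ hz.1) (hu' _ hz.2)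

theorem measurable_mass {S : Set (Pt K ι)} {d : ℕ} (hS : TV S d) {D : Set (ι → ℝ)}
    (hD : MeasurableSet D) (h : Par K ι κ) :
    Measurable fun η => D.indicator (fun y => mlt (fib S y) (crd h.μ)) (h.ev η) := by
  exact ((measurable_mlt hS _).indicator hD).comp h.continuous_ev.measurable

theorem mass_prod (p : ℕ) [Fact p.Prime] [CharP K p] (hΓ : (Gam K : Set ℝ).Countable)
    (e : ι ⊕ ι' ≃ ι'') {S : Set (Pt K ι)} {S' : Set (Pt K ι')} {S'' : Set (Pt K ι'')}
    (hS : TV S (Fintype.card κ)) (hS' : TV S' (Fintype.card κ'))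
    (hS'' : ∀ z, z ∈ S'' ↔ (z.res fun i => e (Sum.inl i)) ∈ S ∧ (z.res fun i => e (Sum.inr i)) ∈ S')
    {D : Set (ι → ℝ)} {D' : Set (ι' → ℝ)} {D'' : Set (ι'' → ℝ)} (hD : MeasurableSet D)
    (hD' : MeasurableSet D')
    (hD'' : ∀ y, y ∈ D'' ↔ (fun i => y (e (Sum.inl i))) ∈ D ∧ (fun i => y (e (Sum.inr i))) ∈ D')
    (h : Par K ι κ) (h' : Par K ι' κ') :
    mass S'' D'' (h.prod e h') = mass S D h * mass S' D' h' := by
  have key : ∀ η : κ ⊕ κ' → ℝ, Gen K η →
      D''.indicator (fun y => mlt (fib S'' y) (crd (h.prod e h').μ)) ((h.prod e h').ev η) =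
        D.indicator (fun y => mlt (fib S y) (crd h.μ)) (h.ev (η ∘ Sum.inl)) *
          D'.indicator (fun y => mlt (fib S' y) (crd h'.μ)) (h'.ev (η ∘ Sum.inr)) := by
    intro η hη
    have h1 := hD'' ((h.prod e h').ev η)
    rw [I2_inl, I2_inr] at h1
    by_cases h2 : h.ev (η ∘ Sum.inl) ∈ D
    swap
    · rw [Set.indicator_of_notMem h2, Set.indicator_of_notMem (fun h3 => h2 (h1.1 h3).1), zero_mul]
    by_cases h2' : h'.ev (η ∘ Sum.inr) ∈ D'
    swap
    · rw [Set.indicator_of_notMem h2', Set.indicator_of_notMem (fun h3 => h2' (h1.1 h3).2),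
        mul_zero]
    rw [Set.indicator_of_mem h2, Set.indicator_of_mem h2', Set.indicator_of_mem (h1.2 ⟨h2, h2'⟩),
      ← mlt_prod p e (hS.nice rfl (by rw [h.ev_mu]; exact hη.comp Sum.inl_injective))
        (hS'.nice rfl (by rw [h'.ev_mu]; exact hη.comp Sum.inr_injective))
        (by rwa [h.ev_mu, h'.ev_mu, Sum.elim_comp_inl_inr])]
    congr 1
    ext z
    simp only [fib, Set.mem_ofPred_eq, hS'']
    rw [I2_eq e, I2_inl, I2_inr]
    exact and_and_and_comm
  rw [mass, mass, mass, lintegral_congr_ae ((ae_gen hΓ).mono key),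
    (volume_measurePreserving_sumPiEquivProdPi_symm fun _ : κ ⊕ κ' => ℝ).lintegral_map_equiv,
    ← lintegral_prod_mul (measurable_mass hS hD h).aemeasurable
      (measurable_mass hS' hD' h').aemeasurable]
  rfl

theorem mass_top (hΓ : (Gam K : Set ℝ).Countable) {D : Set (ι → ℝ)} (hD : MeasurableSet D) :
    mass Set.univ D (Par.top K ι) = volume D := by
  rw [mass, ← lintegral_indicator_one hD]
  refine lintegral_congr_ae ((ae_gen hΓ).mono fun η hη => ?_)
  have h1 : (Par.top K ι).ev η = η := (Par.top K ι).ev_mu η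
  beta_reduce
  rw [h1]
  by_cases h2 : η ∈ D
  swap
  · rw [Set.indicator_of_notMem h2, Set.indicator_of_notMem h2]
  rw [Set.indicator_of_mem h2, Set.indicator_of_mem h2]
  obtain ⟨ξ, hξ⟩ := exists_pt (K := K) η
  refine mlt_one (y := η) ⟨fun _ h => h.2, by rw [chi_crd]; exact hη⟩ ⟨ξ, trivial, hξ⟩
    fun i => ⟨1, Pi.single i 1, fun ζ _ => ?_⟩
  rw [one_smul, Finset.prod_eq_single i (fun j _ hj => by simp [hj]) (by simp), Pt.ch_crd]
  simp [Par.top]

end Pool.Agent.Work.MP_ffcd14_ag.Tr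
end

-- merged part: Pool.Agent.Work.MP_ffcd14_ag.Tr.I3
section
/-!
# The degree formula

Plan.  `deg_fib`: for `y` in the index set, `chi χ y` is generic (`Gen.congr`), and the subfamily
of the `a` with `(ξ a).trop = y` is a covering family for `fib S y`; `mlt_eq`.  Sum over the
fibres of `a ↦ (ξ a).trop` (`ENNReal.tsum_fiberwise`, `tsum_fintype`, `Equiv.sigmaFiberEquiv`).
`int_formula`: apply `intA` with `A x = χ E`, `c x = chi χ γ` and `F x` the integrand of `mass`.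
For `s` generic (`ae_gen`) the triples `(n, x, η)` with a nonzero term correspond to the `y` with
a nonzero term in `deg_fib`, through `y = (h x).ev η` (`tsum_eq_tsum_of_ne_zero_bij`,
`ENNReal.tsum_sigma`): if `fib S y` is not empty (`mlt_ne_zero`) then `y ∈ trop '' S`, its rank is
at least `card σ = card κ` (`rnk_chi_le`, `gen_iff_rnk`), so `x` exists and is unique, `η = y ∘ μ`
is generic (`Par.rnk_ev`), the determinant does not vanish (`Gen.det_ne`) and the terms agree by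
`mlt_chg`, `mlt_reindex`, `TV.nice`.
`sum_mass_gam`: for generic `η` the multiplicity is one (`mlt_one`; a point exists by `exists_pt`),
and for each `η` exactly one `n` gives a point of the fundamental domain (`exists_dom_lat`,
`mem_Dom_iff`); `lintegral_tsum`, `volume_Dom`.
-/

namespace Pool.Agent.Work.MP_ffcd14_ag.Tr

open MvPolynomial Filter Topology MeasureTheory
open scoped ENNReal

set_option linter.unusedSectionVars false

universe u

variable {K : Type u} [NontriviallyNormedField K] [IsUltrametricDist K] [CompleteSpace K]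
  [IsAlgClosed K] {ι ι' ι'' κ κ' : Type} [Fintype ι] [DecidableEq ι] [Fintype ι']
  [DecidableEq ι'] [Fintype ι''] [DecidableEq ι''] [Fintype κ] [DecidableEq κ] [Fintype κ']
  [DecidableEq κ']

variable {σ H N G : Type} [Fintype σ] [DecidableEq σ] [Fintype G] [DecidableEq G]

theorem deg_fib {S : Set (Pt K ι)} {χ : σ → ι → ℤ} {D : Set (ι → ℝ)} {L : Set (σ → ℝ)} {n : ℕ}
    (h : DegS S χ D L n) (hL : ∀ v ∈ L, ∀ k, v k ∈ Gam K) {s : σ → ℝ} (hs : Gen K s) :
    (n : ℝ≥0∞) = ∑' y : {y : ι → ℝ // y ∈ D ∧ chi χ y - s ∈ L}, mlt (fib S y.1) χ := by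
  obtain ⟨m, ξ, F, hc, rfl⟩ := h s hs
  let g : Fin m → {y : ι → ℝ // y ∈ D ∧ chi χ y - s ∈ L} := fun a => ⟨(ξ a).trop, (F.mem a).2⟩
  rw [Nat.cast_sum, ← tsum_fintype (L := .unconditional _), ← ENNReal.tsum_fiberwise _ g]
  refine tsum_congr fun y => ?_
  have := Fintype.ofFinite (g ⁻¹' {y})
  rw [mlt_eq (S := fib S y) (y := y) (A := g ⁻¹' {y}) (ξ := fun a => ξ a) ⟨fun _ h => h.2, hs.congr (hL _ y.2.2)⟩
    ⟨fun a => ⟨(F.mem a).1, congrArg Subtype.val a.2⟩, fun a => F.tight a, fun a => F.fd a,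
      fun a b e => Subtype.ext (F.ineq a b e)⟩, tsum_fintype, Nat.cast_sum]
  rintro ζ ⟨h1, h2⟩
  obtain ⟨a, ha⟩ := hc ζ h1 (h2 ▸ y.2.1) (h2 ▸ y.2.2)
  exact ⟨⟨a, Subtype.ext (ha.trop.trans h2)⟩, ha⟩

/-- The matrix of the characters on the subspace. -/
noncomputable def I3_A (χ : σ → ι → ℤ) (h : Par K ι κ) : Matrix σ κ ℝ :=
  Matrix.of fun i k => ∑ l, (χ i l : ℝ) * h.ER l k

theorem I3_chi (χ : σ → ι → ℤ) (h : Par K ι κ) (η : κ → ℝ) :
    chi χ (h.ev η) = (I3_A χ h).mulVec η + chi χ h.γ := by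
  ext i
  simp only [chi, Par.ev, I3_A, Par.ER, Matrix.mulVec, dotProduct, Matrix.of_apply, Pi.add_apply,
    mul_add, Finset.sum_add_distrib, Finset.mul_sum, Finset.sum_mul, mul_assoc]
  rw [Finset.sum_comm]

theorem I3_rnk (e : κ ≃ σ) {χ : σ → ι → ℤ} {y : ι → ℝ} (hg : Gen K (chi χ y)) :
    Fintype.card κ ≤ rnk K y :=
  (Fintype.card_congr e).le.trans ((gen_iff_rnk.1 hg).trans (rnk_chi_le χ y))

theorem I3_term (p : ℕ) [Fact p.Prime] [CharP K p] {S : Set (Pt K ι)}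
    (hS : TV S (Fintype.card κ)) (e : κ ≃ σ) {χ : σ → ι → ℤ} (h : Par K ι κ) {η : κ → ℝ}
    (hg : Gen K (chi χ (h.ev η))) : mlt (fib S (h.ev η)) χ =
      ENNReal.ofReal |((I3_A χ h).submatrix id e.symm).det| * mlt (fib S (h.ev η)) (crd h.μ) := by
  have h1 : Gen K η := gen_iff_rnk.2 ((I3_rnk e hg).trans (h.rnk_ev η))
  let Q : Matrix κ κ ℚ := Matrix.of fun k j => ∑ l, (χ (e k) l : ℚ) * h.E l j
  have hQ : ∀ k j, (Q k j : ℝ) = I3_A χ h (e k) j := fun k j => by simp [Q, I3_A, Par.ER]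
  have h2 : ∀ k, chi (χ ∘ e) (h.ev η) k - ∑ j, (Q k j : ℝ) * η j ∈ Gam K := fun k => by
    have : chi (χ ∘ e) (h.ev η) k = ∑ j, I3_A χ h (e k) j * η j + chi χ h.γ (e k) :=
      congrFun (I3_chi χ h η) (e k)
    simp only [this, hQ, add_sub_cancel_left]
    exact sum_mem fun l _ => zsmul_eq_mul (h.γ l) _ ▸ zsmul_mem (h.hγ l) _
  have h3 : (Q.det : ℝ) = ((I3_A χ h).submatrix id e.symm).det := by
    rw [← Matrix.det_submatrix_equiv_self e, Rat.cast_det]
    congr 1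
    ext k j
    simp [hQ]
  rw [← mlt_reindex e, ← h3]
  refine mlt_chg p (hS.nice rfl (by rwa [h.ev_mu])) ((hg.comp e.injective).det_ne h2) ?_
  rwa [chi_crd, h.ev_mu]

theorem int_formula (p : ℕ) [Fact p.Prime] [CharP K p] (hΓ : (Gam K : Set ℝ).Countable)
    {S : Set (Pt K ι)} (hS : TV S (Fintype.card κ)) [Countable H] {h : H → Par K ι κ}
    (hc : Chart (Pt.trop '' S) h) (e : κ ≃ σ) {χ : σ → ι → ℤ} {D : Set (ι → ℝ)}
    (hD : MeasurableSet D) [Countable N] {v : N → σ → ℝ} (hv : ∀ n k, v n k ∈ Gam K)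
    {D' : Set (σ → ℝ)} (hD' : MeasurableSet D') (hv' : ∀ s, ∃! n, s - v n ∈ D') {n : ℕ}
    (hn : DegS S χ D (Set.range v) n) :
    n * volume D' = ∑' x, mass S D (h x) * ENNReal.ofReal ((Matrix.of fun i j : σ =>
      ∑ l, (χ i l : ℝ) * (h x).ER l (e.symm j)).det ^ 2) := by
  refine intA e (fun x => I3_A χ (h x)) (fun x => chi χ (h x).γ) _
    (fun x => measurable_mass hS hD (h x)) v hD' hv' n ?_
  have vi : Function.Injective v := fun a b k => by
    obtain ⟨c, hc, -⟩ := hv' 0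
    refine (hv' (v a + (0 - v c))).unique ?_ ?_
    · rwa [add_sub_cancel_left]
    · rwa [k, add_sub_cancel_left]
  filter_upwards [ae_gen hΓ] with s hs
  rw [deg_fib hn (Set.forall_mem_range.2 hv) hs]
  let Y : Set (ι → ℝ) := {y | y ∈ D ∧ chi χ y - s ∈ Set.range v}
  let f : (ι → ℝ) → ℝ≥0∞ := Y.indicator fun y => mlt (fib S y) χ
  let P : N → H → Set (κ → ℝ) := fun n x =>
    {η | (I3_A χ (h x)).mulVec η + chi χ (h x).γ = s + v n}
  let g : H → (κ → ℝ) → ℝ≥0∞ := fun x η =>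
    ENNReal.ofReal |((I3_A χ (h x)).submatrix id e.symm).det| *
      D.indicator (fun y => mlt (fib S y) (crd (h x).μ)) ((h x).ev η)
  have hP : ∀ n x η, η ∈ P n x ↔ chi χ ((h x).ev η) - s = v n := fun n x η => by
    rw [I3_chi, sub_eq_iff_eq_add']
    rfl
  have gen : ∀ y n, chi χ y - s = v n → Gen K (chi χ y) := fun y n k =>
    hs.congr fun i => by rw [← Pi.sub_apply, k]; exact hv n i
  have key : ∀ n x η, η ∈ P n x → f ((h x).ev η) = (P n x).indicator (g x) η := by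
    intro n x η k
    rw [Set.indicator_of_mem k]
    rw [hP] at k
    by_cases l : (h x).ev η ∈ D
    · simp only [f, g, Set.indicator_of_mem l]
      rw [Set.indicator_of_mem (show _ ∈ Y from ⟨l, n, k.symm⟩), I3_term p hS e _ (gen _ n k)]
    · simp only [f, g, Set.indicator_of_notMem l, mul_zero]
      exact Set.indicator_of_notMem (fun k => l k.1) _
  have ch : ∀ y, f y ≠ 0 → ∃! x, (h x).ev (y ∘ (h x).μ) = y := fun y k => by
    obtain ⟨⟨-, n, k1⟩, k2⟩ := Set.indicator_apply_ne_zero.1 k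
    obtain ⟨ξ, k3⟩ := mlt_ne_zero.1 k2
    exact hc y ⟨ξ, k3⟩ (I3_rnk e (gen y n k1.symm))
  refine (tsum_subtype Y fun y => mlt (fib S y) χ).trans (.trans ?_
    (tsum_congr fun n => tsum_congr fun x => (tsum_subtype (P n x) (g x)).symm))
  simp only [← ENNReal.tsum_prod]
  refine tsum_eq_tsum_of_ne_zero_bij (f := f) (fun t => (h t.1.2.1).ev t.1.2.2) ?_ ?_
    fun t => key _ _ _ (Set.mem_of_indicator_ne_zero t.2)
  · rintro ⟨⟨a, x, η⟩, k⟩ ⟨⟨a', x', η'⟩, k'⟩ (l : (h x).ev η = (h x').ev η')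
    have k1 : η ∈ P a x := Set.mem_of_indicator_ne_zero k
    have k2 : η' ∈ P a' x' := Set.mem_of_indicator_ne_zero k'
    obtain rfl : x = x' := (ch _ ((key _ _ _ k1).trans_ne k)).unique (by rw [Par.ev_mu])
      (by rw [l, Par.ev_mu])
    obtain rfl : η = η' := by rw [← (h x).ev_mu η, l, Par.ev_mu]
    obtain rfl : a = a' := vi (((hP _ _ _).1 k1).symm.trans ((hP _ _ _).1 k2))
    rfl
  · intro y k
    obtain ⟨x, hx, -⟩ := ch y k
    obtain ⟨-, a, k1⟩ := Set.mem_of_indicator_ne_zero k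
    have k2 := key a x (y ∘ (h x).μ) ((hP _ _ _).2 (by rw [hx, k1]))
    rw [hx] at k2
    exact ⟨⟨(a, x, y ∘ (h x).μ), k2.symm.trans_ne k⟩, hx⟩

theorem lat_mem {U : Type} {lam : G → G → K} (h0 : ∀ j i, lam j i ≠ 0) (n : U × G → ℤ)
    (q : U × G) : lat (lg lam) n q ∈ Gam K := by
  exact sum_mem fun j _ => zsmul_eq_mul (lg lam j q.2) _ ▸ zsmul_mem (log_mem (h0 j _)) _

/-- The charts for the graph of the subtraction. -/
noncomputable def gch {lam : G → G → K} (h0 : ∀ j i, lam j i ≠ 0) (n : Unit × G → ℤ) :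
    Par K (((Unit ⊕ Unit) ⊕ Unit) × G) ((Unit ⊕ Unit) × G) :=
  Par.gam (fun i => lat (lg lam) n ((), i)) fun _ => lat_mem h0 n _

section

variable {lam : G → G → K} (h0 : ∀ j i, lam j i ≠ 0) (n : Unit × G → ℤ)

theorem I3_evl (η : (Unit ⊕ Unit) × G → ℝ) (a : Unit ⊕ Unit) (i : G) :
    (gch h0 n).ev η (Sum.inl a, i) = η (a, i) :=
  congrFun ((gch h0 n).ev_mu η) (a, i)

theorem I3_evr (η : (Unit ⊕ Unit) × G → ℝ) (a : Unit) (i : G) : (gch h0 n).ev η (Sum.inr a, i) =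
    η (Sum.inl (), i) - η (Sum.inr (), i) + lat (lg lam) n ((), i) := by
  simp [gch, Par.gam, Par.ev, gE, Fintype.sum_prod_type, Fintype.sum_sum_type, sub_eq_add_neg,
    apply_ite ((↑) : ℚ → ℝ)]

theorem I3_inj (h1 : LinearIndependent ℝ (lg lam)) {n' : Unit × G → ℤ}
    {η : (Unit ⊕ Unit) × G → ℝ} (e : (gch h0 n).ev η = (gch h0 n').ev η) : n = n' := by
  refine lat_inj h1 (funext fun q => ?_)
  have := congrFun e (Sum.inr (), q.2)
  rw [I3_evr, I3_evr] at this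
  exact add_left_cancel this

theorem I3_trop {ξ : Pt K (((Unit ⊕ Unit) ⊕ Unit) × G)}
    (h : ∀ i, ξ.x (Sum.inr (), i) = (∏ j, lam j i ^ n ((), j)) •
      (ξ.x (Sum.inl (Sum.inl ()), i) / ξ.x (Sum.inl (Sum.inr ()), i))) :
    (gch h0 n).ev (ξ.trop ∘ Prod.map Sum.inl id) = ξ.trop := by
  ext ⟨a | a, i⟩
  · exact I3_evl h0 n _ a i
  · have k := fun i => norm_ne_zero_iff.2 (ξ.ne i)
    have k' := fun j => zpow_ne_zero (n ((), j)) (norm_ne_zero_iff.2 (h0 j i))
    rw [I3_evr]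
    simp only [Function.comp_apply, Prod.map_apply, id, Pt.trop, h, norm_smul, norm_div, norm_prod,
      norm_zpow]
    rw [Real.log_mul (Finset.prod_ne_zero_iff.2 fun j _ => k' j) (div_ne_zero (k _) (k _)),
      Real.log_div (k _) (k _), Real.log_prod fun j _ => k' j, add_comm]
    simp only [Real.log_zpow, lat, lg]

theorem I3_single {Ω : Type u} [Field Ω] (t : κ → Ω) (a : κ) :
    ∏ k, t k ^ (Pi.single a 1 : κ → ℤ) k = t a := by
  rw [Fintype.prod_eq_single a fun k hk => by rw [Pi.single_eq_of_ne hk, zpow_zero],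
    Pi.single_eq_same, zpow_one]

theorem I3_one (h1 : LinearIndependent ℝ (lg lam)) {η : (Unit ⊕ Unit) × G → ℝ} (hη : Gen K η) :
    mlt (fib (Sgam lam) ((gch h0 n).ev η)) (crd (gch h0 n).μ) = 1 := by
  refine mlt_one ⟨fun _ h => h.2, by rwa [chi_crd, Par.ev_mu]⟩ ?_ ?_
  · obtain ⟨ξ, rfl⟩ := exists_pt (K := K) η
    let ζ : Pt K (((Unit ⊕ Unit) ⊕ Unit) × G) := ⟨ξ.toCF, fun q => q.1.elim (fun a => ξ.x (a, q.2))
      fun _ => (∏ j, lam j q.2 ^ n ((), j)) • (ξ.x (Sum.inl (), q.2) / ξ.x (Sum.inr (), q.2)), by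
        rintro ⟨a | a, i⟩
        · exact ξ.ne _
        · exact smul_ne_zero (Finset.prod_ne_zero_iff.2 fun j _ => zpow_ne_zero _ (h0 _ _))
            (div_ne_zero (ξ.ne _) (ξ.ne _))⟩
    exact ⟨ζ, ⟨fun j => n ((), j), fun _ => rfl⟩, (I3_trop h0 n (ξ := ζ) fun _ => rfl).symm⟩
  rintro ⟨a | a, i⟩
  · refine ⟨1, Pi.single (a, i) 1, fun ξ _ => ?_⟩
    rw [I3_single, one_smul, Pt.ch_crd]
    rfl
  · refine ⟨∏ j, lam j i ^ n ((), j), Pi.single (Sum.inl (), i) 1 - Pi.single (Sum.inr (), i) 1, ?_⟩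
    rintro ξ ⟨⟨m, hm⟩, e⟩
    have k := I3_trop h0 (fun q => m q.2) hm
    rw [e] at k
    obtain rfl : n = fun q => m q.2 :=
      (I3_inj h0 _ h1 (((gch h0 n).ev_mu η ▸ k :))).symm
    simp only [Pi.sub_apply, Pt.ch_crd, zpow_sub₀ (ξ.ne _), Finset.prod_div_distrib, I3_single]
    exact hm i

theorem I3_dom (η : (Unit ⊕ Unit) × G → ℝ) :
    (gch h0 n).ev η ∈ Dom (lg lam) _ ↔ η ∈ Dom (lg lam) _ ∧ (fun q : Unit × G =>
      η (Sum.inl (), q.2) - η (Sum.inr (), q.2)) - lat (lg lam) (-n) ∈ Dom (lg lam) _ := by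
  rw [mem_Dom_iff, mem_Dom_iff (y := η), Sum.forall, lat_neg, sub_neg_eq_add]
  simp only [I3_evl, I3_evr, forall_const]
  rfl

end

theorem chart_gam {lam : G → G → K} (h0 : ∀ j i, lam j i ≠ 0)
    (h1 : LinearIndependent ℝ (lg lam)) : Chart (Pt.trop '' Sgam lam) (gch h0) := by
  rintro _ ⟨ξ, ⟨m, hm⟩, rfl⟩ -
  have k := I3_trop h0 (fun q => m q.2) hm
  exact ⟨_, k, fun n hn => I3_inj h0 n h1 (hn.trans k.symm)⟩

theorem cls_gch {lam : G → G → K} (h0 : ∀ j i, lam j i ≠ 0) (n : Unit × G → ℤ) :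
    (gch h0 n).cls = gam (Sum.inl (Sum.inl ())) (Sum.inl (Sum.inr ())) (Sum.inr ()) := by
  have e : (gch h0 n).ER = gE ℝ G := by
    ext ⟨a | a, i⟩ k <;> simp [gch, Par.gam, Par.ER, gE, apply_ite ((↑) : ℚ → ℝ)]
  rw [← nn_gam, Par.cls, e]
  rfl

theorem sum_mass_gam (hΓ : (Gam K : Set ℝ).Countable) {lam : G → G → K} (h0 : ∀ j i, lam j i ≠ 0)
    (h1 : LinearIndependent ℝ (lg lam)) :
    ∑' n, mass (Sgam lam) (Dom (lg lam) _) (gch h0 n) = ENNReal.ofReal (cov (lg lam)) ^ 2 := by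
  have m : ∀ n, MeasurableSet ((gch h0 n).ev ⁻¹' Dom (lg lam) _) := fun n =>
    (gch h0 n).continuous_ev.measurable (measurableSet_Dom h1)
  have e : ∀ n, mass (Sgam lam) (Dom (lg lam) _) (gch h0 n) =
      ∫⁻ η, ((gch h0 n).ev ⁻¹' Dom (lg lam) _).indicator 1 η := fun n => by
    refine lintegral_congr_ae ?_
    filter_upwards [ae_gen hΓ] with η hη
    by_cases k : (gch h0 n).ev η ∈ Dom (lg lam) _
    · rw [Set.indicator_of_mem k, Set.indicator_of_mem (Set.mem_preimage.2 k), I3_one h0 n h1 hη]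
      rfl
    · rw [Set.indicator_of_notMem k, Set.indicator_of_notMem (mt Set.mem_preimage.1 k)]
  rw [tsum_congr e, ← lintegral_tsum fun n => (measurable_one.indicator (m n)).aemeasurable]
  refine .trans (lintegral_congr fun η => ?_)
    ((lintegral_indicator_one (measurableSet_Dom h1)).trans (volume_Dom (U := Unit ⊕ Unit)))
  obtain ⟨a, ha, hu⟩ := exists_dom_lat h1 fun q : Unit × G =>
    η (Sum.inl (), q.2) - η (Sum.inr (), q.2)
  rw [tsum_eq_single (-a) fun n hn => Set.indicator_of_notMem (mt Set.mem_preimage.1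
    fun k => hn (neg_eq_iff_eq_neg.1 (hu _ ((I3_dom h0 n η).1 k).2))) _]
  refine Set.indicator_const_eq_indicator_const (c := (1 : ℝ≥0∞)) ?_
  rw [Set.mem_preimage, I3_dom, neg_neg, and_iff_left ha]

/-- The determinant in the degree formula, for a product `A ^ T × W` and the differences. -/
theorem det_dch {T U : Type} [Fintype T] [DecidableEq T] [Fintype U] [DecidableEq U] (r : U → T)
    (h : Par K (U × G) κ) (e : (T × G) ⊕ κ ≃ U × G) :
    (Matrix.of fun i j : U × G => ∑ l, (dch Sum.inr (fun u => Sum.inl (r u)) i l : ℝ) *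
      ((Par.top K (T × G)).prod (Equiv.sumProdDistrib T U G).symm h).ER l (e.symm j)).det ^ 2 =
      int (T × G) (up (Prod.map r id) h.cls) := by
  rw [Par.cls, int_up_nn (fun k k' => by simp [Par.ER, h.hE, apply_ite ((↑) : ℚ → ℝ)]) _ e]
  congr 2
  ext ⟨u, g⟩ j
  simp only [Matrix.of_apply, dch, Pi.sub_apply, Int.cast_sub, sub_mul, Finset.sum_sub_distrib,
    Pi.single_apply, apply_ite ((↑) : ℤ → ℝ), Int.cast_one, Int.cast_zero, boole_mul,
    Finset.sum_ite_eq', Finset.mem_univ, if_true]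
  rcases e.symm j with t | k
  · by_cases l : (r u, g) = t <;> simp [Par.ER, Par.prod, Par.top, Matrix.one_apply, l]
  · simp [Par.ER, Par.prod, Par.top]

end Pool.Agent.Work.MP_ffcd14_ag.Tr
end

-- merged part: Pool.Agent.Work.MP_ffcd14_ag.Tr.AD
section
/-!
# The uniformisation of the powers of `X`

`th A M ξ` are the homogeneous coordinates of the image in the model `M` of `X ^ T` of a point `ξ`
of the torus, and `SW A M W` is the set of the points of the torus which lie over `W`.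
`Pre A M c a v` says that the class `c` is represented by the series `∑ a x • v x` of forms.
-/

open MvPolynomial Filter Topology

namespace Pool.Agent.Work.MP_ffcd14_ag.Tr

open MP_10f4af_ag MP_10f4af_ag.Nu
open scoped ENNReal

universe u

variable {K : Type u} [NontriviallyNormedField K] [IsAlgClosed K] {P : Amb} {X : SV K P}
  (A : Unif X) {T : Type}

/-- The theta functions on a power of the torus. -/
noncomputable def th (M : Mod X T) (ξ : Pt K (T × Fin X.dim)) (w : M.S.V) : ξ.Ω :=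
  ser (A.c ((Equiv.ofBijective _ M.bε).symm w).2) fun i =>
    ξ.x (((Equiv.ofBijective _ M.bε).symm w).1, i)

theorem th_ε (M : Mod X T) (ξ : Pt K (T × Fin X.dim)) (t : T) (s : P.V) :
    th A M ξ ((M.β t).ε s) = ser (A.c s) fun i => ξ.x (t, i) := by
  have h : (Equiv.ofBijective _ M.bε).symm ((M.β t).ε s) = (t, s) :=
    (Equiv.ofBijective _ M.bε).symm_apply_apply (t, s)
  rw [th, h]

/-- The points of the torus over `W`. -/
def SW (M : Mod X T) (W : Set (M.S.Pt K)) : Set (Pt K (T × Fin X.dim)) := {ξ | On W (th A M ξ)}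

/-- A period. -/
noncomputable def per (n : T × Fin X.dim → ℤ) (q : T × Fin X.dim) : K :=
  ∏ j, A.lam j q.2 ^ n (q.1, j)

/-- The covolume of the lattice. -/
noncomputable def vol : ℝ≥0∞ := ENNReal.ofReal (cov (lg A.lam))

/-- The graph of the subtraction. -/
noncomputable def gW : Sub K (M3 X).S := gl A.sub (X.prod X).tp subset_rfl

variable [Fintype T] [DecidableEq T]

/-- The class `c` is represented by the series `∑ a x • v x`. -/
def Pre (M : Mod X T) (c : CR M.Z) {H : Type} (a : H → ℝ≥0∞) (v : H → Ev (T × Fin X.dim)) :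
    Prop :=
  ∃ (U : Type) (_ : Fintype U) (_ : DecidableEq U) (MU : Mod X U) (r : U → T) (W : Sub K MU.S)
    (κ : Type) (_ : Fintype κ) (_ : DecidableEq κ) (h : H → Par K (U × Fin X.dim) κ) (d : ℕ),
    Countable H ∧ (W : Set (MU.S.Pt K)) ⊆ MU.Z.pts ∧ Fintype.card κ = sdim W ∧
      sdim W + d = MU.Z.dim ∧ Chart (Pt.trop '' SW A MU W) h ∧ Univ M c MU r W ∧
      c ∈ CR.gr M.Z d ∧
      (∀ x, a x = mass (SW A MU W) (Dom (lg A.lam) U) (h x) / vol A ^ Fintype.card U) ∧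
      ∀ x, v x = up (Prod.map r id) (h x).cls

/-- The class `c` is represented by a series with the sum `e`. -/
def Good (M : Mod X T) (c : CR M.Z) (e : Ev (T × Fin X.dim)) : Prop :=
  ∃ (H : Type) (a : H → ℝ≥0∞) (v : H → Ev (T × Fin X.dim)), Pre A M c a v ∧ PSum a v e

/-- Rational combinations of good pairs. -/
inductive RelT (M : Mod X T) : CR M.Z → Ev (T × Fin X.dim) → Prop
  | good {c e} : Good A M c e → RelT M c e
  | zero : RelT M 0 0
  | add {c c' e e'} : RelT M c e → RelT M c' e' → RelT M (c + c') (e + e')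
  | smul (q : ℚ) {c e} : RelT M c e → RelT M (q • c) ((q : ℝ) • e)

end Pool.Agent.Work.MP_ffcd14_ag.Tr
end

-- merged part: Pool.Agent.Work.MP_ffcd14_ag.Tr.A1
section
/-!
# Entire Laurent series

Plan.  `summable_ser`: the terms tend to zero along the cofinite filter and `Ω` is complete and
ultrametric (`IsUltrametricDist.of_normedAlgebra`,
`NonarchimedeanAddGroup.summable_of_tendsto_cofinite_zero`).  `map_ser`: `HasSum.map` for the
continuous map `ψ`.  `ser_mem`: finite sums lie in the closed subfield.  `appr_ser`: if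
`|log ‖x i‖| ≤ R`, then `∏ ‖x i‖ ^ α i ≤ ∏ ρ i ^ α i` for the corner `ρ i = exp (± R)` given by the
signs of `α`; there are finitely many corners, so all terms outside a finite set `s` are at most
`ε`, and so is their sum (`IsUltrametricDist.norm_tsum_le_of_forall_le_of_nonneg`,
`Summable.sum_add_tsum_compl`); `Pt.exists_ev_mon`.  `Appr` is stable under sums and products
(`ev_bdd`), so it holds for the polynomials in the theta functions (`MvPolynomial.induction_on`).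
`Appr.lim`: an `ε / 3` argument; the limit point has the same bound (`Lim.trop`).
-/

namespace Pool.Agent.Work.MP_ffcd14_ag.Tr

open MvPolynomial Filter Topology MP_10f4af_ag MP_10f4af_ag.Nu
open scoped ENNReal

set_option linter.unusedSectionVars false

universe u

variable {K : Type u} [NontriviallyNormedField K] [IsUltrametricDist K] [CompleteSpace K]
  [IsAlgClosed K] {P : Amb} {X : SV K P} (A : Unif X) {T T' U U' V : Type}

/-- The series converges on the whole torus. -/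
def Ent {g : ℕ} (c : (Fin g → ℤ) → K) : Prop :=
  ∀ ρ : Fin g → ℝ, (∀ i, 0 < ρ i) → Tendsto (fun α => ‖c α‖ * ∏ i, ρ i ^ α i) cofinite (𝓝 0)

section

variable {Ω Ω' : Type u} [NormedField Ω] [NormedAlgebra K Ω] [CompleteSpace Ω] [NormedField Ω']
  [NormedAlgebra K Ω'] {g : ℕ} {c : (Fin g → ℤ) → K}

theorem A1_norm (a : K) (x : Fin g → Ω) (α : Fin g → ℤ) :
    ‖a • ∏ i, x i ^ α i‖ = ‖a‖ * ∏ i, ‖x i‖ ^ α i := by
  rw [norm_smul, norm_prod]
  simp only [norm_zpow]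

theorem summable_ser (h : Ent c) {x : Fin g → Ω} (hx : ∀ i, x i ≠ 0) :
    Summable fun α => c α • ∏ i, x i ^ α i := by
  have : IsUltrametricDist Ω := IsUltrametricDist.of_normedAlgebra K
  refine NonarchimedeanAddGroup.summable_of_tendsto_cofinite_zero ?_
  rw [tendsto_zero_iff_norm_tendsto_zero]
  simp only [A1_norm]
  exact h _ fun i => norm_pos_iff.2 (hx i)

theorem map_ser (h : Ent c) {x : Fin g → Ω} (hx : ∀ i, x i ≠ 0) {ψ : Ω →ₐ[K] Ω'} (hψ : Iso ψ) :
    ψ (ser c x) = ser c fun i => ψ (x i) := by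
  have h1 := (summable_ser h hx).hasSum.map ψ hψ.continuous
  rw [ser, ser, ← h1.tsum_eq]
  refine tsum_congr fun α => ?_
  simp only [Function.comp_apply, map_smul, map_prod, map_zpow₀]

theorem ser_mem (h : Ent c) {x : Fin g → Ω} (hx : ∀ i, x i ≠ 0) {s : Set Ω}
    (hs : ∀ i, x i ∈ cl K s) : ser c x ∈ cl K s := by
  refine (isClosed_cl K s).mem_of_tendsto (summable_ser h hx).hasSum
    (Eventually.of_forall fun t => ?_)
  exact sum_mem fun α _ => (cl K s).smul_mem (prod_mem fun i _ => zpow_mem (hs i) _)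

end

/-- Uniform limits of Laurent polynomials on bounded regions. -/
def Appr {ι : Type} (F : ∀ ξ : Pt K ι, ξ.Ω) : Prop :=
  ∀ (R ε : ℝ), 0 < ε → ∃ p : MvPolynomial (ι ⊕ ι) K,
    ∀ ξ : Pt K ι, (∀ i, |ξ.trop i| ≤ R) → ‖F ξ - ξ.ev p‖ ≤ ε

theorem A1_zpow {ι : Type} (j : ι) (k : ℤ) :
    ∃ p : MvPolynomial (ι ⊕ ι) K, ∀ ξ : Pt K ι, ξ.ev p = ξ.x j ^ k := by
  rcases k with n | n
  · exact ⟨MvPolynomial.X (Sum.inl j) ^ n, fun ξ => by simp [Pt.ev]⟩
  · exact ⟨MvPolynomial.X (Sum.inr j) ^ (n + 1), fun ξ => by simp [Pt.ev, zpow_negSucc]⟩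

theorem A1_corner {r R : ℝ} (hr : 0 < r) (h : |Real.log r| ≤ R) (k : ℤ) :
    r ^ k ≤ Real.exp (if 0 ≤ k then R else -R) ^ k := by
  obtain ⟨h1, h2⟩ := abs_le.1 h
  split_ifs with hk
  · exact zpow_le_zpow_left₀ hk hr.le ((Real.log_le_iff_le_exp hr).1 h2)
  · have h3 : Real.exp (-R) ≤ r := (Real.le_log_iff_exp_le hr).1 h1
    have h4 := zpow_le_zpow_left₀ (n := -k) (by omega) (Real.exp_pos _).le h3
    rw [zpow_neg, zpow_neg] at h4
    exact (inv_le_inv₀ (zpow_pos (Real.exp_pos _) _) (zpow_pos hr _)).1 h4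

theorem appr_ser {ι : Type} [Fintype ι] [DecidableEq ι] {g : ℕ} {c : (Fin g → ℤ) → K} (h : Ent c)
    (f : Fin g → ι) : Appr fun ξ : Pt K ι => ser c fun i => ξ.x (f i) := by
  intro R ε hε
  have h1 : ∀ᶠ α in cofinite, ∀ σ : Fin g → Bool,
      ‖c α‖ * ∏ i, Real.exp (if σ i then R else -R) ^ α i ≤ ε :=
    eventually_all.2 fun σ => (h _ fun i => Real.exp_pos _).eventually (ge_mem_nhds hε)
  have h2 := eventually_cofinite.1 h1
  choose q hq using fun (i : Fin g) (k : ℤ) => A1_zpow (K := K) (f i) k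
  refine ⟨∑ α ∈ h2.toFinset, C (c α) * ∏ i, q i (α i), fun ξ hξ => ?_⟩
  have h3 := (summable_ser h fun i => ξ.ne (f i)).sum_add_tsum_compl (s := h2.toFinset)
  have h4 : ξ.ev (∑ α ∈ h2.toFinset, C (c α) * ∏ i, q i (α i)) =
      ∑ α ∈ h2.toFinset, c α • ∏ i, ξ.x (f i) ^ α i := by
    rw [map_sum]
    refine Finset.sum_congr rfl fun α _ => ?_
    rw [map_mul, map_prod, algHom_C, Algebra.smul_def]
    simp only [hq]
  show ‖(∑' α, c α • ∏ i, ξ.x (f i) ^ α i) - _‖ ≤ ε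
  rw [h4, ← h3, add_sub_cancel_left]
  refine IsUltrametricDist.norm_tsum_le_of_forall_le_of_nonneg hε.le fun α => ?_
  have h5 : ∀ σ : Fin g → Bool,
      ‖c α‖ * ∏ i, Real.exp (if σ i then R else -R) ^ α.1 i ≤ ε :=
    by_contra fun k => α.2 (h2.mem_toFinset.2 k)
  rw [A1_norm]
  refine le_trans (mul_le_mul_of_nonneg_left ?_ (norm_nonneg _)) (h5 fun i => decide (0 ≤ α.1 i))
  refine Finset.prod_le_prod (fun i _ => zpow_nonneg (norm_nonneg _) _) fun i _ => ?_
  simpa using A1_corner (norm_pos_iff.2 (ξ.ne (f i))) (hξ (f i)) (α.1 i)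

theorem A1_bdd {ι : Type} [Fintype ι] [DecidableEq ι] {F : ∀ ξ : Pt K ι, ξ.Ω} (h : Appr F) (R : ℝ) :
    ∃ C : ℝ, 1 ≤ C ∧ ∀ ξ : Pt K ι, (∀ i, |ξ.trop i| ≤ R) → ‖F ξ‖ ≤ C := by
  obtain ⟨p, hp⟩ := h R 1 one_pos
  obtain ⟨C, hC⟩ := ev_bdd p R
  refine ⟨max 1 C, le_max_left _ _, fun ξ hξ => ?_⟩
  rw [← sub_add_cancel (F ξ) (ξ.ev p)]
  exact (IsUltrametricDist.norm_add_le_max _ _).trans (max_le_max (hp ξ hξ) (hC ξ hξ))

theorem A1_add {ι : Type} {F G : ∀ ξ : Pt K ι, ξ.Ω} (h : Appr F) (k : Appr G) :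
    Appr fun ξ => F ξ + G ξ := by
  intro R ε hε
  obtain ⟨p, hp⟩ := h R ε hε
  obtain ⟨q, hq⟩ := k R ε hε
  refine ⟨p + q, fun ξ hξ => ?_⟩
  rw [map_add, add_sub_add_comm]
  exact (IsUltrametricDist.norm_add_le_max _ _).trans (max_le (hp ξ hξ) (hq ξ hξ))

theorem A1_mul {ι : Type} [Fintype ι] [DecidableEq ι] {F G : ∀ ξ : Pt K ι, ξ.Ω} (h : Appr F)
    (k : Appr G) : Appr fun ξ => F ξ * G ξ := by
  intro R ε hε
  obtain ⟨B, -, hB⟩ := A1_bdd h R
  obtain ⟨C, c1, hC⟩ := A1_bdd k R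
  have d1 : 1 ≤ max B C := le_max_of_le_right c1
  have d0 : 0 < max B C := one_pos.trans_le d1
  have e0 : 0 < min 1 (ε / max B C) := lt_min one_pos (div_pos hε d0)
  obtain ⟨p, hp⟩ := h R _ e0
  obtain ⟨q, hq⟩ := k R _ e0
  refine ⟨p * q, fun ξ hξ => ?_⟩
  have q1 : ‖ξ.ev q‖ ≤ max B C := by
    rw [show ξ.ev q = G ξ + -(G ξ - ξ.ev q) by ring]
    refine (IsUltrametricDist.norm_add_le_max _ _).trans
      (max_le (le_max_of_le_right (hC ξ hξ)) ?_)
    rw [norm_neg]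
    exact ((hq ξ hξ).trans (min_le_left _ _)).trans d1
  have key : ∀ a b : ℝ, 0 ≤ a → a ≤ max B C → b ≤ min 1 (ε / max B C) → a * b ≤ ε := by
    intro a b h0 h1 h2
    calc a * b ≤ a * (ε / max B C) := mul_le_mul_of_nonneg_left (h2.trans (min_le_right _ _)) h0
      _ ≤ max B C * (ε / max B C) := mul_le_mul_of_nonneg_right h1 (div_pos hε d0).le
      _ = ε := mul_div_cancel₀ _ d0.ne'
  rw [map_mul, show F ξ * G ξ - ξ.ev p * ξ.ev q =
    F ξ * (G ξ - ξ.ev q) + ξ.ev q * (F ξ - ξ.ev p) by ring]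
  refine (IsUltrametricDist.norm_add_le_max _ _).trans (max_le ?_ ?_) <;> rw [norm_mul]
  · exact key _ _ (norm_nonneg _) (le_max_of_le_left (hB ξ hξ)) (hq ξ hξ)
  · exact key _ _ (norm_nonneg _) q1 (hp ξ hξ)

theorem appr_aeval {ι : Type} [Fintype ι] [DecidableEq ι] {W : Type} {F : ∀ ξ : Pt K ι, W → ξ.Ω}
    (h : ∀ w, Appr fun ξ => F ξ w) (f : MvPolynomial W K) : Appr fun ξ => aeval (F ξ) f := by
  induction f using MvPolynomial.induction_on with
  | C a =>
    intro R ε hε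
    refine ⟨C a, fun ξ _ => ?_⟩
    simp only [algHom_C, sub_self, norm_zero]
    exact hε.le
  | add p q hp hq =>
    simp only [map_add]
    exact A1_add hp hq
  | mul_X p w hp =>
    simp only [map_mul, aeval_X]
    exact A1_mul hp (h w)

theorem Appr.lim {ι : Type} [Fintype ι] [DecidableEq ι] {F : ∀ ξ : Pt K ι, ξ.Ω} (h : Appr F)
    {ζ : ℕ → Pt K ι} (hb : Bdd ζ) {𝒰 : Ultrafilter ℕ} {ξ : Pt K ι} (hl : Lim ζ 𝒰 ξ) :
    Tendsto (fun n => ‖F (ζ n)‖) 𝒰 (𝓝 ‖F ξ‖) := by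
  obtain ⟨R, hR⟩ := hb
  have hξ : ∀ i, |ξ.trop i| ≤ R := fun i =>
    le_of_tendsto' (tendsto_pi_nhds.1 hl.trop i).abs fun n => hR n i
  refine Metric.tendsto_nhds.2 fun ε hε => ?_
  obtain ⟨p, hp⟩ := h R (ε / 3) (by positivity)
  filter_upwards [Metric.tendsto_nhds.1 (hl p) (ε / 3) (by positivity)] with n hn
  have h1 := abs_le.1 ((abs_norm_sub_norm_le _ _).trans (hp _ (hR n)))
  have h2 := abs_le.1 ((abs_norm_sub_norm_le _ _).trans (hp _ hξ))
  rw [Real.dist_eq, abs_lt] at hn ⊢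
  constructor <;> linarith [h1.1, h1.2, h2.1, h2.2, hn.1, hn.2]

theorem appr_th [Fintype T] [DecidableEq T] (M : Mod X T) (f : MvPolynomial M.S.V K) :
    Appr fun ξ => aeval (th A M ξ) f := by
  exact appr_aeval (F := fun ξ w => th A M ξ w) (fun w => appr_ser (A.ent _) fun i =>
    (((Equiv.ofBijective _ M.bε).symm w).1, i)) f

theorem th_map (M : Mod X T) {ξ ζ : Pt K (T × Fin X.dim)} {ψ : ξ.Ω →ₐ[K] ζ.Ω} (hψ : Iso ψ)
    (h : ∀ q, ψ (ξ.x q) = ζ.x q) (w : M.S.V) : ψ (th A M ξ w) = th A M ζ w := by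
  unfold th
  rw [map_ser (A.ent _) (fun i => ξ.ne _) hψ]
  simp only [h]

theorem th_mem (M : Mod X T) (ξ : Pt K (T × Fin X.dim)) (w : M.S.V) :
    th A M ξ w ∈ cl K (Set.range ξ.x) := by
  exact ser_mem (A.ent _) (fun i => ξ.ne _) fun i => subset_cl _ ⟨_, rfl⟩

end Pool.Agent.Work.MP_ffcd14_ag.Tr
end
end

-- merged part: Pool.Agent.Work.MP_ffcd14_ag.Ry.N2
section
-- merged part: Pool.Agent.Work.MP_ffcd14_ag.Tr.G1
section
/-!
# Points with values in a field extension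

Library: `Cyc/Gen` (`exists_loc`, `IsGen.le`, `IsGen.scale`, `IsGen.map`, `subset_of_van`),
`Cyc/Rk`, `Cyc/Dim` (`IsGen.rk_rat`, `eq_of_sdim_le`), `Cyc/Img`, `Graph`,
`Maps`.  Plan.  Every `v` with nonzero blocks is the generic point of a subvariety `Z`
(`exists_loc`); `on_iff` says that `On A v` means `Z ⊆ A`, and `v ∘ β.ε` is a generic point of
`β.img Z` (`isGen_img`, perhaps already in the library).  This gives `On.pr`, `on_xp`, `on_mod`,
`on_gl`.  `fun_exists`: take a point `x₀` of `Z`, the forms `F` of `φ.reg x₀ j` and a form `g` with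
`g(x₀) ≠ 0` such that `φ = F` on `g ≠ 0` (`eventually_sub_iff_form`, `Hom.loc`); put `w = F(z)`.
If a form `f` vanishes on `gl φ W`, then `g * f(X, F(X))` is a form which vanishes on `W`
(`IsForm.aeval`); `ratio_mem`.  `fun_unique`: the forms `g * minor F s s'` vanish on the graph.
`on_dif`: `On.pr` for the coordinate map given by `Crd.pair`; conversely compare with the point
given by `fun_exists` for the whole of `M.Z`, with `fun_unique` in each factor.
-/

namespace Pool.Agent.Work.MP_ffcd14_ag.Tr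

open MvPolynomial Filter Topology MP_10f4af_ag MP_10f4af_ag.Nu
open scoped ENNReal

set_option linter.unusedSectionVars false

universe u

variable {k : Type u} [Field k] [IsAlgClosed k] {P Q S : Amb} {L L' : Type u} [Field L]
  [Algebra k L] [Field L'] [Algebra k L']

theorem Same.refl (v : P.V → L) : Same v v := by
  exact ⟨fun _ => 1, fun _ => one_ne_zero, fun _ => (one_mul _).symm⟩

theorem Same.symm {v w : P.V → L} (h : Same v w) : Same w v := by
  obtain ⟨μ, h0, h⟩ := h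
  exact ⟨fun i => (μ i)⁻¹, fun i => inv_ne_zero (h0 i), fun s => by
    rw [h, inv_mul_cancel_left₀ (h0 _)]⟩

theorem Same.trans {v w z : P.V → L} (h : Same v w) (h' : Same w z) : Same v z := by
  obtain ⟨μ, h0, h⟩ := h
  obtain ⟨ν, h0', h'⟩ := h'
  exact ⟨fun i => μ i * ν i, fun i => mul_ne_zero (h0 i) (h0' i), fun s => by
    rw [h, h', mul_assoc]⟩

theorem Same.map {v w : P.V → L} (h : Same v w) (ψ : L →ₐ[k] L') :
    Same (fun s => ψ (v s)) fun s => ψ (w s) := by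
  obtain ⟨μ, h0, h⟩ := h
  exact ⟨fun i => ψ (μ i), fun i => (map_ne_zero ψ).2 (h0 i), fun s => by
    simp only [h s, map_mul]⟩

theorem Same.comp {v w : S.V → L} (h : Same v w) (β : Crd k P S) : Same (v ∘ β.ε) (w ∘ β.ε) := by
  obtain ⟨μ, h0, h⟩ := h
  exact ⟨fun i => μ (β.ψ i), fun i => h0 _, fun s => by
    simp only [Function.comp_apply, h (β.ε s), β.fst]⟩

theorem Same.elim {v v' : P.V → L} {w w' : Q.V → L} (h : Same v v') (h' : Same w w') :
    Same (Amb.elim v w) (Amb.elim v' w') := by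
  obtain ⟨μ, h0, h⟩ := h
  obtain ⟨ν, h0', h'⟩ := h'
  refine ⟨Sum.elim μ ν, ?_, ?_⟩
  · rintro (i | i)
    exacts [h0 i, h0' i]
  · rintro ⟨i | i, s⟩
    exacts [h ⟨i, s⟩, h' ⟨i, s⟩]

theorem Same.ratio {v w : P.V → L} (h : Same v w) (i : P.ι) (s t : P.σ i) :
    v ⟨i, s⟩ / v ⟨i, t⟩ = w ⟨i, s⟩ / w ⟨i, t⟩ := by
  obtain ⟨μ, h0, h⟩ := h
  rw [h, h, mul_div_mul_left _ _ (h0 i)]

theorem Same.rat {v w : P.V → L} (h : Same v w) : rat v = rat w := by
  obtain ⟨μ, h0, h⟩ := h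
  rw [funext h, rat_scale w μ h0]

theorem same_norm {v : P.V → L} {ς : ∀ i, P.σ i} (h : ∀ i, v ⟨i, ς i⟩ ≠ 0) :
    Same (fun s => v s / v ⟨s.1, ς s.1⟩) v := by
  exact ⟨fun i => (v ⟨i, ς i⟩)⁻¹, fun i => inv_ne_zero (h i), fun s => div_eq_inv_mul _ _⟩

theorem same_pt {x y : P.Pt k} : Same (rp x) (rp y) ↔ x = y := by
  exact ⟨fun ⟨_, _, h⟩ => pt_eq h, fun h => h ▸ Same.refl _⟩

theorem On.same {A : Set (P.Pt k)} {v w : P.V → L} (h : On A v) (e : Same w v) : On A w := by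
  obtain ⟨μ, h0, e⟩ := e
  rw [funext e]
  exact ⟨fun i => (h.1 i).imp fun s hs => mul_ne_zero (h0 i) hs, fun f a hf hA => by
    rw [hf.aeval_scale, h.2 f a hf hA, mul_zero]⟩

theorem on_map {A : Set (P.Pt k)} {v : P.V → L} (ψ : L →ₐ[k] L') :
    On A (fun s => ψ (v s)) ↔ On A v := by
  simp only [On, map_ne_zero, ← comp_aeval_apply, map_eq_zero]

theorem isGen_map {A : Set (P.Pt k)} {v : P.V → L} (ψ : L →ₐ[k] L') :
    IsGen A (fun s => ψ (v s)) ↔ IsGen A v := by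
  refine ⟨fun h => ⟨fun i => (h.ne i).imp fun s hs => (map_ne_zero ψ).1 hs, fun f a hf => ?_⟩,
    fun h => h.map ψ⟩
  rw [← h.iff f a hf, ← comp_aeval_apply, map_eq_zero ψ]

theorem isGen_same {A : Set (P.Pt k)} {v w : P.V → L} (h : IsGen A v) (e : Same w v) :
    IsGen A w := by
  obtain ⟨μ, h0, e⟩ := e
  rw [funext e]
  exact h.scale μ h0

theorem On.mono {A B : Set (P.Pt k)} {v : P.V → L} (h : On A v) (e : A ⊆ B) : On B v := by
  exact ⟨h.1, fun f a hf hB => h.2 f a hf fun x hx => hB x (e hx)⟩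

theorem on_of_gen {A : Set (P.Pt k)} {v : P.V → L} (h : IsGen A v) : On A v := by
  exact ⟨h.ne, fun f a hf hA => (h.iff f a hf).2 hA⟩

theorem on_iff {Z : Sub k P} {v : P.V → L} (h : IsGen (Z : Set (P.Pt k)) v) {A : Set (P.Pt k)}
    (hA : IsClosed A) : On A v ↔ (Z : Set (P.Pt k)) ⊆ A := by
  exact ⟨fun ho => subset_of_van hA fun f a hf hv => (h.iff f a hf).1 (ho.2 f a hf hv),
    (on_of_gen h).mono⟩

theorem isGen_img (β : Crd k P S) {Z : Sub k S} {v : S.V → L} (h : IsGen (Z : Set (S.Pt k)) v) :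
    IsGen (β.img Z : Set (P.Pt k)) (v ∘ β.ε) := by
  exact β.isGen_img h

theorem on_pt {A : Set (P.Pt k)} (hA : IsClosed A) {x : P.Pt k} : On A (rp x) ↔ x ∈ A := by
  refine ⟨fun h => subset_of_van (B := {x}) hA (fun f a hf hv y hy => ?_) rfl,
    fun h => ⟨fun i => Function.ne_iff.mp (x i).rep_nonzero, fun f a _ hv => hv x h⟩⟩
  obtain rfl : y = x := hy
  exact h.2 f a hf hv

theorem On.exists_pt {A : Set (P.Pt k)} (hA : IsClosed A) {v : P.V → k} (h : On A v) :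
    ∃ x ∈ A, Same (rp x) v := by
  obtain ⟨x, μ, h0, e⟩ := MP_ffcd14_ag.exists_pt v h.1
  have e' : Same (rp x) v := ⟨μ, h0, congrFun e⟩
  exact ⟨x, (on_pt hA).1 (h.same e'), e'⟩

theorem On.pr {A : Set (S.Pt k)} {B : Set (P.Pt k)} {v : S.V → L} (h : On A v) (β : Crd k P S)
    (e : ∀ z ∈ A, β.pr z ∈ B) : On B (v ∘ β.ε) := by
  obtain ⟨Z, hZ⟩ := exists_loc (k := k) v h.1
  refine ⟨(β.isGen_img hZ).ne, fun f a hf hB => ?_⟩
  rw [← aeval_rename]
  exact h.2 _ _ (β.form hf) fun z hz => (β.ev_rename z f).trans (hB _ (e z hz))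

theorem G1_ne (β : Crd k P S) {v : S.V → L} {A : Set (P.Pt k)} (h : On A (v ∘ β.ε)) (i : P.ι) :
    ∃ t, v ⟨β.ψ i, t⟩ ≠ 0 := by
  obtain ⟨s, hs⟩ := h.1 i
  have h1 : (β.ε ⟨i, s⟩).1 = β.ψ i := β.fst ⟨i, s⟩
  rw [← h1]
  exact ⟨(β.ε ⟨i, s⟩).2, hs⟩

theorem G1_pr (β : Crd k P S) {Z : Sub k S} {v : S.V → L} (hZ : IsGen (Z : Set (S.Pt k)) v)
    {A : Set (P.Pt k)} (hA : IsClosed A) (h : On A (v ∘ β.ε)) {x : S.Pt k} (hx : x ∈ Z) :
    β.pr x ∈ A := (on_iff (β.isGen_img hZ) hA).1 h (β.mem_img hx)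

theorem G1_eta (v : (P.sum Q).V → L) :
    Amb.elim (v ∘ (Crd.inl k P Q).ε) (v ∘ (Crd.inr k P Q).ε) = v := by
  funext ⟨i, s⟩
  rcases i with i | i <;> rfl

theorem on_xp {β : Crd k P S} {γ : Crd k Q S} (h : Bij β γ) {V : Sub k P} {W : Sub k Q}
    {v : S.V → L} : On (h.xp V W : Set (S.Pt k)) v ↔
      On (V : Set (P.Pt k)) (v ∘ β.ε) ∧ On (W : Set (Q.Pt k)) (v ∘ γ.ε) := by
  refine ⟨fun ho => ⟨ho.pr β fun z hz => (h.mem_xp.1 hz).1, ho.pr γ fun z hz => (h.mem_xp.1 hz).2⟩,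
    fun ⟨h1, h2⟩ => ?_⟩
  obtain ⟨Z, hZ⟩ := exists_loc (k := k) v fun j => by
    obtain ⟨i | i, rfl⟩ := h.ψ.2 j
    exacts [G1_ne β h1 i, G1_ne γ h2 i]
  exact (on_of_gen hZ).mono fun x hx =>
    h.mem_xp.2 ⟨G1_pr β hZ V.isClosed h1 hx, G1_pr γ hZ W.isClosed h2 hx⟩

theorem on_mod {X : SV k P} {T : Type} (M : Mod X T) {v : M.S.V → L} :
    On M.Z.pts v ↔ ∀ t, On X.pts (v ∘ (M.β t).ε) := by
  refine ⟨fun ho t => ho.pr _ fun z hz => (M.mem z).1 hz t, fun h => ?_⟩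
  obtain ⟨Z, hZ⟩ := exists_loc (k := k) v fun j => by
    obtain ⟨⟨t, i⟩, rfl⟩ := M.bψ.2 j
    exact G1_ne _ (h t) i
  exact (on_of_gen hZ).mono fun x hx => (M.mem x).2 fun t => G1_pr _ hZ X.closed (h t) hx

theorem same_mod {X : SV k P} {T : Type} (M : Mod X T) {v w : M.S.V → L} :
    Same v w ↔ ∀ t, Same (v ∘ (M.β t).ε) (w ∘ (M.β t).ε) := by
  refine ⟨fun h t => h.comp _, fun h => ?_⟩
  choose μ h0 h using h
  let e := Equiv.ofBijective _ M.bψ
  have he : ∀ t i, e.symm ((M.β t).ψ i) = (t, i) := fun t s => e.symm_apply_apply (t, s)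
  refine ⟨fun j => μ (e.symm j).1 (e.symm j).2, fun j => h0 _ _, fun s => ?_⟩
  obtain ⟨⟨t, s⟩, rfl⟩ := M.bε.2 s
  simp only [(M.β t).fst, he]
  exact h t s

theorem On.rk_le {W : Sub k P} {v : P.V → L} (h : On (W : Set (P.Pt k)) v) :
    rk k (rat v) ≤ sdim W := by
  obtain ⟨Z, hZ⟩ := exists_loc (k := k) v h.1
  rw [hZ.rk_rat]
  exact Nat.cast_le.2 (sdim_mono ((on_iff hZ W.isClosed).1 h))

theorem On.isGen {W : Sub k P} {v : P.V → L} (h : On (W : Set (P.Pt k)) v)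
    (hr : (sdim W : ℕ∞) ≤ rk k (rat v)) : IsGen (W : Set (P.Pt k)) v := by
  obtain ⟨Z, hZ⟩ := exists_loc (k := k) v h.1
  rw [hZ.rk_rat] at hr
  rw [← eq_of_sdim_le ((on_iff hZ W.isClosed).1 h) (Nat.cast_le.1 hr)]
  exact hZ

variable {Y : Var k P} {Y' : Var k Q} (φ : Hom Y Y')

theorem on_gl {W : Sub k P} (hW : (W : Set (P.Pt k)) ⊆ Y.pts) {z : P.V → L} {w : Q.V → L} :
    On (gl φ W hW : Set ((P.sum Q).Pt k)) (Amb.elim z w) ↔
      On (W : Set (P.Pt k)) z ∧ On φ.graph.pts (Amb.elim z w) := by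
  refine ⟨fun h => ⟨h.pr (Crd.inl k P Q) fun x hx => (mem_gl.1 hx).1,
    h.mono fun x hx => (mem_gl.1 hx).2⟩, fun ⟨h1, h2⟩ => ?_⟩
  obtain ⟨Z, hZ⟩ := exists_loc (k := k) _ h2.1
  exact (on_of_gen hZ).mono fun x hx => mem_gl.2
    ⟨G1_pr (Crd.inl k P Q) hZ W.isClosed h1 hx, (on_iff hZ φ.graph.closed).1 h2 hx⟩

theorem G1_loc (x : Y.pts) : ∃ (g : MvPolynomial P.V k) (a : P.ι →₀ ℕ) (b : Q.ι → P.ι →₀ ℕ)
    (F : Q.V → MvPolynomial P.V k), IsForm g a ∧ ev x.1 g ≠ 0 ∧ (∀ s, IsForm (F s) (b s.1)) ∧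
      ∀ y : Y.pts, ev y.1 g ≠ 0 → Same (rp (φ.toFun y).1) fun s => ev y.1 (F s) := by
  choose b F hF h using φ.reg x
  obtain ⟨g, a, hg, hx, h⟩ := eventually_sub_iff_form.1 (eventually_all.2 h)
  refine ⟨g, a, b, fun s => F s.1 s.2, hg, hx, fun s => hF s.1 s.2, fun y hy => ?_⟩
  choose μ hμ hμ' using fun j => exists_rep_eq (h y hy j).choose_spec
  exact ⟨μ, hμ, fun s => hμ' s.1 s.2⟩

theorem G1_fun {z : P.V → L} (h : On Y.pts z) :
    ∃ w : Q.V → L, On φ.graph.pts (Amb.elim z w) ∧ rat w ⊆ fld k z ∧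
      ∀ w', On φ.graph.pts (Amb.elim z w') → Same w' w := by
  obtain ⟨Z, hZ⟩ := exists_loc (k := k) z h.1
  have hY := (on_iff hZ Y.closed).1 h
  obtain ⟨x, hx⟩ := Z.isIrreducible.1
  obtain ⟨g, a, b, F, hg, hgx, hF, H⟩ := G1_loc φ ⟨x, hY hx⟩
  have hgZ : ¬ Van (Z : Set (P.Pt k)) g := fun h0 => hgx (h0 x hx)
  have hne : ∀ j, ∃ s, aeval z (F ⟨j, s⟩) ≠ 0 := fun j => by
    obtain ⟨s, hs⟩ := Function.ne_iff.mp ((φ.toFun ⟨x, hY hx⟩).1 j).rep_nonzero
    obtain ⟨μ, -, e⟩ := H ⟨x, hY hx⟩ hgx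
    refine ⟨s, fun h0 => hs ((e ⟨j, s⟩).trans ?_)⟩
    exact mul_eq_zero_of_right _ ((hZ.iff _ _ (hF ⟨j, s⟩)).1 h0 x hx)
  refine ⟨fun s => aeval z (F s), ⟨?_, fun f c hf hv => ?_⟩, ?_, fun w hw => ?_⟩
  · rintro (i | j)
    exacts [h.1 i, hne j]
  · have hF' : ∀ s : (P.sum Q).V, IsForm (Amb.elim X F s : MvPolynomial P.V k)
        (Sum.elim (fun i => Finsupp.single i 1) b s.1) := by
      rintro ⟨i | j, s⟩
      exacts [IsForm.X ⟨i, s⟩, hF ⟨j, s⟩]
    have e : (Amb.elim z fun s => aeval z (F s)) = fun s => aeval z (Amb.elim X F s) := by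
      funext ⟨i, s⟩
      rcases i with i | j
      exacts [(aeval_X z _).symm, rfl]
    rw [e, ← comp_aeval_apply, hZ.iff _ _ (hf.aeval hF')]
    refine van_of_open (hf.aeval hF') hg hgZ fun y hy hgy => ?_
    have h1 : Same (fun s => aeval (rp y) (Amb.elim X F s)) (rp (φ.graphInv.toFun ⟨y, hY hy⟩).1) := by
      have h2 := ((Same.refl (rp y)).elim (H ⟨y, hY hy⟩ hgy)).symm
      convert h2 using 1
      · funext ⟨i, s⟩
        rcases i with i | j
        exacts [aeval_X _ _, rfl]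
      · funext ⟨i, s⟩
        rcases i with i | j <;> rfl
    have h3 := (((on_pt φ.graph.closed).2 (φ.graphInv.toFun ⟨y, hY hy⟩).2).same h1).2 f c hf hv
    rw [← comp_aeval_apply] at h3
    exact h3
  · rintro _ ⟨j, s, t, rfl⟩
    exact ratio_mem z h.1 (hF ⟨j, s⟩) (hF ⟨j, t⟩)
  · have hm : ∀ j s t, aeval z (F ⟨j, s⟩) * w ⟨j, t⟩ = aeval z (F ⟨j, t⟩) * w ⟨j, s⟩ := fun j s t => by
      obtain ⟨c, hc⟩ := minor_form (F := fun s => F ⟨j, s⟩) (a := b j) (fun s => hF ⟨j, s⟩) s t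
      have h1 := hw.2 _ _ (((Blk.inl P Q).form hg).mul hc) (by
        rintro y ⟨hy, e⟩
        rw [ev_mul, Blk.ev_rename, mul_eq_zero, or_iff_not_imp_left]
        intro hgy
        obtain ⟨μ, -, h2⟩ := H ⟨_, hy⟩ hgy
        rw [e] at h2
        rw [ev_minor, show ((Blk.inr P Q).pr y j).rep t = _ from h2 ⟨j, t⟩,
          show ((Blk.inr P Q).pr y j).rep s = _ from h2 ⟨j, s⟩]
        ring)
      simp only [minor, map_mul, map_sub, aeval_rename, aeval_X] at h1
      exact sub_eq_zero.1 ((mul_eq_zero.1 h1).resolve_left fun h0 => hgZ ((hZ.iff _ _ hg).1 h0))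
    choose σ hσ using hne
    have e : ∀ s : Q.V, w s = w ⟨s.1, σ s.1⟩ / aeval z (F ⟨s.1, σ s.1⟩) * aeval z (F s) := fun s => by
      rw [div_mul_eq_mul_div, eq_div_iff (hσ _), mul_comm, hm s.1 (σ s.1) s.2, mul_comm]
    refine ⟨fun j => w ⟨j, σ j⟩ / aeval z (F ⟨j, σ j⟩), fun j h0 => ?_, e⟩
    obtain ⟨s, hs⟩ := hw.1 (Sum.inr j)
    exact hs ((e ⟨j, s⟩).trans (mul_eq_zero_of_left h0 _))

theorem fun_exists {z : P.V → L} (h : On Y.pts z) :
    ∃ w : Q.V → L, On φ.graph.pts (Amb.elim z w) ∧ rat w ⊆ fld k z := by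
  obtain ⟨w, h1, h2, -⟩ := G1_fun φ h
  exact ⟨w, h1, h2⟩

theorem G1_fst {z : P.V → L} {w : Q.V → L} (h : On φ.graph.pts (Amb.elim z w)) : On Y.pts z :=
  h.pr (Crd.inl k P Q) fun _ hx => hx.choose

theorem fun_unique {z : P.V → L} {w w' : Q.V → L} (h : On φ.graph.pts (Amb.elim z w))
    (h' : On φ.graph.pts (Amb.elim z w')) : Same w w' := by
  obtain ⟨w₀, -, -, h3⟩ := G1_fun φ (G1_fst φ h)
  exact (h3 w h).trans (h3 w' h').symm

theorem on_graph {z : P.V → L} {w : Q.V → L} (h : On φ.graph.pts (Amb.elim z w)) :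
    On Y.pts z ∧ On Y'.pts w ∧ fld k (Amb.elim z w) = fld k z := by
  refine ⟨G1_fst φ h, h.pr (Crd.inr k P Q) fun x hx => (φ.graphSnd.toFun ⟨x, hx⟩).2,
    le_antisymm ?_ (fld_le (Crd.inl k P Q) (Amb.elim z w))⟩
  obtain ⟨w₀, -, h2, h3⟩ := G1_fun φ (G1_fst φ h)
  rw [← (h3 w h).rat] at h2
  refine IntermediateField.adjoin_le_iff.2 ?_
  rintro _ ⟨i | j, s, t, rfl⟩
  · exact IntermediateField.subset_adjoin k _ ⟨i, s, t, rfl⟩
  · exact h2 ⟨j, s, t, rfl⟩

theorem img_gl {W : Sub k P} (hW : (W : Set (P.Pt k)) ⊆ Y.pts) :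
    (Crd.inl k P Q).img (gl φ W hW) = W := by
  refine le_antisymm (((Crd.inl k P Q).img_sub W.isClosed).2 fun x hx => (mem_gl.1 hx).1)
    fun x hx => ?_
  exact (Crd.inl k P Q).mem_img (x := (φ.graphInv.toFun ⟨x, hW hx⟩).1)
    (mem_gl.2 ⟨hx, (φ.graphInv.toFun ⟨x, hW hx⟩).2⟩)

theorem G1_fld {W : Sub k P} (hW : (W : Set (P.Pt k)) ⊆ Y.pts) {v : (P.sum Q).V → L}
    (h : IsGen (gl φ W hW : Set ((P.sum Q).Pt k)) v) : fld k v = fld k (v ∘ (Crd.inl k P Q).ε) := by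
  have h1 := (on_of_gen h).mono fun x hx => (mem_gl.1 hx).2
  rw [← G1_eta (k := k) v] at h1
  have h2 := (on_graph φ h1).2.2
  rwa [G1_eta] at h2

theorem sdim_gl {W : Sub k P} (hW : (W : Set (P.Pt k)) ⊆ Y.pts) : sdim (gl φ W hW) = sdim W := by
  obtain ⟨L, _, _, v, hv⟩ := exists_gen' (gl φ W hW)
  have h1 := (Crd.inl k P Q).isGen_img hv
  rw [img_gl] at h1
  have h2 := G1_fld φ hW hv
  refine Nat.cast_injective (R := ℕ∞) ?_
  rw [← hv.rk_rat, ← h1.rk_rat]
  exact le_antisymm (rk_le_of_mem fun y hy => h2.le (IntermediateField.subset_adjoin k _ hy))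
    (rk_mono (Crd.Img_rat _ v))

theorem deg_gl {W : Sub k P} (hW : (W : Set (P.Pt k)) ⊆ Y.pts) :
    MP_10f4af_ag.deg (Crd.inl k P Q).ε (idl (gl φ W hW : Set ((P.sum Q).Pt k))) = 1 := by
  obtain ⟨L, _, _, v, hv⟩ := exists_gen' (gl φ W hW)
  rw [deg_eq _ hv, G1_fld φ hW hv, IntermediateField.relfinrank_self]

theorem on_dif {X : SV k P} {U V : Type} [Finite U] (sub : Hom (X.prod X).toVar X.toVar)
    (M : Mod X V) (p q : U → V) {z : M.S.V → L} {w : (pw P U).V → L} :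
    On (dif sub M p q).graph.pts (Amb.elim z w) ↔ On M.Z.pts z ∧ ∀ u, On sub.graph.pts
      (Amb.elim (Amb.elim (z ∘ (M.β (p u)).ε) (z ∘ (M.β (q u)).ε)) (w ∘ vj u)) := by
  let c : U → Crd k ((P.sum P).sum P) (M.S.sum (pw P U)) := fun u =>
    ((pr2 M (p u) (q u)).toCrd.comp (Crd.inl k _ _)).pair
      (((Mod.pow X U).β u).comp (Crd.inr k _ _))
  have e : ∀ u, Amb.elim (Amb.elim (z ∘ (M.β (p u)).ε) (z ∘ (M.β (q u)).ε)) (w ∘ vj u) =
      Amb.elim z w ∘ (c u).ε := fun u => by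
    funext ⟨i, s⟩
    rcases i with (i | i) | i <;> rfl
  simp only [e]
  refine ⟨fun h => ⟨G1_fst _ h, fun u => h.pr (c u) ?_⟩, fun ⟨h1, h2⟩ => ?_⟩
  · rintro y ⟨hy, h1⟩
    exact ⟨(pr2 M (p u) (q u)).maps _ hy, funext fun i => congrFun h1 (u, i)⟩
  obtain ⟨Z, hZ⟩ := exists_loc (k := k) (Amb.elim z w) (by
    rintro (i | ⟨u, i⟩)
    exacts [h1.1 i, (h2 u).1 (Sum.inr i)])
  refine (on_of_gen hZ).mono fun y hy => ⟨G1_pr (Crd.inl k _ _) hZ M.Z.closed h1 hy, ?_⟩
  funext ⟨u, i⟩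
  exact congrFun (G1_pr (c u) hZ sub.graph.closed (h2 u) hy).choose_spec i

end Pool.Agent.Work.MP_ffcd14_ag.Tr
end

-- merged part: Pool.Agent.Work.MP_ffcd14_ag.Tr.G2
section
/-!
# Classes on diagonals

Library: `MP_10f4af_ag/T0`, `T1`, `T2` (`Mod.pull`, `Mod.push`, the structure `CT X`
with `pl_pl`, `proj_l`, `bc`; `Mod.dg`, `mul_dg`, `push_dg`), `Chw/C0`, `Chw/A`.
Plan.  `Mod.push` and `Mod.pull` are `psP` and `plP` for `Mod.pd_co` (by `rfl` or `CR.ext`), and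
`val_plP` does not depend on the complementary factor.  `mul_dg'`: `dg ρ` only depends on the
kernel of `ρ`, so replace `T'` by the range of `ρ`; extend `g` and `g'` to sections `s`, `s'` of `ρ`,
write `g = f.trans s`, `g' = f.trans s'` and use `mul_dg` in the model `Mod.pow X (range ρ)`.
`pull_xp`: on `MU.prod MU'`, `pull inl (cyC W) * pull inr (cyC W') = cyC (xp W W')`; by `plP_cyC`
both factors are classes of products; see `Pd.pl_mul_pl`-like lemmas, `Bij.ex_cS`, `Mod.dg_mul`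
and its proof in `T2`.  `tau_univ`: take `s = inl`, `e = inr`, `ρ = Sum.elim id r`,
`proj_l`, `push_dg`, `tau_push`.
-/

namespace Pool.Agent.Work.MP_ffcd14_ag.Tr

open MvPolynomial Filter Topology MP_10f4af_ag MP_10f4af_ag.Nu
open scoped ENNReal

set_option linter.unusedSectionVars false

universe u

variable {k : Type u} [Field k] [IsAlgClosed k] {P : Amb} {X : SV k P} {T T' T'' U U' : Type}

theorem tau_push (M : Mod X T) (M' : Mod X T') (f : T ↪ T') (z : CR M'.Z) :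
    tauC M.Z (M.push M' f z) = tauC M'.Z z := by
  exact tauC_psP (M.pd_co M' f) z

theorem pull_pull (M : Mod X T) (M' : Mod X T') (M'' : Mod X T'') (f : T ↪ T') (g : T' ↪ T'')
    (x : CR M.Z) : M'.pull M'' g (M.pull M' f x) = M.pull M'' (f.trans g) x := by
  exact (CT X).pl_pl M M' M'' f g x

theorem pull_refl (M : Mod X T) (x : CR M.Z) : M.pull M (Function.Embedding.refl T) x = x := by
  exact (CT X).pl_id M x

theorem tau_proj (M : Mod X T) (M' : Mod X T') (f : T ↪ T') (x : CR M.Z) (z : CR M'.Z) :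
    tauC M'.Z (M.pull M' f x * z) = tauC M.Z (x * M.push M' f z) := by
  rw [← tau_push M M' f]
  exact congrArg (tauC M.Z) ((CT X).proj_l M M' f x z)

theorem G2_dg_congr (M : Mod X T) {r : T → U} {r' : T → U'}
    (h : ∀ a b, r a = r b ↔ r' a = r' b) : M.dg r = M.dg r' := by
  refine CR.ext (congrArg (MP_10f4af_ag.cyc _)
    (Set.ext fun z => and_congr_right fun _ => ?_))
  simp only [h]

theorem G2_sec {ρ : T'' → T'} (hs : Function.Surjective ρ) (f : T ↪ T') {g : T → T''}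
    (e : ∀ t, ρ (g t) = f t) : ∃ s : T' ↪ T'', (∀ r, ρ (s r) = r) ∧ ∀ t, s (f t) = g t := by
  have h1 : ∀ r, ρ (Function.extend f g (Function.surjInv hs) r) = r := by
    intro r
    by_cases hr : ∃ t, f t = r
    · obtain ⟨t, rfl⟩ := hr
      rw [f.injective.extend_apply, e]
    · rw [Function.extend_apply' _ _ _ hr, Function.surjInv_eq hs]
  exact ⟨⟨_, Function.LeftInverse.injective h1⟩, h1, fun t => f.injective.extend_apply _ _ t⟩



theorem mul_dg' (M : Mod X T) (M'' : Mod X T'') (g g' : T ↪ T'') (ρ : T'' → T')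
    (h : Function.Injective (ρ ∘ g)) (e : ∀ t, ρ (g' t) = ρ (g t)) (x : CR M.Z) :
    M.pull M'' g x * M''.dg ρ = M.pull M'' g' x * M''.dg ρ := by
  have := M''.fin
  have hs : Function.Surjective (Set.rangeFactorization ρ) := Set.rangeFactorization_surjective
  let f : T ↪ Set.range ρ := ⟨fun t => Set.rangeFactorization ρ (g t),
    fun a b hab => h (congrArg Subtype.val hab)⟩
  obtain ⟨s, h1, h2⟩ := G2_sec hs f (g := g) fun _ => rfl
  obtain ⟨s', h1', h2'⟩ := G2_sec hs f (g := g') fun t => Subtype.ext (e t)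
  rw [G2_dg_congr M'' (r := ρ) (r' := Set.rangeFactorization ρ) fun a b =>
      ⟨fun hab => Subtype.ext hab, fun hab => congrArg Subtype.val hab⟩,
    show g = f.trans s from Function.Embedding.ext fun t => (h2 t).symm,
    show g' = f.trans s' from Function.Embedding.ext fun t => (h2' t).symm,
    ← pull_pull M (Mod.pow X (Set.range ρ)) M'' f s, ← pull_pull M (Mod.pow X (Set.range ρ)) M'' f s']
  exact Mod.mul_dg _ M'' s s' h1 h1' _

theorem pull_xp (M : Mod X U) (M' : Mod X U') {W : Sub k M.S} {W' : Sub k M'.S}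
    (hW : (W : Set (M.S.Pt k)) ⊆ M.Z.pts) (hW' : (W' : Set (M'.S.Pt k)) ⊆ M'.Z.pts) :
    M.pull (M.prod M') Function.Embedding.inl (cyC M.Z W) *
      M'.pull (M.prod M') Function.Embedding.inr (cyC M'.Z W') =
      cyC (M.prod M').Z ((bij_sum (k := k) (P := M.S) (Q := M'.S)).xp W W') := by
  refine CR.ext ?_
  have h1 := (pd_prod M.Z M'.Z).mul_pl_pl hW hW'
  refine Eq.trans ?_ (val_cyC ((pd_prod M.Z M'.Z).xp_sub hW hW')).symm
  rw [CR.val_mul, Mod.val_pull, Mod.val_pull, val_cyC hW, val_cyC hW']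
  have e1 : (M.crd (M.prod M') (Function.Embedding.inl : U ↪ U ⊕ U')).ε = (Crd.inl k M.S M'.S).ε :=
    M.crd_inl M'
  have e2 : (M'.crd (M.prod M') (Function.Embedding.inr : U' ↪ U ⊕ U')).ε =
      (Crd.inr k M.S M'.S).ε := M.crd_inr M'
  rw [e1, e2]
  exact h1

theorem xp_sub (M : Mod X U) (M' : Mod X U') {W : Sub k M.S} {W' : Sub k M'.S}
    (hW : (W : Set (M.S.Pt k)) ⊆ M.Z.pts) (hW' : (W' : Set (M'.S.Pt k)) ⊆ M'.Z.pts) :
    ((bij_sum (k := k) (P := M.S) (Q := M'.S)).xp W W' : Set ((M.S.sum M'.S).Pt k)) ⊆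
      (M.prod M').Z.pts := by
  exact (pd_prod M.Z M'.Z).xp_sub hW hW'

theorem univ_base (M : Mod X T) (W : Sub k M.S) : Univ M (cyC M.Z W) M id W := by
  exact fun _ _ M'' s e ρ hi he => mul_dg' M M'' s e ρ hi he _

theorem Univ.mul {M : Mod X T} {c c' : CR M.Z} {MU : Mod X U} {MU' : Mod X U'} {r : U → T}
    {r' : U' → T} {W : Sub k MU.S} {W' : Sub k MU'.S} (h : Univ M c MU r W)
    (h' : Univ M c' MU' r' W') (hW : (W : Set (MU.S.Pt k)) ⊆ MU.Z.pts)
    (hW' : (W' : Set (MU'.S.Pt k)) ⊆ MU'.Z.pts) :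
    Univ M (c * c') (MU.prod MU') (Sum.elim r r')
      ((bij_sum (k := k) (P := MU.S) (Q := MU'.S)).xp W W') := by
  intro T' T'' M'' s e ρ hi he
  have h1 := h T' T'' M'' s (Function.Embedding.inl.trans e) ρ hi fun u => he (Sum.inl u)
  have h2 := h' T' T'' M'' s (Function.Embedding.inr.trans e) ρ hi fun u => he (Sum.inr u)
  rw [← pull_xp MU MU' hW hW', map_mul, map_mul, pull_pull, pull_pull, mul_assoc, h2,
    mul_left_comm, h1, mul_left_comm, mul_assoc]

theorem Univ.pull {M : Mod X T} {c : CR M.Z} {MU : Mod X U} {r : U → T} {W : Sub k MU.S}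
    (h : Univ M c MU r W) (M' : Mod X T') (f : T ↪ T') :
    Univ M' (M.pull M' f c) MU (f ∘ r) W := by
  intro T₁ T'' M'' s e ρ hi he
  rw [pull_pull]
  exact h T₁ T'' M'' (f.trans s) e ρ (hi.comp f.injective) he

theorem tau_univ {M : Mod X T} {c : CR M.Z} {MU : Mod X U} {r : U → T} {W : Sub k MU.S}
    (h : Univ M c MU r W) (hW : (W : Set (MU.S.Pt k)) ⊆ MU.Z.pts) :
    tauC M.Z c = tauC (M.prod MU).Z
      (cyC (M.prod MU).Z ((bij_sum (k := k) (P := M.S) (Q := MU.S)).xp M.Z.tp W) *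
        (M.prod MU).dg (Sum.elim id r)) := by
  have h1 := h T (T ⊕ U) (M.prod MU) Function.Embedding.inl Function.Embedding.inr
    (Sum.elim id r) Function.injective_id fun _ => rfl
  rw [← pull_xp M MU (W := M.Z.tp) subset_rfl hW, cyC_top, map_one, one_mul, ← h1, tau_proj,
    Mod.push_dg M (M.prod MU) Function.Embedding.inl (r := Sum.elim id r) fun _ => rfl, mul_one]

/-- The base change formula for the correspondence on `X ^ 3`. -/
theorem tau_chain (M : Mod X T) (t : T) (z : CR (M3 X).Z) (c : CR M.Z)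
    (f : (Unit ⊕ Unit) ⊕ Unit ↪ (T ⊕ Unit) ⊕ Unit) (h0 : f (.inl (.inl ())) = .inl (.inr ()))
    (h1 : f (.inl (.inr ())) = .inl (.inl t)) (h2 : f (.inr ()) = .inr ()) :
    tauC M.Z ((Mod.one X).pull M ⟨fun _ => t, fun _ _ _ => rfl⟩
        ((Mod.one X).push (M3 X) ⟨fun _ => .inl (.inr ()), fun _ _ _ => rfl⟩ z) * c) =
      tauC ((M.prod (Mod.one X)).prod (Mod.one X)).Z ((M3 X).pull _ f z *
        M.pull _ (Function.Embedding.inl.trans Function.Embedding.inl) c) := by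
  have hb := (CT X).bc (Mod.one X) (M3 X) M ((M.prod (Mod.one X)).prod (Mod.one X))
    ⟨fun _ => .inl (.inr ()), fun _ _ _ => rfl⟩ ⟨fun _ => t, fun _ _ _ => rfl⟩ f
    (Function.Embedding.inl.trans Function.Embedding.inl) (fun _ => h1) (by
      rintro ((a | ⟨⟩) | ⟨⟩)
      · exact Or.inr ⟨a, rfl⟩
      · exact Or.inl ⟨_, h0⟩
      · exact Or.inl ⟨_, h2⟩) (by
      rintro ((⟨⟩ | ⟨⟩) | ⟨⟩) b e
      · cases h0.symm.trans e
      · cases h1.symm.trans e
        exact ⟨(), rfl⟩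
      · cases h2.symm.trans e) z
  rw [mul_comm ((M3 X).pull _ f z), tau_proj M, mul_comm c]
  exact congrArg (fun y => tauC M.Z (y * c)) hb

end Pool.Agent.Work.MP_ffcd14_ag.Tr
end

-- merged part: Pool.Agent.Work.MP_ffcd14_ag.Tr.G3
section
/-!
# The intersection number with a diagonal is the degree of a difference map

Plan.  Let `Φ = dif sub M'' inr (inl ∘ r)`, `M'' = M.prod MU`, and `Ω` the graph of `Φ`, an `SV`
(irreducible: it is `gl Φ M''.Z.tp`), with the projections `π₁ : Prj Ω M''.Z` (`Crd.inl`) and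
`π₂ : Prj Ω (X.pow U)` (`Crd.inr`).  Let `Δ` be the diagonal (`exists_dgs`; `M''.dg ρ = cyC Δ`,
`img_eq`, of dimension `card T * X.dim`: `sdim_img_of_inj`, `I2_sec`, `Mod.dim`), and `o` the point
of `X.pow U` with all components `o`.  By `Grp.eq`, `π₂⁻¹ o = gl Φ Δ`.  `meetC` (for `V = Ω.tp`,
`cyC_top`) and `eq_of_sdim_le` give `plC π₁ (cyC Δ) = q₁ • cyC (gl Φ Δ)` and
`plC π₂ (cyC {o}) = q₂ • cyC (gl Φ Δ)`.  By `pushC`, `deg_gl`, `img_gl`, for every `W`:
`tauC (cyC W * cyC Δ) = q₁ t W` and `q₂ t W = dgH Φ W`, where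
`t W = tauC Ω (cyC (gl Φ W) * cyC (gl Φ Δ))` (if `dgH ≠ 0` then `π₂.img (gl Φ W)` is everything by
`deg_ne_zero`; `tauC_pt`).  Test with `W₀ = {o} × MU.Z`: the left side is `1` (`pull_xp`,
`tau_proj`, `push_dg`, `tauC_pt`), and `dgH Φ W₀ = 1` (`Grp.zero`, `deg_congr`, `deg_sec`,
`deg_comp`).  Hence `q₁ = q₂`.
-/

namespace Pool.Agent.Work.MP_ffcd14_ag.Tr

open MvPolynomial Filter Topology MP_10f4af_ag MP_10f4af_ag.Nu
open scoped ENNReal

set_option linter.unusedSectionVars false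

universe u

variable {k : Type u} [Field k] [IsAlgClosed k] {P : Amb} {X : SV k P} {T U : Type}

theorem G3_pull {P' : Amb} {Ω : SV k P'} (π : Prj Ω.toVar X.toVar) {A : Sub k P}
    (hA : (A : Set (P.Pt k)) ⊆ X.pts) {G : Sub k P'} (hG : ∀ z ∈ Ω.pts, π.pr z ∈ A → z ∈ G)
    (hd : sdim G + X.dim = Ω.dim + sdim A) : ∃ q : ℚ, plC π (cyC X A) = q • cyC Ω G := by
  have key : ∀ V ≤ Ω.tp, π.img V ≤ A → V ≤ G := fun V h1 h2 z hz =>
    hG z (h1 hz) (h2 (π.toCrd.mem_img hz))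
  have hm := meetC π (V := Ω.tp) subset_rfl hA fun V h1 h2 => by
    have := sdim_mono (key V h1 h2)
    rw [Ω.sdim_tp]
    omega
  rw [cyC_top, one_mul, Ω.sdim_tp] at hm
  obtain ⟨q, hq⟩ := Submodule.mem_span_singleton.1 (Submodule.span_mono (t := {cyC Ω G}) (by
    rintro _ ⟨V, -, ⟨h1, h2, h3⟩, rfl⟩
    rw [eq_of_sdim_le (key V h1 h2) (by omega)]
    rfl) hm)
  exact ⟨q, hq.symm⟩

theorem G3_gen {Q : Amb} {Y : SV k Q} (Φ : Hom X.toVar Y.toVar) {D : Sub k P}
    (hD : (D : Set (P.Pt k)) ⊆ X.pts) {y : Q.Pt k} (hy : y ∈ Y.pts)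
    (h : ∀ z, (Φ.toFun z).1 = y → z.1 ∈ D) (hd : sdim D + Y.dim = X.dim) :
    ∃ (q₁ q₂ : ℚ) (t : ∀ W : Sub k P, (W : Set (P.Pt k)) ⊆ X.pts → ℚ), ∀ W hW, sdim W = Y.dim →
      tauC X (cyC X W * cyC X D) = q₁ * t W hW ∧ (dgH Φ W hW : ℚ) = q₂ * t W hW := by
  have e : (gl Φ X.tp subset_rfl : Set ((P.sum Q).Pt k)) = Φ.graph.pts :=
    Set.ext fun z => mem_gl.trans ⟨fun h => h.2, fun h => ⟨h.choose, h⟩⟩
  let Ω : SV k (P.sum Q) := ⟨Φ.graph, e ▸ (gl Φ X.tp subset_rfl).isIrreducible⟩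
  let π₁ : Prj Ω.toVar X.toVar := ⟨Crd.inl k P Q, fun z hz => hz.choose⟩
  let π₂ : Prj Ω.toVar Y.toVar := ⟨Crd.inr k P Q, fun z hz => (Φ.graphSnd.toFun ⟨z, hz⟩).2⟩
  have hΩ : Ω.dim = X.dim := rfl
  have hy' : (({y} : Sub k Q) : Set (Q.Pt k)) ⊆ Y.pts := Set.singleton_subset_iff.2 hy
  obtain ⟨q₁, h₁⟩ := G3_pull π₁ hD (G := gl Φ D hD) (fun z h1 h2 => mem_gl.2 ⟨h2, h1⟩)
    (by rw [sdim_gl, hΩ, add_comm])
  obtain ⟨q₂, h₂⟩ := G3_pull π₂ hy' (G := gl Φ D hD)
    (fun z h1 h2 => mem_gl.2 ⟨h ⟨_, h1.choose⟩ (h1.choose_spec.trans h2), h1⟩)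
    (by rw [sdim_gl, hΩ, sdim_pt, hd, add_zero])
  refine ⟨q₁, q₂, fun W hW => tauC Ω (cyC Ω (gl Φ W hW) * cyC Ω (gl Φ D hD)),
    fun W hW hd' => ?_⟩
  have hV : (gl Φ W hW : Set ((P.sum Q).Pt k)) ⊆ Ω.pts := fun z hz => (mem_gl.1 hz).2
  have a₁ := pushC π₁ hV (cyC X D)
  have a₂ := pushC π₂ hV (cyC Y {y})
  rw [h₁, mul_smul_comm, map_smul, smul_eq_mul] at a₁
  rw [h₂, mul_smul_comm, map_smul, smul_eq_mul] at a₂
  constructor
  · rw [a₁, show π₁.toCrd = Crd.inl k P Q from rfl, deg_gl, img_gl, Nat.cast_one, one_mul]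
  · rw [a₂, show π₂.toCrd = Crd.inr k P Q from rfl, ← dgH]
    by_cases h0 : dgH Φ W hW = 0
    · rw [h0, Nat.cast_zero, zero_mul]
    · have h1 := (deg_ne_zero _ _).1 h0
      have h2 : (Crd.inr k P Q).img (gl Φ W hW) ≤ Y.tp :=
        ((Crd.inr k P Q).img_sub Y.closed).2 fun z hz => π₂.maps z (hV hz)
      rw [eq_of_sdim_le h2 (by rw [h1, sdim_gl, hd', Y.sdim_tp]), cyC_top, one_mul,
        tauC_pt hy' (sdim_pt y), mul_one]

theorem G3_deg {Q : Amb} {Y : Var k P} {Y' : Var k Q} (Φ : Hom Y Y') {W : Sub k P}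
    (hW : (W : Set (P.Pt k)) ⊆ Y.pts) (β : Crd k Q P)
    (h : ∀ z : Y.pts, z.1 ∈ W → (Φ.toFun z).1 = β.pr z.1) :
    dgH Φ W hW = deg β.ε (idl (W : Set (P.Pt k))) := by
  rw [dgH, deg_congr _ (β.comp (Crd.inl k P Q)) fun z hz => ?_, deg_comp, deg_gl, img_gl, mul_one]
  obtain ⟨z1, z2, z3⟩ := mem_gl.1 hz
  exact z3.symm.trans (h _ z1)

theorem tau_dif {sub : Hom (X.prod X).toVar X.toVar} {o : P.Pt k} (h : Grp sub o) (M : Mod X T)
    (MU : Mod X U) [Finite U] (r : U → T) (W : Sub k (M.prod MU).S)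
    (hW : (W : Set ((M.prod MU).S.Pt k)) ⊆ (M.prod MU).Z.pts) (hd : sdim W = MU.Z.dim) :
    tauC (M.prod MU).Z (cyC (M.prod MU).Z W * (M.prod MU).dg (Sum.elim id r)) =
      dgH (dif sub (M.prod MU) Sum.inr fun u => Sum.inl (r u)) W hW := by
  have hr : Function.Surjective (Sum.elim id r : T ⊕ U → T) := fun t => ⟨Sum.inl t, rfl⟩
  have eD := M.img_eq (M.prod MU) hr
  have dD : sdim (((M.prod MU).crd M (Sum.elim id r)).img M.Z.tp) = M.Z.dim := by
    rw [sdim_img_of_inj _ fun x _ y _ e => M.pt_ext fun t => ?_, SV.sdim_tp]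
    simpa only [Mod.crd_pr, Sum.elim_inl, id] using
      congrArg (((M.prod MU).β (Sum.inl t)).pr) e
  generalize ((M.prod MU).crd M (Sum.elim id r)).img M.Z.tp = D at eD dD
  have hD : (D : Set ((M.prod MU).S.Pt k)) ⊆ (M.prod MU).Z.pts := eD ▸ fun _ h => h.1
  have eg : (M.prod MU).dg (Sum.elim id r) = cyC (M.prod MU).Z D :=
    CR.ext (by rw [val_cyC hD, cS, eD]; rfl)
  obtain ⟨y, hy⟩ := (Mod.pow X U).exists_pt' fun _ => o
  obtain ⟨x, hx⟩ := M.exists_pt' fun _ => o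
  have hx' : (({x} : Sub k M.S) : Set (M.S.Pt k)) ⊆ M.Z.pts :=
    Set.singleton_subset_iff.2 ((M.mem x).2 fun t => (hx t).symm ▸ h.mem)
  have dU : MU.Z.dim = (X.pow U).dim := MU.dim.trans (Mod.pow X U).dim.symm
  obtain ⟨q₁, q₂, t, ht⟩ := G3_gen (dif sub (M.prod MU) Sum.inr fun u => Sum.inl (r u)) hD (y := y)
    (((Mod.pow X U).mem y).2 fun u => (hy u).symm ▸ h.mem) (fun z hz => by
      have k1 (u : U) : ((M.prod MU).β (Sum.inr u)).pr z.1 =
          ((M.prod MU).β (Sum.inl (r u))).pr z.1 :=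
        (h.eq ((pr2 (M.prod MU) (Sum.inr u) (Sum.inl (r u))).hom.toFun z)).1
          ((congrArg ((Mod.pow X U).β u).pr hz).trans (hy u))
      have k2 (a : T ⊕ U) : ((M.prod MU).β a).pr z.1 =
          ((M.prod MU).β (Sum.inl (Sum.elim id r a))).pr z.1 := by
        rcases a with a | a
        · rfl
        · exact k1 a
      rw [← SetLike.mem_coe, eD]
      exact ⟨z.2, fun a b e => by rw [k2 a, k2 b, e]⟩) (by rw [dD, ← dU, Mod.prod_dim'])
  obtain ⟨W₀, hW₀, hx₀, d₀, c₀⟩ : ∃ W₀ : Sub k (M.prod MU).S,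
      (W₀ : Set ((M.prod MU).S.Pt k)) ⊆ (M.prod MU).Z.pts ∧
      (∀ z ∈ W₀, ∀ a, ((M.prod MU).β (Sum.inl a)).pr z = o) ∧ sdim W₀ = MU.Z.dim ∧
      M.pull (M.prod MU) Function.Embedding.inl (cyC M.Z {x}) = cyC (M.prod MU).Z W₀ := by
    refine ⟨(bij_sum (k := k) (P := M.S) (Q := MU.S)).xp {x} MU.Z.tp,
      xp_sub M MU hx' subset_rfl, fun z hz a =>
        (congrArg (M.β a).pr ((Bij.mem_xp _).1 hz).1).trans (hx a),
      (Bij.sdim_xp _ _ _).trans (by rw [sdim_pt, SV.sdim_tp, zero_add]), ?_⟩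
    rw [← pull_xp M MU hx' subset_rfl, cyC_top, map_one, mul_one]
  obtain ⟨a1, a2⟩ := ht _ hW₀ (d₀.trans dU)
  obtain ⟨b1, b2⟩ := ht W hW (hd.trans dU)
  rw [← c₀, tau_proj, ← eg, M.push_dg _ _ fun _ => rfl, mul_one, tauC_pt hx' (sdim_pt x)] at a1
  have hb : Function.Bijective (Sum.elim Sum.inr Sum.inl : U ⊕ T → T ⊕ U) :=
    (Equiv.sumComm U T).bijective
  have a3 : dgH (dif sub (M.prod MU) Sum.inr fun u => Sum.inl (r u)) W₀ hW₀ = 1 :=
    (G3_deg (dif sub (M.prod MU) Sum.inr fun u => Sum.inl (r u)) hW₀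
      ((Mod.pow X U).crd (M.prod MU) Sum.inr) fun z hz => (Mod.pow X U).pt_ext fun u =>
        (h.zero ((pr2 (M.prod MU) (Sum.inr u) (Sum.inl (r u))).hom.toFun z)
          (hx₀ _ hz (r u))).trans ((Mod.pow X U).crd_pr (M.prod MU) Sum.inr u _).symm).trans
      (deg_pt ((Mod.pow X U).pd M (M.prod MU) hb).bij (y := x) fun z hz =>
        M.pt_ext fun a => by rw [Mod.crd_pr, hx₀ z hz, hx])
  have e : q₁ * (q₂ * t _ hW₀) = q₂ * (q₁ * t _ hW₀) := by ring
  rw [← a1, ← a2, a3, Nat.cast_one, mul_one, mul_one] at e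
  rw [eg, b1, b2, e]

end Pool.Agent.Work.MP_ffcd14_ag.Tr
end

-- merged part: Pool.Agent.Work.MP_ffcd14_ag.Tr.L6
section
/-!
# The Pontryagin product with `om ^ (g - 1)` is a multiple of `Lam`

The variables are indexed by `T'' × G`, where `T''` is the disjoint union of `T` (through `s`) and
of the two points `a`, `b`.

Plan.  `om^(g-1) = (g-1)! ∑_k ∏_(i ≠ k) sq δ_i` (`om_pow_pred`; `sq_mul_sq`,
`Finset.sum_pow`-like expansion or induction).  Apply `int_mp` to the unipotent map `σ₁` which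
sends `δ(a,i)` to `δ(a,i) + δ(s t,i) + δ(b,i)` and fixes the other basis vectors (determinant one:
`σ₁ = 1 + ν` with `ν ^ 2 = 0`, or a triangular matrix): `gam a (s t) b` becomes `∏ sq δ(a,i)`, and
`up (a, ·) u` becomes `mp (α + β) u`, with `α = pb (a, ·)` and `β = pb (s t, ·) + pb (b, ·)`.
`mp (α + β) u * ∏ sq δ(a,i) = mp β u * ∏ sq δ(a,i)` (induction on `u` in `Ex`, since
`ι (α v) * ∏ sq δ(a,i) = 0`).  Similarly (`taylor`) for `p_k = ∏_(i ≠ k) sq δ(b,i)`, and `z ∈ Ex G`,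
with `φ = map (pb (s t, ·))`, `ψ = map β`, `e = ι (δ(b,k), 0)`, `f = ι (0, δ(b,k))`:
`ψ z * p_k = (φ z + e * φ (de k z) + f * φ (df k z) + e * f * φ (df k (de k z))) * p_k`
(left induction on `z`).  The first three terms do not contribute to the integral: use `int_mapV`
with the map which kills one basis vector (determinant zero) and fixes the term.  The last one is
computed by `int_up_mul` and `int_std` (after `int_up_equiv`).
-/

namespace Pool.Agent.Work.MP_ffcd14_ag.Tr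

variable {G T T'' : Type} [Fintype G] [DecidableEq G] [Fintype T] [DecidableEq T] [Fintype T'']
  [DecidableEq T'']

theorem l6_pow {R α : Type} [CommRing R] [DecidableEq α] (x : α → R) (hx : ∀ i, x i * x i = 0)
    (s : Finset α) : (∑ i ∈ s, x i) ^ (s.card + 1) = 0 ∧
      (∑ i ∈ s, x i) ^ s.card = (s.card.factorial : R) * ∏ i ∈ s, x i ∧
      (s.card : R) * (∑ i ∈ s, x i) ^ (s.card - 1) =
        (s.card.factorial : R) * ∑ k ∈ s, ∏ i ∈ s.erase k, x i := by
  have key (u y : R) (hu : u * u = 0) (m : ℕ) :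
      (u + y) ^ m = y ^ m + u * ((m : R) * y ^ (m - 1)) := by
    induction m with
    | zero => simp
    | succ m ih =>
      rw [pow_succ, ih, Nat.add_sub_cancel]
      rcases m with _ | m
      · simp [add_comm]
      · rw [Nat.add_sub_cancel]
        push_cast
        linear_combination ((m : R) + 1) * y ^ m * hu
  induction s using Finset.induction_on with
  | empty => simp
  | insert a s ha ih =>
    obtain ⟨h1, h2, h3⟩ := ih
    have h4 : ∑ k ∈ s, ∏ i ∈ (insert a s).erase k, x i = x a * ∑ k ∈ s, ∏ i ∈ s.erase k, x i := by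
      rw [Finset.mul_sum]
      refine Finset.sum_congr rfl fun k hk => ?_
      rw [Finset.erase_insert_of_ne (fun h : a = k => ha (h ▸ hk)),
        Finset.prod_insert fun h => ha (Finset.mem_of_mem_erase h)]
    rw [Finset.sum_insert ha, Finset.card_insert_of_notMem ha, Finset.prod_insert ha,
      Finset.sum_insert ha, Finset.erase_insert ha, h4, Nat.add_sub_cancel, key _ _ (hx a),
      key _ _ (hx a), key _ _ (hx a), Nat.add_sub_cancel, Nat.add_sub_cancel, pow_succ _ (_ + 1),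
      h1, h2, h3, Nat.factorial_succ]
    push_cast
    refine ⟨by ring, by ring, by ring⟩

theorem om_pow_pred (hG : 0 < Fintype.card G) : om G ^ (Fintype.card G - 1) =
    ((Fintype.card G - 1).factorial : ℝ) • ∑ k, ∏ i ∈ Finset.univ.erase k, sq (Pi.single i 1) := by
  have h := (l6_pow (fun i : G => sq (Pi.single i (1 : ℝ))) (fun i => sq_mul_sq _) Finset.univ).2.2
  rw [Finset.card_univ, ← Nat.mul_factorial_pred hG.ne', ← nsmul_eq_mul, ← nsmul_eq_mul,
    ← Nat.cast_smul_eq_nsmul ℝ, ← Nat.cast_smul_eq_nsmul ℝ, Nat.cast_mul, mul_smul] at h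
  exact smul_right_injective _ (Nat.cast_ne_zero.2 hG.ne') h

section Aux

variable {ι ι' : Type}

theorem l6_mul_sum {κ : Type} (s : Finset κ) (f : κ → Ev ι) (a : Ev ι) :
    a * ∑ i ∈ s, f i = ∑ i ∈ s, a * f i := Finset.mul_sum _ _ _

theorem l6_sum_mul {κ : Type} (s : Finset κ) (f : κ → Ev ι) (a : Ev ι) :
    (∑ i ∈ s, f i) * a = ∑ i ∈ s, f i * a := Finset.sum_mul _ _ _

theorem l6_kill (τ τ' : VV ι →ₗ[ℝ] VV ι') (P : Ev ι')
    (h : ∀ v, ExteriorAlgebra.ι ℝ (τ v - τ' v) * Ev.val P = 0) (x : Ev ι) :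
    mapV τ x * P = mapV τ' x * P := by
  refine Ev.ext ?_
  rw [map_mul, map_mul, val_mapV, val_mapV]
  generalize Ev.val x = z
  induction z using CliffordAlgebra.left_induction with
  | algebraMap r => rw [AlgHom.commutes, AlgHom.commutes]
  | add x y hx hy => rw [map_add, map_add, add_mul, add_mul, hx, hy]
  | ι_mul y m hy =>
    have h1 := h m
    rw [map_sub, sub_mul, sub_eq_zero] at h1
    have ha := ExteriorAlgebra.map_apply_ι τ m
    have hb := ExteriorAlgebra.map_apply_ι τ' m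
    rw [map_mul, map_mul]
    erw [ha, hb]
    rw [mul_assoc, hy, ← evn_comm P.mem, ← mul_assoc, h1, mul_assoc, evn_comm P.mem, mul_assoc]

theorem l6_sq_kill (n : ι → ℝ) (c d : ℝ) :
    ExteriorAlgebra.ι ℝ ((c • n, d • n) : VV ι) * Ev.val (sq n) = 0 := by
  have h : ((c • n, d • n) : VV ι) = c • ((n, 0) : VV ι) + d • ((0, n) : VV ι) := by simp
  have h1 : ExteriorAlgebra.ι ℝ ((n, 0) : VV ι) * Ev.val (sq n) = 0 := by
    rw [sq, val_bb, ← mul_assoc, ExteriorAlgebra.ι_sq_zero, zero_mul]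
  have h2 : ExteriorAlgebra.ι ℝ ((0, n) : VV ι) * Ev.val (sq n) = 0 := by
    rw [← evn_comm (sq n).mem, sq, val_bb, mul_assoc, ExteriorAlgebra.ι_sq_zero, mul_zero]
  rw [h, map_add, map_smul, map_smul, add_mul, smul_mul_assoc, smul_mul_assoc, h1, h2, smul_zero,
    smul_zero, add_zero]

theorem l6_prod_kill {κ : Type} [DecidableEq κ] (s : Finset κ) (n : κ → ι → ℝ) (c d : κ → ℝ) :
    ExteriorAlgebra.ι ℝ ((∑ k ∈ s, c k • n k, ∑ k ∈ s, d k • n k) : VV ι) *
      Ev.val (∏ k ∈ s, sq (n k)) = 0 := by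
  have h : ((∑ k ∈ s, c k • n k, ∑ k ∈ s, d k • n k) : VV ι) =
      ∑ k ∈ s, ((c k • n k, d k • n k) : VV ι) := Prod.ext (by simp [Prod.fst_sum])
        (by simp [Prod.snd_sum])
  rw [h, map_sum, Finset.sum_mul]
  refine Finset.sum_eq_zero fun k hk => ?_
  rw [← Finset.mul_prod_erase s _ hk, map_mul, ← mul_assoc, l6_sq_kill, zero_mul]

theorem l6_taylor (τ : VV ι →ₗ[ℝ] VV ι') (d : Module.Dual ℝ (VV ι)) (w : VV ι') (z : Ex ι) :
    ExteriorAlgebra.map (τ + d.smulRight w) z = ExteriorAlgebra.map τ z +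
      ExteriorAlgebra.ι ℝ w * ExteriorAlgebra.map τ (CliffordAlgebra.contractLeft d z) := by
  induction z using CliffordAlgebra.left_induction with
  | algebraMap r =>
    rw [AlgHom.commutes, AlgHom.commutes, CliffordAlgebra.contractLeft_algebraMap, map_zero,
      mul_zero, add_zero]
  | add x y hx hy => simp only [map_add, hx, hy, mul_add]; abel
  | ι_mul y m hy =>
    have ha := ExteriorAlgebra.map_apply_ι τ m
    have hb := ExteriorAlgebra.map_apply_ι (τ + d.smulRight w) m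
    rw [CliffordAlgebra.contractLeft_ι_mul, map_sub, map_smul, map_mul, map_mul, map_mul, hy]
    erw [ha, hb]
    have h1 := ExteriorAlgebra.ι_sq_zero (R := ℝ) w
    have h2 := eq_neg_of_add_eq_zero_left (ExteriorAlgebra.ι_add_mul_swap (R := ℝ) (τ m) w)
    simp only [LinearMap.add_apply, LinearMap.smulRight_apply, map_add, map_smul, add_mul, mul_add,
      mul_sub, smul_mul_assoc, mul_smul_comm, ← mul_assoc, h1, h2, zero_mul, smul_zero, neg_mul]
    abel

/-- The map `σ` perturbed in the direction `n` along the coordinate `k`. -/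
noncomputable def l6_pt (σ : (ι → ℝ) →ₗ[ℝ] (ι' → ℝ)) (k : ι) (n : ι' → ℝ) :
    (ι → ℝ) →ₗ[ℝ] (ι' → ℝ) := σ + (LinearMap.proj k : (ι → ℝ) →ₗ[ℝ] ℝ).smulRight n

theorem l6_taylor2 (σ : (ι → ℝ) →ₗ[ℝ] (ι' → ℝ)) (k : ι) (n : ι' → ℝ) (u : Ev ι) :
    mp (l6_pt σ k n) u = mapV (σ.prodMap (l6_pt σ k n)) u + mapV ((l6_pt σ k n).prodMap σ) u -
      mp σ u + sq n * mp σ (dd k u) := by
  have e1 (ρ : (ι → ℝ) →ₗ[ℝ] (ι' → ℝ)) : (l6_pt σ k n).prodMap ρ = σ.prodMap ρ +
      LinearMap.smulRight ((LinearMap.proj k).comp (LinearMap.fst ℝ (ι → ℝ) (ι → ℝ)))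
        ((n, 0) : VV ι') := LinearMap.ext fun v => Prod.ext (by simp [l6_pt]) (by simp)
  have e2 : σ.prodMap (l6_pt σ k n) = σ.prodMap σ +
      LinearMap.smulRight ((LinearMap.proj k).comp (LinearMap.snd ℝ (ι → ℝ) (ι → ℝ)))
        ((0, n) : VV ι') := LinearMap.ext fun v => Prod.ext (by simp) (by simp [l6_pt])
  refine Ev.ext ?_
  simp only [mp, map_add, map_sub, map_mul, val_mapV, val_dd, sq, val_bb, de, df]
  rw [e1, e1, l6_taylor, l6_taylor (σ.prodMap σ), e2, l6_taylor, l6_taylor, mul_add, mul_assoc]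
  abel

end Aux

theorem l6_int_zero {ι : Type} [Fintype ι] [DecidableEq ι] (τ : VV ι →ₗ[ℝ] VV ι) {v : VV ι}
    (hv : v ≠ 0) (h0 : τ v = 0) {x : Ev ι} (hx : mapV τ x = x) : int ι x = 0 := by
  have hd : LinearMap.det τ = 0 := LinearMap.det_eq_zero_iff_ker_ne_bot.2 fun h =>
    hv ((Submodule.eq_bot_iff _).1 h v h0)
  rw [← hx, int_mapV, hd, zero_mul]

theorem l6_ext {ι M : Type} [Fintype ι] [DecidableEq ι] [AddCommGroup M] [Module ℝ M]
    {f g : (ι → ℝ) →ₗ[ℝ] M} (h : ∀ i, f (Pi.single i 1) = g (Pi.single i 1)) : f = g :=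
  (Pi.basisFun ℝ ι).ext fun i => by rw [Pi.basisFun_apply]; exact h i

theorem l6_pb {ι ι' : Type} [Fintype ι] [DecidableEq ι'] (r : ι → ι') (v : ι → ℝ) :
    pb r v = ∑ i, v i • (Pi.single (r i) 1 : ι' → ℝ) := by
  simp only [pb, LinearMap.sum_apply, LinearMap.comp_apply, LinearMap.proj_apply,
    LinearMap.coe_single]
  refine Finset.sum_congr rfl fun i _ => ?_
  rw [← Pi.single_smul, smul_eq_mul, mul_one]

/-- The integral sees only the last term of the Taylor formula. -/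
theorem l6_last {ι ι' : Type} [Fintype ι] [DecidableEq ι] [Fintype ι'] [DecidableEq ι']
    (r : ι → ι') (k : ι) (j : ι') (hr : ∀ i, r i ≠ j) (u : Ev ι) (Z : Ev ι')
    (hZ : ∀ π π' : (ι' → ℝ) →ₗ[ℝ] (ι' → ℝ), (∀ i, i ≠ j → π (Pi.single i 1) = Pi.single i 1) →
      (∀ i, i ≠ j → π' (Pi.single i 1) = Pi.single i 1) → mapV (π.prodMap π') Z = Z) :
    int ι' (mp (l6_pt (pb r) k (Pi.single j 1)) u * Z) =
      int ι' (sq (Pi.single j 1) * up r (dd k u) * Z) := by
  set π : (ι' → ℝ) →ₗ[ℝ] (ι' → ℝ) := l6_pt LinearMap.id j (-Pi.single j 1) with hπ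
  have p1 (i : ι') (hi : i ≠ j) : π (Pi.single i 1) = Pi.single i 1 := by
    simp [hπ, l6_pt, Pi.single_eq_of_ne hi.symm]
  have p2 : π (Pi.single j 1) = 0 := by simp [hπ, l6_pt]
  have p3 : π ∘ₗ pb r = pb r := l6_ext fun i => by
    rw [LinearMap.comp_apply, pb_single, p1 _ (hr i)]
  have p4 : (Pi.single j 1 : ι' → ℝ) ≠ 0 := fun h => by simpa using congrFun h j
  have a1 (ρ : (ι → ℝ) →ₗ[ℝ] (ι' → ℝ)) : int ι' (mapV ((pb r).prodMap ρ) u * Z) = 0 := by
    refine l6_int_zero (π.prodMap LinearMap.id) (v := (Pi.single j 1, 0))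
      (fun h => p4 (congrArg Prod.fst h)) (by simp [p2]) ?_
    rw [map_mul, hZ _ _ p1 fun _ _ => rfl, mapV_mapV, LinearMap.prodMap_comp, p3,
      LinearMap.id_comp]
  have a2 (ρ : (ι → ℝ) →ₗ[ℝ] (ι' → ℝ)) : int ι' (mapV (ρ.prodMap (pb r)) u * Z) = 0 := by
    refine l6_int_zero (LinearMap.id.prodMap π) (v := (0, Pi.single j 1))
      (fun h => p4 (congrArg Prod.snd h)) (by simp [p2]) ?_
    rw [map_mul, hZ _ _ (fun _ _ => rfl) p1, mapV_mapV, LinearMap.prodMap_comp, p3,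
      LinearMap.id_comp]
  rw [l6_taylor2, add_mul, sub_mul, add_mul, map_add, map_sub, map_add, a1, a2, mp, a1]
  simp only [add_zero, sub_zero, zero_add, up, mp]

theorem l6_fix {ι ι' : Type} [Fintype ι] [DecidableEq ι] [Fintype ι'] [DecidableEq ι']
    (r : ι → ι') {π π' : (ι' → ℝ) →ₗ[ℝ] (ι' → ℝ)}
    (h : ∀ i, π (Pi.single (r i) 1) = Pi.single (r i) 1)
    (h' : ∀ i, π' (Pi.single (r i) 1) = Pi.single (r i) 1) (x : Ev ι) :
    mapV (π.prodMap π') (up r x) = up r x := by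
  have p1 : π ∘ₗ pb r = pb r := l6_ext fun i => by rw [LinearMap.comp_apply, pb_single, h]
  have p2 : π' ∘ₗ pb r = pb r := l6_ext fun i => by rw [LinearMap.comp_apply, pb_single, h']
  rw [up, mp, mapV_mapV, LinearMap.prodMap_comp, p1, p2]

theorem l6_up_prod {ι ι' : Type} [Fintype ι] [DecidableEq ι] [Fintype ι'] [DecidableEq ι']
    (r : ι → ι') (s : Finset ι) :
    up r (∏ i ∈ s, sq (Pi.single i 1)) = ∏ i ∈ s, sq (Pi.single (r i) 1) := by
  rw [map_prod]
  exact Finset.prod_congr rfl fun i _ => by rw [up, mp_sq, pb_single]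

theorem chain_std (hG : 0 < Fintype.card G) (s : T → T'') (a b : T'')
    (h : Function.Bijective (Sum.elim s fun x : Bool => cond x a b)) (t : T) (u : Ev G)
    (e : Ev (T × G)) :
    int (T'' × G) (up (fun i => (a, i)) u * gam a (s t) b *
        up (fun i => (b, i)) (om G ^ (Fintype.card G - 1)) * up (Prod.map s id) e) =
      ((Fintype.card G - 1).factorial : ℝ) * int (T × G) (up (fun i => (t, i)) (Lam G u) * e) := by
  have hsa (x : T) : s x ≠ a := fun k => by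
    simpa using h.1 (a₁ := Sum.inl x) (a₂ := Sum.inr true) k
  have hsb (x : T) : s x ≠ b := fun k => by
    simpa using h.1 (a₁ := Sum.inl x) (a₂ := Sum.inr false) k
  have hab : b ≠ a := fun k => by
    simpa using h.1 (a₁ := Sum.inr false) (a₂ := Sum.inr true) k
  have h' : Function.Bijective (Sum.elim (Prod.map s id : T × G → T'' × G)
      (Prod.map (fun x : Bool => cond x a b) id : Bool × G → T'' × G)) := by
    have := (h.prodMap (Function.bijective_id (α := G))).comp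
      (Equiv.sumProdDistrib T Bool G).symm.bijective
    convert this using 1
    ext (⟨x, i⟩ | ⟨x, i⟩) <;> rfl
  set β : (G → ℝ) →ₗ[ℝ] (T'' × G → ℝ) := pb (fun i => (s t, i)) + pb (fun i => (b, i)) with hβ
  set A : Ev (T'' × G) := ∏ i : G, sq (Pi.single (a, i) 1) with hA
  have s1 : up (fun i => (a, i)) u * gam a (s t) b = mp β u * gam a (s t) b := by
    refine l6_kill _ _ _ (fun v => ?_) u
    have := l6_prod_kill Finset.univ (fun i : G => (Pi.single (a, i) 1 - Pi.single (s t, i) 1 -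
      Pi.single (b, i) 1 : T'' × G → ℝ)) v.1 v.2
    rw [gam, ← this]
    simp only [hβ, LinearMap.prodMap_apply, Prod.mk_sub_mk, LinearMap.add_apply,
      l6_pb, smul_sub, Finset.sum_sub_distrib, sub_add_eq_sub_sub]
  set σ : (T'' × G → ℝ) →ₗ[ℝ] (T'' × G → ℝ) := LinearMap.id -
    (pb (fun i => (a, i)) + pb (fun i => (a, i)) - β) ∘ₗ
      LinearMap.funLeft ℝ ℝ fun i : G => (a, i) with hσ
  have σ1 (x : T'') (i : G) (hx : x ≠ a) : σ (Pi.single (x, i) 1) = Pi.single (x, i) 1 := by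
    have : LinearMap.funLeft ℝ ℝ (fun i : G => (a, i)) (Pi.single (x, i) 1) = 0 := by
      ext j
      simp [LinearMap.funLeft_apply, hx.symm]
    simp only [hσ, LinearMap.sub_apply, LinearMap.id_apply, LinearMap.comp_apply, this, map_zero,
      sub_zero]
  have σ2 (i : G) : σ (Pi.single (a, i) 1) =
      -(Pi.single (a, i) 1 - Pi.single (s t, i) 1 - Pi.single (b, i) 1) := by
    have : LinearMap.funLeft ℝ ℝ (fun i : G => (a, i)) (Pi.single (a, i) 1) = Pi.single i 1 := by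
      ext j
      simp [LinearMap.funLeft_apply, Pi.single_apply]
    simp only [hσ, hβ, LinearMap.sub_apply, LinearMap.add_apply, LinearMap.id_apply,
      LinearMap.comp_apply, this, pb_single]
    abel
  have σ3 : LinearMap.det σ ^ 2 = 1 := by
    have : σ ∘ₗ σ = LinearMap.id := l6_ext fun ⟨x, i⟩ => by
      rw [LinearMap.comp_apply, LinearMap.id_apply]
      by_cases hx : x = a
      · subst hx
        rw [σ2, map_neg, map_sub, map_sub, σ2, σ1 _ _ (hsa t), σ1 _ _ hab]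
        abel
      · rw [σ1 _ _ hx, σ1 _ _ hx]
    rw [pow_two, ← LinearMap.det_comp, this, LinearMap.det_id]
  have s2 (y : Ev G) : mp β u * gam a (s t) b * up (fun i => (b, i)) y * up (Prod.map s id) e =
      mp σ (mp β u * A * up (fun i => (b, i)) y * up (Prod.map s id) e) := by
    have b1 : σ ∘ₗ β = β := l6_ext fun i => by
      simp only [hβ, LinearMap.comp_apply, LinearMap.add_apply, pb_single, map_add,
        σ1 _ _ (hsa t), σ1 _ _ hab]
    have b2 : mp σ A = gam a (s t) b := by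
      rw [hA, map_prod, gam]
      exact Finset.prod_congr rfl fun i _ => by rw [mp_sq, σ2, sq_neg]
    have b3 : mp σ (up (fun i => (b, i)) y) = up (fun i => (b, i)) y :=
      l6_fix _ (fun i => σ1 _ _ hab) (fun i => σ1 _ _ hab) _
    have b4 : mp σ (up (Prod.map s id) e) = up (Prod.map s id) e :=
      l6_fix _ (fun i => σ1 _ _ (hsa _)) (fun i => σ1 _ _ (hsa _)) _
    rw [map_mul, map_mul, map_mul, mp_mp, b1, b2, b3, b4]
  have s3 (k : G) : int (T'' × G) (mp β u * A *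
      up (fun i => (b, i)) (∏ i ∈ Finset.univ.erase k, sq (Pi.single i 1)) *
      up (Prod.map s id) e) = int (T × G) (up (fun i => (t, i)) (dd k u) * e) := by
    have c1 : mp β u * up (fun i => (b, i)) (∏ i ∈ Finset.univ.erase k, sq (Pi.single i 1)) =
        mp (l6_pt (pb fun i => (s t, i)) k (Pi.single (b, k) 1)) u *
          up (fun i => (b, i)) (∏ i ∈ Finset.univ.erase k, sq (Pi.single i 1)) := by
      refine l6_kill _ _ _ (fun v => ?_) u
      have := l6_prod_kill (Finset.univ.erase k)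
        (fun i : G => (Pi.single (b, i) 1 : T'' × G → ℝ)) v.1 v.2
      rw [l6_up_prod, ← this]
      simp only [hβ, l6_pt, LinearMap.prodMap_apply, Prod.mk_sub_mk,
        LinearMap.add_apply, l6_pb, LinearMap.smulRight_apply, LinearMap.proj_apply,
        add_sub_add_left_eq_sub, Finset.sum_erase_eq_sub (Finset.mem_univ k)]
    have c2 : ∏ j : Bool × G, sq (Pi.single (Prod.map (fun x : Bool => cond x a b) id j) 1) =
        A * (sq (Pi.single (b, k) 1) *
          up (fun i => (b, i)) (∏ i ∈ Finset.univ.erase k, sq (Pi.single i 1))) := by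
      rw [l6_up_prod, Finset.mul_prod_erase Finset.univ
        (fun i : G => sq (Pi.single (b, i) (1 : ℝ))) (Finset.mem_univ k), Fintype.prod_prod_type,
        Fintype.prod_bool]
      rfl
    have c3 := int_up_mul h' (up (fun i => (t, i)) (dd k u) * e) (∏ j, sq (Pi.single j 1))
    rw [int_std, mul_one, l6_up_prod, c2, map_mul (up _), up_up] at c3
    have c4 := l6_last (fun i => (s t, i)) k (b, k) (fun i hi => hsb t (congrArg Prod.fst hi)) u
      (up (fun i => (b, i)) (∏ i ∈ Finset.univ.erase k, sq (Pi.single i 1)) * A *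
        up (Prod.map s id) e) fun π π' hπ hπ' => by
        have d1 (i : G) : (a, i) ≠ (b, k) := fun hi => hab (congrArg Prod.fst hi).symm
        have d2 (i : T × G) : Prod.map s id i ≠ (b, k) := fun hi => hsb _ (congrArg Prod.fst hi)
        have d3 (i : G) (hi : i ∈ Finset.univ.erase k) : (b, i) ≠ (b, k) := fun hj =>
          (Finset.mem_erase.1 hi).1 (congrArg Prod.snd hj)
        rw [map_mul, map_mul, l6_fix _ (fun i => hπ _ (d2 i)) fun i => hπ' _ (d2 i), hA,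
          ← l6_up_prod (fun i => (a, i)), l6_fix _ (fun i => hπ _ (d1 i)) fun i => hπ' _ (d1 i),
          l6_up_prod (fun i => (b, i)), map_prod]
        congr 2
        refine Finset.prod_congr rfl fun i hi => Ev.ext ?_
        rw [val_mapV, sq, val_bb, map_mul, ExteriorAlgebra.map_apply_ι,
          ExteriorAlgebra.map_apply_ι, LinearMap.prodMap_apply, LinearMap.prodMap_apply, map_zero,
          map_zero, hπ _ (d3 i hi), hπ' _ (d3 i hi)]
    rw [mul_right_comm (mp β u), c1, mul_assoc, mul_assoc, ← mul_assoc (up _ _), c4, ← c3]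
    congr 1
    simp only [Function.comp_def, Prod.map_apply, id]
    ring
  have s4 (X W : Ev (T'' × G)) (c : ℝ) (Y : G → Ev (T'' × G)) :
      int _ (X * (c • ∑ k, Y k) * W) = c * ∑ k, int _ (X * Y k * W) := by
    rw [Algebra.mul_smul_comm, Algebra.smul_mul_assoc, l6_mul_sum, l6_sum_mul, map_smul,
      map_sum, smul_eq_mul]
  rw [s1, s2, int_mp, σ3, one_mul, om_pow_pred hG, map_smul, map_sum, s4, Lam,
    LinearMap.sum_apply, map_sum, l6_sum_mul, map_sum]
  simp only [s3]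

end Pool.Agent.Work.MP_ffcd14_ag.Tr
end

-- merged part: Pool.Agent.Work.MP_ffcd14_ag.Tr.L7
section
/-!
# The Hodge-Riemann relations for an arbitrary polarisation

Plan.  `exists_std`: `exists_symm` gives `ω = ∑ q_ij bb δ_i δ_j`; `Psd` (applied to the form
`σ n = fun _ => n ⬝ᵥ ξ`, `int_prod_bb` or `int_std` for `Unit`) says that `q` is positive
semidefinite, so `q = wᵀ w` (`Matrix.posSemidef_iff_eq_conjTranspose_mul_self` or the square
root), `ω = ∑ sq (w k) = mp τ om` with `τ δ_k = w k`; `int_mp` shows `det τ ≠ 0`; `σ = τ⁻¹`.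
`lmain`: `Λ = mp σ⁻¹ ∘ Lam ∘ mp σ`.  For the chain formula apply `int_mp` to the diagonal maps
`dgm T'' σ` and `dgm T σ`, which commute with the maps `up`; `det (dgm T σ) = det σ ^ card T`,
`card T'' = card T + 2`, and `mp (dgm T'' σ) (gam a b c) = det σ ^ 2 • gam a b c`, because
`gam a b c = mp ρ (∏ sq δ_i)` for `ρ = pb (a,·) - pb (b,·) - pb (c,·)` and
`mp σ (∏ sq δ_i) = det σ ^ 2 • ∏ sq δ_i` (`mp_vol`: the family `n ↦ ∏ bb (n i) (n' i)` is
alternating in `n` and in `n'`; or `dgr G (card G)` is a line, `exteriorPower.finrank_eq`).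
The last statement is `hodge_std` for the subspace `S.map (mp σ)`.
-/

namespace Pool.Agent.Work.MP_ffcd14_ag.Tr

variable {G : Type} [Fintype G] [DecidableEq G]

theorem l7_int_unit (n n' : Unit → ℝ) : int Unit (bb n n') = n () * n' () := by
  have h := int_prod_bb (Equiv.refl Unit) (fun _ => n) (fun _ => n')
  simpa [Matrix.det_unique] using h

theorem l7_bb_sum (n n' : G → ℝ) :
    bb n n' = ∑ i, ∑ j, (n i * n' j) • bb (Pi.single i 1) (Pi.single j 1) := by
  conv_lhs => rw [← bbL_apply, pi_eq_sum_univ' n, pi_eq_sum_univ' n']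
  simp only [map_sum, map_smul, LinearMap.sum_apply, LinearMap.smul_apply, bbL_apply,
    Finset.smul_sum, smul_smul]
  rw [Finset.sum_comm]
  refine Finset.sum_congr rfl fun i _ => Finset.sum_congr rfl fun j _ => ?_
  rw [mul_comm]

open scoped MatrixOrder in
theorem l7_exists_tau {ω : Ev G} (h1 : ω ∈ Submodule.span ℝ (Set.range (sq (ι := G))))
    (h2 : Psd ω) : ∃ τ : (G → ℝ) →ₗ[ℝ] (G → ℝ), mp τ (om G) = ω := by
  obtain ⟨q, hq, rfl⟩ := exists_symm h1
  have hp : q.PosSemidef := by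
    refine Matrix.PosSemidef.of_dotProduct_mulVec_nonneg ?_ fun ξ => ?_
    · rw [Matrix.IsHermitian, Matrix.conjTranspose_eq_transpose_of_trivial]
      exact hq
    · have h := h2 (LinearMap.pi fun _ => ∑ i, ξ i • LinearMap.proj i)
      simp only [map_sum, map_smul, mp_bb, l7_int_unit, LinearMap.pi_apply, LinearMap.sum_apply,
        LinearMap.smul_apply, LinearMap.proj_apply, Pi.single_apply, smul_eq_mul, mul_ite, mul_one,
        mul_zero, Finset.sum_ite_eq', Finset.mem_univ, if_true] at h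
      refine h.trans_eq ?_
      simp only [star_trivial, dotProduct, Matrix.mulVec, Finset.mul_sum]
      refine Finset.sum_congr rfl fun i _ => Finset.sum_congr rfl fun j _ => ?_
      ring
  obtain ⟨w, rfl⟩ := CStarAlgebra.nonneg_iff_eq_star_mul_self.mp hp.nonneg
  refine ⟨Matrix.vecMulLinear w, ?_⟩
  simp only [om, map_sum, mp_sq, Matrix.vecMulLinear_apply, Matrix.single_one_vecMul]
  simp only [sq]
  have h3 : ∀ k, bb (w.row k) (w.row k) =
      ∑ i, ∑ j, (w k i * w k j) • bb (Pi.single i 1) (Pi.single j 1) := fun k => l7_bb_sum _ _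
  simp only [h3]
  rw [Finset.sum_comm]
  refine Finset.sum_congr rfl fun i _ => ?_
  rw [Finset.sum_comm]
  refine Finset.sum_congr rfl fun j _ => ?_
  rw [← Finset.sum_smul, Matrix.mul_apply]
  simp only [Matrix.star_apply, star_trivial]

theorem exists_std {ω : Ev G} (h1 : ω ∈ Submodule.span ℝ (Set.range (sq (ι := G)))) (h2 : Psd ω)
    (h3 : int G (ω ^ Fintype.card G) ≠ 0) :
    ∃ σ : (G → ℝ) ≃ₗ[ℝ] (G → ℝ), mp σ.toLinearMap ω = om G := by
  obtain ⟨τ, rfl⟩ := l7_exists_tau h1 h2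
  have hd : LinearMap.det τ ≠ 0 := by
    intro h
    apply h3
    rw [← map_pow, int_mp, h]
    simp
  refine ⟨(τ.equivOfDetNeZero hd).symm, ?_⟩
  rw [mp_mp]
  have : (τ.equivOfDetNeZero hd).symm.toLinearMap ∘ₗ τ = LinearMap.id := by
    refine LinearMap.ext fun n => ?_
    have h := (τ.equivOfDetNeZero hd).symm_apply_apply n
    simpa using h
  rw [this, mp_id]

theorem l7_alt (f : (G → ℝ) [⋀^G]→ₗ[ℝ] Ev G) (σ : (G → ℝ) →ₗ[ℝ] (G → ℝ)) :
    f (fun i => σ (Pi.single i 1)) = LinearMap.det σ • f (fun i => Pi.single i 1) := by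
  have : Module.Free ℝ (Ev G) := @Module.Free.of_divisionRing ℝ (Ev G) _ _ Algebra.toModule
  rw [← sub_eq_zero, ← Module.forall_dual_apply_eq_zero_iff ℝ]
  intro φ
  have h := congrArg (fun F : (G → ℝ) [⋀^G]→ₗ[ℝ] ℝ => F (σ ∘ Pi.basisFun ℝ G))
    ((φ.compAlternatingMap f).eq_smul_basis_det (Pi.basisFun ℝ G))
  simp only [AlternatingMap.smul_apply, Module.Basis.det_comp, Module.Basis.det_self, mul_one,
    LinearMap.compAlternatingMap_apply, smul_eq_mul] at h
  have e1 : (⇑(Pi.basisFun ℝ G) : G → G → ℝ) = fun i => Pi.single i 1 :=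
    funext fun i => Pi.basisFun_apply _ _ _
  rw [e1] at h
  rw [map_sub, map_smul, smul_eq_mul, mul_comm, ← h]
  exact sub_self _

omit [Fintype G] [DecidableEq G] in
theorem l7_half {x : Ev G} (h : x = -x) : x = 0 := by
  have h2 : (2 : ℝ) • x = 0 := by rw [two_smul]; nth_rewrite 1 [h]; exact neg_add_cancel x
  exact (smul_eq_zero.mp h2).resolve_left two_ne_zero

theorem l7_prod_zero (z : G → Ev G) {i j : G} (hij : i ≠ j) (h : z i * z j = 0) :
    ∏ k, z k = 0 := by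
  rw [← Finset.mul_prod_erase _ _ (Finset.mem_univ i),
    ← Finset.mul_prod_erase _ _ (Finset.mem_erase.mpr ⟨hij.symm, Finset.mem_univ j⟩), ← mul_assoc,
    h, zero_mul]

/-- The product of the `bb (n i) (n' i)` is alternating in `n`. -/
noncomputable def l7_left (n' : G → G → ℝ) : (G → ℝ) [⋀^G]→ₗ[ℝ] Ev G where
  toMultilinearMap :=
    (MultilinearMap.mkPiAlgebra ℝ G (Ev G)).compLinearMap fun i => bbL.flip (n' i)
  map_eq_zero_of_eq' v i j h hij := by
    change ∏ k, bb (v k) (n' k) = 0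
    refine l7_prod_zero (fun k => bb (v k) (n' k)) hij (l7_half ?_)
    rw [h]
    nth_rewrite 1 [bb_mul_bb]
    rw [mul_comm]

/-- The product of the `bb (n i) (n' i)` is alternating in `n'`. -/
noncomputable def l7_right (n : G → G → ℝ) : (G → ℝ) [⋀^G]→ₗ[ℝ] Ev G where
  toMultilinearMap :=
    (MultilinearMap.mkPiAlgebra ℝ G (Ev G)).compLinearMap fun i => bbL (n i)
  map_eq_zero_of_eq' v i j h hij := by
    change ∏ k, bb (n k) (v k) = 0
    refine l7_prod_zero (fun k => bb (n k) (v k)) hij (l7_half ?_)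
    rw [h]
    exact bb_mul_bb _ _ _ _

theorem mp_vol (σ : (G → ℝ) →ₗ[ℝ] (G → ℝ)) :
    mp σ (∏ i, sq (Pi.single i 1)) = LinearMap.det σ ^ 2 • ∏ i : G, sq (Pi.single i 1) := by
  have h1 : ∏ k : G, bb (σ (Pi.single k 1)) (σ (Pi.single k 1)) =
      LinearMap.det σ • ∏ k : G, bb (Pi.single k 1) (σ (Pi.single k 1)) :=
    l7_alt (l7_left fun k => σ (Pi.single k 1)) σ
  have h2 : ∏ k : G, bb (Pi.single k 1) (σ (Pi.single k 1)) =
      LinearMap.det σ • ∏ k : G, bb (Pi.single k (1 : ℝ)) (Pi.single k 1) :=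
    l7_alt (l7_right fun k => Pi.single k 1) σ
  simp only [map_prod, mp_sq]
  simp only [sq]
  rw [h1, h2, smul_smul, pow_two]

/-- The diagonal action on `T × G → ℝ`. -/
noncomputable def dgm (T : Type) (σ : (G → ℝ) →ₗ[ℝ] (G → ℝ)) :
    (T × G → ℝ) →ₗ[ℝ] (T × G → ℝ) where
  toFun n p := σ (fun i => n (p.1, i)) p.2
  map_add' := by
    intro x y
    funext p
    exact congrFun (σ.map_add (fun i => x (p.1, i)) (fun i => y (p.1, i))) p.2
  map_smul' := by
    intro c x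
    funext p
    exact congrFun (σ.map_smul c (fun i => x (p.1, i))) p.2

omit [DecidableEq G] in
theorem det_dgm (T : Type) [Fintype T] [DecidableEq T] (σ : (G → ℝ) →ₗ[ℝ] (G → ℝ)) :
    LinearMap.det (dgm T σ) = LinearMap.det σ ^ Fintype.card T := by
  have h := LinearMap.det_conj (dgm T σ) (LinearEquiv.curry ℝ ℝ T G)
  have h2 := LinearMap.det_pi (fun _ : T => σ)
  rw [Finset.prod_const, Finset.card_univ] at h2
  rw [← h, ← h2]
  congr 1

theorem l7_pb_fib {T : Type} [Fintype T] [DecidableEq T] (t : T) (n : G → ℝ) (p : T × G) :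
    pb (fun i => (t, i)) n p = if p.1 = t then n p.2 else 0 := by
  obtain ⟨a, j⟩ := p
  simp only [pb, LinearMap.sum_apply, LinearMap.comp_apply, LinearMap.proj_apply,
    LinearMap.coe_single, Finset.sum_apply, Pi.single_apply, Prod.mk.injEq]
  by_cases h : a = t
  · simp [h]
  · simp [h]

theorem l7_dgm_fib {T : Type} [Fintype T] [DecidableEq T] (σ : (G → ℝ) →ₗ[ℝ] (G → ℝ)) (t : T) :
    dgm T σ ∘ₗ pb (fun i => (t, i)) = pb (fun i => (t, i)) ∘ₗ σ := by
  refine LinearMap.ext fun n => funext fun p => ?_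
  change σ (fun i => pb (fun i => (t, i)) n (p.1, i)) p.2 = pb (fun i => (t, i)) (σ n) p
  simp only [l7_pb_fib]
  by_cases h : p.1 = t
  · simp only [h, if_true]
  · simp only [h, if_false]
    exact congrFun σ.map_zero p.2

theorem l7_pb_pb {ι ι' ι'' : Type} [Fintype ι] [DecidableEq ι] [Fintype ι'] [DecidableEq ι']
    [Fintype ι''] [DecidableEq ι''] (r : ι → ι') (r' : ι' → ι'') :
    pb r' ∘ₗ pb r = pb (r' ∘ r) := by
  refine (Pi.basisFun ℝ ι).ext fun i => ?_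
  simp only [Pi.basisFun_apply, LinearMap.comp_apply, pb_single, Function.comp_apply]

theorem l7_dgm_map {T T' : Type} [Fintype T] [DecidableEq T] [Fintype T'] [DecidableEq T']
    (σ : (G → ℝ) →ₗ[ℝ] (G → ℝ)) (s : T → T') :
    dgm T' σ ∘ₗ pb (Prod.map s id) = pb (Prod.map s id) ∘ₗ dgm T σ := by
  refine (Pi.basisFun ℝ (T × G)).ext fun p => ?_
  obtain ⟨t, i⟩ := p
  have h1 := LinearMap.congr_fun (l7_dgm_fib σ t) (Pi.single i 1)
  have h2 := LinearMap.congr_fun (l7_dgm_fib σ (s t)) (Pi.single i 1)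
  have h3 := LinearMap.congr_fun (l7_pb_pb (fun i : G => (t, i)) (Prod.map s id))
    (σ (Pi.single i 1))
  simp only [LinearMap.comp_apply, pb_single] at h1 h2 h3
  simp only [Pi.basisFun_apply, LinearMap.comp_apply, pb_single, Prod.map_apply, id_eq]
  rw [h1, h2, h3]
  rfl

theorem l7_mp_fib {T : Type} [Fintype T] [DecidableEq T] (σ : (G → ℝ) →ₗ[ℝ] (G → ℝ)) (t : T)
    (u : Ev G) : mp (dgm T σ) (up (fun i => (t, i)) u) = up (fun i => (t, i)) (mp σ u) := by
  simp only [up, mp_mp, l7_dgm_fib]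

theorem l7_mp_map {T T' : Type} [Fintype T] [DecidableEq T] [Fintype T'] [DecidableEq T']
    (σ : (G → ℝ) →ₗ[ℝ] (G → ℝ)) (s : T → T') (e : Ev (T × G)) :
    mp (dgm T' σ) (up (Prod.map s id) e) = up (Prod.map s id) (mp (dgm T σ) e) := by
  simp only [up, mp_mp, l7_dgm_map]

theorem l7_mp_gam {T : Type} [Fintype T] [DecidableEq T] (σ : (G → ℝ) →ₗ[ℝ] (G → ℝ))
    (a b c : T) : mp (dgm T σ) (gam a b c) = LinearMap.det σ ^ 2 • gam a b c := by
  have h : (gam a b c : Ev (T × G)) =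
      mp (pb (fun i => (a, i)) - pb (fun i => (b, i)) - pb (fun i => (c, i)))
        (∏ i : G, sq (Pi.single i 1)) := by
    simp only [gam, map_prod, mp_sq, LinearMap.sub_apply, pb_single]
  rw [h, mp_mp, LinearMap.comp_sub, LinearMap.comp_sub, l7_dgm_fib, l7_dgm_fib, l7_dgm_fib,
    ← LinearMap.sub_comp, ← LinearMap.sub_comp, ← mp_mp, mp_vol, map_smul]

theorem lmain {ω : Ev G} (h1 : ω ∈ Submodule.span ℝ (Set.range (sq (ι := G)))) (h2 : Psd ω)
    (h3 : int G (ω ^ Fintype.card G) ≠ 0) :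
    ∃ (Λ : Ev G →ₗ[ℝ] Ev G) (c : ℝ), 0 < c ∧ (Fintype.card G = 0 → Λ = 0) ∧
      (0 < Fintype.card G → ∀ (T T'' : Type) [Fintype T] [DecidableEq T] [Fintype T'']
        [DecidableEq T''] (s : T → T'') (a b : T''),
        Function.Bijective (Sum.elim s fun x : Bool => cond x a b) →
        ∀ (t : T) (u : Ev G) (e : Ev (T × G)),
          int (T'' × G) (up (fun i => (a, i)) u * gam a (s t) b *
            up (fun i => (b, i)) (ω ^ (Fintype.card G - 1)) * up (Prod.map s id) e) =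
          c * int (T × G) (up (fun i => (t, i)) (Λ u) * e)) ∧
      ∀ S : Submodule ℝ (Ev G), (∀ y ∈ S, ω * y ∈ S) → (∀ y ∈ S, Λ y ∈ S) →
        ∀ n, 2 * n ≤ Fintype.card G → ∀ x ∈ Sy G n, x ∈ S →
          (∀ y ∈ S, int G (ω ^ (Fintype.card G - 2 * n + 1) * x * y) = 0) → x ≠ 0 →
          0 < (-1) ^ n * int G (x * x * ω ^ (Fintype.card G - 2 * n)) := by
  obtain ⟨σ, hσ⟩ := exists_std h1 h2 h3
  have hd : LinearMap.det σ.toLinearMap ≠ 0 := σ.isUnit_det'.ne_zero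
  have hl (x : Ev G) : mp σ.symm.toLinearMap (mp σ.toLinearMap x) = x := by
    rw [mp_mp, LinearEquiv.symm_comp, mp_id]
  have hr' (x : Ev G) : mp σ.toLinearMap (mp σ.symm.toLinearMap x) = x := by
    rw [mp_mp, LinearEquiv.comp_symm, mp_id]
  refine ⟨(mp σ.symm.toLinearMap).toLinearMap ∘ₗ Lam G ∘ₗ (mp σ.toLinearMap).toLinearMap,
    ((Fintype.card G - 1).factorial : ℝ) / LinearMap.det σ.toLinearMap ^ 2,
    div_pos (by exact_mod_cast Nat.factorial_pos _) (by positivity), ?_, ?_, ?_⟩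
  · intro h0
    have := Fintype.card_eq_zero_iff.mp h0
    have : Lam G = 0 := by simp [Lam]
    rw [this, LinearMap.zero_comp, LinearMap.comp_zero]
  · intro hG T T'' _ _ _ _ s a b h t u e
    have hc : Fintype.card T'' = Fintype.card T + 2 := by
      rw [← Fintype.card_of_bijective h, Fintype.card_sum, Fintype.card_bool]
    have e1 := int_mp (dgm T'' σ.toLinearMap) (up (fun i => (a, i)) u * gam a (s t) b *
      up (fun i => (b, i)) (ω ^ (Fintype.card G - 1)) * up (Prod.map s id) e)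
    rw [map_mul (mp _), map_mul (mp _), map_mul (mp _), l7_mp_fib, l7_mp_fib, l7_mp_map, l7_mp_gam,
      map_pow, hσ, mul_smul_comm, smul_mul_assoc, smul_mul_assoc, map_smul, chain_std hG s a b h,
      det_dgm, hc, ← hr' (Lam G _), ← l7_mp_fib, ← map_mul (mp _), int_mp, det_dgm,
      smul_eq_mul] at e1
    simp only [LinearMap.comp_apply, AlgHom.toLinearMap_apply]
    have hn : (LinearMap.det σ.toLinearMap ^ (Fintype.card T + 2)) ^ 2 ≠ 0 := by positivity
    refine mul_left_cancel₀ hn ?_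
    rw [← e1]
    field_simp
    ring
  · intro S hS1 hS2 n hn x hx hxS hp h0
    have h := hodge_std (S.map (mp σ.toLinearMap).toLinearMap) ?_ ?_ n hn
      (mp_Sy σ.toLinearMap hx) ⟨x, hxS, rfl⟩ ?_ ?_
    · rw [← hσ, ← map_pow, ← map_mul, ← map_mul, int_mp, mul_left_comm] at h
      exact (mul_pos_iff_of_pos_left (by positivity)).mp h
    · rintro _ ⟨y, hy, rfl⟩
      refine ⟨ω * y, hS1 y hy, ?_⟩
      simp only [AlgHom.toLinearMap_apply, map_mul, hσ]
    · rintro _ ⟨y, hy, rfl⟩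
      refine ⟨_, hS2 y hy, ?_⟩
      simp only [LinearMap.comp_apply, AlgHom.toLinearMap_apply, hr']
    · rintro _ ⟨y, hy, rfl⟩
      rw [AlgHom.toLinearMap_apply, ← hσ, ← map_pow, ← map_mul, ← map_mul, int_mp, hp y hy, mul_zero]
    · intro h
      apply h0
      rw [← hl x, h, map_zero]

end Pool.Agent.Work.MP_ffcd14_ag.Tr
end

-- merged part: Pool.Agent.Work.MP_ffcd14_ag.Tr.G4
section
/-!
# Tropical data imply the standard conjecture of Hodge type

Write `R₁ c e` for `D.R (Mod.one X) c (up (fun i => ((), i)) e)`; then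
`tauC X c = κ * int e` (`int_up_equiv`).  Plan.  `tau_l_pos`: `Fin_map` and `tau_pos` (`Cyc/HI`,
`NT.Chow.cyc`).  `exists_div`: `divC` for `X.tp`, `mu_pos`, finiteness as in `Chw/H`
(`cut_eq_sum`, `exists_cmp`, `finite_comp`).  `exists_gr`: `gr_eq`, span induction.
`hodge_of_td`: let `l = lin (hyC X) a`, `R₁ l ω` with `ω` a positive combination of the classes
of the prime divisors; `lmain` gives `Λ` and `c`.  Call `(x, e)` good if for all `T`, `M`, `t`
and `D.R M c' e'`: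
`tauC (pull t x * c') = κ ^ card T * int (up (fun i => (t, i)) e * e')`.  Pairs with `R₁` are good
(`pull`, `mul`, `tau`, `up_up`), `(l * x, ω * e)` is good, and if `0 < X.dim` then
`(push (pull x * γ * pull (l ^ (g - 1))), (κ ^ 2 * c₀ * c) • Λ e)` is good: `tau_chain`,
`pull_pull`, the hypothesis for `T'' = (T ⊕ Unit) ⊕ Unit` and `a = inl (inr ())`, `up_gam` and the
chain formula of `lmain`.  Let `S` be the span of the `e` which occur in good pairs.  Unfold
`Hodge` as in `hodge_of` (`val_secC`, `secC_lin`, `Fin_iter`, `tauC_val`, `CR.ind`) and apply the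
last part of `lmain`; `e ≠ 0` because `x` is not numerically trivial.
-/

namespace Pool.Agent.Work.MP_ffcd14_ag.Tr

open MvPolynomial Filter Topology MP_10f4af_ag MP_10f4af_ag.Nu
open scoped ENNReal

set_option linter.unusedSectionVars false

universe u

variable {k : Type u} [Field k] [IsAlgClosed k] {P : Amb} {X : SV k P}

theorem tau_l_pos (X : SV k P) {a : P.ι →₀ ℕ} (ha : ∀ i, 0 < a i) :
    0 < tauC X (lin (hyC X) a ^ X.dim) := by
  obtain ⟨C, hC, q, h1, -, h3⟩ := Fin_map X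
  rw [← h1, map_pow, h3]
  exact tau_pos hC.cyc X.toVar X.irr ha

theorem exists_div (X : SV k P) {f : MvPolynomial P.V k} {a : P.ι →₀ ℕ} (hf : IsForm f a)
    (h : ¬ Van X.pts f) : ∃ (s : Finset (Sub k P)) (m : Sub k P → ℕ),
      (∀ Z ∈ s, (Z : Set (P.Pt k)) ⊆ X.pts ∧ sdim Z + 1 = X.dim) ∧
        lin (hyC X) a = ∑ Z ∈ s, (m Z : ℚ) • cyC X Z := by
  have hfin : {T | 0 < mu X.tp T f}.Finite := (finite_comp (cut [f] (cS X.tp))).subset
    fun T hT => by
      rw [Set.mem_ofPred_eq, H_coeff (V := X.tp) hf h, Nat.cast_ne_zero]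
      exact Nat.ne_of_gt hT
  refine ⟨hfin.toFinset, fun T => mu X.tp T f, fun Z hZ => ?_, ?_⟩
  · obtain ⟨h1, h2, -⟩ := (mu_pos (Z := X.tp) hf h Z).1 (hfin.mem_toFinset.1 hZ)
    exact ⟨h1, h2.trans X.sdim_tp⟩
  · rw [← divC (V := X.tp) subset_rfl hf h _ fun T hT => hfin.mem_toFinset.2 hT, cyC_top, one_mul]

theorem TD.exists_gr (D : TD X) {n : ℕ} {x : CR X} (hx : x ∈ CR.gr X n) :
    ∃ e ∈ Sy (Fin X.dim) n, D.R (Mod.one X) x (up (fun i => ((), i)) e) := by
  rw [gr_eq] at hx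
  induction hx using Submodule.span_induction with
  | mem x hx =>
    obtain ⟨U, h1, h2, rfl⟩ := hx
    obtain ⟨e, h3, h4, -⟩ := D.cyc U n h1 h2
    exact ⟨e, h3, h4⟩
  | zero => exact ⟨0, zero_mem _, by rw [map_zero]; exact D.zero _⟩
  | add x y _ _ hx hy =>
    obtain ⟨e, h1, h2⟩ := hx
    obtain ⟨e', h3, h4⟩ := hy
    exact ⟨e + e', add_mem h1 h3, by rw [map_add]; exact D.add h2 h4⟩
  | smul q x _ hx =>
    obtain ⟨e, h1, h2⟩ := hx
    exact ⟨(q : ℝ) • e, Submodule.smul_mem _ _ h1, by rw [map_smul]; exact D.smul q h2⟩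

/-- The correspondence on the variety itself. -/
def TD.R₁ (D : TD X) (c : CR X) (e : Ev (Fin X.dim)) : Prop :=
  D.R (Mod.one X) c (up (fun i => ((), i)) e)

theorem TD.R₁.tau {D : TD X} {c : CR X} {e : Ev (Fin X.dim)} (h : D.R₁ c e) :
    (tauC X c : ℝ) = D.κ * int _ e := by
  have := D.tau h
  rw [Fintype.card_unit, pow_one] at this
  exact this.trans (congrArg _ (int_up_equiv (Equiv.punitProd _).symm e))

theorem TD.R₁.mul {D : TD X} {c c' : CR X} {e e' : Ev (Fin X.dim)} (h : D.R₁ c e)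
    (h' : D.R₁ c' e') : D.R₁ (c * c') (e * e') := by
  rw [TD.R₁, map_mul]
  exact D.mul h h'

theorem TD.R₁.pow {D : TD X} {c : CR X} {e : Ev (Fin X.dim)} (h : D.R₁ c e) (n : ℕ) :
    D.R₁ (c ^ n) (e ^ n) := by
  induction n with
  | zero =>
    rw [pow_zero, pow_zero, TD.R₁, map_one]
    exact D.one _
  | succ n ih =>
    rw [pow_succ, pow_succ]
    exact ih.mul h

/-- The inclusion of a point. -/
def G4pt {T : Type} (t : T) : Unit ↪ T := ⟨fun _ => t, fun _ _ _ => rfl⟩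

theorem TD.R₁.pull {D : TD X} {c : CR X} {e : Ev (Fin X.dim)} (h : D.R₁ c e) {T : Type}
    [Fintype T] [DecidableEq T] (M : Mod X T) (t : T) :
    D.R M ((Mod.one X).pull M (G4pt t) c) (up (fun i => (t, i)) e) := by
  have := D.pull M (G4pt t) h
  rwa [up_up] at this

/-- The class `x` is computed by the form `e` in all degrees of products. -/
def TD.Good (D : TD X) (x : CR X) (e : Ev (Fin X.dim)) : Prop :=
  ∀ (T : Type) [Fintype T] [DecidableEq T] (M : Mod X T) (t : T) (c' : CR M.Z)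
    (e' : Ev (T × Fin X.dim)), D.R M c' e' →
      (tauC M.Z ((Mod.one X).pull M (G4pt t) x * c') : ℝ) =
        D.κ ^ Fintype.card T * int _ (up (fun i => (t, i)) e * e')

theorem TD.R₁.good {D : TD X} {c : CR X} {e : Ev (Fin X.dim)} (h : D.R₁ c e) : D.Good c e :=
  fun _ _ _ M t _ _ h' => D.tau (D.mul (h.pull M t) h')

theorem TD.Good.mul {D : TD X} {c x : CR X} {e ω : Ev (Fin X.dim)} (h : D.Good x e)
    (h' : D.R₁ c ω) : D.Good (x * c) (ω * e) := fun T _ _ M t c' e' k => by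
  have := h T M t _ _ (D.mul (h'.pull M t) k)
  rw [← mul_assoc, ← map_mul, ← mul_assoc, ← map_mul, mul_comm e] at this
  exact this

theorem TD.Good.tau {D : TD X} {c x : CR X} {e ω : Ev (Fin X.dim)} (h : D.Good x e)
    (h' : D.R₁ c ω) : (tauC X (c * x) : ℝ) = D.κ * int _ (ω * e) := by
  have := h Unit (Mod.one X) () c _ h'
  rw [show G4pt () = Function.Embedding.refl Unit from rfl, pull_refl, ← map_mul,
    Fintype.card_unit, pow_one, mul_comm e, mul_comm] at this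
  exact this.trans (congrArg _ (int_up_equiv (Equiv.punitProd _).symm _))

theorem TD.Good.chain {D : TD X} {x y : CR X} {e η e₁ : Ev (Fin X.dim)} (h : D.Good x e)
    (h' : D.R₁ y η)
    (H : ∀ (T T'' : Type) [Fintype T] [DecidableEq T] [Fintype T''] [DecidableEq T'']
      (s : T → T'') (a b : T''), Function.Bijective (Sum.elim s fun x : Bool => cond x a b) →
        ∀ (t : T) (e' : Ev (T × Fin X.dim)),
          int (T'' × Fin X.dim) (up (fun i => (a, i)) e * Tr.gam a (s t) b *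
            up (fun i => (b, i)) η * up (Prod.map s id) e') =
          int (T × Fin X.dim) (up (fun i => (t, i)) e₁ * e')) :
    ∃ (z : CR X) (c : ℝ), c ≠ 0 ∧ D.Good z (c • e₁) := by
  obtain ⟨γ, c, hc, hγ⟩ := D.gam
  have hκ := D.pos
  refine ⟨(Mod.one X).push (M3 X) (G4pt (.inl (.inr ())))
    ((Mod.one X).pull (M3 X) (G4pt (.inl (.inl ()))) x * γ *
      (Mod.one X).pull (M3 X) (G4pt (.inr ())) y), D.κ ^ 2 * c, by positivity,
    fun T _ _ M t c' e' k => ?_⟩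
  let f : (Unit ⊕ Unit) ⊕ Unit ↪ (T ⊕ Unit) ⊕ Unit :=
    ⟨Sum.map (Sum.elim Sum.inr fun _ => Sum.inl t) id, by
      rintro ((_ | _) | _) ((_ | _) | _) e <;> simp at e ⊢⟩
  let M'' := (M.prod (Mod.one X)).prod (Mod.one X)
  have e1 := tau_chain M t ((Mod.one X).pull (M3 X) (G4pt (.inl (.inl ()))) x * γ *
      (Mod.one X).pull (M3 X) (G4pt (.inr ())) y) c' f rfl rfl rfl
  rw [map_mul ((M3 X).pull _ f), map_mul ((M3 X).pull _ f), pull_pull, pull_pull,
    mul_assoc _ _ (M.pull _ _ c'), mul_assoc ((Mod.one X).pull _ (Function.Embedding.trans _ f) x),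
    show (G4pt (.inl (.inl ()))).trans f = G4pt (.inl (.inr ())) from rfl,
    show (G4pt (.inr ())).trans f = G4pt (.inr ()) from rfl] at e1
  have e2 := h _ M'' (.inl (.inr ())) _ _ (D.mul (D.pull M'' f hγ) (D.mul (h'.pull M'' (.inr ()))
    (D.pull M'' (Function.Embedding.inl.trans Function.Embedding.inl) k)))
  have e3 := H T ((T ⊕ Unit) ⊕ Unit) (Function.Embedding.inl.trans Function.Embedding.inl)
    (.inl (.inr ())) (.inr ()) ⟨by
      rintro (_ | _ | _) (_ | _ | _) e <;> simp at e ⊢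
      exact e, by
      rintro ((u | _) | _)
      exacts [⟨.inl u, rfl⟩, ⟨.inr true, rfl⟩, ⟨.inr false, rfl⟩]⟩ t e'
  rw [map_smul, up_gam, smul_mul_assoc, mul_smul_comm, map_smul] at e2
  rw [mul_assoc, mul_assoc] at e3
  refine ((congrArg (fun q : ℚ => (q : ℝ)) e1).trans e2).trans ?_
  rw [map_smul, smul_mul_assoc, map_smul, ← e3, Fintype.card_sum, Fintype.card_sum,
    Fintype.card_unit, smul_eq_mul, smul_eq_mul, add_assoc, pow_add, mul_assoc, mul_assoc (_ ^ 2)]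
  rfl

theorem TD.exists_om (D : TD X) (s : Finset (Sub k P)) (m : Sub k P → ℕ)
    (h : ∀ Z ∈ s, (Z : Set (P.Pt k)) ⊆ X.pts ∧ sdim Z + 1 = X.dim) :
    ∃ ω ∈ Submodule.span ℝ (Set.range (sq (ι := Fin X.dim))), Psd ω ∧
      D.R₁ (∑ Z ∈ s, (m Z : ℚ) • cyC X Z) ω := by
  classical
  induction s using Finset.induction_on with
  | empty =>
    refine ⟨0, zero_mem _, fun σ => by rw [map_zero, map_zero], ?_⟩
    rw [Finset.sum_empty, TD.R₁, map_zero]
    exact D.zero _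
  | insert Z s hZ ih =>
    obtain ⟨ω, h1, h2, h3⟩ := ih fun Z hZ => h Z (Finset.mem_insert_of_mem hZ)
    obtain ⟨h4, h5⟩ := h Z (Finset.mem_insert_self _ _)
    obtain ⟨e, -, h6, h7⟩ := D.cyc Z 1 h4 h5
    refine ⟨((m Z : ℚ) : ℝ) • e + ω, add_mem (Submodule.smul_mem _ _ (h7 rfl).1) h1, fun σ => ?_,
      ?_⟩
    · rw [map_add, map_add, map_smul, map_smul]
      exact add_nonneg (mul_nonneg (by positivity) ((h7 rfl).2 σ)) (h2 σ)
    · rw [Finset.sum_insert hZ, TD.R₁, map_add, map_smul]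
      exact D.add (D.smul _ h6) h3

theorem G4_span {V W : Type} [AddCommGroup V] [Module ℝ V] [AddCommGroup W] [Module ℝ W]
    (φ : V →ₗ[ℝ] W) {s : Set V} {S : Submodule ℝ W} (h : ∀ e ∈ s, φ e ∈ S) :
    ∀ y ∈ Submodule.span ℝ s, φ y ∈ S := (Submodule.span_le (p := S.comap φ)).2 h

theorem hodge_of_td (D : TD X) {f : MvPolynomial P.V k} {a : P.ι →₀ ℕ} (hf : IsForm f a)
    (ha : ∀ i, 0 < a i) (h : ¬ Van X.pts f) (n : ℕ) (hn : 2 * n ≤ X.dim) :
    Chw.Hodge X (Chw.sec X f) n := by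
  obtain ⟨s, m, hs, el⟩ := exists_div X hf h
  obtain ⟨ω, h1, h2, h3⟩ := D.exists_om s m hs
  rw [← el] at h3
  have hκ := D.pos
  have h4 : int _ (ω ^ Fintype.card (Fin X.dim)) ≠ 0 := fun e => by
    have := (h3.pow X.dim).tau
    rw [Fintype.card_fin] at e
    rw [e, mul_zero, Rat.cast_eq_zero] at this
    exact (tau_l_pos X ha).ne' this
  obtain ⟨Λ, c, hc, l0, l1, l2⟩ := lmain h1 h2 h4
  rw [Fintype.card_fin] at l0 l1 l2
  have key := l2 (Submodule.span ℝ {e | ∃ x, D.Good x e})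
    (G4_span (LinearMap.mul ℝ _ ω) fun e ⟨x, hx⟩ => Submodule.subset_span ⟨_, hx.mul h3⟩)
    (G4_span Λ fun e ⟨x, hx⟩ => by
      rcases Nat.eq_zero_or_pos X.dim with h0 | h0
      · rw [l0 h0]
        exact zero_mem (Submodule.span ℝ _)
      · obtain ⟨z, d, hd, hz⟩ := hx.chain (e₁ := c • Λ e) (h3.pow (X.dim - 1))
          fun T T'' _ _ _ _ s a b hb t e' => by
            rw [l1 h0 T T'' s a b hb t e e', map_smul, smul_mul_assoc, map_smul, smul_eq_mul]
        have := Submodule.smul_mem _ (d * c)⁻¹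
          (Submodule.subset_span (R := ℝ) (s := {e | ∃ x, D.Good x e}) ⟨z, hz⟩)
        rwa [smul_smul d, inv_smul_smul₀ (mul_ne_zero hd hc.ne')] at this) n hn
  intro x hx
  obtain ⟨y, hy, rfl⟩ : ∃ y ∈ CR.gr X n, CR.val X y = x := ⟨CR.mk x (CH_le X n hx), hx, rfl⟩
  rw [← val_secC hf, secC_lin hf h, Fin_iter, Fin_iter, ← CR.val_mul, ← tauC_val]
  intro hp hnz
  obtain ⟨e, he, hR⟩ := D.exists_gr hy
  replace hR : D.R₁ y e := hR
  have hp' : ∀ z, tauC X (lin (hyC X) a ^ (X.dim - 2 * n + 1) * y * z) = 0 := fun z => by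
    induction z using CR.ind with
    | h1 i z hz => rw [tauC_val, CR.val_mul]; exact hp i _ hz
    | h2 z z' hz hz' => rw [mul_add, map_add, hz, hz', add_zero]
  have := key e he (Submodule.subset_span ⟨y, hR.good⟩)
    (G4_span (S := ⊥) (int _ ∘ₗ LinearMap.mul ℝ _ (ω ^ (X.dim - 2 * n + 1) * e))
      fun w ⟨z, hz⟩ => by
        have := hz.tau ((h3.pow (X.dim - 2 * n + 1)).mul hR)
        rw [hp', Rat.cast_zero] at this
        exact (mul_eq_zero.1 this.symm).resolve_left hκ.ne')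
    (fun e0 => hnz fun i z hz => by
      obtain ⟨e', -, hR'⟩ := D.exists_gr (x := CR.mk z (CH_le X i hz)) hz
      have := (hR.mul hR').tau
      rw [e0, zero_mul, map_zero, mul_zero, Rat.cast_eq_zero, tauC_val] at this
      exact this)
  have e1 := (hR.mul ((h3.pow (X.dim - 2 * n)).mul hR)).tau
  rw [mul_comm _ e, ← mul_assoc e] at e1
  have e2 := mul_pos hκ this
  rw [mul_left_comm, ← e1] at e2
  exact_mod_cast e2

end Pool.Agent.Work.MP_ffcd14_ag.Tr
end

-- merged part: Pool.Agent.Work.MP_ffcd14_ag.Ry.ND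
section
/-!
# Cycles modulo numerical equivalence, pull-back along morphisms, abelian varieties
-/

namespace Pool.Agent.Work.MP_ffcd14_ag.Ry

open MvPolynomial Filter Topology MP_10f4af_ag MP_10f4af_ag.Nu Tr

universe u

variable {k : Type u} [Field k] [IsAlgClosed k] {P Q S : Amb} {X : SV k P} {Y : SV k Q}
  {Z : SV k S}

/-- Cycles modulo numerical equivalence. -/
abbrev NN (X : SV k P) : Type u := CR X ⧸ N_I X

/-- The degree. -/
noncomputable abbrev nt (X : SV k P) : NN X →ₗ[ℚ] ℚ := N_tau X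

/-- The class of a subvariety. -/
noncomputable def ny (X : SV k P) (W : Sub k P) : NN X := N_q X (cyC X W)

/-- The class of `O(a)`. -/
noncomputable def nh (X : SV k P) (a : P.ι →₀ ℕ) : NN X := N_q X (lin (hyC X) a)

/-- The classes of codimension `c`. -/
noncomputable def ng (X : SV k P) (c : ℕ) : Submodule ℚ (NN X) :=
  (CR.gr X c).map (N_q X).toLinearMap

/-- The effective classes of codimension `c`. -/
noncomputable def Eff (X : SV k P) (c : ℕ) : AddSubmonoid (NN X) :=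
  AddSubmonoid.closure {x | ∃ (q : ℚ) (W : Sub k P), 0 ≤ q ∧ (W : Set (P.Pt k)) ⊆ X.pts ∧
    sdim W + c = X.dim ∧ x = q • ny X W}

theorem nt_pd {x : NN X} (h : ∀ z, nt X (x * z) = 0) : x = 0 := (N_NI k).pd X x h

theorem ny_pos {W : Sub k P} (hW : (W : Set (P.Pt k)) ⊆ X.pts) {a : P.ι →₀ ℕ}
    (ha : ∀ i, 0 < a i) : 0 < nt X (ny X W * nh X a ^ sdim W) := by
  obtain ⟨C, hC, h⟩ := (N_NI k).red
  obtain ⟨e, -, e1, e2, e3⟩ := h X
  have h1 := nm_pos hC.cyc X.toVar (Crd.refl k P) (Crd.refl k P) hW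
    (fun U _ => by rw [Crd.img_refl]) ha ha 0 _ (Nat.zero_le _) (zero_add _)
  rw [pow_zero, one_mul, show (Crd.refl k P).ψ = id from rfl, Finsupp.mapDomain_id] at h1
  have h2 : e (nh X a) = ln C X.toVar a := by
    rw [nh, ← N_lin]
    refine (map_sum e _ _).trans (Finset.sum_congr rfl fun i _ => ?_)
    exact (map_nsmul e _ _).trans (congrArg _ (e3 i))
  refine h1.trans_eq (Eq.trans ?_ (e1 _))
  rw [nm_apply, ← h2]
  erw [map_mul e, map_pow e, e2]
  rfl

/-- The graph. -/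
def gS (φ : Hom X.toVar Y.toVar) : SV k (P.sum Q) :=
  ⟨φ.graph, HI_irr φ.graphInv X.irr fun z => ⟨_, φ.graphInv_fst z⟩⟩

/-- The first projection of the graph. -/
def g1 (φ : Hom X.toVar Y.toVar) : Prj (gS φ).toVar X.toVar := HI_prj φ

/-- The second projection of the graph. -/
def g2 (φ : Hom X.toVar Y.toVar) : Prj (gS φ).toVar Y.toVar :=
  ⟨Crd.inr k P Q, fun z hz => (φ.graphSnd.toFun ⟨z, hz⟩).2⟩

theorem nt_g1 (φ : Hom X.toVar Y.toVar) (x : NN X) : nt (gS φ) (N_pl (g1 φ) x) = nt X x :=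
  (N_NI k).tau_iso (g1 φ) φ.graphInv (HI_inv φ) x

theorem g1_bij (φ : Hom X.toVar Y.toVar) : Function.Bijective (N_pl (g1 φ)) := by
  refine ⟨(injective_iff_map_eq_zero _).2 fun x hx => nt_pd fun z => ?_, fun x => ?_⟩
  · rw [← nt_g1 φ, map_mul, hx, zero_mul, map_zero]
  obtain ⟨x, rfl⟩ := N_surj x
  have hx := spn_top x
  induction hx using Submodule.span_induction with
  | zero => exact ⟨0, by simp only [map_zero]⟩
  | add a b _ _ ha hb =>
    obtain ⟨a', ha⟩ := ha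
    obtain ⟨b', hb⟩ := hb
    exact ⟨a' + b', by rw [map_add, map_add, ha, hb]⟩
  | smul q a _ ha =>
    obtain ⟨a', ha⟩ := ha
    exact ⟨q • a', by rw [map_smul, map_smul, ha]⟩
  | mem a ha =>
    obtain ⟨G, hG, -, rfl⟩ := ha
    have hA := n1_img_sub (g1 φ) hG
    have e : gl φ ((g1 φ).img G) hA = G := by
      refine (eq_of_sdim_le (fun z hz => mem_gl.2 ⟨(g1 φ).toCrd.mem_img hz, hG hz⟩) ?_).symm
      rw [sdim_gl, n_iso1 (g1 φ) φ.graphInv (HI_inv φ) hG]
    obtain ⟨q, hq⟩ := G3_pull (g1 φ) hA (G := G) (fun z h1 h2 => e ▸ mem_gl.2 ⟨h2, h1⟩)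
      (by rw [n_iso1 (g1 φ) φ.graphInv (HI_inv φ) hG, add_comm]; rfl)
    have h0 : q ≠ 0 := by
      rintro rfl
      obtain ⟨a, ha⟩ : ∃ a : P.ι →₀ ℕ, ∀ i, 0 < a i :=
        ⟨Finsupp.equivFunOnFinite.symm fun _ => 1, fun _ => by simp⟩
      have h1 := ny_pos hA ha
      rw [← nt_g1 φ, map_mul, ny, N_pl_q, hq, zero_smul, map_zero, zero_mul, map_zero] at h1
      exact h1.false
    exact ⟨q⁻¹ • N_q X (cyC X ((g1 φ).img G)), by
      rw [map_smul, N_pl_q, hq, map_smul, inv_smul_smul₀ h0]⟩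

/-- The pull-back along a morphism. -/
noncomputable def hpl (φ : Hom X.toVar Y.toVar) : NN Y →ₐ[ℚ] NN X :=
  (AlgEquiv.ofBijective (N_pl (g1 φ)) (g1_bij φ)).symm.toAlgHom.comp (N_pl (g2 φ))

theorem hpl_spec (φ : Hom X.toVar Y.toVar) (y : NN Y) :
    N_pl (g1 φ) (hpl φ y) = N_pl (g2 φ) y :=
  (AlgEquiv.ofBijective (N_pl (g1 φ)) (g1_bij φ)).apply_symm_apply _

/-- The image of a subvariety. -/
noncomputable def im {Y : Var k P} {Y' : Var k Q} (φ : Hom Y Y') (W : Sub k P)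
    (hW : (W : Set (P.Pt k)) ⊆ Y.pts) : Sub k Q := (Crd.inr k P Q).img (gl φ W hW)

/-- The product of two subvarieties. -/
noncomputable def xp2 (V : Sub k P) (W : Sub k Q) : Sub k (P.sum Q) := (bij_sum (k := k)).xp V W

theorem xp2_sub {V : Sub k P} {W : Sub k Q} (hV : (V : Set (P.Pt k)) ⊆ X.pts)
    (hW : (W : Set (Q.Pt k)) ⊆ Y.pts) : (xp2 V W : Set ((P.sum Q).Pt k)) ⊆ (X.prod Y).pts :=
  (pd_prod X Y).xp_sub hV hW

variable (X Y) in
/-- The first projection. -/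
noncomputable def p1 : Hom (X.prod Y).toVar X.toVar :=
  Prj.hom ⟨Crd.inl k P Q, fun _ h => (mem_prod.1 h).1⟩

variable (X Y) in
/-- The second projection. -/
noncomputable def p2 : Hom (X.prod Y).toVar Y.toVar :=
  Prj.hom ⟨Crd.inr k P Q, fun _ h => (mem_prod.1 h).2⟩

/-- The map to a product. -/
def pairH (f : Hom Z.toVar X.toVar) (g : Hom Z.toVar Y.toVar) : Hom Z.toVar (X.prod Y).toVar where
  toFun z := ⟨mkPt (f.toFun z).1 (g.toFun z).1, mem_prod.2 ⟨(f.toFun z).2, (g.toFun z).2⟩⟩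
  reg z := by
    rintro (i | j)
    · exact f.reg z i
    · exact g.reg z j

variable (X) in
/-- The identity. -/
def idH : Hom X.toVar X.toVar := Hom.incl subset_rfl

variable (Y) in
/-- A constant map. -/
noncomputable def cstH (x : X.pts) : Hom Y.toVar X.toVar where
  toFun _ := x
  reg _ j := ⟨0, fun s => C ((x.1 j).rep s), fun _ => isWeightedHomogeneous_C _ _,
    Eventually.of_forall fun y => by
      have h : (fun s => ev y.1 (C ((x.1 j).rep s) : MvPolynomial Q.V k)) = (x.1 j).rep :=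
        funext fun s => eval_C _
      simp only [h]
      exact ⟨(x.1 j).rep_nonzero, (Projectivization.mk_rep _).symm⟩⟩

/-- The projection between models of powers. -/
noncomputable def prj {T U : Type} (M : Mod X U) (M' : Mod X T) (f : U → T) :
    Hom M'.Z.toVar M.Z.toVar := Prj.hom ⟨M.crd M' f, fun _ h => M.crd_mem M' f h⟩

/-- A component of a model of a power. -/
def cpt {T : Type} (M : Mod X T) (t : T) : Hom M.Z.toVar X.toVar :=
  Prj.hom ⟨M.β t, fun z h => (M.mem z).1 h t⟩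

theorem exists_hom {T : Type} (M : Mod X T) (f : T → Hom Y.toVar X.toVar) :
    ∃ F : Hom Y.toVar M.Z.toVar, ∀ t y, (cpt M t).toFun (F.toFun y) = (f t).toFun y := by
  choose F hF using fun y : Y.pts => M.exists_pt' fun t => ((f t).toFun y).1
  refine ⟨⟨fun y => ⟨F y, (M.mem _).2 fun t => (hF y t).symm ▸ ((f t).toFun y).2⟩, fun y j => ?_⟩,
    fun t y => Subtype.ext (hF y t)⟩
  obtain ⟨⟨t, i⟩, rfl⟩ := M.bψ.2 j
  have hs (s : M.S.σ ((M.β t).ψ i)) : ∃ s' : P.σ i, (M.β t).ε ⟨i, s'⟩ = ⟨(M.β t).ψ i, s⟩ := by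
    obtain ⟨⟨t', i', s'⟩, e⟩ := M.bε.2 ⟨(M.β t).ψ i, s⟩
    have e' : (M.β t').ψ i' = (M.β t).ψ i :=
      ((M.β t').fst ⟨i', s'⟩).symm.trans (congrArg Sigma.fst e)
    obtain ⟨rfl, rfl⟩ := Prod.mk.inj (@M.bψ.1 (t', i') (t, i) e')
    exact ⟨s', e⟩
  choose s' hs using hs
  obtain ⟨a, G, hG, h⟩ := (f t).reg y i
  refine ⟨a, fun s => G (s' s), fun s => hG _, h.mono fun z ⟨h0, hz⟩ => ?_⟩
  obtain ⟨μ, hμ⟩ := Projectivization.exists_smul_eq_mk_rep k _ h0
  have e : (F z ((M.β t).ψ i)).rep = μ • fun s => ev z.1 (G (s' s)) := funext fun s => by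
    have h1 := (M.β t).rp_pr (F z) ⟨i, s' s⟩
    rw [hs, hF] at h1
    refine h1.symm.trans ?_
    change (((f t).toFun z).1 i).rep (s' s) = _
    rw [hz, ← hμ]
    rfl
  have h1 : (fun s => ev z.1 (G (s' s))) ≠ 0 := fun h1 =>
    (F z ((M.β t).ψ i)).rep_nonzero (by rw [e, h1, smul_zero])
  exact ⟨h1, (Projectivization.mk_rep _).symm.trans
    ((Projectivization.mk_eq_mk_iff k _ _ _ h1).2 ⟨μ, e.symm⟩)⟩

namespace AV

variable (A : AV X)

set_option linter.unusedVariables false in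
/-- The group of points. -/
def G (A : AV X) : Type u := X.pts

instance : AddCommGroup A.G := A.grp

/-- The value of a morphism, in the group of points. -/
def ap (f : Hom Y.toVar X.toVar) (y : Y.pts) : A.G := f.toFun y

/-- The neutral element. -/
def o : X.pts := (0 : A.G)

/-- The difference of two morphisms. -/
noncomputable def dif (f g : Hom Y.toVar X.toVar) : Hom Y.toVar X.toVar := A.sub.comp (pairH f g)

theorem ap_dif (f g : Hom Y.toVar X.toVar) (y : Y.pts) :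
    A.ap (A.dif f g) y = A.ap f y - A.ap g y := A.eq _ _ _ rfl rfl

/-- The opposite. -/
noncomputable def neg (f : Hom Y.toVar X.toVar) : Hom Y.toVar X.toVar := A.dif (cstH Y A.o) f

theorem ap_neg (f : Hom Y.toVar X.toVar) (y : Y.pts) : A.ap (A.neg f) y = -A.ap f y :=
  (A.ap_dif _ f y).trans (zero_sub _)

/-- The sum. -/
noncomputable def add (f g : Hom Y.toVar X.toVar) : Hom Y.toVar X.toVar := A.dif f (A.neg g)

theorem ap_add (f g : Hom Y.toVar X.toVar) (y : Y.pts) :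
    A.ap (A.add f g) y = A.ap f y + A.ap g y := by
  rw [add, ap_dif, ap_neg, sub_neg_eq_add]

/-- The multiples. -/
noncomputable def nsm (f : Hom Y.toVar X.toVar) : ℕ → Hom Y.toVar X.toVar
  | 0 => cstH Y A.o
  | n + 1 => A.add (nsm f n) f

theorem ap_nsm (f : Hom Y.toVar X.toVar) (n : ℕ) (y : Y.pts) :
    A.ap (A.nsm f n) y = n • A.ap f y := by
  induction n with
  | zero => exact (zero_nsmul _).symm
  | succ n ih => rw [nsm, ap_add, ih, succ_nsmul]

theorem ap_sub (z : (X.prod X).pts) :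
    A.ap A.sub z = A.ap (p1 X X) z - A.ap (p2 X X) z := A.eq _ _ _ rfl rfl

theorem exists_mod {T : Type} (M : Mod X T) : ∃ B : AV M.Z, ∀ t z,
    A.ap ((cpt M t).comp B.sub) z =
      A.ap ((cpt M t).comp (p1 M.Z M.Z)) z - A.ap ((cpt M t).comp (p2 M.Z M.Z)) z := by
  obtain ⟨F, hF⟩ := exists_hom M fun t =>
    A.dif ((cpt M t).comp (p1 M.Z M.Z)) ((cpt M t).comp (p2 M.Z M.Z))
  let e : M.Z.pts ≃ (T → A.G) := Equiv.ofBijective (fun z t => (cpt M t).toFun z)
    ⟨fun z z' h => Subtype.ext (M.pt_ext fun t => congrArg Subtype.val (congrFun h t)), fun x => by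
      obtain ⟨z, hz⟩ := M.exists_pt' fun t => (x t).1
      exact ⟨⟨z, (M.mem _).2 fun t => (hz t).symm ▸ (x t).2⟩, funext fun t => Subtype.ext (hz t)⟩⟩
  have h (t : T) (z) : A.ap ((cpt M t).comp F) z =
      A.ap ((cpt M t).comp (p1 M.Z M.Z)) z - A.ap ((cpt M t).comp (p2 M.Z M.Z)) z :=
    (hF t z).trans (A.ap_dif _ _ z)
  refine ⟨@AV.mk k _ _ _ M.Z e.addCommGroup F fun z x y hx hy => ?_, h⟩
  refine e.injective (Eq.trans (funext fun t => ?_) (e.apply_symm_apply _).symm)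
  obtain rfl : (p1 M.Z M.Z).toFun z = x := Subtype.ext hx
  obtain rfl : (p2 M.Z M.Z).toFun z = y := Subtype.ext hy
  exact h t z

/-- The group structure on a power. -/
noncomputable def mod {T : Type} (M : Mod X T) : AV M.Z := (A.exists_mod M).choose

theorem ap_mod {T : Type} (M : Mod X T) (f g : Hom Y.toVar M.Z.toVar) (t : T) (y : Y.pts) :
    A.ap ((cpt M t).comp ((A.mod M).dif f g)) y =
      A.ap ((cpt M t).comp f) y - A.ap ((cpt M t).comp g) y :=
  (A.exists_mod M).choose_spec t ((pairH f g).toFun y)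

/-- The class `m^* l - p₁^* l - p₂^* l`, for the subtraction `m`. -/
noncomputable def PP (l : NN X) : NN (X.prod X) :=
  hpl A.sub l - hpl (p1 X X) l - hpl (p2 X X) l

/-- The bilinear form `∫ x × y · P ^ j`. -/
noncomputable def BB (l : NN X) (j : ℕ) (x y : NN X) : ℚ :=
  nt (X.prod X) (hpl (p1 X X) x * hpl (p2 X X) y * A.PP l ^ j)

/-- The Fourier form. -/
noncomputable def QQ (l : NN X) (n : ℕ) (x y : NN X) : ℚ :=
  (-1) ^ (X.dim - n) * A.BB l (2 * (X.dim - n)) x y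

end AV

/-- The conjecture in codimension `n`. -/
def HdN (X : SV k P) (l : NN X) (n : ℕ) : Prop :=
  ∀ x ∈ ng X n, l ^ (X.dim - 2 * n + 1) * x = 0 → x ≠ 0 →
    0 < (-1) ^ n * nt X (x * (l ^ (X.dim - 2 * n) * x))

/-- The weak form of the conjecture. -/
def HwN (X : SV k P) (l : NN X) (n : ℕ) : Prop :=
  ∀ x ∈ ng X n, l ^ (X.dim - 2 * n + 1) * x = 0 →
    0 ≤ (-1) ^ n * nt X (x * (l ^ (X.dim - 2 * n) * x))

end Pool.Agent.Work.MP_ffcd14_ag.Ry
end

-- merged part: Pool.Agent.Work.MP_ffcd14_ag.Ry.ED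
section
/-!
# Forms on a torus with coefficients in the cycles of an abelian variety: definitions
-/

namespace Pool.Agent.Work.MP_ffcd14_ag.Ry

open MvPolynomial Filter Topology MP_10f4af_ag MP_10f4af_ag.Nu Tr

set_option linter.unusedSectionVars false

universe u

variable {k : Type u} [Field k] [IsAlgClosed k] {P Q S : Amb} {X : SV k P} {Y : SV k Q}
  {Z : SV k S}

open scoped TensorProduct

noncomputable instance algQ (ι : Type) : Algebra ℚ (Tr.Ev ι) := Algebra.compHom _ (algebraMap ℚ ℝ)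

instance towQ (ι : Type) : IsScalarTower ℚ ℝ (Tr.Ev ι) := IsScalarTower.of_algebraMap_eq fun _ => rfl

/-- Forms with coefficients in cycles. -/
abbrev Tg (ι : Type) (Y : SV k Q) : Type u := Tr.Ev ι ⊗[ℚ] NN Y

variable {ι ι2 : Type} [Fintype ι] [DecidableEq ι] [Fintype ι2] [DecidableEq ι2]

variable (ι Y) in
/-- The integral. -/
noncomputable def psi : Tg ι Y →ₗ[ℚ] ℝ :=
  TensorProduct.lift ((LinearMap.mul ℚ ℝ).compl₁₂ ((int ι).restrictScalars ℚ)
    (Algebra.linearMap ℚ ℝ ∘ₗ nt Y))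

theorem psi_tmul (e : Tr.Ev ι) (y : NN Y) : psi Y ι (e ⊗ₜ y) = int ι e * (nt Y y : ℝ) := rfl

/-- The pull-back. -/
noncomputable def rh (σ : (ι → ℝ) →ₗ[ℝ] (ι2 → ℝ)) (f : Hom Z.toVar Y.toVar) :
    Tg ι Y →ₐ[ℚ] Tg ι2 Z := Algebra.TensorProduct.map ((mp σ).restrictScalars ℚ) (hpl f)

theorem rh_tmul (σ : (ι → ℝ) →ₗ[ℝ] (ι2 → ℝ)) (f : Hom Z.toVar Y.toVar) (e : Tr.Ev ι) (y : NN Y) :
    rh σ f (e ⊗ₜ y) = mp σ e ⊗ₜ hpl f y := rfl

variable (ι Y) in
/-- The positive elements of degree `c`. -/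
noncomputable def Cn (c : ℕ) : AddSubmonoid (Tg ι Y) :=
  AddSubmonoid.closure {z | ∃ a b, a + b = c ∧ ∃ e ∈ Mn ι a, ∃ y ∈ Eff Y b, z = e ⊗ₜ y}

variable (A₀ : AV Y) (i1 i2 : ι → ι2)

/-- The Fourier form. -/
noncomputable def Qt (g : ℕ) (l : Tg ι Y) (n : ℕ) (z : Tg ι Y) : ℝ :=
  (-1) ^ (g - n) * psi (Y.prod Y) ι2 (rh (pb i1) (p1 Y Y) z * rh (pb i2) (p2 Y Y) z *
    (rh (pb i1 - pb i2) A₀.sub l - rh (pb i1) (p1 Y Y) l - rh (pb i2) (p2 Y Y) l) ^ (2 * (g - n)))

variable {K : Type u} [Field K] [IsAlgClosed K] {X : SV K P}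

/-- Classes on `X × X` are matched with sequences of forms with coefficients. -/
structure TD (A : AV X) where
  κ : ℝ
  pos : 0 < κ
  R : NN (X.prod X) → (ℕ → Tg ι2 (Y.prod Y)) → Prop
  one : R 1 1
  add : ∀ {c c' e e'}, R c e → R c' e' → R (c + c') (e + e')
  smul : ∀ (q : ℚ) {c e}, R c e → R (q • c) (q • e)
  mul : ∀ {c c' e e'}, R c e → R c' e' → R (c * c') (e * e')
  tau : ∀ {c e}, R c e →
    Tendsto (fun n => κ * psi (Y.prod Y) ι2 (e n)) atTop (𝓝 (nt (X.prod X) c : ℝ))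
  cyc : ∀ (W : Sub K P) (c : ℕ), (W : Set (P.Pt K)) ⊆ X.pts → sdim W + c = X.dim →
    ∃ z : ℕ → Tg ι Y, (∀ n, z n ∈ Cn Y ι c) ∧
      R (hpl (p1 X X) (ny X W)) (fun n => rh (pb i1) (p1 Y Y) (z n)) ∧
      R (hpl (p2 X X) (ny X W)) (fun n => rh (pb i2) (p2 Y Y) (z n)) ∧
      R (hpl A.sub (ny X W)) fun n => rh (pb i1 - pb i2) A₀.sub (z n)

end Pool.Agent.Work.MP_ffcd14_ag.Ry
end

-- merged part: Pool.Agent.Work.MP_ffcd14_ag.Ry.PD
section
/-!
# Points of the powers of `E`, frames, cells, masses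

`EF R Ω T` are families of points of `E` with values in `Ω`; `thE` are the coordinates of the image
in `X ^ T`, `vbE` those of the reduction in `B₀ ^ T`, and `trE` is the tropicalisation.  Such a
family is encoded as a point `PE R T` of a torus: the coordinates are `t` and `v + cc`, where
`‖cc‖ > 1`.  A `Frame` is a subvariety `V` of `B₀ ^ T` with a chart and a transcendence basis of
`k(V)` among the coordinates; a `Cell` is a frame with a rational affine subspace.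
-/

namespace Pool.Agent.Work.MP_ffcd14_ag.Ry

open MvPolynomial Filter Topology MP_10f4af_ag MP_10f4af_ag.Nu Tr MeasureTheory
open scoped ENNReal

set_option linter.unusedSectionVars false

universe u

variable {k K : Type u} [Field k] [IsAlgClosed k] [NontriviallyNormedField K] [Cf k K]
  [IsUltrametricDist K] [CompleteSpace K] [IsAlgClosed K] {P : Amb} {X : SV K P} {R : Ray k X}
  {T U U' : Type} [Fintype T] [DecidableEq T] [Fintype U] [DecidableEq U] [Fintype U']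
  [DecidableEq U']

open scoped TensorProduct

/-- The coordinates, with decidable equality. -/
def CV (Q : Amb) : Type := Q.V

noncomputable instance (Q : Amb) : Fintype (CV Q) := Fintype.ofFinite Q.V

noncomputable instance (Q : Amb) : DecidableEq (CV Q) := Classical.decEq _

/-- Coordinates on a model of a power, given factor by factor. -/
noncomputable def lf {F : Type u} [Field F] {Y : SV F P} {α : Type*} (M : Mod Y T)
    (w : T → P.V → α) (s : M.S.V) : α :=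
  w ((Equiv.ofBijective _ M.bε).symm s).1 ((Equiv.ofBijective _ M.bε).symm s).2

theorem lf_ε {F : Type u} [Field F] {Y : SV F P} {α : Type*} (M : Mod Y T) (w : T → P.V → α)
    (t : T) (s : P.V) : lf M w ((M.β t).ε s) = w t s := by
  have h : (Equiv.ofBijective _ M.bε).symm ((M.β t).ε s) = (t, s) :=
    (Equiv.ofBijective _ M.bε).symm_apply_apply (t, s)
  rw [lf, h]

theorem lf_comp {F : Type u} [Field F] {Y : SV F P} {α : Type*} (M : Mod Y T) (w : T → P.V → α)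
    (t : T) : lf M w ∘ (M.β t).ε = w t := funext (lf_ε M w t)

variable (K) in
/-- An element of norm `> 1`. -/
noncomputable def cc : K := (NormedField.exists_one_lt_norm K).choose

variable (K) in
theorem cc_spec : 1 < ‖cc K‖ := (NormedField.exists_one_lt_norm K).choose_spec

/-- The image of a point under an embedding of fields. -/
def EP.map {Ω Ω' : Type u} {Q : Amb} {r : ℕ} (ψ : Ω → Ω') (ξ : EP Ω Q r) : EP Ω' Q r :=
  ⟨ξ.ς, fun s => ψ (ξ.v s), fun j => ψ (ξ.t j)⟩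

variable (R) in
/-- Families of points of `E`. -/
abbrev EF (Ω : Type u) (T : Type) : Type u := T → EP Ω R.Q R.r

variable (R) in
/-- The index set of the coordinates. -/
abbrev IX (T : Type) : Type := (T × Fin R.r) ⊕ (T × CV R.Q)

variable (R) in
/-- Charts. -/
abbrev Ch (T : Type) : Type := T → ∀ i, R.Q.σ i

section

variable {Ω Ω' : Type u} [NormedField Ω] [NormedAlgebra K Ω] [NormedField Ω'] [NormedAlgebra K Ω']

/-- All the points are valid. -/
def Oks (ξ : EF R Ω T) : Prop := ∀ t, (ξ t).Ok R.B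

/-- The image in `X ^ T`. -/
noncomputable def thE (M : Mod X T) (ξ : EF R Ω T) : M.S.V → Ω := lf M fun t => (ξ t).th R.c

/-- The reduction in `B₀ ^ T`. -/
noncomputable def vbE [IsUltrametricDist Ω] (M0 : Mod R.B₀ T) (ξ : EF R Ω T) :
    M0.S.V → RF k K Ω := lf M0 fun t s => rs k K ((ξ t).v s)

/-- The tropicalisation. -/
noncomputable def trE (ξ : EF R Ω T) (q : T × Fin R.r) : ℝ := Real.log ‖(ξ q.1).t q.2‖

/-- The coordinates. -/
def crE (ξ : EF R Ω T) : IX R T → Ω := Sum.elim (fun q => (ξ q.1).t q.2) fun q => (ξ q.1).v q.2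

/-- The chart. -/
def chE (ξ : EF R Ω T) : Ch R T := fun t => (ξ t).ς

/-- The image under an embedding of fields. -/
def mapE (ψ : Ω →ₐ[K] Ω') (ξ : EF R Ω T) : EF R Ω' T := fun t => (ξ t).map ψ

end

variable (R) in
/-- The encoding as points of a torus. -/
abbrev PE (T : Type) := Pt K (IX R T)

/-- The family encoded by a point. -/
noncomputable def ep (ς : Ch R T) (z : PE R T) : EF R z.Ω T := fun t =>
  ⟨ς t, fun s => z.x (.inr (t, s)) - algebraMap K z.Ω (cc K), fun j => z.x (.inl (t, j))⟩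

/-- The point which encodes a family. -/
noncomputable def toP (F : CF K) (ξ : EF R F.Ω T) (h : Oks ξ) : PE R T where
  toCF := F
  x := Sum.elim (fun q => (ξ q.1).t q.2) fun q => (ξ q.1).v q.2 + algebraMap K F.Ω (cc K)
  ne := by
    rintro (q | q)
    · exact (h q.1).2.2.2 q.2
    · intro e
      have h1 := (h q.1).2.1 q.2
      rw [eq_neg_of_add_eq_zero_left e, norm_neg, norm_algebraMap'] at h1
      exact (cc_spec K).not_ge h1

theorem ep_toP (F : CF K) (ξ : EF R F.Ω T) (h : Oks ξ) : ep (chE ξ) (toP F ξ h) = ξ := by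
  funext t
  exact congrArg (fun v => EP.mk (ξ t).ς v (ξ t).t) (funext fun s => add_sub_cancel_right _ _)

/-- The tropicalisation of the encoding. -/
noncomputable def exy (y : T × Fin R.r → ℝ) : IX R T → ℝ :=
  Sum.elim y fun _ => Real.log ‖cc K‖

variable (R) in
/-- The fundamental domain. -/
noncomputable abbrev Dm (T : Type) : Set (T × Fin R.r → ℝ) := Dom (lg R.lam) T

variable (R) in
/-- The covolume. -/
noncomputable def vlm : ℝ≥0∞ := ENNReal.ofReal (Tr.cov (lg R.lam))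

/-- A subvariety with a chart and a transcendence basis. -/
structure Frame (M0 : Mod R.B₀ T) where
  V : Sub k M0.S
  sub : (V : Set (M0.S.Pt k)) ⊆ M0.Z.pts
  ς : Ch R T
  ne : ∀ t i, ¬ Van (V : Set (M0.S.Pt k)) (MvPolynomial.X ((M0.β t).ε ⟨i, ς t i⟩))
  n : Type
  [fin : Fintype n]
  [dec : DecidableEq n]
  ν : n → T × CV R.Q
  card : Fintype.card n = sdim V
  d : ℕ
  pos : 0 < d
  spec : ∀ (L : Type u) [Field L] [Algebra k L] (w : T → R.Q.V → L),
    IsGen (V : Set (M0.S.Pt k)) (lf M0 w) → (∀ t i, w t ⟨i, ς t i⟩ = 1) →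
      AlgebraicIndependent k (fun j => w (ν j).1 (ν j).2) ∧
        (IntermediateField.adjoin k (Set.range fun j => w (ν j).1 (ν j).2)).relfinrank
          (IntermediateField.adjoin k (Set.range fun q : T × CV R.Q => w q.1 q.2)) = d

attribute [instance] Frame.fin Frame.dec

/-- A frame with an affine subspace. -/
structure Cell (M0 : Mod R.B₀ T) extends Frame M0 where
  κ : Type
  [finκ : Fintype κ]
  [decκ : DecidableEq κ]
  h : Par K (T × Fin R.r) κ

attribute [instance] Cell.finκ Cell.decκ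

variable {M0 : Mod R.B₀ T}

/-- The points over `W` whose reduction is a generic point of `V`. -/
def Frame.S (F : Frame M0) (M : Mod X T) (W : Set (M.S.Pt K)) : Set (PE R T) :=
  {z | Oks (ep F.ς z) ∧ On W (thE M (ep F.ς z)) ∧
    IsGen (F.V : Set (M0.S.Pt k)) (vbE M0 (ep F.ς z))}

/-- The distinguished coordinates. -/
def Cell.μ (c : Cell M0) : c.κ ⊕ c.n → IX R T := Sum.map c.h.μ c.ν

/-- The translation constants. -/
noncomputable def Cell.sc (c : Cell M0) : c.κ ⊕ c.n → K := Sum.elim (fun _ => 0) fun _ => cc K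

/-- The multiplicity over a point. -/
noncomputable def Cell.ml (c : Cell M0) (M : Mod X T) (W : Set (M.S.Pt K))
    (y : T × Fin R.r → ℝ) : ℝ≥0∞ := mlt (Tr.fib (c.S M W) (exy y)) (Tr.crd c.μ)

/-- The mass. -/
noncomputable def Cell.mass (c : Cell M0) (M : Mod X T) (W : Set (M.S.Pt K)) : ℝ≥0∞ :=
  (∫⁻ η, (Dm R T).indicator (c.ml M W) (c.h.ev η)) / c.d

/-- Every point of `W` with equality in the Abhyankar inequality lies on exactly one cell. -/
structure Cov (M : Mod X T) (W : Sub K M.S) {H : Type u} (c : H → Cell M0) : Prop where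
  cnt : Countable H
  dim : ∀ x, Fintype.card (c x).κ + sdim (c x).V = sdim W
  uniq : ∀ (F : CF K) (ξ : EF R F.Ω T) (V : Sub k M0.S), Oks ξ →
    On (W : Set (M.S.Pt K)) (thE M ξ) → IsGen (V : Set (M0.S.Pt k)) (vbE M0 ξ) →
      sdim W ≤ rnk K (trE ξ) + sdim V →
        ∃! x, (c x).V = V ∧ (c x).h.ev (trE ξ ∘ (c x).h.μ) = trE ξ

/-- The morphism `Φ` lifts to the powers of `E`, with the reduction `Φ0` and the linear part `χ`. -/
def LH {M : Mod X T} {MU : Mod X U} {MU0 : Mod R.B₀ U} (Φ : Hom M.Z.toVar MU.Z.toVar)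
    (Φ0 : Hom M0.Z.toVar MU0.Z.toVar) (χ : U × Fin R.r → T × Fin R.r → ℤ) : Prop :=
  ∀ (F : CF K) (ξ : EF R F.Ω T), Oks ξ → ∃ η : EF R F.Ω U, Oks η ∧ trE η = Tr.chi χ (trE ξ) ∧
    On Φ.graph.pts (Amb.elim (thE M ξ) (thE MU η)) ∧
      On Φ0.graph.pts (Amb.elim (vbE M0 ξ) (vbE MU0 η))

/-- A point over the generic point of `B₀ ^ T` with a generic tropicalisation. -/
structure Tp (M0 : Mod R.B₀ T) {Ω : Type u} [NormedField Ω] [NormedAlgebra K Ω]
    [IsUltrametricDist Ω] (τ : EF R Ω T) : Prop where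
  ok : Oks τ
  gen : Gen K (trE τ)
  vb : IsGen M0.Z.pts (vbE M0 τ)

open Classical in
/-- The absolute value of the determinant of a matrix which is square up to a bijection. -/
noncomputable def dt {σ κ : Type} [Fintype σ] [DecidableEq σ] (A : Matrix σ κ ℝ) : ℝ :=
  if h : Nonempty (κ ≃ σ) then |(A.submatrix id h.some.symm).det| else 0

/-- The product of two families of characters. -/
def chs {G : Type} (χ : U × G → T × G → ℤ) (χ' : U' × G → T × G → ℤ) (q : (U ⊕ U') × G) :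
    T × G → ℤ := Sum.elim (fun u => χ (u, q.2)) (fun u => χ' (u, q.2)) q.1

/-- A class given as a pull-back, with a covering by cells. -/
structure PD (M : Mod X T) (M0 : Mod R.B₀ T) where
  U : Type
  [fin : Fintype U]
  [dec : DecidableEq U]
  MU : Mod X U
  MU0 : Mod R.B₀ U
  F : Hom M.Z.toVar MU.Z.toVar
  F0 : Hom M0.Z.toVar MU0.Z.toVar
  χ : U × Fin R.r → T × Fin R.r → ℤ
  lh : LH F F0 χ
  W : Sub K MU.S
  sub : (W : Set (MU.S.Pt K)) ⊆ MU.Z.pts
  H : Type u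
  c : H → Cell MU0
  cov : Cov MU W c

attribute [instance] PD.fin PD.dec

variable {M : Mod X T} (D : PD M M0)

/-- The class. -/
noncomputable def PD.cls : NN M.Z := hpl D.F (ny D.MU.Z D.W)

/-- The coefficients. -/
noncomputable def PD.a (x : D.H) : ℝ≥0∞ := (D.c x).mass D.MU D.W / vlm R ^ Fintype.card D.U

/-- The terms. -/
noncomputable def PD.v (x : D.H) : Tg (T × Fin R.r) M0.Z :=
  mp (Matrix.vecMulLinear (Matrix.of fun i j => (D.χ i j : ℝ))) (D.c x).h.cls ⊗ₜ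
    hpl D.F0 (ny D.MU0.Z (D.c x).V)

end Pool.Agent.Work.MP_ffcd14_ag.Ry
end

-- merged part: Pool.Agent.Work.MP_ffcd14_ag.Tr.V14
section
/-!
# Rank and transcendence degree

Plan.  `rnk_le_rk`: `exists_gen_sub` gives generic coordinates `x (μ k)`; approximate them by
elements `s k` of `adjoin K A` (`GenT.of_close`, `GenT.algInd`); `range s` is an independent set
of the algebraic matroid with `rnk` elements (`Matroid.Indep.eRk_eq_encard`,
`AlgebraicIndependent.matroid_indep_iff`), and `rk_le_of_mem`.  `fd_of_rk`: `range s` is a base of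
the matroid (all elements of `L` are algebraic over `A`, so that `eRank ≤ rk K A`), hence `L` is
algebraic over `K(s)`; it is finitely generated (`IntermediateField.finiteDimensional_adjoin`).
`fd_of_rk'`: transport to the field `adjoin K A` (`rk_image` for the inclusion).
-/

namespace Pool.Agent.Work.MP_ffcd14_ag.Tr

open MvPolynomial Filter Topology
open scoped ENNReal

set_option linter.unusedSectionVars false

universe u

variable {K : Type u} [NontriviallyNormedField K] [IsUltrametricDist K] [CompleteSpace K]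
  [IsAlgClosed K] {Ω Ω' : Type u} [NormedField Ω] [NormedAlgebra K Ω] [NormedField Ω']
  [NormedAlgebra K Ω'] {ι ι' ι'' κ κ' : Type}

theorem V14_rk {k L : Type u} [Field k] [Field L] [Algebra k L] [Fintype κ] {s : κ → L}
    (hs : AlgebraicIndependent k s) : rk k (Set.range s) = Fintype.card κ := by
  rw [rk, (AlgebraicIndependent.matroid_indep_iff.2 hs.to_subtype_range).eRk_eq_encard,
    ← Set.image_univ, hs.injective.encard_image, Set.encard_univ, ENat.card_eq_coe_fintype_card]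

theorem rnk_le_rk [Fintype ι] {x : ι → Ω} (h0 : ∀ i, x i ≠ 0) {A : Set Ω}
    (h : ∀ i, x i ∈ cl K A) : ((rnk K fun i => Real.log ‖x i‖ : ℕ) : ℕ∞) ≤ rk K A := by
  obtain ⟨μ, hμ⟩ := exists_gen_sub (K := K) fun i => Real.log ‖x i‖
  have hg : GenT K fun k => x (μ k) := ⟨fun k => h0 _, hμ⟩
  choose s hs hs' using fun k => Metric.mem_closure_iff.1 (h (μ k)) _ (norm_pos_iff.2 (h0 (μ k)))
  have h1 := (hg.of_close (t' := s) fun k => by rw [← dist_eq_norm']; exact hs' k).1.algInd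
  have h2 := V14_rk h1
  rw [Fintype.card_fin] at h2
  rw [← h2]
  exact rk_le_of_mem (Set.forall_mem_range.2 hs)

theorem fd_of_rk {k L : Type u} [Field k] [Field L] [Algebra k L] [Fintype κ] {A : Set L}
    (hA : A.Finite) (ht : IntermediateField.adjoin k A = ⊤) (hr : rk k A ≤ Fintype.card κ)
    (s : κ → L) (hs : AlgebraicIndependent k s) :
    FiniteDimensional (IntermediateField.adjoin k (Set.range s)) L := by
  have h1 : ∀ y : L, IsIntegral (IntermediateField.adjoin k (Set.range s)) y := fun y => by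
    refine (IntermediateField.isAlgebraic_adjoin_iff.2 ?_).isIntegral
    by_contra h
    have h2 := (rk_le_of_mem (s := A) (t := insert y (Set.range s))
      fun z _ => ht ▸ IntermediateField.mem_top).trans hr
    rw [rk_insert h, V14_rk hs] at h2
    exact absurd h2 (by norm_cast; omega)
  have := hA.to_subtype
  have h2 := IntermediateField.finiteDimensional_adjoin (S := A) fun y _ => h1 y
  rw [IntermediateField.adjoin_eq_top_of_adjoin_eq_top k ht] at h2
  exact IntermediateField.topEquiv.toLinearEquiv.finiteDimensional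

theorem fd_of_rk' {k L : Type u} [Field k] [Field L] [Algebra k L] [Fintype κ] {A : Set L}
    (hA : A.Finite) (hr : rk k A ≤ Fintype.card κ) (s : κ → IntermediateField.adjoin k A)
    (hs : AlgebraicIndependent k s) :
    FiniteDimensional (IntermediateField.adjoin k (Set.range s)) (IntermediateField.adjoin k A) := by
  have e : (IntermediateField.adjoin k A).val '' (Subtype.val ⁻¹' A) = A :=
    Set.image_preimage_eq_of_subset fun y hy => ⟨⟨y, IntermediateField.subset_adjoin k A hy⟩, rfl⟩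
  refine fd_of_rk (hA.preimage Subtype.val_injective.injOn) ?_ ?_ s hs
  · refine IntermediateField.lift_injective _ ?_
    rw [IntermediateField.lift_adjoin, IntermediateField.lift_top]
    exact congrArg _ e
  · rwa [← rk_image (IntermediateField.adjoin k A).val, e]

end Pool.Agent.Work.MP_ffcd14_ag.Tr
end

-- merged part: Pool.Agent.Work.MP_ffcd14_ag.Ry.K1
section
/-!
# Families which are independent in the value group and in the residue field

Plan.  `K1_poly`: divide `f` by a coefficient `c` of the largest norm and replace the coefficients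
by their representatives (`Cf.res`); the result `q` is not zero, so `evk q` has norm one.
`ort_of`: write a polynomial as `∑ t ^ α f_α(u)` (`sumAlgEquiv`, `sumToIter` or a direct grouping of
the support); by `K1_poly` the norm of `f_α(u)` is the largest norm of a coefficient, the norms of
the non-zero terms are distinct (`V2_uniq`).  `lead`: first for polynomials, then for quotients,
then for the closure (`exists_frac'`, `rs_eq`, `rs_div`).  `res_mem`: if `‖z‖ = 1` then `α = 0`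
(`V2_uniq`) and `rs (algebraMap c)` comes from `k`.  `lin_le`: divide by the leading term of a
coefficient of the largest norm and reduce.  `res_alg`: otherwise the powers of a lift are
linearly independent (`lin_le`).  `abh`: as `rnk_le_rk` (`Tr/V14`), with `exists_gen_sub`, a
basis of the residues in the matroid (`Matroid.exists_isBasis'`), `ort_of`, `Ort.of_close`,
`Ort.algInd`.
-/

namespace Pool.Agent.Work.MP_ffcd14_ag.Ry

open MvPolynomial Filter Topology Tr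
open scoped ENNReal

set_option linter.unusedSectionVars false

universe u

variable {k K : Type u} [Field k] [IsAlgClosed k] [NontriviallyNormedField K] [Cf k K]
  [IsUltrametricDist K] [CompleteSpace K] [IsAlgClosed K] {Ω Ω' : Type u} [NormedField Ω]
  [NormedAlgebra K Ω] [IsUltrametricDist Ω] [NormedField Ω'] [NormedAlgebra K Ω']
  [IsUltrametricDist Ω'] {ι κ n n' V : Type} [Fintype κ] [DecidableEq κ] [Fintype n]
  [DecidableEq n] [Fintype n'] [DecidableEq n']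

theorem RInd.norm {u : n → Ω} (h : RInd k K u) (i : n) : ‖u i‖ = 1 := by
  exact (rs_ne_zero (k := k) (K := K) (h.1 i)).1 (h.2.ne_zero i)

theorem K1_one {u : n → Ω} (h : RInd k K u) {q : MvPolynomial n k} (hq : q ≠ 0) :
    ‖evk k K u q‖ = 1 := by
  obtain ⟨h1, h2⟩ := rs_evk (k := k) (K := K) h.1 q
  refine (rs_ne_zero (k := k) (K := K) h1).1 ?_
  rw [h2]
  exact fun e => hq (algebraicIndependent_iff.1 h.2 q e)

theorem K1_mon (u : n → Ω) (γ : n →₀ ℕ) (r : k) :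
    evk k K u (monomial γ r) = algebraMap k K r • ∏ i, u i ^ ((γ i : ℕ) : ℤ) := by
  rw [evk_apply, map_monomial, V2_term]

theorem K1_unit {u : n → Ω} (h : ∀ i, ‖u i‖ = 1) (γ : n → ℤ) : ‖∏ i, u i ^ γ i‖ = 1 := by
  simp only [norm_prod, norm_zpow, h, one_zpow, Finset.prod_const_one]

theorem K1_div {a c r : K} (hc : c ≠ 0) (h : ‖a / c - r‖ < 1) : ‖a - c * r‖ < ‖c‖ := by
  have e : a - c * r = c * (a / c - r) := by field_simp
  rw [e, norm_mul]
  exact mul_lt_of_lt_one_right (norm_pos_iff.2 hc) h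

theorem K1_mem {u : n → Ω} (h : ∀ i, ‖u i‖ ≤ 1) (q : MvPolynomial n k) :
    rs k K (evk k K u q) ∈ IntermediateField.adjoin k (Set.range fun i => rs k K (u i)) := by
  rw [(rs_evk h q).2]
  exact (IntermediateField.mem_adjoin_range_iff k _ _).2 ⟨q, 1, by rw [map_one, div_one]⟩

theorem K1_sum {A : Type} (s : Finset A) {f : A → Ω} (h : ∀ a, ‖f a‖ ≤ 1) :
    ‖∑ a ∈ s, f a‖ ≤ 1 ∧ rs k K (∑ a ∈ s, f a) = ∑ a ∈ s, rs k K (f a) := by
  classical
  induction s using Finset.induction_on with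
  | empty => exact ⟨by simp, rs_zero⟩
  | insert a s ha ih =>
    rw [Finset.sum_insert ha, Finset.sum_insert ha, rs_add (h a) ih.1, ih.2]
    exact ⟨add_mem (mem_OO.2 (h a)) (mem_OO.2 ih.1), rfl⟩

theorem K1_pow {z : Ω} (h : ‖z‖ ≤ 1) (m : ℕ) :
    ‖z ^ m‖ ≤ 1 ∧ rs k K (z ^ m) = rs k K z ^ m := by
  induction m with
  | zero => rw [pow_zero, pow_zero]; exact ⟨norm_one.le, rs_one⟩
  | succ m ih =>
    rw [pow_succ, pow_succ, rs_mul ih.1 h, ih.2]
    exact ⟨mul_mem (mem_OO.2 ih.1) (mem_OO.2 h), rfl⟩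

theorem K1_poly {u : n → Ω} (h : RInd k K u) {f : MvPolynomial n K} (hf : f ≠ 0) :
    ∃ (β : n →₀ ℕ) (q : MvPolynomial n k), coeff β f ≠ 0 ∧ (∀ γ, ‖coeff γ f‖ ≤ ‖coeff β f‖) ∧
      ‖evk k K u q‖ = 1 ∧ ‖aeval u f - coeff β f • evk k K u q‖ < ‖coeff β f‖ := by
  obtain ⟨β, hβ, hm⟩ := Finset.exists_max_image f.support (fun γ => ‖coeff γ f‖)
    (support_nonempty.mpr hf)
  have h0 := mem_support_iff.mp hβ
  have hp : 0 < ‖coeff β f‖ := norm_pos_iff.2 h0
  have hle (γ : n →₀ ℕ) : ‖coeff γ f‖ ≤ ‖coeff β f‖ := by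
    by_cases hγ : γ ∈ f.support
    · exact hm γ hγ
    · rw [notMem_support_iff.mp hγ, norm_zero]
      exact hp.le
  choose r hr using fun γ => Cf.res (k := k) (coeff γ f / coeff β f)
    (by rw [norm_div]; exact (div_le_one hp).2 (hle γ))
  refine ⟨β, ∑ γ ∈ f.support, monomial γ (r γ), h0, hle, K1_one h fun e => ?_, ?_⟩
  · have e1 := congrArg (coeff β) e
    rw [coeff_sum, Finset.sum_eq_single β (fun γ _ hγ => by rw [coeff_monomial, if_neg hγ])
      (fun hγ => absurd hβ hγ), coeff_monomial, if_pos rfl, coeff_zero] at e1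
    have e2 := hr β
    rw [e1, div_self h0, map_zero, sub_zero, norm_one] at e2
    exact lt_irrefl _ e2
  · have e : aeval u f = ∑ γ ∈ f.support, aeval u (monomial γ (coeff γ f)) := by
      rw [← map_sum, ← f.as_sum]
    rw [e, map_sum, Finset.smul_sum, ← Finset.sum_sub_distrib]
    refine V2_sum_lt hp fun γ _ => ?_
    rw [V2_term, K1_mon, smul_smul, ← sub_smul, norm_smul, K1_unit h.norm, mul_one]
    exact K1_div h0 (hr γ)

theorem K1_term (t : κ → Ω) (u : n → Ω) (β : κ ⊕ n →₀ ℕ) (a : K) :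
    aeval (Sum.elim t u) (monomial β a) =
      (a • ∏ j, t j ^ ((β (.inl j) : ℕ) : ℤ)) * ∏ i, u i ^ ((β (.inr i) : ℕ) : ℤ) := by
  rw [V2_term, Fintype.prod_sum_type, smul_mul_assoc]
  rfl

theorem K1_key {t : κ → Ω} {u : n → Ω} (h : GenT K t) (hu : RInd k K u)
    {c : MvPolynomial (κ ⊕ n) K} (hc : c ≠ 0) :
    ∃ (a : K) (α : κ → ℤ), a ≠ 0 ∧ ‖aeval (Sum.elim t u) c‖ = ‖a • ∏ j, t j ^ α j‖ ∧
      (∀ β, ‖aeval (Sum.elim t u) (monomial β (coeff β c))‖ ≤ ‖a • ∏ j, t j ^ α j‖) ∧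
      rs k K (aeval (Sum.elim t u) c / (a • ∏ j, t j ^ α j)) ∈
        IntermediateField.adjoin k (Set.range fun i => rs k K (u i)) := by
  have hn (β : κ ⊕ n →₀ ℕ) (a : K) : ‖aeval (Sum.elim t u) (monomial β a)‖ =
      ‖a • ∏ j, t j ^ ((β (.inl j) : ℕ) : ℤ)‖ := by
    rw [K1_term, norm_mul, K1_unit hu.norm, mul_one]
  obtain ⟨β₀, h0, hm⟩ := Finset.exists_max_image c.support
    (fun β => ‖coeff β c • ∏ j, t j ^ ((β (.inl j) : ℕ) : ℤ)‖) (support_nonempty.mpr hc)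
  have ha := mem_support_iff.mp h0
  obtain ⟨m, hmd⟩ : ∃ m, m = coeff β₀ c • ∏ j, t j ^ ((β₀ (.inl j) : ℕ) : ℤ) := ⟨_, rfl⟩
  have hm0 : m ≠ 0 := hmd ▸ V2_mon_ne h.1 ha _
  have hp : 0 < ‖m‖ := norm_pos_iff.2 hm0
  let ρ : (κ ⊕ n →₀ ℕ) → n →₀ ℕ := fun β => (Finsupp.sumFinsuppEquivProdFinsupp β).2
  have hr (β : κ ⊕ n →₀ ℕ) : ∃ r : k, β ∈ c.support → (r ≠ 0 → ∀ j, β (.inl j) = β₀ (.inl j)) ∧
      ‖aeval (Sum.elim t u) (monomial β (coeff β c)) - m * evk k K u (monomial (ρ β) r)‖ < ‖m‖ := by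
    by_cases hβ : β ∈ c.support
    · rcases (hm β hβ).lt_or_eq with hl | hl
      · refine ⟨0, fun _ => ⟨fun e => absurd rfl e, ?_⟩⟩
        rwa [monomial_zero, map_zero, mul_zero, sub_zero, hn, hmd]
      · have e := V2_uniq h (mem_support_iff.mp hβ) ha hl
        have e' (j : κ) : β (.inl j) = β₀ (.inl j) := Int.natCast_inj.1 (congrFun e j)
        have hT : 0 < ‖∏ j, t j ^ ((β₀ (.inl j) : ℕ) : ℤ)‖ :=
          norm_pos_iff.2 (Finset.prod_ne_zero_iff.mpr fun j _ => zpow_ne_zero _ (h.1 j))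
        simp only [e', norm_smul] at hl
        obtain ⟨r, hr⟩ := Cf.res (k := k) (coeff β c / coeff β₀ c) (by
          rw [norm_div, mul_right_cancel₀ hT.ne' hl, div_self (norm_ne_zero_iff.2 ha)])
        refine ⟨r, fun _ => ⟨fun _ => e', ?_⟩⟩
        have e2 : aeval (Sum.elim t u) (monomial β (coeff β c)) - m * evk k K u (monomial (ρ β) r) =
            ((coeff β c - coeff β₀ c * algebraMap k K r) • ∏ j, t j ^ ((β₀ (.inl j) : ℕ) : ℤ)) *
              ∏ i, u i ^ ((β (.inr i) : ℕ) : ℤ) := by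
          rw [K1_term, K1_mon, hmd]
          simp only [e', sub_smul, sub_mul, smul_mul_assoc, mul_smul_comm, smul_smul, mul_comm]
          rfl
        rw [e2, norm_mul, K1_unit hu.norm, mul_one, hmd, norm_smul, norm_smul]
        exact mul_lt_mul_of_pos_right (K1_div ha hr) hT
    · exact ⟨0, fun k => absurd k hβ⟩
  choose r hr using hr
  obtain ⟨q, hq⟩ : ∃ q, q = ∑ β ∈ c.support, monomial (ρ β) (r β) := ⟨_, rfl⟩
  have hq1 : ‖evk k K u q‖ = 1 := K1_one hu fun e => by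
    have e1 := congrArg (coeff (ρ β₀)) (hq.symm.trans e)
    rw [coeff_sum, Finset.sum_eq_single β₀ (fun β hβ hne => ?_) (fun hγ => absurd h0 hγ),
      coeff_monomial, if_pos rfl, coeff_zero] at e1
    · have e2 := (hr β₀ h0).2
      rw [e1, monomial_zero, map_zero, mul_zero, sub_zero, hn, hmd] at e2
      exact lt_irrefl _ e2
    · rw [coeff_monomial]
      split_ifs with e2
      · by_contra e3
        refine hne (Finsupp.ext ?_)
        rintro (j | i)
        · exact (hr β hβ).1 e3 j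
        · exact DFunLike.congr_fun e2 i
      · rfl
  have h1 : ‖aeval (Sum.elim t u) c - m * evk k K u q‖ < ‖m‖ := by
    have e : aeval (Sum.elim t u) c =
        ∑ β ∈ c.support, aeval (Sum.elim t u) (monomial β (coeff β c)) := by
      rw [← map_sum, ← c.as_sum]
    rw [e, hq, map_sum, Finset.mul_sum, ← Finset.sum_sub_distrib]
    exact V2_sum_lt hp fun β hβ => (hr β hβ).2
  have h2 : ‖m * evk k K u q‖ = ‖m‖ := by rw [norm_mul, hq1, mul_one]
  have h3 : ‖aeval (Sum.elim t u) c‖ = ‖m‖ := (V2_eq (h1.trans_eq h2.symm)).trans h2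
  refine ⟨coeff β₀ c, fun j => ((β₀ (.inl j) : ℕ) : ℤ), ha, hmd ▸ h3, fun β => ?_, ?_⟩
  · by_cases hβ : β ∈ c.support
    · rw [hn]
      exact hm β hβ
    · rw [notMem_support_iff.mp hβ, monomial_zero, map_zero, norm_zero]
      exact norm_nonneg _
  · rw [← hmd, (rs_eq (by rw [norm_div, h3, div_self hp.ne']) hq1.le).2 ?_]
    · exact K1_mem hu.1 q
    · rw [div_sub' hm0, norm_div, div_lt_one hp]
      exact h1

theorem ort_of {t : κ → Ω} {u : n → Ω} (h : GenT K t) (hu : RInd k K u) :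
    Ort K (Sum.elim t u) := by
  refine ⟨?_, fun c β => ?_⟩
  · rintro (j | i)
    · exact h.1 j
    · exact norm_ne_zero_iff.1 ((hu.norm i).trans_ne one_ne_zero)
  · by_cases hc : c = 0
    · rw [hc, coeff_zero, monomial_zero]
    · obtain ⟨a, α, -, h1, h2, -⟩ := K1_key h hu hc
      exact (h2 β).trans_eq h1.symm

theorem rind_of_ort {u : n → Ω} (h : Ort K u) (h1 : ∀ i, ‖u i‖ = 1) : RInd k K u := by
  refine ⟨fun i => (h1 i).le, algebraicIndependent_iff.2 fun q hq => ?_⟩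
  obtain ⟨h2, h3⟩ := rs_evk (k := k) (K := K) (fun i => (h1 i).le) q
  have h4 := (rs_eq_zero h2).1 (h3.trans hq)
  ext β
  by_contra h5
  have h6 := h.2 (map (algebraMap k K) q) β
  rw [V2_term, norm_smul, K1_unit h1, mul_one, coeff_map, Cf.one _ h5] at h6
  exact absurd h4 (not_lt.2 h6)

theorem lead {t : κ → Ω} {u : n → Ω} (h : GenT K t) (hu : RInd k K u) {z : Ω}
    (hz : z ∈ cl K (Set.range (Sum.elim t u))) (h0 : z ≠ 0) :
    ∃ (c : K) (α : κ → ℤ), c ≠ 0 ∧ ‖z‖ = ‖c • ∏ j, t j ^ α j‖ ∧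
      rs k K (z / (c • ∏ j, t j ^ α j)) ∈
        IntermediateField.adjoin k (Set.range fun i => rs k K (u i)) := by
  have hp : 0 < ‖z‖ := norm_pos_iff.mpr h0
  obtain ⟨a, b, hb, hab⟩ := exists_frac' _ hz hp
  have h1 := V2_eq' hab
  have ha : a ≠ 0 := by
    rintro rfl
    rw [map_zero, zero_div, norm_zero] at h1
    exact hp.ne h1
  obtain ⟨c, α, hc, n1, -, r1⟩ := K1_key h hu ha
  obtain ⟨d, γ, hd, n2, -, r2⟩ := K1_key h hu (c := b) (by rintro rfl; exact hb (map_zero _))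
  have e : (c / d) • ∏ j, t j ^ (α j - γ j) = (c • ∏ j, t j ^ α j) / (d • ∏ j, t j ^ γ j) := by
    rw [Finset.prod_congr rfl fun j _ => zpow_sub₀ (h.1 j) _ _, Finset.prod_div_distrib,
      Algebra.smul_def, Algebra.smul_def, Algebra.smul_def, map_div₀, div_mul_div_comm]
  refine ⟨c / d, fun j => α j - γ j, div_ne_zero hc hd, ?_⟩
  rw [e]
  have hA := V2_mon_ne h.1 hc α
  have hB := V2_mon_ne h.1 hd γ
  generalize c • ∏ j, t j ^ α j = A at *
  generalize d • ∏ j, t j ^ γ j = B at *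
  generalize aeval (Sum.elim t u) a = x at *
  generalize aeval (Sum.elim t u) b = y at *
  have n3 : ‖z‖ = ‖A / B‖ := by rw [← h1, norm_div, norm_div, n1, n2]
  have n4 : ‖x / A‖ = 1 := by rw [norm_div, n1, div_self (norm_ne_zero_iff.2 hA)]
  have n5 : ‖y / B‖ = 1 := by rw [norm_div, n2, div_self (norm_ne_zero_iff.2 hB)]
  have e2 : z / (A / B) - x / A / (y / B) = (z - x / y) / (A / B) := by field_simp
  refine ⟨n3, ?_⟩
  rw [(rs_eq (b := x / A / (y / B)) (by rw [norm_div, ← n3, div_self hp.ne'])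
    (by rw [norm_div, n4, n5, div_one])).2 (by rwa [e2, norm_div, ← n3, div_lt_one hp]),
    rs_div n4.le n5]
  exact div_mem r1 r2

theorem res_mem {t : κ → Ω} {u : n → Ω} (h : GenT K t) (hu : RInd k K u) {z : Ω}
    (hz : z ∈ cl K (Set.range (Sum.elim t u))) :
    rs k K z ∈ IntermediateField.adjoin k (Set.range fun i => rs k K (u i)) := by
  rcases lt_trichotomy ‖z‖ 1 with h1 | h1 | h1
  · rw [(rs_eq_zero h1.le).2 h1]
    exact zero_mem _
  · have h0 : z ≠ 0 := norm_ne_zero_iff.1 (h1.trans_ne one_ne_zero)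
    obtain ⟨c, α, hc, n1, r1⟩ := lead h hu hz h0
    obtain rfl : α = 0 := V2_uniq h hc one_ne_zero (by rw [← n1, h1]; simp)
    simp only [Pi.zero_apply, zpow_zero, Finset.prod_const_one, ← Algebra.algebraMap_eq_smul_one]
      at n1 r1
    have n2 : ‖algebraMap K Ω c‖ = 1 := n1.symm.trans h1
    obtain ⟨r, hr⟩ := Cf.res (k := k) c ((norm_algebraMap' Ω c).symm.trans n2).le
    have e : rs k K (algebraMap K Ω c) = algebraMap k _ r := by
      rw [← rs_ak]
      refine (rs_eq n2.le (norm_ak_le k K r)).2 ?_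
      rw [← norm_algebraMap' Ω, map_sub] at hr
      exact hr
    rw [rs_div h1.le n2] at r1
    rw [← div_mul_cancel₀ (rs k K z) ((rs_ne_zero (k := k) (K := K) n2.le).2 n2)]
    exact mul_mem r1 (e ▸ IntermediateField.algebraMap_mem _ r)
  · rw [rs, dif_neg (not_le.2 h1)]
    exact zero_mem _

theorem lin_le {t : κ → Ω} {u : n → Ω} (h : GenT K t) (hu : RInd k K u) {A : Type} [Fintype A]
    {b : A → Ω} (hb : ∀ a, ‖b a‖ ≤ 1) (hl : LinearIndependent
      (IntermediateField.adjoin k (Set.range fun i => rs k K (u i))) fun a => rs k K (b a))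
    {c : A → Ω} (hc : ∀ a, c a ∈ cl K (Set.range (Sum.elim t u))) (a : A) :
    ‖c a‖ ≤ ‖∑ a, c a * b a‖ := by
  obtain ⟨a₀, -, hm⟩ := Finset.exists_max_image Finset.univ (fun a => ‖c a‖) ⟨a, Finset.mem_univ a⟩
  refine (hm a (Finset.mem_univ a)).trans ?_
  by_cases h0 : c a₀ = 0
  · rw [h0, norm_zero]
    exact norm_nonneg _
  have hp : 0 < ‖c a₀‖ := norm_pos_iff.2 h0
  have hd (a : A) : ‖c a / c a₀‖ ≤ 1 := by
    rw [norm_div]
    exact (div_le_one hp).2 (hm a (Finset.mem_univ a))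
  obtain ⟨h1, h2⟩ := K1_sum (k := k) (K := K) Finset.univ (f := fun a => c a / c a₀ * b a)
    fun a => mul_mem (mem_OO.2 (hd a)) (mem_OO.2 (hb a))
  have h3 : ‖∑ a, c a / c a₀ * b a‖ = 1 := by
    refine (rs_ne_zero (k := k) (K := K) h1).1 fun e => ?_
    have h4 := Fintype.linearIndependent_iff.1 hl
      (fun a => ⟨rs k K (c a / c a₀), res_mem h hu (div_mem (hc a) (hc a₀))⟩) (by
        rw [← e, h2]
        exact Finset.sum_congr rfl fun a _ => (rs_mul (hd a) (hb a)).symm) a₀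
    have h5 : rs k K (c a₀ / c a₀) = 0 := congrArg Subtype.val h4
    rw [div_self h0, rs_one] at h5
    exact one_ne_zero h5
  simp only [div_mul_eq_mul_div, ← Finset.sum_div, norm_div] at h3
  exact ((div_eq_one_iff_eq hp.ne').1 h3).ge

theorem res_alg {t : κ → Ω} {u : n → Ω} (h : GenT K t) (hu : RInd k K u)
    [FiniteDimensional (cl K (Set.range (Sum.elim t u))) Ω] (y : RF k K Ω) :
    IsAlgebraic (IntermediateField.adjoin k (Set.range fun i => rs k K (u i))) y := by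
  by_contra H
  obtain ⟨z, hz, rfl⟩ := rs_surj y
  have h1 := (Polynomial.basisMonomials _).linearIndependent.map' _ (LinearMap.ker_eq_bot.2
    (show Function.Injective (Polynomial.aeval (R := IntermediateField.adjoin k
      (Set.range fun i => rs k K (u i))) (rs k K z)).toLinearMap from
      transcendental_iff_injective.1 H))
  have h2 : LinearIndependent (cl K (Set.range (Sum.elim t u)))
      fun a : Fin (Module.finrank (cl K (Set.range (Sum.elim t u))) Ω + 1) => z ^ a.1 := by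
    refine Fintype.linearIndependent_iff.2 fun c hc a => Subtype.ext (norm_le_zero_iff.1 ?_)
    refine (lin_le h hu (b := fun a => z ^ a.1) (fun a => (K1_pow (k := k) (K := K) hz _).1) ?_
      (fun a => (c a).2) a).trans_eq (norm_eq_zero.2 hc)
    have h3 := h1.comp Fin.val (Fin.val_injective
      (n := Module.finrank (cl K (Set.range (Sum.elim t u))) Ω + 1))
    simpa [Function.comp_def, fun m => (K1_pow (k := k) (K := K) hz m).2] using h3
  have h4 := h2.fintype_card_le_finrank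
  rw [Fintype.card_fin] at h4
  omega

/-- The inequality of Abhyankar. -/
theorem abh [Fintype ι] [Finite V] {x : ι → Ω} (h0 : ∀ i, x i ≠ 0) {v : V → Ω}
    (h1 : ∀ s, ‖v s‖ ≤ 1) {A : Set Ω} (hx : ∀ i, x i ∈ cl K A) (hv : ∀ s, v s ∈ cl K A) :
    ((rnk K fun i => Real.log ‖x i‖ : ℕ) : ℕ∞) + rk k (Set.range fun s => rs k K (v s)) ≤
      rk K A := by
  classical
  obtain ⟨μ, hμ⟩ := exists_gen_sub (K := K) fun i => Real.log ‖x i‖
  have hg : GenT K fun j => x (μ j) := ⟨fun j => h0 _, hμ⟩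
  obtain ⟨I, hI⟩ := ((AlgebraicIndependent.matroid k (RF k K Ω)).comap
    fun s => rs k K (v s)).exists_isBasis' Set.univ
  have := Fintype.ofFinite I
  obtain ⟨h2, h3⟩ := Matroid.comap_indep_iff.1 hI.indep
  have hu : RInd k K fun s : I => v s := ⟨fun s => h1 s, (algebraicIndependent_image h3).2 h2⟩
  have ho := ort_of hg hu
  have hm : ∀ j, Sum.elim (fun j => x (μ j)) (fun s : I => v s) j ∈ cl K A := by
    rintro (j | s)
    exacts [hx _, hv _]
  choose s hs hs' using fun j => Metric.mem_closure_iff.1 (hm j) _ (norm_pos_iff.2 (ho.1 j))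
  have h4 := V14_rk (ho.of_close (t' := s) fun j => by rw [← dist_eq_norm']; exact hs' j).1.algInd
  have h5 : rk k (Set.range fun s => rs k K (v s)) = Fintype.card I := by
    rw [rk, ← Set.image_univ, ← Matroid.eRk_comap, ← hI.encard_eq_eRk,
      Set.encard_eq_coe_toFinset_card, Set.toFinset_card]
  rw [Fintype.card_sum, Fintype.card_fin, Nat.cast_add, ← h5] at h4
  rw [← h4]
  exact rk_le_of_mem (Set.forall_mem_range.2 hs)

end Pool.Agent.Work.MP_ffcd14_ag.Ry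
end

-- merged part: Pool.Agent.Work.MP_ffcd14_ag.Tr.A2
section
/-!
# The uniformisation of the powers

Plan.  Reduce to the factors with `on_mod`, `same_mod`, `th_ε`.  `exists_lift`: `A.surj` in each
factor, then correct by a period (`exists_dom_lat`, `log_per`, `same_iff`).  `x_mem`: let
`S = cl K (rat (th ξ))`, a complete field; the normalised coordinates (`same_norm`) give a point of
`M.Z` with values in `S` (`on_map` for `S.val`), lift it (`exists_lift`), and compare with `ξ` by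
`th_map` and `same_iff`.  `rnk_le_th`: `rnk_le_rk`.  The set in `Unif.hom` is `A.sub.graph.pts`
(by `rfl`).  `on_dif_th`: `on_dif` and `A.hom`; `(ξ.chp (dch p q)).x (u, i) = x (p u, i) / x (q u, i)`.
`exists_grp`: use `Ω = K`; `o` is the point with coordinates `ser (c s) 1` (`On.exists_pt`); every
point of `X` is given by some `x` (`on_pt`, `A.surj`); `fun_unique`, `same_pt`, `A.inj`.
`SW_gam`: `on_gl`, `fun_unique`, `A.hom`, `A.inj`.  `tv_SW`: `sat` by `th_map`, `on_map`;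
`rnk_le` by `On.rk_le`; `fd` by `fd_of_dense` for `F = fld K (th ξ)` (dense by `x_mem` and
tightness), `fd_of_rk'`, `G2_rat_finite`; `lim` by `Appr.lim`, `appr_th`, `on_th`.
-/

namespace Pool.Agent.Work.MP_ffcd14_ag.Tr

open MvPolynomial Filter Topology MP_10f4af_ag MP_10f4af_ag.Nu
open scoped ENNReal

set_option linter.unusedSectionVars false
set_option linter.unusedVariables false

universe u

variable {K : Type u} [NontriviallyNormedField K] [IsUltrametricDist K] [CompleteSpace K]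
  [IsAlgClosed K] {P : Amb} {X : SV K P} (A : Unif X) {T T' U U' V : Type}

theorem per_ne (n : T × Fin X.dim → ℤ) (q : T × Fin X.dim) : per A n q ≠ 0 :=
  Finset.prod_ne_zero_iff.2 fun j _ => zpow_ne_zero _ (A.ne j q.2)

theorem log_per (n : T × Fin X.dim → ℤ) (q : T × Fin X.dim) :
    Real.log ‖per A n q‖ = lat (lg A.lam) n q := by
  rw [per, norm_prod, Real.log_prod fun j _ => norm_ne_zero_iff.2 (zpow_ne_zero _ (A.ne j q.2))]
  simp only [norm_zpow, Real.log_zpow, lat, lg]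

theorem vol_pos : vol A ≠ 0 ∧ vol A ≠ ⊤ :=
  ⟨(ENNReal.ofReal_pos.2 (cov_pos A.ind)).ne', ENNReal.ofReal_ne_top⟩

theorem A2_th (M : Mod X T) (ξ : Pt K (T × Fin X.dim)) (t : T) :
    th A M ξ ∘ (M.β t).ε = fun s => ser (A.c s) fun i => ξ.x (t, i) :=
  funext (th_ε A M ξ t)

theorem on_th (M : Mod X T) (ξ : Pt K (T × Fin X.dim)) : On M.Z.pts (th A M ξ) := by
  refine (on_mod M).2 fun t => ?_
  rw [A2_th]
  exact A.on _ _ fun i => ξ.ne _

theorem same_iff (M : Mod X T) (F : CF K) (x y : T × Fin X.dim → F.Ω) (hx : ∀ q, x q ≠ 0)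
    (hy : ∀ q, y q ≠ 0) : Same (th A M ⟨F, x, hx⟩) (th A M ⟨F, y, hy⟩) ↔
      ∃ n, ∀ q, x q = per A n q • y q := by
  have h (t : T) : Same (th A M ⟨F, x, hx⟩ ∘ (M.β t).ε) (th A M ⟨F, y, hy⟩ ∘ (M.β t).ε) ↔
      ∃ n : Fin X.dim → ℤ, ∀ i, x (t, i) = (∏ j, A.lam j i ^ n j) • y (t, i) := by
    rw [A2_th, A2_th]
    exact A.inj F.Ω _ _ (fun _ => hx _) fun _ => hy _
  rw [same_mod M]
  constructor
  · intro H
    choose n hn using fun t => (h t).1 (H t)
    exact ⟨fun q => n q.1 q.2, fun q => hn q.1 q.2⟩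
  · rintro ⟨n, hn⟩ t
    exact (h t).2 ⟨fun j => n (t, j), fun i => hn (t, i)⟩

theorem exists_lift (M : Mod X T) (F : CF K) {v : M.S.V → F.Ω} (h : On M.Z.pts v) :
    ∃ (x : T × Fin X.dim → F.Ω) (hx : ∀ q, x q ≠ 0), Same (th A M ⟨F, x, hx⟩) v ∧
      (⟨F, x, hx⟩ : Pt K _).trop ∈ Dom (lg A.lam) T := by
  choose y hy hs using fun t => A.surj F.Ω _ ((on_mod M).1 h t)
  have hy' : ∀ q : T × Fin X.dim, y q.1 q.2 ≠ 0 := fun q => hy q.1 q.2
  obtain ⟨n, hn, -⟩ := exists_dom_lat (ℓ := lg A.lam) A.ind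
    fun q : T × Fin X.dim => Real.log ‖y q.1 q.2‖
  refine ⟨fun q => per A (-n) q • y q.1 q.2, fun q => smul_ne_zero (per_ne A _ q) (hy' q),
    ((same_iff A M F _ _ _ hy').2 ⟨-n, fun _ => rfl⟩).trans ((same_mod M).2 fun t => ?_), ?_⟩
  · rw [A2_th]
    exact hs t
  · convert hn using 1
    funext q
    change Real.log ‖per A (-n) q • y q.1 q.2‖ = _
    rw [norm_smul, Real.log_mul (norm_ne_zero_iff.2 (per_ne A _ q)) (norm_ne_zero_iff.2 (hy' q)),
      log_per, lat_neg, Pi.neg_apply, Pi.sub_apply]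
    ring

theorem x_mem (M : Mod X T) (ξ : Pt K (T × Fin X.dim)) (q : T × Fin X.dim) :
    ξ.x q ∈ cl K (rat (th A M ξ)) := by
  choose ς hς using (on_th A M ξ).1
  let S := cl K (rat (th A M ξ))
  let v : M.S.V → S := fun s =>
    ⟨th A M ξ s / th A M ξ ⟨s.1, ς s.1⟩, subset_cl _ ⟨s.1, s.2, ς s.1, rfl⟩⟩
  have hv : On M.Z.pts v := (on_map S.val).1 ((on_th A M ξ).same (same_norm hς))
  obtain ⟨x, hx, hs, -⟩ := exists_lift A M ⟨S⟩ hv
  have hx' : ∀ q, S.val (x q) ≠ 0 := fun q => (map_ne_zero _).2 (hx q)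
  have h1 := hs.map S.val
  have h2 := funext (th_map A M (ξ := ⟨⟨S⟩, x, hx⟩) (ζ := ⟨ξ.toCF, fun q => S.val (x q), hx'⟩)
    (iso_val S) fun _ => rfl)
  obtain ⟨n, hn⟩ := (same_iff A M ξ.toCF ξ.x _ ξ.ne hx').1
    ((h2 ▸ h1).trans (same_norm hς)).symm
  rw [hn q]
  exact S.smul_mem (x q).2

theorem rnk_le_th [Fintype T] (M : Mod X T) (ξ : Pt K (T × Fin X.dim)) :
    ((rnk K ξ.trop : ℕ) : ℕ∞) ≤ rk K (rat (th A M ξ)) :=
  rnk_le_rk ξ.ne (x_mem A M ξ)

theorem isGen_th [Fintype T] (M : Mod X T) {ξ : Pt K (T × Fin X.dim)} (h : Gen K ξ.trop) :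
    IsGen M.Z.pts (th A M ξ) := by
  refine On.isGen (W := M.Z.tp) (on_th A M ξ) (le_trans ?_ (rnk_le_th A M ξ))
  have h1 := gen_iff_rnk.1 h
  rw [Fintype.card_prod, Fintype.card_fin] at h1
  rw [SV.sdim_tp, M.dim, Nat.card_eq_fintype_card]
  exact_mod_cast h1

theorem A2_dch {G : Type} [Fintype G] [DecidableEq G] [Fintype V] [DecidableEq V] (p q : U → V)
    (ξ : Pt K (V × G)) (u : U) (i : G) :
    (ξ.chp (dch p q)).x (u, i) = ξ.x (p u, i) / ξ.x (q u, i) := by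
  have h := ξ.mon_add (dch p q (u, i)) (crd id (q u, i))
  have e : dch p q (u, i) + crd id (q u, i) = crd id (p u, i) := sub_add_cancel _ _
  rw [e] at h
  exact eq_div_of_mul_eq (ξ.ne _)
    ((ξ.ch_crd id (p u, i)).symm.trans (h.trans (congrArg _ (ξ.ch_crd id (q u, i))))).symm

theorem A2_sub {Ω : Type u} [NormedField Ω] [NormedAlgebra K Ω] [CompleteSpace Ω]
    {x y : Fin X.dim → Ω} (hx : ∀ i, x i ≠ 0) (hy : ∀ i, y i ≠ 0) {w : P.V → Ω} :
    On A.sub.graph.pts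
      (Amb.elim (Amb.elim (fun s => ser (A.c s) x) fun s => ser (A.c s) y) w) ↔
      Same w fun s => ser (A.c s) (x / y) :=
  ⟨fun h => fun_unique A.sub h (A.hom Ω x y hx hy),
    fun h => (A.hom Ω x y hx hy).same ((Same.refl _).elim h)⟩

theorem on_dif_th [Fintype V] [DecidableEq V] [Finite U] (M : Mod X V) (p q : U → V)
    (ξ : Pt K (V × Fin X.dim)) : On (dif A.sub M p q).graph.pts
      (Amb.elim (th A M ξ) (th A (Mod.pow X U) (ξ.chp (dch p q)))) := by
  refine (on_dif A.sub M p q).2 ⟨on_th A M ξ, fun u => ?_⟩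
  have h : th A (Mod.pow X U) (ξ.chp (dch p q)) ∘ vj u =
      fun s => ser (A.c s) ((fun i => ξ.x (p u, i)) / fun i => ξ.x (q u, i)) :=
    (A2_th A (Mod.pow X U) _ u).trans
      (funext fun s => congrArg _ (funext fun i => A2_dch p q ξ u i))
  rw [A2_th, A2_th]
  exact (A2_sub A (fun _ => ξ.ne _) fun _ => ξ.ne _).2 (h ▸ Same.refl _)

theorem A2_pt (z : (X.prod X).pts) {x y : Fin X.dim → K} (hx : ∀ i, x i ≠ 0) (hy : ∀ i, y i ≠ 0)
    (ex : Same (fun s => ser (A.c s) x) (rp (fst z.1)))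
    (ey : Same (fun s => ser (A.c s) y) (rp (snd z.1))) :
    Same (rp (A.sub.toFun z).1) fun s => ser (A.c s) (x / y) := by
  refine (A2_sub A hx hy).1 (((on_pt A.sub.graph.closed).2 (A.sub.graphInv.toFun z).2).same ?_)
  have e : rp (A.sub.graphInv.toFun z).1 =
      Amb.elim (Amb.elim (rp (fst z.1)) (rp (snd z.1))) (rp (A.sub.toFun z).1) := by
    funext s
    rcases s with ⟨(i | i) | i, s⟩ <;> rfl
  rw [e]
  exact (ex.elim ey).elim (Same.refl _)

theorem exists_grp : ∃ o, Grp A.sub o := by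
  have h1 : ∀ i, (1 : Fin X.dim → K) i ≠ 0 := fun _ => one_ne_zero
  obtain ⟨o, ho, eo⟩ := (A.on K 1 h1).exists_pt X.closed
  have hs : ∀ x ∈ X.pts, ∃ y : Fin X.dim → K, (∀ i, y i ≠ 0) ∧
      Same (fun s => ser (A.c s) y) (rp x) := fun x hx => A.surj K _ ((on_pt X.closed).2 hx)
  refine ⟨o, ho, fun z => ?_, fun z hz => ?_⟩
  · obtain ⟨x, hx, ex⟩ := hs (fst z.1) (mem_prod.1 z.2).1
    obtain ⟨y, hy, ey⟩ := hs (snd z.1) (mem_prod.1 z.2).2
    have e := A2_pt A z hx hy ex ey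
    have h2 := A.inj K (x / y) 1 (fun i => div_ne_zero (hx i) (hy i)) h1
    have h3 := A.inj K x y hx hy
    simp only [Pi.div_apply, Pi.one_apply, smul_eq_mul, mul_one, div_eq_iff (hy _)] at h2 h3
    rw [← h3] at h2
    rw [← same_pt, ← same_pt]
    exact ⟨fun h => ex.symm.trans ((h2.1 (e.symm.trans (h.trans eo))).trans ey),
      fun h => e.trans ((h2.2 (ex.trans (h.trans ey.symm))).trans eo.symm)⟩
  · obtain ⟨x, hx, ex⟩ := hs (fst z.1) (mem_prod.1 z.2).1
    have e := A2_pt A z hx h1 ex (hz ▸ eo.symm)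
    rw [div_one] at e
    exact same_pt.1 (e.trans ex)

theorem SW_top (M : Mod X T) : SW A M M.Z.pts = Set.univ :=
  Set.eq_univ_of_forall (on_th A M)

theorem SW_xp (M : Mod X U) (M' : Mod X U') (W : Sub K M.S) (W' : Sub K M'.S)
    (z : Pt K ((U ⊕ U') × Fin X.dim)) :
    z ∈ SW A (M.prod M')
      ((bij_sum (k := K) (P := M.S) (Q := M'.S)).xp W W' : Set ((M.S.sum M'.S).Pt K)) ↔
      (z.res fun i => (Equiv.sumProdDistrib U U' (Fin X.dim)).symm (Sum.inl i)) ∈ SW A M W ∧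
      (z.res fun i => (Equiv.sumProdDistrib U U' (Fin X.dim)).symm (Sum.inr i)) ∈ SW A M' W' := by
  have h1 : th A (M.prod M') z ∘ (Crd.inl K M.S M'.S).ε = th A M
      (z.res fun i => (Equiv.sumProdDistrib U U' (Fin X.dim)).symm (Sum.inl i)) :=
    M.eps_ext fun t s => (th_ε A (M.prod M') z (Sum.inl t) s).trans
      (th_ε A M (z.res fun i => (Equiv.sumProdDistrib U U' _).symm (Sum.inl i)) t s).symm
  have h2 : th A (M.prod M') z ∘ (Crd.inr K M.S M'.S).ε = th A M'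
      (z.res fun i => (Equiv.sumProdDistrib U U' (Fin X.dim)).symm (Sum.inr i)) :=
    M'.eps_ext fun t s => (th_ε A (M.prod M') z (Sum.inr t) s).trans
      (th_ε A M' (z.res fun i => (Equiv.sumProdDistrib U U' _).symm (Sum.inr i)) t s).symm
  exact (on_xp (bij_sum (k := K) (P := M.S) (Q := M'.S)) (v := th A (M.prod M') z)).trans
    (and_congr (iff_of_eq (congrArg (On (W : Set (M.S.Pt K))) h1))
      (iff_of_eq (congrArg (On (W' : Set (M'.S.Pt K))) h2)))

theorem gW_sub : (gW A : Set ((M3 X).S.Pt K)) ⊆ (M3 X).Z.pts := by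
  intro z hz
  obtain ⟨h1, h2, h3⟩ := mem_gl.1 hz
  exact mem_prod.2 ⟨h1, Set.mem_of_eq_of_mem h3.symm (A.sub.toFun _).2⟩

theorem sdim_gW : sdim (gW A) = X.dim + X.dim :=
  (sdim_gl A.sub _).trans ((X.prod X).sdim_tp.trans (prod_dim X X))

theorem SW_gam : SW A (M3 X) (gW A) = Sgam A.lam := by
  ext ξ
  have e : th A (M3 X) ξ =
      Amb.elim (Amb.elim (fun s => ser (A.c s) fun i => ξ.x (Sum.inl (Sum.inl ()), i))
        fun s => ser (A.c s) fun i => ξ.x (Sum.inl (Sum.inr ()), i))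
        fun s => ser (A.c s) fun i => ξ.x (Sum.inr (), i) := by
    funext s
    rcases s with ⟨(i | i) | i, s⟩
    · exact th_ε A (M3 X) ξ (Sum.inl (Sum.inl ())) ⟨i, s⟩
    · exact th_ε A (M3 X) ξ (Sum.inl (Sum.inr ())) ⟨i, s⟩
    · exact th_ε A (M3 X) ξ (Sum.inr ()) ⟨i, s⟩
  change On _ (th A (M3 X) ξ) ↔ _
  rw [e]
  refine (on_gl A.sub (W := (X.prod X).tp) subset_rfl).trans
    ((and_iff_right_of_imp fun h => (on_graph A.sub h).1).trans
      ((A2_sub A (fun _ => ξ.ne _) fun _ => ξ.ne _).trans ?_))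
  exact A.inj _ _ _ (fun _ => ξ.ne _) fun _ => div_ne_zero (ξ.ne _) (ξ.ne _)

theorem tv_SW (p : ℕ) [Fact p.Prime] [CharP K p] [Fintype T] [DecidableEq T] (M : Mod X T)
    (W : Sub K M.S) (hW : (W : Set (M.S.Pt K)) ⊆ M.Z.pts) : TV (SW A M W) (sdim W) := by
  refine ⟨?_, fun ξ h => ?_, fun ξ h ht κ _ μ hκ hg => ?_, fun ζ 𝒰 ξ h hb hl => ?_⟩
  · rintro ξ ζ ⟨ψ, hψ, h⟩
    change On _ (th A M ξ) ↔ On _ (th A M ζ)
    rw [← funext (th_map A M hψ h), on_map]
  · exact_mod_cast (rnk_le_th A M ξ).trans (On.rk_le h)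
  · classical
    refine fd_of_dense p (ξ.genT_ch (by rwa [chi_crd]))
      (IntermediateField.adjoin K (rat (th A M ξ))) (top_unique ?_)
      (fd_of_rk' (G2_rat_finite _) (hκ ▸ On.rk_le h))
    rw [← ht]
    refine cl_le_cl ?_
    rintro _ ⟨q, rfl⟩
    exact cl_le_cl ((IntermediateField.subset_adjoin K _).trans (subset_cl _)) (x_mem A M ξ q)
  · refine ⟨(on_th A M ξ).1, fun f a hf hv => norm_eq_zero.1 ?_⟩
    have h1 := (appr_th A M f).lim hb hl
    simp only [fun n => (h n).2 f a hf hv, norm_zero] at h1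
    exact tendsto_nhds_unique h1 tendsto_const_nhds

end Pool.Agent.Work.MP_ffcd14_ag.Tr
end

-- merged part: Pool.Agent.Work.MP_ffcd14_ag.Ry.P1
section
/-!
# Points of `E`: basic properties

Model: `Tr/A1`, `Tr/A2`; library `Tr/G1` (`On`, `Same`, `on_map`, `on_mod`, `same_mod`,
`fun_exists`, `fun_unique`, `On.isGen`, `On.rk_le`), `Tr/I1` (`exists_dom_lat`).
Plan.  `summable_th`: the terms have norm `≤ ‖c m‖ * ∏ ‖t i‖ ^ m.2 i`, which tends to `0` by
`R.ent`.  `red_iff`: `rs_evk`, `rs_eq_zero`.  `on_vb`: `R.lift` gives `g` with `aeval v g = 0` and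
`‖aeval v (g - map f)‖ < 1`.  `exists_chg`: `R.chg`.  `eq_of_same`: `R.inj`, and `Same` vectors
which are `1` on the same chart are equal (`A3_eq`).  `unit_of_same`: both vectors have sup norm `1`
in each block.  `crd_mem`: let `S = cl K (rat (th ξ))`; `R.surj` over `S` gives `ζ`; `R.lat`,
`R.act` over `S` (with `-n`), `R.inj`, `unit_of_same`, `exists_chg` over `S`, `eq_of_same` show that
`ξ` is the image of a point over `S` (compare `x_mem` in `Tr/A2`).  `fld_of_same`: `R.lat`,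
`red_iff` give `On A₀.sub.graph.pts (elim (elim (rs ζ.v) b) (rs ξ.v))` with `b` rational over `k`;
`on_graph` (or `fun_exists`, `fun_unique`) gives one inclusion, and exchange `ξ` and `ζ`.
-/

namespace Pool.Agent.Work.MP_ffcd14_ag.Ry

open MvPolynomial Filter Topology MP_10f4af_ag MP_10f4af_ag.Nu Tr MeasureTheory
open scoped ENNReal

set_option linter.unusedSectionVars false

universe u

variable {k K : Type u} [Field k] [IsAlgClosed k] [NontriviallyNormedField K] [Cf k K]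
  [IsUltrametricDist K] [CompleteSpace K] [IsAlgClosed K] {P : Amb} {X : SV K P} {R : Ray k X}
  {T U U' : Type} [Fintype T] [DecidableEq T] [Fintype U] [DecidableEq U] [Fintype U']
  [DecidableEq U'] {Ω Ω' : Type u} [NormedField Ω] [NormedAlgebra K Ω] [IsUltrametricDist Ω]
  [CompleteSpace Ω] [NormedField Ω'] [NormedAlgebra K Ω'] [IsUltrametricDist Ω'] [CompleteSpace Ω']
  {M : Mod X T} {M0 : Mod R.B₀ T} {MU : Mod X U} {MU0 : Mod R.B₀ U}

theorem gph_eq {F : Type u} [Field F] {P Q : Amb} {Y : Var F P} {Y' : Var F Q} (φ : Hom Y Y') :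
    gph φ = φ.graph.pts := rfl

theorem red_iff {Q : Amb} {A : Set (Q.Pt k)} {v : Q.V → Ω} (h : ∀ s, ‖v s‖ ≤ 1)
    (h1 : ∀ i, ∃ s, ‖v ⟨i, s⟩‖ = 1) : Red K A v ↔ On A fun s => rs k K (v s) := by
  have e : ∀ f : MvPolynomial Q.V k, ‖aeval v (map (algebraMap k K) f)‖ < 1 ↔
      aeval (fun s => rs k K (v s)) f = 0 := fun f => by
    rw [← (rs_evk h f).2, rs_eq_zero (rs_evk h f).1, evk_apply]
  refine ⟨fun H => ⟨fun i => (h1 i).imp fun s hs => (rs_ne_zero (h _)).2 hs,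
    fun f a hf hA => (e f).1 (H f a hf hA)⟩, fun H f a hf hA => (e f).2 (H.2 f a hf hA)⟩

theorem P1_lt {σ : Type} {v : σ → Ω} (h : ∀ s, ‖v s‖ ≤ 1) {g : MvPolynomial σ K}
    (hg : ∀ β, ‖coeff β g‖ < 1) : ‖aeval v g‖ < 1 := by
  rw [aeval_def, eval₂_eq]
  refine Finset.sum_induction _ (fun z : Ω => ‖z‖ < 1) (fun a b ha hb =>
    (IsUltrametricDist.norm_add_le_max a b).trans_lt (max_lt ha hb)) (by simp) fun β _ => ?_
  rw [norm_mul, norm_algebraMap', norm_prod]
  refine (mul_le_of_le_one_right (norm_nonneg _) (Finset.prod_le_one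
    (fun _ _ => norm_nonneg _) fun w _ => ?_)).trans_lt (hg β)
  rw [norm_pow]
  exact pow_le_one₀ (norm_nonneg _) (h w)

theorem fld_lf {F L : Type u} [Field F] [Field L] [Algebra F L] {Y : SV F P} (M : Mod Y T)
    (w : T → P.V → L) : fld F (lf M w) = ⨆ t, fld F (w t) := by
  refine le_antisymm (IntermediateField.adjoin_le_iff.2 ?_)
    (iSup_le fun t => lf_comp M w t ▸ fld_le (M.β t) (lf M w))
  rintro _ ⟨j, s, s', rfl⟩
  obtain ⟨⟨t, i, a⟩, e⟩ := M.bε.2 ⟨j, s⟩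
  obtain ⟨⟨t', i', a'⟩, e'⟩ := M.bε.2 ⟨j, s'⟩
  have h : ((t, i) : T × P.ι) = (t', i') := M.bψ.1 (((M.β t).fst ⟨i, a⟩).symm.trans
    ((congrArg Sigma.fst e).trans ((congrArg Sigma.fst e').symm.trans ((M.β t').fst ⟨i', a'⟩))))
  obtain ⟨rfl, rfl⟩ := Prod.mk.inj h
  rw [← e, ← e', lf_ε, lf_ε]
  exact le_iSup (fun t => fld F (w t)) t (IntermediateField.subset_adjoin F _ ⟨i, a, a', rfl⟩)

section

variable {ξ ζ : EP Ω R.Q R.r}

theorem summable_th (h : ξ.Ok R.B) (s : P.V) : Summable fun m : (R.Q.V →₀ ℕ) × (Fin R.r → ℤ) =>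
    R.c ξ.ς s m • ((m.1.prod fun w n => ξ.v w ^ n) * ∏ j, ξ.t j ^ m.2 j) := by
  refine NonarchimedeanAddGroup.summable_of_tendsto_cofinite_zero ?_
  rw [tendsto_zero_iff_norm_tendsto_zero]
  refine squeeze_zero (fun _ => norm_nonneg _) (fun m => ?_)
    (R.ent ξ.ς s (fun j => ‖ξ.t j‖) fun j => norm_pos_iff.2 (h.2.2.2 j))
  rw [norm_smul, norm_mul, norm_prod]
  simp only [norm_zpow]
  refine mul_le_mul_of_nonneg_left (mul_le_of_le_one_left
    (Finset.prod_nonneg fun j _ => zpow_nonneg (norm_nonneg _) _) ?_) (norm_nonneg _)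
  rw [Finsupp.prod, norm_prod]
  exact Finset.prod_le_one (fun _ _ => norm_nonneg _) fun w _ => by
    rw [norm_pow]
    exact pow_le_one₀ (norm_nonneg _) (h.2.1 w)

theorem th_map (h : ξ.Ok R.B) {ψ : Ω →ₐ[K] Ω'} (hψ : Iso ψ) (s : P.V) :
    (ξ.map ψ).th R.c s = ψ (ξ.th R.c s) := by
  have h1 := (summable_th h s).hasSum.map ψ hψ.continuous
  rw [EP.th, EP.th, ← h1.tsum_eq]
  refine tsum_congr fun m => ?_
  simp only [Function.comp_apply, map_smul, map_mul, map_prod, map_zpow₀, Finsupp.prod, map_pow,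
    EP.map]

theorem ok_map {ψ : Ω →ₐ[K] Ω'} (hψ : Iso ψ) : (ξ.map ψ).Ok R.B ↔ ξ.Ok R.B := by
  refine and_congr (forall_congr' fun i => ?_) (and_congr (forall_congr' fun s => ?_)
    (and_congr (on_map ψ) (forall_congr' fun j => map_ne_zero ψ)))
  · exact ⟨fun e => ψ.injective (e.trans (map_one ψ).symm),
      fun e => (congrArg ψ e).trans (map_one ψ)⟩
  · exact iff_of_eq (congrArg (· ≤ 1) (hψ _))

theorem th_mem (h : ξ.Ok R.B) {S : Set Ω} (hv : ∀ s, ξ.v s ∈ cl K S) (ht : ∀ j, ξ.t j ∈ cl K S)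
    (s : P.V) : ξ.th R.c s ∈ cl K S := by
  refine (isClosed_cl K S).mem_of_tendsto (summable_th h s).hasSum
    (Eventually.of_forall fun t => ?_)
  exact sum_mem fun m _ => (cl K S).smul_mem (mul_mem (prod_mem fun w _ => pow_mem (hv w) _)
    (prod_mem fun j _ => zpow_mem (ht j) _))

theorem on_vb (h : ξ.Ok R.B) : On R.B₀.pts fun s => rs k K (ξ.v s) := by
  refine (red_iff h.2.1 fun i => ⟨ξ.ς i, by rw [h.1 i, norm_one]⟩).1 fun f a hf hA => ?_
  obtain ⟨g, h1, h2⟩ := R.lift ξ.ς f a hf hA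
  have h3 := P1_lt h.2.1 h1
  rwa [map_sub, h2 Ω ξ.v h.2.2.1 h.1, zero_sub, norm_neg] at h3

theorem exists_chg (h : ξ.Ok R.B) {ς : ∀ i, R.Q.σ i} (h1 : ∀ i, ‖ξ.v ⟨i, ς i⟩‖ = 1) :
    ∃ ζ : EP Ω R.Q R.r, ζ.Ok R.B ∧ ζ.ς = ς ∧ (∀ s, ζ.v s = ξ.v s / ξ.v ⟨s.1, ς s.1⟩) ∧
      (∀ j, ‖ζ.t j‖ = ‖ξ.t j‖) ∧ Same (ζ.th R.c) (ξ.th R.c) := by
  obtain ⟨t, h2, h3⟩ := R.chg Ω ξ ς h h1
  have h0 : ∀ i, ξ.v ⟨i, ς i⟩ ≠ 0 := fun i => norm_ne_zero_iff.1 (h1 i ▸ one_ne_zero)
  refine ⟨⟨ς, fun s => ξ.v s / ξ.v ⟨s.1, ς s.1⟩, t⟩, ⟨fun i => div_self (h0 i), fun s => ?_,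
    h.2.2.1.same (same_norm h0), fun j => ?_⟩, rfl, fun _ => rfl, h2, h3⟩
  · change ‖ξ.v s / ξ.v ⟨s.1, ς s.1⟩‖ ≤ 1
    rw [norm_div, h1, div_one]
    exact h.2.1 s
  · exact norm_ne_zero_iff.1 ((h2 j).trans_ne (norm_ne_zero_iff.2 (h.2.2.2 j)))

theorem eq_of_same (h : ξ.Ok R.B) (h' : ζ.Ok R.B) (e : Same (ζ.th R.c) (ξ.th R.c))
    (en : ∀ j, ‖ζ.t j‖ = ‖ξ.t j‖) (ec : ζ.ς = ξ.ς) : ζ = ξ := by
  obtain ⟨⟨μ, -, h1⟩, h2⟩ := R.inj Ω ξ ζ h h' e en
  have h3 : ζ.v = ξ.v := funext fun s => by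
    have h4 := h1 ⟨s.1, ξ.ς s.1⟩
    rw [h.1, mul_one, ← ec, h'.1] at h4
    rw [h1, ← h4, one_mul]
  have h4 := h2 ec
  cases ζ
  cases ξ
  congr

theorem unit_of_same (h : ξ.Ok R.B) (h' : ζ.Ok R.B) (e : Same ζ.v ξ.v) :
    (∀ s, ‖ζ.v s‖ = ‖ξ.v s‖) ∧ Same (fun s => rs k K (ζ.v s)) fun s => rs k K (ξ.v s) := by
  obtain ⟨μ, -, h1⟩ := e
  have h2 : ∀ i, ‖μ i‖ = 1 := fun i => by
    have a := h'.2.1 ⟨i, ξ.ς i⟩
    rw [h1, h.1, mul_one] at a
    have b := congrArg norm (h1 ⟨i, ζ.ς i⟩)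
    rw [h'.1, norm_one, norm_mul] at b
    exact a.antisymm (b.trans_le (mul_le_of_le_one_right (norm_nonneg _) (h.2.1 _)))
  refine ⟨fun s => by rw [h1, norm_mul, h2, one_mul],
    fun i => rs k K (μ i), fun i => (rs_ne_zero (h2 i).le).2 (h2 i), fun s => ?_⟩
  change rs k K (ζ.v s) = rs k K (μ s.1) * rs k K (ξ.v s)
  rw [h1, rs_mul (h2 _).le (h.2.1 s)]

theorem crd_mem (h : ξ.Ok R.B) :
    (∀ s, ξ.v s ∈ cl K (rat (ξ.th R.c))) ∧ ∀ j, ξ.t j ∈ cl K (rat (ξ.th R.c)) := by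
  choose ς hς using (R.on Ω ξ h).1
  let S := cl K (rat (ξ.th R.c))
  let w : P.V → S := fun s =>
    ⟨ξ.th R.c s / ξ.th R.c ⟨s.1, ς s.1⟩, subset_cl _ ⟨s.1, s.2, ς s.1, rfl⟩⟩
  have hw : On X.pts w := (on_map S.val).1 ((R.on Ω ξ h).same (same_norm hς))
  have hS := iso_val (K := K) S
  have mp : ∀ {η η' : EP S R.Q R.r}, η.Ok R.B → η'.Ok R.B → Same (η.th R.c) (η'.th R.c) →
      Same ((η.map S.val).th R.c) ((η'.map S.val).th R.c) := fun a b c => by
    rw [funext (th_map a hS), funext (th_map b hS)]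
    exact c.map S.val
  obtain ⟨ζ, z1, z2⟩ := R.surj S w hw
  have z3 : Same ((ζ.map S.val).th R.c) (ξ.th R.c) := by
    rw [funext (th_map z1 hS)]
    exact (z2.map S.val).trans (same_norm hς)
  obtain ⟨⟨n, hn⟩, -⟩ := R.lat Ω _ ξ ((ok_map hS).2 z1) h z3.symm
  obtain ⟨η, y1, y2, y3⟩ := R.act S ζ n z1
  have y4 := (mp y1 z1 y2).trans z3
  have y5 : ∀ j, ‖(η.map S.val).t j‖ = ‖ξ.t j‖ := fun j => (y3 j).trans (hn j).symm
  have y6 := (unit_of_same h ((ok_map hS).2 y1)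
    (R.inj Ω ξ _ h ((ok_map hS).2 y1) y4 y5).1).1
  obtain ⟨θ, x1, x2, -, x3, x4⟩ := exists_chg y1 (ς := ξ.ς) fun i =>
    (y6 ⟨i, ξ.ς i⟩).trans (by rw [h.1, norm_one])
  have e := eq_of_same h ((ok_map hS).2 x1) ((mp x1 y1 x4).trans y4)
    (fun j => (x3 j).trans (y5 j)) x2
  refine ⟨fun s => ?_, fun j => ?_⟩
  · rw [show ξ.v s = (θ.v s).1 from (congrArg (fun z => EP.v z s) e).symm]
    exact (θ.v s).2
  · rw [show ξ.t j = (θ.t j).1 from (congrArg (fun z => EP.t z j) e).symm]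
    exact (θ.t j).2

theorem P1_le (h : ξ.Ok R.B) (h' : ζ.Ok R.B) (e : Same (ζ.th R.c) (ξ.th R.c)) :
    fld k (fun s => rs k K (ξ.v s)) ≤ fld k fun s => rs k K (ζ.v s) := by
  obtain ⟨-, b, -, hb⟩ := R.lat Ω ξ ζ h h' e
  have h1 := (red_iff ?_ ?_).1 hb
  · have e1 : (fun s => rs k K (Amb.elim (Amb.elim ζ.v
        fun s => algebraMap K Ω (algebraMap k K (rp b s))) ξ.v s)) =
        Amb.elim (Amb.elim (fun s => rs k K (ζ.v s)) fun s => algebraMap k (RF k K Ω) (rp b s))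
          fun s => rs k K (ξ.v s) := by
      funext s
      rcases s with ⟨(i | i) | i, s⟩
      exacts [rfl, rs_ak _, rfl]
    rw [e1, gph_eq] at h1
    refine ((fld_le (Crd.inr k (R.Q.sum R.Q) R.Q) _).trans_eq (on_graph R.A₀.sub h1).2.2).trans
      (IntermediateField.adjoin_le_iff.2 ?_)
    rintro _ ⟨i | i, s, t, rfl⟩
    · exact IntermediateField.subset_adjoin k _ ⟨i, s, t, rfl⟩
    · exact div_mem (IntermediateField.algebraMap_mem _ _) (IntermediateField.algebraMap_mem _ _)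
  · rintro ⟨(i | i) | i, s⟩
    exacts [h'.2.1 _, norm_ak_le k K _, h.2.1 _]
  · rintro ((i | i) | i)
    · exact ⟨ζ.ς i, (congrArg norm (h'.1 i)).trans norm_one⟩
    · obtain ⟨s, hs⟩ := Function.ne_iff.1 (b i).rep_nonzero
      exact ⟨s, norm_ak k K hs⟩
    · exact ⟨ξ.ς i, (congrArg norm (h.1 i)).trans norm_one⟩

theorem fld_of_same (h : ξ.Ok R.B) (h' : ζ.Ok R.B) (e : Same (ζ.th R.c) (ξ.th R.c)) :
    fld k (fun s => rs k K (ζ.v s)) = fld k fun s => rs k K (ξ.v s) :=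
  le_antisymm (P1_le h' h e.symm) (P1_le h h' e)

end

end Pool.Agent.Work.MP_ffcd14_ag.Ry
end

-- merged part: Pool.Agent.Work.MP_ffcd14_ag.Ry.N1
section
/-!
# The grading of `NN X`, effective classes, the Hodge index theorem

Library: `Chw/C0`, `A`, `B`, `H`, `N` (`N_q`, `N_surj`, `N_cod`, `gr_eq`, `spn_top`, `cyC_gr`,
`CR.mul_gr`, `tauC_gr`, `tauC_pt`, `divC`, `mu_pos`, `num2_form`), `Chw/Red` (`NI.red`), `Cyc/HI`.
Plan.  `ng_ind`, `nn_ind`: span induction (`gr_eq`, `spn_top`).  `ng_pd`: `nt_pd`, `nn_ind`,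
`nt_ng`.  `ng_top`: `ng_pd`; the only prime of dimension `X.dim` is `X.tp` (`eq_of_sdim_le`).
`mem_ng`: write `x` as a finite sum of homogeneous components (`exists_cmp`); those of degree
`≠ c` vanish by `ng_pd`.  `ny_mul_nh`: `divC` for a form which does not vanish on `W`
(`num2_form`), with the finite set of the primes of positive multiplicity (as in `exists_div`).
`dominate`: induction on `c`; `exists_cover_up` gives `W ≤ T ⊆ X` with `sdim T = sdim W + 1`;
there is a form of degree `n • a`, `n > 0`, which vanishes on `W` and not on `T` (multiply a form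
of `idl W`, not in `idl T`, by a form from `num2_form`), so `ny T * nh (n • a) - ny W` is effective
(`divC`, `mu_pos`).  `hodge_index`, `rcs_nh`, `rcs_ny`: transport along the map `e` of
`(N_NI k).red` (see `ny_pos`; `e` is injective by `nt_pd`, and maps `ng X c` onto `AA C X c` by
`AA_eq_CS`), then `hi_strict`, `rcsA`; for `rcs_ny`: `div_span`, `n_iso` and `rcs_pure` with `m = 0`.
-/

namespace Pool.Agent.Work.MP_ffcd14_ag.Ry

open MvPolynomial Filter Topology MP_10f4af_ag MP_10f4af_ag.Nu Tr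

set_option linter.unusedSectionVars false

universe u

variable {k : Type u} [Field k] [IsAlgClosed k] {P Q S : Amb} {X : SV k P} {Y : SV k Q}
  {Z : SV k S}

theorem ng_mul {a b : ℕ} {x y : NN X} (hx : x ∈ ng X a) (hy : y ∈ ng X b) :
    x * y ∈ ng X (a + b) := by
  obtain ⟨x, h1, rfl⟩ := hx
  obtain ⟨y, h2, rfl⟩ := hy
  exact ⟨x * y, CR.mul_gr h1 h2, map_mul (N_q X) x y⟩

theorem ng_one : (1 : NN X) ∈ ng X 0 := by
  exact ⟨1, CR.one_gr, map_one (N_q X)⟩

theorem ng_pow {c : ℕ} {x : NN X} (hx : x ∈ ng X c) (n : ℕ) : x ^ n ∈ ng X (n * c) := by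
  induction n with
  | zero => simpa using ng_one
  | succ n ih => simpa only [pow_succ, Nat.succ_mul] using ng_mul ih hx

theorem nt_ng {c : ℕ} {x : NN X} (hx : x ∈ ng X c) (hc : c ≠ X.dim) : nt X x = 0 := by
  obtain ⟨x, h, rfl⟩ := hx
  exact tauC_gr h hc

theorem ny_ng {W : Sub k P} (hW : (W : Set (P.Pt k)) ⊆ X.pts) {c : ℕ} (hc : sdim W + c = X.dim) :
    ny X W ∈ ng X c := by
  exact ⟨_, cyC_gr hW hc, rfl⟩

theorem ny_ng' {W : Sub k P} (hW : (W : Set (P.Pt k)) ⊆ X.pts) :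
    ∃ c, sdim W + c = X.dim ∧ ny X W ∈ ng X c := by
  have h := Nat.add_sub_cancel' (X.toVar.sdim_le X.irr hW)
  exact ⟨_, h, ny_ng hW h⟩

theorem ny_top : ny X X.tp = 1 := by
  exact (congrArg (N_q X) (cyC_top X)).trans (map_one _)

theorem nt_pt {y : P.Pt k} (hy : y ∈ X.pts) : nt X (ny X {y}) = 1 := by
  exact tauC_pt (V := {y}) (Set.singleton_subset_iff.2 hy) (sdim_pt y)

theorem nh_ng (a : P.ι →₀ ℕ) : nh X a ∈ ng X 1 := by
  exact ⟨_, sum_mem fun i _ => nsmul_mem (hyC_gr X i) _, rfl⟩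

theorem nh_add (a b : P.ι →₀ ℕ) : nh X (a + b) = nh X a + nh X b := by
  rw [nh, H_add, map_add]
  rfl

theorem nh_smul (n : ℕ) (a : P.ι →₀ ℕ) : nh X (n • a) = (n : ℚ) • nh X a := by
  induction n with
  | zero => simp [nh, lin]
  | succ n ih => rw [succ_nsmul, nh_add, ih, Nat.cast_succ, add_smul, one_smul]

theorem ng_ind {c : ℕ} {p : NN X → Prop}
    (mem : ∀ W : Sub k P, (W : Set (P.Pt k)) ⊆ X.pts → sdim W + c = X.dim → p (ny X W)) (zero : p 0)
    (add : ∀ x y, x ∈ ng X c → y ∈ ng X c → p x → p y → p (x + y))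
    (smul : ∀ (q : ℚ) x, x ∈ ng X c → p x → p (q • x)) {x : NN X} (hx : x ∈ ng X c) : p x := by
  have h := N_cod.2 hx
  clear hx
  induction h using Submodule.span_induction with
  | mem x h =>
    obtain ⟨W, h1, h2, rfl⟩ := h
    exact mem W h1 h2
  | zero => exact zero
  | add x y h1 h2 k1 k2 => exact add x y (N_cod.1 h1) (N_cod.1 h2) k1 k2
  | smul q x h1 k1 => exact smul q x (N_cod.1 h1) k1

theorem nn_ind {p : NN X → Prop} (mem : ∀ W : Sub k P, (W : Set (P.Pt k)) ⊆ X.pts → p (ny X W))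
    (zero : p 0) (add : ∀ x y, p x → p y → p (x + y)) (smul : ∀ (q : ℚ) x, p x → p (q • x))
    (x : NN X) : p x := by
  obtain ⟨x, rfl⟩ := N_surj x
  refine Submodule.span_induction (p := fun x _ => p x) ?_ zero (fun x y _ _ => add x y)
    (fun q x _ => smul q x) (N_spn.2 ⟨x, spn_top x, rfl⟩)
  rintro _ ⟨W, h1, -, rfl⟩
  exact mem W h1

theorem ng_iSup : ⨆ c, ng X c = ⊤ := by
  refine eq_top_iff.2 fun x _ => nn_ind (p := (· ∈ ⨆ c, ng X c)) (fun W hW => ?_) (zero_mem _)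
    (fun _ _ => add_mem) (fun q _ => Submodule.smul_mem _ q) x
  obtain ⟨c, -, h⟩ := ny_ng' hW
  exact Submodule.mem_iSup_of_mem c h

theorem ng_gt {c : ℕ} {x : NN X} (hx : x ∈ ng X c) (hc : X.dim < c) : x = 0 := by
  obtain ⟨x, h, rfl⟩ := hx
  rw [CR.gr_gt hc h, map_zero]

theorem ng_zero {x : NN X} (hx : x ∈ ng X 0) : ∃ q : ℚ, x = q • (1 : NN X) := by
  obtain ⟨x, h, rfl⟩ := hx
  obtain ⟨q, rfl⟩ := CR.gr_zero h
  exact ⟨q, (map_smul (N_q X) q 1).trans (congrArg _ (map_one _))⟩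

theorem nn_ext {x y : NN X}
    (h : ∀ W : Sub k P, (W : Set (P.Pt k)) ⊆ X.pts → nt X (ny X W * x) = nt X (ny X W * y)) :
    x = y := by
  refine sub_eq_zero.1 (nt_pd fun z => ?_)
  rw [mul_comm, mul_sub, map_sub, sub_eq_zero]
  refine nn_ind (p := fun z => nt X (z * x) = nt X (z * y)) h (by simp only [zero_mul])
    (fun a b ha hb => ?_) (fun q a ha => ?_) z
  · rw [add_mul, add_mul, map_add, map_add, ha, hb]
  · rw [smul_mul_assoc, smul_mul_assoc, map_smul, map_smul, ha]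

theorem ng_pd {c : ℕ} {x : NN X} (hx : x ∈ ng X c)
    (h : ∀ W : Sub k P, (W : Set (P.Pt k)) ⊆ X.pts → sdim W = c → nt X (ny X W * x) = 0) :
    x = 0 := by
  refine nn_ext fun W hW => ?_
  rw [mul_zero, map_zero]
  obtain ⟨d, h1, h2⟩ := ny_ng' hW
  by_cases e : sdim W = c
  · exact h W hW e
  · exact nt_ng (ng_mul h2 hx) (by omega)

theorem ng_top {x : NN X} (hx : x ∈ ng X X.dim) {y : P.Pt k} (hy : y ∈ X.pts) :
    x = nt X x • ny X {y} := by
  refine sub_eq_zero.1 (ng_pd (sub_mem hx (Submodule.smul_mem _ _ (ny_ng (W := {y})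
    (Set.singleton_subset_iff.2 hy) (by rw [sdim_pt, zero_add])))) fun W hW h => ?_)
  rw [eq_of_sdim_le (U := W) (Z := X.tp) hW (X.sdim_tp.trans h.symm).le, ny_top, one_mul, map_sub,
    map_smul, nt_pt hy, smul_eq_mul, mul_one, sub_self]

theorem exists_cmp (x : NN X) :
    ∃ s : ℕ → NN X, (∀ c, s c ∈ ng X c) ∧ x = ∑ c ∈ Finset.range (X.dim + 1), s c := by
  induction x using nn_ind with
  | mem W hW =>
    obtain ⟨c, h1, h2⟩ := ny_ng' hW
    refine ⟨fun d => if d = c then ny X W else 0, fun d => ?_, ?_⟩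
    · dsimp only
      split_ifs with e
      exacts [e ▸ h2, zero_mem _]
    · rw [Finset.sum_ite_eq', if_pos (Finset.mem_range.2 (by omega))]
  | zero => exact ⟨0, fun _ => zero_mem _, by simp⟩
  | add x y hx hy =>
    obtain ⟨s, h1, rfl⟩ := hx
    obtain ⟨t, h2, rfl⟩ := hy
    exact ⟨s + t, fun c => add_mem (h1 c) (h2 c), Finset.sum_add_distrib.symm⟩
  | smul q x hx =>
    obtain ⟨s, h1, rfl⟩ := hx
    exact ⟨q • s, fun c => Submodule.smul_mem _ q (h1 c), Finset.smul_sum⟩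

theorem mem_ng {x : NN X} {c : ℕ}
    (h : ∀ W : Sub k P, (W : Set (P.Pt k)) ⊆ X.pts → sdim W ≠ c → nt X (ny X W * x) = 0) :
    x ∈ ng X c := by
  obtain ⟨s, h1, rfl⟩ := exists_cmp x
  refine sum_mem fun d hd => ?_
  rcases eq_or_ne d c with rfl | e
  · exact h1 d
  rw [ng_pd (h1 d) fun W hW hW' => ?_]
  · exact zero_mem _
  obtain ⟨b, h2, h3⟩ := ny_ng' hW
  rw [← h W hW (hW' ▸ e), Finset.mul_sum, map_sum,
    Finset.sum_eq_single_of_mem d hd fun a _ ha => nt_ng (ng_mul h3 (h1 a)) (by omega)]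

theorem ny_Eff {W : Sub k P} (hW : (W : Set (P.Pt k)) ⊆ X.pts) {c : ℕ} (hc : sdim W + c = X.dim) :
    ny X W ∈ Eff X c := by
  exact AddSubmonoid.subset_closure ⟨1, W, zero_le_one, hW, hc, (one_smul _ _).symm⟩

theorem Eff_ng {c : ℕ} {x : NN X} (hx : x ∈ Eff X c) : x ∈ ng X c := by
  refine (AddSubmonoid.closure_le (S := (ng X c).toAddSubmonoid)).2 ?_ hx
  rintro _ ⟨q, W, -, h1, h2, rfl⟩
  exact Submodule.smul_mem _ q (ny_ng h1 h2)

theorem Eff_smul {c : ℕ} {x : NN X} (hx : x ∈ Eff X c) {q : ℚ} (hq : 0 ≤ q) : q • x ∈ Eff X c := by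
  induction hx using AddSubmonoid.closure_induction with
  | mem x h =>
    obtain ⟨r, W, h0, h1, h2, rfl⟩ := h
    exact AddSubmonoid.subset_closure ⟨q * r, W, mul_nonneg hq h0, h1, h2, smul_smul _ _ _⟩
  | zero => rw [smul_zero]; exact zero_mem _
  | add x y _ _ hx hy => rw [smul_add]; exact add_mem hx hy

theorem ng_Eff {c : ℕ} {x : NN X} (hx : x ∈ ng X c) :
    ∃ y ∈ Eff X c, ∃ z ∈ Eff X c, x = y - z := by
  refine ng_ind (p := fun x => ∃ y ∈ Eff X c, ∃ z ∈ Eff X c, x = y - z)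
    (fun W h1 h2 => ⟨_, ny_Eff h1 h2, 0, zero_mem _, (sub_zero _).symm⟩)
    ⟨0, zero_mem _, 0, zero_mem _, (sub_zero _).symm⟩ ?_ ?_ hx
  · rintro _ _ - - ⟨y, hy, z, hz, rfl⟩ ⟨y', hy', z', hz', rfl⟩
    exact ⟨_, add_mem hy hy', _, add_mem hz hz', (add_sub_add_comm _ _ _ _).symm⟩
  · rintro q _ - ⟨y, hy, z, hz, rfl⟩
    rcases le_total 0 q with h | h
    · exact ⟨_, Eff_smul hy h, _, Eff_smul hz h, smul_sub _ _ _⟩
    · exact ⟨_, Eff_smul hz (neg_nonneg.2 h), _, Eff_smul hy (neg_nonneg.2 h), by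
        rw [neg_smul, neg_smul, neg_sub_neg, smul_sub]⟩

/-- An effective class is a finite sum. -/
theorem Eff_sum {c : ℕ} {x : NN X} (hx : x ∈ Eff X c) : ∃ (s : Finset (Sub k P)) (q : Sub k P → ℚ),
    (∀ W ∈ s, 0 < q W ∧ (W : Set (P.Pt k)) ⊆ X.pts ∧ sdim W + c = X.dim) ∧
      x = ∑ W ∈ s, q W • ny X W := by
  classical
  suffices h : ∃ f : Sub k P →₀ ℚ, 0 ≤ f ∧
      (∀ W ∈ f.support, (W : Set (P.Pt k)) ⊆ X.pts ∧ sdim W + c = X.dim) ∧
        x = f.sum fun W q => q • ny X W by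
    obtain ⟨f, h0, h1, h2⟩ := h
    exact ⟨f.support, f, fun W hW =>
      ⟨(h0 W).lt_of_ne' (Finsupp.mem_support_iff.1 hW), h1 W hW⟩, h2⟩
  induction hx using AddSubmonoid.closure_induction with
  | mem x h =>
    obtain ⟨r, W, h0, h1, h2, rfl⟩ := h
    refine ⟨Finsupp.single W r, Finsupp.single_nonneg.2 h0, fun U hU => ?_,
      (Finsupp.sum_single_index (h := fun W (q : ℚ) => q • ny X W) (zero_smul _ _)).symm⟩
    rw [Finset.mem_singleton.1 (Finsupp.support_single_subset hU)]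
    exact ⟨h1, h2⟩
  | zero => exact ⟨0, le_rfl, by simp, rfl⟩
  | add x y _ _ hx hy =>
    obtain ⟨f, h0, h1, rfl⟩ := hx
    obtain ⟨g, k0, k1, rfl⟩ := hy
    exact ⟨f + g, add_nonneg h0 k0,
      fun U hU => (Finset.mem_union.1 (Finsupp.support_add hU)).elim (h1 U) (k1 U),
      (Finsupp.sum_add_index' (h := fun W (q : ℚ) => q • ny X W) (fun _ => zero_smul _ _)
        fun _ _ _ => add_smul _ _ _).symm⟩

theorem nt_Eff {c : ℕ} {x : NN X} (hx : x ∈ Eff X c) : 0 ≤ nt X x := by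
  induction hx using AddSubmonoid.closure_induction with
  | mem x h =>
    obtain ⟨r, W, h0, h1, h2, rfl⟩ := h
    rw [map_smul]
    refine mul_nonneg h0 ?_
    by_cases e : sdim W = 0
    · exact zero_le_one.trans_eq (tauC_pt h1 e).symm
    · exact (nt_ng (ny_ng h1 h2) (by omega)).ge
  | zero => exact (map_zero _).ge
  | add x y _ _ hx hy => rw [map_add]; exact add_nonneg hx hy

theorem N1_div {W : Sub k P} (hW : (W : Set (P.Pt k)) ⊆ X.pts) {f : MvPolynomial P.V k}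
    {a : P.ι →₀ ℕ} (hf : IsForm f a) (h : ¬ Van (W : Set (P.Pt k)) f) :
    ∃ s : Finset (Sub k P), (∀ T, T ∈ s ↔ 0 < mu W T f) ∧
      ny X W * nh X a = ∑ T ∈ s, (mu W T f : ℚ) • ny X T := by
  have hfin : {T | 0 < mu W T f}.Finite := (finite_comp (cut [f] (cS W))).subset fun T hT => by
    rw [Set.mem_ofPred_eq, H_coeff hf h, Nat.cast_ne_zero]
    exact Nat.ne_of_gt hT
  refine ⟨hfin.toFinset, fun T => hfin.mem_toFinset, ?_⟩
  rw [ny, nh, ← map_mul, divC hW hf h _ fun T hT => hfin.mem_toFinset.2 hT, map_sum]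
  exact Finset.sum_congr rfl fun T _ => map_smul _ _ _

theorem Eff_mul_nh {c : ℕ} {x : NN X} (hx : x ∈ Eff X c) (a : P.ι →₀ ℕ) :
    x * nh X a ∈ Eff X (c + 1) := by
  induction hx using AddSubmonoid.closure_induction with
  | mem x h =>
    obtain ⟨r, W, h0, h1, h2, rfl⟩ := h
    obtain ⟨f, hf, h3⟩ := num2_form W a
    obtain ⟨s, h4, h5⟩ := N1_div h1 hf h3
    rw [smul_mul_assoc, h5]
    refine Eff_smul (sum_mem fun T hT => ?_) h0
    obtain ⟨h6, h7, -⟩ := (mu_pos hf h3 T).1 ((h4 T).1 hT)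
    exact Eff_smul (ny_Eff (Set.Subset.trans h6 h1) (by omega)) (Nat.cast_nonneg _)
  | zero => rw [zero_mul]; exact zero_mem _
  | add x y _ _ hx hy => rw [add_mul]; exact add_mem hx hy

theorem nh_Eff (a : P.ι →₀ ℕ) : nh X a ∈ Eff X 1 := by
  simpa only [ny_top, one_mul, zero_add] using
    Eff_mul_nh (ny_Eff (X := X) (W := X.tp) (c := 0) subset_rfl X.sdim_tp) a

theorem nh_pos {a : P.ι →₀ ℕ} (ha : ∀ i, 0 < a i) : 0 < nt X (nh X a ^ X.dim) := by
  simpa only [ny_top, one_mul, X.sdim_tp] using ny_pos (X := X) (W := X.tp) subset_rfl ha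

theorem N1_dom {a : P.ι →₀ ℕ} (ha : ∀ i, 0 < a i) (c : ℕ) {W : Sub k P}
    (hW : (W : Set (P.Pt k)) ⊆ X.pts) (hc : sdim W + c = X.dim) :
    ∃ C : ℚ, 0 ≤ C ∧ C • nh X a ^ c - ny X W ∈ Eff X c := by
  classical
  have hd := X.sdim_tp
  induction c generalizing W with
  | zero =>
    rw [eq_of_sdim_le (U := W) (Z := X.tp) hW (by omega), ny_top]
    exact ⟨1, zero_le_one, by rw [pow_zero, one_smul, sub_self]; exact zero_mem _⟩
  | succ c ih =>
    obtain ⟨T, h1, h2, h3⟩ := exists_cover_up (lt_of_le_of_ne (show W ≤ X.tp from hW) fun e => by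
      rw [e] at hc
      omega)
    obtain ⟨C, h4, h5⟩ := ih h2 (by omega)
    obtain ⟨n, g, -, hg, h6, h7⟩ := exists_form_van W.isClosed (Set.finite_singleton T) (by
      rintro U rfl e
      have := sdim_mono (U := U) (Z := W) e
      omega) ha
    obtain ⟨s, h8, h9⟩ := N1_div h2 hg (h7 T rfl)
    have k1 := (mu_pos hg (h7 T rfl) W).2 ⟨h1, h3, h6⟩
    have k2 : ny X T * nh X (n • a) - ny X W ∈ Eff X (c + 1) := by
      rw [h9, ← Finset.add_sum_erase s _ ((h8 W).2 k1), add_sub_right_comm]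
      refine add_mem ?_ (sum_mem fun U hU => ?_)
      · simpa only [sub_smul, one_smul] using Eff_smul (ny_Eff hW hc)
          (sub_nonneg.2 (Nat.one_le_cast.2 k1 : (1 : ℚ) ≤ mu T W g))
      · obtain ⟨k3, k4, -⟩ := (mu_pos hg (h7 T rfl) U).1 ((h8 U).1 (Finset.mem_of_mem_erase hU))
        exact Eff_smul (ny_Eff (Set.Subset.trans k3 h2) (by omega)) (Nat.cast_nonneg _)
    refine ⟨n * C, mul_nonneg (Nat.cast_nonneg n) h4, ?_⟩
    have k3 := add_mem (Eff_mul_nh h5 (n • a)) k2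
    rwa [sub_mul, sub_add_sub_cancel, nh_smul, mul_smul_comm, smul_mul_assoc, smul_smul,
      ← pow_succ] at k3

theorem dominate {a : P.ι →₀ ℕ} (ha : ∀ i, 0 < a i) {c : ℕ} {x : NN X} (hx : x ∈ Eff X c) :
    ∃ C : ℚ, 0 ≤ C ∧ C • nh X a ^ c - x ∈ Eff X c := by
  induction hx using AddSubmonoid.closure_induction with
  | mem x h =>
    obtain ⟨r, W, h0, h1, h2, rfl⟩ := h
    obtain ⟨C, h3, h4⟩ := N1_dom ha c h1 h2
    exact ⟨r * C, mul_nonneg h0 h3, by simpa only [smul_sub, smul_smul] using Eff_smul h4 h0⟩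
  | zero => exact ⟨0, le_rfl, by simpa only [zero_smul, sub_zero] using zero_mem _⟩
  | add x y _ _ hx hy =>
    obtain ⟨C, h1, h2⟩ := hx
    obtain ⟨D, h3, h4⟩ := hy
    exact ⟨C + D, add_nonneg h1 h3, by
      simpa only [add_smul, add_sub_add_comm] using add_mem h2 h4⟩

variable (X) in
theorem N1_red : ∃ C : NT.{u, 0, u} k ℚ, C.Cyc ∧ ∃ e : NN X →ₐ[ℚ] EE C X.toVar,
    (∀ x, tau C _ (e x) = nt X x) ∧ (∀ V, e (ny X V) = cy C _ V) ∧
      (∀ a, e (nh X a) = ln C _ a) ∧ ∀ {c x}, x ∈ ng X c → e x ∈ AA C _ c := by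
  obtain ⟨C, hC, h⟩ := (N_NI k).red
  obtain ⟨e, -, e1, e2, e3⟩ := h X
  refine ⟨C, hC.cyc, e, e1, e2, fun a => ?_, fun {c x} hx => ?_⟩
  · rw [nh, ← N_lin]
    refine (map_sum e _ _).trans (Finset.sum_congr rfl fun i _ => ?_)
    exact (map_nsmul e _ _).trans (congrArg _ (e3 i))
  · rw [AA_eq_CS C _ X.irr]
    refine (Submodule.span_le (p := (CS C X.toVar fun U => sdim U + c = X.dim).comap
      e.toLinearMap)).2 ?_ (N_cod.2 hx)
    rintro _ ⟨U, h1, h2, rfl⟩
    exact Submodule.subset_span ⟨U, h1, h2, e2 U⟩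

theorem hodge_index {m : ℕ} (hm : m + 2 = X.dim) {a : P.ι →₀ ℕ} (ha : ∀ i, 0 < a i) {D : NN X}
    (hD : D ∈ ng X 1) (h1 : nt X (nh X a ^ (m + 1) * D) = 0) (h2 : nt X (nh X a ^ m * D * D) = 0) :
    D = 0 := by
  obtain ⟨C, hC, e, e1, -, e3, e4⟩ := N1_red X
  have h := hi_strict hC X.toVar X.irr m hm ha (e4 hD)
    (by rwa [← e3, ← map_pow, ← map_mul, e1]) (by rwa [← e3, ← map_pow, ← map_mul, ← map_mul, e1])
  refine nn_ext fun W hW => ?_
  obtain ⟨c, -, h3⟩ := ny_ng' hW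
  rw [mul_zero, map_zero, ← e1, mul_comm, map_mul]
  exact h c _ (e4 h3)

theorem rcs_nh {m : ℕ} (hm : m + 2 = X.dim) (a : P.ι →₀ ℕ) :
    RCS (nt X) (ng X 1) (nh X a ^ m) := by
  obtain ⟨C, hC, e, e1, -, e3, e4⟩ := N1_red X
  intro y hy z hz
  have h := rcsA hC X.toVar X.irr (List.replicate m a) (by rwa [List.length_replicate]) _ (e4 hy)
    _ (e4 hz)
  simpa only [HI_lp, ← e3, ← map_pow, ← map_mul, e1] using h

theorem rcs_ny {W : Sub k P} (hW : (W : Set (P.Pt k)) ⊆ X.pts) (h : sdim W = 2) :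
    RCS (nt X) (ng X 1) (ny X W) := by
  obtain ⟨C, hC, e, e1, e2, -, e4⟩ := N1_red X
  intro y hy z hz
  obtain ⟨P', Ω, π, ψ, h1, -, h3, h4⟩ := div_span hC X.toVar X.irr (κ := Bool)
    (fun b => cond b (e y) (e z)) (by rintro (_ | _); exacts [e4 hz, e4 hy])
  let T : Sub k P' := (X.toVar.res W hW).map (fun x => (ψ.toFun x).1)
    (continuous_subtype_val.comp ψ.continuous)
  have k0 : ∀ x, π.pr (ψ.toFun x).1 = x.1 := fun x => congrArg Subtype.val (h1.2 x)
  have k1 : (T : Set (P'.Pt k)) ⊆ Ω.pts :=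
    closure_minimal (by rintro _ ⟨x, -, rfl⟩; exact (ψ.toFun x).2) Ω.closed
  have k2 : π.img T = W := le_antisymm
    ((π.img_sub W.isClosed).2 (closure_minimal (t := π.pr ⁻¹' W)
      (by rintro _ ⟨x, hx, rfl⟩; exact Set.mem_of_eq_of_mem (s := W) (k0 x) hx)
      (W.isClosed.preimage π.continuous)))
    fun x hx => Set.mem_of_eq_of_mem (k0 ⟨x, hW hx⟩).symm
      (π.mem_img (subset_closure ⟨⟨x, hW hx⟩, hx, rfl⟩))
  obtain ⟨n, hn, k3⟩ := n_iso hC h3 X.irr π ψ h1 k1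
  have k4 := rcs_pure hC Ω k1 0 (by rw [← n_iso1 π ψ h1 k1, k2, h]) 0 _ (h4 true) _ (h4 false)
  simp only [cond, pow_zero, one_mul, nm_apply, k3, k2, smul_mul_assoc, map_smul, ← e2, ← map_mul,
    tau_iso C π ψ X.irr h1, e1, smul_eq_mul, ← mul_assoc] at k4
  have k5 : (0 : ℚ) < n := Nat.cast_pos.2 hn
  intro h0
  refine le_of_mul_le_mul_left ?_ (mul_pos k5 k5)
  linarith [k4 (mul_pos k5 h0)]

end Pool.Agent.Work.MP_ffcd14_ag.Ry
end

-- merged part: Pool.Agent.Work.MP_ffcd14_ag.Ry.N2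
section
/-!
# Pull-back along morphisms

Library: `(N_NI k).pl_comp`, `pl_id`, `pl_hy`, `AA_pl`, `pushC`, `Tr/G1` (`img_gl`, `deg_gl`,
`sdim_gl`, `mem_gl`), `Tr/G3` (`G3_pull`, `G3_deg`), `Pd.mul_pl_pl`, `plP_cyC`, `psP_mul`.
Plan.  `pl_hpl`: `χ = π.pair ρ` is a `Prj` to `gS φ`, and `pl_comp` twice, `hpl_spec`.
`hpl_prj`, `hpl_congr`, `hpl_comp` follow from `pl_hpl` and the injectivity of `N_pl (g1 _)`
(for `hpl_comp` take `Ω = gS (pairH φ (ψ.comp φ))`).  `pl_g1`: `G3_pull` gives a multiple of the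
class, the factor is `1` by `pushC`, `deg_gl`, `img_gl`, `ny_pos`.  `tau_hpl`: `nt_g1`, `pl_g1`,
`pushC`.  `hpl_ng`: `mem_ng`, `tau_hpl` (`dgH_ne`), `nt_ng`.  `dgH_inj`: both projections of the
graph have degree one (the graph of `φ` on `W` is the transposed graph of `ψ` on the image; or use
`deg_iso`-like arguments with a generic point: `deg_eq`, `fun_exists`, `fun_unique`).
`hpl_inv`: test with `hpl φ z`, `tau_hpl` for `ψ`.  `hpl_restr`: test with `z`, write
`z * hpl φ u = hpl (pairH (idH X) φ) (hpl p1 z * hpl p2 u)`, and `gl` only depends on the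
restriction to `W`.  `ny_xp`: `N_pl` of a projection of a product is `plP` modulo numerical
equivalence (`pushC`, `psP_cyC`, `psP_mul`, `tauC_psP`), then as `pull_xp` in `Tr/G2`.
`exists_nps`: `psC (g2 φ) (plC (g1 φ) x)`, `adj`.
-/

namespace Pool.Agent.Work.MP_ffcd14_ag.Ry

open MvPolynomial Filter Topology MP_10f4af_ag MP_10f4af_ag.Nu Tr

set_option linter.unusedSectionVars false

universe u

variable {k : Type u} [Field k] [IsAlgClosed k] {P Q S : Amb} {X : SV k P} {Y : SV k Q}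
  {Z : SV k S}

theorem N2_comp (ρ : Prj X.toVar Y.toVar) (π : Prj Y.toVar Z.toVar) (χ : Prj X.toVar Z.toVar)
    (h : ∀ x ∈ X.pts, χ.pr x = π.pr (ρ.pr x)) (z : NN Z) : N_pl χ z = N_pl ρ (N_pl π z) :=
  (N_NI k).pl_comp ρ π χ h z

theorem N2_push (π : Prj X.toVar Y.toVar) {V : Sub k P} (hV : (V : Set (P.Pt k)) ⊆ X.pts)
    (y : NN Y) : nt X (ny X V * N_pl π y) =
      deg π.ε (idl (V : Set (P.Pt k))) * nt Y (ny Y (π.img V) * y) := by
  obtain ⟨y, rfl⟩ := N_surj y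
  rw [N_pl_q, ny, ny, ← map_mul, ← map_mul, N_tau_q, N_tau_q]
  exact pushC π hV y

theorem N2_ng (π : Prj X.toVar Y.toVar) {c : ℕ} {y : NN Y} (hy : y ∈ ng Y c) :
    N_pl π y ∈ ng X c := by
  obtain ⟨y, h, rfl⟩ := hy
  exact ⟨_, plC_gr π h, rfl⟩

theorem N2_nh (π : Prj X.toVar Y.toVar) (a : Q.ι →₀ ℕ) :
    N_pl π (nh Y a) = nh X (a.mapDomain π.ψ) := by
  rw [nh, nh, N_pl_q]
  refine congrArg (N_q X) ?_
  rw [lin, lin, map_finsuppSum,
    Finsupp.sum_mapDomain_index (h := fun i n => n • hyC X i) (fun _ => zero_smul _ _)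
      fun _ _ _ => add_smul _ _ _]
  simp only [map_nsmul, plC_hyC]

theorem N2_one (P : Amb) : ∃ a : P.ι →₀ ℕ, ∀ i, 0 < a i :=
  ⟨Finsupp.equivFunOnFinite.symm fun _ => 1, fun _ => by simp⟩

theorem pl_hpl {P' : Amb} {Ω : SV k P'} (φ : Hom X.toVar Y.toVar) (π : Prj Ω.toVar X.toVar)
    (ρ : Prj Ω.toVar Y.toVar) (h : ∀ z, φ.toFun (π.hom.toFun z) = ρ.hom.toFun z) (y : NN Y) :
    N_pl π (hpl φ y) = N_pl ρ y := by
  let χ : Prj Ω.toVar (gS φ).toVar := ⟨π.toCrd.pair ρ.toCrd, fun z hz =>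
    ⟨π.maps z hz, congrArg Subtype.val (h ⟨z, hz⟩)⟩⟩
  rw [N2_comp χ (g1 φ) π fun _ _ => rfl, hpl_spec, ← N2_comp χ (g2 φ) ρ fun _ _ => rfl]

theorem hpl_prj (π : Prj X.toVar Y.toVar) (y : NN Y) : hpl π.hom y = N_pl π y := by
  let ρ : Prj X.toVar X.toVar := ⟨Crd.refl k P, fun _ h => h⟩
  exact ((N_NI k).pl_id ρ (fun _ _ => rfl) _).symm.trans (pl_hpl π.hom ρ π (fun _ => rfl) y)

theorem hpl_congr {φ ψ : Hom X.toVar Y.toVar} (h : ∀ x, φ.toFun x = ψ.toFun x) :
    hpl φ = hpl ψ := by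
  obtain ⟨f, hf⟩ := φ
  obtain ⟨g, hg⟩ := ψ
  obtain rfl : f = g := funext h
  rfl

theorem hpl_comp (φ : Hom X.toVar Y.toVar) (ψ : Hom Y.toVar Z.toVar) (z : NN Z) :
    hpl (ψ.comp φ) z = hpl φ (hpl ψ z) := by
  let Φ := pairH φ (ψ.comp φ)
  let π₁ : Prj (gS Φ).toVar Y.toVar := ⟨(Crd.inl k Q S).comp (Crd.inr k P _), fun w hw =>
    (mem_prod.1 ((g2 Φ).maps w hw)).1⟩
  let π₂ : Prj (gS Φ).toVar Z.toVar := ⟨(Crd.inr k Q S).comp (Crd.inr k P _), fun w hw =>
    (mem_prod.1 ((g2 Φ).maps w hw)).2⟩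
  have h1 : ∀ w, φ.toFun ((g1 Φ).hom.toFun w) = π₁.hom.toFun w := fun w =>
    Subtype.ext (congrArg fst w.2.choose_spec)
  have h2 : ∀ w, (ψ.comp φ).toFun ((g1 Φ).hom.toFun w) = π₂.hom.toFun w := fun w =>
    Subtype.ext (congrArg snd w.2.choose_spec)
  refine (g1_bij Φ).1 ?_
  rw [pl_hpl _ _ π₂ h2, pl_hpl _ _ π₁ h1, pl_hpl ψ π₁ π₂ fun w => by rw [← h1]; exact h2 w]

theorem hpl_comp' (φ : Hom X.toVar Y.toVar) (ψ : Hom Y.toVar Z.toVar) (χ : Hom X.toVar Z.toVar)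
    (h : ∀ x, ψ.toFun (φ.toFun x) = χ.toFun x) (z : NN Z) : hpl φ (hpl ψ z) = hpl χ z := by
  rw [← hpl_comp, hpl_congr (φ := ψ.comp φ) (ψ := χ) h]

theorem hpl_id (x : NN X) : hpl (idH X) x = x := by
  let ρ : Prj X.toVar X.toVar := ⟨Crd.refl k P, fun _ h => h⟩
  rw [hpl_congr (φ := idH X) (ψ := ρ.hom) fun _ => rfl, hpl_prj]
  exact (N_NI k).pl_id ρ (fun _ _ => rfl) x

theorem hpl_nh (π : Prj X.toVar Y.toVar) (a : Q.ι →₀ ℕ) :
    hpl π.hom (nh Y a) = nh X (a.mapDomain π.ψ) := by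
  rw [hpl_prj, N2_nh]

theorem N2_gl (φ : Hom X.toVar Y.toVar) {W : Sub k P} (hW : (W : Set (P.Pt k)) ⊆ X.pts) :
    (gl φ W hW : Set ((P.sum Q).Pt k)) ⊆ (gS φ).pts := fun _ hz => (mem_gl.1 hz).2

theorem pl_g1 (φ : Hom X.toVar Y.toVar) {W : Sub k P} (hW : (W : Set (P.Pt k)) ⊆ X.pts) :
    N_pl (g1 φ) (ny X W) = ny (gS φ) (gl φ W hW) := by
  obtain ⟨q, hq⟩ := G3_pull (g1 φ) hW (G := gl φ W hW) (fun z h1 h2 => mem_gl.2 ⟨h2, h1⟩)
    (by rw [sdim_gl, add_comm]; rfl)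
  have h1 : N_pl (g1 φ) (ny X W) = q • ny (gS φ) (gl φ W hW) := by
    rw [ny, N_pl_q, hq, map_smul, ny]
  obtain ⟨a, ha⟩ := N2_one P
  have h2 := ny_pos hW ha
  generalize nh X a ^ sdim W = y at h2
  have h3 := nt_g1 φ (ny X W * y)
  rw [map_mul, h1, smul_mul_assoc, map_smul, N2_push (g1 φ) (N2_gl φ hW),
    show (g1 φ).toCrd = Crd.inl k P Q from rfl, deg_gl, img_gl, Nat.cast_one, one_mul,
    smul_eq_mul] at h3
  rw [h1, mul_left_eq_self₀.1 h3 |>.resolve_right h2.ne', one_smul]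

theorem im_sub {X : Var k P} {Y : Var k Q} (φ : Hom X Y) {W : Sub k P}
    (hW : (W : Set (P.Pt k)) ⊆ X.pts) : (im φ W hW : Set (Q.Pt k)) ⊆ Y.pts := by
  exact ((Crd.inr k P Q).img_sub Y.closed).2 fun z hz =>
    (φ.graphSnd.toFun ⟨z, (mem_gl.1 hz).2⟩).2

theorem mem_im {X : Var k P} {Y : Var k Q} (φ : Hom X Y) {W : Sub k P}
    (hW : (W : Set (P.Pt k)) ⊆ X.pts) {x : X.pts} (hx : x.1 ∈ W) : (φ.toFun x).1 ∈ im φ W hW := by
  exact (Crd.inr k P Q).mem_img (x := (φ.graphInv.toFun x).1)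
    (mem_gl.2 ⟨hx, (φ.graphInv.toFun x).2⟩)

theorem im_le {X : Var k P} {Y : Var k Q} (φ : Hom X Y) {W : Sub k P}
    (hW : (W : Set (P.Pt k)) ⊆ X.pts) {B : Set (Q.Pt k)} (hB : IsClosed B)
    (h : ∀ x : X.pts, x.1 ∈ W → (φ.toFun x).1 ∈ B) : (im φ W hW : Set (Q.Pt k)) ⊆ B := by
  refine ((Crd.inr k P Q).img_sub hB).2 fun z hz => ?_
  obtain ⟨h1, h2, h3⟩ := mem_gl.1 hz
  exact Set.mem_of_eq_of_mem h3.symm (h ⟨_, h2⟩ h1)

theorem sdim_im_le {X : Var k P} {Y : Var k Q} (φ : Hom X Y) {W : Sub k P}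
    (hW : (W : Set (P.Pt k)) ⊆ X.pts) : sdim (im φ W hW) ≤ sdim W := by
  exact ((Crd.inr k P Q).sdim_img_le _).trans (sdim_gl φ hW).le

theorem dgH_ne {X : Var k P} {Y : Var k Q} (φ : Hom X Y) {W : Sub k P}
    (hW : (W : Set (P.Pt k)) ⊆ X.pts) : dgH φ W hW ≠ 0 ↔ sdim (im φ W hW) = sdim W := by
  rw [dgH, deg_ne_zero, sdim_gl, im]

theorem gl_congr {X : Var k P} {Y : Var k Q} {φ ψ : Hom X Y} {W : Sub k P}
    (hW : (W : Set (P.Pt k)) ⊆ X.pts) (h : ∀ x : X.pts, x.1 ∈ W → φ.toFun x = ψ.toFun x) :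
    gl φ W hW = gl ψ W hW := by
  refine SetLike.ext fun z => mem_gl.trans (Iff.trans (and_congr_right fun hz => ?_) mem_gl.symm)
  exact exists_congr fun h1 => by rw [h ⟨_, h1⟩ hz]

theorem dgH_inj {X : Var k P} {Y : Var k Q} (φ : Hom X Y) (ψ : Hom Y X)
    (h : ∀ x, ψ.toFun (φ.toFun x) = x) {W : Sub k P} (hW : (W : Set (P.Pt k)) ⊆ X.pts) :
    dgH φ W hW = 1 := by
  obtain ⟨L, _, _, v, hv⟩ := exists_gen' (gl φ W hW)
  have e : v ∘ ((Crd.inr k P Q).pair (Crd.inl k P Q)).ε =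
      Amb.elim (v ∘ (Crd.inr k P Q).ε) (v ∘ (Crd.inl k P Q).ε) := by
    funext ⟨i, s⟩
    rcases i with i | i <;> rfl
  have h1 : On ψ.graph.pts (v ∘ ((Crd.inr k P Q).pair (Crd.inl k P Q)).ε) :=
    (on_of_gen hv).pr _ fun z hz => by
      obtain ⟨-, h2, h3⟩ := mem_gl.1 hz
      refine ⟨Set.mem_of_eq_of_mem h3.symm (φ.toFun ⟨_, h2⟩).2, ?_⟩
      exact (congrArg (fun y => (ψ.toFun y).1) (Subtype.ext h3.symm)).trans
        (congrArg Subtype.val (h ⟨_, h2⟩))
  rw [e] at h1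
  rw [dgH, deg_eq _ hv, IntermediateField.relfinrank_eq_one_iff, ← (on_graph ψ h1).2.2]
  refine IntermediateField.adjoin_le_iff.2 ?_
  rintro _ ⟨i | j, s, t, rfl⟩
  · exact IntermediateField.subset_adjoin k _ ⟨Sum.inr i, s, t, rfl⟩
  · exact IntermediateField.subset_adjoin k _ ⟨Sum.inl j, s, t, rfl⟩

theorem tau_hpl (φ : Hom X.toVar Y.toVar) {W : Sub k P} (hW : (W : Set (P.Pt k)) ⊆ X.pts)
    (y : NN Y) : nt X (ny X W * hpl φ y) = dgH φ W hW * nt Y (ny Y (im φ W hW) * y) := by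
  rw [← nt_g1 φ, map_mul, pl_g1 φ hW, hpl_spec]
  exact N2_push (g2 φ) (N2_gl φ hW) y

theorem hpl_ng (φ : Hom X.toVar Y.toVar) {c : ℕ} {y : NN Y} (hy : y ∈ ng Y c) :
    hpl φ y ∈ ng X c := by
  refine mem_ng fun W hW hc => ?_
  rw [tau_hpl φ hW]
  by_cases h0 : dgH φ W hW = 0
  · rw [h0, Nat.cast_zero, zero_mul]
  · obtain ⟨c', h1, h2⟩ := ny_ng' (X := Y) (im_sub φ hW)
    rw [(dgH_ne φ hW).1 h0] at h1
    rw [nt_ng (ng_mul h2 hy) (by omega), mul_zero]

theorem N2_top (φ : Hom X.toVar Y.toVar) {W : Sub k P} (hW : (W : Set (P.Pt k)) ⊆ X.pts)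
    (hd : sdim W = Y.dim) (y : NN Y) : nt X (ny X W * hpl φ y) = dgH φ W hW * nt Y y := by
  rw [tau_hpl φ hW]
  by_cases h0 : dgH φ W hW = 0
  · rw [h0, Nat.cast_zero, zero_mul, zero_mul]
  · rw [eq_of_sdim_le (U := im φ W hW) (Z := Y.tp) (im_sub φ hW)
      (by rw [(dgH_ne φ hW).1 h0, hd, Y.sdim_tp]), ny_top, one_mul]

theorem tau_pt_hpl (φ : Hom X.toVar Y.toVar) {W : Sub k P} (hW : (W : Set (P.Pt k)) ⊆ X.pts)
    (hd : sdim W = Y.dim) {y : Q.Pt k} (hy : y ∈ Y.pts) :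
    nt X (ny X W * hpl φ (ny Y {y})) = dgH φ W hW := by
  rw [N2_top φ hW hd, nt_pt hy, mul_one]

theorem exists_deg (φ : Hom X.toVar Y.toVar) (hd : X.dim = Y.dim) :
    ∃ d : ℚ, ∀ y, nt X (hpl φ y) = d * nt Y y := by
  refine ⟨dgH φ X.tp subset_rfl, fun y => ?_⟩
  rw [← N2_top φ (W := X.tp) subset_rfl (X.sdim_tp.trans hd), ny_top, one_mul]

theorem nt_inv {φ : Hom X.toVar Y.toVar} {ψ : Hom Y.toVar X.toVar} (h : Inv φ ψ) (y : NN Y) :
    nt X (hpl φ y) = nt Y y := by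
  have h1 := tau_hpl φ (W := X.tp) subset_rfl y
  have h2 : im φ X.tp subset_rfl = Y.tp := le_antisymm (im_sub φ subset_rfl) fun z hz =>
    Set.mem_of_eq_of_mem (congrArg Subtype.val (h.2 ⟨z, hz⟩)).symm
      (mem_im φ (W := X.tp) subset_rfl (ψ.toFun ⟨z, hz⟩).2)
  rwa [h2, ny_top, ny_top, one_mul, one_mul, dgH_inj φ ψ h.1, Nat.cast_one, one_mul] at h1

theorem hpl_inv {φ : Hom X.toVar Y.toVar} {ψ : Hom Y.toVar X.toVar} (h : Inv φ ψ) {V : Sub k Q}
    (hV : (V : Set (Q.Pt k)) ⊆ Y.pts) : hpl φ (ny Y V) = ny X (im ψ V hV) := by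
  refine sub_eq_zero.1 (nt_pd fun z => ?_)
  have h1 : hpl φ (hpl ψ z) = z := (hpl_comp' φ ψ (idH X) h.1 z).trans (hpl_id z)
  have h2 := tau_hpl ψ hV z
  rw [dgH_inj ψ φ h.2, Nat.cast_one, one_mul, ← nt_inv h, map_mul, h1] at h2
  rw [sub_mul, map_sub, h2, sub_self]

theorem N2_pair (f : Hom Z.toVar X.toVar) (g : Hom Z.toVar Y.toVar) (x : NN X) (y : NN Y) :
    hpl (pairH f g) (hpl (p1 X Y) x * hpl (p2 X Y) y) = hpl f x * hpl g y := by
  rw [map_mul, hpl_comp' _ (p1 X Y) f fun _ => rfl, hpl_comp' _ (p2 X Y) g fun _ => rfl]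

theorem hpl_restr {φ ψ : Hom X.toVar Y.toVar} {W : Sub k P} (hW : (W : Set (P.Pt k)) ⊆ X.pts)
    (h : ∀ x : X.pts, x.1 ∈ W → φ.toFun x = ψ.toFun x) (u : NN Y) :
    ny X W * hpl φ u = ny X W * hpl ψ u := by
  refine sub_eq_zero.1 (nt_pd fun z => ?_)
  have h1 (χ : Hom X.toVar Y.toVar) : ny X W * hpl χ u * z =
      ny X W * hpl (pairH (idH X) χ) (hpl (p1 X Y) z * hpl (p2 X Y) u) := by
    rw [N2_pair, hpl_id, mul_assoc, mul_comm z]
  have h2 : gl (pairH (idH X) φ) W hW = gl (pairH (idH X) ψ) W hW :=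
    gl_congr hW fun x hx => Subtype.ext (congrArg (fun y : Y.pts => mkPt x.1 y.1) (h x hx))
  rw [sub_mul, map_sub, h1, h1, tau_hpl _ hW, tau_hpl _ hW, dgH, dgH, im, im, h2, sub_self]

theorem hpl_cst (x : X.pts) {c : ℕ} {u : NN X} (hu : u ∈ ng X c) (hc : 0 < c) :
    hpl (cstH Y x) u = 0 := by
  refine ng_pd (hpl_ng _ hu) fun W hW hd => ?_
  have h1 : sdim (im (cstH Y x) W hW) ≤ 0 := by
    rw [← sdim_pt x.1]
    exact sdim_mono (im_le (cstH Y x) hW ({x.1} : Sub k P).isClosed fun _ _ => rfl)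
  have h2 : dgH (cstH Y x) W hW = 0 := by
    by_contra h0
    have := (dgH_ne _ hW).1 h0
    omega
  rw [tau_hpl _ hW, h2, Nat.cast_zero, zero_mul]

theorem N2_plP (π : Prj Z.toVar X.toVar) {γ : Crd k Q S} (h : Pd X Y Z π.toCrd γ) (x : CR X) :
    N_pl π (N_q X x) = N_q Z (plP h x) := by
  refine N_eq fun a => cyC_ext (tauC Z ∘ₗ LinearMap.mulRight ℚ (plC π x))
    (tauC Z ∘ₗ LinearMap.mulRight ℚ (plP h x)) (fun V hV => ?_) a
  simp only [LinearMap.comp_apply, LinearMap.mulRight_apply]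
  rw [pushC π hV, ← tauC_psP h, mul_comm (cyC Z V), psP_mul, psP_cyC h hV, mul_smul_comm,
    map_smul, smul_eq_mul, mul_comm x]

theorem ny_xp {V : Sub k P} {W : Sub k Q} (hV : (V : Set (P.Pt k)) ⊆ X.pts)
    (hW : (W : Set (Q.Pt k)) ⊆ Y.pts) :
    hpl (p1 X Y) (ny X V) * hpl (p2 X Y) (ny Y W) = ny (X.prod Y) (xp2 V W) := by
  rw [p1, p2, hpl_prj, hpl_prj, ny, ny, N2_plP _ (pd_prod X Y), N2_plP _ (pd_prod X Y).symm,
    ← map_mul, ny]
  refine congrArg (N_q _) (CR.ext ?_)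
  rw [CR.val_mul, val_plP, val_plP, val_cyC hV, val_cyC hW, val_cyC (xp2_sub hV hW)]
  exact (pd_prod X Y).mul_pl_pl hV hW

theorem mem_xp2 {V : Sub k P} {W : Sub k Q} {z : (P.sum Q).Pt k} :
    z ∈ xp2 V W ↔ fst z ∈ V ∧ snd z ∈ W := by
  exact Bij.mem_xp _

theorem sdim_xp2 (V : Sub k P) (W : Sub k Q) : sdim (xp2 V W) = sdim V + sdim W := by
  exact Bij.sdim_xp _ V W

theorem N2_nt {W : Sub k P} (hW : (W : Set (P.Pt k)) ⊆ X.pts) :
    nt X (ny X W) = if sdim W = 0 then 1 else 0 := by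
  split_ifs with h
  · exact tauC_pt hW h
  · obtain ⟨c, h1, h2⟩ := ny_ng' (X := X) hW
    exact nt_ng h2 (by omega)

theorem nt_prod (x : NN X) (y : NN Y) :
    nt (X.prod Y) (hpl (p1 X Y) x * hpl (p2 X Y) y) = nt X x * nt Y y := by
  induction x using nn_ind with
  | zero => simp only [map_zero, zero_mul]
  | add a b ha hb => rw [map_add, add_mul, map_add, ha, hb, map_add, add_mul]
  | smul q a ha => rw [map_smul, smul_mul_assoc, map_smul, ha, map_smul, smul_mul_assoc]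
  | mem V hV =>
    induction y using nn_ind with
    | zero => simp only [map_zero, mul_zero]
    | add a b ha hb => rw [map_add, mul_add, map_add, ha, hb, map_add, mul_add]
    | smul q a ha => rw [map_smul, mul_smul_comm, map_smul, ha, map_smul, mul_smul_comm]
    | mem W hW =>
      rw [ny_xp hV hW, N2_nt hV, N2_nt hW, N2_nt (xp2_sub hV hW), sdim_xp2]
      by_cases h1 : sdim V = 0 <;> by_cases h2 : sdim W = 0 <;> simp [h1, h2]

theorem hpl_pair (f : Hom Z.toVar X.toVar) (g : Hom Z.toVar Y.toVar) (x : NN X) (y : NN Y) :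
    hpl (pairH f g) (hpl (p1 X Y) x * hpl (p2 X Y) y) = hpl f x * hpl g y := by
  exact N2_pair f g x y

theorem exists_nps (φ : Hom X.toVar Y.toVar) (x : NN X) :
    ∃ s : NN Y, ∀ y, nt X (x * hpl φ y) = nt Y (s * y) := by
  obtain ⟨x, rfl⟩ := N_surj x
  refine ⟨N_q Y (psC (g2 φ) (plC (g1 φ) x)), fun y => ?_⟩
  obtain ⟨y, rfl⟩ := N_surj y
  rw [← nt_g1 φ, map_mul, hpl_spec, N_pl_q, N_pl_q, ← map_mul, ← map_mul, N_tau_q, N_tau_q, adj]

theorem N2_emb (φ : Hom X.toVar Y.toVar) {a : P.ι →₀ ℕ} (ha : ∀ i, 0 < a i) {b : Q.ι →₀ ℕ}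
    (hb : ∀ i, 0 < b i) : ∃ c : (P.sum Q).ι →₀ ℕ, (∀ i, 0 < c i) ∧
      N_pl (g1 φ) (nh X a + hpl φ (nh Y b)) = nh (gS φ) c := by
  refine ⟨a.mapDomain (g1 φ).ψ + b.mapDomain (g2 φ).ψ, ?_,
    by rw [map_add, hpl_spec, N2_nh, N2_nh, nh_add]⟩
  rintro (i | j)
  · exact Nat.add_pos_left
      ((ha i).trans_eq (Finsupp.mapDomain_apply Sum.inl_injective a i).symm) _
  · exact Nat.add_pos_right _
      ((hb j).trans_eq (Finsupp.mapDomain_apply Sum.inr_injective b j).symm)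

/-- The Hodge index theorem for the embedding given by a graph. -/
theorem hodge_index' (φ : Hom X.toVar Y.toVar) {m : ℕ} (hm : m + 2 = X.dim) {a : P.ι →₀ ℕ}
    (ha : ∀ i, 0 < a i) {b : Q.ι →₀ ℕ} (hb : ∀ i, 0 < b i) {D : NN X} (hD : D ∈ ng X 1)
    (h1 : nt X ((nh X a + hpl φ (nh Y b)) ^ (m + 1) * D) = 0)
    (h2 : nt X ((nh X a + hpl φ (nh Y b)) ^ m * D * D) = 0) : D = 0 := by
  obtain ⟨c, hc, e⟩ := N2_emb φ ha hb
  rw [← nt_g1 φ, map_mul, map_pow, e] at h1
  rw [← nt_g1 φ, map_mul, map_mul (N_pl (g1 φ)), map_pow, e] at h2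
  exact (g1_bij φ).1 ((hodge_index (X := gS φ) hm hc (N2_ng _ hD) h1 h2).trans (map_zero _).symm)

theorem nh_pos' (φ : Hom X.toVar Y.toVar) {a : P.ι →₀ ℕ} (ha : ∀ i, 0 < a i) {b : Q.ι →₀ ℕ}
    (hb : ∀ i, 0 < b i) : 0 < nt X ((nh X a + hpl φ (nh Y b)) ^ X.dim) := by
  obtain ⟨c, hc, e⟩ := N2_emb φ ha hb
  rw [← nt_g1 φ, map_pow, e]
  exact nh_pos (X := gS φ) hc

end Pool.Agent.Work.MP_ffcd14_ag.Ry
end
end
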