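import Pool.Agent.Work.MP_ffcd14_ag.Ry.W1
import Pool.Agent.Work.MP_ffcd14_ag.Ry.W4

-- merged part: Pool.Agent.Work.MP_ffcd14_ag.Ry.W2
section
/-!
# Monomial subfields of orthogonal families

Plan.  This generalises `Tr/V4` from `GenT` to `Ort`; reuse `V4_mon`, `V4_span`, `cl_pow_le`,
`V4_diag`, `V4_det` and copy `V4_rank`, `relf_pow`, `deg_pow`, `deg_npow`, `dec_pow`.  New are
`Ort.laurent` (multiply by a monomial to clear the negative exponents), `Ort.pow`
(`m ↦ vecMul m B` is injective) and `Ort.term_le`: if the `c a` are polynomials in the `t ^ B`,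
the sum is a Laurent polynomial in `t` in which the terms coming from distinct `a` have distinct
exponents; quotients: common denominator (`exists_frac'`); general case by continuity.
-/

namespace Pool.Agent.Work.MP_ffcd14_ag.Ry

open MvPolynomial Filter Topology Tr
open scoped ENNReal

set_option linter.unusedSectionVars false

universe u

variable {K : Type u} [NontriviallyNormedField K] [IsUltrametricDist K] [CompleteSpace K]
  [IsAlgClosed K] {Ω Ω' : Type u} [NormedField Ω] [NormedAlgebra K Ω] [NormedField Ω']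
  [NormedAlgebra K Ω'] {ι ι' ι'' κ κ' : Type} [Fintype κ] [DecidableEq κ] [Fintype κ']
  [DecidableEq κ']

variable [CompleteSpace Ω]

theorem W2_fam {t : κ → Ω} (h : Ort K t) {I : Type*} (s : Finset I) {e : I → κ → ℤ}
    (he : Set.InjOn e s) (a : I → K) {i : I} (hi : i ∈ s) :
    ‖a i • V4_mon t (e i)‖ ≤ ‖∑ j ∈ s, a j • V4_mon t (e j)‖ := by
  classical
  let N : κ → ℤ := fun k => ∑ j ∈ s, |e j k|
  have hN : ∀ j ∈ s, ∀ k, 0 ≤ e j k + N k := fun j hj k => by
    have h1 : |e j k| ≤ N k :=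
      Finset.single_le_sum (f := fun j => |e j k|) (fun _ _ => abs_nonneg _) hj
    have h2 := neg_abs_le (e j k)
    linarith
  let f : I → κ →₀ ℕ := fun j => Finsupp.equivFunOnFinite.symm fun k => (e j k + N k).toNat
  have hf : ∀ j ∈ s, ∀ k, ((f j k : ℕ) : ℤ) = e j k + N k := fun j hj k =>
    Int.toNat_of_nonneg (hN j hj k)
  have hm : ∀ j ∈ s, ∀ b : K,
      aeval t (monomial (f j) b) = (b • V4_mon t (e j)) * V4_mon t N := fun j hj b => by
    rw [V2_term, smul_mul_assoc, ← V4_mon_add h.1, V4_mon]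
    simp only [hf j hj, Pi.add_apply]
  have hc : coeff (f i) (∑ j ∈ s, monomial (f j) (a j) : MvPolynomial κ K) = a i := by
    rw [coeff_sum, Finset.sum_eq_single_of_mem i hi, coeff_monomial, if_pos rfl]
    intro j hj hji
    rw [coeff_monomial, if_neg]
    intro e1
    refine hji (he hj hi (funext fun k => ?_))
    have e2 := hf j hj k
    rw [e1, hf i hi k] at e2
    exact (add_right_cancel e2).symm
  have h1 := h.2 (∑ j ∈ s, monomial (f j) (a j)) (f i)
  rw [hc, hm i hi, map_sum, Finset.sum_congr rfl fun j hj => hm j hj (a j), ← Finset.sum_mul,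
    norm_mul, norm_mul] at h1
  exact le_of_mul_le_mul_right h1 (norm_pos_iff.2 (V4_mon_ne h.1 N))

theorem Ort.laurent {t : κ → Ω} (h : Ort K t) (c : (κ → ℤ) →₀ K) (β : κ → ℤ) :
    ‖c β • V4_mon t β‖ ≤ ‖c.sum fun α a => a • V4_mon t α‖ := by
  by_cases hβ : β ∈ c.support
  · exact W2_fam h c.support (e := id) (Set.injOn_id _) c hβ
  · rw [Finsupp.notMem_support_iff.1 hβ, zero_smul, norm_zero]
    exact norm_nonneg _

theorem W2_inj {B : Matrix κ κ ℤ} (hB : B.det ≠ 0) {α β : κ →₀ ℕ}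
    (e : Matrix.vecMul (fun k => ((α k : ℕ) : ℤ)) B = Matrix.vecMul (fun k => ((β k : ℕ) : ℤ)) B) :
    α = β := by
  have h1 := Matrix.eq_zero_of_vecMul_eq_zero hB (v := (fun k => ((α k : ℕ) : ℤ)) -
    fun k => ((β k : ℕ) : ℤ)) (by rw [Matrix.sub_vecMul, e, sub_self])
  ext k
  exact Int.natCast_inj.1 (sub_eq_zero.1 (congrFun h1 k))

theorem W2_term {t : κ → Ω} (h : ∀ k, t k ≠ 0) (B : Matrix κ κ ℤ) (β : κ →₀ ℕ) (a : K) :
    aeval (fun k => ∏ j, t j ^ B k j) (monomial β a) =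
      a • V4_mon t (Matrix.vecMul (fun k => ((β k : ℕ) : ℤ)) B) := by
  rw [V2_term, V4_mon_vec h]
  rfl

theorem W2_poly {t : κ → Ω} (h : ∀ k, t k ≠ 0) (B : Matrix κ κ ℤ) (c : MvPolynomial κ K) :
    aeval (fun k => ∏ j, t j ^ B k j) c = ∑ β ∈ c.support,
      coeff β c • V4_mon t (Matrix.vecMul (fun k => ((β k : ℕ) : ℤ)) B) := by
  conv_lhs => rw [c.as_sum, map_sum]
  exact Finset.sum_congr rfl fun β _ => W2_term h B β _

theorem Ort.pow {t : κ → Ω} (h : Ort K t) {B : Matrix κ κ ℤ} (hB : B.det ≠ 0) :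
    Ort K fun k => ∏ j, t j ^ B k j := by
  refine ⟨fun k => V4_mon_ne h.1 (B k), fun c β => ?_⟩
  rw [W2_term h.1, W2_poly h.1]
  by_cases hβ : β ∈ c.support
  · exact W2_fam h c.support (e := fun β => Matrix.vecMul (fun k => ((β k : ℕ) : ℤ)) B)
      (fun _ _ _ _ e => W2_inj hB e) (fun β => coeff β c) hβ
  · rw [notMem_support_iff.1 hβ, zero_smul, norm_zero]
    exact norm_nonneg _

theorem W2_det {q : ℕ} (hq : 0 < q) :
    (Matrix.diagonal (fun _ => (q : ℤ)) : Matrix κ κ ℤ).det ≠ 0 := by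
  rw [V4_det]
  exact Int.natCast_ne_zero.2 (pow_pos hq _).ne'

theorem Ort.npow {t : κ → Ω} (h : Ort K t) {q : ℕ} (hq : 0 < q) : Ort K fun k => t k ^ q := by
  have := h.pow (W2_det hq)
  rwa [V4_diag] at this

theorem W2_le_poly {t : κ → Ω} (h : Ort K t) {B : Matrix κ κ ℤ} (hB : B.det ≠ 0) {A : Type}
    [Fintype A] {ρ : A → κ → ℤ} (hρ : ∀ a b m, ρ a - ρ b = Matrix.vecMul m B → a = b)
    (p : A → MvPolynomial κ K) (a : A) :
    ‖aeval (fun k => ∏ j, t j ^ B k j) (p a) * V4_mon t (ρ a)‖ ≤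
      ‖∑ a, aeval (fun k => ∏ j, t j ^ B k j) (p a) * V4_mon t (ρ a)‖ := by
  have : IsUltrametricDist Ω := IsUltrametricDist.of_normedAlgebra K
  let e : (Σ _ : A, κ →₀ ℕ) → κ → ℤ := fun x =>
    Matrix.vecMul (fun k => ((x.2 k : ℕ) : ℤ)) B + ρ x.1
  have he : Function.Injective e := by
    rintro ⟨a, α⟩ ⟨b, β⟩ e1
    have e2 : Matrix.vecMul (fun k => ((α k : ℕ) : ℤ)) B + ρ a =
      Matrix.vecMul (fun k => ((β k : ℕ) : ℤ)) B + ρ b := e1
    obtain rfl : a = b := hρ a b ((fun k => ((β k : ℕ) : ℤ)) - fun k => ((α k : ℕ) : ℤ)) (by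
      rw [Matrix.sub_vecMul, sub_eq_sub_iff_add_eq_add, add_comm, e2])
    obtain rfl : α = β := W2_inj hB (add_right_cancel e2)
    rfl
  have hs : ∀ b, aeval (fun k => ∏ j, t j ^ B k j) (p b) * V4_mon t (ρ b) =
      ∑ β ∈ (p b).support, coeff β (p b) • V4_mon t (e ⟨b, β⟩) := fun b => by
    rw [W2_poly h.1, Finset.sum_mul]
    exact Finset.sum_congr rfl fun β _ => by rw [smul_mul_assoc, ← V4_mon_add h.1]
  rw [Finset.sum_congr rfl fun b _ => hs b, Finset.sum_sigma', hs a]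
  refine IsUltrametricDist.norm_sum_le_of_forall_le_of_nonneg (norm_nonneg _) fun β hβ => ?_
  exact W2_fam h (Finset.univ.sigma fun b => (p b).support) he.injOn
    (fun x => coeff x.2 (p x.1)) (i := ⟨a, β⟩) (Finset.mem_sigma.2 ⟨Finset.mem_univ _, hβ⟩)

theorem W2_den (u : κ → Ω) {A : Type} [Fintype A] {c : A → Ω}
    (hc : ∀ a, c a ∈ IntermediateField.adjoin K (Set.range u)) :
    ∃ D : Ω, D ≠ 0 ∧ ∃ p : A → MvPolynomial κ K, ∀ a, aeval u (p a) = D * c a := by
  classical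
  have h1 : ∀ a, ∃ p q : MvPolynomial κ K, aeval u q ≠ 0 ∧ aeval u p = aeval u q * c a := by
    intro a
    obtain ⟨p, q, e⟩ := (IntermediateField.mem_adjoin_range_iff K u _).1 (hc a)
    by_cases hq : aeval u q = 0
    · exact ⟨0, 1, by simp, by simp [e, hq]⟩
    · exact ⟨p, q, hq, by rw [e, mul_div_cancel₀ _ hq]⟩
  choose p q hq e using h1
  refine ⟨∏ a, aeval u (q a), Finset.prod_ne_zero_iff.2 fun a _ => hq a,
    fun a => (∏ b ∈ Finset.univ.erase a, q b) * p a, fun a => ?_⟩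
  rw [map_mul, map_prod, e, ← mul_assoc,
    Finset.prod_erase_mul _ (fun b => aeval u (q b)) (Finset.mem_univ a)]

theorem Ort.term_le {t : κ → Ω} (h : Ort K t) {B : Matrix κ κ ℤ} (hB : B.det ≠ 0) {A : Type}
    [Fintype A] {ρ : A → κ → ℤ} (hρ : ∀ a b m, ρ a - ρ b = Matrix.vecMul m B → a = b)
    {c : A → Ω} (hc : ∀ a, c a ∈ cl K (Set.range fun k => ∏ j, t j ^ B k j)) (a : A) :
    ‖c a * V4_mon t (ρ a)‖ ≤ ‖∑ a, c a * V4_mon t (ρ a)‖ := by
  have hcl : IsClosed {c : A → Ω | ‖c a * V4_mon t (ρ a)‖ ≤ ‖∑ a, c a * V4_mon t (ρ a)‖} :=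
    isClosed_le (by fun_prop) (by fun_prop)
  have hsub : (Set.univ.pi fun _ : A =>
      (IntermediateField.adjoin K (Set.range fun k => ∏ j, t j ^ B k j) : Set Ω)) ⊆
        {c : A → Ω | ‖c a * V4_mon t (ρ a)‖ ≤ ‖∑ a, c a * V4_mon t (ρ a)‖} := by
    intro d hd
    obtain ⟨D, hD, p, hp⟩ := W2_den (K := K) _ fun b => hd b (Set.mem_univ b)
    have h1 := W2_le_poly h hB hρ p a
    simp only [hp, mul_assoc] at h1
    rw [← Finset.mul_sum, norm_mul D, norm_mul D] at h1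
    exact le_of_mul_le_mul_left h1 (norm_pos_iff.2 hD)
  refine closure_minimal hsub hcl ?_
  rw [closure_pi_set]
  exact fun b _ => hc b

theorem W2_rank {t : κ → Ω} (h : Ort K t) {B : Matrix κ κ ℤ} (hB : B.det ≠ 0) {A : Type}
    [Fintype A] {ρ : A → κ → ℤ} (hρ : ∀ a b m, ρ a - ρ b = Matrix.vecMul m B → a = b)
    (hρ' : ∀ β, ∃ a m, β = ρ a + Matrix.vecMul m B) :
    (cl K (Set.range fun k => ∏ j, t j ^ B k j)).relfinrank (cl K (Set.range t)) =
      Fintype.card A := by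
  have hli : LinearIndependent (cl K (Set.range fun k => ∏ j, t j ^ B k j))
      fun a => V4_mon t (ρ a) := by
    rw [Fintype.linearIndependent_iff]
    intro c hc a
    have h1 := h.term_le hB hρ (c := fun a => (c a : Ω)) (fun a => (c a).2) a
    have h2 : ∑ a, (c a : Ω) * V4_mon t (ρ a) = 0 := hc
    rw [h2, norm_zero, norm_le_zero_iff, mul_eq_zero] at h1
    exact Subtype.ext (h1.resolve_right (V4_mon_ne h.1 _))
  rw [IntermediateField.relfinrank_eq_finrank_of_le (cl_pow_le t B), ← finrank_span_eq_card hli]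
  have e : (IntermediateField.extendScalars (cl_pow_le (K := K) t B)).toSubalgebra.toSubmodule =
      Submodule.span (cl K (Set.range fun k => ∏ j, t j ^ B k j))
        (Set.range fun a => V4_mon t (ρ a)) := by
    apply le_antisymm
    · intro z hz
      exact V4_span h.1 B hρ' hz
    · rw [Submodule.span_le]
      rintro _ ⟨a, rfl⟩
      exact V4_mon_mem (S := cl K (Set.range t)) (fun k => subset_cl _ ⟨k, rfl⟩) _
  rw [← e]
  rfl

theorem Ort.relf_pow {t : κ → Ω} (h : Ort K t) {B : Matrix κ κ ℤ} (hB : B.det ≠ 0) :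
    (cl K (Set.range fun k => ∏ j, t j ^ B k j)).relfinrank (cl K (Set.range t)) =
      B.det.natAbs := by
  let N : Submodule ℤ (κ → ℤ) := LinearMap.range (Matrix.toLin' B.transpose)
  have hN : ∀ v, v ∈ N ↔ ∃ m, Matrix.vecMul m B = v := fun v => by
    simp only [N, LinearMap.mem_range, Matrix.toLin'_apply, Matrix.mulVec_transpose]
  have hinj : Function.Injective (Matrix.toLin' B.transpose) := by
    rw [injective_iff_map_eq_zero]
    intro v hv
    rw [Matrix.toLin'_apply, Matrix.mulVec_transpose] at hv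
    exact Matrix.eq_zero_of_vecMul_eq_zero hB hv
  have hcard : B.det.natAbs = Nat.card ((κ → ℤ) ⧸ N) := by
    rw [← Submodule.natAbs_det_equiv N (LinearEquiv.ofInjective _ hinj), ← Matrix.det_transpose,
      ← LinearMap.det_toLin']
    rfl
  have : Finite ((κ → ℤ) ⧸ N) :=
    Nat.finite_of_card_ne_zero (by rw [← hcard]; exact Int.natAbs_ne_zero.2 hB)
  let := Fintype.ofFinite ((κ → ℤ) ⧸ N)
  obtain ⟨ρ, hρ⟩ := N.mkQ_surjective.hasRightInverse
  rw [hcard, Nat.card_eq_fintype_card]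
  refine W2_rank h hB (ρ := ρ) (fun a b m e => ?_) fun β => ?_
  · rw [← hρ a, ← hρ b]
    exact (Submodule.Quotient.eq N).2 ((hN _).2 ⟨m, e.symm⟩)
  · obtain ⟨m, hm⟩ := (hN _).1 ((Submodule.Quotient.eq N).1 (hρ (N.mkQ β)).symm)
    exact ⟨N.mkQ β, m, by rw [hm, add_sub_cancel]⟩

theorem Ort.deg_pow {t : κ → Ω} (h : Ort K t) {B : Matrix κ κ ℤ} (hB : B.det ≠ 0) :
    (FiniteDimensional (cl K (Set.range fun k => ∏ j, t j ^ B k j)) Ω ↔
      FiniteDimensional (cl K (Set.range t)) Ω) ∧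
    Module.finrank (cl K (Set.range fun k => ∏ j, t j ^ B k j)) Ω =
      B.det.natAbs * Module.finrank (cl K (Set.range t)) Ω := by
  have e := IntermediateField.relfinrank_mul_finrank_top (cl_pow_le (K := K) t B)
  rw [h.relf_pow hB] at e
  refine ⟨⟨fun _ => ?_, fun _ => ?_⟩, e.symm⟩
  · refine Module.finite_of_finrank_pos (Nat.pos_of_mul_pos_left (b := _) (a := B.det.natAbs) ?_)
    rw [e]
    exact Module.finrank_pos
  · refine Module.finite_of_finrank_pos ?_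
    rw [← e]
    exact Nat.mul_pos (Int.natAbs_pos.2 hB) Module.finrank_pos

theorem Ort.deg_npow {t : κ → Ω} (h : Ort K t) {q : ℕ} (hq : 0 < q) :
    (FiniteDimensional (cl K (Set.range fun k => t k ^ q)) Ω ↔
      FiniteDimensional (cl K (Set.range t)) Ω) ∧
    Module.finrank (cl K (Set.range fun k => t k ^ q)) Ω =
      q ^ Fintype.card κ * Module.finrank (cl K (Set.range t)) Ω := by
  have := h.deg_pow (W2_det hq)
  rwa [V4_diag, V4_det, Int.natAbs_natCast] at this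

theorem Ort.dec_pow {t : κ → Ω} (h : Ort K t) {q : ℕ} (hq : 0 < q) {z : Ω}
    (hz : z ∈ cl K (Set.range t)) : ∃ c : (κ → Fin q) → Ω,
      (∀ β, c β ∈ cl K (Set.range fun k => t k ^ q)) ∧ z = ∑ β, c β * ∏ k, t k ^ (β k : ℕ) ∧
        ∀ β, ‖c β * ∏ k, t k ^ (β k : ℕ)‖ ≤ ‖z‖ := by
  have hq' : (0 : ℤ) < q := Int.natCast_pos.2 hq
  let ρ : (κ → Fin q) → κ → ℤ := fun β k => ((β k : ℕ) : ℤ)
  have h1 : ∀ a b m, ρ a - ρ b = Matrix.vecMul m (Matrix.diagonal fun _ => (q : ℤ)) → a = b := by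
    intro a b m e
    funext k
    have e1 := congrFun e k
    rw [Matrix.vecMul_diagonal] at e1
    simp only [ρ, Pi.sub_apply] at e1
    have ha := (a k).2
    have hb := (b k).2
    have hm : m k = 0 := by
      rcases lt_trichotomy (m k) 0 with h2 | h2 | h2
      · nlinarith
      · exact h2
      · nlinarith
    rw [hm, zero_mul] at e1
    exact Fin.ext (by omega)
  have h2 : ∀ β, ∃ a m, β = ρ a + Matrix.vecMul m (Matrix.diagonal fun _ => (q : ℤ)) := by
    intro β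
    refine ⟨fun k => ⟨(β k % q).toNat, ?_⟩, fun k => β k / q, funext fun k => ?_⟩
    · have := Int.emod_lt_of_pos (β k) hq'
      have := Int.emod_nonneg (β k) hq'.ne'
      omega
    · rw [Pi.add_apply, Matrix.vecMul_diagonal]
      simp only [ρ]
      rw [Int.toNat_of_nonneg (Int.emod_nonneg (β k) hq'.ne'), Int.emod_add_ediv_mul]
  have e : ∀ β, V4_mon t (ρ β) = ∏ k, t k ^ (β k : ℕ) := fun β => by
    simp only [V4_mon, ρ, zpow_natCast]
  obtain ⟨c, hc⟩ := (Submodule.mem_span_range_iff_exists_fun _).1 (V4_span (K := K) h.1 _ h2 hz)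
  have hc' : ∑ a, (c a : Ω) * V4_mon t (ρ a) = z := hc
  refine ⟨fun β => c β, fun β => ?_, ?_, fun β => ?_⟩
  · rw [← V4_diag]
    exact (c β).2
  · rw [← hc']
    simp only [e]
  · rw [← hc', ← e]
    exact h.term_le (W2_det hq) h1 (c := fun a => (c a : Ω)) (fun a => (c a).2) β

end Pool.Agent.Work.MP_ffcd14_ag.Ry
end

-- merged part: Pool.Agent.Work.MP_ffcd14_ag.Ry.W3
section
/-!
# Perturbation and separability for orthogonal families

Plan.  `deg_pert`, `fd_of_dense`: copy `deg_pert_le`, `deg_pert`, `fd_of_dense` of `Tr/V5`.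
`mono_psp`, `sep_sub`, `sep_step`: copy from `Tr/V8`.  `mono_pin`: `c ^ p` lies in
`cl (range fun k => t k ^ p)` (Frobenius is continuous), then `Ort.term_le` for the diagonal matrix
(`V4_diag`).  `sep_dense'`: `pdeg p Ω = p ^ card κ` (`pdeg_eq`, `pdeg_of`, `cl_sub_top`,
`ort_map (iso_val _)`).  The subfield `F` of `p`-th powers of `Ω` is complete and non-trivially
normed, `Ω` is finite over `F`, so the `F`-span of the range of `j` is closed; it is a field
which contains the image of `K` (algebraically closed) and is dense, so it is everything, and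
the range of `j` contains a basis `j ∘ b` of `Ω` over `F`.  As in `sep_dense`, choose `s` in `E` with
`j s` close to `t` (`of_close`, `algInd`) to get `pdeg p E ≤ p ^ card κ`; `psp_of_pin`.
-/

namespace Pool.Agent.Work.MP_ffcd14_ag.Ry

open MvPolynomial Filter Topology Tr
open scoped ENNReal

set_option linter.unusedSectionVars false

universe u

variable {K : Type u} [NontriviallyNormedField K] [IsUltrametricDist K] [CompleteSpace K]
  [IsAlgClosed K] {Ω Ω' : Type u} [NormedField Ω] [NormedAlgebra K Ω] [NormedField Ω']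
  [NormedAlgebra K Ω'] {ι ι' ι'' κ κ' : Type} [Fintype κ] [DecidableEq κ] [Fintype κ']
  [DecidableEq κ']

variable (p : ℕ) [Fact p.Prime] [CharP K p]

include p

theorem W3_pert_le [CompleteSpace Ω] {t t' : κ → Ω} (h : Ort K t) (e : ∀ k, ‖t' k - t k‖ < ‖t k‖)
    [FiniteDimensional (cl K (Set.range t)) Ω] : FiniteDimensional (cl K (Set.range t')) Ω ∧
      Module.finrank (cl K (Set.range t')) Ω ≤ Module.finrank (cl K (Set.range t)) Ω := by
  have hU : IsUltrametricDist Ω := IsUltrametricDist.of_normedAlgebra K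
  have hP : CharP Ω p := charP_of_injective_algebraMap (algebraMap K Ω).injective p
  have hp : 1 < p := (Fact.out : p.Prime).one_lt
  obtain ⟨b⟩ : Nonempty (Module.Basis (Fin (Module.finrank (cl K (Set.range t)) Ω))
      (cl K (Set.range t)) Ω) :=
    ⟨@Module.finBasis _ _ _ _ _ (Module.Free.of_divisionRing _ _) _ _⟩
  obtain ⟨C, hC, hb⟩ := V5_coord _ b
  obtain ⟨ρ, h0, h1, hρ⟩ := V5_rho e
  obtain ⟨m, hm⟩ := exists_pow_lt_of_lt_one (show 0 < 1 / 2 / C by positivity) h1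
  have hq : 0 < p ^ m := pow_pos (by omega) m
  have hρq : ρ ^ p ^ m * C ≤ 1 / 2 := by
    rw [← le_div_iff₀ hC]
    exact (pow_le_pow_of_le_one h0.le h1.le (Nat.lt_pow_self hp).le).trans hm.le
  have e' : ∀ k, ‖t' k ^ p ^ m - t k ^ p ^ m‖ ≤ ρ ^ p ^ m * ‖t k ^ p ^ m‖ := fun k => by
    rw [← sub_pow_char_pow, norm_pow, norm_pow, ← mul_pow]
    exact pow_le_pow_left₀ (norm_nonneg _) (hρ k) _
  generalize p ^ m = q at hq hρq e'
  have hsp : Submodule.span (cl K (Set.range fun k => t' k ^ q))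
      (Set.range fun a : Fin (Module.finrank (cl K (Set.range t)) Ω) × (κ → Fin q) =>
        (∏ k, t k ^ (a.2 k : ℕ)) * b a.1) = ⊤ := by
    refine V5_span _ fun z => ?_
    choose d hd hsum hle using fun i => h.dec_pow hq (b.repr z i).2
    choose d' hd' hdd using fun i β => (h.npow hq).pert (pow_pos h0 q)
      (pow_lt_one₀ h0.le h1 hq.ne') e' (hd i β)
    refine ⟨∑ a : Fin (Module.finrank (cl K (Set.range t)) Ω) × (κ → Fin q),
      d' a.1 a.2 * ((∏ k, t k ^ (a.2 k : ℕ)) * b a.1), Submodule.sum_mem _ fun a _ => ?_, ?_⟩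
    · exact Submodule.smul_mem _ (⟨d' a.1 a.2, hd' a.1 a.2⟩ : cl K (Set.range fun k => t' k ^ q))
        (Submodule.subset_span ⟨a, rfl⟩)
    · have hz : z = ∑ a : Fin (Module.finrank (cl K (Set.range t)) Ω) × (κ → Fin q),
          d a.1 a.2 * ((∏ k, t k ^ (a.2 k : ℕ)) * b a.1) := by
        rw [Fintype.sum_prod_type]
        refine (b.sum_repr z).symm.trans (Finset.sum_congr rfl fun i _ => ?_)
        have h2 : b.repr z i • b i = (b.repr z i : Ω) * b i := rfl
        rw [h2, hsum i, Finset.sum_mul]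
        exact Finset.sum_congr rfl fun β _ => mul_assoc _ _ _
      nth_rewrite 1 [hz]
      rw [← Finset.sum_sub_distrib]
      refine IsUltrametricDist.norm_sum_le_of_forall_le_of_nonneg (by positivity) fun a _ => ?_
      have h3 := hle a.1 a.2
      rw [norm_mul] at h3
      rw [← sub_mul, norm_mul, norm_mul]
      calc ‖d a.1 a.2 - d' a.1 a.2‖ * (‖∏ k, t k ^ (a.2 k : ℕ)‖ * ‖b a.1‖)
          ≤ ρ ^ q * ‖d a.1 a.2‖ * (‖∏ k, t k ^ (a.2 k : ℕ)‖ * ‖b a.1‖) :=
            mul_le_mul_of_nonneg_right (hdd a.1 a.2) (by positivity)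
        _ = ρ ^ q * (‖d a.1 a.2‖ * ‖∏ k, t k ^ (a.2 k : ℕ)‖ * ‖b a.1‖) := by ring
        _ ≤ ρ ^ q * (C * ‖z‖) := mul_le_mul_of_nonneg_left
            ((mul_le_mul_of_nonneg_right h3 (norm_nonneg _)).trans (hb z a.1)) (by positivity)
        _ ≤ 1 / 2 * ‖z‖ := by
            rw [← mul_assoc]
            exact mul_le_mul_of_nonneg_right hρq (norm_nonneg _)
  obtain ⟨h4, h5⟩ := (h.of_close e).1.deg_npow hq
  refine ⟨h4.1 (V5_fd _ hsp), ?_⟩
  have h6 := finrank_le_of_span_eq_top hsp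
  rw [h5, Fintype.card_prod, Fintype.card_fin, Fintype.card_fun, Fintype.card_fin,
    mul_comm] at h6
  exact Nat.le_of_mul_le_mul_right h6 (pow_pos hq _)

theorem Ort.deg_pert [CompleteSpace Ω] {t t' : κ → Ω} (h : Ort K t)
    (e : ∀ k, ‖t' k - t k‖ < ‖t k‖) [FiniteDimensional (cl K (Set.range t)) Ω] :
    FiniteDimensional (cl K (Set.range t')) Ω ∧
      Module.finrank (cl K (Set.range t')) Ω = Module.finrank (cl K (Set.range t)) Ω := by
  obtain ⟨h1, h2⟩ := W3_pert_le p h e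
  obtain ⟨h3, h4⟩ := h.of_close e
  refine ⟨h1, le_antisymm h2 (W3_pert_le p h3 fun k => ?_).2⟩
  rw [norm_sub_rev, h4]
  exact e k

theorem Ort.fd_of_dense [CompleteSpace Ω] {t : κ → Ω} (h : Ort K t) (F : IntermediateField K Ω)
    (hF : cl K (F : Set Ω) = ⊤) (hfg : ∀ s : κ → F, AlgebraicIndependent K s →
      FiniteDimensional (IntermediateField.adjoin K (Set.range s)) F) :
    FiniteDimensional (cl K (Set.range t)) Ω := by
  have hd : ∀ z : Ω, z ∈ closure (F : Set Ω) := fun z => by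
    have h1 : z ∈ (cl K (F : Set Ω) : Set Ω) := by
      rw [hF]
      exact IntermediateField.mem_top
    rwa [coe_cl, IntermediateField.adjoin_self] at h1
  have hs : ∀ k, ∃ s : F, ‖(s : Ω) - t k‖ < ‖t k‖ := fun k => by
    obtain ⟨s, hs, h1⟩ := Metric.mem_closure_iff.1 (hd (t k)) _ (norm_pos_iff.2 (h.1 k))
    rw [dist_comm, dist_eq_norm] at h1
    exact ⟨⟨s, hs⟩, h1⟩
  choose s hs using hs
  obtain ⟨h1, h2⟩ := h.of_close hs
  have h3 := hfg s (AlgebraicIndependent.of_comp F.val h1.algInd)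
  obtain ⟨b⟩ : Nonempty (Module.Basis
      (Fin (Module.finrank (IntermediateField.adjoin K (Set.range s)) F))
      (IntermediateField.adjoin K (Set.range s)) F) :=
    ⟨@Module.finBasis _ _ _ _ _ (Module.Free.of_divisionRing _ _) _ _⟩
  have h4 : IntermediateField.adjoin K (Set.range s) ≤
      (cl K (Set.range fun k => (s k : Ω))).comap F.val := by
    rw [IntermediateField.adjoin_le_iff]
    rintro _ ⟨k, rfl⟩
    exact subset_cl (K := K) (Set.range fun k => (s k : Ω)) ⟨k, rfl⟩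
  have h5 : Submodule.span (cl K (Set.range fun k => (s k : Ω)))
      (Set.range fun i => (b i : Ω)) = ⊤ := by
    refine Submodule.eq_top_iff'.2 fun z => ?_
    refine (V5_closed _ _).closure_subset_iff.2 (fun w hw => ?_) (hd z)
    have h6 : w = ∑ i, ((b.repr ⟨w, hw⟩ i : F) : Ω) * (b i : Ω) := by
      have h7 := congrArg F.val (b.sum_repr ⟨w, hw⟩)
      rw [map_sum] at h7
      exact h7.symm
    rw [h6]
    exact Submodule.sum_mem _ fun i _ => Submodule.smul_mem _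
      (⟨_, h4 (b.repr ⟨w, hw⟩ i).2⟩ : cl K (Set.range fun k => (s k : Ω)))
      (Submodule.subset_span ⟨i, rfl⟩)
  have h6 := V5_fd _ h5
  refine (W3_pert_le p h1 fun k => ?_).1
  rw [norm_sub_rev, h2]
  exact hs k

theorem Ort.mono_psp [CompleteSpace Ω] {t : κ → Ω} (h : Ort K t) (ht : cl K (Set.range t) = ⊤) :
    PSp p fun β : κ → Fin p => ∏ k, t k ^ (β k : ℕ) := by
  intro z
  obtain ⟨c, hc, e, -⟩ := h.dec_pow (Fact.out : p.Prime).pos (z := z) (by rw [ht]; trivial)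
  choose w _ hw using fun β => cl_pow p t (hc β)
  exact ⟨w, by simpa only [hw] using e⟩

theorem Ort.mono_pin [CompleteSpace Ω] {t : κ → Ω} (h : Ort K t) (ht : cl K (Set.range t) = ⊤) :
    PIn p fun β : κ → Fin p => ∏ k, t k ^ (β k : ℕ) := by
  intro c hc β
  have := charP_of_injective_algebraMap (algebraMap K Ω).injective p
  have hp := (Fact.out : p.Prime).pos
  have hB : (Matrix.diagonal (fun _ => (p : ℤ)) : Matrix κ κ ℤ).det ≠ 0 := by
    rw [V4_det]
    exact Int.natCast_ne_zero.2 (pow_pos hp _).ne'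
  let T : IntermediateField K Ω :=
    ((cl K (Set.range fun k => t k ^ p)).toSubfield.comap (frobenius Ω p)).toIntermediateField fun a => by
      change algebraMap K Ω a ^ p ∈ cl K (Set.range fun k => t k ^ p)
      exact pow_mem (IntermediateField.algebraMap_mem _ a) p
  have hT : IsClosed (T : Set Ω) := (isClosed_cl K (Set.range fun k => t k ^ p)).preimage (continuous_pow p)
  have h1 : ∀ z : Ω, z ^ p ∈ cl K (Set.range fun k => t k ^ p) := fun z =>
    cl_le (S := T) (s := Set.range t) hT (by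
      rintro _ ⟨k, rfl⟩
      exact subset_cl (K := K) (Set.range fun k => t k ^ p) ⟨k, rfl⟩) (by rw [ht]; trivial)
  have h2 := h.term_le hB (ρ := fun (γ : κ → Fin p) k => ((γ k : ℕ) : ℤ)) (fun a b m e => funext fun k => by
    have e1 := congrFun e k
    rw [Matrix.vecMul_diagonal, Pi.sub_apply] at e1
    exact Fin.ext (Nat.ModEq.eq_of_lt_of_lt ((Nat.modEq_iff_dvd).2 ⟨-m k, by linarith⟩) (a k).2 (b k).2))
    (c := fun γ => c γ ^ p) (fun γ => by rw [V4_diag]; exact h1 _) β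
  simp only [V4_mon, zpow_natCast] at h2
  rw [hc, norm_zero, norm_le_zero_iff] at h2
  exact (pow_eq_zero_iff hp.ne').1 ((mul_eq_zero.1 h2).resolve_right
    (Finset.prod_ne_zero_iff.2 fun k _ => pow_ne_zero _ (h.1 k)))

theorem Ort.sep_sub [CompleteSpace Ω] [CompleteSpace Ω'] {t : κ → Ω} (h : Ort K t)
    (ht : cl K (Set.range t) = ⊤) {t₁ : κ → Ω'} {t₂ : κ' → Ω'} (h' : Ort K (Sum.elim t₁ t₂))
    (ht' : cl K (Set.range (Sum.elim t₁ t₂)) = ⊤) (j : Ω →ₐ[K] Ω') (e : ∀ k, j (t k) = t₁ k) :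
    Sep p (j : Ω →+* Ω') := by
  refine ⟨_, inferInstance, _, h.mono_psp p ht, ?_⟩
  simpa [e, PIn] using V8_comp p (h'.mono_pin p ht')
    (f := fun β : κ → Fin p => Sum.elim β fun _ => 0) fun a b q =>
      funext fun k => congrFun q (Sum.inl k)

theorem W3_pdeg [CompleteSpace Ω] [CharP Ω p] {t : κ → Ω} (h : Ort K t)
    [FiniteDimensional (cl K (Set.range t)) Ω] : pdeg p Ω = Fintype.card (κ → Fin p) := by
  have := charP_of_injective_algebraMap (algebraMap K (cl K (Set.range t))).injective p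
  have g : Ort K fun k => (⟨t k, subset_cl _ ⟨k, rfl⟩⟩ : cl K (Set.range t)) :=
    (ort_map (iso_val (cl K (Set.range t)))).1 h
  exact (pdeg_eq p).trans (pdeg_of p (g.mono_psp p (cl_sub_top t)) (g.mono_pin p (cl_sub_top t)))

theorem Ort.sep_step [CompleteSpace Ω] [CompleteSpace Ω'] {G'' L : Type u} [NormedField G'']
    [NormedAlgebra K G''] [CompleteSpace G''] [Field L] [Algebra K L] {t₀ : κ → Ω}
    (h₀ : Ort K t₀) [FiniteDimensional (cl K (Set.range t₀)) Ω] {t₁ : κ → G''} {t₂ : κ' → G''}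
    (h'' : Ort K (Sum.elim t₁ t₂)) (ht'' : cl K (Set.range (Sum.elim t₁ t₂)) = ⊤)
    (φ : Ω →ₐ[K] L) (ψ : G'' →ₐ[K] L) [FiniteDimensional ψ.fieldRange L]
    (hg : IntermediateField.adjoin K (Set.range φ ∪ Set.range ψ) = ⊤)
    (e : ∀ k, φ (t₀ k) = ψ (t₁ k)) {t' : κ' → Ω'} (h' : Ort K t')
    (ht' : cl K (Set.range t') = ⊤) (j : Ω' →ₐ[K] L) (e' : ∀ k, j (t' k) = ψ (t₂ k)) :
    Sep p (j : Ω' →+* L) := by
  have := charP_of_injective_algebraMap (algebraMap K L).injective p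
  have := charP_of_injective_algebraMap (algebraMap K Ω).injective p
  have := charP_of_injective_algebraMap (algebraMap K G'').injective p
  have := charP_of_injective_algebraMap (algebraMap K ψ.fieldRange).injective p
  have d1 := W3_pdeg p h₀
  have d2 : pdeg p L = Fintype.card (κ ⊕ κ' → Fin p) :=
    ((pdeg_eq p).trans (pdeg_equiv p ψ.equivFieldRange.toRingEquiv).symm).trans
      (pdeg_of p (h''.mono_psp p ht'') (h''.mono_pin p ht''))
  have n1 : pdeg p Ω ≠ 0 := d1 ▸ Fintype.card_ne_zero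
  obtain ⟨s, hs, -⟩ := exists_psp p n1
  let F := (frobenius L p).fieldRange
  have : FiniteDimensional F L := Module.finite_of_finrank_pos
    (Nat.pos_of_ne_zero (d2.trans_ne Fintype.card_ne_zero))
  let u := fun x : Fin (pdeg p Ω) × (κ' → Fin p) => φ (s x.1) * ψ (∏ k, t₂ k ^ (x.2 k : ℕ))
  let W := Submodule.span F (Set.range u)
  have hW : ∀ c w, w ∈ W → c ^ p * w ∈ W := fun c w hw => W.smul_mem ⟨c ^ p, c, rfl⟩ hw
  have h1 : ∀ x (β : κ' → Fin p), φ x * ψ (∏ k, t₂ k ^ (β k : ℕ)) ∈ W := fun x β => by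
    obtain ⟨c, rfl⟩ := hs x
    rw [map_sum, Finset.sum_mul]
    refine sum_mem fun a _ => ?_
    rw [map_mul, map_pow, mul_assoc]
    exact hW _ _ (Submodule.subset_span ⟨(a, β), rfl⟩)
  have h2 : ∀ x y, φ x * ψ y ∈ W := fun x y => by
    obtain ⟨c, rfl⟩ := h''.mono_psp p ht'' y
    rw [map_sum, Finset.mul_sum]
    refine sum_mem fun γ _ => ?_
    have q := hW (ψ (c γ)) _
      (h1 (x * ∏ k, t₀ k ^ (γ (Sum.inl k) : ℕ)) fun k => γ (Sum.inr k))
    refine (congrArg (· ∈ W) ?_).mp q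
    simp only [Fintype.prod_sum_type, map_mul, map_pow, map_prod, e, Sum.elim_inl, Sum.elim_inr]
    ring
  have h3 : ∀ z, z ∈ W := fun z => by
    have a1 : z ∈ IntermediateField.adjoin F (Set.range φ ∪ Set.range ψ) := by
      refine (IntermediateField.adjoin_subset_adjoin_iff K (F' := F)
        (S := Set.range φ ∪ Set.range ψ)).2 ⟨?_, IntermediateField.subset_adjoin _ _⟩
        (by rw [hg]; trivial)
      rintro _ ⟨c, rfl⟩
      exact IntermediateField.subset_adjoin F _ (Or.inl ⟨_, φ.commutes c⟩)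
    rw [← IntermediateField.mem_toSubalgebra, IntermediateField.adjoin_toSubalgebra_of_isAlgebraic
      fun x _ => Algebra.IsAlgebraic.isAlgebraic x, ← Subalgebra.mem_toSubmodule,
      Algebra.adjoin_eq_span] at a1
    refine Submodule.span_le.2 (fun w hw => ?_) a1
    obtain ⟨x, y, rfl⟩ : ∃ x y, w = φ x * ψ y := by
      induction hw using Submonoid.closure_induction with
      | mem w hw =>
        rcases hw with ⟨x, rfl⟩ | ⟨y, rfl⟩
        exacts [⟨x, 1, by simp⟩, ⟨1, y, by simp⟩]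
      | one => exact ⟨1, 1, by simp⟩
      | mul a b _ _ ha hb =>
        obtain ⟨x, y, rfl⟩ := ha
        obtain ⟨x', y', rfl⟩ := hb
        exact ⟨x * x', y * y', by rw [map_mul, map_mul]; ring⟩
    exact h2 x y
  have h4 : PIn p u := pin_of_psp p (fun z => by
    obtain ⟨c, hc⟩ := (Submodule.mem_span_range_iff_exists_fun F).1 (h3 z)
    choose d hd using fun i => (c i).2
    exact ⟨d, hc.symm.trans (Finset.sum_congr rfl fun i _ => congrArg (· * u i) (hd i).symm)⟩) (by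
      simp [d1, d2, pow_add])
  refine ⟨_, inferInstance, _, h'.mono_psp p ht', fun c hc => V8_comp p h4
    (f := fun β => (⟨0, Nat.pos_of_ne_zero n1⟩, β)) (fun a b q => congrArg Prod.snd q) c ?_⟩
  have := congrArg (φ (s ⟨0, Nat.pos_of_ne_zero n1⟩) * ·) hc
  simp only [mul_zero, Finset.mul_sum, map_prod, map_pow, RingHom.coe_coe, e'] at this
  simpa only [u, map_prod, map_pow, mul_left_comm] using this

theorem Ort.sep_dense [CompleteSpace Ω] {E : Type u} [Field E] [Algebra K E] {t : κ → Ω}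
    (h : Ort K t) [FiniteDimensional (cl K (Set.range t)) Ω] (j : E →ₐ[K] Ω)
    (hj : cl K (Set.range j) = ⊤) (hfg : ∀ s : κ → E, AlgebraicIndependent K s →
      FiniteDimensional (IntermediateField.adjoin K (Set.range s)) E) :
    Sep p (j : E →+* Ω) := by
  have := charP_of_injective_algebraMap (algebraMap K E).injective p
  have := charP_of_injective_algebraMap (algebraMap K Ω).injective p
  have hp := (Fact.out : p.Prime).pos
  have d1 := W3_pdeg p h
  have hc : ∀ z : Ω, z ∈ closure (Set.range j) := fun z =>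
    closure_mono (s := (IntermediateField.adjoin K (Set.range j) : Set Ω)) (t := Set.range j)
      (IntermediateField.adjoin_le_iff (T := j.fieldRange).2 subset_rfl)
      (by rw [← coe_cl, hj]; trivial)
  have hd : ∀ k, ∃ x : E, ‖j x - t k‖ < ‖t k‖ := fun k => by
    obtain ⟨_, ⟨x, rfl⟩, h2⟩ := Metric.mem_closure_iff.1 (hc (t k)) _ (norm_pos_iff.2 (h.1 k))
    exact ⟨x, by rwa [← dist_eq_norm, dist_comm]⟩
  choose s hs using hd
  have := hfg s (AlgebraicIndependent.of_comp j (h.of_close hs).1.algInd)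
  have := charP_of_injective_algebraMap
    (algebraMap K (IntermediateField.adjoin K (Set.range s))).injective p
  have h4 := pdeg_le_of_psp p (psp_adjoin p (K := K) (fun k => (⟨s k,
      IntermediateField.subset_adjoin K _ ⟨k, rfl⟩⟩ : IntermediateField.adjoin K (Set.range s)))
    (IntermediateField.lift_injective _ (by
      rw [IntermediateField.lift_adjoin, IntermediateField.lift_top, ← Set.range_comp]
      rfl)))
  rw [← pdeg_eq p (L := E)] at h4
  obtain ⟨T, hT⟩ : ∃ T : IntermediateField K Ω, ∀ z, z ∈ T ↔ ∃ w, w ^ p = z :=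
    ⟨(frobenius Ω p).fieldRange.toIntermediateField fun c => by
      obtain ⟨d, rfl⟩ := IsAlgClosed.exists_pow_nat_eq c hp
      exact ⟨algebraMap K Ω d, by rw [frobenius_def, map_pow]⟩, fun _ => Iff.rfl⟩
  have hu : IsUniformInducing (frobenius Ω p) := by
    refine Metric.isUniformInducing_iff.2
      ⟨uniformContinuous_addMonoidHom_of_continuous (continuous_pow p), fun δ hδ =>
        ⟨δ ^ p, pow_pos hδ p, fun {a b} e => ?_⟩⟩
    rw [dist_eq_norm, ← map_sub, frobenius_def, norm_pow] at e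
    rw [dist_eq_norm]
    exact lt_of_pow_lt_pow_left₀ p hδ.le e
  have : CompleteSpace T := by
    have e : (T : Set Ω) = Set.range (frobenius Ω p) := Set.ext hT
    exact IsComplete.completeSpace_coe (s := (T : Set Ω)) (e ▸ hu.isComplete_range)
  obtain ⟨b, hb, -⟩ := exists_psp p (d1.trans_ne Fintype.card_ne_zero)
  have : FiniteDimensional T Ω := by
    refine ⟨Submodule.fg_def.2 ⟨_, Set.finite_range b, Submodule.eq_top_iff'.2 fun z => ?_⟩⟩
    obtain ⟨c, rfl⟩ := hb z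
    exact sum_mem fun a _ => Submodule.smul_mem _ (⟨c a ^ p, (hT _).2 ⟨_, rfl⟩⟩ : T)
      (Submodule.subset_span ⟨a, rfl⟩)
  obtain ⟨f, f1, f2, f3⟩ := Submodule.exists_fun_fin_finrank_span_eq T (Set.range j)
  choose g hg using f1
  have h5 : PIn p f := fun c hc β => (pow_eq_zero_iff hp.ne').1 (congrArg Subtype.val
    (Fintype.linearIndependent_iff.1 f3 (fun β => ⟨c β ^ p, (hT _).2 ⟨_, rfl⟩⟩) hc β))
  have h6 : PSp p f := fun z => by
    obtain ⟨c, hc⟩ := (Submodule.mem_span_range_iff_exists_fun T).1 (f2.symm ▸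
      (Submodule.closed_of_finiteDimensional _).closure_subset_iff.2 Submodule.subset_span (hc z) :
        z ∈ Submodule.span T (Set.range f))
    choose d hd using fun i => (hT _).1 (c i).2
    exact ⟨d, hc.symm.trans (Finset.sum_congr rfl fun i _ => congrArg (· * f i) (hd i).symm)⟩
  have h7 : PIn p fun β => (j : E →+* Ω) (g β) := by simpa only [RingHom.coe_coe, hg] using h5
  exact ⟨_, inferInstance, g, psp_of_pin p (h7.of_map p _) h4.1
    (h4.2.trans (d1.symm.trans (pdeg_of p h6 h5)).le), h7⟩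

end Pool.Agent.Work.MP_ffcd14_ag.Ry
end

-- merged part: Pool.Agent.Work.MP_ffcd14_ag.Ry.W5
section
/-!
# Products

Plan.  `exists_joint`: copy `exists_joint` of `Tr/V12`.  The model `τ` is given by `exists_ort`
for the norms of the translated characters, which replace `t`, `t'` (`cl_sub`, `Pt.ch_crd`);
`Ort.comp`, `Ort.exists_iso`, `Ort.sep_sub`, `Ort.sep_step`, `ort_map`.  The orthogonality of the
translated characters of `z` is used in the covering property, to embed the model in `z.Ω`.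
`mlt_prod`: copy `V13_joint` and `mlt_prod` of `Tr/V13`; the set `S''` satisfies `Ov` for
`Sum.elim c c'`, `Sum.elim y y'`.
-/

namespace Pool.Agent.Work.MP_ffcd14_ag.Ry

open MvPolynomial Filter Topology Tr
open scoped ENNReal

set_option linter.unusedSectionVars false

universe u

variable {K : Type u} [NontriviallyNormedField K] [IsUltrametricDist K] [CompleteSpace K]
  [IsAlgClosed K] {Ω Ω' : Type u} [NormedField Ω] [NormedAlgebra K Ω] [NormedField Ω']
  [NormedAlgebra K Ω'] {ι ι' ι'' κ κ' : Type} [Fintype κ] [DecidableEq κ] [Fintype κ']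
  [DecidableEq κ']

variable [Fintype ι] [DecidableEq ι] [Fintype ι'] [DecidableEq ι'] [Fintype ι''] [DecidableEq ι'']
  (p : ℕ) [Fact p.Prime] [CharP K p] (hΓ : (Gam K : Set ℝ).Countable)

include p hΓ

omit p hΓ in
theorem W5_sh (ξ : Pt K ι) (μ : κ → ι) (c : κ → K) (k : κ) :
    sh ξ (crd μ) c k = ξ.x (μ k) - algebraMap K ξ.Ω (c k) :=
  congrArg (· - algebraMap K ξ.Ω (c k)) (ξ.ch_crd μ k)

omit p hΓ in
theorem W5_sub {t : κ → Ω} (h : Ort K t) :
    Ort K fun k => (⟨t k, subset_cl _ ⟨k, rfl⟩⟩ : cl K (Set.range t)) :=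
  (ort_map (iso_val (cl K (Set.range t)))).1 h

omit p hΓ in
theorem W5_fin {S : Set (Pt K ι)} {χ : κ → ι → ℤ} {A : Type} [Fintype A] {ζ : A → Pt K ι}
    (h : Fam S χ ζ) {P Q R : Pt K ι → Prop}
    (hc : ∀ z, P z → Q z → R z → ∃ a, (ζ a).Le z) {n : ℕ} (hn : ∑ a, (ζ a).dg χ = n) :
    ∃ (m : ℕ) (ζ : Fin m → Pt K ι), Fam S χ ζ ∧ (∀ z, P z → Q z → R z → ∃ a, (ζ a).Le z) ∧
      ∑ a, (ζ a).dg χ = n := by
  obtain ⟨m, ζ, h1, h2, h3⟩ := V12_fin h (P := P) (Q := fun z => Q z ∧ R z)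
    (fun z a b => hc z a b.1 b.2) hn
  exact ⟨m, ζ, h1, fun z a b c => h2 z a ⟨b, c⟩, h3⟩

theorem exists_joint (e : ι ⊕ ι' ≃ ι'') (μ : κ → ι) (μ' : κ' → ι') (c : κ → K) (c' : κ' → K)
    {ξ : Pt K ι} {ξ' : Pt K ι'} (ht : ξ.Tight) (ht' : ξ'.Tight) (hf : ξ.Fd (crd μ))
    (hf' : ξ'.Fd (crd μ')) (ho : Ort K (sh ξ (crd μ) c)) (ho' : Ort K (sh ξ' (crd μ') c')) :
    ∃ (m : ℕ) (ζ : Fin m → Pt K ι''),
      Fam {z | ξ.Le (z.res fun i => e (Sum.inl i)) ∧ ξ'.Le (z.res fun i => e (Sum.inr i)) ∧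
        Ort K (sh z (crd fun k => e (Sum.map μ μ' k)) (Sum.elim c c'))}
        (crd fun k => e (Sum.map μ μ' k)) ζ ∧
      (∀ z : Pt K ι'', ξ.Le (z.res fun i => e (Sum.inl i)) → ξ'.Le (z.res fun i => e (Sum.inr i)) →
        Ort K (sh z (crd fun k => e (Sum.map μ μ' k)) (Sum.elim c c')) → ∃ a, (ζ a).Le z) ∧
      ∑ a, (ζ a).dg (crd fun k => e (Sum.map μ μ' k)) = ξ.dg (crd μ) * ξ'.dg (crd μ') := by
  obtain ⟨G, τ, gτ, tτ, hτ⟩ := exists_ort (K := K) hΓ
    (y := Sum.elim (fun k => ‖sh ξ (crd μ) c k‖) fun k => ‖sh ξ' (crd μ') c' k‖) (by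
      rintro (k | k)
      exacts [norm_pos_iff.2 (ho.1 k), norm_pos_iff.2 (ho'.1 k)])
  have c1 := W5_sh ξ μ c
  have c2 := W5_sh ξ' μ' c'
  have c3 : cl K (Set.range (ξ.ch (crd μ))) = cl K (Set.range (sh ξ (crd μ) c)) := (cl_sub _ c).symm
  have c4 : cl K (Set.range (ξ'.ch (crd μ'))) = cl K (Set.range (sh ξ' (crd μ') c')) :=
    (cl_sub _ c').symm
  unfold Pt.dg
  unfold Pt.Fd at hf hf'
  rw [c3] at hf ⊢
  rw [c4] at hf' ⊢
  clear c3 c4
  generalize sh ξ (crd μ) c = t at hf c1 ho hτ ⊢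
  generalize sh ξ' (crd μ') c' = t' at hf' c2 ho' hτ ⊢
  have n1 : ∀ k, ‖t k‖ = ‖τ (Sum.inl k)‖ := fun k => (hτ (Sum.inl k)).symm
  have n2 : ∀ k, ‖t' k‖ = ‖τ (Sum.inr k)‖ := fun k => (hτ (Sum.inr k)).symm
  have g1 : Ort K fun k => τ (Sum.inl k) := gτ.comp Sum.inl_injective
  have g2 : Ort K fun k => τ (Sum.inr k) := gτ.comp Sum.inr_injective
  have e0 : τ = Sum.elim (fun k => τ (Sum.inl k)) fun k => τ (Sum.inr k) :=
    funext fun k => by cases k <;> rfl
  have b1 := cl_sub_top (K := K) t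
  have b2 := cl_sub_top (K := K) t'
  obtain ⟨s, hs⟩ : ∃ s : κ → cl K (Set.range t), s = fun k => ⟨t k, subset_cl _ ⟨k, rfl⟩⟩ :=
    ⟨_, rfl⟩
  obtain ⟨s', hs'⟩ : ∃ s' : κ' → cl K (Set.range t'), s' = fun k => ⟨t' k, subset_cl _ ⟨k, rfl⟩⟩ :=
    ⟨_, rfl⟩
  rw [← hs] at b1
  rw [← hs'] at b2
  have d1 : ∀ k, algebraMap _ ξ.Ω (s k) = t k := fun k => by rw [hs]; rfl
  have d2 : ∀ k, algebraMap _ ξ'.Ω (s' k) = t' k := fun k => by rw [hs']; rfl
  have m1 : ∀ k, ‖s k‖ = ‖τ (Sum.inl k)‖ := fun k => by rw [hs]; exact n1 k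
  have m2 : ∀ k, ‖s' k‖ = ‖τ (Sum.inr k)‖ := fun k => by rw [hs']; exact n2 k
  have o1 : Ort K s := hs ▸ W5_sub ho
  have o2 : Ort K s' := hs' ▸ W5_sub ho'
  obtain ⟨α, iα, hα⟩ := o1.exists_iso b1 g1 fun k => (m1 k).symm
  obtain ⟨α', iα', hα'⟩ := o2.exists_iso b2 g2 fun k => (m2 k).symm
  obtain ⟨C⟩ := exists_cmp (F := ξ.Ω) p α
    (o1.sep_sub p b1 (e0 ▸ gτ) (e0 ▸ tτ) α hα)
  have iφ := V12_iso iα C
  have f1 : ∀ a k, C.φ a (t k) = C.ι a (τ (Sum.inl k)) := fun a k => by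
    rw [← d1, C.cmp, hα]
  have hC' : ∀ a, Nonempty (Cmp (F := ξ'.Ω) ((C.ι a).comp α')) := fun a => by
    have := C.fd a
    exact exists_cmp p _ (ho.sep_step p (e0 ▸ gτ) (e0 ▸ tτ) (C.φ a) (C.ι a) (C.gen a)
      (f1 a) o2 b2 _ fun k => congrArg (C.ι a) (hα' k))
  obtain ⟨C'⟩ : Nonempty (∀ a, Cmp (F := ξ'.Ω) ((C.ι a).comp α')) := inferInstance
  have iφ' := fun a => V12_iso (Ω := ξ'.Ω) (s := Set.range t') ((C.iso a).comp iα') (C' a)
  have f2 : ∀ a b k, (C' a).φ b (t' k) = (C' a).ι b (C.ι a (τ (Sum.inr k))) :=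
    fun a b k => (congrArg _ (d2 k).symm).trans (((C' a).cmp b _).trans
      (congrArg (fun z => (C' a).ι b (C.ι a z)) (hα' k)))
  obtain ⟨x, x1, x2⟩ : ∃ x : ∀ a b, ι'' → ((C' a).L b).Ω,
      (∀ a b i, x a b (e (Sum.inl i)) = (C' a).ι b (C.φ a (ξ.x i))) ∧
        ∀ a b i, x a b (e (Sum.inr i)) = (C' a).φ b (ξ'.x i) :=
    ⟨fun a b i => Sum.elim (fun i => (C' a).ι b (C.φ a (ξ.x i))) (fun i => (C' a).φ b (ξ'.x i))
      (e.symm i), fun a b i => by beta_reduce; rw [e.symm_apply_apply]; rfl,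
      fun a b i => by beta_reduce; rw [e.symm_apply_apply]; rfl⟩
  have x0 : ∀ a b i, x a b i ≠ 0 := by
    intro a b
    refine e.surjective.forall.2 (Sum.forall.2 ⟨fun i => ?_, fun i => ?_⟩)
    · exact (x1 a b i).trans_ne ((map_ne_zero _).2 ((map_ne_zero _).2 (ξ.ne i)))
    · exact (x2 a b i).trans_ne ((map_ne_zero _).2 (ξ'.ne i))
  have x3 : ∀ a b k, x a b (e (Sum.map μ μ' k)) - algebraMap K _ (Sum.elim c c' k) =
      (((C' a).ι b).comp (C.ι a)) (τ k) := by
    rintro a b (k | k)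
    · refine Eq.trans ?_ (congrArg ((C' a).ι b) ((congrArg (C.φ a) (c1 k).symm).trans (f1 a k)))
      exact (congrArg₂ (· - ·) (x1 a b (μ k)) ((((C' a).ι b).comp (C.φ a)).commutes (c k)).symm).trans
        (map_sub (((C' a).ι b).comp (C.φ a)) _ _).symm
    · refine Eq.trans ?_ ((congrArg ((C' a).φ b) (c2 k).symm).trans (f2 a b k))
      exact (congrArg₂ (· - ·) (x2 a b (μ' k)) (((C' a).φ b).commutes (c' k)).symm).trans
        (map_sub ((C' a).φ b) _ _).symm
  have x4 : ∀ a b, sh (⟨(C' a).L b, x a b, x0 a b⟩ : Pt K ι'') (crd fun k => e (Sum.map μ μ' k))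
      (Sum.elim c c') = fun k => (((C' a).ι b).comp (C.ι a)) (τ k) :=
    fun a b => funext fun k => (W5_sh _ _ _ k).trans (x3 a b k)
  obtain ⟨ζ, hζ⟩ : ∃ ζ : (Σ a : Fin C.m, Fin (C' a).m) → Pt K ι'',
      ζ = fun c => ⟨(C' c.1).L c.2, x c.1 c.2, x0 c.1 c.2⟩ := ⟨_, rfl⟩
  have r1 : ∀ a b, cl K (Set.range ((⟨(C' a).L b, x a b, x0 a b⟩ : Pt K ι'').ch
      (crd fun k => e (Sum.map μ μ' k)))) = (((C' a).ι b).comp (C.ι a)).fieldRange := by
    intro a b
    rw [(((C' a).iso b).comp (C.iso a)).range_eq tτ]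
    exact (cl_sub _ (Sum.elim c c')).symm.trans (congrArg (fun y => cl K (Set.range y)) (x4 a b))
  have r2 : ∀ a b, (ζ ⟨a, b⟩).dg (crd fun k => e (Sum.map μ μ' k)) =
      Module.finrank (C.ι a).fieldRange (C.L a).Ω *
        Module.finrank ((C' a).ι b).fieldRange ((C' a).L b).Ω := by
    intro a b
    rw [← V12_tower, ← r1, hζ]
    rfl
  refine W5_fin (ζ := ζ) ⟨?_, ?_, ?_, ?_⟩ ?_ ?_
  · rintro ⟨a, b⟩
    rw [hζ]
    exact ⟨⟨((C' a).ι b).comp (C.φ a), ((C' a).iso b).comp (iφ a), fun i => (x1 a b i).symm⟩,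
      ⟨(C' a).φ b, iφ' a b, fun i => (x2 a b i).symm⟩,
      (x4 a b).symm ▸ (ort_map (((C' a).iso b).comp (C.iso a))).2 gτ⟩
  · rintro ⟨a, b⟩
    rw [hζ]
    have k0 : ∀ i, x a b i ∈ cl K (Set.range (x a b)) := fun i => subset_cl _ ⟨i, rfl⟩
    have k1 := V12_mem (iφ' a b) ht' (s' := Set.range (x a b))
      (by rintro _ ⟨i, rfl⟩; exact x2 a b i ▸ k0 _)
    have k2 := V12_mem (((C' a).iso b).comp (iφ a)) ht (s' := Set.range (x a b))
      (by rintro _ ⟨i, rfl⟩; exact (x1 a b i).subst (k0 _))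
    have k3 := V12_mem (((C' a).iso b).comp (C.iso a)) tτ (s' := Set.range (x a b))
      (by rintro _ ⟨i, rfl⟩; exact x3 a b i ▸ sub_mem (k0 _) (algebraMap_mem _ _))
    have k4 := V12_mem ((C' a).iso b) (V12_top (C.gen a)) (s' := Set.range (x a b))
      (by rintro _ (⟨z, rfl⟩ | ⟨z, rfl⟩); exacts [k2 z, k3 z])
    refine top_le_iff.1 (((C' a).gen b).ge.trans (IntermediateField.adjoin_le_iff.2 ?_))
    rintro _ (⟨z, rfl⟩ | ⟨z, rfl⟩)
    exacts [k1 z, k4 z]
  · rintro ⟨a, b⟩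
    have := C.fd a
    have := (C' a).fd b
    refine Module.finite_of_finrank_pos (lt_of_lt_of_eq ?_ (r2 a b).symm)
    exact Nat.mul_pos Module.finrank_pos Module.finrank_pos
  · rintro ⟨a, b⟩ ⟨a', b'⟩ h
    rw [hζ] at h
    obtain ⟨ψ, iψ, hψ⟩ : ∃ ψ : ((C' a).L b).Ω →ₐ[K] ((C' a').L b').Ω, Iso ψ ∧
      ∀ i, ψ (x a b i) = x a' b' i := h
    have k1 := V12_ext (iψ.comp (iφ' a b)) (iφ' a' b') ht' (by
      rintro _ ⟨i, rfl⟩
      exact (congrArg ψ (x2 a b i).symm).trans ((hψ _).trans (x2 a' b' i)))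
    have k2 := V12_ext (iψ.comp (((C' a).iso b).comp (iφ a))) (((C' a').iso b').comp (iφ a')) ht (by
      rintro _ ⟨i, rfl⟩
      exact (congrArg ψ (x1 a b i).symm).trans ((hψ _).trans (x1 a' b' i)))
    have k3 := V12_ext (iψ.comp (((C' a).iso b).comp (C.iso a)))
      (((C' a').iso b').comp (C.iso a')) tτ (by
      rintro _ ⟨i, rfl⟩
      exact (congrArg ψ (x3 a b i).symm).trans ((map_sub ψ _ _).trans
        ((congrArg₂ (· - ·) (hψ _) (ψ.commutes _)).trans (x3 a' b' i))))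
    obtain rfl := C.ineq a a' _ (ψ.comp ((C' a).ι b)) ((C' a').ι b') k2 k3
    have k4 := V12_ext (iψ.comp ((C' a).iso b)) ((C' a).iso b') (V12_top (C.gen a))
      (by rintro _ (⟨z, rfl⟩ | ⟨z, rfl⟩); exacts [k2 z, k3 z])
    obtain rfl := (C' a).ineq b b' _ ψ (AlgHom.id K _) k1 k4
    rfl
  · rintro z ⟨θ, iθ, hθ⟩ ⟨θ', iθ', hθ'⟩ hz
    have hθ : ∀ i, θ (ξ.x i) = z.x (e (Sum.inl i)) := hθ
    have hθ' : ∀ i, θ' (ξ'.x i) = z.x (e (Sum.inr i)) := hθ'
    have u1 : ∀ k, θ (t k) = sh z (crd fun k => e (Sum.map μ μ' k)) (Sum.elim c c') (Sum.inl k) :=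
      fun k => by rw [c1, map_sub, hθ, AlgHom.commutes, W5_sh]; rfl
    have u2 : ∀ k, θ' (t' k) = sh z (crd fun k => e (Sum.map μ μ' k)) (Sum.elim c c') (Sum.inr k) :=
      fun k => by rw [c2, map_sub, hθ', AlgHom.commutes, W5_sh]; rfl
    obtain ⟨η, iη, hη⟩ := gτ.exists_iso tτ hz (by
      rintro (k | k)
      · exact (congrArg norm (u1 k)).symm.trans ((iθ _).trans (n1 k))
      · exact (congrArg norm (u2 k)).symm.trans ((iθ' _).trans (n2 k)))
    obtain ⟨a, ψ, iψ, k1, k2⟩ := C.cov z.toCF θ η iη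
      (V12_ext (iθ.comp (iso_val _)) (iη.comp iα) b1 (by
        rintro _ ⟨k, rfl⟩
        exact ((congrArg θ (d1 k)).trans (u1 _)).trans
          ((congrArg η (hα k)).trans (hη _)).symm))
    obtain ⟨b, ψ', iψ', k3, k4⟩ := (C' a).cov z.toCF θ' ψ iψ
      (V12_ext (iθ'.comp (iso_val _)) (iψ.comp ((C.iso a).comp iα')) b2 (by
        rintro _ ⟨k, rfl⟩
        exact ((congrArg θ' (d2 k)).trans (u2 _)).trans
          ((k2 _).trans ((congrArg η (hα' k)).trans (hη _))).symm))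
    refine ⟨⟨a, b⟩, ?_⟩
    rw [hζ]
    refine ⟨ψ', iψ', e.surjective.forall.2 (Sum.forall.2 ⟨fun i => ?_, fun i => ?_⟩)⟩
    · exact (congrArg ψ' (x1 a b i)).trans ((k4 _).trans ((k1 _).trans (hθ i)))
    · exact (congrArg ψ' (x2 a b i)).trans ((k3 _).trans (hθ' i))
  · rw [Fintype.sum_sigma]
    simp only [r2, ← Finset.mul_sum, Cmp.sum, ← Finset.sum_mul]

theorem W5_joint (e : ι ⊕ ι' ≃ ι'') {μ : κ → ι} {μ' : κ' → ι'} {c : κ → K} {c' : κ' → K}
    {S : Set (Pt K ι)} {S' : Set (Pt K ι')} {y : κ → ℝ} {y' : κ' → ℝ} (h : Nc S (crd μ) c y)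
    (h' : Nc S' (crd μ') c' y') {n n' : ℕ}
    {ξ : Fin n → Pt K ι} {ξ' : Fin n' → Pt K ι'} (f : Fam S (crd μ) ξ) (f' : Fam S' (crd μ') ξ') :
    ∃ (A : Type) (_ : Fintype A) (η : A → Pt K ι''),
      Fam {z : Pt K ι'' | (z.res fun i => e (Sum.inl i)) ∈ S ∧ (z.res fun i => e (Sum.inr i)) ∈ S' ∧
        Ort K (sh z (crd fun k => e (Sum.map μ μ' k)) (Sum.elim c c'))}
        (crd fun k => e (Sum.map μ μ' k)) η ∧
      (∀ z : Pt K ι'', (∃ a, (ξ a).Le (z.res fun i => e (Sum.inl i))) →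
        (∃ b, (ξ' b).Le (z.res fun i => e (Sum.inr i))) →
        Ort K (sh z (crd fun k => e (Sum.map μ μ' k)) (Sum.elim c c')) → ∃ c, (η c).Le z) ∧
      ∑ c, (η c).dg (crd fun k => e (Sum.map μ μ' k)) =
        (∑ a, (ξ a).dg (crd μ)) * ∑ b, (ξ' b).dg (crd μ') := by
  choose m ζ g d s using fun a : Fin n × Fin n' => exists_joint p hΓ e μ μ' c c' (f.tight a.1)
    (f'.tight a.2) (f.fd a.1) (f'.fd a.2) (h.ort _ (f.mem _)) (h'.ort _ (f'.mem _))
  refine ⟨Σ a, Fin (m a), inferInstance, fun c => ζ c.1 c.2, ⟨fun c => ?_, fun c => (g _).tight _,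
    fun c => (g _).fd _, ?_⟩, ?_, ?_⟩
  · exact ⟨(h.sat _ _ ((g _).mem c.2).1).1 (f.mem _), (h'.sat _ _ ((g _).mem c.2).2.1).1 (f'.mem _),
      ((g _).mem c.2).2.2⟩
  · rintro ⟨⟨a, b⟩, c⟩ ⟨⟨a', b'⟩, c'⟩ k
    obtain rfl : a = a' := f.ineq _ _
      (Pt.le_of_tight (f.tight a) (((g _).mem c).1.trans (k.res _)) ((g _).mem c').1)
    obtain rfl : b = b' := f'.ineq _ _
      (Pt.le_of_tight (f'.tight b) (((g _).mem c).2.1.trans (k.res _)) ((g _).mem c').2.1)
    rw [(g _).ineq c c' k]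
  · rintro z ⟨a, ha⟩ ⟨b, hb⟩ hz
    obtain ⟨c, hc⟩ := d (a, b) z ha hb hz
    exact ⟨⟨(a, b), c⟩, hc⟩
  · rw [Fintype.sum_sigma, Finset.sum_mul_sum, ← Fintype.sum_prod_type']
    exact Finset.sum_congr rfl fun a _ => s a

theorem mlt_prod (e : ι ⊕ ι' ≃ ι'') {μ : κ → ι} {μ' : κ' → ι'} {c : κ → K} {c' : κ' → K}
    {S : Set (Pt K ι)} {S' : Set (Pt K ι')} {y : κ → ℝ} {y' : κ' → ℝ} (h : Nc S (crd μ) c y)
    (h' : Nc S' (crd μ') c' y') :
    mlt {z : Pt K ι'' | (z.res fun i => e (Sum.inl i)) ∈ S ∧ (z.res fun i => e (Sum.inr i)) ∈ S' ∧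
        Ort K (sh z (crd fun k => e (Sum.map μ μ' k)) (Sum.elim c c'))}
      (crd fun k => e (Sum.map μ μ' k)) = mlt S (crd μ) * mlt S' (crd μ') := by
  have ho : Ov {z : Pt K ι'' | (z.res fun i => e (Sum.inl i)) ∈ S ∧ (z.res fun i => e (Sum.inr i)) ∈ S' ∧
      Ort K (sh z (crd fun k => e (Sum.map μ μ' k)) (Sum.elim c c'))}
      (crd fun k => e (Sum.map μ μ' k)) (Sum.elim c c') (Sum.elim y y') := by
    refine ⟨fun z hz => hz.2.2, ?_⟩
    rintro z hz (k | k)
    · have := h.nrm _ hz.1 k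
      rw [W5_sh] at this ⊢
      exact this
    · have := h'.nrm _ hz.2.1 k
      rw [W5_sh] at this ⊢
      exact this
  refine le_antisymm (iSup₂_le ?_) ?_
  · rintro k ⟨m, N, α, ζ, h1, h2⟩
    obtain ⟨n, ξ, f, b⟩ := h.exists_dom _ fun b => (h1 b).1
    obtain ⟨n', ξ', f', b'⟩ := h'.exists_dom _ fun b => (h1 b).2.1
    obtain ⟨A, _, η, g, d, s⟩ := W5_joint p hΓ e h h' f f'
    have := ho.le_of_ind (S := Set.range ζ) g.mem g.fd
      (Set.forall_mem_range.2 fun a => d _ (b a) (b' a) (h1 a).2.2) ⟨m, N, α, ζ, fun a => ⟨a, rfl⟩, h2⟩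
    rw [s] at this
    exact (Nat.cast_le.2 this).trans ((Nat.cast_mul _ _).le.trans
      (mul_le_mul' (h.toOv.ind_of_fam f).le_mlt (h'.toOv.ind_of_fam f').le_mlt))
  · rw [mlt, mlt]
    simp only [ENNReal.iSup_mul, ENNReal.mul_iSup, iSup_le_iff]
    intro k' hk' k hk
    obtain ⟨n, ξ, f, b⟩ := h.fam hk
    obtain ⟨n', ξ', f', b'⟩ := h'.fam hk'
    obtain ⟨A, _, η, g, -, s⟩ := W5_joint p hΓ e h h' f f'
    refine le_trans ?_ (ho.ind_of_fam g).le_mlt
    rw [s]
    exact_mod_cast Nat.mul_le_mul b b'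

end Pool.Agent.Work.MP_ffcd14_ag.Ry
end
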