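import Pool.Agent.Work.MP_ffcd14_ag.Ry.W1
import Pool.Agent.Work.MP_ffcd14_ag.Ry.N2
import Pool.Agent.Work.MP_ffcd14_ag.Ry.W5

-- merged part: Pool.Agent.Work.MP_ffcd14_ag.Ry.K0
section
/-!
# Lifting a finitely generated subfield of the residue field

Plan.  `hensel`: the map `x ↦ x - f x / f' a` is a contraction of the closed ball of radius
`‖f a‖ < 1` around `a` (for `x`, `y` in the ball, `f x - f y = (x - y) q` with
`‖q - f' a‖ ≤ ‖f a‖`: use `Polynomial.evalSubFactor`, `Polynomial.binomExpansion` or an induction on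
`f`); `ContractingWith.exists_fixedPoint'` or a Cauchy sequence.  `exists_sec`: `L` has a separating
transcendence basis `s` (`exists_isTranscendenceBasis_and_isSeparable_of_perfectField`); lift it
(`rs_surj`).  Non-zero polynomials over `k` in the lifts have norm one (`rs_evk`, `rs_ne_zero`), so
`evk` extends to `E = k(s)` (`AlgebraicIndependent.aevalEquivField`, `IsFractionRing.lift`,
`rs_div`).  `L = E(θ)` (`Field.exists_primitive_element`); lift the minimal polynomial, take the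
root given by `hensel`, and extend (`PowerBasis.lift`, `IntermediateField.adjoinRootEquivAdjoin`,
with the algebra structure `E → Ω` from the first step).
-/

namespace Pool.Agent.Work.MP_ffcd14_ag.Ry

open MvPolynomial Filter Topology Tr
open scoped ENNReal

set_option linter.unusedSectionVars false

universe u

variable {k K : Type u} [Field k] [IsAlgClosed k] [NontriviallyNormedField K] [Cf k K]
  [IsUltrametricDist K] [CompleteSpace K] [IsAlgClosed K] {Ω Ω' : Type u} [NormedField Ω]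
  [NormedAlgebra K Ω] [IsUltrametricDist Ω] [NormedField Ω'] [NormedAlgebra K Ω']
  [IsUltrametricDist Ω'] {ι κ n n' V : Type} [Fintype κ] [DecidableEq κ] [Fintype n]
  [DecidableEq n] [Fintype n'] [DecidableEq n']

theorem K0_tay (f : Polynomial Ω) (hf : ∀ i, ‖f.coeff i‖ ≤ 1) {x y : Ω} (hx : ‖x‖ ≤ 1)
    (hy : ‖y‖ ≤ 1) :
    (∃ p, ‖p‖ ≤ 1 ∧ f.eval x = f.eval y + f.derivative.eval y * (x - y) + p * (x - y) ^ 2) ∧
      ∃ q, ‖q‖ ≤ 1 ∧ f.derivative.eval x - f.derivative.eval y = q * (x - y) := by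
  obtain ⟨F, rfl⟩ := (Polynomial.mem_lifts (f := (OO Ω).subtype) f).1
    ((Polynomial.lifts_iff_coeff_lifts f).2 fun i => ⟨⟨f.coeff i, hf i⟩, rfl⟩)
  have e : ∀ (G : Polynomial (OO Ω)) (z : OO Ω),
      (G.map (OO Ω).subtype).eval z.1 = (OO Ω).subtype (G.eval z) := fun G z =>
    Polynomial.eval_map_apply (p := G) (OO Ω).subtype z
  obtain ⟨p, hp⟩ := F.binomExpansion ⟨y, hy⟩ (⟨x, hx⟩ - ⟨y, hy⟩)
  obtain ⟨q, hq⟩ := F.derivative.evalSubFactor ⟨x, hx⟩ ⟨y, hy⟩
  rw [add_sub_cancel] at hp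
  rw [Polynomial.derivative_map]
  refine ⟨⟨p.1, p.2, ?_⟩, q.1, q.2, ?_⟩
  · rw [e F ⟨x, hx⟩, e F ⟨y, hy⟩, e _ ⟨y, hy⟩, hp]
    simp
  · rw [e _ ⟨x, hx⟩, e _ ⟨y, hy⟩, ← map_sub, hq]
    simp

theorem hensel [CompleteSpace Ω] (f : Polynomial Ω) (hf : ∀ i, ‖f.coeff i‖ ≤ 1) {a : Ω}
    (ha : ‖a‖ ≤ 1) (h0 : ‖f.eval a‖ < 1) (h1 : ‖f.derivative.eval a‖ = 1) :
    ∃ x, f.eval x = 0 ∧ ‖x - a‖ < 1 := by
  set d := f.derivative.eval a with hd
  set r := ‖f.eval a‖ with hr
  have hr0 : 0 ≤ r := norm_nonneg _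
  have hd0 : d ≠ 0 := norm_ne_zero_iff.1 (h1 ▸ one_ne_zero)
  have hin : ∀ x ∈ Metric.closedBall a r, ‖x‖ ≤ 1 := by
    intro x hx
    rw [mem_closedBall_iff_norm] at hx
    have := IsUltrametricDist.norm_add_le_max a (x - a)
    rw [add_sub_cancel] at this
    exact this.trans (max_le ha (hx.trans h0.le))
  let T : Ω → Ω := fun x => x - f.eval x / d
  have hT : ∀ x ∈ Metric.closedBall a r, ∀ y ∈ Metric.closedBall a r,
      ‖T x - T y‖ ≤ r * ‖x - y‖ := by
    intro x hx y hy
    obtain ⟨p, hp, e1⟩ := (K0_tay f hf (hin x hx) (hin y hy)).1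
    obtain ⟨q, hq, e2⟩ := (K0_tay f hf ha (hin y hy)).2
    rw [mem_closedBall_iff_norm] at hx hy
    have hya : ‖a - y‖ ≤ r := by rwa [norm_sub_rev]
    have hxy : ‖x - y‖ ≤ r := by
      have := IsUltrametricDist.norm_add_le_max (x - a) (a - y)
      rw [sub_add_sub_cancel] at this
      exact this.trans (max_le hx hya)
    have e3 : T x - T y = (q * (a - y) + -p * (x - y)) * (x - y) / d := by
      simp only [T]
      rw [← e2, ← hd, e1]
      field_simp
      ring
    rw [e3, norm_div, h1, div_one, norm_mul]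
    refine mul_le_mul_of_nonneg_right
      ((IsUltrametricDist.norm_add_le_max _ _).trans (max_le ?_ ?_)) (norm_nonneg _)
    · rw [norm_mul]
      exact (mul_le_of_le_one_left (norm_nonneg _) hq).trans hya
    · rw [norm_mul, norm_neg]
      exact (mul_le_of_le_one_left (norm_nonneg _) hp).trans hxy
  have ham : a ∈ Metric.closedBall a r := Metric.mem_closedBall_self hr0
  have hmap : Set.MapsTo T (Metric.closedBall a r) (Metric.closedBall a r) := by
    intro x hx
    have h2 := hT x hx a ham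
    rw [mem_closedBall_iff_norm] at hx ⊢
    have h3 := IsUltrametricDist.norm_add_le_max (T x - T a) (T a - a)
    rw [sub_add_sub_cancel] at h3
    refine h3.trans (max_le (h2.trans (mul_le_of_le_one_right hr0 (hx.trans h0.le))) ?_)
    simp only [T]
    rw [sub_sub_cancel_left, norm_neg, norm_div, h1, div_one]
  have hc : ContractingWith ⟨r, hr0⟩ (hmap.restrict T _ _) :=
    ⟨h0, LipschitzWith.of_dist_le_mul fun x y => by
      rw [Subtype.dist_eq, Subtype.dist_eq, dist_eq_norm, dist_eq_norm]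
      exact hT x x.2 y y.2⟩
  obtain ⟨x, hx, hfx, -⟩ := ContractingWith.exists_fixedPoint'
    Metric.isClosed_closedBall.isComplete hmap hc ham (edist_ne_top _ _)
  refine ⟨x, ?_, (mem_closedBall_iff_norm.1 hx).trans_lt h0⟩
  have e : x - f.eval x / d = x := hfx
  rw [sub_eq_self, div_eq_zero_iff] at e
  exact e.resolve_right hd0

theorem K0_lift {k F O R : Type*} [Field k] [PerfectField k] [Field F] [Algebra k F]
    [Algebra.EssFiniteType k F] [CommRing O] [Field R] (π : O →+* R)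
    (hs : Function.Surjective π) (hu : ∀ z, π z ≠ 0 → IsUnit z)
    (hh : ∀ (P : Polynomial O) (a : O), π (P.eval a) = 0 → π (P.derivative.eval a) ≠ 0 →
      ∃ x, P.eval x = 0 ∧ π x = π a)
    (α : k →+* O) (j : F →+* R) (hj : ∀ c, π (α c) = j (algebraMap k F c)) :
    ∃ σ : F →+* O, (∀ c, σ (algebraMap k F c) = α c) ∧ ∀ y, π (σ y) = j y := by
  obtain ⟨s, hs1, hs2⟩ := exists_isTranscendenceBasis_and_isSeparable_of_perfectField k F
  have hr : Set.range ((↑) : s → F) = (s : Set F) := Subtype.range_coe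
  rw [← hr] at hs2
  have hi := hs1.1
  generalize ((↑) : s → F) = x at hs2 hi
  choose v hv using fun i : s => hs (j (x i))
  let g : MvPolynomial s k →+* O := eval₂Hom α v
  have hg : ∀ p, π (g p) = j (aeval x p) := by
    intro p
    induction p using MvPolynomial.induction_on with
    | C c => simp [g, hj]
    | add p q hp hq => simp only [map_add, hp, hq]
    | mul_X p i hp =>
      rw [map_mul, map_mul, map_mul, map_mul, hp, aeval_X, ← hv]
      simp [g]
  have hgu : ∀ p : nonZeroDivisors (MvPolynomial s k), IsUnit (g p) := by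
    intro p
    refine hu _ ?_
    rw [hg, map_ne_zero]
    exact fun h => nonZeroDivisors.coe_ne_zero p
      ((algebraicIndependent_iff.1 hi) _ h)
  let E := IntermediateField.adjoin k (Set.range x)
  let τ0 : FractionRing (MvPolynomial s k) →+* O := IsLocalization.lift hgu
  let τ : E →+* O := τ0.comp hi.aevalEquivField.symm.toRingEquiv.toRingHom
  have hτ0 : π.comp τ0 =
      (j.comp (algebraMap E F)).comp hi.aevalEquivField.toRingEquiv.toRingHom := by
    refine IsLocalization.ringHom_ext (nonZeroDivisors (MvPolynomial s k)) (RingHom.ext fun p => ?_)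
    change π (τ0 (algebraMap _ _ p)) = j (hi.aevalEquivField (algebraMap _ _ p) : F)
    rw [hi.aevalEquivField_algebraMap_apply_coe, IsLocalization.lift_eq, hg]
  have hτ : π.comp τ = j.comp (algebraMap E F) := by
    refine RingHom.ext fun y => ?_
    obtain ⟨z, rfl⟩ := hi.aevalEquivField.surjective y
    have := RingHom.congr_fun hτ0 z
    change π (τ0 (hi.aevalEquivField.symm (hi.aevalEquivField z))) = _
    rw [AlgEquiv.symm_apply_apply]
    exact this
  have hτk : ∀ c, τ (algebraMap k E c) = α c := by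
    intro c
    change τ0 (hi.aevalEquivField.symm (algebraMap k E c)) = _
    rw [AlgEquiv.commutes, IsScalarTower.algebraMap_apply k (MvPolynomial s k),
      IsLocalization.lift_eq]
    simp [g]
  have : Algebra.EssFiniteType E F := Algebra.EssFiniteType.of_comp k E F
  have : Module.Finite E F := Algebra.finite_of_essFiniteType_of_isAlgebraic
  let pb := Field.powerBasisOfFiniteOfSeparable E F
  have hev : ∀ (q : Polynomial E) (a : O), π a = j pb.gen →
      π (q.eval₂ τ a) = j (Polynomial.aeval pb.gen q) := by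
    intro q a ha
    rw [Polynomial.hom_eval₂, hτ, ha, Polynomial.aeval_def, Polynomial.hom_eval₂]
  obtain ⟨a, ha⟩ := hs (j pb.gen)
  obtain ⟨b, hb1, hb2⟩ := hh ((minpoly E pb.gen).map τ) a
    (by rw [Polynomial.eval_map, hev _ a ha, minpoly.aeval, map_zero])
    (by
      rw [Polynomial.derivative_map, Polynomial.eval_map, hev _ a ha, map_ne_zero]
      exact (Algebra.IsSeparable.isSeparable E pb.gen).aeval_derivative_ne_zero
        (minpoly.aeval E pb.gen))
  let _ : Algebra E O := τ.toAlgebra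
  have hb3 : Polynomial.aeval b (minpoly E pb.gen) = 0 := by
    rw [Polynomial.eval_map] at hb1
    exact hb1
  refine ⟨(pb.lift b hb3).toRingHom, fun c => ?_, fun y => ?_⟩
  · rw [IsScalarTower.algebraMap_apply k E F]
    exact ((pb.lift b hb3).commutes _).trans (hτk c)
  · obtain ⟨q, rfl⟩ := pb.exists_eq_aeval' y
    change π (pb.lift b hb3 _) = _
    rw [pb.lift_aeval]
    exact hev q b (hb2.trans ha)

theorem exists_sec [CompleteSpace Ω] (L : IntermediateField k (RF k K Ω)) (hL : L.FG) :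
    ∃ σ : L →+* Ω, Sec k K L σ := by
  have : Algebra.EssFiniteType k L := IntermediateField.essFiniteType_iff.2 hL
  have hq : ∀ z : OO Ω, rq k K Ω z = rs k K z.1 := fun z => (rs_of z.2).symm
  obtain ⟨σ, h1, h2⟩ := K0_lift (k := k) (F := L) (rq k K Ω) IsLocalRing.residue_surjective
    (fun z hz => by
      by_contra h
      exact hz ((IsLocalRing.residue_eq_zero_iff z).2 h))
    (fun P a h0 h1 => by
      have e : ∀ (G : Polynomial (OO Ω)) (z : OO Ω),
          (G.map (OO Ω).subtype).eval z.1 = (G.eval z).1 := fun G z =>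
        Polynomial.eval_map_apply (p := G) (OO Ω).subtype z
      rw [hq, rs_eq_zero (P.eval a).2, ← e] at h0
      rw [hq, rs_ne_zero (P.derivative.eval a).2, ← e, ← Polynomial.derivative_map] at h1
      obtain ⟨x, hx, hxa⟩ := hensel (P.map (OO Ω).subtype)
        (fun i => by rw [Polynomial.coeff_map]; exact (P.coeff i).2) a.2 h0 h1
      have hx1 : ‖x‖ ≤ 1 := by
        have := IsUltrametricDist.norm_add_le_max a.1 (x - a.1)
        rw [add_sub_cancel] at this
        exact this.trans (max_le a.2 hxa.le)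
      refine ⟨⟨x, hx1⟩, Subtype.ext ((e P ⟨x, hx1⟩).symm.trans hx), ?_⟩
      rw [hq, hq]
      exact (rs_eq hx1 a.2).2 hxa)
    ((ak k K Ω).codRestrict (OO Ω) fun c => norm_ak_le k K c) L.val.toRingHom
    (fun c => rfl)
  refine ⟨(OO Ω).subtype.comp σ, fun c => ?_, fun y => (σ y).2, fun y => ?_⟩
  · rw [RingHom.comp_apply, h1]
    rfl
  · exact (hq (σ y)).symm.trans (h2 y)

end Pool.Agent.Work.MP_ffcd14_ag.Ry
end

-- merged part: Pool.Agent.Work.MP_ffcd14_ag.Ry.K2
section
/-!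
# Change of the orthogonal family

Plan.  `deg_sec`: let `b` be a basis of `L` over `k(w)` and `G = cl (t, σ w)`.  The `σ (b a)` are
independent over `G` (`lin_le`), and their span is closed (`V5_closed`), contains `t` and the range
of `σ` (`σ` maps `k(w)` into `G`), and is a subring, so a field (finite dimension).
`deg_chg`: write `Q = B / N`.  For each `j` choose `c j` with `‖t' j ^ N‖ = ‖c j • t ^ B j‖`
(`mem_Gam`) and let `ε j` be the quotient.  First replace `L` by `L' = L(rs ε)`, which is finite over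
both `k(rs u)` and `k(rs u')` (`res_alg`; equal transcendence degrees), using
`IntermediateField.relfinrank_mul_relfinrank`.  Let `σ` be a lift of `L'` (`exists_sec`),
`s j = σ (rs (ε j)) * t ^ B j`, `F = cl (t, σ L')`, `F' = cl (s, σ L') = cl (t ^ B, σ L')`.
`Ort.deg_pert` replaces `(t, u)` by `(t, σ rs u)` and `(t' ^ N, u')` by `(c • s, σ rs u')`
(`ort_of`, `cl_smul`).  `deg_sec` gives `[F : cl (t, σ rs u)] = [F' : cl (t ^ B, σ rs u)] =
[L' : k(rs u)]` and `[F' : cl (s, σ rs u')] = [L' : k(rs u')]`; `Ort.relf_pow`, `Ort.deg_pow` for the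
block matrices `fromBlocks B 0 0 1`, `fromBlocks (N • 1) 0 0 1` give `[F : F'] = |det B|` and
`[Ω : cl (t' ^ N, u')] = N ^ card κ [Ω : cl (t', u')]`.  See `deg_chg` in `Tr/V5`.
-/

namespace Pool.Agent.Work.MP_ffcd14_ag.Ry

open MvPolynomial Filter Topology Tr
open scoped ENNReal

set_option linter.unusedSectionVars false

universe u

variable {k K : Type u} [Field k] [IsAlgClosed k] [NontriviallyNormedField K] [Cf k K]
  [IsUltrametricDist K] [CompleteSpace K] [IsAlgClosed K] {Ω Ω' : Type u} [NormedField Ω]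
  [NormedAlgebra K Ω] [IsUltrametricDist Ω] [NormedField Ω'] [NormedAlgebra K Ω']
  [IsUltrametricDist Ω'] {ι κ n n' V : Type} [Fintype κ] [DecidableEq κ] [Fintype n]
  [DecidableEq n] [Fintype n'] [DecidableEq n']

variable [CompleteSpace Ω]

theorem Sec.rind {L : IntermediateField k (RF k K Ω)} {σ : L →+* Ω} (hσ : Sec k K L σ) {w : n → L}
    (hw : AlgebraicIndependent k w) : RInd k K fun i => σ (w i) := by
  refine ⟨fun i => hσ.le _, ?_⟩
  simp only [hσ.res]
  exact hw.map' (f := L.val) L.val.injective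

theorem K2_map {R : Type u} [Field R] [Algebra k R] (L : IntermediateField k R) (w : n → L) :
    (IntermediateField.adjoin k (Set.range w)).map L.val =
      IntermediateField.adjoin k (Set.range fun i => (w i).1) := by
  rw [IntermediateField.adjoin_map, ← Set.range_comp]
  rfl

theorem K2_fin {R : Type u} [Field R] [Algebra k R] {L : IntermediateField k R} (hL : L.FG)
    (w : n → L) (ha : ∀ y : R,
      IsAlgebraic (IntermediateField.adjoin k (Set.range fun i => (w i).1)) y) :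
    0 < (IntermediateField.adjoin k (Set.range fun i => (w i).1)).relfinrank L ∧
      Module.finrank (IntermediateField.adjoin k (Set.range w)) L =
        (IntermediateField.adjoin k (Set.range fun i => (w i).1)).relfinrank L := by
  constructor
  · have hle : IntermediateField.adjoin k (Set.range fun i => (w i).1) ≤ L :=
      IntermediateField.adjoin_le_iff.2 (by rintro _ ⟨i, rfl⟩; exact (w i).2)
    generalize IntermediateField.adjoin k (Set.range fun i => (w i).1) = E at ha hle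
    obtain ⟨S, rfl⟩ := hL
    rw [IntermediateField.relfinrank_eq_finrank_of_le hle, IntermediateField.extendScalars_adjoin]
    have := IntermediateField.finiteDimensional_adjoin (K := E) (S := (S : Set R))
      fun x _ => (ha x).isIntegral
    exact Module.finrank_pos
  · have e := IntermediateField.finrank_comap
      (IntermediateField.adjoin k (Set.range fun i => (w i).1)) L.val
    rw [IntermediateField.fieldRange_val] at e
    rw [← e, ← K2_map, IntermediateField.comap_map]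

theorem K2_alg {R : Type u} [Field R] [Algebra k R] {v : n → R} {v' : n' → R}
    (h : AlgebraicIndependent k v) (h' : AlgebraicIndependent k v')
    (hn : Fintype.card n' = Fintype.card n)
    (ha : ∀ y : R, IsAlgebraic (IntermediateField.adjoin k (Set.range v)) y) (y : R) :
    IsAlgebraic (IntermediateField.adjoin k (Set.range v')) y := by
  have h1 : IsTranscendenceBasis k v := h.isTranscendenceBasis_iff_isAlgebraic.2
    (IntermediateField.isAlgebraic_adjoin_iff_top.1 ⟨ha⟩)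
  have h2 : IsTranscendenceBasis k v' := by
    refine h'.isTranscendenceBasis_of_lift_trdeg_le_of_finite ?_
    rw [← h1.lift_cardinalMk_eq_trdeg, Cardinal.mk_fintype, Cardinal.mk_fintype, hn]
  exact h2.isAlgebraic_field.1 y

theorem K2_blk (t : κ → Ω) (v : n → Ω) (B : Matrix κ κ ℤ) :
    (fun x => ∏ y, Sum.elim t v y ^ (Matrix.fromBlocks B 0 0 1 : Matrix (κ ⊕ n) (κ ⊕ n) ℤ) x y) =
      Sum.elim (fun j => ∏ i, t i ^ B j i) v := by
  funext x
  rw [Fintype.prod_sum_type]
  rcases x with j | j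
  · simp
  · simp only [Sum.elim_inl, Sum.elim_inr, Matrix.fromBlocks_apply₂₁, Matrix.fromBlocks_apply₂₂,
      Matrix.zero_apply, zpow_zero, Finset.prod_const_one, one_mul]
    rw [Finset.prod_eq_single j (fun i _ hi => by simp [Ne.symm hi]) (by simp)]
    simp

theorem K2_deg {t : κ → Ω} {v : n → Ω} (h : Ort K (Sum.elim t v)) {B : Matrix κ κ ℤ} :
    B.det ≠ 0 → Module.finrank (cl K (Set.range (Sum.elim (fun j => ∏ i, t i ^ B j i) v))) Ω =
      B.det.natAbs * Module.finrank (cl K (Set.range (Sum.elim t v))) Ω := by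
  intro hB
  have e : (Matrix.fromBlocks B 0 0 1 : Matrix (κ ⊕ n) (κ ⊕ n) ℤ).det = B.det := by
    rw [Matrix.det_fromBlocks_zero₂₁, Matrix.det_one, mul_one]
  have h1 := (h.deg_pow (B := Matrix.fromBlocks B 0 0 1) (by rwa [e])).2
  rwa [K2_blk, e] at h1

theorem K2_le (t : κ → Ω) {L : IntermediateField k (RF k K Ω)} (σ : L →+* Ω) (w : n → L) :
    cl K (Set.range (Sum.elim t fun i => σ (w i))) ≤ cl K (Set.range t ∪ Set.range σ) := by
  refine cl_le_cl ?_
  rintro _ ⟨j | j, rfl⟩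
  · exact subset_cl _ (Or.inl ⟨j, rfl⟩)
  · exact subset_cl _ (Or.inr ⟨w j, rfl⟩)

theorem deg_sec {t : κ → Ω} (h : GenT K t) {L : IntermediateField k (RF k K Ω)} {σ : L →+* Ω}
    (hσ : Sec k K L σ) {w : n → L} (hw : AlgebraicIndependent k w)
    [FiniteDimensional (IntermediateField.adjoin k (Set.range w)) L] :
    (cl K (Set.range (Sum.elim t fun i => σ (w i)))).relfinrank
        (cl K (Set.range t ∪ Set.range σ)) =
      Module.finrank (IntermediateField.adjoin k (Set.range w)) L := by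
  obtain ⟨b⟩ : Nonempty (Module.Basis
      (Fin (Module.finrank (IntermediateField.adjoin k (Set.range w)) L))
      (IntermediateField.adjoin k (Set.range w)) L) :=
    ⟨@Module.finBasis _ _ _ _ _ (Module.Free.of_divisionRing _ _) _ _⟩
  have hle := K2_le (K := K) t σ w
  have hin : ∀ y ∈ IntermediateField.adjoin k (Set.range w),
      σ y ∈ cl K (Set.range (Sum.elim t fun i => σ (w i))) := by
    have h1 : IntermediateField.adjoin k (Set.range w) ≤
        ((cl K (Set.range (Sum.elim t fun i => σ (w i)))).toSubfield.comap σ).toIntermediateField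
          fun c => by
            show σ _ ∈ cl K (Set.range (Sum.elim t fun i => σ (w i)))
            rw [hσ.alg]
            exact IntermediateField.algebraMap_mem _ _ := by
      rw [IntermediateField.adjoin_le_iff]
      rintro _ ⟨i, rfl⟩
      exact subset_cl (K := K) (Set.range (Sum.elim t fun i => σ (w i))) ⟨Sum.inr i, rfl⟩
    exact fun y hy => h1 hy
  have hl : LinearIndependent (IntermediateField.adjoin k (Set.range fun i => rs k K (σ (w i))))
      fun a => rs k K (σ (b a)) := by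
    rw [Fintype.linearIndependent_iff]
    intro c hc a
    have h1 : ∀ a, ∃ e : IntermediateField.adjoin k (Set.range w), (e.1 : RF k K Ω) = (c a).1 := by
      intro a
      have h2 : (c a).1 ∈ (IntermediateField.adjoin k (Set.range w)).map L.val := by
        rw [K2_map]
        simpa only [hσ.res] using (c a).2
      obtain ⟨y, hy, h3⟩ := h2
      exact ⟨⟨y, hy⟩, h3⟩
    choose e he using h1
    have h2 : ∑ a, e a • b a = 0 := by
      apply L.val.injective
      rw [map_sum, map_zero, ← hc]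
      refine Finset.sum_congr rfl fun a _ => ?_
      rw [hσ.res]
      show (e a).1.1 * (b a).1 = (c a).1 * (b a).1
      rw [he]
    have h3 := Fintype.linearIndependent_iff.1 b.linearIndependent e h2 a
    apply Subtype.ext
    rw [← he, h3]
    rfl
  have hli : LinearIndependent (cl K (Set.range (Sum.elim t fun i => σ (w i))))
      fun a => σ (b a) := by
    rw [Fintype.linearIndependent_iff]
    intro c hc a
    have h1 := lin_le h (hσ.rind hw) (fun a => hσ.le (b a)) hl (c := fun a => (c a : Ω))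
      (fun a => (c a).2) a
    have h2 : ∑ a, (c a : Ω) * σ (b a) = 0 := hc
    rw [h2, norm_zero, norm_le_zero_iff] at h1
    exact Subtype.ext h1
  have ht : ∀ j, t j ∈ cl K (Set.range (Sum.elim t fun i => σ (w i))) := fun j =>
    subset_cl (K := K) (Set.range (Sum.elim t fun i => σ (w i))) ⟨Sum.inl j, rfl⟩
  have hcl := V5_closed (K := K) (Set.range (Sum.elim t fun i => σ (w i))) fun a => σ (b a)
  generalize cl K (Set.range (Sum.elim t fun i => σ (w i))) = G at hle hin hli ht hcl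
  set M := Submodule.span G (Set.range fun a => σ (b a)) with hM
  have hσM : ∀ y, σ y ∈ M := fun y => by
    have h1 : σ y = ∑ a, σ (b.repr y a).1 * σ (b a) := by
      conv_lhs => rw [← b.sum_repr y]
      rw [map_sum]
      exact Finset.sum_congr rfl fun a _ => map_mul σ _ _
    rw [h1]
    exact Submodule.sum_mem _ fun a _ => M.smul_mem (⟨_, hin _ (b.repr y a).2⟩ : G)
      (Submodule.subset_span ⟨a, rfl⟩)
  have h1 : (1 : Ω) ∈ M := map_one σ ▸ hσM 1
  have hmul : ∀ x y, x ∈ M → y ∈ M → x * y ∈ M := by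
    intro x y hx hy
    have := Submodule.mul_mem_mul hx hy
    rw [hM, Submodule.span_mul_span] at this
    refine Submodule.span_le.2 ?_ this
    rintro _ ⟨_, ⟨a, rfl⟩, _, ⟨a', rfl⟩, rfl⟩
    show _ * _ ∈ M
    rw [← map_mul]
    exact hσM _
  have hfg : M.FG := Submodule.fg_span (Set.finite_range _)
  let T : IntermediateField G Ω := (M.toSubalgebra h1 hmul).toIntermediateField fun x hx =>
    Subalgebra.inv_mem_of_algebraic (A := M.toSubalgebra h1 hmul) (x := ⟨x, hx⟩)
      (IsIntegral.of_mem_of_fg _ hfg x hx).isAlgebraic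
  have e : (IntermediateField.extendScalars hle).toSubalgebra.toSubmodule = M := by
    apply le_antisymm
    · intro z hz
      refine cl_le (S := T.restrictScalars K) hcl ?_ hz
      rintro _ (⟨j, rfl⟩ | ⟨y, rfl⟩)
      · exact T.algebraMap_mem ⟨t j, ht j⟩
      · exact hσM y
    · rw [hM, Submodule.span_le]
      rintro _ ⟨a, rfl⟩
      exact subset_cl (K := K) (Set.range t ∪ Set.range σ) (Or.inr ⟨b a, rfl⟩)
  have h2 := finrank_span_eq_card hli
  rw [Fintype.card_fin, ← hM, ← e] at h2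
  rw [IntermediateField.relfinrank_eq_finrank_of_le hle]
  exact h2

theorem K2_sec {t : κ → Ω} (h : GenT K t) {L : IntermediateField k (RF k K Ω)} (hL : L.FG)
    {σ : L →+* Ω} (hσ : Sec k K L σ) {w : n → L} (hw : AlgebraicIndependent k w)
    (ha : ∀ y : RF k K Ω,
      IsAlgebraic (IntermediateField.adjoin k (Set.range fun i => (w i).1)) y) :
    Module.finrank (cl K (Set.range (Sum.elim t fun i => σ (w i)))) Ω =
      (IntermediateField.adjoin k (Set.range fun i => (w i).1)).relfinrank L *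
        Module.finrank (cl K (Set.range t ∪ Set.range σ)) Ω := by
  obtain ⟨h1, h2⟩ := K2_fin hL w ha
  have : FiniteDimensional (IntermediateField.adjoin k (Set.range w)) L :=
    Module.finite_of_finrank_pos (h2 ▸ h1)
  rw [← h2, ← deg_sec h hσ hw]
  exact (IntermediateField.relfinrank_mul_finrank_top (K2_le t σ w)).symm

theorem K2_close {L : IntermediateField k (RF k K Ω)} {σ : L →+* Ω} (hσ : Sec k K L σ) {z : Ω}
    (hz : ‖z‖ ≤ 1) (h : rs k K z ∈ L) : ‖σ ⟨_, h⟩ - z‖ < 1 :=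
  (rs_eq (k := k) (K := K) (hσ.le _) hz).1 (hσ.res _)

theorem deg_chg (p : ℕ) [Fact p.Prime] [CharP K p] {t t' : κ → Ω} {u : n → Ω} {u' : n' → Ω}
    (h : GenT K t) (hu : RInd k K u) (h0 : ∀ j, t' j ≠ 0) (hu' : RInd k K u')
    (hn : Fintype.card n' = Fintype.card n) {Q : Matrix κ κ ℚ} (hQ : Q.det ≠ 0)
    (e : ∀ j, Real.log ‖t' j‖ - ∑ i, (Q j i : ℝ) * Real.log ‖t i‖ ∈ Gam K)
    [FiniteDimensional (cl K (Set.range (Sum.elim t u))) Ω] (L : IntermediateField k (RF k K Ω))
    (hL : L.FG) (h1 : ∀ i, rs k K (u i) ∈ L) (h2 : ∀ i, rs k K (u' i) ∈ L) :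
    FiniteDimensional (cl K (Set.range (Sum.elim t' u'))) Ω ∧
      (Module.finrank (cl K (Set.range (Sum.elim t' u'))) Ω : ℚ) *
          (IntermediateField.adjoin k (Set.range fun i => rs k K (u i))).relfinrank L =
        |Q.det| * Module.finrank (cl K (Set.range (Sum.elim t u))) Ω *
          (IntermediateField.adjoin k (Set.range fun i => rs k K (u' i))).relfinrank L := by
  have hN : 0 < Q.den := Nat.pos_of_ne_zero Q.den_ne_zero
  have hB : ∀ k j, (Q.num k j : ℚ) = Q.den * Q k j := fun k j => by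
    rw [← Q.num_div_den k j, mul_div_cancel₀ _ (Nat.cast_ne_zero.2 hN.ne')]
  generalize Q.den = N at hN hB
  generalize Q.num = B at hB
  have hdet : (B.det : ℚ) = (N : ℚ) ^ Fintype.card κ * Q.det := by
    rw [← Matrix.det_smul, Int.cast_det]
    exact congrArg Matrix.det (Matrix.ext fun k j => hB k j)
  have hN' : (0 : ℚ) < (N : ℚ) ^ Fintype.card κ := pow_pos (Nat.cast_pos.2 hN) _
  have hB0 : B.det ≠ 0 := fun h1 => by
    rw [h1, Int.cast_zero] at hdet
    exact mul_ne_zero hN'.ne' hQ hdet.symm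
  have hs := h.pow hB0
  have ht' : GenT K t' := ⟨h0, h.2.mul hQ e⟩
  have hv := V5_npow ht' hN
  have hc : ∀ j, ∃ c : K, c ≠ 0 ∧ ‖c • ∏ i, t i ^ B j i‖ = ‖t' j ^ N‖ := fun j => by
    have h3 : ∏ i, t i ^ B j i ≠ 0 := hs.1 j
    have h4 : Real.log ‖t' j ^ N‖ - Real.log ‖∏ i, t i ^ B j i‖ =
        (N : ℚ) • (Real.log ‖t' j‖ - ∑ i, (Q j i : ℝ) * Real.log ‖t i‖) := by
      rw [norm_pow, Real.log_pow, norm_prod, Real.log_prod fun j _ =>
          norm_ne_zero_iff.2 (zpow_ne_zero _ (h.1 j)), Rat.smul_def, mul_sub, Finset.mul_sum,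
        Rat.cast_natCast, sub_right_inj]
      refine Finset.sum_congr rfl fun i _ => ?_
      have h6 : (B j i : ℝ) = N * (Q j i : ℝ) := by exact_mod_cast hB j i
      rw [norm_zpow, Real.log_zpow, h6, mul_assoc]
    obtain ⟨c, hc, h5⟩ := mem_Gam.1 ((Gam K).smul_mem (N : ℚ) (e j))
    refine ⟨c, hc, Real.log_injOn_pos (norm_pos_iff.2 (smul_ne_zero hc h3))
      (norm_pos_iff.2 (hv.1 j)) ?_⟩
    rw [norm_smul, Real.log_mul (norm_ne_zero_iff.2 hc) (norm_ne_zero_iff.2 h3), ← h5, ← h4]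
    ring
  choose c hc0 hc using hc
  have hne : ∀ j, c j • ∏ i, t i ^ B j i ≠ 0 := fun j => smul_ne_zero (hc0 j) (hs.1 j)
  obtain ⟨ε, hε⟩ : ∃ ε : κ → Ω, ∀ j, ε j * (c j • ∏ i, t i ^ B j i) = t' j ^ N :=
    ⟨fun j => t' j ^ N / (c j • ∏ i, t i ^ B j i), fun j => div_mul_cancel₀ _ (hne j)⟩
  have hε1 : ∀ j, ‖ε j‖ = 1 := fun j => by
    have h3 := congrArg norm (hε j)
    rw [norm_mul, hc] at h3
    exact (mul_eq_right₀ (norm_ne_zero_iff.2 (hv.1 j))).1 h3
  have ha := res_alg h hu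
  have ha' := K2_alg hu.2 hu'.2 hn ha
  obtain ⟨L', hL', hLL, h3⟩ : ∃ L' : IntermediateField k (RF k K Ω), L'.FG ∧ L ≤ L' ∧
      ∀ j, rs k K (ε j) ∈ L' :=
    ⟨L ⊔ IntermediateField.adjoin k (Set.range fun j => rs k K (ε j)),
      IntermediateField.fg_sup hL (IntermediateField.fg_adjoin_of_finite (Set.finite_range _)),
      le_sup_left, fun j => (le_sup_right : _ ≤ L ⊔ _)
        (IntermediateField.subset_adjoin k _ ⟨j, rfl⟩)⟩
  obtain ⟨σ, hσ⟩ := exists_sec L' hL'
  let w : n → L' := fun i => ⟨rs k K (u i), hLL (h1 i)⟩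
  let w' : n' → L' := fun i => ⟨rs k K (u' i), hLL (h2 i)⟩
  let η : κ → Ω := fun j => σ ⟨rs k K (ε j), h3 j⟩
  have hw : AlgebraicIndependent k w := AlgebraicIndependent.of_comp L'.val hu.2
  have hw' : AlgebraicIndependent k w' := AlgebraicIndependent.of_comp L'.val hu'.2
  have hη : ∀ j, ‖η j - ε j‖ < 1 := fun j => K2_close hσ (hε1 j).le (h3 j)
  have hη1 : ∀ j, ‖η j‖ = 1 := fun j => (V2_eq ((hη j).trans_eq (hε1 j).symm)).trans (hε1 j)
  have hη0 : ∀ j, η j ≠ 0 := fun j => norm_ne_zero_iff.1 (hη1 j ▸ one_ne_zero)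
  obtain ⟨a1, a2⟩ := (ort_of h hu).deg_pert p (t' := Sum.elim t fun i => σ (w i)) (by
    rintro (j | i)
    · simpa using h.1 j
    · exact (K2_close hσ (hu.1 i) _).trans_eq (hu.norm i).symm)
  have a3 := K2_deg (ort_of h (hσ.rind hw)) hB0
  have a4 := K2_sec hs hL' hσ hw ha
  have hn1 : ∀ j, ‖η j * (c j • ∏ i, t i ^ B j i)‖ = ‖t' j ^ N‖ := fun j => by
    rw [norm_mul, hη1, one_mul, hc]
  have hs' : GenT K fun j => η j * (c j • ∏ i, t i ^ B j i) := hv.congr hn1
  have a5 := K2_sec hs' hL' hσ hw' ha'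
  have a6 : cl K (Set.range (fun j => η j * (c j • ∏ i, t i ^ B j i)) ∪ Set.range σ) =
      cl K (Set.range (fun j => ∏ i, t i ^ B j i) ∪ Set.range σ) := by
    refine le_antisymm (cl_le_cl ?_) (cl_le_cl ?_)
    · rintro _ (⟨j, rfl⟩ | ⟨y, rfl⟩)
      · exact mul_mem (subset_cl (K := K) _ (Or.inr ⟨_, rfl⟩))
          (IntermediateField.smul_mem _ (subset_cl (K := K) _ (Or.inl ⟨j, rfl⟩)))
      · exact subset_cl _ (Or.inr ⟨y, rfl⟩)
    · rintro _ (⟨j, rfl⟩ | ⟨y, rfl⟩)
      · have h4 : ∏ i, t i ^ B j i = (c j)⁻¹ • ((η j)⁻¹ * (η j * (c j • ∏ i, t i ^ B j i))) := by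
          rw [inv_mul_cancel_left₀ (hη0 j), inv_smul_smul₀ (hc0 j)]
        beta_reduce
        rw [h4]
        exact IntermediateField.smul_mem _ (mul_mem
          (inv_mem (subset_cl (K := K) _ (Or.inr ⟨_, rfl⟩))) (subset_cl (K := K) _ (Or.inl ⟨j, rfl⟩)))
      · exact subset_cl _ (Or.inr ⟨y, rfl⟩)
  rw [a6] at a5
  have b1 := (K2_fin hL' w ha).1
  have b2 := (K2_fin hL' w' ha').1
  have b3 : 0 < Module.finrank (cl K (Set.range (Sum.elim t u))) Ω := Module.finrank_pos
  have b4 : 0 < Module.finrank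
      (cl K (Set.range (fun j => ∏ i, t i ^ B j i) ∪ Set.range σ)) Ω := by
    have b := Nat.mul_pos (Int.natAbs_pos.2 hB0) b3
    rw [← a2, ← a3, a4] at b
    exact Nat.pos_of_mul_pos_left b
  have b5 : FiniteDimensional (cl K (Set.range
      (Sum.elim (fun j => η j * (c j • ∏ i, t i ^ B j i)) fun i => σ (w' i)))) Ω :=
    Module.finite_of_finrank_pos (a5 ▸ Nat.mul_pos b2 b4)
  obtain ⟨-, a7⟩ := (ort_of hs' (hσ.rind hw')).deg_pert p
    (t' := Sum.elim (fun j => t' j ^ N) u') (by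
    rintro (j | i)
    · simp only [Sum.elim_inl]
      rw [← hε, ← sub_mul, norm_mul, norm_mul, hη1, norm_sub_rev]
      exact mul_lt_mul_of_pos_right (hη j) (norm_pos_iff.2 (hne j))
    · simp only [Sum.elim_inr]
      rw [norm_sub_rev]
      exact (K2_close hσ (hu'.1 i) _).trans_eq ((hσ.rind hw').norm i).symm)
  have hD : (Matrix.diagonal (fun _ => (N : ℤ)) : Matrix κ κ ℤ).det ≠ 0 := by
    rw [V4_det]
    exact Int.natCast_ne_zero.2 (pow_pos hN _).ne'
  have a8 := K2_deg (ort_of ht' hu') hD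
  rw [V4_diag, V4_det, Int.natAbs_natCast, a7, a5] at a8
  rw [a3, a2] at a4
  have c1 := IntermediateField.relfinrank_mul_relfinrank
    (IntermediateField.adjoin_le_iff.2 (by rintro _ ⟨i, rfl⟩; exact h1 i) :
      IntermediateField.adjoin k (Set.range fun i => rs k K (u i)) ≤ L) hLL
  have c2 := IntermediateField.relfinrank_mul_relfinrank
    (IntermediateField.adjoin_le_iff.2 (by rintro _ ⟨i, rfl⟩; exact h2 i) :
      IntermediateField.adjoin k (Set.range fun i => rs k K (u' i)) ≤ L) hLL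
  simp only [w, w'] at a4 a8 b1 b2
  rw [← c1] at a4 b1
  rw [← c2] at a8 b2
  have c3 : 0 < L.relfinrank L' := Nat.pos_of_mul_pos_left b1
  refine ⟨Module.finite_of_finrank_pos (Nat.pos_of_mul_pos_left (a8 ▸ Nat.mul_pos b2 b4)), ?_⟩
  have d1 : ((B.det.natAbs : ℕ) : ℚ) = (N : ℚ) ^ Fintype.card κ * |Q.det| := by
    rw [Nat.cast_natAbs, Int.cast_abs, hdet, abs_mul, abs_of_pos hN']
  have d2 := congrArg (Nat.cast : ℕ → ℚ) a4
  have d3 := congrArg (Nat.cast : ℕ → ℚ) a8
  simp only [Nat.cast_mul, Nat.cast_pow, d1] at d2 d3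
  refine mul_left_cancel₀ (mul_ne_zero hN'.ne' (Nat.cast_ne_zero.2 c3.ne')) ?_
  linear_combination
    -((IntermediateField.adjoin k (Set.range fun i => rs k K (u i))).relfinrank L : ℚ) *
      (L.relfinrank L' : ℚ) * d3 -
    ((IntermediateField.adjoin k (Set.range fun i => rs k K (u' i))).relfinrank L : ℚ) *
      (L.relfinrank L' : ℚ) * d2

end Pool.Agent.Work.MP_ffcd14_ag.Ry
end

-- merged part: Pool.Agent.Work.MP_ffcd14_ag.Ry.K3
section
/-!
# Points whose reduction is generic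

`I` is an ideal over `k`, and `g f` is a lift of `f ∈ I` which vanishes at the points.

Plan.  `K3_orth`: a finite-dimensional `k`-subspace of `K` has a basis `e` with pairwise distinct
norms (induction: since the residue field is `k`, two elements of the same norm have a
combination of smaller norm; a subspace of dimension `m` has at most `m` non-zero norms); so
`f = ∑ e j • q j` with `q j` over `k`, and each `‖e j‖` with `q j ≠ 0` is at most the largest norm of a
coefficient of `f`.  `K3_dec`: choose a `k`-linear complement `C` of `I` and generators `f i` of `I`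
(Hilbert), `ρ < 1` a bound for the coefficients of the `g (f i) - f i`.  If `f = ∑ e j • q j`,
`q j = c j + ∑ a j i * f i`, then at the points `f = ∑ e j • c j + f'` where the coefficients of
`f' = ∑ e j • a j i * (f i - g (f i))` are bounded by `ρ` times the bound for `f`.  Iterate; an element
of the `K`-span of `C` has the required form (apply the projection on `C` to `K3_orth`).
`norm_eq`: write `F = ∑ t ^ α F_α(v)`; up to a small error `F` is a sum of terms
`e • t ^ α * evk q` with distinct norms (`V2_uniq`), the same for both points.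
`top_sec`: with `ρ < 1` a bound for the `‖v s - σ (rs (v s))‖`, every polynomial in `(t, v)`, every
quotient and every element `z` is within `ρ' ‖z‖` of `cl (t, σ L)`, `ρ < ρ' < 1`; then `riesz_lemma`
as in `V5_span`.  `top_deg`: `exists_sec` for `L = k(rs v)`, `top_sec`, `deg_sec`, `Ort.deg_pert`.
-/

namespace Pool.Agent.Work.MP_ffcd14_ag.Ry

open MvPolynomial Filter Topology Tr
open scoped ENNReal

set_option linter.unusedSectionVars false

universe u

variable {k K : Type u} [Field k] [IsAlgClosed k] [NontriviallyNormedField K] [Cf k K]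
  [IsUltrametricDist K] [CompleteSpace K] [IsAlgClosed K] {Ω Ω' : Type u} [NormedField Ω]
  [NormedAlgebra K Ω] [IsUltrametricDist Ω] [NormedField Ω'] [NormedAlgebra K Ω']
  [IsUltrametricDist Ω'] {ι κ n n' V : Type} [Fintype κ] [DecidableEq κ] [Fintype n]
  [DecidableEq n] [Fintype n'] [DecidableEq n']

variable [Finite V]

variable (K) in
/-- `g f` is a lift of `f`. -/
def Lf (I : Ideal (MvPolynomial V k)) (g : MvPolynomial V k → MvPolynomial V K) : Prop :=
  ∀ f ∈ I, ∀ β, ‖coeff β (g f - map (algebraMap k K) f)‖ < 1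

/-- The lifts vanish at `v`, and the reduction of `v` is generic. -/
structure Gp (I : Ideal (MvPolynomial V k)) (g : MvPolynomial V k → MvPolynomial V K)
    (v : V → Ω) : Prop where
  le : ∀ s, ‖v s‖ ≤ 1
  van : ∀ f ∈ I, aeval v (g f) = 0
  one : ∀ f ∉ I, ‖evk k K v f‖ = 1

variable {I : Ideal (MvPolynomial V k)} {g : MvPolynomial V k → MvPolynomial V K}

theorem K3_rho {A : Type*} {s : Set A} (hs : s.Finite) {r : A → ℝ} (h : ∀ a ∈ s, r a < 1) :
    ∃ ρ : ℝ, 0 < ρ ∧ ρ < 1 ∧ ∀ a ∈ s, r a ≤ ρ := by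
  have h1 : ∀ᶠ ρ in 𝓝 (1 : ℝ), ∀ a ∈ s, r a < ρ :=
    hs.eventually_all.2 fun a ha => lt_mem_nhds (h a ha)
  obtain ⟨ρ, h3, h4⟩ := ((h1.filter_mono nhdsWithin_le_nhds).and (Ioo_mem_nhdsLT one_pos)).exists
  exact ⟨ρ, h4.1, h4.2, fun a ha => (h3 a ha).le⟩

/-- Terms with non-zero coefficients of distinct norms. -/
def K3_D (S : Submodule k (MvPolynomial V k)) (s : Finset (K × MvPolynomial V k)) : Prop :=
  (∀ x ∈ s, x.1 ≠ 0 ∧ x.2 ∈ S) ∧ Set.InjOn (fun x : K × MvPolynomial V k => ‖x.1‖) s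

theorem K3_add (S : Submodule k (MvPolynomial V k)) (m : ℕ) :
    ∀ s : Finset (K × MvPolynomial V k), s.card = m → K3_D S s → ∀ (a : K), ∀ p ∈ S,
      ∃ s' : Finset (K × MvPolynomial V k), K3_D S s' ∧ (∀ x ∈ s', ‖x.1‖ ≤ ‖a‖ ∨ ∃ y ∈ s, ‖x.1‖ = ‖y.1‖) ∧
        a • map (algebraMap k K) p + ∑ x ∈ s, x.1 • map (algebraMap k K) x.2 =
          ∑ x ∈ s', x.1 • map (algebraMap k K) x.2 := by
  classical
  have ins : ∀ (s : Finset (K × MvPolynomial V k)) (x : K × MvPolynomial V k), K3_D S s → x.1 ≠ 0 →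
      x.2 ∈ S → (∀ y ∈ s, ‖y.1‖ ≠ ‖x.1‖) → x ∉ s ∧ K3_D S (insert x s) := fun s x hs h1 h2 h3 => by
    have h4 : x ∉ s := fun h => h3 x h rfl
    refine ⟨h4, fun y hy => ?_, ?_⟩
    · rcases Finset.mem_insert.1 hy with rfl | hy
      exacts [⟨h1, h2⟩, hs.1 y hy]
    · rw [Finset.coe_insert, Set.injOn_insert h4]
      exact ⟨hs.2, fun ⟨y, hy, e⟩ => h3 y hy e⟩
  induction m using Nat.strong_induction_on with
  | _ m ih =>
  intro s hm hs a p hp
  by_cases a0 : a = 0
  · exact ⟨s, hs, fun x hx => Or.inr ⟨x, hx, rfl⟩, by rw [a0, zero_smul, zero_add]⟩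
  by_cases h : ∀ y ∈ s, ‖y.1‖ ≠ ‖a‖
  · obtain ⟨h1, h2⟩ := ins s (a, p) hs a0 hp h
    refine ⟨_, h2, fun x hx => ?_, by rw [Finset.sum_insert h1]⟩
    rcases Finset.mem_insert.1 hx with rfl | hx
    exacts [Or.inl le_rfl, Or.inr ⟨x, hx, rfl⟩]
  push Not at h
  obtain ⟨y, hy, e⟩ := h
  have y0 := (hs.1 y hy).1
  have y1 := norm_pos_iff.2 y0
  obtain ⟨c, hc⟩ := Cf.res (k := k) (a / y.1) (by rw [norm_div, e, div_self (e ▸ y1.ne')])
  have hc' : ‖a - algebraMap k K c * y.1‖ < ‖y.1‖ := by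
    rwa [div_sub' y0, norm_div, div_lt_one y1, mul_comm] at hc
  obtain ⟨s', k1, k2, k3⟩ := ih _ (hm ▸ Finset.card_erase_lt_of_mem hy) (s.erase y) rfl
    ⟨fun x hx => hs.1 x (Finset.mem_of_mem_erase hx), hs.2.mono (Finset.erase_subset y s)⟩
    (a - algebraMap k K c * y.1) p hp
  obtain ⟨h1, h2⟩ := ins s' (y.1, y.2 + c • p) k1 y0 (add_mem (hs.1 y hy).2 (S.smul_mem c hp))
    fun x hx => (k2 x hx).elim (fun h => (h.trans_lt hc').ne) fun ⟨z, hz, h⟩ e' =>
      Finset.ne_of_mem_erase hz (hs.2 (Finset.mem_of_mem_erase hz) hy (h.symm.trans e'))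
  refine ⟨_, h2, fun x hx => ?_, ?_⟩
  · rcases Finset.mem_insert.1 hx with rfl | hx
    · exact Or.inl e.le
    · exact (k2 x hx).imp (fun h => (h.trans hc'.le).trans e.le) fun ⟨z, hz, h⟩ =>
        ⟨z, Finset.mem_of_mem_erase hz, h⟩
  · rw [Finset.sum_insert h1, ← k3, ← Finset.add_sum_erase s _ hy, map_add, smul_eq_C_mul p, map_mul,
      map_C, ← smul_eq_C_mul (map (algebraMap k K) p), smul_add, smul_smul, sub_smul, mul_comm y.1]
    abel

theorem K3_fin (S : Submodule k (MvPolynomial V k)) {A : Type*} (T : Finset A) {a : A → K}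
    {p : A → MvPolynomial V k} {C : ℝ} (h : ∀ i ∈ T, ‖a i‖ ≤ C ∧ p i ∈ S) :
    ∃ (m : ℕ) (e : Fin m → K) (q : Fin m → MvPolynomial V k), (∀ j, e j ≠ 0) ∧
      (Function.Injective fun j => ‖e j‖) ∧ (∀ j, ‖e j‖ ≤ C) ∧ (∀ j, q j ∈ S ∧ q j ≠ 0) ∧
        ∑ i ∈ T, a i • map (algebraMap k K) (p i) = ∑ j, e j • map (algebraMap k K) (q j) := by
  classical
  obtain ⟨s, h1, h2, h3⟩ : ∃ s : Finset (K × MvPolynomial V k), K3_D S s ∧ (∀ x ∈ s, ‖x.1‖ ≤ C) ∧
      ∑ i ∈ T, a i • map (algebraMap k K) (p i) = ∑ x ∈ s, x.1 • map (algebraMap k K) x.2 := by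
    induction T using Finset.induction_on with
    | empty => exact ⟨∅, ⟨by simp, by simp⟩, by simp, by simp⟩
    | insert i T hi ih =>
      obtain ⟨s, h1, h2, h3⟩ := ih fun j hj => h j (Finset.mem_insert_of_mem hj)
      obtain ⟨h4, h5⟩ := h i (Finset.mem_insert_self _ _)
      obtain ⟨s', k1, k2, k3⟩ := K3_add S _ s rfl h1 (a i) _ h5
      exact ⟨s', k1, fun x hx => (k2 x hx).elim (·.trans h4) fun ⟨y, hy, e⟩ => e ▸ h2 y hy,
        by rw [Finset.sum_insert hi, h3, k3]⟩
  let b := (s.filter (·.2 ≠ 0)).equivFin.symm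
  have hb := fun j => Finset.mem_filter.1 (b j).2
  refine ⟨_, fun j => (b j).1.1, fun j => (b j).1.2, fun j => (h1.1 _ (hb j).1).1,
    fun i j e => b.injective (Subtype.ext (h1.2 (hb i).1 (hb j).1 e)), fun j => h2 _ (hb j).1,
    fun j => ⟨(h1.1 _ (hb j).1).2, (hb j).2⟩, ?_⟩
  rw [h3, b.sum_comp fun x => x.1.1 • map (algebraMap k K) x.1.2,
    Finset.sum_coe_sort _ fun x : K × MvPolynomial V k => x.1 • map (algebraMap k K) x.2,
    Finset.sum_filter_of_ne]
  exact fun x _ hx e => hx (by rw [e, map_zero, smul_zero])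

variable (k) in
theorem K3_sum (f : MvPolynomial V K) :
    ∑ β ∈ f.support, coeff β f • map (algebraMap k K) (monomial β 1) = f := by
  simp only [map_monomial, map_one, smul_monomial, smul_eq_mul, mul_one]
  exact f.as_sum.symm

variable (k) in
theorem K3_orth (f : MvPolynomial V K) {C : ℝ} (hC : ∀ β, ‖coeff β f‖ ≤ C) :
    ∃ (m : ℕ) (e : Fin m → K) (q : Fin m → MvPolynomial V k), (∀ j, e j ≠ 0) ∧
      (Function.Injective fun j => ‖e j‖) ∧ (∀ j, ‖e j‖ ≤ C) ∧
        f = ∑ j, e j • map (algebraMap k K) (q j) := by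
  obtain ⟨m, e, q, h1, h2, h3, -, h4⟩ := K3_fin (⊤ : Submodule k (MvPolynomial V k)) f.support
    (a := fun β => coeff β f) (p := fun β => monomial β 1) fun β _ => ⟨hC β, trivial⟩
  exact ⟨m, e, q, h1, h2, h3, (K3_sum k f).symm.trans h4⟩

/-- A bound for the coefficients. -/
def K3_B (f : MvPolynomial V K) (C : ℝ) : Prop := ∀ β, ‖coeff β f‖ ≤ C

theorem K3_B.add {f f' : MvPolynomial V K} {C : ℝ} (h : K3_B f C) (h' : K3_B f' C) :
    K3_B (f + f') C := fun β => by
  rw [coeff_add]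
  exact (IsUltrametricDist.norm_add_le_max _ _).trans (max_le (h β) (h' β))

theorem K3_B.mul {f : MvPolynomial V K} {C : ℝ} (h : K3_B f C) (a : MvPolynomial V k) :
    K3_B (map (algebraMap k K) a * f) C := fun β => by
  classical
  rw [coeff_mul]
  refine IsUltrametricDist.norm_sum_le_of_forall_le_of_nonneg ((norm_nonneg _).trans (h 0))
    fun x _ => ?_
  rw [norm_mul, coeff_map]
  exact (mul_le_of_le_one_left (norm_nonneg _) (norm_ak_le k K (Ω := K) _)).trans (h _)

variable (k) in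
include k in
theorem K3_B.aeval {Ω : Type u} [NormedField Ω] [NormedAlgebra K Ω] {f : MvPolynomial V K} {C : ℝ}
    (h : K3_B f C) {v : V → Ω} (hv : ∀ s, ‖v s‖ ≤ 1) : ‖aeval v f‖ ≤ C := by
  have : IsUltrametricDist Ω := IsUltrametricDist.of_normedAlgebra K
  rw [← K3_sum k f, map_sum]
  refine IsUltrametricDist.norm_sum_le_of_forall_le_of_nonneg ((norm_nonneg _).trans (h 0))
    fun β _ => ?_
  rw [map_smul, norm_smul]
  exact (mul_le_of_le_one_right (norm_nonneg _) (rs_evk (k := k) (K := K) hv _).1).trans (h _)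

theorem K3_step (hg : Lf K I g) {S : Submodule k (MvPolynomial V k)}
    (hS : IsCompl (I.restrictScalars k) S) : ∃ ρ : ℝ, 0 < ρ ∧ ρ < 1 ∧ ∀ (f : MvPolynomial V K) (C : ℝ),
      K3_B f C → ∃ h ∈ Submodule.span K (MvPolynomial.map (algebraMap k K) '' (S : Set (MvPolynomial V k))),
        ∃ f', K3_B f' (ρ * C) ∧ f - h - f' ∈ Ideal.span (g '' I) := by
  obtain ⟨G, hG⟩ := (isNoetherianRing_iff_ideal_fg _).1 inferInstance I
  have G1 : ∀ f ∈ G, f ∈ I := fun f hf => hG ▸ Ideal.subset_span hf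
  choose r r0 r1 r2 using fun f (hf : f ∈ I) =>
    K3_rho (g f - map (algebraMap k K) f).support.finite_toSet fun β _ => hg f hf β
  obtain ⟨ρ, h0, h1, h2⟩ := K3_rho (Set.finite_univ (α := G)) fun f _ => r1 f.1 (G1 _ f.2)
  have key : ∀ i ∈ I, ∃ f', K3_B f' ρ ∧ map (algebraMap k K) i - f' ∈ Ideal.span (g '' I) := by
    intro i hi
    rw [← hG] at hi
    induction hi using Submodule.span_induction with
    | mem f hf =>
      refine ⟨-(g f - map (algebraMap k K) f), fun β => ?_, ?_⟩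
      · rw [coeff_neg, norm_neg]
        by_cases hβ : β ∈ (g f - map (algebraMap k K) f).support
        · exact (r2 f (G1 f hf) β hβ).trans (h2 ⟨f, hf⟩ trivial)
        · rw [notMem_support_iff.1 hβ, norm_zero]
          exact h0.le
      · rw [sub_neg_eq_add, add_sub_cancel]
        exact Ideal.subset_span ⟨f, G1 f hf, rfl⟩
    | zero => exact ⟨0, fun β => by simpa using h0.le, by simp⟩
    | add x y _ _ hx hy =>
      obtain ⟨a, a1, a2⟩ := hx
      obtain ⟨b, b1, b2⟩ := hy
      exact ⟨a + b, a1.add b1, by rw [map_add, add_sub_add_comm]; exact add_mem a2 b2⟩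
    | smul c x _ hx =>
      obtain ⟨a, a1, a2⟩ := hx
      exact ⟨_, a1.mul c, by rw [smul_eq_mul, map_mul, ← mul_sub]; exact Ideal.mul_mem_left _ _ a2⟩
  refine ⟨ρ, h0, h1, fun f C hC => ?_⟩
  rw [← K3_sum k f]
  refine Finset.sum_induction _ (fun f => ∃ h ∈ Submodule.span K
    (MvPolynomial.map (algebraMap k K) '' (S : Set (MvPolynomial V k))), ∃ f', K3_B f' (ρ * C) ∧
      f - h - f' ∈ Ideal.span (g '' I)) ?_ ⟨0, zero_mem _, 0, fun β => ?_, by simp⟩ fun β _ => ?_
  · rintro x y ⟨a, a1, a', a2, a3⟩ ⟨b, b1, b', b2, b3⟩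
    exact ⟨a + b, add_mem a1 b1, a' + b', a2.add b2, by
      rw [add_sub_add_comm, add_sub_add_comm]; exact add_mem a3 b3⟩
  · simpa using mul_nonneg h0.le ((norm_nonneg _).trans (hC 0))
  · obtain ⟨i, hi, c, hc, e⟩ := Submodule.mem_sup.1
      (hS.sup_eq_top ▸ Submodule.mem_top (x := monomial β (1 : k)))
    obtain ⟨a, a1, a2⟩ := key i hi
    refine ⟨coeff β f • map (algebraMap k K) c, Submodule.smul_mem _ _
      (Submodule.subset_span ⟨c, hc, rfl⟩), coeff β f • a, fun γ => ?_, ?_⟩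
    · rw [coeff_smul, norm_smul, mul_comm]
      exact mul_le_mul (a1 γ) (hC β) (norm_nonneg _) h0.le
    · rw [← e, map_add, smul_add, add_sub_cancel_right, ← smul_sub, smul_eq_C_mul]
      exact Ideal.mul_mem_left _ _ a2

theorem K3_dec (hg : Lf K I g) (f : MvPolynomial V K) {ε : ℝ} (hε : 0 < ε) :
    ∃ (m : ℕ) (e : Fin m → K) (q : Fin m → MvPolynomial V k), (∀ j, e j ≠ 0) ∧
      (Function.Injective fun j => ‖e j‖) ∧ (∀ j, q j ∉ I) ∧
        ∀ (Ω : Type u) [NormedField Ω] [NormedAlgebra K Ω] (v : V → Ω), (∀ s, ‖v s‖ ≤ 1) →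
          (∀ f ∈ I, aeval v (g f) = 0) → ‖aeval v f - ∑ j, e j • evk k K v (q j)‖ ≤ ε := by
  obtain ⟨S, hS⟩ := (I.restrictScalars k).exists_isCompl
  obtain ⟨ρ, h0, h1, h⟩ := K3_step hg hS
  have hC : K3_B f (∑ β ∈ f.support, ‖coeff β f‖ + 1) := fun β => by
    have h2 : 0 ≤ ∑ β ∈ f.support, ‖coeff β f‖ := Finset.sum_nonneg fun _ _ => norm_nonneg _
    by_cases hβ : β ∈ f.support
    · linarith [Finset.single_le_sum (f := fun β => ‖coeff β f‖) (fun _ _ => norm_nonneg _) hβ]
    · rw [notMem_support_iff.1 hβ, norm_zero]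
      linarith
  generalize ∑ β ∈ f.support, ‖coeff β f‖ + 1 = C at hC
  have key : ∀ n : ℕ, ∃ h ∈ Submodule.span K (MvPolynomial.map (algebraMap k K) '' (S : Set (MvPolynomial V k))),
      ∃ f', K3_B f' (ρ ^ n * C) ∧ f - h - f' ∈ Ideal.span (g '' I) := fun n => by
    induction n with
    | zero => exact ⟨0, zero_mem _, f, by rwa [pow_zero, one_mul], by simp⟩
    | succ n ih =>
      obtain ⟨a, a1, a', a2, a3⟩ := ih
      obtain ⟨b, b1, b', b2, b3⟩ := h a' _ a2
      refine ⟨a + b, add_mem a1 b1, b', by rwa [pow_succ', mul_assoc], ?_⟩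
      rw [show f - (a + b) - b' = f - a - a' + (a' - b - b') by ring]
      exact add_mem a3 b3
  obtain ⟨n, hn⟩ := (((tendsto_pow_atTop_nhds_zero_of_lt_one h0.le h1).mul_const C).eventually_le_const
    (u := ε) (by rwa [zero_mul])).exists
  obtain ⟨a, a1, f', a2, a3⟩ := key n
  obtain ⟨l, c, b, rfl⟩ := Submodule.mem_span_set'.1 a1
  choose p p1 p2 using fun i => (b i).2
  obtain ⟨m, e, q, k1, k2, -, k3, k4⟩ := K3_fin S Finset.univ (a := c) (p := p) (C := ∑ i, ‖c i‖)
    fun i hi => ⟨Finset.single_le_sum (f := fun i => ‖c i‖) (fun _ _ => norm_nonneg _) hi, p1 i⟩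
  refine ⟨m, e, q, k1, k2, fun j hj => (k3 j).2 (Submodule.disjoint_def.1 hS.disjoint _ hj (k3 j).1),
    fun Ω _ _ v hv hI => ?_⟩
  have k5 : Ideal.span (g '' I) ≤ RingHom.ker (aeval v : MvPolynomial V K →ₐ[K] Ω) :=
    Ideal.span_le.2 (by
      rintro _ ⟨i, hi, rfl⟩
      exact hI i hi)
  have k6 := RingHom.mem_ker.1 (k5 a3)
  simp only [← p2] at k6
  rw [k4, map_sub, map_sub, map_sum, sub_eq_zero] at k6
  simp only [map_smul] at k6
  simp only [evk_apply, k6]
  exact (a2.aeval k hv).trans hn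

theorem K3_apx (hg : Lf K I g) (F : MvPolynomial (κ ⊕ V) K) {y : κ → ℝ} (hy : ∀ j, 0 ≤ y j) {ε : ℝ}
    (hε : 0 < ε) : ∃ (A : Type) (_ : Fintype A) (e : A → K) (α : A → κ → ℤ)
      (q : A → MvPolynomial V k), (∀ a, e a ≠ 0) ∧ (∀ a b, α a = α b → ‖e a‖ = ‖e b‖ → a = b) ∧
        (∀ a, q a ∉ I) ∧ ∀ (Ω : Type u) [NormedField Ω] [NormedAlgebra K Ω] (t : κ → Ω) (v : V → Ω),
          (∀ j, ‖t j‖ = y j) → (∀ s, ‖v s‖ ≤ 1) → (∀ f ∈ I, aeval v (g f) = 0) →
            ‖aeval (Sum.elim t v) F - ∑ a, (e a • ∏ j, t j ^ α a j) * evk k K v (q a)‖ ≤ ε := by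
  obtain ⟨P, hP⟩ : ∃ P, P = sumAlgEquiv K κ V F := ⟨_, rfl⟩
  have y0 : ∀ β : κ →₀ ℕ, 0 < ∏ j, y j ^ β j + 1 := fun β =>
    add_pos_of_nonneg_of_pos (Finset.prod_nonneg fun j _ => pow_nonneg (hy j) _) one_pos
  choose m e q h1 h2 h3 h4 using fun β : P.support =>
    K3_dec hg (coeff β.1 P) (div_pos hε (y0 β.1))
  refine ⟨Σ β, Fin (m β), inferInstance, fun a => e a.1 a.2, fun a j => a.1.1 j, fun a => q a.1 a.2,
    fun a => h1 _ _, ?_, fun a => h3 _ _, fun Ω _ _ t v ht hv hI => ?_⟩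
  · rintro ⟨β, i⟩ ⟨γ, j⟩ e1 e2
    obtain rfl : β = γ := Subtype.ext (Finsupp.ext fun l => Nat.cast_injective (congrFun e1 l))
    obtain rfl : i = j := h2 β e2
    rfl
  have : IsUltrametricDist Ω := IsUltrametricDist.of_normedAlgebra K
  have e1 : (aevalTower (aeval v : MvPolynomial V K →ₐ[K] Ω) t).comp (sumAlgEquiv K κ V).toAlgHom =
      aeval (Sum.elim t v) := algHom_ext fun i => by rcases i with i | i <;> simp
  have e2 : aeval (Sum.elim t v) F = ∑ β : P.support, aeval v (coeff β.1 P) * ∏ j, t j ^ β.1 j := by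
    rw [← e1, Finset.sum_coe_sort _ fun β => aeval v (coeff β P) * ∏ j, t j ^ β j, hP]
    exact eval₂_eq' _ _ _
  rw [e2, Fintype.sum_sigma, ← Finset.sum_sub_distrib]
  refine IsUltrametricDist.norm_sum_le_of_forall_le_of_nonneg hε.le fun β _ => ?_
  have e3 : ∑ i, (e β i • ∏ j, t j ^ (β.1 j : ℤ)) * evk k K v (q β i) =
      (∑ i, e β i • evk k K v (q β i)) * ∏ j, t j ^ β.1 j := by
    rw [Finset.sum_mul]
    refine Finset.sum_congr rfl fun i _ => ?_
    simp only [zpow_natCast]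
    rw [smul_mul_assoc, smul_mul_assoc, mul_comm]
  rw [e3, ← sub_mul, norm_mul, norm_prod]
  simp only [norm_pow, ht]
  refine (mul_le_mul (h4 β Ω v hv hI) (le_add_of_nonneg_right zero_le_one)
    (Finset.prod_nonneg fun j _ => pow_nonneg (hy j) _) (div_pos hε (y0 β.1)).le).trans_eq ?_
  exact div_mul_cancel₀ _ (y0 β.1).ne'

theorem K3_term {v : V → Ω} (hv : Gp I g v) {t : κ → Ω} (h : GenT K t) {A : Type} [Fintype A]
    {e : A → K} {α : A → κ → ℤ} {q : A → MvPolynomial V k} (h1 : ∀ a, e a ≠ 0)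
    (h2 : ∀ a b, α a = α b → ‖e a‖ = ‖e b‖ → a = b) (h3 : ∀ a, q a ∉ I) (a : A) :
    ‖e a • ∏ j, t j ^ α a j‖ ≤ ‖∑ a, (e a • ∏ j, t j ^ α a j) * evk k K v (q a)‖ := by
  have e1 : ∀ a, ‖(e a • ∏ j, t j ^ α a j) * evk k K v (q a)‖ = ‖e a • ∏ j, t j ^ α a j‖ :=
    fun a => by rw [norm_mul, hv.one _ (h3 a), mul_one]
  rw [IsUltrametricDist.norm_sum_eq_sup'_of_pairwise_ne ⟨a, Finset.mem_univ a⟩ fun a _ b _ hn e2 => ?_,
    ← e1]
  · exact Finset.le_sup' (fun a => ‖(e a • ∏ j, t j ^ α a j) * evk k K v (q a)‖) (Finset.mem_univ a)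
  rw [e1, e1] at e2
  have e3 := V2_uniq h (h1 a) (h1 b) e2
  rw [e3, norm_smul, norm_smul, mul_left_inj' (norm_ne_zero_iff.2
    (Finset.prod_ne_zero_iff.2 fun j _ => zpow_ne_zero _ (h.1 j)))] at e2
  exact hn (h2 a b e3 e2)

theorem K3_le (hg : Lf K I g) {v : V → Ω} {v' : V → Ω'} (hv : Gp I g v) (hv' : Gp I g v')
    {t : κ → Ω} {t' : κ → Ω'} (h : GenT K t) (e : ∀ j, ‖t' j‖ = ‖t j‖)
    (F : MvPolynomial (κ ⊕ V) K) : ‖aeval (Sum.elim t' v') F‖ ≤ ‖aeval (Sum.elim t v) F‖ := by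
  refine le_of_forall_pos_le_add fun ε hε => ?_
  obtain ⟨A, _, c, α, q, h1, h2, h3, h4⟩ := K3_apx hg F (fun j => norm_nonneg (t j)) (half_pos hε)
  have k1 := h4 Ω t v (fun _ => rfl) hv.le hv.van
  have k2 := h4 Ω' t' v' e hv'.le hv'.van
  have k3 : ‖∑ a, (c a • ∏ j, t' j ^ α a j) * evk k K v' (q a)‖ ≤
      ‖∑ a, (c a • ∏ j, t j ^ α a j) * evk k K v (q a)‖ := by
    refine IsUltrametricDist.norm_sum_le_of_forall_le_of_nonneg (norm_nonneg _) fun a _ => ?_
    refine le_trans (le_of_eq ?_) (K3_term hv h h1 h2 h3 a)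
    simp only [norm_mul, hv'.one _ (h3 a), mul_one, norm_smul, norm_prod, norm_zpow, e]
  linarith [norm_le_norm_add_norm_sub' (aeval (Sum.elim t' v') F)
      (∑ a, (c a • ∏ j, t' j ^ α a j) * evk k K v' (q a)),
    norm_le_norm_add_norm_sub (aeval (Sum.elim t v) F)
      (∑ a, (c a • ∏ j, t j ^ α a j) * evk k K v (q a))]

theorem norm_eq (hg : Lf K I g) {v : V → Ω} {v' : V → Ω'} (hv : Gp I g v) (hv' : Gp I g v')
    {t : κ → Ω} {t' : κ → Ω'} (h : GenT K t) (e : ∀ j, ‖t' j‖ = ‖t j‖)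
    (F : MvPolynomial (κ ⊕ V) K) : ‖aeval (Sum.elim t' v') F‖ = ‖aeval (Sum.elim t v) F‖ := by
  exact le_antisymm (K3_le hg hv hv' h e F) (K3_le hg hv' hv (h.congr e) (fun j => (e j).symm) F)

theorem K3_evk {v v' : V → Ω} (hv : ∀ s, ‖v s‖ ≤ 1) (hv' : ∀ s, ‖v' s‖ ≤ 1) {ρ : ℝ} (h0 : 0 ≤ ρ)
    (h : ∀ s, ‖v s - v' s‖ ≤ ρ) (q : MvPolynomial V k) : ‖evk k K v q - evk k K v' q‖ ≤ ρ := by
  induction q using MvPolynomial.induction_on with
  | C c => simpa [evk_apply] using h0
  | add p q hp hq =>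
    rw [map_add, map_add, add_sub_add_comm]
    exact (IsUltrametricDist.norm_add_le_max _ _).trans (max_le hp hq)
  | mul_X p s hp =>
    have e : ∀ w : V → Ω, evk k K w (X s) = w s := fun w => by simp [evk_apply]
    rw [map_mul, map_mul, e, e]
    refine (V2_tri (y := evk k K v' p * v s)).trans (max_le ?_ ?_)
    · rw [← sub_mul, norm_mul]
      exact (mul_le_of_le_one_right (norm_nonneg _) (hv s)).trans hp
    · rw [← mul_sub, norm_mul]
      exact (mul_le_of_le_one_left (norm_nonneg _) (rs_evk hv' p).1).trans (h s)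

theorem K3_mem (G : IntermediateField K Ω) {v : V → Ω} (hv : ∀ s, v s ∈ G) (f : MvPolynomial V K) :
    aeval v f ∈ G := by
  induction f using MvPolynomial.induction_on with
  | C c => simp
  | add p q hp hq => exact map_add (aeval v) p q ▸ add_mem hp hq
  | mul_X p s hp =>
    rw [map_mul, aeval_X]
    exact mul_mem hp (hv s)

theorem top_sec (hg : Lf K I g) {v : V → Ω} (hv : Gp I g v) {t : κ → Ω} (h : GenT K t)
    (ht : cl K (Set.range (Sum.elim t v)) = ⊤) {L : IntermediateField k (RF k K Ω)} {σ : L →+* Ω}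
    (hσ : Sec k K L σ) (hL : ∀ s, rs k K (v s) ∈ L) : cl K (Set.range t ∪ Set.range σ) = ⊤ := by
  obtain ⟨ρ, h0, h1, h2⟩ := K3_rho (Set.finite_univ (α := V))
    (r := fun s => ‖v s - σ ⟨_, hL s⟩‖) fun s _ => (rs_eq (hv.le s) (hσ.le _)).1 (hσ.res ⟨_, hL s⟩).symm
  have g1 : ∀ z ∈ Set.range t ∪ Set.range σ, z ∈ cl K (Set.range t ∪ Set.range σ) := fun z hz =>
    subset_closure (IntermediateField.subset_adjoin K _ hz)
  have hc := isClosed_cl K (Set.range t ∪ Set.range σ)
  generalize cl K (Set.range t ∪ Set.range σ) = G at g1 hc ⊢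
  have k1 : ∀ F : MvPolynomial (κ ⊕ V) K, ∃ z ∈ G, V2_Rel ρ (aeval (Sum.elim t v) F) z := fun F => by
    by_cases F0 : aeval (Sum.elim t v) F = 0
    · exact ⟨0, zero_mem _, F0 ▸ V2_Rel.refl h0 _⟩
    obtain ⟨A, _, c, α, q, a1, a2, a3, a4⟩ := K3_apx hg F (fun j => norm_nonneg (t j))
      (mul_pos h0 (norm_pos_iff.2 F0))
    have a5 : V2_Rel ρ (aeval (Sum.elim t v) F) _ :=
      (norm_sub_rev _ _).trans_le (a4 Ω t v (fun _ => rfl) hv.le hv.van)
    refine ⟨∑ a, (c a • ∏ j, t j ^ α a j) * evk k K (fun s => σ ⟨_, hL s⟩) (q a),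
      sum_mem fun a _ => mul_mem (G.smul_mem (prod_mem fun j _ => zpow_mem (g1 _ (Or.inl ⟨j, rfl⟩)) _))
        (K3_mem G (fun s => g1 _ (Or.inr ⟨_, rfl⟩)) _), V2_tri.trans (max_le ?_ a5)⟩
    rw [← Finset.sum_sub_distrib, ← a5.norm h1]
    refine IsUltrametricDist.norm_sum_le_of_forall_le_of_nonneg (by positivity) fun a _ => ?_
    rw [← mul_sub, norm_mul, mul_comm, norm_sub_rev]
    exact mul_le_mul (K3_evk hv.le (fun s => hσ.le _) h0.le (fun s => h2 s trivial) _)
      (K3_term hv h a1 a2 a3 a) (norm_nonneg _) h0.le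
  by_contra hn
  have := Fintype.ofFinite V
  obtain ⟨x, hx, hr⟩ := riesz_lemma (F := G.toSubalgebra.toSubmodule) hc (by
    by_contra h3
    exact hn (eq_top_iff.2 fun x _ => by_contra fun hx => h3 ⟨x, hx⟩)) (r := (ρ + 1) / 2) (by linarith)
  have x0 : 0 < ‖x‖ := norm_pos_iff.2 fun e => hx (e ▸ zero_mem _)
  obtain ⟨a, b, hb, hab⟩ := exists_frac' (K := K) (Sum.elim t v) (z := x) (ht ▸ trivial)
    (mul_pos h0 x0)
  obtain ⟨a', a1, a2⟩ := k1 a
  obtain ⟨b', b1, b2⟩ := k1 b
  have k2 : ‖a' * b'⁻¹ - _‖ ≤ _ := a2.mul h1 (b2.inv h1 hb)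
  rw [← div_eq_mul_inv, ← div_eq_mul_inv, V2_eq' (hab.trans (mul_lt_of_lt_one_left x0 h1)),
    norm_sub_rev] at k2
  have k3 := (hr _ (div_mem a1 b1 : a' / b' ∈ G)).trans (V2_tri.trans (max_le hab.le k2))
  nlinarith

theorem top_deg (p : ℕ) [Fact p.Prime] [CharP K p] [CompleteSpace Ω] (hg : Lf K I g) {v : V → Ω}
    (hv : Gp I g v) {t : κ → Ω} (h : GenT K t) (ht : cl K (Set.range (Sum.elim t v)) = ⊤)
    {ν : n → V} (hν : AlgebraicIndependent k fun i => rs k K (v (ν i)))
    (hd : (IntermediateField.adjoin k (Set.range fun i => rs k K (v (ν i)))).relfinrank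
      (IntermediateField.adjoin k (Set.range fun s => rs k K (v s))) ≠ 0) :
    FiniteDimensional (cl K (Set.range (Sum.elim t fun i => v (ν i)))) Ω ∧
      Module.finrank (cl K (Set.range (Sum.elim t fun i => v (ν i)))) Ω =
        (IntermediateField.adjoin k (Set.range fun i => rs k K (v (ν i)))).relfinrank
          (IntermediateField.adjoin k (Set.range fun s => rs k K (v s))) := by
  obtain ⟨σ, hσ⟩ := exists_sec (IntermediateField.adjoin k (Set.range fun s => rs k K (v s)))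
    (IntermediateField.fg_adjoin_of_finite (Set.finite_range _))
  have hL : ∀ s, rs k K (v s) ∈ IntermediateField.adjoin k (Set.range fun s => rs k K (v s)) :=
    fun s => IntermediateField.subset_adjoin k _ ⟨s, rfl⟩
  generalize IntermediateField.adjoin k (Set.range fun s => rs k K (v s)) = L at *
  have hw : AlgebraicIndependent k fun i => (⟨_, hL (ν i)⟩ : L) := .of_comp L.val hν
  have e : Module.finrank (IntermediateField.adjoin k (Set.range fun i => (⟨_, hL (ν i)⟩ : L))) L =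
      (IntermediateField.adjoin k (Set.range fun i => rs k K (v (ν i)))).relfinrank L := by
    rw [← IntermediateField.comap_map L.val (IntermediateField.adjoin k _),
      IntermediateField.finrank_comap, IntermediateField.fieldRange_val, IntermediateField.adjoin_map,
      ← Set.range_comp]
    rfl
  have : FiniteDimensional (IntermediateField.adjoin k (Set.range fun i => (⟨_, hL (ν i)⟩ : L))) L :=
    Module.finite_of_finrank_pos (Nat.pos_of_ne_zero (e ▸ hd))
  have e1 := deg_sec h hσ hw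
  rw [top_sec hg hv h ht hσ hL, IntermediateField.relfinrank_top_right, e] at e1
  have : FiniteDimensional (cl K (Set.range (Sum.elim t fun i => σ ⟨_, hL (ν i)⟩))) Ω :=
    Module.finite_of_finrank_pos (Nat.pos_of_ne_zero (e1 ▸ hd))
  rw [← e1]
  refine (ort_of h (hσ.rind hw)).deg_pert p ?_
  rintro (j | i)
  · simpa using h.1 j
  · exact ((rs_eq (hv.le _) (hσ.le _)).1 (hσ.res ⟨_, hL (ν i)⟩).symm).trans_eq
      ((hσ.rind hw).norm i).symm

end Pool.Agent.Work.MP_ffcd14_ag.Ry
end
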