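import Pool.Agent.Work.MP_ffcd14_ag.Ry.P4
import Pool.Agent.Work.MP_ffcd14_ag.Ry.N2
import Pool.Agent.Work.MP_ffcd14_ag.Ry.W1
import Pool.Agent.Work.MP_ffcd14_ag.Ry.W4
import Pool.Agent.Work.MP_ffcd14_ag.Ry.W5
import Pool.Agent.Work.MP_ffcd14_ag.Ry.K3
import Pool.Agent.Work.MP_ffcd14_ag.Ry.E2
import Mathlib

-- merged part: Pool.Agent.Work.MP_ffcd14_ag.Ry.P7
section
/-!
# Morphisms which lift to the powers of `E`

Plan.  The first lemmas describe the points of a graph with values in a field; all are proved as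
`on_dif` in `Tr/G1`: the vector of all the coordinates is a generic point of some subvariety
(`exists_loc`), and `On A` for a closed `A` can be tested on its points (`G1_pr`, `on_iff`,
`On.pr`).  `lh_pr`: `η u = ξ (r u)`, `chi_crd`.  `LH.pair`: `η = Sum.elim η₁ η₂`, `lf_prod`.
`LH.dif`: `R.hom` for each `u`, `red_iff`, `gph_eq`, `AV.ap_mod`.  `LH.comp`: lift twice.
`lh_sub`: `LH.dif`, `lh_pr`, `lh_congr` (`AV.ap_mod`, `AV.ap_sub`), or directly from `R.hom`.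
-/

namespace Pool.Agent.Work.MP_ffcd14_ag.Ry

open MvPolynomial Filter Topology MP_10f4af_ag MP_10f4af_ag.Nu Tr MeasureTheory
open scoped ENNReal

set_option linter.unusedSectionVars false

universe u

variable {k K : Type u} [Field k] [IsAlgClosed k] [NontriviallyNormedField K] [Cf k K]
  [IsUltrametricDist K] [CompleteSpace K] [IsAlgClosed K] {P : Amb} {X : SV K P} {R : Ray k X}
  {T U U' : Type} [Fintype T] [DecidableEq T] [Fintype U] [DecidableEq U] [Fintype U']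
  [DecidableEq U'] {Ω Ω' : Type u} [NormedField Ω] [NormedAlgebra K Ω] [IsUltrametricDist Ω]
  [CompleteSpace Ω] [NormedField Ω'] [NormedAlgebra K Ω'] [IsUltrametricDist Ω'] [CompleteSpace Ω']
  {M : Mod X T} {M0 : Mod R.B₀ T} {MU : Mod X U} {MU0 : Mod R.B₀ U}

section

variable {F L : Type u} [Field F] [IsAlgClosed F] [Field L] [Algebra F L] {Q S S' : Amb}
  {Y : SV F Q} {Y' : SV F S} {Y'' : SV F S'}

theorem graph_congr {φ ψ : Hom Y.toVar Y'.toVar} (h : ∀ z, φ.toFun z = ψ.toFun z) :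
    φ.graph.pts = ψ.graph.pts := by
  simp only [Hom.graph, h]

theorem on_graph_comp {φ : Hom Y.toVar Y'.toVar} {ψ : Hom Y'.toVar Y''.toVar} {z : Q.V → L}
    {w : S.V → L} {v : S'.V → L} (h : On φ.graph.pts (Amb.elim z w))
    (h' : On ψ.graph.pts (Amb.elim w v)) : On (ψ.comp φ).graph.pts (Amb.elim z v) := by
  obtain ⟨Z, hZ⟩ := exists_loc (k := F) (Amb.elim (Amb.elim z w) v) (by
    rintro (i | i)
    exacts [h.1 i, h'.1 (Sum.inr i)])
  let c : Crd F (S.sum S') ((Q.sum S).sum S') :=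
    ((Crd.inr F Q S).comp (Crd.inl F _ S')).pair (Crd.inr F _ S')
  let d : Crd F (Q.sum S') ((Q.sum S).sum S') :=
    ((Crd.inl F Q S).comp (Crd.inl F _ S')).pair (Crd.inr F _ S')
  have e : Amb.elim w v = Amb.elim (Amb.elim z w) v ∘ c.ε := by
    funext ⟨i, s⟩
    rcases i with i | i <;> rfl
  have e' : Amb.elim z v = Amb.elim (Amb.elim z w) v ∘ d.ε := by
    funext ⟨i, s⟩
    rcases i with i | i <;> rfl
  rw [e] at h'
  rw [e']
  refine (on_of_gen hZ).pr d fun y hy => ?_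
  obtain ⟨h1, h2⟩ := G1_pr (Crd.inl F _ S') hZ φ.graph.closed h hy
  obtain ⟨h3, h4⟩ := G1_pr c hZ ψ.graph.closed h' hy
  exact ⟨h1, (congrArg (fun x => (ψ.toFun x).1) (Subtype.ext h2)).trans h4⟩

theorem on_graph_pair {φ : Hom Y.toVar Y'.toVar} {ψ : Hom Y.toVar Y''.toVar} {z : Q.V → L}
    {w : S.V → L} {v : S'.V → L} (h : On φ.graph.pts (Amb.elim z w))
    (h' : On ψ.graph.pts (Amb.elim z v)) :
    On (pairH φ ψ).graph.pts (Amb.elim z (Amb.elim w v)) := by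
  obtain ⟨Z, hZ⟩ := exists_loc (k := F) (Amb.elim z (Amb.elim w v)) (by
    rintro (i | i | i)
    exacts [h.1 (Sum.inl i), h.1 (Sum.inr i), h'.1 (Sum.inr i)])
  let c : Crd F (Q.sum S) (Q.sum (S.sum S')) :=
    (Crd.inl F Q _).pair ((Crd.inl F S S').comp (Crd.inr F Q _))
  let d : Crd F (Q.sum S') (Q.sum (S.sum S')) :=
    (Crd.inl F Q _).pair ((Crd.inr F S S').comp (Crd.inr F Q _))
  have e : Amb.elim z w = Amb.elim z (Amb.elim w v) ∘ c.ε := by
    funext ⟨i, s⟩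
    rcases i with i | i <;> rfl
  have e' : Amb.elim z v = Amb.elim z (Amb.elim w v) ∘ d.ε := by
    funext ⟨i, s⟩
    rcases i with i | i <;> rfl
  rw [e] at h
  rw [e'] at h'
  refine (on_of_gen hZ).mono fun y hy => ?_
  obtain ⟨h1, h2⟩ := G1_pr c hZ φ.graph.closed h hy
  obtain ⟨h3, h4⟩ := G1_pr d hZ ψ.graph.closed h' hy
  refine ⟨h1, funext ?_⟩
  rintro (i | i)
  exacts [congrFun h2 i, congrFun h4 i]

theorem on_graph_prj (π : Prj Y.toVar Y'.toVar) {z : Q.V → L} (h : On Y.pts z) :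
    On π.hom.graph.pts (Amb.elim z (z ∘ π.ε)) := by
  have e : Amb.elim z (z ∘ π.ε) = z ∘ ((Crd.refl F Q).pair π.toCrd).ε := by
    funext ⟨i, s⟩
    rcases i with i | i <;> rfl
  rw [e]
  exact h.pr _ fun y hy => ⟨hy, rfl⟩

theorem on_graph_mod (N : Mod Y' U) (φ : Hom Y.toVar N.Z.toVar) {z : Q.V → L} {w : N.S.V → L}
    (hz : On Y.pts z) : On φ.graph.pts (Amb.elim z w) ↔
      ∀ u, On ((cpt N u).comp φ).graph.pts (Amb.elim z (w ∘ (N.β u).ε)) := by
  refine ⟨fun h u => on_graph_comp h (on_graph_prj _ (on_graph φ h).2.1), fun h => ?_⟩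
  let c : U → Crd F (Q.sum S) (Q.sum N.S) := fun u =>
    (Crd.inl F Q _).pair ((N.β u).comp (Crd.inr F Q _))
  have e : ∀ u, Amb.elim z (w ∘ (N.β u).ε) = Amb.elim z w ∘ (c u).ε := fun u => by
    funext ⟨i, s⟩
    rcases i with i | i <;> rfl
  obtain ⟨Z, hZ⟩ := exists_loc (k := F) (Amb.elim z w) (by
    rintro (i | j)
    · exact hz.1 i
    · obtain ⟨⟨t, i⟩, rfl⟩ := N.bψ.2 j
      exact G1_ne (N.β t) (on_graph _ (h t)).2.1 i)
  simp only [e] at h
  exact (on_of_gen hZ).mono fun y hy => ⟨G1_pr (Crd.inl F _ _) hZ Y.closed hz hy,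
    N.pt_ext fun u => (G1_pr (c u) hZ ((cpt N u).comp φ).graph.closed (h u) hy).choose_spec⟩

theorem P7_pr (N : Mod Y T) (N' : Mod Y U) {φ : Hom N.Z.toVar N'.Z.toVar} (r : U → T)
    (h : ∀ z u, (N'.β u).pr (φ.toFun z).1 = (N.β (r u)).pr z.1) {w : T → Q.V → L}
    (hw : On N.Z.pts (lf N w)) :
    On φ.graph.pts (Amb.elim (lf N w) (lf N' fun u => w (r u))) := by
  refine (on_graph_mod N' φ hw).2 fun u => ?_
  rw [lf_comp, ← lf_comp N w, graph_congr (ψ := cpt N (r u)) fun z => Subtype.ext (h z u)]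
  exact on_graph_prj _ hw

theorem P7_dif (A : AV Y') (N : Mod Y' U) {φ ψ : Hom Y.toVar N.Z.toVar} {z : Q.V → L}
    {a b c : U → S.V → L} (h : On φ.graph.pts (Amb.elim z (lf N a)))
    (h' : On ψ.graph.pts (Amb.elim z (lf N b)))
    (e : ∀ u, On A.sub.graph.pts (Amb.elim (Amb.elim (a u) (b u)) (c u))) :
    On ((A.mod N).dif φ ψ).graph.pts (Amb.elim z (lf N c)) := by
  have hz := G1_fst φ h
  refine (on_graph_mod N _ hz).2 fun u => ?_
  have h1 := (on_graph_mod N φ hz).1 h u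
  have h2 := (on_graph_mod N ψ hz).1 h' u
  rw [lf_comp] at h1 h2 ⊢
  rw [graph_congr (ψ := A.dif ((cpt N u).comp φ) ((cpt N u).comp ψ)) fun y =>
    (A.ap_mod N φ ψ u y).trans (A.ap_dif _ _ y).symm]
  exact on_graph_comp (on_graph_pair h1 h2) (e u)

end

variable {Φ Ψ : Hom M.Z.toVar MU.Z.toVar} {Φ0 Ψ0 : Hom M0.Z.toVar MU0.Z.toVar}
  {χ χ' : U × Fin R.r → T × Fin R.r → ℤ}

theorem lh_congr (h : LH Φ Φ0 χ) (e : ∀ z, Ψ.toFun z = Φ.toFun z)
    (e0 : ∀ z, Ψ0.toFun z = Φ0.toFun z) : LH Ψ Ψ0 χ := by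
  intro F ξ hξ
  rw [graph_congr e, graph_congr e0]
  exact h F ξ hξ

theorem lh_pr (r : U → T) (h : ∀ z u, (MU.β u).pr (Φ.toFun z).1 = (M.β (r u)).pr z.1)
    (h0 : ∀ z u, (MU0.β u).pr (Φ0.toFun z).1 = (M0.β (r u)).pr z.1) :
    LH Φ Φ0 (Tr.crd (Prod.map r id)) := by
  exact fun F ξ hξ => ⟨fun u => ξ (r u), fun u => hξ _, by rw [chi_crd]; rfl,
    P7_pr M MU r h (on_thE M hξ), P7_pr M0 MU0 r h0 (on_vbE M0 hξ)⟩

theorem LH.dif (h : LH Φ Φ0 χ) (h' : LH Ψ Ψ0 χ') :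
    LH ((R.A.mod MU).dif Φ Ψ) ((R.A₀.mod MU0).dif Φ0 Ψ0) (χ - χ') := by
  intro F ξ hξ
  obtain ⟨η, h1, h2, h3, h4⟩ := h F ξ hξ
  obtain ⟨ζ, k1, k2, k3, k4⟩ := h' F ξ hξ
  choose τ m1 m2 m3 m4 using fun u => R.hom F.Ω (η u) (ζ u) (h1 u) (k1 u)
  refine ⟨τ, m1, funext fun q => ?_, P7_dif R.A MU h3 k3 m3, P7_dif R.A₀ MU0 h4 k4 fun u => ?_⟩
  · have e1 := congrFun h2 q
    have e2 := congrFun k2 q
    simp only [trE, Tr.chi] at e1 e2 ⊢
    rw [m2, Real.log_div (norm_ne_zero_iff.2 ((h1 _).2.2.2 _))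
      (norm_ne_zero_iff.2 ((k1 _).2.2.2 _)), e1, e2, ← Finset.sum_sub_distrib]
    simp only [Pi.sub_apply, Int.cast_sub, sub_mul]
  · have n1 : ∀ {x : EP F.Ω R.Q R.r}, x.Ok R.B → ∀ i, ∃ s, ‖x.v ⟨i, s⟩‖ = 1 := fun hx i =>
      ⟨_, by rw [hx.1, norm_one]⟩
    have e := (red_iff (by
      rintro ⟨(i | i) | i, s⟩
      exacts [(h1 u).2.1 _, (k1 u).2.1 _, (m1 u).2.1 _]) (by
      rintro ((i | i) | i)
      exacts [n1 (h1 u) i, n1 (k1 u) i, n1 (m1 u) i])).1 (m4 u)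
    refine (congrArg (On _) ?_).mp e
    funext ⟨i, s⟩
    rcases i with (i | i) | i <;> rfl

variable {N : Mod X U'} {N0 : Mod R.B₀ U'}

theorem LH.pair (h : LH Φ Φ0 χ) {Θ : Hom M.Z.toVar N.Z.toVar} {Θ0 : Hom M0.Z.toVar N0.Z.toVar}
    {θ : U' × Fin R.r → T × Fin R.r → ℤ} (h' : LH Θ Θ0 θ) :
    LH (MU := MU.prod N) (MU0 := MU0.prod N0) (pairH Φ Θ) (pairH Φ0 Θ0) (chs χ θ) := by
  intro F ξ hξ
  obtain ⟨η, h1, h2, h3, h4⟩ := h F ξ hξ
  obtain ⟨ζ, k1, k2, k3, k4⟩ := h' F ξ hξ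
  refine ⟨Sum.elim η ζ, ?_, ?_, ?_, ?_⟩
  · rintro (u | u)
    exacts [h1 u, k1 u]
  · funext ⟨u, j⟩
    rcases u with u | u
    exacts [congrFun h2 (u, j), congrFun k2 (u, j)]
  · rw [thE, thE, lf_prod]
    exact on_graph_pair h3 k3
  · rw [vbE, vbE, lf_prod]
    exact on_graph_pair h4 k4

theorem LH.comp (h : LH Φ Φ0 χ) {Θ : Hom N.Z.toVar M.Z.toVar} {Θ0 : Hom N0.Z.toVar M0.Z.toVar}
    {θ : T × Fin R.r → U' × Fin R.r → ℤ} (h' : LH Θ Θ0 θ) :
    LH (Φ.comp Θ) (Φ0.comp Θ0) fun i j => ∑ l, χ i l * θ l j := by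
  intro F ξ hξ
  obtain ⟨η, h1, h2, h3, h4⟩ := h' F ξ hξ
  obtain ⟨ζ, k1, k2, k3, k4⟩ := h F η h1
  refine ⟨ζ, k1, ?_, on_graph_comp h3 k3, on_graph_comp h4 k4⟩
  rw [k2, h2]
  funext q
  simp only [Tr.chi, Int.cast_sum, Int.cast_mul, Finset.mul_sum, Finset.sum_mul, mul_assoc]
  exact Finset.sum_comm

theorem lh_p1 : LH (M := M.prod MU) (M0 := M0.prod MU0) (MU := M) (MU0 := M0) (p1 M.Z MU.Z)
    (p1 M0.Z MU0.Z) (Tr.crd (Prod.map Sum.inl id)) := by
  exact lh_pr Sum.inl (fun _ _ => rfl) fun _ _ => rfl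

theorem lh_p2 : LH (M := M.prod MU) (M0 := M0.prod MU0) (MU := MU) (MU0 := MU0) (p2 M.Z MU.Z)
    (p2 M0.Z MU0.Z) (Tr.crd (Prod.map Sum.inr id)) := by
  exact lh_pr Sum.inr (fun _ _ => rfl) fun _ _ => rfl

theorem lh_id : LH (idH M.Z) (idH M0.Z) (Tr.crd (Prod.map id id)) := by
  exact lh_pr id (fun _ _ => rfl) fun _ _ => rfl

theorem lh_sub : LH (M := (Mod.one X).prod (Mod.one X))
    (M0 := (Mod.one R.B₀).prod (Mod.one R.B₀)) (MU := Mod.one X) (MU0 := Mod.one R.B₀) R.A.sub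
    R.A₀.sub (Tr.crd (Prod.map Sum.inl id) - Tr.crd (Prod.map Sum.inr id)) := by
  exact lh_congr (LH.dif lh_p1 lh_p2)
    (fun z => (R.A.ap_sub z).trans (R.A.ap_mod (Mod.one X) (p1 X X) (p2 X X) () z).symm)
    fun z => (R.A₀.ap_sub z).trans
      (R.A₀.ap_mod (Mod.one R.B₀) (p1 R.B₀ R.B₀) (p2 R.B₀ R.B₀) () z).symm

end Pool.Agent.Work.MP_ffcd14_ag.Ry
end

-- merged part: Pool.Agent.Work.MP_ffcd14_ag.Tr.A3
section
/-!
# The fibres of a difference map over generic points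

Let `Φ = dif A.sub M p q`, `W' = gl Φ W hW`, `χ = dch p q`, `N = Mod.pow X U`.
For `ζ ∈ SW A M W` the point `pt ζ = Amb.elim (th ζ) (th (ζ.chp χ))` lies on `W'` (`on_gl`,
`on_dif_th`); if `chi χ ζ.trop` is generic, `th (ζ.chp χ)` is a generic point of `N.Z`
(`isGen_th`, `Pt.chp_trop`), and `pt ζ` is a generic point of `W'` (`gen_pt`: `On.isGen`, `sdim_gl`,
`rk_mono`, `IsGen.rk_rat`).

Plan for `degS`.  If `dgH = 0` there is no such point (`isGen_img`, `deg_ne_zero`, `IsGen.unique`):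
take the empty family.  Otherwise the image of `W'` is `N.Z`.  Take a normalised generic point `v`
of `W'` in a field `L` (`exists_gen`), `E = fld K (v ∘ vr)`; `dgH = finrank E L` (`deg_eq`,
`relfinrank_top_right`).  Let `τ` be a tight point over `s` (`exists_mono`) and `j : E → τ.Ω` with
`j (v (vr w)) = th τ w / th τ (ς w)` (`IsGen.lift`, `isGen_map` for `E.val`, `same_norm`).  Its
range is dense (`x_mem`), so `sep_dense` (`fd_of_rk`) and `exists_cmp` apply.  For each `a` lift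
`φ a ∘ v ∘ vl` to a point `ξ a` over the fundamental domain (`exists_lift`).  By `fun_unique` and
`same_iff`, `(ξ a).ch χ k = per n k • ι a (τ.x k)`; so the closed field generated by the characters
is the range of `ι a` (`Iso.range_eq`).  Tight: `cl (range x)` contains the `th` (`th_mem`), so the
image of `L = fld K (v ∘ vl)` (`on_graph`), and the range of `ι a`; `Cmp.gen`.  `ineq`: `th_map`,
`Same.ratio`, `ext_cl`, `Cmp.ineq`.  Covering: for `ζ`, `IsGen.lift` gives `φ' : L → ζ.Ω`,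
`exists_iso` gives `ι'` with `ι' (τ.x k) = (per n k)⁻¹ • ζ.ch χ k`; they agree on `E`; `Cmp.cov`
gives `ψ`, then `same_iff` and the uniqueness in `exists_dom_lat` give `ψ ((ξ a).x q) = ζ.x q`.
-/

namespace Pool.Agent.Work.MP_ffcd14_ag.Tr

open MvPolynomial Filter Topology MP_10f4af_ag MP_10f4af_ag.Nu
open scoped ENNReal

set_option linter.unusedSectionVars false

universe u

variable {K : Type u} [NontriviallyNormedField K] [IsUltrametricDist K] [CompleteSpace K]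
  [IsAlgClosed K] {P : Amb} {X : SV K P} (A : Unif X) {T T' U U' V : Type}

variable [Fintype V] [DecidableEq V] [Fintype U] [DecidableEq U]

section Aux

variable {k : Type u} [Field k] [IsAlgClosed k] {Q : Amb} {L L' : Type u} [Field L] [Algebra k L]
  [Field L'] [Algebra k L']

theorem A3_eq {v w : Q.V → L} (h : Same v w) {ς : ∀ i, Q.σ i} (hv : ∀ i, v ⟨i, ς i⟩ = 1)
    (hw : ∀ i, w ⟨i, ς i⟩ = 1) (s : Q.V) : v s = w s := by
  have e := h.ratio s.1 s.2 (ς s.1)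
  rwa [hv, hw, div_one, div_one] at e

theorem A3_lift {Z : Sub k Q} {v : Q.V → L} {v' : Q.V → L'} (h : IsGen (Z : Set (Q.Pt k)) v)
    (h' : IsGen (Z : Set (Q.Pt k)) v') {ς : ∀ i, Q.σ i} (hv : ∀ i, v ⟨i, ς i⟩ = 1)
    (ht : IntermediateField.adjoin k (Set.range v) = ⊤) :
    ∃ ψ : L →ₐ[k] L', Same (fun s => ψ (v s)) v' := by
  have h0 : ∀ i, v' ⟨i, ς i⟩ ≠ 0 := fun i e => by
    have h1 := (h.iff _ _ (IsForm.X ⟨i, ς i⟩)).2
      ((h'.iff _ _ (IsForm.X ⟨i, ς i⟩)).1 (by rwa [aeval_X]))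
    rw [aeval_X, hv] at h1
    exact one_ne_zero h1
  obtain ⟨ψ, hψ⟩ := h.lift (isGen_same h' (same_norm h0)) hv (fun i => div_self (h0 i)) ht
  exact ⟨ψ, (funext hψ).symm ▸ same_norm h0⟩

theorem A3_ext {σ : Type} {z : σ → L} (ht : IntermediateField.adjoin k (Set.range z) = ⊤)
    {f g : L →ₐ[k] L'} (h : ∀ s, f (z s) = g (z s)) (y : L) : f y = g y := by
  obtain ⟨r, s, rfl⟩ := (IntermediateField.mem_adjoin_range_iff k z y).1 (ht ▸ trivial)
  rw [map_div₀, map_div₀, comp_aeval_apply, comp_aeval_apply, comp_aeval_apply, comp_aeval_apply,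
    funext h]

theorem A3_fld {v : Q.V → L} {ς : ∀ i, Q.σ i} (hv : ∀ i, v ⟨i, ς i⟩ = 1) :
    fld k v = IntermediateField.adjoin k (Set.range v) := by
  refine le_antisymm (IntermediateField.adjoin_le_iff.2 ?_) (IntermediateField.adjoin.mono k _ _ ?_)
  · rintro _ ⟨i, s, t, rfl⟩
    exact div_mem (IntermediateField.subset_adjoin _ _ ⟨_, rfl⟩)
      (IntermediateField.subset_adjoin _ _ ⟨_, rfl⟩)
  · rintro _ ⟨s, rfl⟩
    exact ⟨s.1, s.2, ς s.1, by rw [hv, div_one]⟩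

theorem A3_top {σ : Type} {S : IntermediateField k L} {u : σ → S}
    (h : S = IntermediateField.adjoin k (Set.range fun s => (u s : L))) :
    IntermediateField.adjoin k (Set.range u) = ⊤ := by
  apply S.lift_injective
  rw [IntermediateField.lift_adjoin, IntermediateField.lift_top, ← Set.range_comp]
  exact h.symm

end Aux

theorem A3_dim : sdim (Mod.pow X U).Z.tp = Fintype.card U * X.dim := by
  rw [SV.sdim_tp, Mod.pow_dim, Nat.card_eq_fintype_card]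

theorem A3_gam (n : T × Fin X.dim → ℤ) (q : T × Fin X.dim) : lat (lg A.lam) n q ∈ Gam K :=
  log_per A n q ▸ log_mem (per_ne A n q)

theorem A3_log {Ω : Type u} [NormedField Ω] [NormedAlgebra K Ω] (n : T × Fin X.dim → ℤ)
    (q : T × Fin X.dim) {y : Ω} (hy : y ≠ 0) :
    Real.log ‖per A n q • y‖ = lat (lg A.lam) n q + Real.log ‖y‖ := by
  rw [norm_smul, Real.log_mul (norm_ne_zero_iff.2 (per_ne A n q)) (norm_ne_zero_iff.2 hy), log_per]

theorem gen_pt (M : Mod X V) (p q : U → V) (W : Sub K M.S) (hW : (W : Set (M.S.Pt K)) ⊆ M.Z.pts)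
    (hd : sdim W = Fintype.card U * X.dim) {ζ : Pt K (V × Fin X.dim)} (hζ : ζ ∈ SW A M W)
    (hg : Gen K (chi (dch p q) ζ.trop)) :
    IsGen (gl (dif A.sub M p q) W hW : Set ((M.S.sum (pw P U)).Pt K))
      (Amb.elim (th A M ζ) (th A (Mod.pow X U) (ζ.chp (dch p q)))) := by
  have h1 := isGen_th A (Mod.pow X U) (ξ := ζ.chp (dch p q)) (by rwa [Pt.chp_trop])
  refine ((on_gl _ hW).2 ⟨hζ, on_dif_th A M p q ζ⟩).isGen ?_
  rw [sdim_gl, hd, ← A3_dim, ← IsGen.rk_rat (Z := (Mod.pow X U).Z.tp) h1]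
  refine rk_mono ?_
  rintro _ ⟨i, s, t, rfl⟩
  exact ⟨Sum.inr i, s, t, rfl⟩

/-- The characters of a lift. -/
theorem A3_ch (M : Mod X V) (p q : U → V) {ξ : Pt K (V × Fin X.dim)} {τ : Pt K (U × Fin X.dim)}
    {ι : τ.Ω →ₐ[K] ξ.Ω} (hι : Iso ι) {z : M.S.V → ξ.Ω} {w : (pw P U).V → ξ.Ω}
    (h : On (dif A.sub M p q).graph.pts (Amb.elim z w)) (hz : Same (th A M ξ) z)
    (hw : Same w fun s => ι (th A (Mod.pow X U) τ s)) :
    ∃ n, ∀ k, ξ.ch (dch p q) k = per A n k • ι (τ.x k) := by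
  have h1 := fun_unique _ (on_dif_th A M p q ξ) (h.same (hz.elim hw.symm))
  have h2 : (fun s => ι (th A (Mod.pow X U) τ s)) = th A (Mod.pow X U)
      ⟨ξ.toCF, fun k => ι (τ.x k), fun k => (map_ne_zero ι).2 (τ.ne k)⟩ :=
    _root_.funext (th_map A (Mod.pow X U) (ξ := τ)
      (ζ := ⟨ξ.toCF, fun k => ι (τ.x k), fun k => (map_ne_zero ι).2 (τ.ne k)⟩) hι fun _ => rfl)
  have h3 : Same (P := (Mod.pow X U).S) (th A (Mod.pow X U) (ξ.chp (dch p q)))
    fun s => ι (th A (Mod.pow X U) τ s) := h1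
  rw [h2] at h3
  exact (same_iff A (Mod.pow X U) ξ.toCF _ _ _ _).1 h3

theorem A3_range {ξ : Pt K (V × Fin X.dim)} {τ : Pt K (U × Fin X.dim)} (hτ : τ.Tight)
    {ι : τ.Ω →ₐ[K] ξ.Ω} (hι : Iso ι) {χ : U × Fin X.dim → V × Fin X.dim → ℤ}
    {n : U × Fin X.dim → ℤ} (h : ∀ k, ξ.ch χ k = per A n k • ι (τ.x k)) :
    cl K (Set.range (ξ.ch χ)) = ι.fieldRange := by
  rw [hι.range_eq hτ]
  refine le_antisymm (cl_le_cl ?_) (cl_le_cl ?_)
  · rintro _ ⟨k, rfl⟩
    rw [h]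
    exact IntermediateField.smul_mem _ (subset_cl _ (Set.mem_range_self k))
  · rintro _ ⟨k, rfl⟩
    have e : ι (τ.x k) = (per A n k)⁻¹ • ξ.ch χ k := by rw [h, inv_smul_smul₀ (per_ne A n k)]
    change ι (τ.x k) ∈ _
    rw [e]
    exact IntermediateField.smul_mem _ (subset_cl _ (Set.mem_range_self k))

/-- Two points over the fundamental domain with the same image. -/
theorem A3_le (M : Mod X T) {ξ ζ : Pt K (T × Fin X.dim)} {ψ : ξ.Ω →ₐ[K] ζ.Ω} (hψ : Iso ψ)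
    (h : Same (fun s => ψ (th A M ξ s)) (th A M ζ)) (hξ : ξ.trop ∈ Dom (lg A.lam) T)
    (hζ : ζ.trop ∈ Dom (lg A.lam) T) : ξ.Le ζ := by
  have h2 : (fun s => ψ (th A M ξ s)) = th A M
      ⟨ζ.toCF, fun k => ψ (ξ.x k), fun k => (map_ne_zero ψ).2 (ξ.ne k)⟩ :=
    _root_.funext (th_map A M (ξ := ξ)
      (ζ := ⟨ζ.toCF, fun k => ψ (ξ.x k), fun k => (map_ne_zero ψ).2 (ξ.ne k)⟩) hψ fun _ => rfl)
  rw [h2] at h
  obtain ⟨n, hn⟩ := (same_iff A M ζ.toCF _ ζ.x _ ζ.ne).1 h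
  have h3 : ξ.trop - lat (lg A.lam) n = ζ.trop := funext fun k => by
    have e := A3_log A n k (ζ.ne k)
    rw [← hn, hψ] at e
    exact sub_eq_iff_eq_add'.2 e
  have h4 : ξ.trop - lat (lg A.lam) 0 = ξ.trop := funext fun k => by simp [lat]
  obtain rfl : n = 0 := (exists_dom_lat A.ind ξ.trop).unique (h3.symm ▸ hζ) (h4.symm ▸ hξ)
  exact ⟨ψ, hψ, fun k => by simpa [per] using hn k⟩

theorem A3_main (p₀ : ℕ) [Fact p₀.Prime] [CharP K p₀] (M : Mod X V) (p q : U → V) (W : Sub K M.S)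
    (hW : (W : Set (M.S.Pt K)) ⊆ M.Z.pts) (hd : sdim W = Fintype.card U * X.dim)
    {E L : Type u} [Field E] [Field L] [Algebra K E] [Algebra K L] [Algebra E L]
    [IsScalarTower K E L] [FiniteDimensional E L] {z : M.S.V → L} {u : (Mod.pow X U).S.V → E}
    (hv : IsGen (gl (dif A.sub M p q) W hW : Set ((M.S.sum (pw P U)).Pt K))
      (Amb.elim z fun s => algebraMap E L (u s)))
    (hu : IsGen ((Mod.pow X U).Z.tp : Set ((Mod.pow X U).S.Pt K)) u) {ς : ∀ i, M.S.σ i}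
    {ς' : ∀ i, (Mod.pow X U).S.σ i} (z1 : ∀ i, z ⟨i, ς i⟩ = 1) (u1 : ∀ i, u ⟨i, ς' i⟩ = 1)
    (zt : IntermediateField.adjoin K (Set.range z) = ⊤)
    (ut : IntermediateField.adjoin K (Set.range u) = ⊤) :
    DegS (SW A M W) (dch p q) (Dom (lg A.lam) V) (Set.range (lat (lg A.lam)))
      (Module.finrank E L) := by
  intro s hs
  obtain ⟨τ, rfl, hτ⟩ := exists_mono (K := K) s
  have gτ : GenT K τ.x := ⟨τ.ne, hs⟩
  obtain ⟨j, hj⟩ := A3_lift hu (isGen_th A (Mod.pow X U) hs) u1 ut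
  have jt : cl K (Set.range j) = ⊤ := by
    refine top_le_iff.1 (hτ.ge.trans (cl_le_cl ?_))
    rintro _ ⟨k, rfl⟩
    refine cl_le_cl ?_ (x_mem A (Mod.pow X U) τ k)
    rw [← hj.rat]
    rintro _ ⟨i, a, b, rfl⟩
    exact subset_cl _ ⟨_, map_div₀ j _ _⟩
  obtain ⟨C⟩ := exists_cmp (F := L) p₀ j (sep_dense p₀ gτ hτ j jt
    (fd_of_rk (Set.finite_range u) ut (by
      rw [← rk_rat_norm u ς' u1, hu.rk_rat, A3_dim, Fintype.card_prod, Fintype.card_fin])))
  obtain ⟨oW, oG⟩ := (on_gl _ hW).1 (on_of_gen hv)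
  have oG' {Ω : Type u} [Field Ω] [Algebra K Ω] (φ : L →ₐ[K] Ω) :
      On (dif A.sub M p q).graph.pts
        (Amb.elim (fun s => φ (z s)) fun s => φ (algebraMap E L (u s))) := by
    convert (on_map φ).2 oG using 1
    funext ⟨i, s⟩
    cases i <;> rfl
  choose x hx h1 h2 using fun a =>
    exists_lift A M (C.L a) ((on_map (C.φ a)).2 (oW.mono hW))
  let ξ (a : Fin C.m) : Pt K (V × Fin X.dim) := ⟨C.L a, x a, hx a⟩
  choose n hn using fun a => A3_ch A M p q (ξ := ξ a) (C.iso a) (oG' (C.φ a)) (h1 a)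
    (by
      simp only [C.cmp]
      exact hj.map (C.ι a))
  have hr (a : Fin C.m) := A3_range A (ξ := ξ a) hτ (C.iso a) (hn a)
  refine ⟨C.m, ξ, ⟨fun a => ⟨((on_map (C.φ a)).2 oW).same (h1 a), h2 a, n a, funext fun k => ?_⟩,
    fun a => ?_, fun a => ?_, ?_⟩, fun ζ hζ hD ⟨m, hm⟩ => ?_, ?_⟩
  · rw [Pi.sub_apply, ← Pt.log_ch, hn, A3_log A _ _ ((map_ne_zero _).2 (τ.ne k)), C.iso]
    exact (add_sub_cancel_right _ _).symm
  · refine top_le_iff.1 ((C.gen a).ge.trans (IntermediateField.adjoin_le_iff.2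
      (Set.union_subset ?_ ?_)))
    · rintro _ ⟨y, rfl⟩
      refine (zt.ge.trans (IntermediateField.adjoin_le_iff.2 ?_) :
        ⊤ ≤ (cl K (Set.range (ξ a).x)).comap (C.φ a)) trivial
      rintro _ ⟨t, rfl⟩
      have e := (h1 a).ratio t.1 t.2 (ς t.1)
      rw [z1, map_one, div_one] at e
      change C.φ a (z t) ∈ cl K (Set.range (ξ a).x)
      rw [← e]
      exact div_mem (th_mem A M (ξ a) _) (th_mem A M (ξ a) _)
    · refine ((hr a).ge.trans (cl_le_cl ?_) : (C.ι a).fieldRange ≤ cl K (Set.range (ξ a).x))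
      rintro _ ⟨k, rfl⟩
      exact (ξ a).mon_mem _
  · have e := C.fd a
    rwa [← hr] at e
  · rintro a b ⟨ψ, hψ, e⟩
    have e1 : Same (fun t => ψ (C.φ a (z t))) fun t => C.φ b (z t) :=
      ((h1 a).symm.map ψ).trans ((funext (th_map A M hψ e)).symm ▸ h1 b)
    have e2 := A3_ext zt (f := ψ.comp (C.φ a)) (g := C.φ b)
      (A3_eq e1 (ς := ς) (fun i => by simp only [z1, map_one])
        fun i => by simp only [z1, map_one])
    refine C.ineq a b _ ψ (AlgHom.id K _) e2 fun y => ?_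
    refine ext_cl (ψ := ψ.comp (C.ι a)) (hψ.comp (C.iso a)).continuous (C.iso b).continuous
      (s := Set.range j) ?_ (jt ▸ trivial)
    rintro _ ⟨y, rfl⟩
    rw [← C.cmp, ← e2, AlgHom.comp_apply, AlgHom.comp_apply, C.cmp]
  · have hm' (k) : chi (dch p q) ζ.trop k = lat (lg A.lam) m k + τ.trop k :=
      sub_eq_iff_eq_add.1 (congrFun hm k).symm
    have g1 : Gen K (chi (dch p q) ζ.trop) := hs.congr fun k => by
      rw [hm', add_sub_cancel_right]
      exact A3_gam A m k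
    obtain ⟨φ, hφ⟩ := A3_lift hv (gen_pt A M p q W hW hd hζ g1)
      (ς := fun i => Sum.rec (motive := fun i => (M.S.sum (pw P U)).σ i) ς ς' i)
      (by
        rintro (i | i)
        · exact z1 i
        · exact (congrArg (algebraMap E L) (u1 i)).trans (map_one _))
      (top_le_iff.1 (zt.ge.trans (IntermediateField.adjoin.mono K _ _ (by
        rintro _ ⟨t, rfl⟩
        exact ⟨MP_10f4af_ag.vl t, rfl⟩))))
    have f1 : Same (fun t => φ (z t)) (th A M ζ) := hφ.comp (Crd.inl K _ _)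
    have f2 : Same (fun t => φ (algebraMap E L (u t))) (th A (Mod.pow X U) (ζ.chp (dch p q))) :=
      hφ.comp (Crd.inr K _ _)
    have n0 (k) : (per A m k)⁻¹ • ζ.ch (dch p q) k ≠ 0 :=
      smul_ne_zero (inv_ne_zero (per_ne A m k)) (ζ.mon_ne _)
    obtain ⟨ι, hι, e⟩ := exists_iso gτ hτ (t' := fun k => (per A m k)⁻¹ • ζ.ch (dch p q) k)
      fun k => by
        have e := A3_log A m k (n0 k)
        rw [smul_inv_smul₀ (per_ne A m k), Pt.log_ch, hm', add_right_inj] at e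
        exact Real.log_injOn_pos (norm_pos_iff.2 (n0 k)) (norm_pos_iff.2 (τ.ne k)) e.symm
    have f3 : Same (th A (Mod.pow X U) (ζ.chp (dch p q))) fun t => ι (th A (Mod.pow X U) τ t) := by
      rw [funext (th_map A (Mod.pow X U) (ζ := ⟨ζ.toCF, _, n0⟩) hι e)]
      exact (same_iff A (Mod.pow X U) ζ.toCF _ _ _ _).2
        ⟨m, fun k => (smul_inv_smul₀ (per_ne A m k) _).symm⟩
    have f4 := A3_ext ut (f := φ.comp (IsScalarTower.toAlgHom K E L)) (g := ι.comp j)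
      (A3_eq ((f2.trans f3).trans (hj.map ι).symm)
        (ς := ς') (fun i => by simp only [u1, map_one]) fun i => by simp only [u1, map_one])
    obtain ⟨a, ψ, hψ, k1, -⟩ := C.cov ζ.toCF φ ι hι f4
    refine ⟨a, A3_le A M (ξ := ξ a) hψ (((h1 a).map ψ).trans ?_) (h2 a) hD⟩
    simpa only [k1] using f1
  · rw [← C.sum]
    exact Finset.sum_congr rfl fun a _ => by rw [Pt.dg, hr]

theorem degS (p₀ : ℕ) [Fact p₀.Prime] [CharP K p₀] (M : Mod X V) (p q : U → V) (W : Sub K M.S)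
    (hW : (W : Set (M.S.Pt K)) ⊆ M.Z.pts) (hd : sdim W = Fintype.card U * X.dim) :
    DegS (SW A M W) (dch p q) (Dom (lg A.lam) V) (Set.range (lat (lg A.lam)))
      (dgH (dif A.sub M p q) W hW) := by
  have hs : sdim (gl (dif A.sub M p q) W hW) = sdim (Mod.pow X U).Z.tp := by
    rw [sdim_gl, hd, A3_dim]
  by_cases h0 : dgH (dif A.sub M p q) W hW = 0
  · intro s hg
    refine ⟨0, Fin.elim0, ⟨fun a => a.elim0, fun a => a.elim0, fun a => a.elim0,
      fun a => a.elim0⟩, fun ζ hζ _ ⟨m, hm⟩ => absurd h0 ?_, h0.symm ▸ rfl⟩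
    have g1 : Gen K (chi (dch p q) ζ.trop) := hg.congr fun k => by
      rw [← Pi.sub_apply, ← hm]
      exact A3_gam A m k
    have h1 := isGen_img (Crd.inr K _ _) (gen_pt A M p q W hW hd hζ g1)
    have h2 := isGen_th A (Mod.pow X U) (ξ := ζ.chp (dch p q)) (by rwa [Pt.chp_trop])
    refine (deg_ne_zero _ _).2 ?_
    exact (congrArg sdim (h1.unique (Z' := (Mod.pow X U).Z.tp) h2)).trans hs.symm
  obtain ⟨y, hy⟩ := (gl (dif A.sub M p q) W hW).isIrreducible.1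
  obtain ⟨ς, hς⟩ := exists_inCh y
  obtain ⟨L, _, _, v, hv, v1, vt⟩ := exists_gen _ ς ⟨y, hy, hς⟩
  have ev : v = Amb.elim (v ∘ MP_10f4af_ag.vl) (v ∘ MP_10f4af_ag.vr) := by
    funext ⟨i, s⟩
    cases i <;> rfl
  obtain ⟨-, o2, o3⟩ := on_graph _ ((on_gl _ hW).1 (ev ▸ on_of_gen hv)).2
  have h1 := isGen_img (Crd.inr K _ _) hv
  have h2 : (Crd.inr K _ _).img (gl (dif A.sub M p q) W hW) = (Mod.pow X U).Z.tp :=
    eq_of_sdim_le ((on_iff h1 (X.pow U).closed).1 o2) (hs.symm.trans ((deg_ne_zero _ _).1 h0).symm).le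
  have h3 : fld K v = ⊤ := (A3_fld v1).trans vt
  have h4 : dgH (dif A.sub M p q) W hW = Module.finrank (fld K (v ∘ MP_10f4af_ag.vr)) L := by
    rw [dgH, deg_eq _ hv, h3, IntermediateField.relfinrank_top_right]
    rfl
  have h5 : fld K (v ∘ MP_10f4af_ag.vr) = IntermediateField.adjoin K (Set.range (v ∘ MP_10f4af_ag.vr)) :=
    A3_fld (ς := fun i => ς (Sum.inr i)) fun i => v1 _
  have : FiniteDimensional (fld K (v ∘ MP_10f4af_ag.vr)) L :=
    Module.finite_of_finrank_pos (h4 ▸ Nat.pos_of_ne_zero h0)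
  rw [h4]
  refine A3_main A p₀ M p q W hW hd (z := v ∘ MP_10f4af_ag.vl) (u := fun s => ⟨v (MP_10f4af_ag.vr s),
    h5.ge (IntermediateField.subset_adjoin _ _ ⟨s, rfl⟩)⟩) (ev ▸ hv) ?_
    (ς := fun i => ς (Sum.inl i)) (ς' := fun i => ς (Sum.inr i)) (fun i => v1 _)
    (fun i => Subtype.ext (v1 _)) ?_ (A3_top h5)
  · rw [← isGen_map (fld K (v ∘ MP_10f4af_ag.vr)).val, ← h2]
    exact h1
  · rw [← A3_fld (ς := fun i => ς (Sum.inl i)) fun i => v1 _, ← o3, ← ev, h3]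

end Pool.Agent.Work.MP_ffcd14_ag.Tr
end

-- merged part: Pool.Agent.Work.MP_ffcd14_ag.Ry.P6
section
/-!
# The fibre of a morphism over a valued generic point

Model: `A3_main` and `degS` in `Tr/A3` (copy the structure of the proofs).
Plan.  If `dgH Φ W hW = 0` the family is empty: a point `z'` as in the last clause has
`rk (rat z') ≥ rk (rat w) = Y'.dim`, so it is a generic point of `W` (`on_graph`, `On.isGen`), and
`gen_iff_dgH` gives a contradiction.  Otherwise take the normalised generic point `(z, u)` of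
`gl Φ W`, the fields `E = K(u) ⊆ L = K(z)` with `finrank E L = dgH`, the embedding `j : E → Ω`
(`A3_lift`) with dense image, `Ort.sep_dense` (`fd_of_rk`), and `exists_cmp` of `Tr/V7`.
-/

namespace Pool.Agent.Work.MP_ffcd14_ag.Ry

open MvPolynomial Filter Topology MP_10f4af_ag MP_10f4af_ag.Nu Tr MeasureTheory
open scoped ENNReal

set_option linter.unusedSectionVars false

universe u

variable {k K : Type u} [Field k] [IsAlgClosed k] [NontriviallyNormedField K] [Cf k K]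
  [IsUltrametricDist K] [CompleteSpace K] [IsAlgClosed K] {P : Amb} {X : SV K P} {R : Ray k X}
  {T U U' : Type} [Fintype T] [DecidableEq T] [Fintype U] [DecidableEq U] [Fintype U']
  [DecidableEq U'] {Ω Ω' : Type u} [NormedField Ω] [NormedAlgebra K Ω] [IsUltrametricDist Ω]
  [CompleteSpace Ω] [NormedField Ω'] [NormedAlgebra K Ω'] [IsUltrametricDist Ω'] [CompleteSpace Ω']
  {M : Mod X T} {M0 : Mod R.B₀ T} {MU : Mod X U} {MU0 : Mod R.B₀ U}

theorem P6_gen {Q S : Amb} {Y : SV K Q} {Y' : SV K S} (Φ : Hom Y.toVar Y'.toVar) {W : Sub K Q}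
    (hW : (W : Set (Q.Pt K)) ⊆ Y.pts) (hd : sdim W = Y'.dim) {L : Type u} [Field L] [Algebra K L]
    {z : Q.V → L} {w : S.V → L} (hw : IsGen Y'.pts w) (h1 : On (W : Set (Q.Pt K)) z)
    (h2 : On Φ.graph.pts (Amb.elim z w)) :
    IsGen (gl Φ W hW : Set ((Q.sum S).Pt K)) (Amb.elim z w) := by
  refine ((on_gl _ hW).2 ⟨h1, h2⟩).isGen ?_
  rw [sdim_gl, hd, ← SV.sdim_tp, ← IsGen.rk_rat (Z := Y'.tp) hw]
  refine rk_mono ?_
  rintro _ ⟨i, s, t, rfl⟩
  exact ⟨Sum.inr i, s, t, rfl⟩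

theorem P6_elim {Q S : Amb} {L L' : Type u} (φ : L → L') (z : Q.V → L) (w : S.V → L) :
    (fun s => φ (Amb.elim z w s)) = Amb.elim (fun s => φ (z s)) fun s => φ (w s) := by
  funext ⟨i, s⟩
  cases i <;> rfl

theorem P6_main (p : ℕ) [Fact p.Prime] [CharP K p] {Q S : Amb} {Y : SV K Q} {Y' : SV K S}
    (Φ : Hom Y.toVar Y'.toVar) {W : Sub K Q} (hW : (W : Set (Q.Pt K)) ⊆ Y.pts)
    (hd : sdim W = Y'.dim) {w : S.V → Ω} (hw : IsGen Y'.pts w) (ht : cl K (rat w) = ⊤) {κ : Type}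
    [Fintype κ] [DecidableEq κ] {t : κ → Ω} (ho : Ort K t)
    [FiniteDimensional (cl K (Set.range t)) Ω] (hκ : Y'.dim ≤ Fintype.card κ)
    {E N : Type u} [Field E] [Field N] [Algebra K E] [Algebra K N] [Algebra E N]
    [IsScalarTower K E N] [FiniteDimensional E N] {y : Q.V → N} {u : S.V → E}
    (hv : IsGen (gl Φ W hW : Set ((Q.sum S).Pt K)) (Amb.elim y fun s => algebraMap E N (u s)))
    (hu : IsGen (Y'.tp : Set (S.Pt K)) u) {ς : ∀ i, Q.σ i} {ς' : ∀ i, S.σ i}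
    (y1 : ∀ i, y ⟨i, ς i⟩ = 1) (u1 : ∀ i, u ⟨i, ς' i⟩ = 1)
    (yt : IntermediateField.adjoin K (Set.range y) = ⊤)
    (ut : IntermediateField.adjoin K (Set.range u) = ⊤)
    (hf : dgH Φ W hW = Module.finrank E N) :
    ∃ (m : ℕ) (L : Fin m → CF K) (z : ∀ a, Q.V → (L a).Ω) (ι : ∀ a, Ω →ₐ[K] (L a).Ω),
      (∀ a, Iso (ι a) ∧ On (W : Set (Q.Pt K)) (z a) ∧
        On Φ.graph.pts (Amb.elim (z a) fun s => ι a (w s)) ∧ cl K (rat (z a)) = ⊤ ∧
          FiniteDimensional (ι a).fieldRange (L a).Ω) ∧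
      ∑ a, Module.finrank (ι a).fieldRange (L a).Ω = dgH Φ W hW ∧
      (∀ a b (ψ : (L a).Ω →ₐ[K] (L b).Ω), Iso ψ → Same (fun s => ψ (z a s)) (z b) → a = b) ∧
      ∀ (F : CF K) (z' : Q.V → F.Ω) (ι' : Ω →ₐ[K] F.Ω), Iso ι' → On (W : Set (Q.Pt K)) z' →
        On Φ.graph.pts (Amb.elim z' fun s => ι' (w s)) →
          ∃ (a : Fin m) (ψ : (L a).Ω →ₐ[K] F.Ω), Iso ψ ∧ Same (fun s => ψ (z a s)) z' := by
  obtain ⟨j, hj⟩ := A3_lift (Z := Y'.tp) hu hw u1 ut
  have jt : cl K (Set.range j) = ⊤ := by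
    refine top_le_iff.1 (ht.ge.trans (cl_le_cl ?_))
    rw [← hj.rat]
    rintro _ ⟨i, a, b, rfl⟩
    exact subset_cl _ ⟨_, map_div₀ j _ _⟩
  obtain ⟨C⟩ := Tr.exists_cmp (F := N) p j (ho.sep_dense p j jt
    (fd_of_rk (Set.finite_range u) ut (by
      rw [← rk_rat_norm u ς' u1, hu.rk_rat, SV.sdim_tp]
      exact Nat.cast_le.2 hκ)))
  obtain ⟨oW, oG⟩ := (on_gl _ hW).1 (on_of_gen hv)
  refine ⟨C.m, C.L, fun a s => C.φ a (y s), C.ι, fun a => ⟨C.iso a, (on_map _).2 oW, ?_, ?_, C.fd a⟩,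
    C.sum.trans hf.symm, fun a b ψ hψ e1 => ?_, fun F z' ι hι h1 h2 => ?_⟩
  · have h1 := (on_map (C.φ a)).2 oG
    rw [P6_elim] at h1
    refine h1.same ((Same.refl _).elim ?_)
    simp only [C.cmp]
    exact (hj.map (C.ι a)).symm
  · have h1 : ∀ x, C.φ a x ∈ cl K (rat fun s => C.φ a (y s)) := fun x => by
      refine (yt.ge.trans (IntermediateField.adjoin_le_iff.2 ?_) :
        ⊤ ≤ (cl K (rat fun s => C.φ a (y s))).comap (C.φ a)) trivial
      rintro _ ⟨s, rfl⟩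
      exact subset_cl _ ⟨s.1, s.2, ς s.1, by simp only [y1, map_one, div_one]; rfl⟩
    refine top_le_iff.1 ((C.gen a).ge.trans (IntermediateField.adjoin_le_iff.2
      (Set.union_subset ?_ ?_)))
    · rintro _ ⟨x, rfl⟩
      exact h1 x
    · rintro _ ⟨x, rfl⟩
      refine (jt.ge.trans (cl_le ((isClosed_cl K _).preimage (C.iso a).continuous) ?_) :
        ⊤ ≤ (cl K (rat fun s => C.φ a (y s))).comap (C.ι a)) trivial
      rintro _ ⟨e, rfl⟩
      exact (congrArg (· ∈ cl K (rat fun s => C.φ a (y s))) (C.cmp a e)).mp (h1 _)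
  · have e2 := A3_ext yt (f := ψ.comp (C.φ a)) (g := C.φ b)
      (A3_eq e1 (ς := ς) (fun i => by simp only [y1, map_one])
        fun i => by simp only [y1, map_one])
    refine C.ineq a b _ ψ (AlgHom.id K _) e2 fun x => ?_
    refine ext_cl (ψ := ψ.comp (C.ι a)) (hψ.comp (C.iso a)).continuous (C.iso b).continuous
      (s := Set.range j) ?_ (jt ▸ trivial)
    rintro _ ⟨x, rfl⟩
    rw [← C.cmp, ← e2, AlgHom.comp_apply, AlgHom.comp_apply, C.cmp]
  · obtain ⟨φ, hφ⟩ := A3_lift hv (P6_gen Φ hW hd ((isGen_map ι).2 hw) h1 h2)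
      (ς := fun i => Sum.rec (motive := fun i => (Q.sum S).σ i) ς ς' i)
      (by
        rintro (i | i)
        · exact y1 i
        · exact (congrArg (algebraMap E N) (u1 i)).trans (map_one _))
      (top_le_iff.1 (yt.ge.trans (IntermediateField.adjoin.mono K _ _ (by
        rintro _ ⟨s, rfl⟩
        exact ⟨MP_10f4af_ag.vl s, rfl⟩))))
    have f1 : Same (fun s => φ (y s)) z' := hφ.comp (Crd.inl K _ _)
    have f2 : Same (fun s => φ (algebraMap E N (u s))) fun s => ι (w s) :=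
      hφ.comp (Crd.inr K _ _)
    have f4 := A3_ext ut (f := φ.comp (IsScalarTower.toAlgHom K E N)) (g := ι.comp j)
      (A3_eq (f2.trans (hj.map ι).symm)
        (ς := ς') (fun i => by simp only [u1, map_one]) fun i => by simp only [u1, map_one])
    obtain ⟨a, ψ, hψ, k1, -⟩ := C.cov F φ ι hι f4
    refine ⟨a, ψ, hψ, ?_⟩
    simpa only [k1] using f1

theorem exists_fib (p : ℕ) [Fact p.Prime] [CharP K p] {Q S : Amb} {Y : SV K Q} {Y' : SV K S}
    (Φ : Hom Y.toVar Y'.toVar) {W : Sub K Q} (hW : (W : Set (Q.Pt K)) ⊆ Y.pts)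
    (hd : sdim W = Y'.dim) {w : S.V → Ω} (hw : IsGen Y'.pts w) (ht : cl K (rat w) = ⊤) {κ : Type}
    [Fintype κ] [DecidableEq κ] {t : κ → Ω} (ho : Ort K t)
    [FiniteDimensional (cl K (Set.range t)) Ω] (hκ : Y'.dim ≤ Fintype.card κ) :
    ∃ (m : ℕ) (L : Fin m → CF K) (z : ∀ a, Q.V → (L a).Ω) (ι : ∀ a, Ω →ₐ[K] (L a).Ω),
      (∀ a, Iso (ι a) ∧ On (W : Set (Q.Pt K)) (z a) ∧
        On Φ.graph.pts (Amb.elim (z a) fun s => ι a (w s)) ∧ cl K (rat (z a)) = ⊤ ∧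
          FiniteDimensional (ι a).fieldRange (L a).Ω) ∧
      ∑ a, Module.finrank (ι a).fieldRange (L a).Ω = dgH Φ W hW ∧
      (∀ a b (ψ : (L a).Ω →ₐ[K] (L b).Ω), Iso ψ → Same (fun s => ψ (z a s)) (z b) → a = b) ∧
      ∀ (F : CF K) (z' : Q.V → F.Ω) (ι' : Ω →ₐ[K] F.Ω), Iso ι' → On (W : Set (Q.Pt K)) z' →
        On Φ.graph.pts (Amb.elim z' fun s => ι' (w s)) →
          ∃ (a : Fin m) (ψ : (L a).Ω →ₐ[K] F.Ω), Iso ψ ∧ Same (fun s => ψ (z a s)) z' := by
  have hs : sdim (gl Φ W hW) = sdim Y'.tp := by rw [sdim_gl, hd, SV.sdim_tp]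
  by_cases h0 : dgH Φ W hW = 0
  · refine ⟨0, Fin.elim0, fun a => a.elim0, fun a => a.elim0, fun a => a.elim0, h0.symm ▸ rfl,
      fun a => a.elim0, fun F z' ι hι h1 h2 => absurd h0 ?_⟩
    have h3 := (isGen_map ι).2 hw
    have h4 := isGen_img (Crd.inr K _ _) (P6_gen Φ hW hd h3 h1 h2)
    refine (deg_ne_zero _ _).2 ?_
    exact (congrArg sdim (h4.unique (Z' := Y'.tp) h3)).trans hs.symm
  obtain ⟨y, hy⟩ := (gl Φ W hW).isIrreducible.1
  obtain ⟨ς, hς⟩ := exists_inCh y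
  obtain ⟨L, _, _, v, hv, v1, vt⟩ := exists_gen _ ς ⟨y, hy, hς⟩
  have ev : v = Amb.elim (v ∘ MP_10f4af_ag.vl) (v ∘ MP_10f4af_ag.vr) := by
    funext ⟨i, s⟩
    cases i <;> rfl
  obtain ⟨-, o2, o3⟩ := on_graph _ ((on_gl _ hW).1 (ev ▸ on_of_gen hv)).2
  have h1 := isGen_img (Crd.inr K _ _) hv
  have h2 : (Crd.inr K _ _).img (gl Φ W hW) = Y'.tp :=
    eq_of_sdim_le ((on_iff h1 Y'.closed).1 o2) (hs.symm.trans ((deg_ne_zero _ _).1 h0).symm).le
  have h3 : fld K v = ⊤ := (A3_fld v1).trans vt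
  have h4 : dgH Φ W hW = Module.finrank (fld K (v ∘ MP_10f4af_ag.vr)) L := by
    rw [dgH, deg_eq _ hv, h3, IntermediateField.relfinrank_top_right]
    rfl
  have h5 : fld K (v ∘ MP_10f4af_ag.vr) =
      IntermediateField.adjoin K (Set.range (v ∘ MP_10f4af_ag.vr)) :=
    A3_fld (ς := fun i => ς (Sum.inr i)) fun i => v1 _
  have : FiniteDimensional (fld K (v ∘ MP_10f4af_ag.vr)) L :=
    Module.finite_of_finrank_pos (h4 ▸ Nat.pos_of_ne_zero h0)
  obtain ⟨u, hu⟩ : ∃ u : S.V → fld K (v ∘ MP_10f4af_ag.vr), ∀ s,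
      algebraMap _ L (u s) = v (MP_10f4af_ag.vr s) :=
    ⟨fun s => ⟨v (MP_10f4af_ag.vr s), h5.ge (IntermediateField.subset_adjoin _ _ ⟨s, rfl⟩)⟩,
      fun s => rfl⟩
  have eu : (fun s => algebraMap _ L (u s)) = v ∘ MP_10f4af_ag.vr := funext hu
  have hv' : IsGen (gl Φ W hW : Set ((Q.sum S).Pt K)) (Amb.elim (v ∘ MP_10f4af_ag.vl)
      fun s => algebraMap (fld K (v ∘ MP_10f4af_ag.vr)) L (u s)) := by
    rw [eu, ← ev]
    exact hv
  have gu : IsGen (Y'.tp : Set (S.Pt K)) u := by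
    rw [← isGen_map (fld K (v ∘ MP_10f4af_ag.vr)).val, ← h2]
    exact (congrArg (IsGen _) eu).mpr h1
  have u1 : ∀ i, u ⟨i, ς (Sum.inr i)⟩ = 1 := fun i => Subtype.ext ((hu _).trans (v1 _))
  have yt : IntermediateField.adjoin K (Set.range (v ∘ MP_10f4af_ag.vl)) = ⊤ := by
    rw [← A3_fld (ς := fun i => ς (Sum.inl i)) fun i => v1 _, ← o3, ← ev, h3]
  have ut : IntermediateField.adjoin K (Set.range u) = ⊤ := by
    have e : u = fun s => ⟨v (MP_10f4af_ag.vr s),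
        h5.ge (IntermediateField.subset_adjoin _ _ ⟨s, rfl⟩)⟩ :=
      funext fun s => Subtype.ext (hu s)
    rw [e]
    exact A3_top h5
  exact P6_main p Φ hW hd hw ht ho hκ (E := fld K (v ∘ MP_10f4af_ag.vr)) (N := L)
    (y := v ∘ MP_10f4af_ag.vl) (u := u) hv' gu (ς := fun i => ς (Sum.inl i))
    (ς' := fun i => ς (Sum.inr i)) (fun i => v1 _) u1 yt ut h4

end Pool.Agent.Work.MP_ffcd14_ag.Ry
end

-- merged part: Pool.Agent.Work.MP_ffcd14_ag.Ry.P5
section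
/-!
# The points over the generic point of `B₀ ^ T`

Plan.  `lift_one`: `homog` gives a form `F` with the same values as `f` on normalised vectors, and
`F` vanishes on `B₀` (`mem_chI_form`, or multiply by the coordinates of the chart); `R.lift` gives
`g'` close to `map F`; take `g = g' + map (f - F)`.  `van_prod`: a polynomial which vanishes on a
product of sets lies in the sum of the ideals of the factors (induction on `T`,
`Finite.induction_empty_option`, or a choice of complements: write `f = ∑ a j * b j` with the `a j`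
independent modulo the ideal of the first factor).  `exists_gp`: `I` is the ideal of the
polynomials which vanish on the product of the charts of `B₀`; for `f = ∑ a j * rename (f j)` take
`g f = ∑ map (a j) * rename (g j)`; for `f ∉ I`, `IsGen.ker` and `rs_evk`, `rs_ne_zero`.
`Tp.le`: `norm_eq`, `exists_iso_norm`.  `exists_tp`: enumerate the forms on `M0.S` which do not
vanish on `M0.Z`; choose `y n ∈ M0.Z` in the chart where the first `n` forms do not vanish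
(`not_van_prod`), lift its components by `R.pts` and normalise; the torus coordinates come from
`exists_pt s`; take a limit along an ultrafilter finer than `atTop` (`exists_lim`, `lim_oks`,
`lim_crE`, `Lim.trop`), then `Pt.tight` (`le_iff`, `tight_iff`, `vbE_map`).  `Tp.deg`: `top_deg`,
`Frame.rind`, `fld_vbE`.  `Tp.isGen`: `gen_thE`, `dim_mod`, `gen_iff_rnk`.
-/

namespace Pool.Agent.Work.MP_ffcd14_ag.Ry

open MvPolynomial Filter Topology MP_10f4af_ag MP_10f4af_ag.Nu Tr MeasureTheory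
open scoped ENNReal

set_option linter.unusedSectionVars false

universe u

variable {k K : Type u} [Field k] [IsAlgClosed k] [NontriviallyNormedField K] [Cf k K]
  [IsUltrametricDist K] [CompleteSpace K] [IsAlgClosed K] {P : Amb} {X : SV K P} {R : Ray k X}
  {T U U' : Type} [Fintype T] [DecidableEq T] [Fintype U] [DecidableEq U] [Fintype U']
  [DecidableEq U'] {Ω Ω' : Type u} [NormedField Ω] [NormedAlgebra K Ω] [IsUltrametricDist Ω]
  [CompleteSpace Ω] [NormedField Ω'] [NormedAlgebra K Ω'] [IsUltrametricDist Ω'] [CompleteSpace Ω']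
  {M : Mod X T} {M0 : Mod R.B₀ T} {MU : Mod X U} {MU0 : Mod R.B₀ U}

theorem lift_one (ς : ∀ i, R.Q.σ i) {f : MvPolynomial R.Q.V k} (hf : f ∈ chI R.B₀.pts ς) :
    ∃ g : MvPolynomial R.Q.V K, (∀ β, ‖coeff β (g - map (algebraMap k K) f)‖ < 1) ∧
      ∀ (Ω : Type u) [NormedField Ω] [NormedAlgebra K Ω] [CompleteSpace Ω] (v : R.Q.V → Ω),
        On R.B.pts v → (∀ i, v ⟨i, ς i⟩ = 1) → aeval v g = 0 := by
  let _ := Fintype.ofFinite R.Q.ι
  obtain ⟨F, a, hF, e⟩ := homog ς f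
  obtain ⟨b, hb⟩ := form_prod (k := k) Finset.univ
    (fun i => MvPolynomial.X (⟨i, ς i⟩ : R.Q.V)) fun i _ => ⟨_, IsForm.X _⟩
  obtain ⟨g, h1, h2⟩ := R.lift ς _ _ (hF.mul hb) fun y hy => by
    rw [ev_mul]
    by_cases hc : InCh ς y
    · rw [(eval_hat_eq_zero hc hF).1 ((mem_chI_congr e).2 hf y hy hc), zero_mul]
    · rw [not_not.1 (mt inCh_iff.2 hc), mul_zero]
  refine ⟨g + MvPolynomial.map (algebraMap k K)
    (f - F * ∏ i, MvPolynomial.X (⟨i, ς i⟩ : R.Q.V)), fun β => ?_, fun Ω _ _ _ v hv h => ?_⟩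
  · rw [map_sub, add_sub_right_comm, ← add_sub_assoc, sub_add_cancel]
    exact h1 β
  · let _ : Algebra k Ω := (ak k K Ω).toAlgebra
    have : IsScalarTower k K Ω := IsScalarTower.of_algebraMap_eq fun _ => rfl
    rw [map_add, h2 Ω v hv h, zero_add, aeval_map_algebraMap, map_sub, map_mul, e Ω v h, map_prod]
    simp [h]

theorem P5_one {F : Type u} [Field F] {σ ι : Type} {A : Set (σ → F)} {S : Type u} [CommRing S]
    [Algebra F S] {J : Ideal S} (ρ : MvPolynomial σ F →ₐ[F] S)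
    (hρ : ∀ h, (∀ y ∈ A, eval y h = 0) → ρ h ∈ J) (a : ι → S) (s : Finset ι) :
    ∀ h : ι → MvPolynomial σ F, (∀ y ∈ A, ∑ j ∈ s, eval y (h j) • a j ∈ J) →
      ∑ j ∈ s, a j * ρ (h j) ∈ J := by
  classical
  induction s using Finset.induction_on with
  | empty => simp
  | insert n s hn ih =>
    intro h H
    simp only [Finset.sum_insert hn] at H ⊢
    by_cases h0 : ∀ y ∈ A, eval y (h n) = 0
    · refine add_mem (J.mul_mem_left _ (hρ _ h0)) (ih h fun y hy => ?_)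
      simpa [h0 y hy] using H y hy
    push Not at h0
    obtain ⟨z, hz, h0⟩ := h0
    have h1 := ih (fun j => h j - (eval z (h j) / eval z (h n)) • h n) fun y hy => by
      have := sub_mem (H y hy) (J.smul_of_tower_mem (eval y (h n) / eval z (h n)) (H z hz))
      rw [smul_add, smul_smul, div_mul_cancel₀ _ h0, add_sub_add_left_eq_sub, Finset.smul_sum,
        ← Finset.sum_sub_distrib] at this
      refine (congrArg (· ∈ J) (Finset.sum_congr rfl fun j _ => ?_)).mp this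
      rw [smul_smul, ← sub_smul, map_sub, smul_eval]
      congr 2
      ring
    have h2 := J.mul_mem_right (ρ (h n)) (J.smul_of_tower_mem (eval z (h n))⁻¹ (H z hz))
    rw [smul_add, smul_smul, inv_mul_cancel₀ h0, one_smul, add_mul, Finset.smul_sum,
      Finset.sum_mul] at h2
    have := add_mem h2 h1
    rw [add_assoc, ← Finset.sum_add_distrib] at this
    refine (congrArg (fun x => a n * ρ (h n) + x ∈ J) (Finset.sum_congr rfl fun j _ => ?_)).mp this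
    rw [map_sub, map_smul, smul_smul, mul_sub, mul_smul_comm, smul_mul_assoc, div_eq_inv_mul,
      add_sub_cancel]

theorem van_prod {F : Type u} [Field F] {σ : Type} (A : T → Set (σ → F))
    {f : MvPolynomial (T × σ) F}
    (hf : ∀ y : T → σ → F, (∀ t, y t ∈ A t) → eval (fun q => y q.1 q.2) f = 0) :
    f ∈ Ideal.span {g | ∃ t h, (∀ y ∈ A t, eval y h = 0) ∧ g = rename (Prod.mk t) h} := by
  set J := Ideal.span {g : MvPolynomial (T × σ) F |
    ∃ t h, (∀ y ∈ A t, eval y h = 0) ∧ g = rename (Prod.mk t) h}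
  let h : (T × σ →₀ ℕ) → T → MvPolynomial σ F := fun β t => monomial (β.curry t) 1
  have key : ∀ (S : Finset T) (c : (T × σ →₀ ℕ) → F), (∀ y : T → σ → F, (∀ t ∈ S, y t ∈ A t) →
      ∑ β ∈ f.support, c β * ∏ t ∈ S, eval (y t) (h β t) = 0) →
        ∑ β ∈ f.support, c β • ∏ t ∈ S, rename (Prod.mk t) (h β t) ∈ J := fun S => by
    induction S using Finset.induction_on with
    | empty =>
      intro c H
      have := H 0 (by simp)
      simp only [Finset.prod_empty, mul_one] at this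
      simp only [Finset.prod_empty, ← Finset.sum_smul, this, zero_smul, zero_mem]
    | insert t S ht ih =>
      intro c H
      simp only [Finset.prod_insert ht, mul_comm (rename (Prod.mk t) _), ← smul_mul_assoc]
      refine P5_one (A := A t) (J := J) (rename (Prod.mk t))
        (fun h hh => Ideal.subset_span (by exact ⟨t, h, hh, rfl⟩)) _ _ (fun β => h β t) fun z hz => ?_
      simp only [smul_smul]
      refine ih _ fun y hy => ?_
      rw [← H (Function.update y t z) fun t' ht' => by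
        rcases Finset.mem_insert.1 ht' with rfl | h'
        · rwa [Function.update_self]
        · rw [Function.update_of_ne (ne_of_mem_of_not_mem h' ht)]
          exact hy t' h']
      refine Finset.sum_congr rfl fun β _ => ?_
      rw [Finset.prod_insert ht, Function.update_self, mul_comm _ (c β), mul_assoc]
      congr 2
      exact Finset.prod_congr rfl fun t' h' => by
        rw [Function.update_of_ne (ne_of_mem_of_not_mem h' ht)]
  have e : ∑ β ∈ f.support, coeff β f • ∏ t, rename (Prod.mk t) (h β t) = f := by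
    conv_rhs => rw [f.as_sum]
    refine Finset.sum_congr rfl fun β _ => ?_
    have : ∑ t, (β.curry t).mapDomain (Prod.mk t) = β := by
      ext ⟨t, s⟩
      rw [Finsupp.finsetSum_apply, Finset.sum_eq_single t, Finsupp.mapDomain_apply
        (Prod.mk_right_injective t), Finsupp.curry_apply]
      · exact fun t' _ h' => Finsupp.mapDomain_of_notMem_range _ _ fun ⟨_, e⟩ =>
          h' (congrArg Prod.fst e)
      · simp
    simp only [h, rename_monomial, ← monomial_sum_one, this, smul_monomial, smul_eq_mul, mul_one]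
  rw [← e]
  refine key _ _ fun y hy => ?_
  have := hf y fun t => hy t (Finset.mem_univ t)
  rw [← e] at this
  simpa only [map_sum, smul_eval, map_prod, eval_rename, Function.comp_def] using this

theorem P5_bd {V : Type} [Finite V] {f : MvPolynomial V K} (h : ∀ β, ‖coeff β f‖ < 1) :
    ∃ ρ < 1, K3_B f ρ := by
  obtain ⟨ρ, h0, h1, h2⟩ := K3_rho f.support.finite_toSet fun β _ => h β
  refine ⟨ρ, h1, fun β => ?_⟩
  by_cases e : β ∈ f.support
  · exact h2 β e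
  · rw [notMem_support_iff.1 e, norm_zero]
    exact h0.le

theorem P5_chart {F : Type u} [Field F] {Y : SV F P} (M : Mod Y T) (ς : T → ∀ i, P.σ i) :
    ∃ ς' : ∀ j, M.S.σ j, ∀ j, ∃ t i, (⟨j, ς' j⟩ : M.S.V) = (M.β t).ε ⟨i, ς t i⟩ := by
  refine (Classical.skolem (p := fun j c => ∃ t i, (⟨j, c⟩ : M.S.V) = (M.β t).ε ⟨i, ς t i⟩)).1
    fun j => ?_
  obtain ⟨⟨t, i⟩, rfl⟩ := M.bψ.2 j
  have h1 := (M.β t).fst ⟨i, ς t i⟩
  generalize hw : (M.β t).ε ⟨i, ς t i⟩ = w at h1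
  obtain ⟨j, w⟩ := w
  obtain rfl : j = (M.β t).ψ i := h1
  exact ⟨w, t, i, hw.symm⟩

theorem P5_gen {L L' : Type u} [Field L] [Algebra k L] [Field L'] [Algebra k L'] {Y : SV k P}
    (M : Mod Y T) {ς : T → ∀ i, P.σ i} {v : T → P.V → L} {w : T → P.V → L'}
    (hv : IsGen M.Z.pts (lf M v)) (hw : ∀ t, On Y.pts (w t)) (h1 : ∀ t i, v t ⟨i, ς t i⟩ = 1)
    (h2 : ∀ t i, w t ⟨i, ς t i⟩ = 1) {f : MvPolynomial (T × P.V) k}
    (h : aeval (fun q : T × P.V => v q.1 q.2) f = 0) :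
    aeval (fun q : T × P.V => w q.1 q.2) f = 0 := by
  obtain ⟨ς', hς⟩ := P5_chart M ς
  obtain ⟨g, a, hg, e⟩ := homog ς' (rename (fun q : T × P.V => (M.β q.1).ε q.2) f)
  have e1 := e L (lf M v) fun j => by
    obtain ⟨t, i, e⟩ := hς j
    rw [e, lf_ε, h1]
  have e2 := e L' (lf M w) fun j => by
    obtain ⟨t, i, e⟩ := hς j
    rw [e, lf_ε, h2]
  simp only [aeval_rename, Function.comp_def, lf_ε] at e1 e2
  rw [← e2]
  exact ((on_mod M).2 fun t => (lf_comp M w t).symm ▸ hw t).2 g a hg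
    ((hv.iff g a hg).1 (e1.trans h))

theorem exists_gp (M0 : Mod R.B₀ T) (ς : Ch R T) :
    ∃ (I : Ideal (MvPolynomial (T × CV R.Q) k)) (g : _ → MvPolynomial (T × CV R.Q) K), Lf K I g ∧
      ∀ (Ω : Type u) [NormedField Ω] [NormedAlgebra K Ω] [IsUltrametricDist Ω] [CompleteSpace Ω]
        (ξ : EF R Ω T), Oks ξ → chE ξ = ς → IsGen M0.Z.pts (vbE M0 ξ) →
          Gp I g fun q => crE ξ (.inr q) := by
  let A : T → Set (CV R.Q → k) := fun t => {y | ∃ x ∈ R.B₀.pts, InCh (ς t) x ∧ y = hat (ς t) x}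
  let I : Ideal (MvPolynomial (T × CV R.Q) k) :=
    Ideal.span {g | ∃ t h, (∀ y ∈ A t, eval y h = 0) ∧ g = rename (Prod.mk t) h}
  have H : ∀ f, ∃ g : MvPolynomial (T × CV R.Q) K, f ∈ I →
      (∀ β, ‖coeff β (g - map (algebraMap k K) f)‖ < 1) ∧
      ∀ (Ω : Type u) [NormedField Ω] [NormedAlgebra K Ω] [CompleteSpace Ω] (ξ : EF R Ω T),
        Oks ξ → chE ξ = ς → aeval (fun q => crE ξ (.inr q)) g = 0 := fun f => by
    by_cases hf : f ∈ I
    swap
    · exact ⟨0, fun h => absurd h hf⟩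
    simp only [hf, true_imp_iff]
    induction hf using Submodule.span_induction with
    | mem _ hx =>
      obtain ⟨t, h, hh, rfl⟩ := hx
      obtain ⟨g : MvPolynomial (CV R.Q) K, h1, h2⟩ :=
        lift_one (R := R) (ς t) (f := h) fun x hx hc => hh _ ⟨x, hx, hc, rfl⟩
      refine ⟨rename (Prod.mk t) g, fun β => ?_, fun Ω _ _ _ ξ ho hc => ?_⟩
      · rw [map_rename, ← map_sub]
        by_cases e : coeff β (rename (Prod.mk t) (g - MvPolynomial.map (algebraMap k K) h)) = 0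
        · rw [e, norm_zero]
          exact one_pos
        · obtain ⟨γ, rfl, -⟩ := coeff_rename_ne_zero _ _ _ e
          rw [coeff_rename_mapDomain _ (Prod.mk_right_injective t)]
          exact h1 γ
      · subst hc
        rw [aeval_rename]
        exact h2 Ω _ (ho t).2.2.1 (ho t).1
    | zero => exact ⟨0, by simp, fun _ _ _ _ _ _ _ => map_zero _⟩
    | add x y _ _ hx hy =>
      obtain ⟨g, h1, h2⟩ := hx
      obtain ⟨g', h1', h2'⟩ := hy
      refine ⟨g + g', fun β => ?_, fun Ω _ _ _ ξ ho hc => ?_⟩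
      · rw [map_add, add_sub_add_comm, coeff_add]
        exact (IsUltrametricDist.norm_add_le_max _ _).trans_lt (max_lt (h1 β) (h1' β))
      · rw [map_add, h2 Ω ξ ho hc, h2' Ω ξ ho hc, add_zero]
    | smul a x _ hx =>
      obtain ⟨g, h1, h2⟩ := hx
      obtain ⟨ρ, h3, h4⟩ := P5_bd h1
      refine ⟨map (algebraMap k K) a * g, fun β => ?_, fun Ω _ _ _ ξ ho hc => ?_⟩
      · rw [smul_eq_mul, map_mul, ← mul_sub]
        exact (h4.mul a β).trans_lt h3
      · rw [map_mul, h2 Ω ξ ho hc, mul_zero]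
  choose g hg using H
  refine ⟨I, g, fun f hf => (hg f hf).1, fun Ω _ _ _ _ ξ ho hc hv =>
    ⟨fun q => (ho q.1).2.1 q.2, fun f hf => (hg f hf).2 Ω ξ ho hc, fun f hf => ?_⟩⟩
  obtain ⟨h1, h2⟩ := rs_evk (k := k) (K := K) (v := fun q => crE ξ (.inr q))
    (fun q => (ho q.1).2.1 q.2) f
  refine (rs_ne_zero (k := k) (K := K) h1).1 fun h0 => hf (van_prod A fun y hy => ?_)
  choose x hx hx' e using hy
  refine P5_gen M0 (ς := ς) (w := y) hv (fun t => ?_) (fun t i => ?_) (fun t i => ?_)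
    (h2.symm.trans h0)
  · rw [e t]
    exact ((on_pt R.B₀.closed).2 (hx t)).same (same_norm (hx' t))
  · subst hc
    exact (congrArg (rs k K) ((ho t).1 i)).trans rs_one
  · rw [e t]
    exact hat_one (hx' t) i

variable {τ : EF R Ω T}

theorem P5_genT (h : Tp M0 τ) : GenT K fun q => crE τ (.inl q) :=
  ⟨fun q => (h.ok q.1).2.2.2 q.2, h.gen⟩

theorem P5_map {ψ : Ω →ₐ[K] Ω'} (hψ : Iso ψ) : Tp M0 (mapE ψ τ) ↔ Tp M0 τ := by
  obtain ⟨φ, -, e⟩ := vbE_map (k := k) (R := R) (T := T) hψ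
  exact ⟨fun h => ⟨(oks_map hψ).1 h.ok, trE_map (ξ := τ) hψ ▸ h.gen, (isGen_map φ).1 (e M0 τ ▸ h.vb)⟩,
    fun h => ⟨(oks_map hψ).2 h.ok, (trE_map (ξ := τ) hψ).symm ▸ h.gen, (e M0 τ).symm ▸ h.vb.map φ⟩⟩

theorem Tp.le (h : Tp M0 τ) (ht : cl K (Set.range (crE τ)) = ⊤) {ζ : EF R Ω' T} (h' : Tp M0 ζ)
    (e : trE ζ = trE τ) (ec : chE ζ = chE τ) : ∃ ψ : Ω →ₐ[K] Ω', Iso ψ ∧ mapE ψ τ = ζ := by
  obtain ⟨I, g, hg, H⟩ := exists_gp M0 (chE τ)
  obtain ⟨ψ, h1, h2⟩ := exists_iso_norm ht (x' := crE ζ)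
    (norm_eq hg (H Ω τ h.ok rfl h.vb) (H Ω' ζ h'.ok ec h'.vb) (P5_genT h)
      (t' := fun q => crE ζ (.inl q)) fun q => Real.log_injOn_pos
        (norm_pos_iff.2 ((P5_genT h').1 q)) (norm_pos_iff.2 ((P5_genT h).1 q)) (congrFun e q))
  refine ⟨ψ, h1, funext fun t => ?_⟩
  have e1 : (τ t).ς = (ζ t).ς := (congrFun ec t).symm
  have e2 : (fun s => ψ ((τ t).v s)) = (ζ t).v := funext fun s => h2 (.inr (t, s))
  have e3 : (fun j => ψ ((τ t).t j)) = (ζ t).t := funext fun j => h2 (.inl (t, j))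
  rw [mapE, EP.map, e1, e2, e3]

theorem Tp.map (h : Tp M0 τ) {ψ : Ω →ₐ[K] Ω'} (hψ : Iso ψ) : Tp M0 (mapE ψ τ) :=
  (P5_map hψ).2 h

theorem P5_lift {ς : ∀ i, R.Q.σ i} {y : R.Q.Pt k} (hy : y ∈ R.B₀.pts) (hc : InCh ς y) :
    ∃ v : R.Q.V → K, (∀ i, v ⟨i, ς i⟩ = 1) ∧ (∀ s, ‖v s‖ ≤ 1) ∧ On R.B.pts v ∧
      ∀ s, ‖v s - algebraMap k K (hat ς y s)‖ < 1 := by
  obtain ⟨v, h1, h2⟩ := R.pts y hy
  have h3 : ∀ s, ‖v s‖ ≤ 1 := fun s => by
    rw [← sub_add_cancel (v s) (algebraMap k K (rp y s))]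
    exact (IsUltrametricDist.norm_add_le_max _ _).trans
      (max_le (h2 s).le (norm_ak_le k K (Ω := K) _))
  have h4 : ∀ s, rs k K (v s) = algebraMap k _ (rp y s) := fun s =>
    ((rs_eq (h3 s) (norm_ak_le k K (Ω := K) _)).2 (h2 s)).trans (rs_ak _)
  have h5 : ∀ i, ‖v ⟨i, ς i⟩‖ = 1 := fun i =>
    (rs_ne_zero (h3 _)).1 (h4 _ ▸ (map_ne_zero _).2 (hc i))
  have h6 : ∀ i, v ⟨i, ς i⟩ ≠ 0 := fun i => norm_ne_zero_iff.1 (h5 i ▸ one_ne_zero)
  have h7 : ∀ s, ‖v s / v ⟨s.1, ς s.1⟩‖ ≤ 1 := fun s => by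
    rw [norm_div, h5, div_one]
    exact h3 s
  refine ⟨fun s => v s / v ⟨s.1, ς s.1⟩, fun i => div_self (h6 i), h7, h1.same (same_norm h6),
    fun s => (rs_eq (k := k) (K := K) (h7 s) (norm_ak_le k K (Ω := K) _)).1 ?_⟩
  rw [rs_div (h3 s) (h5 _), h4, h4, rs_ak, ← map_div₀]
  rfl

theorem P5_nrm (M0 : Mod R.B₀ T) (f : MvPolynomial M0.S.V k) {ξ : EF R Ω T} (h : Oks ξ) :
    aeval (vbE M0 ξ) f ≠ 0 ↔ ‖aeval (crE ξ) (rename (lf M0 fun t s => (.inr (t, s) : IX R T))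
      (map (algebraMap k K) f))‖ = 1 := by
  obtain ⟨h1, h2⟩ := rs_evk (k := k) (K := K) (v := lf M0 fun t => (ξ t).v)
    (fun s => (h _).2.1 _) f
  rw [aeval_rename]
  exact (Iff.of_eq (congrArg (· ≠ 0) h2.symm)).trans (rs_ne_zero h1)

/-- A point over a given field whose reduction avoids finitely many hypersurfaces. -/
theorem P5_pt (F : Frame M0) (hF : F.V = M0.Z.tp) (e : ℕ → MvPolynomial M0.S.V k)
    (he : ∀ j, (∃ a, IsForm (e j) a) ∧ ¬Van M0.Z.pts (e j)) (n : ℕ) {x : T × Fin R.r → Ω}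
    (hx : ∀ q, x q ≠ 0) : ∃ ξ : EF R Ω T, Oks ξ ∧ chE ξ = F.ς ∧ (∀ q, crE ξ (.inl q) = x q) ∧
      ∀ j < n, aeval (vbE M0 ξ) (e j) ≠ 0 := by
  let _ := Fintype.ofFinite R.Q.ι
  have h1 := not_van_prod (Z := M0.Z.tp) ((Finset.range n).disjSum Finset.univ)
    (Sum.elim e fun q : T × R.Q.ι => MvPolynomial.X ((M0.β q.1).ε ⟨q.2, F.ς q.1 q.2⟩))
    (by
      rintro (j | q) -
      exacts [(he j).1, ⟨_, IsForm.X _⟩])
    (by
      rintro (j | q) -
      exacts [(he j).2, hF ▸ F.ne q.1 q.2])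
  simp only [Van, not_forall] at h1
  obtain ⟨z, hz, h1⟩ := h1
  rw [ev_eq, map_prod, ← Ne, Finset.prod_ne_zero_iff] at h1
  have hc : ∀ t, InCh (F.ς t) ((M0.β t).pr z) := fun t i => by
    simpa [(M0.β t).rp_pr] using h1 (.inr (t, i)) (by simp)
  choose v v1 v2 v3 v4 using fun t => P5_lift (R := R) ((M0.mem z).1 hz t) (hc t)
  have v5 : ∀ t s, ‖algebraMap K Ω (v t s)‖ ≤ 1 := fun t s => (norm_algebraMap' Ω _).trans_le (v2 t s)
  refine ⟨fun t => ⟨F.ς t, fun s => algebraMap K Ω (v t s), fun j => x (t, j)⟩,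
    fun t => ⟨fun i => (congrArg (algebraMap K Ω) (v1 t i)).trans (map_one _), v5 t,
      (on_map (Algebra.ofId K Ω)).2 (v3 t), fun j => hx _⟩, rfl, fun _ => rfl, fun j hj => ?_⟩
  obtain ⟨μ, hμ, hs⟩ : Same (rp z) (lf M0 fun t => hat (F.ς t) ((M0.β t).pr z)) :=
    (same_mod M0).2 fun t => by
      rw [lf_comp, show rp z ∘ (M0.β t).ε = rp ((M0.β t).pr z) from
        funext fun s => ((M0.β t).rp_pr z s).symm]
      exact (same_norm (hc t)).symm
  have h2 : vbE M0 (fun t => ⟨F.ς t, fun s => algebraMap K Ω (v t s), fun j => x (t, j)⟩) =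
      algebraMap k _ ∘ lf M0 fun t => hat (F.ς t) ((M0.β t).pr z) :=
    funext fun s => ((rs_eq (v5 _ _) (norm_ak_le k K _)).2 (by
      rw [ak, RingHom.comp_apply, ← map_sub, norm_algebraMap']
      exact v4 _ _)).trans (rs_ak _)
  obtain ⟨a, ha⟩ := (he j).1
  have h3 := h1 (.inl j) (by simpa using hj)
  rw [Sum.elim_inl, funext hs, ha.eval_scale] at h3
  rw [h2, aeval_algebraMap_apply]
  exact (map_ne_zero _).2 (right_ne_zero_of_mul h3)

theorem exists_tp [Countable k] (F : Frame M0) (hF : F.V = M0.Z.tp) {s : T × Fin R.r → ℝ}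
    (hs : Gen K s) : ∃ (G : CF K) (τ : EF R G.Ω T), Tp M0 τ ∧ trE τ = s ∧ chE τ = F.ς ∧
      cl K (Set.range (crE τ)) = ⊤ := by
  have : Countable (MvPolynomial M0.S.V k) :=
    Function.Injective.countable (f := fun f => AddMonoidAlgebra.coeff f)
      AddMonoidAlgebra.coeff_injective
  obtain ⟨e, he⟩ := (Set.to_countable {f : MvPolynomial M0.S.V k |
    (∃ a, IsForm f a) ∧ ¬Van M0.Z.pts f}).exists_eq_range
      ⟨1, ⟨_, IsForm.one⟩, fun h => by
        obtain ⟨x, hx⟩ := M0.Z.irr.1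
        simpa [ev] using h x hx⟩
  obtain ⟨x, hx⟩ := Tr.exists_pt (K := K) s
  choose ξ h1 h2 h3 h4 using fun n => P5_pt F hF e
    (fun j => (he.ge ⟨j, rfl⟩ :)) n x.ne
  have h5 : ∀ n, ep F.ς (toP x.toCF (ξ n) (h1 n)) = ξ n := fun n => h2 n ▸ ep_toP _ _ _
  have h6 : ∀ n, Oks (ep F.ς (toP x.toCF (ξ n) (h1 n))) := fun n => (h5 n).symm ▸ h1 n
  have h7 : ∀ n, (toP x.toCF (ξ n) (h1 n)).trop = exy s := fun n => by
    rw [trop_ep (h6 n), h5, ← hx]
    exact congrArg exy (funext fun q => congrArg (fun a => Real.log ‖a‖) (h3 n q))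
  obtain ⟨z, hz⟩ := exists_lim (ζ := fun n => toP x.toCF (ξ n) (h1 n))
    ⟨‖exy (R := R) s‖, fun n i => h7 n ▸ norm_le_pi_norm (exy s) i⟩ (hyperfilter ℕ)
  have k1 := lim_oks F.ς hz h6
  have k2 : trE (ep F.ς z) = s := exy_inj ((trop_ep k1).symm.trans
    (tendsto_nhds_unique hz.trop (by simpa only [h7] using tendsto_const_nhds)))
  have k3 : IsGen M0.Z.pts (vbE M0 (ep F.ς z)) := by
    refine ⟨(on_vbE M0 k1).1, fun f a hf => ⟨fun h0 => ?_, (on_vbE M0 k1).2 f a hf⟩⟩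
    by_contra hv
    obtain ⟨j, rfl⟩ := he.le ⟨⟨a, hf⟩, hv⟩
    refine (P5_nrm M0 _ k1).2 (tendsto_nhds_unique (lim_crE F.ς hz _)
      (tendsto_const_nhds.congr' ?_)) h0
    filter_upwards [Nat.hyperfilter_le_atTop (eventually_gt_atTop j)] with n hn
    rw [h5]
    exact ((P5_nrm M0 _ (h1 n)).1 (h4 n j hn)).symm
  obtain ⟨ψ, hψ, e1⟩ := (le_iff F.ς _ _).1 z.tight_le
  exact ⟨z.tight.toCF, ep F.ς z.tight, (P5_map hψ).1 (e1.symm ▸ ⟨k1, k2.symm ▸ hs, k3⟩),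
    (trE_map hψ).symm.trans (e1.symm ▸ k2), rfl, (tight_iff _ _).1 z.tight_tight⟩

theorem Tp.ort (h : Tp M0 τ) (F : Frame M0) (hF : F.V = M0.Z.tp) (hc : chE τ = F.ς) :
    Ort K (Sum.elim (fun q => crE τ (.inl q)) fun j => crE τ (.inr (F.ν j))) :=
  ort_of (P5_genT h) (F.rind h.ok hc (hF ▸ h.vb)).1

theorem Tp.deg (p : ℕ) [Fact p.Prime] [CharP K p] (h : Tp M0 τ)
    (ht : cl K (Set.range (crE τ)) = ⊤) (F : Frame M0) (hF : F.V = M0.Z.tp) (hc : chE τ = F.ς) :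
    FiniteDimensional (cl K (Set.range
      (Sum.elim (fun q => crE τ (.inl q)) fun j => crE τ (.inr (F.ν j))))) Ω ∧
    Module.finrank (cl K (Set.range
      (Sum.elim (fun q => crE τ (.inl q)) fun j => crE τ (.inr (F.ν j))))) Ω = F.d := by
  obtain ⟨I, g, hg, H⟩ := exists_gp M0 (chE τ)
  obtain ⟨h1, h2⟩ := F.rind h.ok hc (hF ▸ h.vb)
  rw [fld_vbE M0 h.ok] at h2
  rw [← h2]
  exact top_deg p hg (H Ω τ h.ok rfl h.vb) (P5_genT h) ht h1.2 (h2.trans_ne F.pos.ne')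

theorem Tp.isGen (h : Tp M0 τ) (M : Mod X T) : IsGen M.Z.pts (thE M τ) :=
  gen_thE h.ok (V := M0.Z.tp) h.vb (W := M.Z.tp) (on_thE M h.ok) (by
    rw [SV.sdim_tp, SV.sdim_tp, ← dim_mod M M0]
    exact Nat.add_le_add_right (gen_iff_rnk.1 h.gen) _)

end Pool.Agent.Work.MP_ffcd14_ag.Ry
end

-- merged part: Pool.Agent.Work.MP_ffcd14_ag.Ry.P8
section
/-!
# Points over the top point

Plan.  `LH.over`: let `η` be the lift given by `hL`; `Same (thE η) (thE (mapE ι τ))` by `fun_unique`,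
`thE_map`; `same_lat`, `same_gen`, `Tp.map`; `w = vbE MU0 η`.  `LH.top`: `chi χ (trE ξ)` is generic
(`Gen.congr`, `lat_gam`), so `card ≤ rnk` (`rnk_chi_le`, `gen_iff_rnk`); `gen_iff_dgH` gives
`MU0.Z.dim ≤ sdim V`; `abh_le`, `dim_mod`.  `LH.cover`: the lift `η` of `ζ` has a generic reduction
(`gen_iff_dgH`); `exists_act` with `-n`, `same_gen`, `exists_chE` give a point with `Tp`, the same
chart and the same tropicalisation as `τ`; `Tp.le`; `On.same`, `Same.elim`.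
`LH.deg_one`: `deg_chg` for `t = crE ξ ∘ inl ∘ c.h.μ`, `u = crE ξ ∘ inr ∘ c.ν`,
`t' = ι ∘ crE τ ∘ inl ∘ e` (`e : c.κ ≃ U × Fin R.r` the bijection in `dt`),
`u' = ι ∘ crE τ ∘ inr ∘ F0.ν`, `L = fld k (vbE M0 ξ)` and the rational matrix
`Q j i = ∑ l, χ (e j) l * c.h.E l i` (`I3_chi`, `I2_gen`, `Gen.det_ne`; see `I3_term`).  The field is
finite over `cl (t', u')`, of degree `F0.d * finrank ι.fieldRange` (`Tp.deg`, `Iso.map_cl`); apply
`deg_chg` first with the roles exchanged and `Q⁻¹` to get the finiteness over `cl (t, u)`.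
`[L : k(u)] = c.d` and `[L : k(u')] = F0.d * dgH Φ0` (`Frame.rind` for `ξ` and for `mapE ι τ`,
`LH.over`, `dgH_gen`, `relfinrank_mul_relfinrank`); `cl_ch`, `ep_toP`.
-/

namespace Pool.Agent.Work.MP_ffcd14_ag.Ry

open MvPolynomial Filter Topology MP_10f4af_ag MP_10f4af_ag.Nu Tr MeasureTheory
open scoped ENNReal

set_option linter.unusedSectionVars false

universe u

variable {k K : Type u} [Field k] [IsAlgClosed k] [NontriviallyNormedField K] [Cf k K]
  [IsUltrametricDist K] [CompleteSpace K] [IsAlgClosed K] {P : Amb} {X : SV K P} {R : Ray k X}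
  {T U U' : Type} [Fintype T] [DecidableEq T] [Fintype U] [DecidableEq U] [Fintype U']
  [DecidableEq U'] {Ω Ω' : Type u} [NormedField Ω] [NormedAlgebra K Ω] [IsUltrametricDist Ω]
  [CompleteSpace Ω] [NormedField Ω'] [NormedAlgebra K Ω'] [IsUltrametricDist Ω'] [CompleteSpace Ω']
  {M : Mod X T} {M0 : Mod R.B₀ T} {MU : Mod X U} {MU0 : Mod R.B₀ U}

theorem P8_inv {κ : Type} [Fintype κ] [DecidableEq κ] {x y : κ → ℝ} {Q : Matrix κ κ ℚ}
    (hQ : Q.det ≠ 0) (e : ∀ i, y i - ∑ j, (Q i j : ℝ) * x j ∈ Gam K) (i : κ) :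
    x i - ∑ j, (Q⁻¹ i j : ℝ) * y j ∈ Gam K := by
  have h1 : ∀ l, ∑ j, (Q⁻¹ i j : ℝ) * Q j l = if i = l then 1 else 0 := fun l => by
    have := congrArg (fun x : ℚ => (x : ℝ))
      (congrFun (congrFun (Matrix.nonsing_inv_mul Q hQ.isUnit) i) l)
    simp only [Matrix.mul_apply, Matrix.one_apply] at this
    push_cast at this
    rw [this]
    split_ifs <;> simp
  have h2 : x i - ∑ j, (Q⁻¹ i j : ℝ) * y j =
      -∑ j, Q⁻¹ i j • (y j - ∑ l, (Q j l : ℝ) * x l) := by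
    simp only [Rat.smul_def, mul_sub, Finset.sum_sub_distrib, neg_sub, Finset.mul_sum, ← mul_assoc]
    rw [Finset.sum_comm]
    simp only [← Finset.sum_mul, h1, ite_mul, one_mul, zero_mul, Finset.sum_ite_eq,
      Finset.mem_univ, if_true]
  rw [h2]
  exact neg_mem (sum_mem fun j _ => Submodule.smul_mem _ _ (e j))

variable {Φ : Hom M.Z.toVar MU.Z.toVar} {Φ0 : Hom M0.Z.toVar MU0.Z.toVar}
  {χ : U × Fin R.r → T × Fin R.r → ℤ} (hL : LH Φ Φ0 χ) {F : CF K} {ξ : EF R F.Ω T} (h : Oks ξ)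
  {τ : EF R Ω U} (hτ : Tp MU0 τ)

include hL h hτ

theorem LH.over {ι : Ω →ₐ[K] F.Ω} (hι : Iso ι)
    (hg : On Φ.graph.pts (Amb.elim (thE M ξ) fun s => ι (thE MU τ s))) :
    (∃ n, Tr.chi χ (trE ξ) = trE τ + lat (lg R.lam) n) ∧ ∃ w,
      On Φ0.graph.pts (Amb.elim (vbE M0 ξ) w) ∧ IsGen MU0.Z.pts w ∧
        fld k w = fld k (vbE MU0 (mapE ι τ)) := by
  obtain ⟨η, hη, e1, g1, g2⟩ := hL F ξ h
  have hm : Oks (mapE ι τ) := (oks_map hι).2 hτ.ok
  have hs : Same (thE MU η) (thE MU (mapE ι τ)) := by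
    rw [thE_map MU hτ.ok hι]
    exact fun_unique Φ g1 hg
  obtain ⟨⟨n, e⟩, ef⟩ := same_lat MU0 hm hη hs
  exact ⟨⟨n, by rw [← e1, e, trE_map hι]⟩, vbE MU0 η, g2, same_gen hm hη hs (hτ.map hι).vb, ef⟩

theorem LH.top {ι : Ω →ₐ[K] F.Ω} (hι : Iso ι)
    (hg : On Φ.graph.pts (Amb.elim (thE M ξ) fun s => ι (thE MU τ s))) {W : Sub K M.S}
    (hd : sdim W = MU.Z.dim) (hW : On (W : Set (M.S.Pt K)) (thE M ξ)) {V : Sub k M0.S}
    (hV : IsGen (V : Set (M0.S.Pt k)) (vbE M0 ξ)) :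
    rnk K (trE ξ) = Fintype.card (U × Fin R.r) ∧ sdim V = MU0.Z.dim := by
  obtain ⟨⟨n, e⟩, w, g, gw, -⟩ := hL.over h hτ hι hg
  have gen : Gen K (Tr.chi χ (trE ξ)) := hτ.gen.congr fun q => by
    rw [e, Pi.add_apply, add_sub_cancel_left]
    exact lat_gam n q
  have h1 := (gen_iff_rnk.1 gen).trans (rnk_chi_le χ (trE ξ))
  have h2 := (gen_iff_dgH Φ0 ((on_iff hV M0.Z.closed).1 (on_vbE M0 h)) hV g).1 gw
  have h3 := abh_le h hV hW
  have h4 := dim_mod MU MU0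
  omega

variable (ht : cl K (Set.range (crE τ)) = ⊤) (F0 : Frame MU0) (hF0 : F0.V = MU0.Z.tp)
  (hc0 : chE τ = F0.ς)

include ht hF0 hc0

theorem LH.cover {V : Sub k M0.S} (hV : (V : Set (M0.S.Pt k)) ⊆ M0.Z.pts)
    (hg : IsGen (V : Set (M0.S.Pt k)) (vbE M0 ξ)) (hn : sdim V = MU0.Z.dim) (h0 : dgH Φ0 V hV ≠ 0)
    {n : U × Fin R.r → ℤ} (e : Tr.chi χ (trE ξ) = trE τ + lat (lg R.lam) n) :
    ∃ ι : Ω →ₐ[K] F.Ω, Iso ι ∧ On Φ.graph.pts (Amb.elim (thE M ξ) fun s => ι (thE MU τ s)) := by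
  obtain ⟨η, hη, e1, g1, g2⟩ := hL F ξ h
  have gen : IsGen MU0.Z.pts (vbE MU0 η) := ((gen_iff_dgH Φ0 hV hg g2).2 hn).2 h0
  obtain ⟨ζ, hζ, s1, e2⟩ := exists_act MU hη (-n)
  have gz : IsGen MU0.Z.pts (vbE MU0 ζ) := same_gen hη hζ s1 gen
  obtain ⟨ζ', hζ', c', t', s', v'⟩ := exists_chE MU F0 hζ (hF0 ▸ gz)
  have e3 : trE ζ' = trE τ := by rw [t', e2, e1, e, lat_neg, add_neg_cancel_right]
  obtain ⟨ψ, hψ, e4⟩ := hτ.le ht (ζ := ζ') ⟨hζ', e3 ▸ hτ.gen, isGen_same gz v'⟩ e3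
    (c'.trans hc0.symm)
  refine ⟨ψ, hψ, ?_⟩
  rw [← thE_map MU hτ.ok hψ, e4]
  exact g1.same ((Same.refl _).elim (s'.trans s1))

theorem LH.deg_one (p : ℕ) [Fact p.Prime] [CharP K p] (c : Cell M0) (hc : chE ξ = c.ς)
    (hV : IsGen (c.V : Set (M0.S.Pt k)) (vbE M0 ξ)) (hh : c.h.ev (trE ξ ∘ c.h.μ) = trE ξ)
    (hκ : Fintype.card c.κ = Fintype.card (U × Fin R.r)) (hn : sdim c.V = MU0.Z.dim)
    {ι : Ω →ₐ[K] F.Ω} (hι : Iso ι)
    (hg : On Φ.graph.pts (Amb.elim (thE M ξ) fun s => ι (thE MU τ s)))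
    [FiniteDimensional ι.fieldRange F.Ω] :
    (toP F ξ h).Fd (Tr.crd c.μ) ∧ (Module.finrank ι.fieldRange F.Ω : ℝ) * c.d =
      dt (I3_A χ c.h) * (toP F ξ h).dg (Tr.crd c.μ) * dgH Φ0 c.V c.sub := by
  have hne : Nonempty (c.κ ≃ U × Fin R.r) := Fintype.card_eq.1 hκ
  have hdt : dt (I3_A χ c.h) = |((I3_A χ c.h).submatrix id hne.some.symm).det| := dif_pos hne
  generalize hne.some = e at hdt
  obtain ⟨⟨n, e0⟩, w, g, -, fw⟩ := hL.over h hτ hι hg
  have hτ' := hτ.map hι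
  obtain ⟨d1, d2, -⟩ := dgH_gen Φ0 c.sub hV g
  rw [fw] at d1 d2
  obtain ⟨r1, r2⟩ := c.toFrame.rind h hc hV
  obtain ⟨r3, r4⟩ := F0.rind hτ'.ok (ξ := mapE ι τ) hc0 (hF0 ▸ hτ'.vb)
  have m1 : ∀ j, rs k K (crE ξ (.inr (c.ν j))) ∈ fld k (vbE M0 ξ) := fun j => by
    rw [fld_vbE M0 h]
    exact IntermediateField.subset_adjoin _ _ ⟨c.ν j, rfl⟩
  have m2 : ∀ j, rs k K (crE (mapE ι τ) (.inr (F0.ν j))) ∈ fld k (vbE MU0 (mapE ι τ)) := fun j => by
    rw [fld_vbE MU0 hτ'.ok]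
    exact IntermediateField.subset_adjoin _ _ ⟨F0.ν j, rfl⟩
  have r5 := IntermediateField.relfinrank_mul_relfinrank
    (IntermediateField.adjoin_le_iff.2 (Set.range_subset_iff.2 m2)) d2
  rw [r4, ← d1] at r5
  have fg : (fld k (vbE M0 ξ)).FG := by
    rw [fld_vbE M0 h]
    exact IntermediateField.fg_adjoin_of_finite (Set.finite_range _)
  have hcard : Fintype.card c.n = Fintype.card F0.n := by
    rw [c.card, F0.card, hn, hF0, SV.sdim_tp]
  have gT : GenT K fun j => crE (mapE ι τ) (.inl (e j)) :=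
    ⟨fun j => (P5_genT hτ').1 (e j), (P5_genT hτ').2.comp e.injective⟩
  let Q : Matrix c.κ c.κ ℚ := Matrix.of fun i j => ∑ l, (χ (e i) l : ℚ) * c.h.E l j
  have hQ : ∀ i j, (Q i j : ℝ) = I3_A χ c.h (e i) j := fun i j => by simp [Q, I3_A, Par.ER]
  have h2 : ∀ i, Real.log ‖crE (mapE ι τ) (.inl (e i))‖ -
      ∑ j, (Q i j : ℝ) * Real.log ‖crE ξ (.inl (c.h.μ j))‖ ∈ Gam K := fun i => by
    have a1 : Tr.chi χ (trE ξ) (e i) =
        ∑ j, I3_A χ c.h (e i) j * Real.log ‖crE ξ (.inl (c.h.μ j))‖ + Tr.chi χ c.h.γ (e i) := by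
      conv_lhs => rw [← hh]
      exact congrFun (I3_chi χ c.h _) (e i)
    have a2 : Real.log ‖crE (mapE ι τ) (.inl (e i))‖ = trE τ (e i) := congrFun (trE_map hι) (e i)
    have a3 := congrFun e0 (e i)
    rw [a1, Pi.add_apply] at a3
    have a4 : Tr.chi χ c.h.γ (e i) ∈ Gam K :=
      sum_mem fun l _ => zsmul_eq_mul (c.h.γ l) _ ▸ zsmul_mem (c.h.hγ l) _
    have a5 := sub_mem a4 (lat_gam n (e i))
    simp only [hQ, a2]
    rwa [eq_sub_of_add_eq a3, ← sub_add, ← sub_sub, sub_self, zero_sub, neg_add_eq_sub]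
  have hdet : Q.det ≠ 0 := gT.2.det_ne h2
  have h3 : (Q.det : ℝ) = ((I3_A χ c.h).submatrix id e.symm).det := by
    rw [← Matrix.det_submatrix_equiv_self e, Rat.cast_det]
    congr 1
    ext i j
    simp [hQ]
  obtain ⟨-, t2⟩ := hτ.deg p ht F0 hF0 hc0
  have em : (cl K (Set.range (Sum.elim (fun q => crE τ (.inl q))
      fun j => crE τ (.inr (F0.ν j))))).map ι = cl K (Set.range (Sum.elim
        (fun j => crE (mapE ι τ) (.inl (e j))) fun j => crE (mapE ι τ) (.inr (F0.ν j)))) := by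
    rw [hι.map_cl, ← Set.range_comp, Sum.comp_elim, Set.Sum.elim_range, Set.Sum.elim_range]
    exact congrArg (fun A => cl K (A ∪ _)) (e.surjective.range_comp _).symm
  have t3 := IntermediateField.relfinrank_mul_finrank_top
    ((IntermediateField.map_mono ι le_top).trans_eq (AlgHom.fieldRange_eq_map ι).symm :
      (cl K (Set.range (Sum.elim (fun q => crE τ (.inl q))
        fun j => crE τ (.inr (F0.ν j))))).map ι ≤ ι.fieldRange)
  nth_rw 1 [AlgHom.fieldRange_eq_map] at t3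
  rw [IntermediateField.relfinrank_map_map, IntermediateField.relfinrank_top_right, t2, em] at t3
  have := Module.finite_of_finrank_pos (t3 ▸ Nat.mul_pos F0.pos Module.finrank_pos)
  obtain ⟨k1, k2⟩ := deg_chg p gT r3 (t' := fun j => crE ξ (.inl (c.h.μ j)))
    (fun j => (h _).2.2.2 _) r1 hcard (Q := Q⁻¹)
    (by rw [Matrix.det_nonsing_inv, Ring.inverse_eq_inv']; exact inv_ne_zero hdet)
    (P8_inv hdet h2) _ fg (fun j => d2 (m2 j)) m1
  have ec := cl_ch c (toP F ξ h)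
  rw [← hc, ep_toP] at ec
  have ed : (toP F ξ h).dg (Tr.crd c.μ) = Module.finrank (cl K (Set.range (Sum.elim
      (fun j => crE ξ (.inl (c.h.μ j))) fun j => crE ξ (.inr (c.ν j))))) F.Ω := by
    rw [Pt.dg, ec]
    rfl
  rw [ed, Pt.Fd, ec]
  refine ⟨k1, ?_⟩
  rw [← r5, r2, ← t3, Matrix.det_nonsing_inv, Ring.inverse_eq_inv', abs_inv] at k2
  have k3 := congrArg (fun x : ℚ => (x : ℝ)) k2
  have p1 : (F0.d : ℝ) ≠ 0 := Nat.cast_ne_zero.2 F0.pos.ne'
  have p2 : |(Q.det : ℝ)| ≠ 0 := abs_ne_zero.2 (Rat.cast_ne_zero.2 hdet)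
  simp only [Rat.cast_mul, Rat.cast_inv, Rat.cast_abs, Rat.cast_natCast, Nat.cast_mul] at k3
  rw [hdt, ← h3]
  refine mul_left_cancel₀ p1 (mul_left_cancel₀ (inv_ne_zero p2) ?_)
  rw [mul_assoc |(Q.det : ℝ)|, mul_left_comm _ |(Q.det : ℝ)|, inv_mul_cancel_left₀ p2]
  linear_combination -k3

end Pool.Agent.Work.MP_ffcd14_ag.Ry
end

-- merged part: Pool.Agent.Work.MP_ffcd14_ag.Ry.P9
section
/-!
# The degree of a morphism, counted over a generic point of the tropical torus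

Plan.  `LH.exists_fam`: take a frame `F0` of `MU0.Z.tp` (`exists_frame`), the point `τ` of
`exists_tp`, and `exists_fib` for `w = thE MU τ` (`Tp.isGen`, `cl_crE`, `Tp.ort`, `Tp.deg`,
`dim_mod`, `F0.card`).  Lift each `z a` by `exists_lift`; `exists_vbE`, `LH.top` and `hc.uniq` give
the cell `x a`; `exists_chE` moves the lift to the chart of the cell; encode it by `toP`
(`ep_toP`, `tight_iff`, `cl_crE`, `Same.rat`).  The sum is `LH.deg_one` (`(c x).pos`).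
Inequivalence: `le_iff`, `thE_map`.  Covering: for `ζ` on the cell `y`, `LH.cover` and the last
clause of `exists_fib` give `a`, `ψ` with `Same (thE (mapE ψ ξ_a)) (thE ζ)`; `same_dom` gives the
same tropicalisation and the same reduction, so `x a = y` by the uniqueness in `hc.uniq`
(`IsGen.unique`, `vbE_map`), the charts agree, and `same_dom` again gives the equality; `le_iff`.
`LH.deg_pt`: write the triple sum as a sum over a sigma type (`ENNReal.tsum_sigma'`), and the finite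
sum over `a` fibrewise along `a ↦ (n a, x a, trP (z a) ∘ μ)` (`lat_inj`, `I3_chi`, `Par.ev_mu`).
The term `(n, x, η)` vanishes, and has an empty fibre or a fibre of zero terms, if `dt = 0`,
`dgH Φ0 = 0` or `h.ev η ∉ Dm`.  Otherwise the cardinalities agree, `η` is generic (`I3_rnk`,
`I2_gen`), and `Ov.mlt_eq` (`Cell.nc`, `Frame.mem_fib`) applies to the subfamily
`{a // x a = x ∧ trP (z a) = h.ev η}`.  Compare `deg_fib`, `int_formula` in `Tr/I3`.
-/

namespace Pool.Agent.Work.MP_ffcd14_ag.Ry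

open MvPolynomial Filter Topology MP_10f4af_ag MP_10f4af_ag.Nu Tr MeasureTheory
open scoped ENNReal

set_option linter.unusedSectionVars false

universe u

variable {k K : Type u} [Field k] [IsAlgClosed k] [NontriviallyNormedField K] [Cf k K]
  [IsUltrametricDist K] [CompleteSpace K] [IsAlgClosed K] {P : Amb} {X : SV K P} {R : Ray k X}
  {T U U' : Type} [Fintype T] [DecidableEq T] [Fintype U] [DecidableEq U] [Fintype U']
  [DecidableEq U'] {Ω Ω' : Type u} [NormedField Ω] [NormedAlgebra K Ω] [IsUltrametricDist Ω]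
  [CompleteSpace Ω] [NormedField Ω'] [NormedAlgebra K Ω'] [IsUltrametricDist Ω'] [CompleteSpace Ω']
  {M : Mod X T} {M0 : Mod R.B₀ T} {MU : Mod X U} {MU0 : Mod R.B₀ U}

variable (p : ℕ) [Fact p.Prime] [CharP K p] [Countable k] {Φ : Hom M.Z.toVar MU.Z.toVar}
  {Φ0 : Hom M0.Z.toVar MU0.Z.toVar} {χ : U × Fin R.r → T × Fin R.r → ℤ} (hL : LH Φ Φ0 χ)
  {W : Sub K M.S} (hW : (W : Set (M.S.Pt K)) ⊆ M.Z.pts) (hd : sdim W = MU.Z.dim) {H : Type u}
  {c : H → Cell M0} (hc : Cov M W c) {s : U × Fin R.r → ℝ} (hs : Gen K s)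

include p hL hd hc hs

theorem LH.exists_fam : ∃ (m : ℕ) (x : Fin m → H) (z : Fin m → PE R T),
    (∀ a, z a ∈ (c (x a)).S M W ∧ (z a).Tight ∧ (z a).Fd (Tr.crd (c (x a)).μ) ∧
      trP (z a) ∈ Dm R T ∧ (c (x a)).h.ev (trP (z a) ∘ (c (x a)).h.μ) = trP (z a) ∧
      Fintype.card (c (x a)).κ = Fintype.card (U × Fin R.r) ∧
      ∃ n, Tr.chi χ (trP (z a)) = s + lat (lg R.lam) n) ∧
    (∀ a b, x a = x b → (z a).Le (z b) → a = b) ∧
    (∀ y, ∀ ζ ∈ (c y).S M W, trP ζ ∈ Dm R T → (c y).h.ev (trP ζ ∘ (c y).h.μ) = trP ζ →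
      Fintype.card (c y).κ = Fintype.card (U × Fin R.r) → dgH Φ0 (c y).V (c y).sub ≠ 0 →
      (∃ n, Tr.chi χ (trP ζ) = s + lat (lg R.lam) n) → ∃ a, x a = y ∧ (z a).Le ζ) ∧
    (dgH Φ W hW : ℝ) = ∑ a, dt (I3_A χ (c (x a)).h) * (z a).dg (Tr.crd (c (x a)).μ) *
      dgH Φ0 (c (x a)).V (c (x a)).sub / (c (x a)).d := by
  obtain ⟨F0, hF0⟩ := exists_frame MU0 (V := MU0.Z.tp) subset_rfl
  obtain ⟨G, τ, hτ, rfl, hc0, ht⟩ := exists_tp F0 hF0 hs
  have := (hτ.deg p ht F0 hF0 hc0).1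
  have dm := dim_mod MU MU0
  obtain ⟨m, L, w, ι, h1, h2, h3, h4⟩ := exists_fib p Φ hW hd (hτ.isGen MU)
    ((cl_crE MU hτ.ok).symm.trans ht) (hτ.ort F0 hF0 hc0)
    (by rw [Fintype.card_sum, F0.card, hF0, MU0.Z.sdim_tp, dm])
  have key : ∀ a, ∃ (x : H) (ξ : EF R (L a).Ω T), Oks ξ ∧ chE ξ = (c x).ς ∧
      Same (thE M ξ) (w a) ∧ trE ξ ∈ Dm R T ∧ IsGen ((c x).V : Set (M0.S.Pt k)) (vbE M0 ξ) ∧
      (c x).h.ev (trE ξ ∘ (c x).h.μ) = trE ξ ∧ rnk K (trE ξ) = Fintype.card (U × Fin R.r) ∧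
      sdim (c x).V = MU0.Z.dim := fun a => by
    obtain ⟨ξ, k1, k2, k3⟩ := exists_lift (R := R) M ((h1 a).2.1.mono hW)
    obtain ⟨V, -, hV⟩ := exists_vbE M0 k1
    obtain ⟨k4, k5⟩ := hL.top k1 hτ (h1 a).1 ((h1 a).2.2.1.same (k2.elim (Same.refl _))) hd
      ((h1 a).2.1.same k2) hV
    obtain ⟨x, ⟨rfl, k6⟩, -⟩ := hc.uniq (L a) ξ V k1 ((h1 a).2.1.same k2) hV (by omega)
    obtain ⟨ζ, l1, l2, l3, l4, l5⟩ := exists_chE M (c x).toFrame k1 hV
    exact ⟨x, ζ, l1, l2, l4.trans k2, l3 ▸ k3, isGen_same hV l5, l3 ▸ k6, l3 ▸ k4, k5⟩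
  choose x ξ ok ch sa dom gen par rk dV using key
  have e : ∀ a, ep (c (x a)).ς (toP (L a) (ξ a) (ok a)) = ξ a := fun a =>
    ch a ▸ ep_toP (L a) (ξ a) (ok a)
  have et : ∀ a, trP (toP (L a) (ξ a) (ok a)) = trE (ξ a) := fun a => rfl
  have hg : ∀ a, On Φ.graph.pts (Amb.elim (thE M (ξ a)) fun s => ι a (thE MU τ s)) := fun a =>
    (h1 a).2.2.1.same ((sa a).elim (Same.refl _))
  have hκ : ∀ a, Fintype.card (c (x a)).κ = Fintype.card (U × Fin R.r) := fun a => by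
    have := hc.dim (x a)
    have := dV a
    omega
  have hdg := fun a => have := (h1 a).2.2.2.2
    hL.deg_one (ok a) hτ ht F0 hF0 hc0 p (c (x a)) (ch a) (gen a) (par a) (hκ a) (dV a) (h1 a).1
      (hg a)
  refine ⟨m, x, fun a => toP (L a) (ξ a) (ok a), fun a => ⟨?_, ?_, (hdg a).1, dom a, par a, hκ a,
    (hL.over (ok a) hτ (h1 a).1 (hg a)).1⟩, fun a b hab hle => ?_,
    fun y ζ hζ d1 d2 d3 d4 ⟨n, d5⟩ => ?_, ?_⟩
  · refine ⟨?_, ?_, ?_⟩ <;> rw [e]
    exacts [ok a, (h1 a).2.1.same (sa a), gen a]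
  · rw [tight_iff (c (x a)).ς, e]
    exact (cl_crE M (ok a)).trans ((congrArg (cl K) (sa a).rat).trans (h1 a).2.2.2.1)
  · obtain ⟨ψ, hψ, k1⟩ := (le_iff (c (x a)).ς _ _).1 hle
    rw [e, hab, e] at k1
    have k2 : thE M (ξ b) = fun s => ψ (thE M (ξ a) s) := k1 ▸ thE_map M (ok a) hψ
    exact h3 a b ψ hψ (((sa a).map ψ).symm.trans (k2 ▸ sa b))
  · obtain ⟨o1, o2, o3⟩ := hζ
    rw [← trE_ep (c y).ς] at d1 d2 d5
    have d6 := hc.dim y
    obtain ⟨ι', i1, i2⟩ := hL.cover (F := ζ.toCF) o1 hτ ht F0 hF0 hc0 (c y).sub o3 (by omega) d4 d5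
    obtain ⟨a, ψ, hψ, k1⟩ := h4 ζ.toCF _ ι' i1 o2 i2
    have k2 : Same (thE M (mapE ψ (ξ a))) (thE M (ep (c y).ς ζ)) := by
      rw [thE_map M (ok a) hψ]
      exact ((sa a).map ψ).trans k1
    obtain ⟨k3, k4, k5⟩ := same_dom M0 o1 ((oks_map hψ).2 (ok a)) k2 d1
      (by rw [trE_map hψ]; exact dom a)
    rw [trE_map hψ] at k3
    obtain ⟨φ, -, hφ⟩ := vbE_map (k := k) (R := R) (T := T) hψ
    have k6 : (c (x a)).V = (c y).V := by
      refine IsGen.unique (isGen_same ?_ k4.symm) o3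
      rw [hφ]
      exact (isGen_map φ).2 (gen a)
    obtain rfl : x a = y := (hc.uniq ζ.toCF _ _ o1 o2 o3 (by
      have := rk a
      rw [k3] at this
      omega)).unique ⟨k6, k3 ▸ par a⟩ ⟨rfl, d2⟩
    refine ⟨a, rfl, (le_iff (c (x a)).ς _ _).2 ⟨ψ, hψ, ?_⟩⟩
    rw [e]
    exact k5 (ch a)
  · rw [← h2, Nat.cast_sum]
    exact Finset.sum_congr rfl fun a _ =>
      eq_div_of_mul_eq (Nat.cast_ne_zero.2 (c (x a)).pos.ne') (hdg a).2

omit p hL hd hc hs in
theorem P9_sum {N : Type} {H : Type u} {E : N → H → Type} {m : ℕ} {f : ∀ n y, E n y → ℝ≥0∞}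
    (g : ∀ n y, E n y → Fin m → ℝ≥0∞) (h : ∀ n y η, f n y η = ∑' a, g n y η a) (n₀ : Fin m → N)
    (y₀ : Fin m → H) (η₀ : ∀ a, E (n₀ a) (y₀ a))
    (h1 : ∀ a n y η, g n y η a ≠ 0 → n = n₀ a ∧ y = y₀ a)
    (h2 : ∀ a η, g (n₀ a) (y₀ a) η a ≠ 0 → η = η₀ a) :
    ∑' n, ∑' y, ∑' η, f n y η = ∑ a, g (n₀ a) (y₀ a) (η₀ a) a := by
  simp only [h]
  rw [tsum_congr fun n => (tsum_congr fun y => ENNReal.tsum_comm).trans ENNReal.tsum_comm,
    ENNReal.tsum_comm, tsum_fintype]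
  refine Finset.sum_congr rfl fun a _ => ?_
  rw [tsum_eq_single (n₀ a) fun n hn => ENNReal.tsum_eq_zero.2 fun y => ENNReal.tsum_eq_zero.2
      fun η => by_contra fun l => hn (h1 a n y η l).1,
    tsum_eq_single (y₀ a) fun y hy => ENNReal.tsum_eq_zero.2
      fun η => by_contra fun l => hy (h1 a _ y η l).2,
    tsum_eq_single (η₀ a) fun η hη => by_contra fun l => hη (h2 a η l)]

theorem LH.deg_pt : (dgH Φ W hW : ℝ≥0∞) = ∑' n : U × Fin R.r → ℤ, ∑' x,
    ∑' η : {η : (c x).κ → ℝ //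
      (I3_A χ (c x).h).mulVec η + Tr.chi χ (c x).h.γ = s + lat (lg R.lam) n},
      ENNReal.ofReal (dt (I3_A χ (c x).h)) * ((Dm R T).indicator ((c x).ml M W) ((c x).h.ev η.1) *
        (dgH Φ0 (c x).V (c x).sub / (c x).d)) := by
  obtain ⟨m, x, z, h1, h2, h3, h4⟩ := hL.exists_fam p hW hd hc hs
  choose N hN using fun a => (h1 a).2.2.2.2.2.2
  let G : H → PE R T → ℝ≥0∞ := fun y ζ => ENNReal.ofReal (dt (I3_A χ (c y).h)) *
    (ζ.dg (Tr.crd (c y).μ) * (dgH Φ0 (c y).V (c y).sub / (c y).d))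
  let A : ∀ y, ((c y).κ → ℝ) → Set (Fin m) := fun y η => {a | x a = y ∧ trP (z a) = (c y).h.ev η}
  have hdt : ∀ y, 0 ≤ dt (I3_A χ (c y).h) := fun y => by
    unfold dt
    split_ifs
    exacts [abs_nonneg _, le_rfl]
  have mem : ∀ a y, x a = y → z a ∈ (c y).S M W ∧ (z a).Fd (Tr.crd (c y).μ) := by
    rintro a _ rfl
    exact ⟨(h1 a).1, (h1 a).2.2.1⟩
  have term : ∀ n y (η : (c y).κ → ℝ),
      (I3_A χ (c y).h).mulVec η + Tr.chi χ (c y).h.γ = s + lat (lg R.lam) n →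
      ENNReal.ofReal (dt (I3_A χ (c y).h)) * ((Dm R T).indicator ((c y).ml M W) ((c y).h.ev η) *
        (dgH Φ0 (c y).V (c y).sub / (c y).d)) =
      ∑' a, (A y η).indicator (fun a => G y (z a)) a := by
    intro n y η hη
    rw [← I3_chi] at hη
    rw [← tsum_subtype]
    by_cases k1 : dt (I3_A χ (c y).h) = 0
    · simp [G, k1]
    by_cases k2 : dgH Φ0 (c y).V (c y).sub = 0
    · simp [G, k2]
    by_cases k3 : (c y).h.ev η ∈ Dm R T
    swap
    · have : IsEmpty (A y η) := ⟨fun a => k3 (a.2.2 ▸ (h1 a).2.2.2.1)⟩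
      rw [Set.indicator_of_notMem k3, zero_mul, mul_zero, tsum_empty]
    obtain ⟨e⟩ : Nonempty ((c y).κ ≃ U × Fin R.r) := by_contra fun h => k1 (dif_neg h)
    have g1 : Gen K (Tr.chi χ ((c y).h.ev η)) := hs.congr fun q => by
      rw [hη, Pi.add_apply, add_sub_cancel_left]
      exact lat_gam n q
    have g2 : Gen K η := gen_iff_rnk.2 ((I3_rnk e g1).trans ((c y).h.rnk_ev η))
    have := Fintype.ofFinite (A y η)
    rw [Set.indicator_of_mem k3, Cell.ml, ((c y).nc p (hc.dim y) g2).toOv.mlt_eq (A := A y η)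
      (ξ := fun a => z a) ⟨fun a => (c y).mem_fib.2 ⟨(mem _ _ a.2.1).1, a.2.2⟩, fun a => (h1 a).2.1,
        fun a => (mem _ _ a.2.1).2,
        fun a b l => Subtype.ext (h2 a b (a.2.1.trans b.2.1.symm) l)⟩, tsum_fintype, Nat.cast_sum,
      Finset.sum_mul, Finset.mul_sum]
    intro ζ hζ
    obtain ⟨l1, l2⟩ := (c y).mem_fib.1 hζ
    obtain ⟨a, l3, l4⟩ := h3 y ζ l1 (l2 ▸ k3) (by rw [l2, Par.ev_mu]) (Fintype.card_congr e) k2
      ⟨n, l2 ▸ hη⟩
    exact ⟨⟨a, l3, (congrArg (· ∘ Sum.inl) l4.trop).trans l2⟩, l4⟩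
  have e1 : ∀ a, (I3_A χ (c (x a)).h).mulVec (trP (z a) ∘ (c (x a)).h.μ) +
      Tr.chi χ (c (x a)).h.γ = s + lat (lg R.lam) (N a) := fun a => by
    rw [← I3_chi, (h1 a).2.2.2.2.1, hN]
  rw [P9_sum (E := fun n y => {η : (c y).κ → ℝ //
      (I3_A χ (c y).h).mulVec η + Tr.chi χ (c y).h.γ = s + lat (lg R.lam) n})
    (fun n y η a => (A y η.1).indicator (fun a => G y (z a)) a) (fun n y η => term n y η.1 η.2) N x
    (fun a => ⟨_, e1 a⟩) (fun a n y η l => ?_) fun a η l => ?_,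
    ← ENNReal.ofReal_natCast, h4, ENNReal.ofReal_sum_of_nonneg fun a _ =>
    div_nonneg (mul_nonneg (mul_nonneg (hdt _) (Nat.cast_nonneg _)) (Nat.cast_nonneg _))
      (Nat.cast_nonneg _)]
  · refine Finset.sum_congr rfl fun a _ => ?_
    rw [Set.indicator_of_mem (show a ∈ A (x a) _ from ⟨rfl, (h1 a).2.2.2.2.1.symm⟩), mul_div_assoc,
      mul_assoc, ENNReal.ofReal_mul (hdt _), ENNReal.ofReal_mul (Nat.cast_nonneg _),
      ENNReal.ofReal_div_of_pos (Nat.cast_pos.2 (c (x a)).pos), ENNReal.ofReal_natCast,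
      ENNReal.ofReal_natCast, ENNReal.ofReal_natCast]
  · have l := Set.mem_of_indicator_ne_zero l
    refine ⟨lat_inj R.ind (add_left_cancel (a := s) ?_), l.1.symm⟩
    exact (η.2.symm.trans (I3_chi _ _ _).symm).trans ((congrArg (Tr.chi χ) l.2.symm).trans (hN a))
  · refine Subtype.ext ?_
    rw [← (c (x a)).h.ev_mu η.1, ← (Set.mem_of_indicator_ne_zero l).2]

end Pool.Agent.Work.MP_ffcd14_ag.Ry
end

-- merged part: Pool.Agent.Work.MP_ffcd14_ag.Ry.P10
section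
/-!
# The degree formula

Plan.  `intA'`: copy `intA` in `Tr/I1` (`unfold`, `int_fib`); if `κ x ≃ σ` is empty then `dt = 0`
and the terms vanish.  `LH.deg`: `intA'`, `ae_gen`, `LH.deg_pt`, `Cell.meas'`, `volume_Dom`,
`exists_dom_lat`, `lintegral_mul_const`.
-/

namespace Pool.Agent.Work.MP_ffcd14_ag.Ry

open MvPolynomial Filter Topology MP_10f4af_ag MP_10f4af_ag.Nu Tr MeasureTheory
open scoped ENNReal

set_option linter.unusedSectionVars false

universe u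

variable {k K : Type u} [Field k] [IsAlgClosed k] [NontriviallyNormedField K] [Cf k K]
  [IsUltrametricDist K] [CompleteSpace K] [IsAlgClosed K] {P : Amb} {X : SV K P} {R : Ray k X}
  {T U U' : Type} [Fintype T] [DecidableEq T] [Fintype U] [DecidableEq U] [Fintype U']
  [DecidableEq U'] {Ω Ω' : Type u} [NormedField Ω] [NormedAlgebra K Ω] [IsUltrametricDist Ω]
  [CompleteSpace Ω] [NormedField Ω'] [NormedAlgebra K Ω'] [IsUltrametricDist Ω'] [CompleteSpace Ω']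
  {M : Mod X T} {M0 : Mod R.B₀ T} {MU : Mod X U} {MU0 : Mod R.B₀ U}

theorem dt_nonneg {σ κ : Type} [Fintype σ] [DecidableEq σ] (A : Matrix σ κ ℝ) : 0 ≤ dt A := by
  rw [dt]
  split_ifs
  · exact abs_nonneg _
  · exact le_rfl

theorem p10_dt {σ κ : Type} [Fintype σ] [DecidableEq σ] (A : Matrix σ κ ℝ) (e : κ ≃ σ) :
    dt A = |(A.submatrix id e.symm).det| := by
  rw [dt, dif_pos ⟨e⟩]
  generalize Nonempty.some (⟨e⟩ : Nonempty (κ ≃ σ)) = e'
  have h : A.submatrix id e'.symm =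
      (A.submatrix id e.symm).submatrix id (e'.symm.trans e : Equiv.Perm σ) := by
    ext i j
    simp
  rw [h, Matrix.det_permute', abs_mul, abs_unit_intCast, one_mul]

theorem dt_sq {σ κ : Type} [Fintype σ] [DecidableEq σ] (A : Matrix σ κ ℝ) (e : κ ≃ σ) :
    dt A ^ 2 = (A.submatrix id e.symm).det ^ 2 := by
  rw [p10_dt A e, sq_abs]

theorem intA' {σ N : Type} [Fintype σ] [DecidableEq σ] [Countable N] {H : Type*} [Countable H]
    {κ : H → Type} [∀ x, Fintype (κ x)] (A : ∀ x, Matrix σ (κ x) ℝ) (c : H → σ → ℝ)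
    (F : ∀ x, (κ x → ℝ) → ℝ≥0∞) (hF : ∀ x, Measurable (F x)) (v : N → σ → ℝ) {D : Set (σ → ℝ)}
    (hD : MeasurableSet D) (h : ∀ s, ∃! n, s - v n ∈ D) (N₀ : ℝ≥0∞)
    (h0 : ∀ᵐ s : σ → ℝ, N₀ = ∑' n, ∑' x, ∑' η : {η : κ x → ℝ // (A x).mulVec η + c x = s + v n},
      ENNReal.ofReal (dt (A x)) * F x η.1) :
    N₀ * volume D = ∑' x, (∫⁻ η, F x η) * ENNReal.ofReal (dt (A x) ^ 2) := by
  have h1 : ∀ x, Measurable (fun s => ∑' η : {η : κ x → ℝ // (A x).mulVec η + c x = s},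
      ENNReal.ofReal (dt (A x)) * F x η.1) ∧
      ∫⁻ s, ∑' η : {η : κ x → ℝ // (A x).mulVec η + c x = s}, ENNReal.ofReal (dt (A x)) * F x η.1 =
        ENNReal.ofReal (dt (A x) ^ 2) * ∫⁻ η, F x η := fun x => by
    by_cases he : Nonempty (κ x ≃ σ)
    · rw [dt_sq (A x) he.some, p10_dt (A x) he.some]
      exact int_fib he.some (A x) (c x) (hF x)
    · simp [dt, he]
  have h2 : Measurable fun s => ∑' x, ∑' η : {η : κ x → ℝ // (A x).mulVec η + c x = s},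
      ENNReal.ofReal (dt (A x)) * F x η.1 := Measurable.tsum fun x => (h1 x).1
  rw [← setLIntegral_const, lintegral_congr_ae (ae_restrict_of_ae h0), unfold v hD h h2,
    lintegral_tsum fun x => (h1 x).1.aemeasurable]
  exact tsum_congr fun x => by rw [(h1 x).2, mul_comm]

theorem LH.deg (p : ℕ) [Fact p.Prime] [CharP K p] [Countable k] (hΓ : (Gam K : Set ℝ).Countable)
    {Φ : Hom M.Z.toVar MU.Z.toVar} {Φ0 : Hom M0.Z.toVar MU0.Z.toVar}
    {χ : U × Fin R.r → T × Fin R.r → ℤ} (hL : LH Φ Φ0 χ) {W : Sub K M.S}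
    (hW : (W : Set (M.S.Pt K)) ⊆ M.Z.pts) (hd : sdim W = MU.Z.dim) {H : Type u} {c : H → Cell M0}
    (hc : Cov M W c) : (dgH Φ W hW : ℝ≥0∞) * vlm R ^ Fintype.card U = ∑' x, (c x).mass M W *
      ENNReal.ofReal (dt (I3_A χ (c x).h) ^ 2 * dgH Φ0 (c x).V (c x).sub) := by
  have := hc.cnt
  have h1 := intA' (fun x => I3_A χ (c x).h) (fun x => Tr.chi χ (c x).h.γ)
    (fun x η => (Dm R T).indicator ((c x).ml M W) ((c x).h.ev η) *
      ((dgH Φ0 (c x).V (c x).sub : ℝ≥0∞) / (c x).d))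
    (fun x => ((c x).meas' M W).mul_const _) (lat (lg R.lam)) (measurableSet_Dom R.ind)
    (exists_dom_lat R.ind) (dgH Φ W hW)
    ((ae_gen hΓ).mono fun s hs => LH.deg_pt p hL hW hd hc hs)
  rw [volume_Dom] at h1
  refine h1.trans (tsum_congr fun x => ?_)
  rw [lintegral_mul_const _ ((c x).meas' M W), Cell.mass, ENNReal.ofReal_mul (sq_nonneg _),
    ENNReal.ofReal_natCast, div_eq_mul_inv, div_eq_mul_inv]
  ring

end Pool.Agent.Work.MP_ffcd14_ag.Ry
end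

-- merged part: Pool.Agent.Work.MP_ffcd14_ag.Ry.P11
section
/-!
# Coverings by cells: existence, products, the whole space

Plan.  `exists_cov`: for each `V ⊆ M0.Z` with `sdim V ≤ sdim W` take a frame (`exists_frame`) and
`exists_chart` for `d = sdim W - sdim V` and the set of the `trE ξ` (`abh_le`); `H` is the sigma type
(`countable_sub`).  `Cov.prod`: restrict `ξ` to the two factors (`thE_prod`, `vbE_prod`, `on_xp2`),
let `V₁`, `V₂` be the images of `V` (`isGen_img`); `rnk_sum_le`, `Bij.sdim_le`, `abh_le` force all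
the equalities and `V = xp2 V₁ V₂` (`eq_of_sdim_le`); `I2_inl`, `I2_inr`, `I2_eq`, `Bij.img_xp`;
compare `chart_prod` in `Tr/I2`.  `Cell.ml_prod`: `mlt_prod` (`Ry/W5`) for the bijection
`IX R T ⊕ IX R U ≃ IX R (T ⊕ U)`, `mlt_reindex` (`Equiv.sumSumSumComm`), `Cell.nc`; the joint set is
the fibre of the product cell: `gen_xp2`, `Cell.nc` in one direction, `Ort.comp`, `rind_of_ort`,
`Frame.gen_of` in the other.  `Cell.mass_prod`: `ae_gen`, `mem_Dom_sum`, Fubini as in `mass_prod`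
of `Tr/I2`.  `ml_top`: `Ov.mlt_eq` for the one point family of `exists_tp` (`Tp.le`, `Tp.deg`,
`cl_ch`).  `mass_top`: `ae_gen`, `volume_Dom`.
-/

namespace Pool.Agent.Work.MP_ffcd14_ag.Ry

open MvPolynomial Filter Topology MP_10f4af_ag MP_10f4af_ag.Nu Tr MeasureTheory
open scoped ENNReal

set_option linter.unusedSectionVars false

universe u

variable {k K : Type u} [Field k] [IsAlgClosed k] [NontriviallyNormedField K] [Cf k K]
  [IsUltrametricDist K] [CompleteSpace K] [IsAlgClosed K] {P : Amb} {X : SV K P} {R : Ray k X}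
  {T U U' : Type} [Fintype T] [DecidableEq T] [Fintype U] [DecidableEq U] [Fintype U']
  [DecidableEq U'] {Ω Ω' : Type u} [NormedField Ω] [NormedAlgebra K Ω] [IsUltrametricDist Ω]
  [CompleteSpace Ω] [NormedField Ω'] [NormedAlgebra K Ω'] [IsUltrametricDist Ω'] [CompleteSpace Ω']
  {M : Mod X T} {M0 : Mod R.B₀ T} {MU : Mod X U} {MU0 : Mod R.B₀ U}

theorem thE_prod (M : Mod X T) (MU : Mod X U) (ξ : EF R Ω (T ⊕ U)) : thE (M.prod MU) ξ =
    Amb.elim (thE M fun t => ξ (.inl t)) (thE MU fun u => ξ (.inr u)) := lf_prod M MU _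

theorem vbE_prod (M0 : Mod R.B₀ T) (MU0 : Mod R.B₀ U) (ξ : EF R Ω (T ⊕ U)) :
    vbE (M0.prod MU0) ξ =
      Amb.elim (vbE M0 fun t => ξ (.inl t)) (vbE MU0 fun u => ξ (.inr u)) := lf_prod M0 MU0 _

theorem exists_cov [Countable k] (hΓ : (Gam K : Set ℝ).Countable) (M : Mod X T) (M0 : Mod R.B₀ T)
    (W : Sub K M.S) : ∃ (H : Type u) (c : H → Cell M0), Cov M W c := by
  let A := {V : Sub k M0.S // (V : Set (M0.S.Pt k)) ⊆ M0.Z.pts ∧ sdim V ≤ sdim W}
  choose F hF using fun V : A => exists_frame M0 V.2.1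
  choose H hH h hc using fun V : A => exists_chart hΓ (sdim W - sdim V.1)
    (Y := {y : T × Fin R.r → ℝ | rnk K y ≤ sdim W - sdim V.1}) fun _ hy => hy
  have := countable_sub (k := k) M0.S
  refine ⟨Σ V : A, H V, fun x => ⟨F x.1, _, h x.1 x.2⟩, inferInstance, fun x => ?_,
    fun G ξ V h1 h2 h3 h4 => ?_⟩
  · change Fintype.card (Fin _) + sdim (F x.1).V = _
    rw [Fintype.card_fin, hF, Nat.sub_add_cancel x.1.2.2]
  · have h5 := abh_le h1 h3 h2
    let V' : A := ⟨V, (on_iff h3 M0.Z.closed).1 (on_vbE M0 h1), le_of_add_le_right h5⟩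
    obtain ⟨x, hx, hu⟩ := hc V' (trE ξ) (Nat.le_sub_of_add_le h5)
      ((Fintype.card_fin _).trans_le (Nat.sub_le_iff_le_add.2 h4))
    refine ⟨⟨V', x⟩, ⟨hF V', hx⟩, ?_⟩
    rintro ⟨V₁, y⟩ ⟨e1, e2⟩
    obtain rfl : V₁ = V' := Subtype.ext ((hF V₁).symm.trans e1)
    exact congrArg _ (hu y e2)

theorem Cov.prod {W : Sub K M.S} {W' : Sub K MU.S} {H H' : Type u} {c : H → Cell M0}
    {c' : H' → Cell MU0} (h : Cov M W c) (h' : Cov MU W' c') :
    Cov (M.prod MU) (xp2 W W') fun x : H × H' => (c x.1).prod (c' x.2) := by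
  have := h.cnt
  have := h'.cnt
  refine ⟨inferInstance, fun x => ?_, fun G ξ V h1 h2 h3 h4 => ?_⟩
  · have a := h.dim x.1
    have b := h'.dim x.2
    change Fintype.card ((c x.1).κ ⊕ (c' x.2).κ) + sdim (xp2 (c x.1).V (c' x.2).V) =
      sdim (xp2 W W')
    rw [Fintype.card_sum, sdim_xp2, sdim_xp2]
    omega
  rw [thE_prod] at h2
  rw [vbE_prod] at h3
  obtain ⟨o1, o2⟩ := on_xp2.1 h2
  have g1 : IsGen _ (vbE M0 fun t => ξ (.inl t)) := isGen_img (Crd.inl k M0.S MU0.S) h3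
  have g2 : IsGen _ (vbE MU0 fun t => ξ (.inr t)) := isGen_img (Crd.inr k M0.S MU0.S) h3
  have a1 := abh_le (fun t => h1 (.inl t)) g1 o1
  have a2 := abh_le (fun t => h1 (.inr t)) g2 o2
  have r : rnk K (trE ξ) ≤ rnk K (trE fun t => ξ (.inl t)) + rnk K (trE fun t => ξ (.inr t)) := by
    refine rnk_sum_le (trE ξ) (f := fun q : T × Fin R.r => (.inl q.1, q.2))
      (f' := fun q : U × Fin R.r => (.inr q.1, q.2)) ?_
    rintro ⟨t | t, j⟩
    exacts [⟨.inl (t, j), rfl⟩, ⟨.inr (t, j), rfl⟩]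
  have s := (bij_sum (k := k) (P := M0.S) (Q := MU0.S)).sdim_le V
  have h5 : sdim W + sdim W' ≤ rnk K (trE ξ) + sdim (P := M0.S.sum MU0.S) V :=
    (sdim_xp2 W W').ge.trans h4
  have h6 : sdim ((Crd.inl k M0.S MU0.S).img V) + sdim ((Crd.inr k M0.S MU0.S).img V) ≤
      sdim (P := M0.S.sum MU0.S) V := by omega
  have eV : V = xp2 ((Crd.inl k M0.S MU0.S).img V) ((Crd.inr k M0.S MU0.S).img V) :=
    eq_of_sdim_le (bij_sum.le_xp.2 ⟨le_rfl, le_rfl⟩) ((sdim_xp2 _ _).trans_le h6)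
  obtain ⟨x, hx, hu⟩ := h.uniq G _ _ (fun t => h1 (.inl t)) o1 g1 (by omega)
  obtain ⟨x', hx', hu'⟩ := h'.uniq G _ _ (fun t => h1 (.inr t)) o2 g2 (by omega)
  have key : ∀ z : H × H', ((c z.1).prod (c' z.2)).h.ev (trE ξ ∘ ((c z.1).prod (c' z.2)).h.μ) =
      trE ξ ↔ _ ∧ _ := fun z => (I2_eq (Equiv.sumProdDistrib T U (Fin R.r)).symm).trans
    (and_congr (Eq.congr_left (I2_inl _ _ _ _)) (Eq.congr_left (I2_inr _ _ _ _)))
  refine ⟨(x, x'), ⟨(congrArg₂ xp2 hx.1 hx'.1).trans eV.symm, (key (x, x')).2 ⟨hx.2, hx'.2⟩⟩,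
    fun z hz => Prod.ext (hu _ ⟨?_, ((key z).1 hz.2).1⟩) (hu' _ ⟨?_, ((key z).1 hz.2).2⟩)⟩
  · rw [← hz.1]
    exact (bij_sum.img_xp _ _).symm
  · rw [← hz.1]
    exact (bij_sum.img_xp' _ _).symm

theorem P11_dim (M : Mod X T) (F : Frame M0) (hF : F.V = M0.Z.tp) :
    Fintype.card F.top.κ + sdim F.top.V = sdim M.Z.tp := by
  change Fintype.card (T × Fin R.r) + sdim F.V = _
  rw [hF, SV.sdim_tp, SV.sdim_tp, dim_mod M M0]

theorem cov_top (M : Mod X T) (F : Frame M0) (hF : F.V = M0.Z.tp) :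
    Cov M M.Z.tp fun _ : PUnit => F.top := by
  refine ⟨inferInstance, fun _ => P11_dim M F hF, fun G ξ V h1 _ h3 h4 =>
    ⟨PUnit.unit, ⟨hF.trans (eq_of_sdim_le (Z := M0.Z.tp)
      ((on_iff h3 M0.Z.closed).1 (on_vbE M0 h1)) ?_).symm, (Par.top K _).ev_mu (trE ξ)⟩,
        fun _ _ => rfl⟩⟩
  have a := rnk_le_card (K := K) (trE ξ)
  have b := dim_mod M M0
  rw [SV.sdim_tp] at h4 ⊢
  omega

variable (p : ℕ) [Fact p.Prime] [CharP K p] (hΓ : (Gam K : Set ℝ).Countable)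

include p

include hΓ in
theorem Cell.ml_prod (c : Cell M0) (c' : Cell MU0) {W : Sub K M.S} {W' : Sub K MU.S}
    (hd : Fintype.card c.κ + sdim c.V = sdim W) (hd' : Fintype.card c'.κ + sdim c'.V = sdim W')
    {η : c.κ ⊕ c'.κ → ℝ} (hη : Gen K η) :
    (c.prod c').ml (M.prod MU) (xp2 W W' : Set ((M.S.sum MU.S).Pt K)) ((c.prod c').h.ev η) =
      c.ml M W (c.h.ev (η ∘ Sum.inl)) * c'.ml MU W' (c'.h.ev (η ∘ Sum.inr)) := by
  let e : IX R T ⊕ IX R U ≃ IX R (T ⊕ U) := (Equiv.sumSumSumComm _ _ _ _).trans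
    ((Equiv.sumProdDistrib T U _).symm.sumCongr (Equiv.sumProdDistrib T U _).symm)
  let g := Equiv.sumSumSumComm c.κ c.n c'.κ c'.n
  have e1 : (fun j => e (Sum.map c.μ c'.μ j)) = (c.prod c').μ ∘ g := by
    funext j
    rcases j with (j | j) | (j | j) <;> rfl
  have e2 : Sum.elim c.sc c'.sc = (c.prod c').sc ∘ g := by
    funext j
    rcases j with (j | j) | (j | j) <;> rfl
  have n1 := c.nc p hd (hη.comp Sum.inl_injective)
  have n2 := c'.nc p hd' (hη.comp Sum.inr_injective)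
  have n3 := (c.prod c').nc (M := M.prod MU) p (W := xp2 W W') (by
    change Fintype.card (c.κ ⊕ c'.κ) + sdim (xp2 c.V c'.V) = sdim (xp2 W W')
    rw [Fintype.card_sum, sdim_xp2, sdim_xp2]
    omega) hη
  refine Eq.trans ?_ (mlt_prod p hΓ e n1 n2)
  rw [e1, e2]
  refine (mlt_reindex g).symm.trans (congrArg (mlt · _) (Set.ext fun z => ?_))
  have key : trP z = (c.prod c').h.ev η ↔ _ ∧ _ :=
    (I2_eq (Equiv.sumProdDistrib T U (Fin R.r)).symm).trans
      (and_congr (Eq.congr_right (I2_inl _ _ _ _)) (Eq.congr_right (I2_inr _ _ _ _)))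
  constructor
  · intro hz
    obtain ⟨⟨h1, h2, h3⟩, h4⟩ := (c.prod c').mem_fib.1 hz
    rw [thE_prod] at h2
    rw [vbE_prod] at h3
    exact ⟨c.mem_fib.2 ⟨⟨fun t => h1 (.inl t), (on_xp2.1 h2).1, (gen_xp2 h3).1⟩, (key.1 h4).1⟩,
      c'.mem_fib.2 ⟨⟨fun t => h1 (.inr t), (on_xp2.1 h2).2, (gen_xp2 h3).2⟩, (key.1 h4).2⟩,
      (n3.ort z hz).comp g.injective⟩
  · rintro ⟨hz, hz', ho⟩
    obtain ⟨⟨h1, h2, h3⟩, h4⟩ := c.mem_fib.1 hz
    obtain ⟨⟨h1', h2', h3'⟩, h4'⟩ := c'.mem_fib.1 hz'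
    have k1 : Oks (ep (c.prod c').ς z) := by
      rintro (t | t)
      exacts [h1 t, h1' t]
    refine (c.prod c').mem_fib.2 ⟨⟨k1, ?_, (c.prod c').gen_of k1 ?_ (rind_of_ort ?_ ?_)⟩,
      key.2 ⟨h4, h4'⟩⟩
    · rw [thE_prod]
      exact on_xp2.2 ⟨h2, h2'⟩
    · rw [vbE_prod]
      exact on_xp2.2 ⟨on_of_gen h3, on_of_gen h3'⟩
    · have k2 : Ort K (sh z (Tr.crd (c.prod c').μ) (c.prod c').sc ∘ g) := ho
      rw [sh_ep] at k2
      refine (congrArg (Ort K) (funext ?_)).mp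
        (k2.comp (g.symm.injective.comp Sum.inr_injective))
      rintro (j | j) <;> rfl
    · rintro (j | j)
      exacts [(c.rind h1 rfl h3).1.norm j, (c'.rind h1' rfl h3').1.norm j]

include hΓ in
theorem Cell.mass_prod (c : Cell M0) (c' : Cell MU0) {W : Sub K M.S} {W' : Sub K MU.S}
    (hd : Fintype.card c.κ + sdim c.V = sdim W) (hd' : Fintype.card c'.κ + sdim c'.V = sdim W') :
    (c.prod c').mass (M.prod MU) (xp2 W W' : Set ((M.S.sum MU.S).Pt K)) =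
      c.mass M W * c'.mass MU W' := by
  have key : ∀ η : c.κ ⊕ c'.κ → ℝ, Gen K η → (Dm R (T ⊕ U)).indicator
      ((c.prod c').ml (M.prod MU) (xp2 W W' : Set ((M.S.sum MU.S).Pt K))) ((c.prod c').h.ev η) =
        (Dm R T).indicator (c.ml M W) (c.h.ev (η ∘ Sum.inl)) *
          (Dm R U).indicator (c'.ml MU W') (c'.h.ev (η ∘ Sum.inr)) := by
    intro η hη
    have h1 : (c.prod c').h.ev η ∈ Dm R (T ⊕ U) ↔
        c.h.ev (η ∘ Sum.inl) ∈ Dm R T ∧ c'.h.ev (η ∘ Sum.inr) ∈ Dm R U := by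
      rw [← I2_inl (Equiv.sumProdDistrib T U (Fin R.r)).symm c.h c'.h,
        ← I2_inr (Equiv.sumProdDistrib T U (Fin R.r)).symm c.h c'.h]
      exact mem_Dom_sum
    by_cases h2 : c.h.ev (η ∘ Sum.inl) ∈ Dm R T
    swap
    · rw [Set.indicator_of_notMem h2, Set.indicator_of_notMem (fun h3 => h2 (h1.1 h3).1), zero_mul]
    by_cases h2' : c'.h.ev (η ∘ Sum.inr) ∈ Dm R U
    swap
    · rw [Set.indicator_of_notMem h2', Set.indicator_of_notMem (fun h3 => h2' (h1.1 h3).2),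
        mul_zero]
    rw [Set.indicator_of_mem h2, Set.indicator_of_mem h2', Set.indicator_of_mem (h1.2 ⟨h2, h2'⟩),
      c.ml_prod p hΓ c' hd hd' hη]
  have h3 := (lintegral_congr_ae ((ae_gen hΓ).mono key)).trans
    (((volume_measurePreserving_sumPiEquivProdPi_symm
      fun _ : c.κ ⊕ c'.κ => ℝ).lintegral_map_equiv _).trans
        (lintegral_prod_mul (c.meas' M W).aemeasurable (c'.meas' MU W').aemeasurable))
  rw [Cell.mass, Cell.mass, Cell.mass, ← ENNReal.mul_div_mul_comm (.inr (ENNReal.natCast_ne_top _))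
    (.inl (ENNReal.natCast_ne_top _)), ← Nat.cast_mul]
  exact congrArg (· / _) h3

theorem ml_top [Countable k] (M : Mod X T) (F : Frame M0) (hF : F.V = M0.Z.tp)
    {η : T × Fin R.r → ℝ} (hη : Gen K η) : F.top.ml M M.Z.pts η = F.d := by
  have n := F.top.nc p (P11_dim M F hF) hη
  rw [show F.top.h.ev η = η from (Par.top K _).ev_mu η] at n
  obtain ⟨G, τ, h1, h2, h3, h4⟩ := exists_tp F hF hη
  have e : ep F.ς (toP G τ h1.ok) = τ := h3 ▸ ep_toP G τ h1.ok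
  obtain ⟨d1, d2⟩ := h1.deg p h4 F hF h3
  have e' := cl_ch F.top (toP G τ h1.ok)
  rw [show ep F.top.ς (toP G τ h1.ok) = τ from e] at e'
  refine (n.toOv.mlt_eq (ξ := fun _ : Unit => toP G τ h1.ok)
    ⟨fun _ => F.mem_fib.2 ⟨?_, ?_⟩, fun _ => (tight_iff F.ς _).2 (e.symm ▸ h4), fun _ => ?_,
      fun _ _ _ => rfl⟩ fun ζ hζ => ⟨(), (le_iff F.ς _ _).2 ?_⟩).trans (congrArg _ ?_)
  · rw [Frame.S, Set.mem_ofPred_eq, e]
    exact ⟨h1.ok, on_thE M h1.ok, hF ▸ h1.vb⟩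
  · rw [← trE_ep F.ς, e]
    exact h2
  · rw [Pt.Fd, e']
    exact d1
  · obtain ⟨⟨a, -, b⟩, c⟩ := F.mem_fib.1 hζ
    have c' : trE (ep F.ς ζ) = η := c
    rw [e]
    exact h1.le h4 ⟨a, c'.symm ▸ hη, by rwa [hF] at b⟩ (c'.trans h2.symm) h3.symm
  · rw [Fintype.sum_unique, Pt.dg, e']
    exact d2

include hΓ in
theorem mass_top [Countable k] (M : Mod X T) (F : Frame M0) (hF : F.V = M0.Z.tp) :
    F.top.mass M M.Z.pts = vlm R ^ Fintype.card T := by
  have h1 : ∫⁻ η, (Dm R T).indicator (F.top.ml M M.Z.pts) (F.top.h.ev η) =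
      ∫⁻ η : T × Fin R.r → ℝ, (Dm R T).indicator (fun _ => (F.d : ℝ≥0∞)) η := by
    refine lintegral_congr_ae ((ae_gen hΓ).mono fun η hη => ?_)
    beta_reduce
    rw [show F.top.h.ev η = η from (Par.top K _).ev_mu η]
    by_cases h2 : η ∈ Dm R T
    · exact (Set.indicator_of_mem h2 _).trans
        ((ml_top p M F hF hη).trans (Set.indicator_of_mem h2 fun _ => (F.d : ℝ≥0∞)).symm)
    · exact (Set.indicator_of_notMem h2 _).trans (Set.indicator_of_notMem h2 _).symm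
  rw [Cell.mass, h1, lintegral_indicator_const (measurableSet_Dom (ℓ := lg R.lam) R.ind),
    volume_Dom, mul_comm]
  exact ENNReal.mul_div_cancel_right (Nat.cast_ne_zero.2 F.pos.ne') (ENNReal.natCast_ne_top _)

end Pool.Agent.Work.MP_ffcd14_ag.Ry
end

-- merged part: Pool.Agent.Work.MP_ffcd14_ag.Ry.P12
section
/-!
# Classes as series

Model: `Tr/A4`.
Plan.  `cls_mul`: `hpl_pair`, `ny_xp`.  `a_mul`: `Cell.mass_prod`, `vlm_pos`.  `v_mul`:
`Par.cls_prod`, `mp_mp` (compare the linear maps on the basis vectors: `pi_ext`, `pb_single`),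
`hpl_pair`, `ny_xp`.  `exists_one`: `U = T`, `lh_id`, `cov_top`, `mass_top`, `nn_top`.
`psi_nonneg`: `int_Mon`, `mp_Mon`, `Par.cls_Mon`, `AV.nt_Nf`, `Nf_hpl`.  `dt_eq`: `dt_sq`,
`int_mp_nn` if the cardinalities agree (see `det_dch` in `Tr/I3`); otherwise both sides vanish
(`int_mp_nn_zero`).  `tau`: if `M.Z.dim + sdim W = MU.Z.dim`, `AV.tau_fib` for `R.A.mod MU` writes
the degree as `dgH Φ (xp2 M.Z.tp W)`, `Φ = dif (F.comp p1) p2`; `LH.deg` for
`(lh.comp lh_p1).dif lh_p2` and the covering `(cov_top ..).prod cov`; `Cell.mass_prod`, `mass_top`,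
`dt_eq`, and `AV.tau_fib` on `B₀` (the dimensions agree when `dt ≠ 0`: `dim_mod`, `Cov.dim`).
Otherwise both sides vanish (`nt_ng`, `hpl_ng`, `int_mp_nn_zero`).
-/

namespace Pool.Agent.Work.MP_ffcd14_ag.Ry

open MvPolynomial Filter Topology MP_10f4af_ag MP_10f4af_ag.Nu Tr MeasureTheory
open scoped ENNReal

set_option linter.unusedSectionVars false

universe u

variable {k K : Type u} [Field k] [IsAlgClosed k] [NontriviallyNormedField K] [Cf k K]
  [IsUltrametricDist K] [CompleteSpace K] [IsAlgClosed K] {P : Amb} {X : SV K P} {R : Ray k X}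
  {T U U' : Type} [Fintype T] [DecidableEq T] [Fintype U] [DecidableEq U] [Fintype U']
  [DecidableEq U'] {Ω Ω' : Type u} [NormedField Ω] [NormedAlgebra K Ω] [IsUltrametricDist Ω]
  [CompleteSpace Ω] [NormedField Ω'] [NormedAlgebra K Ω'] [IsUltrametricDist Ω'] [CompleteSpace Ω']
  {M : Mod X T} {M0 : Mod R.B₀ T} {MU : Mod X U} {MU0 : Mod R.B₀ U}

open scoped TensorProduct

namespace PD

/-- The product. -/
noncomputable def mul (D D' : PD M M0) : PD M M0 where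
  U := D.U ⊕ D'.U
  MU := D.MU.prod D'.MU
  MU0 := D.MU0.prod D'.MU0
  F := pairH D.F D'.F
  F0 := pairH D.F0 D'.F0
  χ := chs D.χ D'.χ
  lh := D.lh.pair D'.lh
  W := xp2 D.W D'.W
  sub := xp2_sub D.sub D'.sub
  H := D.H × D'.H
  c x := (D.c x.1).prod (D'.c x.2)
  cov := D.cov.prod D'.cov

theorem cls_mul (D D' : PD M M0) : (D.mul D').cls = D.cls * D'.cls :=
  (congrArg (hpl (pairH D.F D'.F)) (ny_xp D.sub D'.sub).symm).trans (hpl_pair _ _ _ _)

theorem P12_row {ι ι' τ : Type} [Fintype ι] [DecidableEq ι] [Fintype ι'] [DecidableEq ι'] [Fintype τ]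
    [DecidableEq τ] (L : Matrix ι' τ ℝ) (L' : Matrix ι τ ℝ) (r : ι → ι') (h : ∀ i, L (r i) = L' i)
    (e : Tr.Ev ι) : mp (Matrix.vecMulLinear L) (up r e) = mp (Matrix.vecMulLinear L') e := by
  rw [up, mp_mp]
  congr 2
  refine pi_ext fun i => ?_
  rw [LinearMap.comp_apply, pb_single, Matrix.vecMulLinear_apply, Matrix.vecMulLinear_apply,
    Matrix.single_one_vecMul, Matrix.single_one_vecMul]
  exact h i

theorem v_mul (D D' : PD M M0) (x : D.H × D'.H) : (D.mul D').v x = D.v x.1 * D'.v x.2 := by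
  rw [PD.v, PD.v, PD.v, Algebra.TensorProduct.tmul_mul_tmul]
  refine congrArg₂ _ ?_ ((congrArg (hpl (pairH D.F0 D'.F0))
    (ny_xp (D.c x.1).sub (D'.c x.2).sub).symm).trans (hpl_pair _ _ _ _))
  refine (congrArg _ (Par.cls_prod (Equiv.sumProdDistrib D.U D'.U (Fin R.r)).symm (D.c x.1).h
    (D'.c x.2).h)).trans ((map_mul _ _ _).trans ?_)
  exact congrArg₂ _ (P12_row _ _ _ (fun _ => rfl) _) (P12_row _ _ _ (fun _ => rfl) _)

theorem P12_nn {F : Type u} [Field F] [IsAlgClosed F] {Q S : Amb} {Y : SV F Q} {Z : SV F S}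
    (A : AV Y) {V : Type} (N : Mod Y V) (φ : Hom Z.toVar N.Z.toVar) {W : Sub F N.S}
    (hW : (W : Set (N.S.Pt F)) ⊆ N.Z.pts) : 0 ≤ nt Z (hpl φ (ny N.Z W)) := by
  obtain ⟨c, hc, -⟩ := ny_ng' hW
  have := A.nt_Nf (Nf_hpl N φ (ny_Eff hW hc)) (ny_Eff (W := Z.tp) subset_rfl (c := 0) Z.sdim_tp)
  rwa [ny_top, one_mul] at this

theorem psi_nonneg (D : PD M M0) (x : D.H) : 0 ≤ psi M0.Z (T × Fin R.r) (D.v x) :=
  mul_nonneg (int_Mon (mp_Mon _ (D.c x).h.cls_Mon))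
    (Rat.cast_nonneg.2 (P12_nn R.A₀ D.MU0 D.F0 (D.c x).sub))

theorem nt_nonneg (D : PD M M0) : 0 ≤ nt M.Z D.cls :=
  P12_nn R.A D.MU D.F D.sub

theorem dt_eq (χ : U × Fin R.r → T × Fin R.r → ℤ) {κ : Type} [Fintype κ] [DecidableEq κ]
    (h : Par K (U × Fin R.r) κ) :
    dt (I3_A ((fun i j => ∑ l, χ i l * Tr.crd (Prod.map Sum.inl id) l j) -
        Tr.crd (Prod.map Sum.inr id))
      ((Par.top K (T × Fin R.r)).prod (Equiv.sumProdDistrib T U (Fin R.r)).symm h)) ^ 2 =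
    int (T × Fin R.r) (mp (Matrix.vecMulLinear (Matrix.of fun i j => (χ i j : ℝ))) h.cls) := by
  by_cases hn : Nonempty ((T × Fin R.r) ⊕ κ ≃ U × Fin R.r)
  swap
  · rw [dt, dif_neg hn, Par.cls, int_mp_nn_zero (I2_inj h) _ fun e => hn
      ⟨Fintype.equivOfCardEq (by rwa [Fintype.card_sum])⟩, zero_pow two_ne_zero]
  obtain ⟨e⟩ := hn
  rw [dt_sq _ e, Par.cls,
    int_mp_nn (fun k k' => by simp [Par.ER, h.hE, apply_ite ((↑) : ℚ → ℝ)]) _ e]
  congr 2
  ext i j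
  simp only [Matrix.submatrix_apply, id, I3_A, Matrix.of_apply]
  rw [← (Equiv.sumProdDistrib T U (Fin R.r)).symm.sum_comp, Fintype.sum_sum_type]
  rcases e.symm j with t | l <;>
    simp [Par.ER, Par.prod, Par.top, Tr.crd, Pi.single_apply, Matrix.one_apply, Prod.map,
      apply_ite ((↑) : ℤ → ℝ), apply_ite ((↑) : ℚ → ℝ), ← Prod.ext_iff]

variable (p : ℕ) [Fact p.Prime] [CharP K p] [Countable k] (hΓ : (Gam K : Set ℝ).Countable)

include p hΓ

theorem a_mul (D D' : PD M M0) (x : D.H × D'.H) : (D.mul D').a x = D.a x.1 * D'.a x.2 := by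
  refine (congrArg₂ (· / ·) (Cell.mass_prod p hΓ (D.c x.1) (D'.c x.2) (D.cov.dim x.1)
    (D'.cov.dim x.2)) (congrArg (vlm R ^ ·) Fintype.card_sum)).trans ?_
  rw [pow_add, ENNReal.mul_div_mul_comm (Or.inl (pow_ne_zero _ vlm_pos.1))
    (Or.inl (ENNReal.pow_ne_top vlm_pos.2))]
  rfl

theorem exists_one (M : Mod X T) (M0 : Mod R.B₀ T) : ∃ D : PD M M0, D.cls = 1 ∧
    ∃ x₀ : D.H, (∀ x, x = x₀) ∧ D.a x₀ = 1 ∧ D.v x₀ = 1 := by
  obtain ⟨F, hF⟩ := exists_frame M0 (V := M0.Z.tp) subset_rfl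
  refine ⟨⟨T, M, M0, idH _, idH _, _, lh_id, M.Z.tp, subset_rfl, PUnit, fun _ => F.top,
    cov_top M F hF⟩, (hpl_id _).trans ny_top, PUnit.unit, fun _ => rfl, ?_, ?_⟩
  · exact (congrArg (· / _) (mass_top p hΓ M F hF)).trans
      (ENNReal.div_self (pow_ne_zero _ vlm_pos.1) (ENNReal.pow_ne_top vlm_pos.2))
  · exact congrArg₂ _ ((congrArg _ (nn_top _)).trans (map_one _))
      ((hpl_id _).trans ((congrArg _ hF).trans ny_top))

theorem tau (D : PD M M0) : ENNReal.ofReal (nt M.Z D.cls) =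
    vlm R ^ Fintype.card T * ∑' x, D.a x * ENNReal.ofReal (psi M0.Z (T × Fin R.r) (D.v x)) := by
  have d1 := dim_mod M M0
  have d2 := dim_mod D.MU D.MU0
  have key (x : D.H) (h : int (T × Fin R.r) (mp (Matrix.vecMulLinear
      (Matrix.of fun i j => (D.χ i j : ℝ))) (D.c x).h.cls) ≠ 0) :
      Fintype.card (T × Fin R.r) + Fintype.card (D.c x).κ = Fintype.card (D.U × Fin R.r) :=
    not_not.1 fun e => h (int_mp_nn_zero (I2_inj _) _ e)
  by_cases hd : M.Z.dim + sdim D.W = D.MU.Z.dim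
  swap
  · obtain ⟨c, hc, h1⟩ := ny_ng' D.sub
    have h0 (x : D.H) : psi M0.Z (T × Fin R.r) (D.v x) = 0 := by
      refine mul_eq_zero.2 (or_iff_not_imp_left.2 fun h => ?_)
      obtain ⟨c', hc', h2⟩ := ny_ng' (D.c x).sub
      have h3 := key x h
      have h4 := D.cov.dim x
      exact Rat.cast_eq_zero.2 (nt_ng (hpl_ng D.F0 h2) (by omega))
    have h5 : nt M.Z D.cls = 0 := nt_ng (hpl_ng D.F h1) (by omega)
    simp [h0, h5]
  obtain ⟨F, hF⟩ := exists_frame M0 (V := M0.Z.tp) subset_rfl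
  have h1 := (R.A.mod D.MU).tau_fib D.F (W := M.Z.tp) subset_rfl D.sub (by rwa [SV.sdim_tp])
  rw [ny_top, one_mul] at h1
  have h2 := ((D.lh.comp lh_p1).dif lh_p2).deg p hΓ (xp2_sub (V := M.Z.tp) subset_rfl D.sub)
    ((sdim_xp2 _ _).trans (by rwa [SV.sdim_tp])) ((cov_top M F hF).prod D.cov)
  have v0 : vlm R ^ Fintype.card D.U ≠ 0 := pow_ne_zero _ vlm_pos.1
  have v1 : vlm R ^ Fintype.card D.U ≠ ⊤ := ENNReal.pow_ne_top vlm_pos.2
  rw [PD.cls, h1, Rat.cast_natCast, ENNReal.ofReal_natCast, ← ENNReal.mul_left_inj v0 v1,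
    ← ENNReal.tsum_mul_left, ← ENNReal.tsum_mul_right, ← (Equiv.punitProd D.H).tsum_eq]
  refine h2.trans (tsum_congr fun x => ?_)
  refine (congrArg₂ (· * ·) ((Cell.mass_prod p hΓ F.top (D.c x.2) ((cov_top M F hF).dim x.1)
    (D.cov.dim x.2)).trans (congrArg (· * _) (mass_top p hΓ M F hF)))
      (congrArg ENNReal.ofReal (?_ : _ = psi M0.Z (T × Fin R.r) (D.v x.2)))).trans ?_
  · refine (congrArg (· * _) (dt_eq D.χ (D.c x.2).h)).trans ?_
    refine mul_eq_mul_left_iff.2 (or_iff_not_imp_right.2 fun h => ?_)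
    have h3 := key x.2 h
    have h4 := D.cov.dim x.2
    have h5 := (R.A₀.mod D.MU0).tau_fib D.F0 F.sub (D.c x.2).sub (by rw [hF, SV.sdim_tp]; omega)
    rw [show ny M0.Z F.V = 1 from hF ▸ ny_top, one_mul] at h5
    exact (Rat.cast_natCast _).symm.trans (congrArg _ h5.symm)
  · rw [PD.a, mul_assoc, mul_assoc, mul_right_comm (_ / _), ENNReal.div_mul_cancel v0 v1]
    rfl

end PD

end Pool.Agent.Work.MP_ffcd14_ag.Ry
end

-- merged part: Pool.Agent.Work.MP_ffcd14_ag.Ry.E0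
section
/-!
# Approximation of series with nonnegative terms by finite rational sums

Plan.  `exists_app`: enumerate `H` (`Encodable`), and for each `x` choose an increasing sequence of
nonnegative rationals with the supremum `a x` (for instance `min n (⌊2 ^ n a⌋ / 2 ^ n)`);
`q n` is supported on the first `n` elements.  `App.mul`: `ENNReal.iSup_mul`, `mul_iSup` and
monotonicity (`iSup_mul_iSup_of_monotone`-like).  `App.tendsto`: monotone convergence for `tsum`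
(`ENNReal.tsum_eq_iSup_sum`, or `MeasureTheory.lintegral_iSup` for the counting measure), then
`ENNReal.tendsto_toReal`.
-/

namespace Pool.Agent.Work.MP_ffcd14_ag.Ry

set_option linter.unusedSectionVars false

open Filter Topology
open scoped ENNReal

variable {H H' : Type*}

/-- `q n` are finitely supported, and increase to `a`. -/
structure App (a : H → ℝ≥0∞) (q : ℕ → H →₀ ℚ) : Prop where
  nonneg : ∀ n x, 0 ≤ q n x
  mono : ∀ x, Monotone fun n => q n x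
  sup : ∀ x, ⨆ n, ENNReal.ofReal (q n x : ℝ) = a x

/-- The product of two finitely supported functions. -/
noncomputable def fp (q : H →₀ ℚ) (q' : H' →₀ ℚ) : H × H' →₀ ℚ :=
  q.sum fun x r => q'.sum fun y s => Finsupp.single (x, y) (r * s)

theorem fp_apply (q : H →₀ ℚ) (q' : H' →₀ ℚ) (x : H × H') : fp q q' x = q x.1 * q' x.2 := by
  classical
  obtain ⟨x, y⟩ := x
  simp only [fp, Finsupp.sum_apply]
  rw [Finsupp.sum_eq_single x, Finsupp.sum_eq_single y]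
  · simp
  · intro b _ hb
    simp [hb]
  · simp
  · intro b _ hb
    simp [hb, Finsupp.sum]
  · simp

theorem fp_sum {R : Type*} [CommRing R] [Algebra ℚ R] (q : H →₀ ℚ) (q' : H' →₀ ℚ) (v : H → R)
    (v' : H' → R) : ((fp q q').sum fun x r => r • (v x.1 * v' x.2)) =
      (q.sum fun x r => r • v x) * q'.sum fun y s => s • v' y := by
  rw [fp, Finsupp.sum_sum_index (by simp) (by simp [add_smul]), Finsupp.sum_mul]
  refine Finsupp.sum_congr fun x _ => ?_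
  rw [Finsupp.sum_sum_index (by simp) (by simp [add_smul]), Finsupp.mul_sum]
  refine Finsupp.sum_congr fun y _ => ?_
  rw [Finsupp.sum_single_index (by simp), smul_mul_smul_comm]

theorem E0_rat (t : ℝ≥0∞) : ∃ r : ℕ → ℚ, (∀ n, 0 ≤ r n) ∧ Monotone r ∧
    ⨆ n, ENNReal.ofReal (r n : ℝ) = t := by
  classical
  obtain ⟨e, he⟩ := exists_surjective_nat ℚ
  let u : ℕ → ℚ := fun k => if 0 ≤ e k ∧ ENNReal.ofReal (e k : ℝ) ≤ t then e k else 0
  have hu : ∀ k, 0 ≤ u k ∧ ENNReal.ofReal (u k : ℝ) ≤ t := fun k => by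
    simp only [u]
    split_ifs with h
    · exact h
    · simp
  refine ⟨partialSups u, fun n => (hu n).1.trans (le_partialSups u n), (partialSups u).mono,
    le_antisymm (iSup_le fun n => ?_) (le_of_forall_lt fun c hc => ?_)⟩
  · induction n with
    | zero => simpa using (hu 0).2
    | succ n ih =>
      rw [partialSups_add_one]
      rcases max_choice (partialSups u n) (u (n + 1)) with h | h <;> rw [h]
      exacts [ih, (hu _).2]
  · obtain ⟨q, h0, h1, h2⟩ := ENNReal.lt_iff_exists_rat_btwn.1 hc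
    obtain ⟨k, rfl⟩ := he q
    refine h1.trans_le (le_iSup_of_le k (ENNReal.ofReal_le_ofReal (Rat.cast_le.2 ?_)))
    exact (if_pos ⟨h0, h2.le⟩ : u k = e k).symm.trans_le (le_partialSups u k)

theorem exists_app [Countable H] (a : H → ℝ≥0∞) : ∃ q, App a q := by
  classical
  obtain ⟨f, hf⟩ := Countable.exists_injective_nat H
  choose r h0 h1 h2 using fun x => E0_rat (a x)
  refine ⟨fun n => Finsupp.onFinset ((Finset.range n).preimage f hf.injOn)
    (fun x => if f x < n then r x n else 0) fun x hx => ?_, fun n x => ?_, fun x n m h => ?_,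
    fun x => ?_⟩
  · by_contra h
    exact hx (if_neg (by simpa using h))
  · simp only [Finsupp.onFinset_apply]
    split_ifs
    exacts [h0 x n, le_rfl]
  · simp only [Finsupp.onFinset_apply]
    split_ifs
    exacts [h1 x h, by omega, h0 x m, le_rfl]
  · simp only [Finsupp.onFinset_apply]
    rw [← h2 x]
    refine le_antisymm (iSup_mono fun n => ENNReal.ofReal_le_ofReal (Rat.cast_le.2 ?_))
      (iSup_mono' fun n => ⟨max n (f x + 1), ENNReal.ofReal_le_ofReal (Rat.cast_le.2 ?_)⟩)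
    · split_ifs
      exacts [le_rfl, h0 x n]
    · rw [if_pos (by omega)]
      exact h1 x (le_max_left _ _)

theorem app_one : App (fun _ : PUnit => 1) fun _ => Finsupp.single PUnit.unit 1 := by
  exact ⟨fun n x => by simp, fun x => monotone_const, fun x => by simp⟩

theorem App.E0_mono {a : H → ℝ≥0∞} {q : ℕ → H →₀ ℚ} (h : App a q) (x : H) :
    Monotone fun n => ENNReal.ofReal (q n x : ℝ) :=
  fun _ _ e => ENNReal.ofReal_le_ofReal (Rat.cast_le.2 (h.mono x e))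

theorem App.mul {a : H → ℝ≥0∞} {q : ℕ → H →₀ ℚ} (h : App a q) {a' : H' → ℝ≥0∞} {q' : ℕ → H' →₀ ℚ}
    (h' : App a' q') : App (fun x : H × H' => a x.1 * a' x.2) fun n => fp (q n) (q' n) := by
  refine ⟨fun n x => ?_, fun x n m e => ?_, fun x => ?_⟩
  · rw [fp_apply]
    exact mul_nonneg (h.nonneg _ _) (h'.nonneg _ _)
  · simp only [fp_apply]
    exact mul_le_mul (h.mono _ e) (h'.mono _ e) (h'.nonneg _ _) (h.nonneg _ _)
  · have e : ∀ n, ENNReal.ofReal (fp (q n) (q' n) x : ℝ) =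
        ENNReal.ofReal (q n x.1 : ℝ) * ENNReal.ofReal (q' n x.2 : ℝ) := fun n => by
      rw [fp_apply, Rat.cast_mul, ENNReal.ofReal_mul (Rat.cast_nonneg.2 (h.nonneg _ _))]
    simp only [e]
    rw [← h.sup, ← h'.sup]
    refine le_antisymm (iSup_le fun n => mul_le_mul' (le_iSup_of_le n le_rfl) (le_iSup_of_le n le_rfl))
      ?_
    rw [ENNReal.iSup_mul]
    refine iSup_le fun n => ?_
    rw [ENNReal.mul_iSup]
    exact iSup_le fun m => le_iSup_of_le (max n m)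
      (mul_le_mul' (h.E0_mono _ (le_max_left _ _)) (h'.E0_mono _ (le_max_right _ _)))

theorem App.tendsto {a : H → ℝ≥0∞} {q : ℕ → H →₀ ℚ} (h : App a q) {φ : H → ℝ} (hφ : ∀ x, 0 ≤ φ x)
    {s : ℝ} (hs : 0 ≤ s) (e : ENNReal.ofReal s = ∑' x, a x * ENNReal.ofReal (φ x)) :
    Tendsto (fun n => (q n).sum fun x r => (r : ℝ) * φ x) atTop (𝓝 s) := by
  have h0 : ∀ n x, 0 ≤ (q n x : ℝ) := fun n x => Rat.cast_nonneg.2 (h.nonneg _ _)
  have e1 : ∀ n, ENNReal.ofReal ((q n).sum fun x r => (r : ℝ) * φ x) =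
      ∑' x, ENNReal.ofReal (q n x : ℝ) * ENNReal.ofReal (φ x) := fun n => by
    rw [tsum_eq_sum (s := (q n).support) fun x hx => by simp [Finsupp.notMem_support_iff.1 hx],
      Finsupp.sum, ENNReal.ofReal_sum_of_nonneg fun x _ => mul_nonneg (h0 n x) (hφ x)]
    exact Finset.sum_congr rfl fun x _ => ENNReal.ofReal_mul (h0 n x)
  have hm : ∀ x, Monotone fun n => ENNReal.ofReal (q n x : ℝ) * ENNReal.ofReal (φ x) :=
    fun x _ _ e => mul_le_mul' (h.E0_mono x e) le_rfl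
  have e2 : ⨆ n, ∑' x, ENNReal.ofReal (q n x : ℝ) * ENNReal.ofReal (φ x) = ENNReal.ofReal s := by
    simp only [e, ENNReal.tsum_eq_iSup_sum, ← h.sup, ENNReal.iSup_mul]
    rw [iSup_comm]
    exact iSup_congr fun t => (ENNReal.finsetSum_iSup_of_monotone hm).symm
  have e3 := tendsto_atTop_iSup (f := fun n =>
    ∑' x, ENNReal.ofReal (q n x : ℝ) * ENNReal.ofReal (φ x))
    fun _ _ e => ENNReal.tsum_le_tsum fun x => hm x e
  rw [e2] at e3
  have e4 := (ENNReal.tendsto_toReal ENNReal.ofReal_ne_top).comp e3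
  rw [ENNReal.toReal_ofReal hs] at e4
  refine e4.congr fun n => ?_
  rw [Function.comp_apply, ← e1]
  exact ENNReal.toReal_ofReal (Finset.sum_nonneg fun x _ => mul_nonneg (h0 n x) (hφ x))

end Pool.Agent.Work.MP_ffcd14_ag.Ry
end

-- merged part: Pool.Agent.Work.MP_ffcd14_ag.Ry.P13
section
/-!
# The main theorem

Model: `Tr/A5`.
Plan.  `Good.mul`: `PD.mul`, `App.mul`, `fp_sum`.  `Good.tau`: `App.tendsto` for
`s = nt c / vlm ^ card T`, `PD.tau`, `vlm_pos`.  `Rel.mul`: double induction.  `exists_cyc`: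
`exists_cov` for `Mod.one`; the three `PD` have the same cells, hence the same coefficients; take
one `q` (`exists_app`) and `z n = ∑ q n x • (cls x ⊗ ny V_x)` (`nn_Mn`, `ny_Eff`, `Cn_smul`,
`Cov.dim`, `R.dim`); `lh_p1`, `lh_p2`, `lh_sub`, `rh_tmul`, and `vecMul_crd`.
-/

namespace Pool.Agent.Work.MP_ffcd14_ag.Ry

open MvPolynomial Filter Topology MP_10f4af_ag MP_10f4af_ag.Nu Tr MeasureTheory
open scoped ENNReal

set_option linter.unusedSectionVars false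

universe u

variable {k K : Type u} [Field k] [IsAlgClosed k] [NontriviallyNormedField K] [Cf k K]
  [IsUltrametricDist K] [CompleteSpace K] [IsAlgClosed K] {P : Amb} {X : SV K P} {R : Ray k X}
  {T U U' : Type} [Fintype T] [DecidableEq T] [Fintype U] [DecidableEq U] [Fintype U']
  [DecidableEq U'] {Ω Ω' : Type u} [NormedField Ω] [NormedAlgebra K Ω] [IsUltrametricDist Ω]
  [CompleteSpace Ω] [NormedField Ω'] [NormedAlgebra K Ω'] [IsUltrametricDist Ω'] [CompleteSpace Ω']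
  {M : Mod X T} {M0 : Mod R.B₀ T} {MU : Mod X U} {MU0 : Mod R.B₀ U}

open scoped TensorProduct

theorem vecMul_crd {ι ι' : Type} [Fintype ι] [DecidableEq ι] [Fintype ι'] [DecidableEq ι']
    (f : ι → ι') : Matrix.vecMulLinear (Matrix.of fun i j => ((Tr.crd f i j : ℤ) : ℝ)) = pb f := by
  refine pi_ext fun i => ?_
  rw [pb_single, Matrix.vecMulLinear_apply, Matrix.single_one_vecMul]
  funext j
  simp [Tr.crd, Pi.single_apply]

theorem P13_sub {ι ι' : Type} [Fintype ι] [DecidableEq ι] [Fintype ι'] [DecidableEq ι']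
    (f g : ι → ι') : Matrix.vecMulLinear
      (Matrix.of fun i j => (((Tr.crd f - Tr.crd g) i j : ℤ) : ℝ)) = pb f - pb g := by
  rw [← vecMul_crd, ← vecMul_crd]
  refine LinearMap.ext fun v => ?_
  rw [LinearMap.sub_apply, Matrix.vecMulLinear_apply, Matrix.vecMulLinear_apply,
    Matrix.vecMulLinear_apply, ← Matrix.vecMul_sub]
  refine congrArg _ (Matrix.ext fun i j => ?_)
  exact Int.cast_sub _ _

variable (M M0) in
/-- `e` are the finite sums of a series which represents `c`. -/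
def Good (c : NN M.Z) (e : ℕ → Tg (T × Fin R.r) M0.Z) : Prop :=
  ∃ (D : PD M M0) (q : ℕ → D.H →₀ ℚ), App D.a q ∧ c = D.cls ∧
    e = fun n => (q n).sum fun x r => r • D.v x

variable (M M0) in
/-- Linear combinations. -/
inductive Rel : NN M.Z → (ℕ → Tg (T × Fin R.r) M0.Z) → Prop
  | good {c e} : Good M M0 c e → Rel c e
  | add {c c' e e'} : Rel c e → Rel c' e' → Rel (c + c') (e + e')
  | smul (q : ℚ) {c e} : Rel c e → Rel (q • c) (q • e)

variable (p : ℕ) [Fact p.Prime] [CharP K p] [Countable k] (hΓ : (Gam K : Set ℝ).Countable)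

include p hΓ

theorem good_one : Good M M0 1 1 := by
  obtain ⟨D, h1, x₀, h2, h3, h4⟩ := PD.exists_one p hΓ M M0
  refine ⟨D, fun _ => Finsupp.single x₀ 1, ⟨fun n x => ?_, fun x => monotone_const, fun x => ?_⟩,
    h1.symm, funext fun n => ?_⟩
  · rw [h2 x, Finsupp.single_eq_same]
    exact zero_le_one
  · rw [h2 x, Finsupp.single_eq_same, h3, iSup_const, Rat.cast_one, ENNReal.ofReal_one]
  · rw [Finsupp.sum_single_index (h := fun x r => r • D.v x) (zero_smul _ _), one_smul, h4]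
    rfl

theorem Good.mul {c c' e e'} (h : Good M M0 c e) (h' : Good M M0 c' e') :
    Good M M0 (c * c') (e * e') := by
  obtain ⟨D, q, h1, rfl, rfl⟩ := h
  obtain ⟨D', q', h2, rfl, rfl⟩ := h'
  refine ⟨D.mul D', fun n => fp (q n) (q' n), ?_, (D.cls_mul D').symm, funext fun n => ?_⟩
  · have e : (D.mul D').a = fun x : D.H × D'.H => D.a x.1 * D'.a x.2 := funext (D.a_mul p hΓ D')
    rw [e]
    exact h1.mul h2
  · refine (fp_sum (q n) (q' n) D.v D'.v).symm.trans ?_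
    exact Finsupp.sum_congr fun x _ => congrArg _ (D.v_mul D' x).symm

theorem Good.tau {c e} (h : Good M M0 c e) :
    Tendsto (fun n => (vlm R ^ Fintype.card T).toReal * psi M0.Z (T × Fin R.r) (e n)) atTop
      (𝓝 (nt M.Z c : ℝ)) := by
  obtain ⟨D, q, h1, rfl, rfl⟩ := h
  have k1 : vlm R ^ Fintype.card T ≠ ⊤ := ENNReal.pow_ne_top vlm_pos.2
  have h2 := h1.tendsto
    (φ := fun x => (vlm R ^ Fintype.card T).toReal * psi M0.Z (T × Fin R.r) (D.v x))
    (fun x => mul_nonneg ENNReal.toReal_nonneg (D.psi_nonneg x))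
    (Rat.cast_nonneg.2 D.nt_nonneg) (by
      rw [D.tau p hΓ, ← ENNReal.tsum_mul_left]
      refine tsum_congr fun x => ?_
      rw [ENNReal.ofReal_mul ENNReal.toReal_nonneg, ENNReal.ofReal_toReal k1, mul_left_comm])
  refine h2.congr fun n => ?_
  rw [map_finsuppSum, Finsupp.mul_sum]
  refine Finsupp.sum_congr fun x _ => ?_
  rw [map_smul, Rat.smul_def, mul_left_comm]

theorem Rel.mul {c c' e e'} (h : Rel M M0 c e) (h' : Rel M M0 c' e') :
    Rel M M0 (c * c') (e * e') := by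
  induction h with
  | good h =>
    induction h' with
    | good h' => exact .good (h.mul p hΓ h')
    | add _ _ l l' => simpa only [mul_add] using l.add l'
    | smul q _ l => simpa only [mul_smul_comm] using l.smul q
  | add _ _ l l' => simpa only [add_mul] using l.add l'
  | smul q _ l => simpa only [smul_mul_assoc] using l.smul q

theorem Rel.tau {c e} (h : Rel M M0 c e) :
    Tendsto (fun n => (vlm R ^ Fintype.card T).toReal * psi M0.Z (T × Fin R.r) (e n)) atTop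
      (𝓝 (nt M.Z c : ℝ)) := by
  induction h with
  | good h => exact h.tau p hΓ
  | add _ _ l l' =>
    rw [map_add, Rat.cast_add]
    exact (l.add l').congr fun n => by rw [Pi.add_apply, map_add, mul_add]
  | smul q _ l =>
    rw [map_smul, smul_eq_mul, Rat.cast_mul]
    exact (l.const_mul (q : ℝ)).congr fun n => by
      rw [Pi.smul_apply, map_smul, Rat.smul_def, mul_left_comm]

omit p hΓ in
/-- The closure properties of a correspondence. -/
structure P13_RP {S S0 : Amb} (Z : SV K S) (Z0 : SV k S0) (ι : Type) [Fintype ι] [DecidableEq ι]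
    (κ : ℝ) (Rl : NN Z → (ℕ → Tg ι Z0) → Prop) : Prop where
  one : Rl 1 1
  add : ∀ {c c' e e'}, Rl c e → Rl c' e' → Rl (c + c') (e + e')
  smul : ∀ (q : ℚ) {c e}, Rl c e → Rl (q • c) (q • e)
  mul : ∀ {c c' e e'}, Rl c e → Rl c' e' → Rl (c * c') (e * e')
  tau : ∀ {c e}, Rl c e → Tendsto (fun n => κ * psi Z0 ι (e n)) atTop (𝓝 (nt Z c : ℝ))

theorem P13_rp (M : Mod X T) (M0 : Mod R.B₀ T) :
    P13_RP M.Z M0.Z (T × Fin R.r) (vlm R ^ Fintype.card T).toReal (Rel M M0) :=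
  ⟨.good (good_one p hΓ), Rel.add, Rel.smul, Rel.mul p hΓ, Rel.tau p hΓ⟩

omit p hΓ in
/-- The pull-backs correspond. -/
def P13_RH {S S0 Q Q0 : Amb} {Z : SV K S} {Z0 : SV k S0} {Y : SV K Q} {Y0 : SV k Q0} {ι ι2 : Type}
    (Rl : NN Z → (ℕ → Tg ι2 Z0) → Prop) (F : Hom Z.toVar Y.toVar) (F0 : Hom Z0.toVar Y0.toVar)
    (σ : (ι → ℝ) →ₗ[ℝ] (ι2 → ℝ)) (x : NN Y) (z : ℕ → Tg ι Y0) : Prop :=
  Rl (hpl F x) fun n => rh σ F0 (z n)

omit p hΓ in
theorem P13_rel {W : Sub K MU.S} (hW : (W : Set (MU.S.Pt K)) ⊆ MU.Z.pts) {H : Type u}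
    {cl : H → Cell MU0} (hc : Cov MU W cl) {q : ℕ → H →₀ ℚ}
    (hq : App (fun x => (cl x).mass MU W / vlm R ^ Fintype.card U) q)
    {F : Hom M.Z.toVar MU.Z.toVar} {F0 : Hom M0.Z.toVar MU0.Z.toVar}
    {χ : U × Fin R.r → T × Fin R.r → ℤ} (lh : LH F F0 χ)
    {σ : (U × Fin R.r → ℝ) →ₗ[ℝ] (T × Fin R.r → ℝ)}
    (hσ : Matrix.vecMulLinear (Matrix.of fun i j => (χ i j : ℝ)) = σ) :
    P13_RH (Rel M M0) F F0 σ (ny MU.Z W) fun n =>
      (q n).sum fun x r => r • ((cl x).h.cls ⊗ₜ ny MU0.Z (cl x).V) := by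
  subst hσ
  refine .good ⟨⟨U, MU, MU0, F, F0, χ, lh, W, hW, H, cl, hc⟩, q, hq, rfl, funext fun n => ?_⟩
  rw [map_finsuppSum]
  exact Finsupp.sum_congr fun x _ => map_smul _ _ _

omit p hΓ in
theorem P13_mem {W : Sub K M.S} {H : Type u} {cl : H → Cell M0} (hc : Cov M W cl) {c : ℕ}
    (hd : sdim W + c = M.Z.dim) {q : H →₀ ℚ} (hq : ∀ x, 0 ≤ q x) :
    (q.sum fun x r => r • ((cl x).h.cls ⊗ₜ ny M0.Z (cl x).V)) ∈ Cn M0.Z (T × Fin R.r) c := by
  refine sum_mem fun x _ => Cn_smul (AddSubmonoid.subset_closure ?_) (hq x)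
  obtain ⟨b, hb, -⟩ := ny_ng' (cl x).sub
  have h1 := hc.dim x
  have h2 := dim_mod M M0
  have h3 := Fintype.card_le_of_injective _ (I2_inj (cl x).h)
  exact ⟨Fintype.card (T × Fin R.r) - Fintype.card (cl x).κ, b, by omega, _,
    nn_Mn (I2_inj (cl x).h) (by omega), _, ny_Eff (cl x).sub hb, rfl⟩

theorem P13_td (M : Mod X T) (M0 : Mod R.B₀ T) (A : AV M.Z) (A₀ : AV M0.Z)
    (lh : LH (M := M.prod M) (M0 := M0.prod M0) (MU := M) (MU0 := M0) A.sub A₀.sub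
      (Tr.crd (Prod.map Sum.inl id) - Tr.crd (Prod.map Sum.inr id))) :
    Nonempty (TD A₀ (Prod.map Sum.inl id : T × Fin R.r → (T ⊕ T) × Fin R.r)
      (Prod.map Sum.inr id) A) := by
  obtain ⟨v0, v1⟩ := vlm_pos (R := R)
  obtain ⟨Rl, h, key⟩ : ∃ Rl, P13_RP (M.Z.prod M.Z) (M0.Z.prod M0.Z) ((T ⊕ T) × Fin R.r)
      (vlm R ^ Fintype.card (T ⊕ T)).toReal Rl ∧ ∀ (W : Sub K M.S) (c : ℕ),
      (W : Set (M.S.Pt K)) ⊆ M.Z.pts → sdim W + c = M.Z.dim → ∃ z,
        (∀ n, z n ∈ Cn M0.Z (T × Fin R.r) c) ∧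
        P13_RH Rl (p1 M.Z M.Z) (p1 M0.Z M0.Z) (pb (Prod.map Sum.inl id)) (ny M.Z W) z ∧
        P13_RH Rl (p2 M.Z M.Z) (p2 M0.Z M0.Z) (pb (Prod.map Sum.inr id)) (ny M.Z W) z ∧
        P13_RH Rl A.sub A₀.sub (pb (Prod.map Sum.inl id) - pb (Prod.map Sum.inr id))
          (ny M.Z W) z := by
    refine ⟨_, P13_rp p hΓ (M.prod M) (M0.prod M0), fun W c hW hc => ?_⟩
    obtain ⟨H, cl, hcov⟩ := exists_cov hΓ M M0 W
    have := hcov.cnt
    obtain ⟨q, hq⟩ := exists_app fun x => (cl x).mass M W / vlm R ^ Fintype.card T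
    exact ⟨_, fun n => P13_mem hcov hc (hq.nonneg n), P13_rel hW hcov hq lh_p1 (vecMul_crd _),
      P13_rel hW hcov hq lh_p2 (vecMul_crd _), P13_rel hW hcov hq lh (P13_sub _ _)⟩
  exact ⟨⟨_, ENNReal.toReal_pos (pow_ne_zero _ v0) (ENNReal.pow_ne_top v1), Rl, h.one, h.add,
    h.smul, h.mul, h.tau, key⟩⟩

variable (R) in
theorem exists_td : Nonempty (TD R.A₀ (Prod.map Sum.inl id : Unit × Fin R.r → (Unit ⊕ Unit) × Fin R.r)
    (Prod.map Sum.inr id) R.A) := by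
  exact P13_td p hΓ (Mod.one X) (Mod.one R.B₀) R.A R.A₀ lh_sub

omit hΓ in
theorem main (hΓ : (Set.range fun a : K => ‖a‖).Countable) (R : Ray k X)
    (hB : R.B₀.dim ≤ 3 ∨ HodgeAll R.B₀) {f : MvPolynomial P.V K} {a : P.ι →₀ ℕ} (hf : IsForm f a)
    (ha : ∀ i, 0 < a i) (h : ∃ x ∈ X.pts, ev x f ≠ 0) (n : ℕ) (hn : 2 * n ≤ X.dim) :
    Chw.Hodge X (Chw.sec X f) n := by
  obtain ⟨D⟩ := exists_td R p (Gam_countable hΓ)
  refine hodge_of_hd hf (fun hv => h.elim fun x hx => hx.2 (hv x hx.1))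
    (hd_of_td R.A₀ ?_ D ?_ hB ha hn)
  · have e : (Sum.elim (Prod.map Sum.inl id) (Prod.map Sum.inr id) :
        (Unit × Fin R.r) ⊕ (Unit × Fin R.r) → (Unit ⊕ Unit) × Fin R.r) =
        (Equiv.sumProdDistrib Unit Unit (Fin R.r)).symm := by
      funext x
      rcases x with x | x <;> rfl
    rw [e]
    exact Equiv.bijective _
  · simpa using R.dim

end Pool.Agent.Work.MP_ffcd14_ag.Ry
end

-- merged part: Pool.Agent.Work.MP_ffcd14_ag.Ry.F1
section
/-!
# The main theorem, for all the polarisations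
-/

namespace Pool.Agent.Work.MP_ffcd14_ag.Ry

open MP_10f4af_ag Tr

universe u

theorem main_all {k K : Type u} [Field k] [IsAlgClosed k] [NontriviallyNormedField K] [Cf k K]
    [IsUltrametricDist K] [CompleteSpace K] [IsAlgClosed K] {P : Amb} {X : SV K P} (p : ℕ)
    [Fact p.Prime] [CharP K p] [Countable k] (hΓ : (Set.range fun a : K => ‖a‖).Countable)
    (R : Ray k X) (hB : 3 < R.B₀.dim → HodgeAll R.B₀) : HodgeAll X := by
  obtain ⟨D⟩ := exists_td R p (Gam_countable hΓ)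
  refine all_of_td R.A₀ ?_ D ?_ hB
  · have e : (Sum.elim (Prod.map Sum.inl id) (Prod.map Sum.inr id) :
        (Unit × Fin R.r) ⊕ (Unit × Fin R.r) → (Unit ⊕ Unit) × Fin R.r) =
        (Equiv.sumProdDistrib Unit Unit (Fin R.r)).symm := by
      funext x
      rcases x with x | x <;> rfl
    rw [e]
    exact Equiv.bijective _
  · simpa using R.dim

end Pool.Agent.Work.MP_ffcd14_ag.Ry
end
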