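import Pool.Agent.Work.MP_ffcd14_ag.Ry.N2
import Pool.Agent.Work.MP_ffcd14_ag.Ry.W5

-- merged part: Pool.Agent.Work.MP_ffcd14_ag.Ry.P2
section
/-!
# Families of points of `E`

Model: `Tr/A2`; library `Tr/G1` (`on_mod`, `same_mod`, `On.isGen`, `On.rk_le`, `exists_loc`),
`Tr/I1` (`exists_dom_lat`, `lat_add`), `Ry/W1` (`cl_sub`).
The statements on families follow factor by factor (`on_mod`, `same_mod`, `lf_comp`); `fld` of a
point of `M0` is generated by the `fld` of the factors (`fld_lf`).  `abhE`: `abh` with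
`A = rat (thE M ξ)`, `crE_mem`, `rk_rat_norm`.
`same_gen`: equal `fld` give
equal `rk`.  `exists_chE`: by `F.ne` and `G2_zero` the residues of the coordinates of the chart do
not vanish (`rs_ne_zero`); `exists_chg`, `rs_div`.
-/

namespace Pool.Agent.Work.MP_ffcd14_ag.Ry

open MvPolynomial Filter Topology MP_10f4af_ag MP_10f4af_ag.Nu Tr MeasureTheory
open scoped ENNReal

set_option linter.unusedSectionVars false

universe u

variable {k K : Type u} [Field k] [IsAlgClosed k] [NontriviallyNormedField K] [Cf k K]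
  [IsUltrametricDist K] [CompleteSpace K] [IsAlgClosed K] {P : Amb} {X : SV K P} {R : Ray k X}
  {T U U' : Type} [Fintype T] [DecidableEq T] [Fintype U] [DecidableEq U] [Fintype U']
  [DecidableEq U'] {Ω Ω' : Type u} [NormedField Ω] [NormedAlgebra K Ω] [IsUltrametricDist Ω]
  [CompleteSpace Ω] [NormedField Ω'] [NormedAlgebra K Ω'] [IsUltrametricDist Ω'] [CompleteSpace Ω']
  {M : Mod X T} {M0 : Mod R.B₀ T} {MU : Mod X U} {MU0 : Mod R.B₀ U}

variable {ξ ζ : EF R Ω T}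

theorem P2_same {F L : Type u} [Field F] [IsAlgClosed F] [Field L] [Algebra F L] {Y : SV F P}
    (M : Mod Y T) {w w' : T → P.V → L} : Same (lf M w) (lf M w') ↔ ∀ t, Same (w t) (w' t) :=
  (same_mod M).trans (forall_congr' fun t => by rw [lf_comp, lf_comp])

theorem P2_th (M : Mod X T) (ξ : EF R Ω T) (t : T) : thE M ξ ∘ (M.β t).ε = (ξ t).th R.c :=
  lf_comp M _ t

theorem P2_log {n : T → Fin R.r → ℤ} (h : Oks ξ)
    (e : ∀ t i, ‖(ζ t).t i‖ = (∏ j, ‖R.lam j i‖ ^ n t j) * ‖(ξ t).t i‖) :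
    trE ζ = trE ξ + lat (lg R.lam) fun q => n q.1 q.2 := by
  funext q
  have a : ∀ j, ‖R.lam j q.2‖ ^ n q.1 j ≠ 0 := fun j =>
    zpow_ne_zero _ (norm_ne_zero_iff.2 (R.ne j q.2))
  rw [trE, e, Real.log_mul (Finset.prod_ne_zero_iff.2 fun j _ => a j)
    (norm_ne_zero_iff.2 ((h q.1).2.2.2 q.2)), Real.log_prod fun j _ => a j, add_comm]
  simp only [Real.log_zpow]
  rfl

theorem thE_map (M : Mod X T) (h : Oks ξ) {ψ : Ω →ₐ[K] Ω'} (hψ : Iso ψ) :
    thE M (mapE ψ ξ) = fun s => ψ (thE M ξ s) := by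
  exact funext fun s => th_map (h _) hψ _

theorem oks_map {ψ : Ω →ₐ[K] Ω'} (hψ : Iso ψ) : Oks (mapE ψ ξ) ↔ Oks ξ := by
  exact forall_congr' fun t => ok_map hψ

theorem trE_map {ψ : Ω →ₐ[K] Ω'} (hψ : Iso ψ) : trE (mapE ψ ξ) = trE ξ := by
  exact funext fun q => congrArg Real.log (hψ _)

theorem vbE_map {ψ : Ω →ₐ[K] Ω'} (hψ : Iso ψ) : ∃ φ : RF k K Ω →ₐ[k] RF k K Ω',
    (∀ z, φ (rs k K z) = rs k K (ψ z)) ∧ ∀ (M0 : Mod R.B₀ T) (ξ : EF R Ω T),
      vbE M0 (mapE ψ ξ) = fun s => φ (vbE M0 ξ s) := by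
  obtain ⟨φ, hφ⟩ := exists_rmap (k := k) hψ
  exact ⟨φ, hφ, fun M0 ξ => funext fun s => (hφ _).symm⟩

theorem on_thE (M : Mod X T) (h : Oks ξ) : On M.Z.pts (thE M ξ) := by
  refine (on_mod M).2 fun t => ?_
  rw [P2_th]
  exact R.on Ω _ (h t)

theorem on_vbE (M0 : Mod R.B₀ T) (h : Oks ξ) : On M0.Z.pts (vbE M0 ξ) := by
  refine (on_mod M0).2 fun t => ?_
  rw [vbE, lf_comp]
  exact on_vb (h t)

theorem exists_vbE (M0 : Mod R.B₀ T) (h : Oks ξ) : ∃ V : Sub k M0.S,
    (V : Set (M0.S.Pt k)) ⊆ M0.Z.pts ∧ IsGen (V : Set (M0.S.Pt k)) (vbE M0 ξ) := by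
  obtain ⟨V, hV⟩ := exists_loc (k := k) (vbE M0 ξ) (on_vbE M0 h).1
  exact ⟨V, (on_iff hV M0.Z.closed).1 (on_vbE M0 h), hV⟩

theorem fld_vbE (M0 : Mod R.B₀ T) (h : Oks ξ) : fld k (vbE M0 ξ) =
    IntermediateField.adjoin k (Set.range fun q : T × CV R.Q => rs k K ((ξ q.1).v q.2)) := by
  rw [vbE, fld_lf]
  refine le_antisymm (iSup_le fun t => IntermediateField.adjoin_le_iff.2 ?_)
    (IntermediateField.adjoin_le_iff.2 ?_)
  · rintro _ ⟨i, s, s', rfl⟩
    exact div_mem (IntermediateField.subset_adjoin _ _ ⟨(t, ⟨i, s⟩), rfl⟩)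
      (IntermediateField.subset_adjoin _ _ ⟨(t, ⟨i, s'⟩), rfl⟩)
  · rintro _ ⟨⟨t, i, s⟩, rfl⟩
    refine le_iSup (fun t => fld k fun s => rs k K ((ξ t).v s)) t
      (IntermediateField.subset_adjoin _ _ ⟨i, s, (ξ t).ς i, ?_⟩)
    beta_reduce
    rw [(h t).1 i, rs_one, div_one]

theorem thE_mem (M : Mod X T) (h : Oks ξ) (s : M.S.V) :
    thE M ξ s ∈ cl K (Set.range (crE ξ)) := by
  exact th_mem (S := Set.range (crE ξ)) (h _) (fun s => subset_cl _ ⟨.inr (_, s), rfl⟩)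
    (fun j => subset_cl _ ⟨.inl (_, j), rfl⟩) _

theorem crE_mem (M : Mod X T) (h : Oks ξ) (q : IX R T) : crE ξ q ∈ cl K (rat (thE M ξ)) := by
  have a : ∀ t, cl K (rat ((ξ t).th R.c)) ≤ cl K (rat (thE M ξ)) := fun t =>
    cl_le_cl fun y hy => subset_cl _ ((M.β t).Img_rat _ (by rwa [P2_th]))
  rcases q with q | q
  · exact a q.1 ((crd_mem (h q.1)).2 q.2)
  · exact a q.1 ((crd_mem (h q.1)).1 q.2)

theorem cl_crE (M : Mod X T) (h : Oks ξ) : cl K (Set.range (crE ξ)) = cl K (rat (thE M ξ)) := by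
  refine le_antisymm (cl_le_cl (Set.range_subset_iff.2 (crE_mem M h))) (cl_le_cl ?_)
  rintro _ ⟨i, s, t, rfl⟩
  exact div_mem (thE_mem M h _) (thE_mem M h _)

theorem lat_gam (n : T × Fin R.r → ℤ) (q : T × Fin R.r) : lat (lg R.lam) n q ∈ Gam K := by
  refine sum_mem fun j _ => ?_
  rw [← zsmul_eq_mul]
  exact zsmul_mem (log_mem (R.ne j q.2)) _

theorem exists_act (M : Mod X T) (h : Oks ξ) (n : T × Fin R.r → ℤ) : ∃ ζ : EF R Ω T, Oks ζ ∧
    Same (thE M ζ) (thE M ξ) ∧ trE ζ = trE ξ + lat (lg R.lam) n := by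
  choose ζ h1 h2 h3 using fun t => R.act Ω (ξ t) (fun j => n (t, j)) (h t)
  exact ⟨ζ, h1, (P2_same M).2 h2, P2_log h h3⟩

theorem exists_lift (M : Mod X T) {w : M.S.V → Ω} (h : On M.Z.pts w) :
    ∃ ξ : EF R Ω T, Oks ξ ∧ Same (thE M ξ) w ∧ trE ξ ∈ Dm R T := by
  choose ξ h1 h2 using fun t => R.surj Ω _ ((on_mod M).1 h t)
  obtain ⟨n, hn, -⟩ := exists_dom_lat (ℓ := lg R.lam) R.ind (trE ξ)
  obtain ⟨ζ, a, b, c⟩ := exists_act M (ξ := ξ) h1 (-n)
  refine ⟨ζ, a, b.trans ((same_mod M).2 fun t => ?_), by rwa [c, lat_neg, ← sub_eq_add_neg]⟩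
  rw [P2_th]
  exact h2 t

theorem same_lat (M0 : Mod R.B₀ T) (h : Oks ξ) (h' : Oks ζ) (e : Same (thE M ζ) (thE M ξ)) :
    (∃ n, trE ζ = trE ξ + lat (lg R.lam) n) ∧ fld k (vbE M0 ζ) = fld k (vbE M0 ξ) := by
  have e' := (P2_same M).1 e
  choose n hn using fun t => (R.lat Ω _ _ (h t) (h' t) (e' t)).1
  refine ⟨⟨_, P2_log h hn⟩, ?_⟩
  rw [vbE, vbE, fld_lf, fld_lf]
  exact iSup_congr fun t => fld_of_same (h t) (h' t) (e' t)

theorem same_gen (h : Oks ξ) (h' : Oks ζ) (e : Same (thE M ζ) (thE M ξ))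
    (hg : IsGen M0.Z.pts (vbE M0 ξ)) : IsGen M0.Z.pts (vbE M0 ζ) := by
  refine On.isGen (W := M0.Z.tp) (on_vbE M0 h') ?_
  rw [← IsGen.rk_rat (Z := M0.Z.tp) hg]
  exact rk_le_of_mem fun y hy => (same_lat M0 h h' e).2.ge (IntermediateField.subset_adjoin _ _ hy)

theorem same_dom (M0 : Mod R.B₀ T) (h : Oks ξ) (h' : Oks ζ) (e : Same (thE M ζ) (thE M ξ))
    (d : trE ξ ∈ Dm R T) (d' : trE ζ ∈ Dm R T) :
    trE ζ = trE ξ ∧ Same (vbE M0 ζ) (vbE M0 ξ) ∧ (chE ζ = chE ξ → ζ = ξ) := by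
  obtain ⟨⟨n, hn⟩, -⟩ := same_lat M0 h h' e
  have e' := (P2_same M).1 e
  have z : lat (lg R.lam) (0 : T × Fin R.r → ℤ) = 0 := funext fun q => by simp [lat]
  obtain rfl : n = 0 := (exists_dom_lat (ℓ := lg R.lam) R.ind (trE ζ)).unique
    (by rwa [hn, add_sub_cancel_right]) (by rwa [z, sub_zero])
  rw [z, add_zero] at hn
  have en : ∀ t j, ‖(ζ t).t j‖ = ‖(ξ t).t j‖ := fun t j => Real.log_injOn_pos
    (norm_pos_iff.2 ((h' t).2.2.2 j)) (norm_pos_iff.2 ((h t).2.2.2 j)) (congrFun hn (t, j))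
  exact ⟨hn, (P2_same M0).2 fun t =>
    (unit_of_same (h t) (h' t) (R.inj Ω _ _ (h t) (h' t) (e' t) (en t)).1).2,
    fun c => funext fun t => eq_of_same (h t) (h' t) (e' t) (en t) (congrFun c t)⟩

theorem exists_chE (M : Mod X T) (F : Frame M0) (h : Oks ξ)
    (hg : IsGen (F.V : Set (M0.S.Pt k)) (vbE M0 ξ)) : ∃ ζ : EF R Ω T, Oks ζ ∧ chE ζ = F.ς ∧
      trE ζ = trE ξ ∧ Same (thE M ζ) (thE M ξ) ∧ Same (vbE M0 ζ) (vbE M0 ξ) := by
  have u : ∀ t i, rs k K ((ξ t).v ⟨i, F.ς t i⟩) ≠ 0 := fun t i e =>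
    F.ne t i ((G2_zero hg _).1 ((lf_ε M0 _ t _).trans e))
  have u' := fun t i => (rs_ne_zero ((h t).2.1 _)).1 (u t i)
  choose ζ h1 h2 h3 h4 h5 using fun t => exists_chg (h t) (u' t)
  refine ⟨ζ, h1, funext h2, funext fun q => congrArg Real.log (h4 _ _), (P2_same M).2 h5,
    (P2_same M0).2 fun t => ?_⟩
  rw [show (fun s => rs k K ((ζ t).v s)) = _ from funext fun s => by
    rw [h3, rs_div ((h t).2.1 s) (u' t _)]]
  exact same_norm (u t)

theorem abhE (M : Mod X T) (h : Oks ξ) {V : Sub k M0.S}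
    (hg : IsGen (V : Set (M0.S.Pt k)) (vbE M0 ξ)) :
    ((rnk K (trE ξ) + sdim V : ℕ) : ℕ∞) ≤ rk K (rat (thE M ξ)) := by
  refine le_trans ?_ (abh (k := k) (x := fun q : T × Fin R.r => (ξ q.1).t q.2)
    (fun q => (h q.1).2.2.2 q.2) (v := fun q : T × CV R.Q => (ξ q.1).v q.2)
    (fun q => (h q.1).2.1 q.2) (fun q => crE_mem M h (.inl q)) fun q => crE_mem M h (.inr q))
  rw [Nat.cast_add, ← hg.rk_rat]
  exact add_le_add le_rfl (rk_le_of_mem fun y hy =>
    (fld_vbE M0 h).le (IntermediateField.subset_adjoin _ _ hy))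

theorem abh_le (h : Oks ξ) {V : Sub k M0.S} (hg : IsGen (V : Set (M0.S.Pt k)) (vbE M0 ξ))
    {W : Sub K M.S} (hW : On (W : Set (M.S.Pt K)) (thE M ξ)) :
    rnk K (trE ξ) + sdim V ≤ sdim W := by
  exact Nat.cast_le.1 ((abhE M h hg).trans hW.rk_le)

theorem gen_thE (h : Oks ξ) {V : Sub k M0.S} (hg : IsGen (V : Set (M0.S.Pt k)) (vbE M0 ξ))
    {W : Sub K M.S} (hW : On (W : Set (M.S.Pt K)) (thE M ξ))
    (hd : sdim W ≤ rnk K (trE ξ) + sdim V) : IsGen (W : Set (M.S.Pt K)) (thE M ξ) := by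
  exact hW.isGen ((Nat.cast_le.2 hd).trans (abhE M h hg))

theorem dim_mod (M : Mod X T) (M0 : Mod R.B₀ T) :
    Fintype.card (T × Fin R.r) + M0.Z.dim = M.Z.dim := by
  rw [M.dim, M0.dim, Fintype.card_prod, Fintype.card_fin, Nat.card_eq_fintype_card, ← R.dim, mul_add]

theorem vlm_pos : vlm R ≠ 0 ∧ vlm R ≠ ⊤ := by
  exact ⟨(ENNReal.ofReal_pos.2 (cov_pos R.ind)).ne', ENNReal.ofReal_ne_top⟩

/-! The encoding -/

theorem trop_ep {ς : Ch R T} {z : PE R T} (h : Oks (ep ς z)) : z.trop = exy (trE (ep ς z)) := by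
  funext q
  rcases q with q | q
  · rfl
  · have a : ‖z.x (.inr q) - algebraMap K z.Ω (cc K)‖ < ‖algebraMap K z.Ω (cc K)‖ :=
      ((h q.1).2.1 q.2).trans_lt ((cc_spec K).trans_eq (norm_algebraMap' _ _).symm)
    have b := IsUltrametricDist.norm_add_eq_max_of_norm_ne_norm a.ne
    rw [sub_add_cancel, max_eq_right a.le, norm_algebraMap'] at b
    exact congrArg Real.log b

theorem exy_inj {y y' : T × Fin R.r → ℝ} (h : exy y = exy y') : y = y' := by
  exact funext fun q => congrFun h (.inl q)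

theorem tight_iff (ς : Ch R T) (z : PE R T) :
    z.Tight ↔ cl K (Set.range (crE (ep ς z))) = ⊤ := by
  have e : crE (ep ς z) = fun q => z.x q - algebraMap K z.Ω (Sum.elim (fun _ => 0) (fun _ => cc K) q) := by
    funext q
    rcases q with q | q
    · exact ((congrArg (z.x (.inl q) - ·) (map_zero _)).trans (sub_zero _)).symm
    · rfl
  rw [e, cl_sub]
  rfl

theorem le_iff (ς : Ch R T) (z z' : PE R T) :
    z.Le z' ↔ ∃ ψ : z.Ω →ₐ[K] z'.Ω, Iso ψ ∧ mapE ψ (ep ς z) = ep ς z' := by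
  refine exists_congr fun ψ => and_congr_right fun _ => ⟨fun e => funext fun t => ?_, fun e q => ?_⟩
  · exact congrArg₂ (EP.mk (ς t)) (funext fun s => (map_sub ψ _ _).trans (by rw [e, ψ.commutes]))
      (funext fun j => e _)
  · rcases q with q | q
    · exact congrArg (fun ξ => (ξ q.1).t q.2) e
    · have a : ψ (z.x (.inr q) - algebraMap K _ (cc K)) = z'.x (.inr q) - algebraMap K _ (cc K) :=
        congrArg (fun ξ => (ξ q.1).v q.2) e
      rwa [map_sub, ψ.commutes, sub_left_inj] at a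

theorem sh_ep (c : Cell M0) (z : PE R T) : sh z (Tr.crd c.μ) c.sc =
    Sum.elim (fun j => crE (ep c.ς z) (.inl (c.h.μ j))) fun j => crE (ep c.ς z) (.inr (c.ν j)) := by
  funext j
  rw [sh, Pt.ch_crd]
  rcases j with j | j
  · exact (congrArg (z.x (.inl (c.h.μ j)) - ·) (map_zero _)).trans (sub_zero _)
  · rfl

theorem cl_ch (c : Cell M0) (z : PE R T) : cl K (Set.range (z.ch (Tr.crd c.μ))) =
    cl K (Set.range (Sum.elim (fun j => crE (ep c.ς z) (.inl (c.h.μ j)))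
      fun j => crE (ep c.ς z) (.inr (c.ν j)))) := by
  rw [← sh_ep]
  exact (cl_sub _ _).symm

end Pool.Agent.Work.MP_ffcd14_ag.Ry
end

-- merged part: Pool.Agent.Work.MP_ffcd14_ag.Ry.P3
section
/-!
# Frames

Library: `Cyc/Gen` (`exists_gen`, `IsGen.lift`, `IsGen.ker`, `exists_inCh_iff`), `Cyc/Rk`,
`MP_10f4af_ag/G1`, `G2`, `PX`.
Plan.  `exists_frame`: choose a point of `V` and its chart; take the generic point `v` of
`exists_gen`, and a transcendence basis among its coordinates (`exists_rel_basis`, or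
`exists_isTranscendenceBasis_subset`), of cardinality `sdim V` (`IsGen.rk_rat`, `rk_rat_norm`); any
other normalised generic point is the image of `v` under an embedding (`IsGen.lift`), which preserves
independence and `relfinrank` (`relfinrank_map_map`).  `relf_prod`: with `A`, `B` the two big fields
and `A₀`, `B₀` the small ones, a basis of `A` over `A₀` is a basis of `A B₀` over `A₀ B₀`, and a
basis of `B` over `B₀` is a basis of `A B` over `A B₀` (clear denominators; or the tower lemmas of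
`IntermediateField.LinearDisjoint`).  `ld_of_gen`: by `idl_xp` (or directly: a relation
`∑ f i (x) * g i (y) = 0` holds at all the points of the chart of `V × V'`; if the `f i` are
independent over `k` modulo `chI V`, then each `g i` vanishes on the chart of `V'`); use
`Subalgebra.LinearDisjoint` for `Algebra.adjoin` and pass to the fraction fields.
`dgH_gen`: `Amb.elim v w` is a generic point of `gl φ V` (`on_gl`, `On.isGen`, `sdim_gl`,
`on_graph`), `deg_eq`, `isGen_img`.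
-/

namespace Pool.Agent.Work.MP_ffcd14_ag.Ry

open MvPolynomial Filter Topology MP_10f4af_ag MP_10f4af_ag.Nu Tr MeasureTheory
open scoped ENNReal

set_option linter.unusedSectionVars false

universe u

variable {k K : Type u} [Field k] [IsAlgClosed k] [NontriviallyNormedField K] [Cf k K]
  [IsUltrametricDist K] [CompleteSpace K] [IsAlgClosed K] {P : Amb} {X : SV K P} {R : Ray k X}
  {T U U' : Type} [Fintype T] [DecidableEq T] [Fintype U] [DecidableEq U] [Fintype U']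
  [DecidableEq U'] {Ω Ω' : Type u} [NormedField Ω] [NormedAlgebra K Ω] [IsUltrametricDist Ω]
  [CompleteSpace Ω] [NormedField Ω'] [NormedAlgebra K Ω'] [IsUltrametricDist Ω'] [CompleteSpace Ω']
  {M : Mod X T} {M0 : Mod R.B₀ T} {MU : Mod X U} {MU0 : Mod R.B₀ U}

section

variable {L : Type u} [Field L] [Algebra k L] {Q S : Amb}

open scoped IntermediateField.algebraAdjoinAdjoin in
theorem P3_fr {F E : Type u} [Field F] [Field E] [Algebra F E] {S : Subalgebra F E} {s : Set E}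
    (h : S.LinearDisjoint (Algebra.adjoin F s)) :
    S.LinearDisjoint (IntermediateField.adjoin F s).toSubalgebra :=
  Subalgebra.LinearDisjoint.of_basis_left _ _ (Module.Free.chooseBasis F S)
    ((LinearIndependent.iff_fractionRing (Algebra.adjoin F s) (IntermediateField.adjoin F s)).1
      (h.linearIndependent_left_of_flat (Module.Free.chooseBasis F S).linearIndependent))

theorem P3_tow {F E : Type u} [Field F] [Field E] [Algebra F E] {A₀ A B : IntermediateField F E}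
    (h : A₀ ≤ A) (H : A.LinearDisjoint B) (d : A₀.relfinrank A ≠ 0) :
    (A₀ ⊔ B).relfinrank (A ⊔ B) = A₀.relfinrank A := by
  rw [IntermediateField.relfinrank_eq_finrank_of_le h] at d ⊢
  have := Module.Free.of_divisionRing A₀ (IntermediateField.extendScalars h)
  have := Module.finite_of_finrank_pos (Nat.pos_of_ne_zero d)
  have : FaithfulSMul A₀ (IntermediateField.extendScalars h) :=
    (faithfulSMul_iff_algebraMap_injective _ _).2
      (algebraMap A₀ (IntermediateField.extendScalars h)).injective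
  let b := Module.Free.chooseBasis F B
  have hb : LinearIndependent (IntermediateField.extendScalars h) (B.val ∘ b) :=
    H.linearIndependent_right b.linearIndependent
  have hb0 : LinearIndependent A₀ (B.val ∘ b) := hb.restrict_scalars' A₀
  have e := Subalgebra.adjoin_eq_span_basis A₀ B.toSubalgebra b
  let c := (Module.Basis.span hb0).map (LinearEquiv.ofEq _ _ e.symm)
  have h1 : (IntermediateField.extendScalars h).toSubalgebra.LinearDisjoint
      (Algebra.adjoin A₀ (B : Set E)) := by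
    refine Subalgebra.LinearDisjoint.of_basis_right _ _ c ?_
    have e1 : (Algebra.adjoin A₀ (B : Set E)).val ∘ c = B.val ∘ b := funext fun i =>
      Module.Basis.coe_span_apply hb0 i
    exact e1 ▸ hb
  have h2 := IntermediateField.linearDisjoint_iff'.2 (P3_fr h1)
  have e2 : IntermediateField.adjoin A₀ (B : Set E) =
      IntermediateField.extendScalars (le_sup_left : A₀ ≤ A₀ ⊔ B) :=
    IntermediateField.restrictScalars_injective F (by
      rw [IntermediateField.restrictScalars_adjoin_eq_sup, IntermediateField.adjoin_self]; rfl)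
  rw [e2] at h2
  have h3 := h2.adjoin_rank_eq_rank_left_of_isAlgebraic_left
  have e3 : IntermediateField.extendScalars (sup_le_sup_right h B) =
      IntermediateField.adjoin ↥(A₀ ⊔ B) (A : Set E) :=
    IntermediateField.restrictScalars_injective F (by
      rw [IntermediateField.restrictScalars_adjoin_eq_sup, IntermediateField.adjoin_self,
        IntermediateField.extendScalars_restrictScalars, sup_right_comm, sup_eq_right.2 h])
  rw [IntermediateField.relfinrank_eq_finrank_of_le (sup_le_sup_right h B), e3]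
  exact congrArg Cardinal.toNat h3

theorem P3_ai {R A σ : Type*} [CommRing R] [CommRing A] [Algebra R A] {x : σ → A} :
    AlgebraicIndependent R x ↔ LinearIndependent R fun d : σ →₀ ℕ => d.prod fun i n => x i ^ n := by
  have e : (aeval x : MvPolynomial σ R →ₐ[R] A).toLinearMap =
      Finsupp.linearCombination R (fun d : σ →₀ ℕ => d.prod fun i n => x i ^ n) ∘ₗ
        (basisMonomials σ R).repr.toLinearMap := (basisMonomials σ R).ext fun d => by
    rw [LinearMap.comp_apply, LinearEquiv.coe_coe, Module.Basis.repr_self]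
    simp [aeval_monomial]
  change Function.Injective (aeval x : MvPolynomial σ R →ₐ[R] A).toLinearMap ↔ _
  rw [e, LinearMap.coe_comp, LinearEquiv.coe_coe, EquivLike.injective_comp]
  rfl

theorem relf_prod {σ τ n n' : Type} [Finite σ] [Finite τ] {x : σ → L} {y : τ → L}
    (h : (IntermediateField.adjoin k (Set.range x)).LinearDisjoint
      (IntermediateField.adjoin k (Set.range y))) {ν : n → σ} {ν' : n' → τ}
    (h1 : AlgebraicIndependent k (x ∘ ν)) (h2 : AlgebraicIndependent k (y ∘ ν'))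
    (d1 : (IntermediateField.adjoin k (Set.range (x ∘ ν))).relfinrank
      (IntermediateField.adjoin k (Set.range x)) ≠ 0)
    (d2 : (IntermediateField.adjoin k (Set.range (y ∘ ν'))).relfinrank
      (IntermediateField.adjoin k (Set.range y)) ≠ 0) :
    AlgebraicIndependent k (Sum.elim (x ∘ ν) (y ∘ ν')) ∧
      (IntermediateField.adjoin k (Set.range (Sum.elim (x ∘ ν) (y ∘ ν')))).relfinrank
          (IntermediateField.adjoin k (Set.range (Sum.elim x y))) =
        (IntermediateField.adjoin k (Set.range (x ∘ ν))).relfinrank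
            (IntermediateField.adjoin k (Set.range x)) *
          (IntermediateField.adjoin k (Set.range (y ∘ ν'))).relfinrank
            (IntermediateField.adjoin k (Set.range y)) := by
  have l1 := IntermediateField.adjoin.mono k _ _ (Set.range_comp_subset_range ν x)
  have l2 := IntermediateField.adjoin.mono k _ _ (Set.range_comp_subset_range ν' y)
  constructor
  · refine h2.sumElim_of_tower (S := IntermediateField.adjoin k (Set.range y)) ?_ (P3_ai.2 ?_)
    · rintro _ ⟨j, rfl⟩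
      exact ⟨⟨_, IntermediateField.subset_adjoin k _ ⟨ν' j, rfl⟩⟩, rfl⟩
    · let a : (n →₀ ℕ) → IntermediateField.adjoin k (Set.range x) := fun d =>
        ⟨d.prod fun i m => (x ∘ ν) i ^ m, prod_mem fun i _ =>
          pow_mem (IntermediateField.subset_adjoin k _ (Set.mem_range_self (ν i))) _⟩
      exact h.linearIndependent_left (a := a) (LinearIndependent.of_comp
        (IntermediateField.adjoin k (Set.range x)).val.toLinearMap (P3_ai.1 h1))
  · rw [Set.Sum.elim_range, Set.Sum.elim_range, IntermediateField.adjoin_union,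
      IntermediateField.adjoin_union, ← IntermediateField.relfinrank_mul_relfinrank
        (sup_le_sup_right l1 _) (sup_le_sup_left l2 _), P3_tow l1 (h.of_le_right l2) d1,
      sup_comm, sup_comm _ (IntermediateField.adjoin k (Set.range y)), P3_tow l2 h.symm d2]

theorem P3_gen {V : Sub k Q} {V' : Sub k S} {x : Q.V → L} {y : S.V → L}
    (h : IsGen (xp2 V V' : Set ((Q.sum S).Pt k)) (Amb.elim x y)) :
    IsGen (V : Set (Q.Pt k)) x ∧ IsGen (V' : Set (S.Pt k)) y := by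
  have h1 := (Crd.inl k Q S).isGen_img h
  have h2 := (Crd.inr k Q S).isGen_img h
  rw [xp2, bij_sum.img_xp] at h1
  rw [xp2, bij_sum.img_xp'] at h2
  exact ⟨h1, h2⟩

theorem ld_of_gen {V : Sub k Q} {V' : Sub k S} {x : Q.V → L} {y : S.V → L}
    (h : IsGen (xp2 V V' : Set ((Q.sum S).Pt k)) (Amb.elim x y)) {ς : ∀ i, Q.σ i} {ς' : ∀ i, S.σ i}
    (hx : ∀ i, x ⟨i, ς i⟩ = 1) (hy : ∀ i, y ⟨i, ς' i⟩ = 1) :
    (IntermediateField.adjoin k (Set.range x)).LinearDisjoint
      (IntermediateField.adjoin k (Set.range y)) := by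
  obtain ⟨g1, g2⟩ := P3_gen h
  refine IntermediateField.linearDisjoint_iff'.2 (P3_fr (P3_fr ?_).symm).symm
  let a := Module.Free.chooseBasis k (Algebra.adjoin k (Set.range x))
  refine Subalgebra.LinearDisjoint.of_basis_left _ (Algebra.adjoin k (Set.range y)) a
    (linearIndependent_iff'.2 fun s g e i hi => ?_)
  choose f hf using fun i => (Algebra.adjoin_range_eq_range_aeval k x).le (a i).2
  choose G hG using fun i => (Algebra.adjoin_range_eq_range_aeval k y).le (g i).2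
  let ς2 : ∀ i, (Q.sum S).σ i := fun i => Sum.rec (motive := fun i => (Q.sum S).σ i) ς ς' i
  have h1 : ∑ i ∈ s, rename (Crd.inr k Q S).ε (G i) * rename (Crd.inl k Q S).ε (f i) ∈
      chI (xp2 V V' : Set ((Q.sum S).Pt k)) ς2 := by
    rw [← h.ker (ς := ς2) (by rintro (i | i); exacts [hx i, hy i]), RingHom.mem_ker, map_sum, ← e]
    refine Finset.sum_congr rfl fun i _ => ?_
    rw [map_mul, aeval_rename, aeval_rename]
    exact congrArg₂ _ (hG i) (hf i)
  have h2 : G i ∈ chI (V' : Set (S.Pt k)) ς' := fun q hq hq' => by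
    have h3 : ∑ i ∈ s, eval (hat ς' q) (G i) • f i ∈ chI (V : Set (Q.Pt k)) ς := fun p hp hp' => by
      rw [← h1 (mkPt p q) (mem_xp2.2 ⟨hp, hq⟩) (by rintro (i | i); exacts [hp' i, hq' i]),
        map_sum, map_sum]
      refine Finset.sum_congr rfl fun i _ => ?_
      rw [map_mul, eval_rename, eval_rename, smul_eval]
      rfl
    rw [← g1.ker hx, RingHom.mem_ker, map_sum] at h3
    refine linearIndependent_iff'.1 a.linearIndependent s (fun i => eval (hat ς' q) (G i))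
      (Subtype.ext ?_) i hi
    rw [AddSubmonoidClass.coe_finsetSum]
    exact (Finset.sum_congr rfl fun i _ =>
      ((map_smul (aeval x) _ _).trans (congrArg _ (hf i))).symm).trans h3
  rw [← g2.ker hy] at h2
  exact Subtype.ext ((hG i).symm.trans h2)

theorem gen_xp2 {V : Sub k Q} {V' : Sub k S} {x : Q.V → L} {y : S.V → L}
    (h : IsGen (xp2 V V' : Set ((Q.sum S).Pt k)) (Amb.elim x y)) :
    IsGen (V : Set (Q.Pt k)) x ∧ IsGen (V' : Set (S.Pt k)) y := P3_gen h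

theorem on_xp2 {V : Sub k Q} {V' : Sub k S} {x : Q.V → L} {y : S.V → L} :
    On (xp2 V V' : Set ((Q.sum S).Pt k)) (Amb.elim x y) ↔
      On (V : Set (Q.Pt k)) x ∧ On (V' : Set (S.Pt k)) y := on_xp bij_sum

theorem dgH_gen {Y : Var k Q} {Y' : Var k S} (φ : Hom Y Y') {V : Sub k Q}
    (hV : (V : Set (Q.Pt k)) ⊆ Y.pts) {v : Q.V → L} {w : S.V → L} (h : IsGen (V : Set (Q.Pt k)) v)
    (hg : On φ.graph.pts (Amb.elim v w)) : dgH φ V hV = (fld k w).relfinrank (fld k v) ∧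
      fld k w ≤ fld k v ∧ IsGen (im φ V hV : Set (S.Pt k)) w := by
  have h2 := ((on_gl φ hV).2 ⟨on_of_gen h, hg⟩).isGen (by
    rw [sdim_gl, ← h.rk_rat]
    exact rk_mono ((Crd.inl k Q S).Img_rat (Amb.elim v w)))
  have h3 := (on_graph φ hg).2.2
  refine ⟨?_, h3 ▸ fld_le (Crd.inr k Q S) (Amb.elim v w), (Crd.inr k Q S).isGen_img h2⟩
  rw [dgH, deg_eq (Crd.inr k Q S) h2, h3]
  rfl

theorem gen_iff_dgH {Y : SV k Q} {Y' : SV k S} (φ : Hom Y.toVar Y'.toVar) {V : Sub k Q}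
    (hV : (V : Set (Q.Pt k)) ⊆ Y.pts) {v : Q.V → L} {w : S.V → L} (h : IsGen (V : Set (Q.Pt k)) v)
    (hg : On φ.graph.pts (Amb.elim v w)) :
    (IsGen Y'.pts w → Y'.dim ≤ sdim V) ∧
      (sdim V = Y'.dim → (IsGen Y'.pts w ↔ dgH φ V hV ≠ 0)) := by
  obtain ⟨-, -, h3⟩ := dgH_gen φ hV h hg
  have a : IsGen Y'.pts w → sdim (im φ V hV) = Y'.dim := fun hw => by
    rw [h3.unique (Z' := Y'.tp) hw, Y'.sdim_tp]
  refine ⟨fun hw => (a hw).ge.trans (sdim_im_le φ hV), fun e =>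
    ⟨fun hw => (dgH_ne φ hV).2 ((a hw).trans e.symm), fun hd => ?_⟩⟩
  have e' : im φ V hV = Y'.tp :=
    eq_of_sdim_le (im_sub φ hV) (by rw [Y'.sdim_tp, (dgH_ne φ hV).1 hd, e])
  rwa [e'] at h3

theorem countable_sub [Countable k] (Q : Amb) : Countable (Sub k Q) := by
  have : Countable (MvPolynomial Q.V k) := (basisMonomials Q.V k).repr.injective.countable
  have : Countable (Ideal (MvPolynomial Q.V k)) := Function.Surjective.countable
    (f := fun s : Finset (MvPolynomial Q.V k) => Ideal.span (s : Set (MvPolynomial Q.V k)))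
    fun I => IsNoetherian.noetherian I
  exact Function.Injective.countable (f := fun Z : Sub k Q => idl (Z : Set (Q.Pt k)))
    fun _ _ => idl_inj

end

theorem lf_prod {F : Type u} [Field F] [IsAlgClosed F] {Y : SV F P} {α : Type u} (M : Mod Y T)
    (M' : Mod Y U) (w : T ⊕ U → P.V → α) :
    lf (M.prod M') w = Amb.elim (lf M fun t => w (.inl t)) (lf M' fun u => w (.inr u)) := by
  refine (M.prod M').eps_ext ?_
  rintro (t | t) s
  · exact (lf_ε _ _ _ _).trans (lf_ε M (fun t => w (.inl t)) t s).symm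
  · exact (lf_ε _ _ _ _).trans (lf_ε M' (fun t => w (.inr t)) t s).symm

theorem P3_ch {F : Type u} [Field F] {Y : SV F P} (M : Mod Y T) (ς : T → ∀ i, P.σ i) :
    ∃ ς' : ∀ j, M.S.σ j, ∀ (α : Type u) (p : α → Prop) (v : M.S.V → α),
      (∀ t i, p (v ((M.β t).ε ⟨i, ς t i⟩))) → ∀ j, p (v ⟨j, ς' j⟩) := by
  have h (j : M.S.ι) : ∃ s : M.S.σ j, ∃ t i, (⟨j, s⟩ : M.S.V) = (M.β t).ε ⟨i, ς t i⟩ := by
    obtain ⟨⟨t, i⟩, rfl⟩ := M.bψ.2 j
    exact G1_ex (p := fun a => ∃ t i, a = (M.β t).ε ⟨i, ς t i⟩) ((M.β t).fst ⟨i, ς t i⟩) ⟨t, i, rfl⟩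
  choose ς' t i e using h
  exact ⟨ς', fun _ _ _ h j => e j ▸ h _ _⟩

theorem P3_rng {F : Type u} [Field F] {Y : SV F P} {α : Type u} (M : Mod Y T) (w : T → P.V → α) :
    Set.range (lf M w) = Set.range fun q : T × CV P => w q.1 q.2 :=
  (Equiv.ofBijective _ M.bε).symm.surjective.range_comp fun q : T × P.V => w q.1 q.2

theorem exists_frame (M0 : Mod R.B₀ T) {V : Sub k M0.S} (hV : (V : Set (M0.S.Pt k)) ⊆ M0.Z.pts) :
    ∃ F : Frame M0, F.V = V := by
  obtain ⟨z, hz⟩ := V.isIrreducible.nonempty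
  choose ς hς using fun t => exists_inCh ((M0.β t).pr z)
  obtain ⟨ς', c⟩ := P3_ch M0 ς
  obtain ⟨L, _, _, v, h, hv, ht⟩ := exists_gen V ς'
    ⟨z, hz, c k (· ≠ 0) (rp z) fun t i => (M0.β t).rp_pr z _ ▸ hς t i⟩
  obtain ⟨I, hI⟩ := (AlgebraicIndependent.matroid k L).exists_isBasis (Set.range v) (Set.subset_univ _)
  have h1 : I.encard = sdim V := hI.encard_eq_eRk.trans ((rk_rat_norm v ς' hv).symm.trans h.rk_rat)
  have : Finite I := Set.finite_of_encard_eq_coe h1
  have e := (Finite.equivFinOfCardEq (n := sdim V) ((Nat.card_coe_set_eq I).trans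
    (by rw [Set.ncard_def, h1, ENat.toNat_natCast]))).symm
  obtain ⟨i1, i2, i3⟩ := AlgebraicIndependent.matroid_isBasis_iff.1 hI
  have h2 (j) : ∃ q : T × CV R.Q, v ((M0.β q.1).ε q.2) = e j := by
    obtain ⟨s, hs⟩ := i2 (e j).2
    obtain ⟨q, rfl⟩ := M0.bε.2 s
    exact ⟨q, hs⟩
  choose ν hν using h2
  refine ⟨⟨V, hV, ς, fun t i H => hς t i ((G2_evX _ _ _).symm.trans (H z hz)), Fin (sdim V), ν,
    Fintype.card_fin _, _, Nat.pos_of_ne_zero ((G2_relf i2 (Set.finite_range v)).2 i3),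
    fun L' _ _ w hw h3 => ?_⟩, rfl⟩
  obtain ⟨ψ, hψ⟩ := h.lift hw hv (c L' (· = 1) _ fun t i => (lf_ε M0 w t _).trans (h3 t i)) ht
  have e1 : (fun j => w (ν j).1 (ν j).2) = ψ ∘ Subtype.val ∘ e := funext fun j =>
    (lf_ε M0 w _ _).symm.trans ((hψ _).symm.trans (congrArg ψ (hν j)))
  rw [e1, ← P3_rng M0, ← funext hψ, Set.range_comp, e.surjective.range_comp, Subtype.range_coe,
    Set.range_comp', ← IntermediateField.adjoin_map, ← IntermediateField.adjoin_map]
  exact ⟨(i1.comp e e.injective).map' ψ.injective, IntermediateField.relfinrank_map_map _ _ ψ⟩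

theorem Frame.rind (F : Frame M0) {ξ : EF R Ω T} (h : Oks ξ) (hc : chE ξ = F.ς)
    (hg : IsGen (F.V : Set (M0.S.Pt k)) (vbE M0 ξ)) :
    RInd k K (fun j => crE ξ (.inr (F.ν j))) ∧
      (IntermediateField.adjoin k (Set.range fun j => rs k K (crE ξ (.inr (F.ν j))))).relfinrank
        (fld k (vbE M0 ξ)) = F.d := by
  have s := F.spec (RF k K Ω) (fun t s => rs k K ((ξ t).v s)) hg fun t i => by
    rw [← hc]
    exact (congrArg _ ((h t).1 i)).trans rs_one
  rw [fld_vbE M0 h]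
  exact ⟨⟨fun j => (h _).2.1 _, s.1⟩, s.2⟩

theorem Frame.gen_of (F : Frame M0) {ξ : EF R Ω T} (h : Oks ξ)
    (ho : On (F.V : Set (M0.S.Pt k)) (vbE M0 ξ)) (hr : RInd k K fun j => crE ξ (.inr (F.ν j))) :
    IsGen (F.V : Set (M0.S.Pt k)) (vbE M0 ξ) := by
  refine ho.isGen (le_trans ?_ (rk_le_of_mem
    (t := Set.range fun j => rs k K (crE ξ (.inr (F.ν j)))) ?_))
  · rw [← F.card, rk, Matroid.Indep.eRk_eq_encard hr.2.to_subtype_range,
      ← ENat.card_eq_coe_fintype_card]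
    exact hr.2.injective.encard_range
  · rintro _ ⟨j, rfl⟩
    exact (fld_vbE M0 h).ge (IntermediateField.subset_adjoin _ _ ⟨F.ν j, rfl⟩)

/-- The product of two frames. -/
noncomputable def Frame.prod (F : Frame M0) (F' : Frame MU0) : Frame (M0.prod MU0) where
  V := xp2 F.V F'.V
  sub := xp2_sub F.sub F'.sub
  ς := Sum.elim F.ς F'.ς
  ne := by
    obtain ⟨p, hp⟩ := F.V.isIrreducible.nonempty
    obtain ⟨q, hq⟩ := F'.V.isIrreducible.nonempty
    rintro (t | t) i H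
    · exact F.ne t i fun p hp => (ev_X _ _).trans
        ((ev_X (mkPt p q) _).symm.trans (H (mkPt p q) (mem_xp2.2 ⟨hp, hq⟩)) :)
    · exact F'.ne t i fun q hq => (ev_X _ _).trans
        ((ev_X (mkPt p q) _).symm.trans (H (mkPt p q) (mem_xp2.2 ⟨hp, hq⟩)) :)
  n := F.n ⊕ F'.n
  ν := Sum.elim (fun j => (.inl (F.ν j).1, (F.ν j).2)) fun j => (.inr (F'.ν j).1, (F'.ν j).2)
  card := by
    rw [Fintype.card_sum, F.card, F'.card]
    exact (sdim_xp2 _ _).symm
  d := F.d * F'.d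
  pos := Nat.mul_pos F.pos F'.pos
  spec := by
    intro L _ _ w hw h
    rw [lf_prod] at hw
    obtain ⟨g1, g2⟩ := gen_xp2 hw
    have s1 := F.spec L _ g1 fun t => h (.inl t)
    have s2 := F'.spec L _ g2 fun t => h (.inr t)
    obtain ⟨ς, c⟩ := P3_ch M0 F.ς
    obtain ⟨ς', c'⟩ := P3_ch MU0 F'.ς
    have ld := ld_of_gen hw (c L (· = 1) _ fun t i => (lf_ε M0 _ t _).trans (h (.inl t) i))
      (c' L (· = 1) _ fun t i => (lf_ε MU0 _ t _).trans (h (.inr t) i))
    rw [P3_rng, P3_rng] at ld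
    obtain ⟨r1, r2⟩ := relf_prod ld s1.1 s2.1 (s1.2.trans_ne F.pos.ne') (s2.2.trans_ne F'.pos.ne')
    have e1 := (Equiv.sumProdDistrib T U (CV R.Q)).symm.surjective.range_comp fun q => w q.1 q.2
    have e2 {a b : F.n ⊕ F'.n → L} (h1 : ∀ j, a (.inl j) = b (.inl j))
      (h2 : ∀ j, a (.inr j) = b (.inr j)) : a = b := funext (Sum.forall.2 ⟨h1, h2⟩)
    refine ⟨(congrArg (fun a => AlgebraicIndependent k a) (e2 ?_ ?_)).mp r1, Eq.trans ?_ (r2.trans
      (congrArg₂ _ s1.2 s2.2))⟩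
    · exact fun _ => rfl
    · exact fun _ => rfl
    rw [← e1]
    refine congrArg₂ (fun (a : F.n ⊕ F'.n → L) (b : _ → L) => (IntermediateField.adjoin k
      (Set.range a)).relfinrank (IntermediateField.adjoin k (Set.range b)))
      (e2 (fun _ => rfl) fun _ => rfl) (funext ?_)
    rintro (q | q) <;> rfl

/-- The product of two cells. -/
noncomputable def Cell.prod (c : Cell M0) (c' : Cell MU0) : Cell (M0.prod MU0) where
  toFrame := c.toFrame.prod c'.toFrame
  κ := c.κ ⊕ c'.κ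
  h := c.h.prod (Equiv.sumProdDistrib T U (Fin R.r)).symm c'.h

/-- The cell of maximal dimension. -/
noncomputable def Frame.top (F : Frame M0) : Cell M0 where
  toFrame := F
  κ := T × Fin R.r
  h := Par.top K _

end Pool.Agent.Work.MP_ffcd14_ag.Ry
end

-- merged part: Pool.Agent.Work.MP_ffcd14_ag.Ry.P4
section
/-!
# Limits of points, measurability of the multiplicities

Model: `Tr/A1` (`Appr`, `appr_ser`, `appr_aeval`, `Appr.lim`), `tv_SW` in `Tr/A2`.
Plan.  `lim_crE`: the coordinates `crE (ep ς z)` are values `z.ev p` of fixed polynomials.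
`lim_oks`: the conditions are closed.  `lim_thE`: copy `Appr` relative to the set of the points with
`‖v‖ ≤ 1`: on these points, with bounded tropicalisation, the series `th` is a uniform limit of
Laurent polynomials (`R.ent`, `A1_corner`).  `Cell.nc`: `sh_ep`, `ort_of`, `Frame.rind`,
`Par.ev_mu`; saturation by `le_iff`, `thE_map`, `vbE_map`, `isGen_map`; finiteness by
`Ort.fd_of_dense` for `F = adjoin K (rat (thE ..))` (`cl_crE`, `fd_of_rk'`, `On.rk_le`, `cl_ch`).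
`Cell.meas`: `measurable_mlt`.  Let `f 1, …, f m` be forms which generate `idl V`; for valid points
`IsGen V (vbE ..)` says `‖f j (v)‖ < 1` for all `j` and `‖f (v)‖ = 1` for all the forms `f` which do
not vanish on `V` (`rs_evk`); `S N` is defined by `‖f j (v)‖ ≤ 1 - 1 / (N + 1)`.
-/

namespace Pool.Agent.Work.MP_ffcd14_ag.Ry

open MvPolynomial Filter Topology MP_10f4af_ag MP_10f4af_ag.Nu Tr MeasureTheory
open scoped ENNReal

set_option linter.unusedSectionVars false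

universe u

variable {k K : Type u} [Field k] [IsAlgClosed k] [NontriviallyNormedField K] [Cf k K]
  [IsUltrametricDist K] [CompleteSpace K] [IsAlgClosed K] {P : Amb} {X : SV K P} {R : Ray k X}
  {T U U' : Type} [Fintype T] [DecidableEq T] [Fintype U] [DecidableEq U] [Fintype U']
  [DecidableEq U'] {Ω Ω' : Type u} [NormedField Ω] [NormedAlgebra K Ω] [IsUltrametricDist Ω]
  [CompleteSpace Ω] [NormedField Ω'] [NormedAlgebra K Ω'] [IsUltrametricDist Ω'] [CompleteSpace Ω']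
  {M : Mod X T} {M0 : Mod R.B₀ T} {MU : Mod X U} {MU0 : Mod R.B₀ U}

/-- The tropicalisation of the torus part. -/
noncomputable def trP (z : PE R T) : T × Fin R.r → ℝ := z.trop ∘ Sum.inl

theorem trE_ep (ς : Ch R T) (z : PE R T) : trE (ep ς z) = trP z := rfl

theorem Frame.mem_fib (F : Frame M0) {W : Set (M.S.Pt K)} {y : T × Fin R.r → ℝ} {z : PE R T} :
    z ∈ Tr.fib (F.S M W) (exy y) ↔ z ∈ F.S M W ∧ trP z = y := by
  refine and_congr_right fun h => ?_
  rw [trop_ep h.1]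
  exact ⟨exy_inj, congrArg _⟩

section

variable {ι : Type} [Fintype ι] [DecidableEq ι] {S : Set (Pt K ι)} {B : ℝ}

/-- Uniform limits of Laurent polynomials on `S`. -/
def P4_Ap (S : Set (Pt K ι)) (F : ∀ ξ : Pt K ι, ξ.Ω) : Prop :=
  ∀ ε : ℝ, 0 < ε → ∃ p : MvPolynomial (ι ⊕ ι) K, ∀ ξ ∈ S, ‖F ξ - ξ.ev p‖ ≤ ε

theorem P4_bdd (hS : ∀ ξ ∈ S, ∀ i, |ξ.trop i| ≤ B) {F : ∀ ξ : Pt K ι, ξ.Ω} (h : P4_Ap S F) :
    ∃ C : ℝ, 1 ≤ C ∧ ∀ ξ ∈ S, ‖F ξ‖ ≤ C := by
  obtain ⟨p, hp⟩ := h 1 one_pos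
  obtain ⟨C, hC⟩ := ev_bdd p B
  refine ⟨max 1 C, le_max_left _ _, fun ξ hξ => ?_⟩
  rw [← sub_add_cancel (F ξ) (ξ.ev p)]
  exact (IsUltrametricDist.norm_add_le_max _ _).trans (max_le_max (hp ξ hξ) (hC ξ (hS ξ hξ)))

theorem P4_mul (hS : ∀ ξ ∈ S, ∀ i, |ξ.trop i| ≤ B) {F G : ∀ ξ : Pt K ι, ξ.Ω} (h : P4_Ap S F)
    (k : P4_Ap S G) : P4_Ap S fun ξ => F ξ * G ξ := by
  intro ε hε
  obtain ⟨C, c1, hC⟩ := P4_bdd hS h
  have c0 : 0 < C := one_pos.trans_le c1
  obtain ⟨q, hq⟩ := k _ (div_pos hε c0)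
  obtain ⟨D, hD⟩ := ev_bdd q B
  have d0 : 0 < max 1 D := one_pos.trans_le (le_max_left _ _)
  obtain ⟨p, hp⟩ := h _ (div_pos hε d0)
  refine ⟨p * q, fun ξ hξ => ?_⟩
  rw [map_mul, show F ξ * G ξ - ξ.ev p * ξ.ev q =
    F ξ * (G ξ - ξ.ev q) + ξ.ev q * (F ξ - ξ.ev p) by ring]
  refine (IsUltrametricDist.norm_add_le_max _ _).trans (max_le ?_ ?_) <;> rw [norm_mul]
  · exact (mul_le_mul (hC ξ hξ) (hq ξ hξ) (norm_nonneg _) c0.le).trans_eq
      (mul_div_cancel₀ _ c0.ne')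
  · exact (mul_le_mul (le_max_of_le_right (hD ξ (hS ξ hξ))) (hp ξ hξ) (norm_nonneg _)
      d0.le).trans_eq (mul_div_cancel₀ _ d0.ne')

theorem P4_aeval (hS : ∀ ξ ∈ S, ∀ i, |ξ.trop i| ≤ B) {W : Type} {F : ∀ ξ : Pt K ι, W → ξ.Ω}
    (h : ∀ w, P4_Ap S fun ξ => F ξ w) (f : MvPolynomial W K) :
    P4_Ap S fun ξ => aeval (F ξ) f := by
  induction f using MvPolynomial.induction_on with
  | C a =>
    refine fun ε hε => ⟨C a, fun ξ _ => ?_⟩
    simp only [algHom_C, sub_self, norm_zero]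
    exact hε.le
  | add p q hp hq =>
    intro ε hε
    obtain ⟨p', hp'⟩ := hp ε hε
    obtain ⟨q', hq'⟩ := hq ε hε
    refine ⟨p' + q', fun ξ hξ => ?_⟩
    simp only [map_add]
    rw [add_sub_add_comm]
    exact (IsUltrametricDist.norm_add_le_max _ _).trans (max_le (hp' ξ hξ) (hq' ξ hξ))
  | mul_X p w hp =>
    simp only [map_mul, aeval_X]
    exact P4_mul hS hp (h w)

theorem P4_lim {F : ∀ ξ : Pt K ι, ξ.Ω} (h : P4_Ap S F) {ζ : ℕ → Pt K ι} {𝒰 : Filter ℕ}
    {ξ : Pt K ι} (hl : Tr.Lim ζ 𝒰 ξ) (hζ : ∀ n, ζ n ∈ S) (hξ : ξ ∈ S) :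
    Tendsto (fun n => ‖F (ζ n)‖) 𝒰 (𝓝 ‖F ξ‖) := by
  refine Metric.tendsto_nhds.2 fun ε hε => ?_
  obtain ⟨p, hp⟩ := h (ε / 3) (by positivity)
  filter_upwards [Metric.tendsto_nhds.1 (hl p) (ε / 3) (by positivity)] with n hn
  have h1 := abs_le.1 ((abs_norm_sub_norm_le _ _).trans (hp _ (hζ n)))
  have h2 := abs_le.1 ((abs_norm_sub_norm_le _ _).trans (hp _ hξ))
  rw [Real.dist_eq, abs_lt] at hn ⊢
  constructor <;> linarith [h1.1, h1.2, h2.1, h2.2, hn.1, hn.2]

theorem P4_zero {ζ : ℕ → Pt K ι} {𝒰 : Ultrafilter ℕ} {a : ∀ n, (ζ n).Ω} {b : Ω}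
    (h : Tendsto (fun n => ‖a n‖) 𝒰 (𝓝 ‖b‖)) (e : ∀ n, a n = 0) : b = 0 := by
  simp only [e, norm_zero] at h
  exact norm_eq_zero.1 (tendsto_nhds_unique h tendsto_const_nhds)

end

variable (R T) in
/-- The coordinates as Laurent polynomials. -/
noncomputable def P4_p : IX R T → MvPolynomial (IX R T ⊕ IX R T) K :=
  Sum.elim (fun q => MvPolynomial.X (.inl (.inl q))) fun q =>
    MvPolynomial.X (.inl (.inr q)) - C (cc K)

theorem P4_ev (ς : Ch R T) (z : PE R T) (f : MvPolynomial (IX R T) K) :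
    z.ev (aeval (P4_p R T) f) = aeval (crE (ep ς z)) f := by
  rw [comp_aeval_apply]
  refine congrArg (aeval · f) (funext ?_)
  rintro (q | q) <;> simp [P4_p, Pt.ev, crE, ep]

theorem P4_th (ς : Ch R T) (B : ℝ) (t : T) (s : P.V) :
    P4_Ap {y : PE R T | Oks (ep ς y) ∧ ∀ i, |y.trop i| ≤ B} fun y => (ep ς y t).th R.c s := by
  intro ε hε
  have h1 : ∀ᶠ m in cofinite, ∀ σ : Fin R.r → Bool,
      ‖R.c (ς t) s m‖ * ∏ i, Real.exp (if σ i then B else -B) ^ m.2 i ≤ ε :=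
    eventually_all.2 fun σ => (R.ent _ _ _ fun i => Real.exp_pos _).eventually (ge_mem_nhds hε)
  have h2 := eventually_cofinite.1 h1
  choose q hq using fun (i : Fin R.r) (n : ℤ) => A1_zpow (K := K) (.inl (t, i) : IX R T) n
  refine ⟨∑ m ∈ h2.toFinset, C (R.c (ς t) s m) * (aeval (P4_p R T) (m.1.prod fun w n =>
    (MvPolynomial.X (.inr (t, w)) : MvPolynomial _ K) ^ n) * ∏ i, q i (m.2 i)), fun y hy => ?_⟩
  have h3 := (summable_th (hy.1 t) s).sum_add_tsum_compl (s := h2.toFinset)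
  simp only [map_sum, map_mul, map_prod, algHom_C, ← Algebra.smul_def, hq, P4_ev ς]
  simp only [map_finsuppProd, map_pow, aeval_X]
  refine (congrArg norm (sub_eq_of_eq_add' h3.symm)).trans_le ?_
  refine IsUltrametricDist.norm_tsum_le_of_forall_le_of_nonneg hε.le fun m => ?_
  have h5 : ∀ σ : Fin R.r → Bool,
      ‖R.c (ς t) s m‖ * ∏ i, Real.exp (if σ i then B else -B) ^ m.1.2 i ≤ ε :=
    by_contra fun k => m.2 (h2.mem_toFinset.2 k)
  rw [norm_smul, norm_mul, Finsupp.prod, norm_prod, norm_prod]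
  refine le_trans (mul_le_mul_of_nonneg_left ?_ (norm_nonneg _)) (h5 fun i => decide (0 ≤ m.1.2 i))
  refine (mul_le_of_le_one_left (by positivity) (Finset.prod_le_one (fun _ _ => norm_nonneg _)
    fun w _ => ?_)).trans (Finset.prod_le_prod (fun _ _ => norm_nonneg _) fun i _ => ?_)
  · rw [norm_pow]
    exact pow_le_one₀ (norm_nonneg _) ((hy.1 t).2.1 w)
  · rw [norm_zpow]
    simp only [decide_eq_true_eq]
    exact A1_corner (norm_pos_iff.2 (y.ne (.inl (t, i)))) (hy.2 _) (m.1.2 i)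

theorem P4_evk (ξ : EF R Ω T) (f : MvPolynomial M0.S.V k) :
    evk k K (lf M0 fun t => (ξ t).v) f = aeval (crE ξ)
      (rename (fun s => .inr ((Equiv.ofBijective _ M0.bε).symm s)) (map (algebraMap k K) f)) := by
  rw [aeval_rename]
  rfl

theorem P4_gen {V : Set (M0.S.Pt k)} {s : Finset (MvPolynomial M0.S.V k)}
    (hs : Ideal.span s = idl V) {ξ : EF R Ω T} (h : Oks ξ) : IsGen V (vbE M0 ξ) ↔
      (∀ f ∈ s, ‖evk k K (lf M0 fun t => (ξ t).v) f‖ < 1) ∧
        ∀ f a, IsForm f a → ¬ Van V f → ‖evk k K (lf M0 fun t => (ξ t).v) f‖ = 1 := by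
  have e := fun f => rs_evk (k := k) (K := K) (v := lf M0 fun t => (ξ t).v) (fun w => (h _).2.1 _) f
  have e' : ∀ f, rs k K (evk k K (lf M0 fun t => (ξ t).v) f) = aeval (vbE M0 ξ) f :=
    fun f => (e f).2
  simp only [← rs_eq_zero (k := k) (K := K) (e _).1, ← rs_ne_zero (k := k) (K := K) (e _).1, e']
  refine ⟨fun g => ⟨fun f hf => ?_, fun f a hf hv => mt (g.iff f a hf).1 hv⟩, fun g =>
    ⟨(on_vbE M0 h).1, fun f a hf => ⟨fun k => by_contra fun hv => g.2 f a hf hv k, fun hv => ?_⟩⟩⟩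
  · have : idl V ≤ RingHom.ker (aeval (vbE M0 ξ)) :=
      Ideal.span_le.2 fun f ⟨⟨a, hf⟩, hv⟩ => (g.iff f a hf).2 hv
    exact this (hs ▸ Ideal.subset_span hf)
  · have : idl V ≤ RingHom.ker (aeval (vbE M0 ξ)) := hs ▸ Ideal.span_le.2 g.1
    exact this (Ideal.subset_span ⟨⟨a, hf⟩, hv⟩)

section

variable (ς : Ch R T) {ζ : ℕ → PE R T} {𝒰 : Ultrafilter ℕ} {z : PE R T} (hl : Tr.Lim ζ 𝒰 z)

include hl

theorem lim_crE (f : MvPolynomial (IX R T) K) :
    Tendsto (fun n => ‖aeval (crE (ep ς (ζ n))) f‖) 𝒰 (𝓝 ‖aeval (crE (ep ς z)) f‖) := by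
  simp only [← P4_ev]
  exact hl _

theorem lim_oks (h : ∀ n, Oks (ep ς (ζ n))) : Oks (ep ς z) := by
  intro t
  have h1 : ∀ i, (ep ς z t).v ⟨i, ς t i⟩ = 1 := fun i => by
    have := P4_zero (lim_crE ς hl (MvPolynomial.X (.inr (t, ⟨i, ς t i⟩)) - 1)) fun n => by
      rw [map_sub, aeval_X, map_one]
      exact sub_eq_zero.2 ((h n t).1 i)
    rw [map_sub, aeval_X, map_one] at this
    exact sub_eq_zero.1 this
  refine ⟨h1, fun s => ?_, ⟨fun i => ⟨ς t i, by rw [h1]; exact one_ne_zero⟩, fun f a hf hv => ?_⟩,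
    fun j => z.ne _⟩
  · have := lim_crE ς hl (MvPolynomial.X (.inr (t, s)))
    simp only [aeval_X] at this
    exact le_of_tendsto' this fun n => (h n t).2.1 s
  · have := P4_zero (lim_crE ς hl (rename (fun s => (.inr (t, s) : IX R T)) f)) fun n => by
      rw [aeval_rename]
      exact (h n t).2.2.1.2 f a hf hv
    rwa [aeval_rename] at this

theorem lim_thE (M : Mod X T) (h : ∀ n, Oks (ep ς (ζ n))) (hb : Bdd ζ)
    (f : MvPolynomial M.S.V K) :
    Tendsto (fun n => ‖aeval (thE M (ep ς (ζ n))) f‖) 𝒰 (𝓝 ‖aeval (thE M (ep ς z)) f‖) := by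
  obtain ⟨B, hB⟩ := hb
  refine P4_lim (S := {y | Oks (ep ς y) ∧ ∀ i, |y.trop i| ≤ B})
    (P4_aeval (F := fun y => thE M (ep ς y)) (fun _ hy => hy.2) (fun w => P4_th ς B _ _) f) hl
    (fun n => ⟨h n, hB n⟩) ⟨lim_oks ς hl h, fun i => ?_⟩
  exact le_of_tendsto' (tendsto_pi_nhds.1 hl.trop i).abs fun n => hB n i

end

theorem Frame.sat (F : Frame M0) (W : Set (M.S.Pt K)) {z z' : PE R T} (h : z.Le z') :
    z ∈ F.S M W ↔ z' ∈ F.S M W := by
  obtain ⟨ψ, hψ, e⟩ := (le_iff F.ς z z').1 h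
  obtain ⟨φ, -, hφ⟩ := vbE_map (R := R) (T := T) hψ
  simp only [Frame.S, Set.mem_ofPred_eq, ← e, oks_map hψ, hφ, isGen_map]
  exact and_congr_right fun k => by rw [thE_map M k hψ, on_map]

theorem Cell.nc (p : ℕ) [Fact p.Prime] [CharP K p] (c : Cell M0) {W : Sub K M.S}
    (hd : Fintype.card c.κ + sdim c.V = sdim W) {η : c.κ → ℝ} (hη : Gen K η) :
    Nc (Tr.fib (c.S M W) (exy (c.h.ev η))) (Tr.crd c.μ) c.sc
      (Sum.elim (fun j => Real.exp (η j)) fun _ => 1) := by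
  have key : ∀ z ∈ Tr.fib (c.S M W) (exy (c.h.ev η)),
      (∀ j, Real.log ‖crE (ep c.ς z) (.inl (c.h.μ j))‖ = η j) ∧
        RInd k K fun j => crE (ep c.ς z) (.inr (c.ν j)) := fun z hz => by
    obtain ⟨h1, h2⟩ := c.mem_fib.1 hz
    exact ⟨fun j => (congrFun h2 _).trans (congrFun (c.h.ev_mu η) j),
      (c.rind h1.1 rfl h1.2.2).1⟩
  have ort : ∀ z ∈ Tr.fib (c.S M W) (exy (c.h.ev η)), Ort K (Sum.elim
      (fun j => crE (ep c.ς z) (.inl (c.h.μ j))) fun j => crE (ep c.ς z) (.inr (c.ν j))) :=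
    fun z hz => ort_of ⟨fun j => z.ne _, by rwa [funext (key z hz).1]⟩ (key z hz).2
  refine ⟨⟨fun z hz => sh_ep c z ▸ ort z hz, fun z hz => ?_⟩,
    fun z z' h => and_congr (c.sat _ h) (by rw [h.trop]), fun z hz ht => ?_⟩
  · rw [sh_ep]
    rintro (j | j)
    · rw [Sum.elim_inl, Sum.elim_inl, ← (key z hz).1 j]
      exact (Real.exp_log (norm_pos_iff.2 (z.ne _))).symm
    · exact (key z hz).2.norm j
  · rw [Pt.Fd, cl_ch]
    refine (ort z hz).fd_of_dense p (IntermediateField.adjoin K (rat (thE M (ep c.ς z))))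
      (top_unique ?_) (fd_of_rk' (G2_rat_finite _) ?_)
    · rw [← (tight_iff c.ς z).1 ht, cl_crE M hz.1.1]
      exact cl_le_cl ((IntermediateField.subset_adjoin K _).trans (subset_cl _))
    · rw [Fintype.card_sum, c.card, hd]
      exact On.rk_le hz.1.2.1

theorem Cell.meas (c : Cell M0) (M : Mod X T) (W : Set (M.S.Pt K)) : Measurable (c.ml M W) := by
  obtain ⟨s, hs⟩ := (isNoetherianRing_iff_ideal_fg _).1 inferInstance
    (idl (c.V : Set (M0.S.Pt k)))
  let S : ℕ → Set (PE R T) := fun N => {z | Oks (ep c.ς z) ∧ On W (thE M (ep c.ς z)) ∧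
    (∀ f ∈ s, 1 / ((N : ℝ) + 1) ≤ 1 - ‖evk k K (lf M0 fun t => (ep c.ς z t).v) f‖) ∧
      ∀ f a, IsForm f a → ¬ Van (c.V : Set (M0.S.Pt k)) f →
        ‖evk k K (lf M0 fun t => (ep c.ς z t).v) f‖ = 1}
  have e : c.S M W = ⋃ N, S N := by
    ext z
    rw [Set.mem_iUnion]
    constructor
    · rintro ⟨h1, h2, h3⟩
      obtain ⟨h4, h5⟩ := (P4_gen hs h1).1 h3
      obtain ⟨N, hN⟩ := ((eventually_all_finset s).2 fun f hf =>
        tendsto_one_div_add_atTop_nhds_zero_nat.eventually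
          (ge_mem_nhds (sub_pos.2 (h4 f hf)))).exists
      exact ⟨N, h1, h2, hN, h5⟩
    · rintro ⟨N, h1, h2, h4, h5⟩
      exact ⟨h1, h2, (P4_gen hs h1).2
        ⟨fun f hf => sub_pos.1 (Nat.one_div_pos_of_nat.trans_le (h4 f hf)), h5⟩⟩
  have h1 : Monotone S := fun N N' h z hz =>
    ⟨hz.1, hz.2.1, fun f hf => (Nat.one_div_le_one_div h).trans (hz.2.2.1 f hf), hz.2.2.2⟩
  have h2 : ∀ N, LimC (S N) := fun N ζ 𝒰 z h hb hl => by
    have k1 := lim_oks c.ς hl fun n => (h n).1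
    have k2 : ∀ f, Tendsto (fun n => ‖evk k K (lf M0 fun t => (ep c.ς (ζ n) t).v) f‖) 𝒰
        (𝓝 ‖evk k K (lf M0 fun t => (ep c.ς z t).v) f‖) := fun f => by
      simp only [P4_evk]
      exact lim_crE c.ς hl _
    refine ⟨k1, ⟨(on_thE M k1).1, fun f a hf hv => P4_zero
      (lim_thE c.ς hl M (fun n => (h n).1) hb f) fun n => (h n).2.1.2 f a hf hv⟩,
      fun f hf => ge_of_tendsto' ((k2 f).const_sub 1) fun n => (h n).2.2.1 f hf, fun f a hf hv => ?_⟩
    have k3 := k2 f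
    simp only [fun n => (h n).2.2.2 f a hf hv] at k3
    exact tendsto_nhds_unique k3 tendsto_const_nhds
  have h3 : Measurable (exy : (T × Fin R.r → ℝ) → IX R T → ℝ) :=
    measurable_pi_lambda _ fun q => by
      rcases q with q | q
      · exact measurable_pi_apply q
      · exact measurable_const
  unfold Cell.ml
  rw [e]
  exact (measurable_mlt h1 h2 _).comp h3

theorem Cell.meas' (c : Cell M0) (M : Mod X T) (W : Set (M.S.Pt K)) :
    Measurable fun η => (Dm R T).indicator (c.ml M W) (c.h.ev η) := by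
  exact ((c.meas M W).indicator (measurableSet_Dom R.ind)).comp c.h.continuous_ev.measurable

end Pool.Agent.Work.MP_ffcd14_ag.Ry
end
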